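import Mathlib

/-!
MP_e23cd6_ag, block ABUN: common definitions.

E n = complex n-space with the sup norm, a bounded domain with a marked pair of concentric balls,
groups acting on the domain, groups acting on the domain times the complex line by affine maps in the fibres.
-/

open Set Filter Topology Metric

namespace Pool.Agent.H.MP_e23cd6_ag.AB

/-- complex n-space with the sup norm -/
abbrev E (n : ℕ) := Fin n → ℂ

/-- A bounded domain in complex n-space with two marked concentric balls inside it. -/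
structure Dom (n : ℕ) where
  D : Set (E n)
  isOpen : IsOpen D
  conn : IsPreconnected D
  bdd : Bornology.IsBounded D
  b0 : E n
  r0 : ℝ
  r1 : ℝ
  hr0 : 0 < r0
  hr01 : r0 < r1
  hB : closedBall b0 r1 ⊆ D

/-- the smaller marked ball -/
def Dom.B {n : ℕ} (Ω : Dom n) : Set (E n) := closedBall Ω.b0 Ω.r0

/-- A group acting on a domain by holomorphic maps. -/
structure BaseAct {n : ℕ} (Ω : Dom n) (Γ : Type) [Group Γ] where
  β : Γ → E n → E n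
  maps : ∀ γ, MapsTo (β γ) Ω.D Ω.D
  holo : ∀ γ, DifferentiableOn ℂ (β γ) Ω.D
  one : ∀ b ∈ Ω.D, β 1 b = b
  mul : ∀ γ δ, ∀ b ∈ Ω.D, β (γ * δ) b = β γ (β δ b)

/-- A group acting on (domain times complex line) by maps
`(b, z) ↦ (β γ b, a γ b * z + c γ b)`, properly discontinuously and cocompactly. -/
structure AffAct {n : ℕ} (Ω : Dom n) (Γ : Type) [Group Γ] extends BaseAct Ω Γ where
  a : Γ → E n → ℂ
  c : Γ → E n → ℂ
  a_holo : ∀ γ, DifferentiableOn ℂ (a γ) Ω.D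
  c_holo : ∀ γ, DifferentiableOn ℂ (c γ) Ω.D
  a_ne : ∀ γ, ∀ b ∈ Ω.D, a γ b ≠ 0
  a_one : ∀ b ∈ Ω.D, a 1 b = 1
  c_one : ∀ b ∈ Ω.D, c 1 b = 0
  a_mul : ∀ γ δ, ∀ b ∈ Ω.D, a (γ * δ) b = a γ (β δ b) * a δ b
  c_mul : ∀ γ δ, ∀ b ∈ Ω.D, c (γ * δ) b = a γ (β δ b) * c δ b + c γ (β δ b)
  pd : ∀ K ⊆ Ω.D, IsCompact K → ∀ R : ℝ,
    {γ | ∃ b ∈ K, ∃ z : ℂ, ‖z‖ ≤ R ∧ β γ b ∈ K ∧ ‖a γ b * z + c γ b‖ ≤ R}.Finite
  cc : ∃ K ⊆ Ω.D, IsCompact K ∧ ∃ R : ℝ, ∀ b ∈ Ω.D, ∀ z : ℂ,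
    ∃ γ, β γ b ∈ K ∧ ‖a γ b * z + c γ b‖ ≤ R

/-- `X` is a limit field of the action: for arbitrarily small `t` there are group elements
equal to `id + tX + o(t)` on any given compact set (and the same for the inverses). -/
def IsLim {n : ℕ} {Ω : Dom n} {Γ : Type} [Group Γ] (A : BaseAct Ω Γ) (X : E n → E n) : Prop :=
  DifferentiableOn ℂ X Ω.D ∧ (∀ b, b ∉ Ω.D → X b = 0) ∧
  ∀ K ⊆ Ω.D, IsCompact K → ∀ ε : ℝ, 0 < ε → ∃ t : ℝ, 0 < t ∧ t < ε ∧ ∃ γ : Γ, ∀ b ∈ K,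
    ‖A.β γ b - b - (t : ℂ) • X b‖ ≤ ε * t ∧ ‖A.β γ⁻¹ b - b + (t : ℂ) • X b‖ ≤ ε * t

open Classical in
/-- the bracket of two vector fields (zero outside the domain) -/
noncomputable def br {n : ℕ} (Ω : Dom n) (X Y : E n → E n) (b : E n) : E n :=
  if b ∈ Ω.D then fderiv ℂ X b (Y b) - fderiv ℂ Y b (X b) else 0

open Classical in
/-- push forward of a vector field by a group element (zero outside the domain) -/
noncomputable def Ad {n : ℕ} {Ω : Dom n} {Γ : Type} [Group Γ] (A : BaseAct Ω Γ) (δ : Γ)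
    (X : E n → E n) (b : E n) : E n :=
  if b ∈ Ω.D then fderiv ℂ (A.β δ) (A.β δ⁻¹ b) (X (A.β δ⁻¹ b)) else 0

section easy

variable {n : ℕ} {Ω : Dom n} {Γ : Type} [Group Γ]

theorem Dom.B_sub (Ω : Dom n) : Ω.B ⊆ Ω.D :=
  (closedBall_subset_closedBall Ω.hr01.le).trans Ω.hB

theorem Dom.B_compact (Ω : Dom n) : IsCompact Ω.B := isCompact_closedBall _ _

theorem Dom.b0_mem_B (Ω : Dom n) : Ω.b0 ∈ Ω.B := mem_closedBall_self Ω.hr0.le

theorem Dom.b0_mem (Ω : Dom n) : Ω.b0 ∈ Ω.D := Ω.B_sub Ω.b0_mem_B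

theorem BaseAct.inv_left (A : BaseAct Ω Γ) (γ : Γ) {b : E n} (hb : b ∈ Ω.D) :
    A.β γ⁻¹ (A.β γ b) = b := by
  rw [← A.mul _ _ _ hb, inv_mul_cancel, A.one _ hb]

theorem BaseAct.inv_right (A : BaseAct Ω Γ) (γ : Γ) {b : E n} (hb : b ∈ Ω.D) :
    A.β γ (A.β γ⁻¹ b) = b := by
  rw [← A.mul _ _ _ hb, mul_inv_cancel, A.one _ hb]

theorem BaseAct.mem (A : BaseAct Ω Γ) (γ : Γ) {b : E n} (hb : b ∈ Ω.D) : A.β γ b ∈ Ω.D :=
  A.maps γ hb

theorem IsLim.holo {A : BaseAct Ω Γ} {X : E n → E n} (h : IsLim A X) :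
    DifferentiableOn ℂ X Ω.D := h.1

theorem IsLim.off {A : BaseAct Ω Γ} {X : E n → E n} (h : IsLim A X) {b : E n} (hb : b ∉ Ω.D) :
    X b = 0 := h.2.1 b hb

theorem br_apply {X Y : E n → E n} {b : E n} (hb : b ∈ Ω.D) :
    br Ω X Y b = fderiv ℂ X b (Y b) - fderiv ℂ Y b (X b) := by
  simp [br, hb]

theorem br_off {X Y : E n → E n} {b : E n} (hb : b ∉ Ω.D) : br Ω X Y b = 0 := by
  simp [br, hb]

theorem Ad_apply {A : BaseAct Ω Γ} {δ : Γ} {X : E n → E n} {b : E n} (hb : b ∈ Ω.D) :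
    Ad A δ X b = fderiv ℂ (A.β δ) (A.β δ⁻¹ b) (X (A.β δ⁻¹ b)) := by
  simp [Ad, hb]

theorem Ad_off {A : BaseAct Ω Γ} {δ : Γ} {X : E n → E n} {b : E n} (hb : b ∉ Ω.D) :
    Ad A δ X b = 0 := by
  simp [Ad, hb]

end easy

end Pool.Agent.H.MP_e23cd6_ag.AB
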