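import Pool.Agent.H.MP_3a36cd_an.SCV1
import Pool.Agent.H.MP_e23cd6_ag.AB.Defs

/-!
ABUN A6: derivatives of holomorphic maps are holomorphic; holomorphic logarithms on balls.
-/

open Set Filter Topology Metric

namespace Pool.Agent.H.MP_e23cd6_ag.AB

theorem holo_fderiv {V F : Type} [NormedAddCommGroup V] [NormedSpace ℂ V] [FiniteDimensional ℂ V]
    [NormedAddCommGroup F] [NormedSpace ℂ F] [CompleteSpace F] {U : Set V} (hU : IsOpen U)
    {f : V → F} (hf : DifferentiableOn ℂ f U) : DifferentiableOn ℂ (fderiv ℂ f) U := by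
  have h1 := Pool.Agent.ParLeaf.scv_contDiffOn hU hf
  rw [contDiffOn_infty_iff_fderiv_of_isOpen hU] at h1
  exact h1.2.differentiableOn (by simp)

theorem exists_log {n : ℕ} {x : E n} {r : ℝ} {a : E n → ℂ} (ha : DifferentiableOn ℂ a (ball x r))
    (hne : ∀ b ∈ ball x r, a b ≠ 0) :
    ∃ l : E n → ℂ, DifferentiableOn ℂ l (ball x r) ∧ ∀ b ∈ ball x r, Complex.exp (l b) = a b := by
  classical
  rcases le_or_gt r 0 with hr | hr
  · have he : ball x r = ∅ := ball_eq_empty.2 hr
    exact ⟨0, by simp [he], by simp [he]⟩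
  have hxm : x ∈ ball x r := mem_ball_self hr
  have hconv : Convex ℝ (ball x r) := convex_ball x r
  haveI : ContractibleSpace (ball x r) := hconv.contractibleSpace ⟨x, hxm⟩
  haveI : LocallyPathConnectedSpace (ball x r) := isOpen_ball.locallyPathConnectedSpace
  let f : C(ball x r, {z : ℂ // z ≠ 0}) :=
    ⟨fun b => ⟨a b.1, hne b.1 b.2⟩, by
      refine Continuous.subtype_mk ?_ _
      exact ha.continuousOn.restrict⟩
  obtain ⟨F, ⟨-, hF⟩, -⟩ := Complex.isCoveringMap_exp.existsUnique_continuousMap_lifts f ⟨x, hxm⟩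
    (Complex.log (a x)) (by
      apply Subtype.ext
      show Complex.exp (Complex.log (a x)) = a x
      exact Complex.exp_log (hne x hxm))
  have hF' : ∀ b (hb : b ∈ ball x r), Complex.exp (F ⟨b, hb⟩) = a b := by
    intro b hb
    have := congrFun hF ⟨b, hb⟩
    exact congrArg Subtype.val this
  refine ⟨fun b => if hb : b ∈ ball x r then F ⟨b, hb⟩ else 0, ?_, ?_⟩
  swap
  · intro b hb
    simp only [hb, dif_pos]
    exact hF' b hb
  set l : E n → ℂ := fun b => if hb : b ∈ ball x r then F ⟨b, hb⟩ else 0 with hl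
  have hlb : ∀ b (hb : b ∈ ball x r), l b = F ⟨b, hb⟩ := by
    intro b hb; simp only [hl, hb, dif_pos]
  have hexp : ∀ b ∈ ball x r, Complex.exp (l b) = a b := by
    intro b hb; rw [hlb b hb]; exact hF' b hb
  have hcont : ContinuousOn l (ball x r) := by
    rw [continuousOn_iff_continuous_restrict]
    have : (fun b : ball x r => l b.1) = F := by
      funext b
      exact hlb b.1 b.2
    show Continuous (fun b : ball x r => l b.1)
    rw [this]
    exact F.continuous
  intro b hb
  have hcb : ContinuousAt l b := hcont.continuousAt (isOpen_ball.mem_nhds hb)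
  have hab : DifferentiableAt ℂ a b := ha.differentiableAt (isOpen_ball.mem_nhds hb)
  have hane : a b ≠ 0 := hne b hb
  -- near b, l = l b + log (a / a b)
  have hev : ∀ᶠ y in 𝓝 b, l y = l b + Complex.log (a y / a b) := by
    have h1 : ∀ᶠ y in 𝓝 b, dist (l y) (l b) < 1 := hcb.eventually (ball_mem_nhds _ one_pos)
    have h2 : ∀ᶠ y in 𝓝 b, y ∈ ball x r := isOpen_ball.mem_nhds hb
    filter_upwards [h1, h2] with y hy1 hy2
    have h3 : a y / a b = Complex.exp (l y - l b) := by
      rw [Complex.exp_sub, hexp y hy2, hexp b hb]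
    have him : |(l y - l b).im| < 1 := by
      refine lt_of_le_of_lt (Complex.abs_im_le_norm _) ?_
      rwa [← dist_eq_norm]
    have hpi : (1 : ℝ) < Real.pi := by
      have := Real.pi_gt_three; linarith
    rw [h3, Complex.log_exp]
    · ring
    · have := (abs_lt.1 him).1; linarith
    · have := (abs_lt.1 him).2; linarith
  have hd : DifferentiableAt ℂ (fun y => l b + Complex.log (a y / a b)) b := by
    refine (differentiableAt_const _).add ?_
    have h5 : DifferentiableAt ℂ (fun y => a y / a b) b := by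
      simpa [div_eq_mul_inv] using hab.mul_const ((a b)⁻¹)
    refine DifferentiableAt.clog h5 ?_
    rw [div_self hane]
    exact Complex.one_mem_slitPlane
  exact (hd.congr_of_eventuallyEq hev).differentiableWithinAt

end Pool.Agent.H.MP_e23cd6_ag.AB
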