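import Pool.Agent.H.MP_e23cd6_ag.AB.A1
import Pool.Agent.H.MP_e23cd6_ag.AB.A6

/-!
ABUN F0: the infinitesimal Caratheodory length.

`UD Ω` = holomorphic functions from the domain to the open unit disc, `carLen Ω b v` = sup |Df(b) v|.

* `ud_bound`: K ⊆ D compact: choose r > 0 with cthickening r K ⊆ D; for f ∈ UD, b ∈ K: ‖Df(b)‖ ≤ 2/r (`cauchy_fderiv` on ball b r,
  f bounded by 1). So |Df(b) v| ≤ (2/r)‖v‖; for the second claim ‖Df(b') - Df(b)‖ ≤ (64/r²)‖b' - b‖ for ‖b' - b‖ ≤ r/9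
  (`cauchy_dlip`).
* `carLen_le`, `le_carLen`: csSup properties (bounded above by ud_bound, nonempty: f = 0).
* `carLen_nonneg`.
* `carLen_pos`: D is bounded, contained in ball b0 R; some coordinate v_i ≠ 0; f(x) = (x_i - (b0)_i)/R is in UD and
  Df(b) v = v_i/R ≠ 0.
* `carLen_lip`: from ud_bound: |Df(b') v' - Df(b) v| ≤ C (‖b'-b‖ ‖v‖ + ‖v' - v‖) for all f ∈ UD; take suprema. (b' is within ρ of K;
  apply ud_bound on cthickening ρ K for the term Df(b')(v' - v).)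
* `carLen_inv`: f ↦ f ∘ β γ is a bijection of UD; D(f ∘ β γ)(b) v = Df(β γ b)(Dβ_γ(b) v).
* `carLen_schwarz`: f ∈ UD, a = f b, the disc automorphism z ↦ (z - a)/(1 - conj a z) composed with f is in UD; its derivative at b is
  Df(b) v/(1 - |a|²).
-/

open Set Filter Topology Metric

namespace Pool.Agent.H.MP_e23cd6_ag.AB

variable {n : ℕ}

/-- holomorphic maps from the domain to the open unit disc -/
def UD (Ω : Dom n) : Set (E n → ℂ) :=
  {f | DifferentiableOn ℂ f Ω.D ∧ ∀ b ∈ Ω.D, ‖f b‖ < 1}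

/-- infinitesimal Caratheodory length -/
noncomputable def carLen (Ω : Dom n) (b v : E n) : ℝ :=
  sSup {x | ∃ f ∈ UD Ω, x = ‖fderiv ℂ f b v‖}

theorem ud_bound (Ω : Dom n) {K : Set (E n)} (hK : K ⊆ Ω.D) (hKc : IsCompact K) :
    ∃ C ρ : ℝ, 0 < C ∧ 0 < ρ ∧ cthickening ρ K ⊆ Ω.D ∧ ∀ f ∈ UD Ω, ∀ b ∈ K,
      ‖fderiv ℂ f b‖ ≤ C ∧
      ∀ b', ‖b' - b‖ ≤ ρ → ‖fderiv ℂ f b'‖ ≤ C ∧ ‖fderiv ℂ f b' - fderiv ℂ f b‖ ≤ C * ‖b' - b‖ := by
  obtain ⟨δ, hδ, hδK⟩ := hKc.exists_cthickening_subset_open Ω.isOpen hK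
  have h4 : (0 : ℝ) < 4 / δ := by positivity
  have h64 : (0 : ℝ) < 64 / δ ^ 2 := by positivity
  refine ⟨4 / δ + 64 / δ ^ 2, δ / 9, by positivity, by positivity,
    (cthickening_mono (by linarith) K).trans hδK, ?_⟩
  intro f hf b hb
  have hball : ball b δ ⊆ Ω.D :=
    (ball_subset_closedBall.trans (closedBall_subset_cthickening hb δ)).trans hδK
  have hdf : DifferentiableOn ℂ f (ball b δ) := hf.1.mono hball
  have hm : ∀ y ∈ ball b δ, ‖f y‖ ≤ 1 := fun y hy => (hf.2 y (hball hy)).le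
  refine ⟨?_, ?_⟩
  · have h1 := cauchy_fderiv hδ hdf hm
    have h2 : (2 * 1 / δ : ℝ) ≤ 4 / δ := by
      apply div_le_div_of_nonneg_right _ hδ.le
      norm_num
    linarith
  · intro b' hb'
    have hsub : ball b' (δ / 2) ⊆ ball b δ := by
      apply ball_subset_ball'
      rw [dist_eq_norm]
      linarith
    refine ⟨?_, ?_⟩
    · have h1 := cauchy_fderiv (half_pos hδ) (hdf.mono hsub) (fun y hy => hm y (hsub hy))
      have h2 : (2 * 1 / (δ / 2) : ℝ) = 4 / δ := by field_simp; norm_num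
      linarith
    · have hmem : b' ∈ ball b (δ / 8) := by
        rw [mem_ball, dist_eq_norm]
        linarith
      have h1 := cauchy_dlip hδ hdf hm hmem
      rw [mul_one] at h1
      refine h1.trans ?_
      apply mul_le_mul_of_nonneg_right _ (norm_nonneg _)
      linarith

theorem ud_comp {Ω : Dom n} {Γ : Type} [Group Γ] (A : BaseAct Ω Γ) (γ : Γ) {f : E n → ℂ}
    (hf : f ∈ UD Ω) : (fun b => f (A.β γ b)) ∈ UD Ω :=
  ⟨hf.1.comp (A.holo γ) (A.maps γ), fun _ hb => hf.2 _ (A.maps γ hb)⟩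

theorem ud_bddAbove {Ω : Dom n} {b : E n} (hb : b ∈ Ω.D) (v : E n) :
    BddAbove {x | ∃ f ∈ UD Ω, x = ‖fderiv ℂ f b v‖} := by
  obtain ⟨C, ρ, _, _, _, h⟩ := ud_bound Ω (singleton_subset_iff.2 hb) isCompact_singleton
  refine ⟨C * ‖v‖, ?_⟩
  rintro x ⟨f, hf, rfl⟩
  refine ((fderiv ℂ f b).le_opNorm v).trans ?_
  exact mul_le_mul_of_nonneg_right (h f hf b (mem_singleton b)).1 (norm_nonneg _)

theorem zero_mem_ud (Ω : Dom n) : (fun _ => (0 : ℂ)) ∈ UD Ω :=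
  ⟨differentiableOn_const _, fun b _ => by simp⟩

theorem le_carLen {Ω : Dom n} {b : E n} (hb : b ∈ Ω.D) {f : E n → ℂ} (hf : f ∈ UD Ω) (v : E n) :
    ‖fderiv ℂ f b v‖ ≤ carLen Ω b v :=
  le_csSup (ud_bddAbove hb v) ⟨f, hf, rfl⟩

theorem carLen_le {Ω : Dom n} {b v : E n} {m : ℝ} (h : ∀ f ∈ UD Ω, ‖fderiv ℂ f b v‖ ≤ m) :
    carLen Ω b v ≤ m := by
  refine csSup_le ⟨_, _, zero_mem_ud Ω, rfl⟩ ?_
  rintro x ⟨f, hf, rfl⟩
  exact h f hf

theorem carLen_nonneg (Ω : Dom n) (b v : E n) : 0 ≤ carLen Ω b v := by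
  refine Real.sSup_nonneg ?_
  rintro x ⟨f, _, rfl⟩
  exact norm_nonneg _

theorem carLen_pos {Ω : Dom n} {b v : E n} (hb : b ∈ Ω.D) (hv : v ≠ 0) : 0 < carLen Ω b v := by
  obtain ⟨R, hR, hD⟩ := Ω.bdd.subset_ball_lt 0 Ω.b0
  obtain ⟨i, hi⟩ := Function.ne_iff.1 hv
  have hi' : v i ≠ 0 := by simpa using hi
  set L : E n →L[ℂ] ℂ := ContinuousLinearMap.proj (R := ℂ) (φ := fun _ : Fin n => ℂ) i with hL
  set f : E n → ℂ := fun x => (R : ℂ)⁻¹ * (L x - Ω.b0 i) with hf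
  have hder : ∀ x, HasFDerivAt f ((R : ℂ)⁻¹ • L) x := by
    intro x
    have h1 : HasFDerivAt (fun x => L x - Ω.b0 i) L x := (L.hasFDerivAt (x := x)).sub_const _
    exact h1.const_mul _
  have hmem : f ∈ UD Ω := by
    refine ⟨fun x _ => (hder x).differentiableAt.differentiableWithinAt, fun x hx => ?_⟩
    have h1 := hD hx
    rw [mem_ball, dist_eq_norm] at h1
    have h2 : ‖x i - Ω.b0 i‖ ≤ ‖x - Ω.b0‖ := norm_le_pi_norm (x - Ω.b0) i
    have h3 : f x = (R : ℂ)⁻¹ * (x i - Ω.b0 i) := rfl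
    rw [h3, norm_mul, norm_inv, Complex.norm_real, Real.norm_eq_abs, abs_of_pos hR]
    have h4 : ‖x i - Ω.b0 i‖ < R := lt_of_le_of_lt h2 h1
    calc R⁻¹ * ‖x i - Ω.b0 i‖ < R⁻¹ * R := mul_lt_mul_of_pos_left h4 (inv_pos.2 hR)
      _ = 1 := inv_mul_cancel₀ hR.ne'
  refine lt_of_lt_of_le ?_ (le_carLen hb hmem v)
  rw [(hder b).fderiv]
  have h5 : ((R : ℂ)⁻¹ • L) v = (R : ℂ)⁻¹ * v i := rfl
  rw [h5, norm_pos_iff]
  have hR' : (R : ℂ) ≠ 0 := by exact_mod_cast hR.ne'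
  exact mul_ne_zero (inv_ne_zero hR') hi'

theorem carLen_lip (Ω : Dom n) {K : Set (E n)} (hK : K ⊆ Ω.D) (hKc : IsCompact K) :
    ∃ C ρ : ℝ, 0 < C ∧ 0 < ρ ∧ ∀ b ∈ K, ∀ b' v v' : E n, ‖b' - b‖ ≤ ρ →
      |carLen Ω b' v' - carLen Ω b v| ≤ C * (‖b' - b‖ * ‖v‖ + ‖v' - v‖) := by
  obtain ⟨C, ρ, hC, hρ, hthick, h⟩ := ud_bound Ω hK hKc
  refine ⟨C, ρ, hC, hρ, ?_⟩
  intro b hb b' v v' hbb
  have hb' : b' ∈ Ω.D := by
    apply hthick
    apply closedBall_subset_cthickening hb ρ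
    rw [mem_closedBall, dist_eq_norm]
    exact hbb
  have key : ∀ f ∈ UD Ω, ‖fderiv ℂ f b' v' - fderiv ℂ f b v‖ ≤
      C * (‖b' - b‖ * ‖v‖ + ‖v' - v‖) := by
    intro f hf
    have h1 := (h f hf b hb).2 b' hbb
    have e : fderiv ℂ f b' v' - fderiv ℂ f b v
        = fderiv ℂ f b' (v' - v) + (fderiv ℂ f b' - fderiv ℂ f b) v := by
      rw [map_sub, ContinuousLinearMap.sub_apply]
      ring
    rw [e]
    have h2 : ‖fderiv ℂ f b' (v' - v)‖ ≤ C * ‖v' - v‖ :=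
      ((fderiv ℂ f b').le_opNorm _).trans (mul_le_mul_of_nonneg_right h1.1 (norm_nonneg _))
    have h3 : ‖(fderiv ℂ f b' - fderiv ℂ f b) v‖ ≤ C * ‖b' - b‖ * ‖v‖ :=
      ((fderiv ℂ f b' - fderiv ℂ f b).le_opNorm _).trans
        (mul_le_mul_of_nonneg_right h1.2 (norm_nonneg _))
    have h4 := norm_add_le (fderiv ℂ f b' (v' - v)) ((fderiv ℂ f b' - fderiv ℂ f b) v)
    nlinarith [h2, h3, h4]
  rw [abs_le]
  constructor
  · have : carLen Ω b v ≤ carLen Ω b' v' + C * (‖b' - b‖ * ‖v‖ + ‖v' - v‖) := by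
      apply carLen_le
      intro f hf
      have h1 := key f hf
      have h2 := le_carLen hb' hf v'
      have h3 := norm_sub_norm_le (fderiv ℂ f b v) (fderiv ℂ f b' v')
      rw [norm_sub_rev] at h3
      linarith
    linarith
  · have : carLen Ω b' v' ≤ carLen Ω b v + C * (‖b' - b‖ * ‖v‖ + ‖v' - v‖) := by
      apply carLen_le
      intro f hf
      have h1 := key f hf
      have h2 := le_carLen (hK hb) hf v
      have h3 := norm_sub_norm_le (fderiv ℂ f b' v') (fderiv ℂ f b v)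
      linarith
    linarith

theorem carLen_inv {Ω : Dom n} {Γ : Type} [Group Γ] (A : BaseAct Ω Γ) (γ : Γ) {b : E n}
    (hb : b ∈ Ω.D) (v : E n) :
    carLen Ω (A.β γ b) (fderiv ℂ (A.β γ) b v) = carLen Ω b v := by
  have hβd : ∀ (δ : Γ) {c : E n}, c ∈ Ω.D → DifferentiableAt ℂ (A.β δ) c := fun δ c hc =>
    (A.holo δ).differentiableAt (Ω.isOpen.mem_nhds hc)
  have hfd : ∀ {f : E n → ℂ}, f ∈ UD Ω → ∀ {c : E n}, c ∈ Ω.D → DifferentiableAt ℂ f c :=
    fun hf c hc => hf.1.differentiableAt (Ω.isOpen.mem_nhds hc)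
  have hchain : ∀ {f : E n → ℂ}, f ∈ UD Ω →
      fderiv ℂ (fun x => f (A.β γ x)) b v = fderiv ℂ f (A.β γ b) (fderiv ℂ (A.β γ) b v) := by
    intro f hf
    have h1 := ((hfd hf (A.maps γ hb)).hasFDerivAt.comp b (hβd γ hb).hasFDerivAt).fderiv
    have h2 : (f ∘ A.β γ) = fun x => f (A.β γ x) := rfl
    rw [h2] at h1
    rw [h1]
    rfl
  apply le_antisymm
  · apply carLen_le
    intro f hf
    rw [← hchain hf]
    exact le_carLen hb (ud_comp A γ hf) v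
  · apply carLen_le
    intro f hf
    have hg := ud_comp A γ⁻¹ hf
    have h1 := hchain hg
    have h2 : (fun x => f (A.β γ⁻¹ (A.β γ x))) =ᶠ[𝓝 b] f := by
      filter_upwards [Ω.isOpen.mem_nhds hb] with x hx
      rw [A.inv_left γ hx]
    have h3 : fderiv ℂ (fun x => f (A.β γ⁻¹ (A.β γ x))) b = fderiv ℂ f b := h2.fderiv_eq
    rw [h3] at h1
    rw [h1]
    exact le_carLen (A.maps γ hb) hg _

theorem disc_lt {a z : ℂ} (ha : ‖a‖ < 1) (hz : ‖z‖ < 1) :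
    1 - (starRingEnd ℂ) a * z ≠ 0 ∧ ‖(z - a) / (1 - (starRingEnd ℂ) a * z)‖ < 1 := by
  have hne : 1 - (starRingEnd ℂ) a * z ≠ 0 := by
    intro h
    have h1 : (starRingEnd ℂ) a * z = 1 := by
      have := sub_eq_zero.1 h
      exact this.symm
    have h2 : ‖(starRingEnd ℂ) a * z‖ = 1 := by rw [h1]; simp
    rw [norm_mul, RCLike.norm_conj] at h2
    have h3 : ‖a‖ * ‖z‖ < 1 := by
      calc ‖a‖ * ‖z‖ ≤ ‖a‖ * 1 := mul_le_mul_of_nonneg_left hz.le (norm_nonneg _)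
        _ < 1 := by linarith
    linarith
  refine ⟨hne, ?_⟩
  rw [norm_div, div_lt_one (norm_pos_iff.2 hne)]
  have hsq : ‖z - a‖ ^ 2 < ‖1 - (starRingEnd ℂ) a * z‖ ^ 2 := by
    rw [← Complex.normSq_eq_norm_sq, ← Complex.normSq_eq_norm_sq]
    have ha2 : Complex.normSq a < 1 := by
      rw [Complex.normSq_eq_norm_sq]
      nlinarith [norm_nonneg a]
    have hz2 : Complex.normSq z < 1 := by
      rw [Complex.normSq_eq_norm_sq]
      nlinarith [norm_nonneg z]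
    have hid : Complex.normSq (1 - (starRingEnd ℂ) a * z) - Complex.normSq (z - a)
        = (1 - Complex.normSq a) * (1 - Complex.normSq z) := by
      simp only [Complex.normSq_apply, Complex.sub_re, Complex.sub_im, Complex.one_re,
        Complex.one_im, Complex.mul_re, Complex.mul_im, Complex.conj_re, Complex.conj_im]
      ring
    have hpos : 0 < (1 - Complex.normSq a) * (1 - Complex.normSq z) :=
      mul_pos (by linarith) (by linarith)
    linarith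
  exact lt_of_pow_lt_pow_left₀ 2 (norm_nonneg _) hsq

theorem carLen_schwarz {Ω : Dom n} {b : E n} (hb : b ∈ Ω.D) {f : E n → ℂ} (hf : f ∈ UD Ω)
    (v : E n) : ‖fderiv ℂ f b v‖ ≤ (1 - ‖f b‖ ^ 2) * carLen Ω b v := by
  set a := f b with ha
  have ha1 : ‖a‖ < 1 := hf.2 b hb
  have hpos : 0 < 1 - ‖a‖ ^ 2 := by nlinarith [norm_nonneg a]
  set m : ℂ → ℂ := fun z => (z - a) / (1 - (starRingEnd ℂ) a * z) with hm
  have hmder : ∀ z, ‖z‖ < 1 → HasDerivAt m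
      ((1 * (1 - (starRingEnd ℂ) a * z) - (z - a) * (-((starRingEnd ℂ) a * 1)))
        / (1 - (starRingEnd ℂ) a * z) ^ 2) z := by
    intro z hz
    have h1 : HasDerivAt (fun z : ℂ => z - a) 1 z := (hasDerivAt_id z).sub_const a
    have h2 : HasDerivAt (fun z : ℂ => 1 - (starRingEnd ℂ) a * z) (-((starRingEnd ℂ) a * 1)) z :=
      ((hasDerivAt_id z).const_mul _).const_sub 1
    exact h1.div h2 (disc_lt ha1 hz).1
  have hfd : DifferentiableAt ℂ f b := hf.1.differentiableAt (Ω.isOpen.mem_nhds hb)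
  have hgmem : (fun x => m (f x)) ∈ UD Ω := by
    refine ⟨fun x hx => ?_, fun x hx => (disc_lt ha1 (hf.2 x hx)).2⟩
    have h1 := (hmder (f x) (hf.2 x hx)).differentiableAt
    exact h1.comp_differentiableWithinAt x (hf.1 x hx)
  have hder : fderiv ℂ (fun x => m (f x)) b v = ((1 - ‖a‖ ^ 2 : ℝ) : ℂ)⁻¹ * fderiv ℂ f b v := by
    have h1 := ((hmder a ha1).comp_hasFDerivAt b hfd.hasFDerivAt).fderiv
    have h2 : (m ∘ f) = fun x => m (f x) := rfl
    rw [h2] at h1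
    rw [h1]
    have h3 : (1 - (starRingEnd ℂ) a * a) = ((1 - ‖a‖ ^ 2 : ℝ) : ℂ) := by
      rw [mul_comm, Complex.mul_conj, Complex.normSq_eq_norm_sq]
      push_cast
      ring
    have hne : ((1 - ‖a‖ ^ 2 : ℝ) : ℂ) ≠ 0 := by exact_mod_cast hpos.ne'
    rw [h3, sub_self, zero_mul, sub_zero, one_mul, sq]
    rw [ContinuousLinearMap.smul_apply, smul_eq_mul]
    congr 1
    field_simp
  have hle := le_carLen hb hgmem v
  rw [hder, norm_mul, norm_inv, Complex.norm_real, Real.norm_eq_abs, abs_of_pos hpos] at hle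
  rw [inv_mul_le_iff₀ hpos] at hle
  exact hle

end Pool.Agent.H.MP_e23cd6_ag.AB
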