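import Mathlib

/-!
ABUN A1: Cauchy estimates for holomorphic maps between complex normed spaces.

All statements are about `f : V → F`, holomorphic and bounded by `m` on `ball x r`.

* `cauchy_fderiv`: Mathlib's generalized Schwarz lemma `Complex.norm_fderiv_le_div_of_mapsTo_ball`
  (file Analysis/Complex/Schwarz) with R₂ slightly bigger than 2m (f maps the ball into
  ball (f x) R₂ for each R₂ > 2m; let R₂ decrease to 2m; m ≥ 0 because the ball is nonempty).
* `cauchy_lip`: on the convex set ball x (r/2) the derivative is bounded by 2m/(r/2) = 4m/r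
  (apply `cauchy_fderiv` on ball y (r/2), contained in ball x r), then the mean value inequality
  `Convex.norm_image_sub_le_of_norm_fderiv_le` (over ℂ, or restrict scalars to ℝ).
* `cauchy_second`: g y = f y - fderiv ℂ f x (y - x) satisfies g y - g x = o(‖y - x‖), so the version
  of order 1 of the Schwarz lemma (`Complex.dist_le_mul_div_pow_of_mapsTo_ball_of_isLittleO`) gives
  ‖g y - g x‖ ≤ R₂ (‖y-x‖/r)^2 with R₂ any number > sup ‖g - g x‖; and
  ‖g y - g x‖ ≤ 2m + (2m/r) r = 4m. (constant 8 leaves room)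
* `cauchy_dlip`: for ‖k‖ < r/4 the function z ↦ f (z+k) - f z is holomorphic on ball x (r/4) and bounded
  there by (4m/r)‖k‖ (cauchy_lip), so for y ∈ ball x (r/8) (cauchy_lip again, radius r/4):
  ‖(f (y+k) - f y) - (f (x+k) - f x)‖ ≤ 4 (4m/r)‖k‖/(r/4) ‖y-x‖ = 64 m/r² ‖k‖ ‖y-x‖. Replace k by t k,
  divide by t and let t → 0+: ‖(fderiv f y - fderiv f x) k‖ ≤ 64 m/r² ‖k‖ ‖y-x‖.
-/

open Set Filter Topology Metric

namespace Pool.Agent.H.MP_e23cd6_ag.AB

variable {V F : Type*} [NormedAddCommGroup V] [NormedSpace ℂ V]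
  [NormedAddCommGroup F] [NormedSpace ℂ F]

theorem cauchy_fderiv {f : V → F} {x : V} {r m : ℝ} (hr : 0 < r)
    (hf : DifferentiableOn ℂ f (ball x r)) (hm : ∀ y ∈ ball x r, ‖f y‖ ≤ m) :
    ‖fderiv ℂ f x‖ ≤ 2 * m / r := by
  refine Complex.norm_fderiv_le_div_of_mapsTo_ball hf (fun y hy => ?_) hr
  rw [mem_closedBall, dist_eq_norm]
  have h1 := hm y hy
  have h2 := hm x (mem_ball_self hr)
  have h3 := norm_sub_le (f y) (f x)
  linarith

theorem cauchy_lip {f : V → F} {x : V} {r m : ℝ} (hr : 0 < r)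
    (hf : DifferentiableOn ℂ f (ball x r)) (hm : ∀ y ∈ ball x r, ‖f y‖ ≤ m)
    {y z : V} (hy : y ∈ ball x (r / 2)) (hz : z ∈ ball x (r / 2)) :
    ‖f y - f z‖ ≤ 4 * m / r * ‖y - z‖ := by
  have hsub : ∀ u ∈ ball x (r / 2), ball u (r / 2) ⊆ ball x r := by
    intro u hu
    refine ball_subset_ball' ?_
    rw [mem_ball] at hu
    linarith
  let _ : NormedSpace ℝ V := NormedSpace.restrictScalars ℝ ℂ V
  refine Convex.norm_image_sub_le_of_norm_fderiv_le (𝕜 := ℂ) (s := ball x (r / 2)) ?_ ?_
    (convex_ball x (r / 2)) hz hy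
  · intro u hu
    exact hf.differentiableAt (isOpen_ball.mem_nhds (hsub u hu (mem_ball_self (by positivity))))
  · intro u hu
    have h := cauchy_fderiv (x := u) (r := r / 2) (m := m) (by positivity)
      (hf.mono (hsub u hu)) (fun y hy => hm y (hsub u hu hy))
    have e : 2 * m / (r / 2) = 4 * m / r := by
      field_simp
      ring
    rwa [e] at h

theorem cauchy_second {f : V → F} {x : V} {r m : ℝ} (hr : 0 < r)
    (hf : DifferentiableOn ℂ f (ball x r)) (hm : ∀ y ∈ ball x r, ‖f y‖ ≤ m)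
    {y : V} (hy : y ∈ ball x (r / 2)) :
    ‖f y - f x - fderiv ℂ f x (y - x)‖ ≤ 8 * m / r ^ 2 * ‖y - x‖ ^ 2 := by
  have hm0 : 0 ≤ m := (norm_nonneg _).trans (hm x (mem_ball_self hr))
  have hd : DifferentiableAt ℂ f x := hf.differentiableAt (ball_mem_nhds x hr)
  set L := fderiv ℂ f x with hL
  set g : V → F := fun z => f z - L (z - x) with hg
  have hgx : g x = f x := by simp [hg]
  have hgd : DifferentiableOn ℂ g (ball x r) :=
    hf.sub ((L.differentiable.comp (differentiable_id.sub_const x)).differentiableOn)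
  have hLn : ‖L‖ ≤ 2 * m / r := cauchy_fderiv hr hf hm
  have hmaps : MapsTo g (ball x r) (closedBall (g x) (4 * m)) := by
    intro z hz
    rw [mem_closedBall, dist_eq_norm, hgx]
    have h1 := hm z hz
    have h2 := hm x (mem_ball_self hr)
    have h3 : ‖L (z - x)‖ ≤ 2 * m := by
      calc ‖L (z - x)‖ ≤ ‖L‖ * ‖z - x‖ := L.le_opNorm _
        _ ≤ (2 * m / r) * r := by
          refine mul_le_mul hLn ?_ (norm_nonneg _) (by positivity)
          rw [mem_ball, dist_eq_norm] at hz
          exact hz.le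
        _ = 2 * m := by field_simp
    calc ‖g z - f x‖ = ‖(f z - f x) - L (z - x)‖ := by
            congr 1
            simp only [hg]
            abel
      _ ≤ ‖f z - f x‖ + ‖L (z - x)‖ := norm_sub_le _ _
      _ ≤ (‖f z‖ + ‖f x‖) + ‖L (z - x)‖ := by
          gcongr
          exact norm_sub_le _ _
      _ ≤ 4 * m := by linarith
  have hlit : (g · - g x) =o[𝓝 x] (fun w ↦ ‖w - x‖ ^ 1) := by
    have h1 := hd.hasFDerivAt.isLittleO
    have h2 : (fun w => g w - g x) = fun w => f w - f x - fderiv ℂ f x (w - x) := by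
      funext w
      rw [hgx]
      simp only [hg, hL]
      abel
    rw [h2]
    refine h1.trans_isBigO ?_
    simp only [pow_one]
    exact (Asymptotics.isBigO_refl (fun w => w - x) (𝓝 x)).norm_right
  have hyr : y ∈ ball x r := ball_subset_ball (by linarith) hy
  have key := Complex.dist_le_mul_div_pow_of_mapsTo_ball_of_isLittleO (n := 1) hgd hmaps hlit hyr
  rw [dist_eq_norm, dist_eq_norm, hgx] at key
  have e1 : g y - f x = f y - f x - L (y - x) := by
    simp only [hg]
    abel
  rw [e1] at key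
  refine key.trans ?_
  have e2 : 4 * m * (‖y - x‖ / r) ^ (1 + 1) = 4 * m / r ^ 2 * ‖y - x‖ ^ 2 := by
    rw [div_pow]
    ring
  rw [e2]
  gcongr
  norm_num

theorem cauchy_dlip {f : V → F} {x : V} {r m : ℝ} (hr : 0 < r)
    (hf : DifferentiableOn ℂ f (ball x r)) (hm : ∀ y ∈ ball x r, ‖f y‖ ≤ m)
    {y : V} (hy : y ∈ ball x (r / 8)) :
    ‖fderiv ℂ f y - fderiv ℂ f x‖ ≤ 64 * m / r ^ 2 * ‖y - x‖ := by
  have hm0 : 0 ≤ m := (norm_nonneg _).trans (hm x (mem_ball_self hr))
  have hdx : DifferentiableAt ℂ f x := hf.differentiableAt (ball_mem_nhds x hr)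
  have hyr : y ∈ ball x r := ball_subset_ball (by linarith) hy
  have hdy : DifferentiableAt ℂ f y := hf.differentiableAt (isOpen_ball.mem_nhds hyr)
  set h : V → F := fun k => f (y + k) - f (x + k) with hh
  have hder : HasFDerivAt h (fderiv ℂ f y - fderiv ℂ f x) 0 := by
    have h1 : HasFDerivAt (fun k => f (y + k)) (fderiv ℂ f y) 0 := by
      have h0 : HasFDerivAt f (fderiv ℂ f y) (y + 0) := by
        rw [add_zero]; exact hdy.hasFDerivAt
      exact (hasFDerivAt_comp_add_left (𝕜 := ℂ) y).2 h0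
    have h2 : HasFDerivAt (fun k => f (x + k)) (fderiv ℂ f x) 0 := by
      have h0 : HasFDerivAt f (fderiv ℂ f x) (x + 0) := by
        rw [add_zero]; exact hdx.hasFDerivAt
      exact (hasFDerivAt_comp_add_left (𝕜 := ℂ) x).2 h0
    exact h1.sub h2
  refine hder.le_of_lip' (by positivity) ?_
  filter_upwards [ball_mem_nhds (0 : V) (show (0 : ℝ) < r / 4 by positivity)] with k hk
  rw [mem_ball_zero_iff] at hk
  rw [sub_zero]
  set G : V → F := fun z => f (z + k) - f z with hG
  have hin1 : ∀ z ∈ ball x (r / 4), z ∈ ball x (r / 2) := fun z hz =>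
    ball_subset_ball (by linarith) hz
  have hin2 : ∀ z ∈ ball x (r / 4), z + k ∈ ball x (r / 2) := by
    intro z hz
    rw [mem_ball, dist_eq_norm] at hz ⊢
    calc ‖z + k - x‖ = ‖(z - x) + k‖ := by congr 1; abel
      _ ≤ ‖z - x‖ + ‖k‖ := norm_add_le _ _
      _ < r / 2 := by linarith
  have hGb : ∀ z ∈ ball x (r / 4), ‖G z‖ ≤ 4 * m / r * ‖k‖ := by
    intro z hz
    have h := cauchy_lip hr hf hm (hin2 z hz) (hin1 z hz)
    have e : z + k - z = k := by abel
    rwa [e] at h
  have hGd : DifferentiableOn ℂ G (ball x (r / 4)) := by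
    have hbig : ball x (r / 2) ⊆ ball x r := ball_subset_ball (by linarith)
    refine DifferentiableOn.sub ?_ (hf.mono (fun z hz => hbig (hin1 z hz)))
    exact hf.comp (differentiable_id.add_const k).differentiableOn
      (fun z hz => hbig (hin2 z hz))
  have hx8 : x ∈ ball x (r / 4 / 2) := mem_ball_self (by positivity)
  have hy8 : y ∈ ball x (r / 4 / 2) := by
    have e : r / 4 / 2 = r / 8 := by ring
    rwa [e]
  have key := cauchy_lip (show (0 : ℝ) < r / 4 by positivity) hGd hGb hy8 hx8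
  have e1 : h k - h 0 = G y - G x := by
    simp only [hh, hG, add_zero]
    abel
  rw [e1]
  refine key.trans (le_of_eq ?_)
  field_simp
  ring

end Pool.Agent.H.MP_e23cd6_ag.AB
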