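import Pool.Agent.H.MP_e23cd6_ag.AB.A2

/-!
ABUN A3: Montel's theorem in several variables, for sequences bounded uniformly on every compact subset.

Proof. Let K ⊆ U be compact, choose r > 0 with cthickening r K ⊆ U (compact). By `cauchy_lip` on the balls
ball x r, x ∈ K (bounded by m = bound on cthickening r K) the f_j are uniformly Lipschitz at small
distance near K: equicontinuous at every point of U, pointwise bounded.
Either use Arzela-Ascoli in Mathlib (`ArzelaAscoli`, BoundedContinuousFunction.arzela_ascoli) on the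
members of a compact exhaustion of U and a diagonal argument, or argue directly: take a countable
dense subset S of U, a diagonal subsequence converging pointwise on S (F is proper: Tychonoff /
`IsCompact.tendsto_subseq` in the countable product of closed balls, which is metrizable compact), then by
equicontinuity the subsequence is uniformly Cauchy on a neighbourhood of each point of U, so it
converges locally uniformly on U to a function g; `lim_holo` gives holomorphy.
(Direct version: for x ∈ U take r with closedBall x (2r) ⊆ U, Lipschitz constant C on ball x r; given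
e > 0 cover the compact closedBall x (r/2) by finitely many balls of radius e/C centred at points
of S ∩ ball x r.)
-/

open Set Filter Topology Metric

namespace Pool.Agent.H.MP_e23cd6_ag.AB

theorem A3_diag {V F : Type*} [NormedAddCommGroup V] [NormedSpace ℂ V] [FiniteDimensional ℂ V]
    [NormedAddCommGroup F] [NormedSpace ℂ F] [FiniteDimensional ℂ F] {U : Set V}
    (f : ℕ → V → F)
    (hb : ∀ K ⊆ U, IsCompact K → ∃ m : ℝ, ∀ j, ∀ x ∈ K, ‖f j x‖ ≤ m) (D : ℕ → V) :
    ∃ φ : ℕ → ℕ, StrictMono φ ∧ ∀ k, D k ∈ U →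
      ∃ a, Tendsto (fun j => f (φ j) (D k)) atTop (𝓝 a) := by
  classical
  haveI : ProperSpace F := FiniteDimensional.proper ℂ F
  have hm : ∀ k, ∃ m : ℝ, ∀ j, (if D k ∈ U then f j (D k) else 0) ∈ closedBall (0 : F) m := by
    intro k
    by_cases hk : D k ∈ U
    · obtain ⟨m, hm⟩ := hb {D k} (singleton_subset_iff.2 hk) isCompact_singleton
      exact ⟨m, fun j => by simpa [hk] using hm j (D k) rfl⟩
    · exact ⟨0, fun j => by simp [hk]⟩
  choose m hm using hm
  have hcomp : IsCompact (Set.pi univ (fun k : ℕ => closedBall (0 : F) (m k))) :=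
    isCompact_univ_pi fun k => isCompact_closedBall _ _
  obtain ⟨a, _, φ, hφ, hφa⟩ := hcomp.tendsto_subseq
    (x := fun j k => if D k ∈ U then f j (D k) else 0) (fun j k _ => hm k j)
  refine ⟨φ, hφ, fun k hk => ⟨a k, ?_⟩⟩
  have h1 := tendsto_pi_nhds.1 hφa k
  simpa [Function.comp_def, hk] using h1

theorem A3_cauchy {V F : Type*} [NormedAddCommGroup V] [NormedSpace ℂ V] [FiniteDimensional ℂ V]
    [NormedAddCommGroup F] [NormedSpace ℂ F] {U : Set V}
    (hU : IsOpen U) (f : ℕ → V → F) (hf : ∀ j, DifferentiableOn ℂ (f j) U)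
    (hb : ∀ K ⊆ U, IsCompact K → ∃ m : ℝ, ∀ j, ∀ x ∈ K, ‖f j x‖ ≤ m) (D : ℕ → V)
    (hD : DenseRange D) (hlim : ∀ k, D k ∈ U → ∃ a, Tendsto (fun j => f j (D k)) atTop (𝓝 a))
    {x : V} (hx : x ∈ U) :
    ∃ r : ℝ, 0 < r ∧ ball x r ⊆ U ∧ UniformCauchySeqOn f atTop (ball x r) := by
  haveI : ProperSpace V := FiniteDimensional.proper ℂ V
  obtain ⟨r, hr, hrU⟩ := Metric.nhds_basis_closedBall.mem_iff.1 (hU.mem_nhds hx)
  obtain ⟨m, hm⟩ := hb _ hrU (isCompact_closedBall x r)
  have hm0 : 0 ≤ m := (norm_nonneg _).trans (hm 0 x (mem_closedBall_self hr.le))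
  have hbU : ball x r ⊆ U := ball_subset_closedBall.trans hrU
  have hlip : ∀ j, ∀ y ∈ ball x (r / 2), ∀ z ∈ ball x (r / 2),
      ‖f j y - f j z‖ ≤ 4 * m / r * ‖y - z‖ := fun j y hy z hz =>
    cauchy_lip hr ((hf j).mono hbU) (fun y hy => hm j y (ball_subset_closedBall hy)) hy hz
  set L : ℝ := 4 * m / r with hL
  have hL0 : 0 ≤ L := by positivity
  refine ⟨r / 4, by positivity, (ball_subset_ball (by linarith)).trans hbU, ?_⟩
  rw [Metric.uniformCauchySeqOn_iff]
  intro ε hε
  obtain ⟨δ, hδ0, hδr, hδε⟩ : ∃ δ : ℝ, 0 < δ ∧ δ ≤ r / 4 ∧ L * δ < ε / 3 := by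
    refine ⟨min (r / 4) (ε / (3 * (L + 1))), by positivity, min_le_left _ _, ?_⟩
    have h1 : L * min (r / 4) (ε / (3 * (L + 1))) ≤ L * (ε / (3 * (L + 1))) :=
      mul_le_mul_of_nonneg_left (min_le_right _ _) hL0
    refine h1.trans_lt ?_
    rw [← mul_div_assoc, div_lt_div_iff₀ (by positivity) (by norm_num)]
    nlinarith
  -- finite cover
  have hcov : closedBall x (r / 4) ⊆ ⋃ k : {k : ℕ // D k ∈ ball x (r / 2)}, ball (D k) δ := by
    intro y hy
    obtain ⟨k, hk⟩ := hD.exists_dist_lt y hδ0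
    have hk2 : D k ∈ ball x (r / 2) := by
      rw [mem_ball]
      calc dist (D k) x ≤ dist (D k) y + dist y x := dist_triangle _ _ _
        _ < δ + r / 4 := by
            rw [dist_comm (D k) y]
            exact add_lt_add_of_lt_of_le hk hy
        _ ≤ r / 2 := by linarith
    rw [mem_iUnion]
    exact ⟨⟨k, hk2⟩, hk⟩
  obtain ⟨t, ht⟩ := (isCompact_closedBall x (r / 4)).elim_finite_subcover _
    (fun k => isOpen_ball) hcov
  have hN : ∀ k : {k : ℕ // D k ∈ ball x (r / 2)}, ∃ N : ℕ, ∀ i ≥ N, ∀ j ≥ N,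
      dist (f i (D k)) (f j (D k)) < ε / 3 := by
    intro k
    obtain ⟨a, ha⟩ := hlim k (hbU (ball_subset_ball (by linarith) k.2))
    exact Metric.cauchySeq_iff.1 ha.cauchySeq (ε / 3) (by positivity)
  choose N hN using hN
  refine ⟨t.sup N, fun i hi j hj y hy => ?_⟩
  have hy2 := ht (ball_subset_closedBall hy)
  rw [mem_iUnion₂] at hy2
  obtain ⟨k, hkt, hk⟩ := hy2
  have hiN : i ≥ N k := (Finset.le_sup hkt).trans hi
  have hjN : j ≥ N k := (Finset.le_sup hkt).trans hj
  have hyr : y ∈ ball x (r / 2) := ball_subset_ball (by linarith) hy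
  have hyk : ‖y - D k‖ < δ := by
    rw [← dist_eq_norm]
    exact hk
  have h1 : ∀ i, dist (f i y) (f i (D k)) < ε / 3 := by
    intro i
    rw [dist_eq_norm]
    calc ‖f i y - f i (D k)‖ ≤ L * ‖y - D k‖ := hlip i y hyr _ k.2
      _ ≤ L * δ := mul_le_mul_of_nonneg_left hyk.le hL0
      _ < ε / 3 := hδε
  calc dist (f i y) (f j y) ≤ dist (f i y) (f i (D k)) + dist (f i (D k)) (f j (D k)) +
        dist (f j (D k)) (f j y) := dist_triangle4 _ _ _ _
    _ < ε / 3 + ε / 3 + ε / 3 := by
        have h2 := h1 i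
        have h3 := h1 j
        rw [dist_comm] at h3
        have h4 := hN k i hiN j hjN
        linarith
    _ = ε := by ring

theorem montel {V F : Type*} [NormedAddCommGroup V] [NormedSpace ℂ V] [FiniteDimensional ℂ V]
    [NormedAddCommGroup F] [NormedSpace ℂ F] [FiniteDimensional ℂ F] {U : Set V}
    (hU : IsOpen U) (f : ℕ → V → F) (hf : ∀ j, DifferentiableOn ℂ (f j) U)
    (hb : ∀ K ⊆ U, IsCompact K → ∃ m : ℝ, ∀ j, ∀ x ∈ K, ‖f j x‖ ≤ m) :
    ∃ φ : ℕ → ℕ, StrictMono φ ∧ ∃ g : V → F, DifferentiableOn ℂ g U ∧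
      TendstoLocallyUniformlyOn (fun j => f (φ j)) g atTop U := by
  haveI : ProperSpace V := FiniteDimensional.proper ℂ V
  haveI : CompleteSpace F := FiniteDimensional.complete ℂ F
  obtain ⟨φ, hφ, hlim⟩ := A3_diag f hb (TopologicalSpace.denseSeq V)
  have hC : ∀ x ∈ U, ∃ r : ℝ, 0 < r ∧ ball x r ⊆ U ∧
      UniformCauchySeqOn (fun j => f (φ j)) atTop (ball x r) := fun x hx =>
    A3_cauchy hU (fun j => f (φ j)) (fun j => hf (φ j))
      (fun K hK hKc => by
        obtain ⟨m, hm⟩ := hb K hK hKc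
        exact ⟨m, fun j x hx => hm (φ j) x hx⟩)
      (TopologicalSpace.denseSeq V) (TopologicalSpace.denseRange_denseSeq V) hlim hx
  have hg : ∀ x, ∃ a : F, x ∈ U → Tendsto (fun j => f (φ j) x) atTop (𝓝 a) := by
    intro x
    by_cases hx : x ∈ U
    · obtain ⟨r, hr, _, hr2⟩ := hC x hx
      obtain ⟨a, ha⟩ := cauchySeq_tendsto_of_complete (hr2.cauchySeq (mem_ball_self hr))
      exact ⟨a, fun _ => ha⟩
    · exact ⟨0, fun h => absurd h hx⟩
  choose g hg using hg
  have hloc : TendstoLocallyUniformlyOn (fun j => f (φ j)) g atTop U := by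
    rw [tendstoLocallyUniformlyOn_iff_forall_tendsto]
    intro x hx
    obtain ⟨r, hr, hrU, hr2⟩ := hC x hx
    have h1 := hr2.tendstoUniformlyOn_of_tendsto (fun y hy => hg y (hrU hy))
    rw [tendstoUniformlyOn_iff_tendsto] at h1
    refine h1.mono_left (Filter.prod_mono_right _ ?_)
    rw [le_principal_iff]
    exact mem_nhdsWithin_of_mem_nhds (ball_mem_nhds x hr)
  exact ⟨φ, hφ, g, (lim_holo hU (fun j => hf (φ j)) hloc).1, hloc⟩

end Pool.Agent.H.MP_e23cd6_ag.AB
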