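import Mathlib

/-!
ABUN A4: identity theorem for holomorphic maps in several variables.

Proof. Let S = {x ∈ U | f = g on a neighbourhood of x}. S is open and nonempty. S is relatively closed in U:
let y ∈ U be a limit of points of S, choose r > 0 with ball y r ⊆ U and p ∈ S ∩ ball y (r/2), f = g on a
small ball around p. For q ∈ ball y r restrict f - g to the complex line through p and q:
W = {ζ ∈ ℂ | p + ζ (q - p) ∈ ball y r} is open and convex (preimage of a convex set under an affine map),
contains 0 and 1, the function ζ ↦ (f - g)(p + ζ (q - p)) is holomorphic on W and vanishes near 0, so it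
vanishes on W (one variable: `DifferentiableOn.analyticOnNhd` and
`AnalyticOnNhd.eqOn_of_preconnected_of_eventuallyEq`). Hence f q = g q, so f = g on ball y r, y ∈ S.
Since U is preconnected, S = U (for instance `IsPreconnected.subset_of_closure_inter_subset`).
-/

open Set Filter Topology Metric

namespace Pool.Agent.H.MP_e23cd6_ag.AB

theorem ident_convex {V F : Type*} [NormedAddCommGroup V] [NormedSpace ℂ V]
    [NormedAddCommGroup F] [NormedSpace ℂ F] [CompleteSpace F] {f g : V → F} {U : Set V}
    (hU : IsOpen U) (hc : Convex ℝ U)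
    (hf : DifferentiableOn ℂ f U) (hg : DifferentiableOn ℂ g U) {a : V} (ha : a ∈ U)
    (h : f =ᶠ[𝓝 a] g) : EqOn f g U := by
  intro y hy
  set l : ℂ → V := fun ζ : ℂ => a + ζ • (y - a) with hldef
  have hcl : Continuous l := by rw [hldef]; fun_prop
  have hdl : Differentiable ℂ l := by rw [hldef]; fun_prop
  set S : Set ℂ := l ⁻¹' U with hS
  have hSo : IsOpen S := hU.preimage hcl
  have hSc : Convex ℝ S := by
    intro ζ hζ η hη s t hs ht hst
    have e : l (s • ζ + t • η) = s • l ζ + t • l η := by
      have e1 : a = s • a + t • a := by rw [← add_smul, hst, one_smul]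
      show a + (s • ζ + t • η) • (y - a) = s • (a + ζ • (y - a)) + t • (a + η • (y - a))
      rw [add_smul, smul_assoc, smul_assoc, smul_add, smul_add]
      nth_rewrite 1 [e1]
      abel
    show l (s • ζ + t • η) ∈ U
    rw [e]
    exact hc hζ hη hs ht hst
  have h0 : (0 : ℂ) ∈ S := by simpa [hS, hldef] using ha
  have h1 : (1 : ℂ) ∈ S := by simpa [hS, hldef] using hy
  have hfa : AnalyticOnNhd ℂ (f ∘ l) S :=
    (hf.comp hdl.differentiableOn (fun ζ hζ => hζ)).analyticOnNhd hSo
  have hga : AnalyticOnNhd ℂ (g ∘ l) S :=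
    (hg.comp hdl.differentiableOn (fun ζ hζ => hζ)).analyticOnNhd hSo
  have h2 : (f ∘ l) =ᶠ[𝓝 (0 : ℂ)] (g ∘ l) := by
    have h3 : Tendsto l (𝓝 0) (𝓝 a) := by
      have := hcl.tendsto 0
      simpa [hldef] using this
    exact h3.eventually h
  have h4 := hfa.eqOn_of_preconnected_of_eventuallyEq hga hSc.isPreconnected h0 h2 h1
  simpa [hldef] using h4

theorem ident {V F : Type*} [NormedAddCommGroup V] [NormedSpace ℂ V]
    [NormedAddCommGroup F] [NormedSpace ℂ F] [CompleteSpace F] {U : Set V} (hU : IsOpen U)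
    (hc : IsPreconnected U) {f g : V → F} (hf : DifferentiableOn ℂ f U)
    (hg : DifferentiableOn ℂ g U) {x : V} {r : ℝ} (hr : 0 < r) (hx : ball x r ⊆ U)
    (h : ∀ y ∈ ball x r, f y = g y) : EqOn f g U := by
  have key : U ⊆ {z | f =ᶠ[𝓝 z] g} := by
    refine hc.subset_of_closure_inter_subset isOpen_setOfPred_eventually_nhds ?_ ?_
    · refine ⟨x, hx (mem_ball_self hr), ?_⟩
      filter_upwards [ball_mem_nhds x hr] with y hy
      exact h y hy
    · rintro y ⟨hy, hyU⟩
      obtain ⟨s, hs, hsU⟩ := Metric.isOpen_iff.1 hU y hyU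
      obtain ⟨p, hp, hyp⟩ := Metric.mem_closure_iff.1 hy s hs
      have hpb : p ∈ ball y s := by rw [mem_ball, dist_comm]; exact hyp
      have hE : EqOn f g (ball y s) :=
        ident_convex isOpen_ball (convex_ball y s) (hf.mono hsU) (hg.mono hsU) hpb hp
      show f =ᶠ[𝓝 y] g
      filter_upwards [ball_mem_nhds y hs] with z hz
      exact hE hz
  intro y hy
  exact (key hy).eq_of_nhds

end Pool.Agent.H.MP_e23cd6_ag.AB
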