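import Pool.Agent.H.MP_e23cd6_ag.AB.Defs
import Pool.Agent.H.MP_e23cd6_ag.AB.A3
import Pool.Agent.H.MP_e23cd6_ag.AB.A4

/-!
ABUN A5: a holomorphic self map of the domain which is close to the identity on a small ball is close
to the identity on a given compact set; the same for the inverse.

Proof of `near`. Suppose not: there are f_j : D → D holomorphic, ‖f_j b - b‖ ≤ 1/(j+1) on closedBall x r, and
x_j ∈ K with ‖f_j x_j - x_j‖ > η. D is bounded, so `montel` gives a subsequence converging locally uniformly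
to a holomorphic g; g b = b on ball x r, so g b = b on D by `ident`. Locally uniform convergence is uniform
on the compact K (`tendstoLocallyUniformlyOn_iff_forall_isCompact` or `..TendstoUniformlyOn` on compacts),
contradiction.

Proof of `near_inv`. Suppose not: f_j, f'_j mutually inverse, ‖f_j b - b‖ ≤ 1/(j+1) on closedBall x r and
x_j ∈ K with ‖f'_j x_j - x_j‖ > η. Pass to a subsequence with f'_j → g locally uniformly on D, g holomorphic.
For b ∈ ball x r: f_j b → b, b = f'_j (f_j b) → g b (locally uniform convergence and continuity of g at b: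
`TendstoLocallyUniformlyOn.tendsto_comp`). So g = id on ball x r, hence on D; contradiction as before.
-/

open Set Filter Topology Metric

namespace Pool.Agent.H.MP_e23cd6_ag.AB

variable {n : ℕ}

/-- Montel on the bounded domain: a sequence of holomorphic self maps with limit the identity on a
small ball, along a subsequence, is uniformly close to the identity on a compact set. -/
theorem near_aux (Ω : Dom n) {x : E n} {r : ℝ} (hr : 0 < r) (hB : closedBall x r ⊆ Ω.D)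
    {K : Set (E n)} (hK : K ⊆ Ω.D) (hKc : IsCompact K) {η : ℝ} (hη : 0 < η)
    (f : ℕ → E n → E n) (hm : ∀ j, MapsTo (f j) Ω.D Ω.D) (hd : ∀ j, DifferentiableOn ℂ (f j) Ω.D)
    (hlim : ∀ φ : ℕ → ℕ, StrictMono φ → ∀ g : E n → E n, ContinuousOn g Ω.D →
      TendstoLocallyUniformlyOn (fun j => f (φ j)) g atTop Ω.D → ∀ b ∈ ball x r, g b = b)
    (hfar : ∀ j, ∃ b ∈ K, η < ‖f j b - b‖) : False := by
  obtain ⟨m, hm1⟩ := Ω.bdd.exists_norm_le
  obtain ⟨φ, hφ, g, hg, hu⟩ := montel Ω.isOpen f hd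
    (fun K' hK' _ => ⟨m, fun j y hy => hm1 _ (hm j (hK' hy))⟩)
  have h1 : EqOn g (fun b => b) Ω.D := ident Ω.isOpen Ω.conn hg differentiableOn_id hr
    (ball_subset_closedBall.trans hB) (hlim φ hφ g hg.continuousOn hu)
  have h2 := (tendstoLocallyUniformlyOn_iff_forall_isCompact Ω.isOpen).1 hu K hK hKc
  rw [Metric.tendstoUniformlyOn_iff] at h2
  obtain ⟨j, hj⟩ := (h2 η hη).exists
  obtain ⟨b, hb, hfb⟩ := hfar (φ j)
  have h3 := hj b hb
  rw [h1 (hK hb), dist_eq_norm, norm_sub_rev] at h3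
  exact absurd h3 (not_lt.2 hfb.le)

theorem near (Ω : Dom n) {x : E n} {r : ℝ} (hr : 0 < r) (hB : closedBall x r ⊆ Ω.D)
    {K : Set (E n)} (hK : K ⊆ Ω.D) (hKc : IsCompact K) {η : ℝ} (hη : 0 < η) :
    ∃ c : ℝ, 0 < c ∧ ∀ f : E n → E n, MapsTo f Ω.D Ω.D → DifferentiableOn ℂ f Ω.D →
      (∀ b ∈ closedBall x r, ‖f b - b‖ ≤ c) → ∀ b ∈ K, ‖f b - b‖ ≤ η := by
  by_contra hno
  push Not at hno
  have h1 : ∀ j : ℕ, ∃ f : E n → E n, MapsTo f Ω.D Ω.D ∧ DifferentiableOn ℂ f Ω.D ∧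
      (∀ b ∈ closedBall x r, ‖f b - b‖ ≤ 1 / ((j : ℝ) + 1)) ∧ ∃ b ∈ K, η < ‖f b - b‖ :=
    fun j => hno _ (by positivity)
  choose f hm hd hc hfar using h1
  refine near_aux Ω hr hB hK hKc hη f hm hd ?_ hfar
  intro φ hφ g hg hu b hb
  have h2 : Tendsto (fun j => f (φ j) b) atTop (𝓝 (g b)) :=
    hu.tendsto_at (hB (ball_subset_closedBall hb))
  have h3 : Tendsto (fun j => f j b) atTop (𝓝 b) := by
    rw [tendsto_iff_norm_sub_tendsto_zero]
    exact squeeze_zero (fun _ => norm_nonneg _) (fun j => hc j b (ball_subset_closedBall hb))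
      tendsto_one_div_add_atTop_nhds_zero_nat
  exact tendsto_nhds_unique h2 (h3.comp hφ.tendsto_atTop)

theorem near_inv (Ω : Dom n) {x : E n} {r : ℝ} (hr : 0 < r) (hB : closedBall x r ⊆ Ω.D)
    {K : Set (E n)} (hK : K ⊆ Ω.D) (hKc : IsCompact K) {η : ℝ} (hη : 0 < η) :
    ∃ c : ℝ, 0 < c ∧ ∀ f f' : E n → E n, MapsTo f Ω.D Ω.D → DifferentiableOn ℂ f Ω.D →
      MapsTo f' Ω.D Ω.D → DifferentiableOn ℂ f' Ω.D → (∀ b ∈ Ω.D, f' (f b) = b) →
      (∀ b ∈ closedBall x r, ‖f b - b‖ ≤ c) → ∀ b ∈ K, ‖f' b - b‖ ≤ η := by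
  by_contra hno
  push Not at hno
  have h1 : ∀ j : ℕ, ∃ f f' : E n → E n, MapsTo f Ω.D Ω.D ∧ DifferentiableOn ℂ f Ω.D ∧
      MapsTo f' Ω.D Ω.D ∧ DifferentiableOn ℂ f' Ω.D ∧ (∀ b ∈ Ω.D, f' (f b) = b) ∧
      (∀ b ∈ closedBall x r, ‖f b - b‖ ≤ 1 / ((j : ℝ) + 1)) ∧ ∃ b ∈ K, η < ‖f' b - b‖ :=
    fun j => hno _ (by positivity)
  choose f f' hm hd hm' hd' hinv hc hfar using h1
  refine near_aux Ω hr hB hK hKc hη f' hm' hd' ?_ hfar
  intro φ hφ g hg hu b hb
  have hbD : b ∈ Ω.D := hB (ball_subset_closedBall hb)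
  have h3 : Tendsto (fun j => f j b) atTop (𝓝 b) := by
    rw [tendsto_iff_norm_sub_tendsto_zero]
    exact squeeze_zero (fun _ => norm_nonneg _) (fun j => hc j b (ball_subset_closedBall hb))
      tendsto_one_div_add_atTop_nhds_zero_nat
  have h4 : Tendsto (fun j => f (φ j) b) atTop (𝓝[Ω.D] b) :=
    tendsto_nhdsWithin_iff.2 ⟨h3.comp hφ.tendsto_atTop, Eventually.of_forall fun j => hm _ hbD⟩
  have h5 := hu.tendsto_comp (hg b hbD) hbD h4
  have h6 : (fun j => f' (φ j) (f (φ j) b)) = fun _ => b := by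
    funext j
    exact hinv _ b hbD
  rw [h6] at h5
  exact tendsto_nhds_unique h5 tendsto_const_nhds

end Pool.Agent.H.MP_e23cd6_ag.AB
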