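import Pool.Agent.H.MP_e23cd6_ag.AB.A1
import Pool.Agent.H.MP_e23cd6_ag.AB.A5

/-!
ABUN C1: the estimate (E). If the map β γ is s-close to the identity on the marked ball B then it is
C s-close to the identity on any given compact set, and so is its inverse (H. Cartan type estimate).

Proof of `estE_fwd`. Replace K by K ∪ B (compact, contained in D). Choose r > 0 with
cthickening r K ⊆ D (`IsCompact.exists_cthickening_subset_open`), K' = cthickening r K is compact. Put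
η = r/16 and take c > 0 from `near` (for the ball B and the compact set K' and η); we may assume c ≤ η. Put
e0 = c, C = 8 η / c (plus 1). Let f = β γ, f^j = β (γ^j), sup_B |f b - b| ≤ s ≤ c.
For m ≥ 1 let S_m x = (1/m) Σ_{j<m} f^j x. For x ∈ D: S_m (f x) - S_m x = (f^m x - x)/m (telescoping sum).
(a) Suppose |f^j b - b| ≤ c on B for all j < m. Then |f^j - id| ≤ η on K' (`near`), so |S_m - id| ≤ η on K',
in particular on ball x r for x ∈ K, so S_m - id is (4 η/r = 1/4)-Lipschitz on ball x (r/2)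
(`cauchy_lip`), and f x ∈ ball x (r/2) for x ∈ K (case j = 1, |f x - x| ≤ η for m ≥ 2; the case j = 1 also
follows from s ≤ c). So for x ∈ K:
  |(S_m (f x) - f x) - (S_m x - x)| ≤ (1/4)|f x - x|,
hence (3/4)|f x - x| ≤ |f^m x - x|/m and |S_m (f x) - S_m x| ≤ (5/4)|f x - x|.
(b) If |f^j - id| ≤ c on B for all j, then |f^m x - x| ≤ η for all m and x ∈ K, so |f x - x| ≤ (4/3) η/m for
all m, f x = x on K. Done.
(c) Otherwise let m + 1 be minimal with |f^(m+1) x - x| > c for some x ∈ B. m ≥ 1 (as s ≤ c). By (a) for m + 1 (valid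
since all j < m + 1 are fine) c < |f^(m+1) x - x| = (m+1)|S_(m+1) (f x) - S_(m+1) x| ≤ (m+1)(5/4) s ≤ 2(m+1)s ≤ 4 m s.
By (a) for m, for y ∈ K: |f y - y| ≤ (4/3)|f^m y - y|/m ≤ 2η/m ≤ 8 η s/c.
Proof of `estE`. Choose η > 0 with K'' = cthickening η K ⊆ D; c' from `near_inv` (K, η); C, e0 from
`estE_fwd` for K''. If sup_B |f - id| ≤ s ≤ min(c', e0): for b ∈ K, b' = f⁻¹ b ∈ K'' and
|f⁻¹ b - b| = |b' - f b'| ≤ C s.
-/

open Set Filter Topology Metric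

namespace Pool.Agent.H.MP_e23cd6_ag.AB

variable {n : ℕ} {Ω : Dom n} {Γ : Type} [Group Γ]

/-- The telescoping sum estimate. -/
theorem C1_tele (A : BaseAct Ω Γ) (γ : Γ) (m : ℕ) {x : E n} {r : ℝ} (hr : 0 < r)
    (hx : ball x r ⊆ Ω.D) (hfx : A.β γ x ∈ ball x (r / 2))
    (h : ∀ j < m, ∀ y ∈ ball x r, ‖A.β (γ ^ j) y - y‖ ≤ r / 16) :
    ‖(A.β (γ ^ m) x - x) - (m : ℂ) • (A.β γ x - x)‖ ≤ m / 4 * ‖A.β γ x - x‖ := by
  have hxD : x ∈ Ω.D := hx (mem_ball_self hr)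
  set T : E n → E n := fun y => ∑ j ∈ Finset.range m, (A.β (γ ^ j) y - y) with hT
  have hTd : DifferentiableOn ℂ T (ball x r) := by
    refine DifferentiableOn.fun_sum fun j _ => ?_
    exact ((A.holo (γ ^ j)).mono hx).sub differentiableOn_id
  have hTm : ∀ y ∈ ball x r, ‖T y‖ ≤ m * (r / 16) := by
    intro y hy
    refine (norm_sum_le _ _).trans ?_
    refine (Finset.sum_le_sum fun j hj => h j (Finset.mem_range.1 hj) y hy).trans ?_
    rw [Finset.sum_const, Finset.card_range, nsmul_eq_mul]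
  have h1 := cauchy_lip hr hTd hTm hfx (mem_ball_self (half_pos hr))
  have h2 : T (A.β γ x) - T x = (A.β (γ ^ m) x - x) - (m : ℂ) • (A.β γ x - x) := by
    have h3 : ∀ j, A.β (γ ^ j) (A.β γ x) = A.β (γ ^ (j + 1)) x := fun j => by
      rw [pow_succ, A.mul _ _ _ hxD]
    have h4 := Finset.sum_range_sub (fun j => A.β (γ ^ j) x) m
    simp only [pow_zero, A.one x hxD] at h4
    have h5 : (m : ℂ) • (A.β γ x - x) = ∑ _j ∈ Finset.range m, (A.β γ x - x) := by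
      rw [Finset.sum_const, Finset.card_range, Nat.cast_smul_eq_nsmul]
    rw [← h4, hT, h5]
    simp only [h3]
    rw [← Finset.sum_sub_distrib, ← Finset.sum_sub_distrib]
    refine Finset.sum_congr rfl fun j _ => ?_
    abel
  rw [h2] at h1
  refine h1.trans (le_of_eq ?_)
  field_simp
  ring

theorem C1_bounds (A : BaseAct Ω Γ) (γ : Γ) (m : ℕ) {x : E n} {r : ℝ} (hr : 0 < r)
    (hx : ball x r ⊆ Ω.D) (hfx : A.β γ x ∈ ball x (r / 2))
    (h : ∀ j < m, ∀ y ∈ ball x r, ‖A.β (γ ^ j) y - y‖ ≤ r / 16) :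
    3 / 4 * m * ‖A.β γ x - x‖ ≤ ‖A.β (γ ^ m) x - x‖ ∧
      ‖A.β (γ ^ m) x - x‖ ≤ 5 / 4 * m * ‖A.β γ x - x‖ := by
  have h1 := C1_tele A γ m hr hx hfx h
  have h2 : ‖(m : ℂ) • (A.β γ x - x)‖ = m * ‖A.β γ x - x‖ := by
    rw [norm_smul, Complex.norm_natCast]
  have h3 := norm_sub_norm_le (A.β (γ ^ m) x - x) ((m : ℂ) • (A.β γ x - x))
  have h4 := norm_sub_norm_le ((m : ℂ) • (A.β γ x - x)) (A.β (γ ^ m) x - x)
  rw [norm_sub_rev ((m : ℂ) • (A.β γ x - x)) (A.β (γ ^ m) x - x)] at h4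
  rw [h2] at h3 h4
  constructor <;> nlinarith

theorem estE_fwd (A : BaseAct Ω Γ) {K : Set (E n)} (hK : K ⊆ Ω.D) (hKc : IsCompact K) :
    ∃ C e0 : ℝ, 0 < C ∧ 0 < e0 ∧ ∀ (γ : Γ) (s : ℝ), 0 ≤ s → s ≤ e0 →
      (∀ b ∈ Ω.B, ‖A.β γ b - b‖ ≤ s) → ∀ b ∈ K, ‖A.β γ b - b‖ ≤ C * s := by
  have hK1c : IsCompact (K ∪ Ω.B) := hKc.union Ω.B_compact
  have hK1 : K ∪ Ω.B ⊆ Ω.D := union_subset hK Ω.B_sub
  obtain ⟨r, hr, hrD⟩ := hK1c.exists_cthickening_subset_open Ω.isOpen hK1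
  have hball : ∀ x ∈ K ∪ Ω.B, ball x r ⊆ cthickening r (K ∪ Ω.B) := by
    intro x hx y hy
    exact mem_cthickening_of_dist_le y x r _ hx (mem_ball.1 hy).le
  obtain ⟨c0, hc0, hnear⟩ := near Ω Ω.hr0 Ω.B_sub hrD (hK1c.cthickening (r := r))
    (show (0 : ℝ) < r / 16 by positivity)
  obtain ⟨c, hc, hcc0, hcr⟩ : ∃ c : ℝ, 0 < c ∧ c ≤ c0 ∧ c ≤ r / 16 :=
    ⟨min c0 (r / 16), lt_min hc0 (by positivity), min_le_left _ _, min_le_right _ _⟩
  refine ⟨r / 4 / c, c, by positivity, hc, fun γ s hs hsc hB b hb => ?_⟩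
  have hnear' : ∀ j : ℕ, (∀ b ∈ Ω.B, ‖A.β (γ ^ j) b - b‖ ≤ c) →
      ∀ b ∈ cthickening r (K ∪ Ω.B), ‖A.β (γ ^ j) b - b‖ ≤ r / 16 := fun j hj =>
    hnear _ (A.maps _) (A.holo _) fun b hb => (hj b hb).trans hcc0
  have hself : K ∪ Ω.B ⊆ cthickening r (K ∪ Ω.B) := self_subset_cthickening _
  have h1 : ∀ b ∈ cthickening r (K ∪ Ω.B), ‖A.β γ b - b‖ ≤ r / 16 := by
    have := hnear' 1 (by rw [pow_one]; exact fun b hb => (hB b hb).trans hsc)
    rwa [pow_one] at this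
  have hfx : ∀ x ∈ K ∪ Ω.B, A.β γ x ∈ ball x (r / 2) := by
    intro x hx
    rw [mem_ball, dist_eq_norm]
    have := h1 x (hself hx)
    linarith
  have key : ∀ m : ℕ, (∀ j < m, ∀ b ∈ Ω.B, ‖A.β (γ ^ j) b - b‖ ≤ c) → ∀ x ∈ K ∪ Ω.B,
      3 / 4 * m * ‖A.β γ x - x‖ ≤ ‖A.β (γ ^ m) x - x‖ ∧
        ‖A.β (γ ^ m) x - x‖ ≤ 5 / 4 * m * ‖A.β γ x - x‖ := by
    intro m hm x hx
    exact C1_bounds A γ m hr ((hball x hx).trans hrD) (hfx x hx)
      fun j hj y hy => hnear' j (hm j hj) y (hball x hx hy)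
  by_cases hall : ∀ m : ℕ, ∀ b ∈ Ω.B, ‖A.β (γ ^ m) b - b‖ ≤ c
  · have h2 : ‖A.β γ b - b‖ ≤ 0 := by
      refine le_of_forall_pos_le_add fun ε hε => ?_
      obtain ⟨m, hm⟩ := exists_nat_gt (r / ε)
      have hb' : b ∈ K ∪ Ω.B := Or.inl hb
      have h3 := (key m (fun j _ => hall j) b hb').1
      have h4 := hnear' m (hall m) b (hself hb')
      have hm0 : (0 : ℝ) < m := (by positivity : (0 : ℝ) < r / ε).trans hm
      rw [zero_add]
      rw [div_lt_iff₀ hε] at hm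
      have h5 : (m : ℝ) * ‖A.β γ b - b‖ ≤ m * ε := by nlinarith
      exact le_of_mul_le_mul_left h5 hm0
    refine h2.trans (by positivity)
  · push Not at hall
    classical
    have hex : ∃ m : ℕ, ∃ b ∈ Ω.B, c < ‖A.β (γ ^ m) b - b‖ := hall
    obtain ⟨x, hx, hxc⟩ := Nat.find_spec hex
    have hmin : ∀ j < Nat.find hex, ∀ b ∈ Ω.B, ‖A.β (γ ^ j) b - b‖ ≤ c := by
      intro j hj b hb
      have := Nat.find_min hex hj
      push Not at this
      exact this b hb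
    obtain ⟨m, hm⟩ : ∃ m : ℕ, Nat.find hex = m + 1 := by
      refine Nat.exists_eq_succ_of_ne_zero fun h0 => ?_
      rw [h0, pow_zero, A.one x (Ω.B_sub hx), sub_self, norm_zero] at hxc
      linarith
    rw [hm] at hxc hmin
    have hm1 : 1 ≤ m := by
      rcases Nat.eq_zero_or_pos m with h0 | h0
      · exfalso
        rw [h0, zero_add, pow_one] at hxc
        have := hB x hx
        linarith
      · exact h0
    have hm1' : (1 : ℝ) ≤ m := by exact_mod_cast hm1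
    have h2 := (key (m + 1) hmin x (Or.inr hx)).2
    have h3 := hB x hx
    have hb' : b ∈ K ∪ Ω.B := Or.inl hb
    have h4 := (key m (fun j hj => hmin j (by omega)) b hb').1
    have h5 := hnear' m (hmin m (by omega)) b (hself hb')
    push_cast at h2
    have h6 : c < 5 / 2 * m * s := by
      refine hxc.trans_le (h2.trans ?_)
      have h7 : (0 : ℝ) ≤ ‖A.β γ x - x‖ := norm_nonneg _
      calc 5 / 4 * ((m : ℝ) + 1) * ‖A.β γ x - x‖ ≤ 5 / 4 * ((m : ℝ) + 1) * s := by gcongr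
        _ ≤ 5 / 2 * m * s := by nlinarith
    have h8 : m * ‖A.β γ b - b‖ ≤ r / 12 := by nlinarith
    have h9 : c * ‖A.β γ b - b‖ ≤ 5 / 2 * m * s * ‖A.β γ b - b‖ :=
      mul_le_mul_of_nonneg_right h6.le (norm_nonneg _)
    have h10 : 5 / 2 * m * s * ‖A.β γ b - b‖ ≤ r / 4 * s := by
      have : s * (m * ‖A.β γ b - b‖) ≤ s * (r / 12) := mul_le_mul_of_nonneg_left h8 hs
      nlinarith
    have h11 : r / 4 / c * s = r / 4 * s / c := by ring
    rw [h11, le_div_iff₀ hc]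
    linarith

theorem estE (A : BaseAct Ω Γ) {K : Set (E n)} (hK : K ⊆ Ω.D) (hKc : IsCompact K) :
    ∃ C e0 : ℝ, 0 < C ∧ 0 < e0 ∧ ∀ (γ : Γ) (s : ℝ), 0 ≤ s → s ≤ e0 →
      (∀ b ∈ Ω.B, ‖A.β γ b - b‖ ≤ s) →
      ∀ b ∈ K, ‖A.β γ b - b‖ ≤ C * s ∧ ‖A.β γ⁻¹ b - b‖ ≤ C * s := by
  obtain ⟨η, hη, hηD⟩ := hKc.exists_cthickening_subset_open Ω.isOpen hK
  obtain ⟨c', hc', hinv⟩ := near_inv Ω Ω.hr0 Ω.B_sub hK hKc hη
  obtain ⟨C, e0, hC, he0, hfwd⟩ := estE_fwd A hηD (hKc.cthickening (r := η))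
  refine ⟨C, min c' e0, hC, lt_min hc' he0, fun γ s hs hse hB b hb => ⟨?_, ?_⟩⟩
  · exact hfwd γ s hs (hse.trans (min_le_right _ _)) hB b (self_subset_cthickening _ hb)
  · have h1 := hinv (A.β γ) (A.β γ⁻¹) (A.maps _) (A.holo _) (A.maps _) (A.holo _)
      (fun b hb => A.inv_left γ hb)
      (fun b hb => (hB b hb).trans (hse.trans (min_le_left _ _))) b hb
    have h2 : A.β γ⁻¹ b ∈ cthickening η K :=
      mem_cthickening_of_dist_le _ b η _ hb (by rw [dist_eq_norm]; exact h1)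
    have h3 := hfwd γ s hs (hse.trans (min_le_right _ _)) hB _ h2
    rw [A.inv_right γ (hK hb), norm_sub_rev] at h3
    exact h3

end Pool.Agent.H.MP_e23cd6_ag.AB
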