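import Pool.Agent.H.MP_e23cd6_ag.AB.G0

/-!
ABUN G2: quasi-invariance of the extremal determinant of a basis of an Ad-stable space.

AdL γ maps P to P, bijectively with inverse AdL γ⁻¹ (AdL_mul, AdL_one). X is a basis of P (linearly independent, spans P), so
AdL γ⁻¹ X_j = Σ_l M_lj X_l with a real matrix M = M(γ). X_j(β γ b) = Dβ_γ(b) (AdL γ⁻¹ X_j)(b) (chain rule: AdL γ⁻¹ X_j (b) =
Dβ_{γ⁻¹}(β γ b) X_j(β γ b) and Dβ_γ(b) ∘ Dβ_{γ⁻¹}(β γ b) = id), so for f_i ∈ UD: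
D f_i(β γ b) X_j(β γ b) = D(f_i ∘ β γ)(b) (Σ_l M_lj X_l(b)), Qmat f X (β γ b) = Qmat (f ∘ β γ) X b * M (M mapped to ℂ). Since f ∘ β γ ∈ UD
(`ud_comp`): Q(β γ b) ≤ |det M(γ)| Q(b). Conversely for g_i ∈ UD let f_i = g_i ∘ β γ⁻¹: f_i ∘ β γ = g_i on D, so the derivatives at b ∈ D agree:
Q(b)|det M(γ)| ≤ Q(β γ b). So Q(β γ b) = |det M(γ)| Q(b). det M(γ) ≠ 0 and |det M(γδ)| = |det M(γ)||det M(δ)|: M(γ) is the matrix of
the restriction of AdL γ⁻¹ to P in the basis X, AdL (γδ)⁻¹ = AdL δ⁻¹ ∘ AdL γ⁻¹. k γ = log |det M(γ)|.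
-/

open Set Filter Topology Metric

namespace Pool.Agent.H.MP_e23cd6_ag.AB

variable {n : ℕ} {Ω : Dom n} {Γ : Type} [Group Γ]

/-- coefficients with respect to a linearly independent family are unique -/
theorem G2_uniq {A : BaseAct Ω Γ} {r : ℕ} {X : Fin r → Lie A} (hind : LinearIndependent ℝ X)
    {a b : Fin r → ℝ} (h : ∑ l, a l • X l = ∑ l, b l • X l) : a = b := by
  have h1 : ∑ l, (a l - b l) • X l = 0 := by
    rw [Finset.sum_congr rfl fun l _ => sub_smul (a l) (b l) (X l), Finset.sum_sub_distrib, h,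
      sub_self]
  have h2 := Fintype.linearIndependent_iff.mp hind (fun l => a l - b l) h1
  funext l
  exact sub_eq_zero.mp (h2 l)

/-- the matrix at an image point -/
theorem G2_Qmat {A : BaseAct Ω Γ} {r : ℕ} {X : Fin r → Lie A} {γ : Γ}
    {M : Matrix (Fin r) (Fin r) ℝ} (hM : ∀ j, ∑ l, M l j • X l = AdL A γ⁻¹ (X j))
    {f : Fin r → E n → ℂ} (hf : ∀ i, f i ∈ UD Ω) {b : E n} (hb : b ∈ Ω.D) :
    Qmat f (fun j => (X j).1) (A.β γ b) =
      Qmat (fun i y => f i (A.β γ y)) (fun j => (X j).1) b * M.map (algebraMap ℝ ℂ) := by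
  ext i j
  rw [Matrix.mul_apply]
  change fderiv ℂ (f i) (A.β γ b) ((X j).1 (A.β γ b)) =
    ∑ l, fderiv ℂ (fun y => f i (A.β γ y)) b ((X l).1 b) * (algebraMap ℝ ℂ (M l j))
  have h1 : (X j).1 (A.β γ b) = fderiv ℂ (A.β γ) b (AdL A γ⁻¹ (X j) b) := by
    have h := D6_AdL_at γ (AdL A γ⁻¹ (X j)) hb
    rwa [← AdL_mul, mul_inv_cancel, AdL_one] at h
  have h2 : HasFDerivAt (fun y => f i (A.β γ y))
      ((fderiv ℂ (f i) (A.β γ b)).comp (fderiv ℂ (A.β γ) b)) b := by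
    have e1 : DifferentiableAt ℂ (A.β γ) b := D6_diffAt (A.holo γ) hb
    have e2 : DifferentiableAt ℂ (f i) (A.β γ b) :=
      ((hf i).1 _ (A.mem γ hb)).differentiableAt (Ω.isOpen.mem_nhds (A.mem γ hb))
    exact e2.hasFDerivAt.comp b e1.hasFDerivAt
  have h3 : AdL A γ⁻¹ (X j) b = ∑ l, M l j • (X l).1 b := by
    rw [← hM j, Lie.sum_apply]
    rfl
  rw [h1, h3, h2.fderiv]
  change ((fderiv ℂ (f i) (A.β γ b)).comp (fderiv ℂ (A.β γ) b)) (∑ l, M l j • (X l).1 b) = _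
  rw [map_sum]
  refine Finset.sum_congr rfl fun l _ => ?_
  rw [ContinuousLinearMap.map_smul_of_tower, mul_comm]
  exact Algebra.smul_def _ _

theorem G2_le {A : BaseAct Ω Γ} {r : ℕ} {X : Fin r → Lie A} {γ : Γ}
    {M : Matrix (Fin r) (Fin r) ℝ} (hM : ∀ j, ∑ l, M l j • X l = AdL A γ⁻¹ (X j))
    {b : E n} (hb : b ∈ Ω.D) :
    Qdet Ω (fun j => (X j).1) (A.β γ b) ≤ |M.det| * Qdet Ω (fun j => (X j).1) b := by
  refine Qdet_le fun f hf => ?_
  rw [G2_Qmat hM hf hb, Matrix.det_mul, norm_mul, mul_comm]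
  have h1 : (M.map (algebraMap ℝ ℂ)).det = algebraMap ℝ ℂ M.det :=
    ((algebraMap ℝ ℂ).map_det M).symm
  have h2 : ‖(M.map (algebraMap ℝ ℂ)).det‖ = |M.det| := by
    rw [h1]
    exact (Complex.norm_real _).trans (Real.norm_eq_abs _)
  rw [h2]
  exact mul_le_mul_of_nonneg_left (le_Qdet hb fun i => ud_comp A γ (hf i)) (abs_nonneg _)

theorem Qdet_equiv (A : BaseAct Ω Γ) (P : Submodule ℝ (Lie A))
    (hP : ∀ δ, ∀ X ∈ P, AdL A δ X ∈ P) {r : ℕ} (X : Fin r → Lie A)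
    (hind : LinearIndependent ℝ X) (hspan : Submodule.span ℝ (Set.range X) = P) :
    ∃ k : Γ → ℝ, (∀ γ δ, k (γ * δ) = k γ + k δ) ∧ ∀ γ, ∀ b ∈ Ω.D,
      Qdet Ω (fun j => (X j).1) (A.β γ b) = Real.exp (k γ) * Qdet Ω (fun j => (X j).1) b := by
  have hex : ∀ (γ : Γ) (j : Fin r), ∃ c : Fin r → ℝ, ∑ l, c l • X l = AdL A γ⁻¹ (X j) := by
    intro γ j
    have h1 : AdL A γ⁻¹ (X j) ∈ Submodule.span ℝ (Set.range X) := by
      rw [hspan]
      refine hP _ _ ?_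
      rw [← hspan]
      exact Submodule.subset_span (Set.mem_range_self j)
    exact (Submodule.mem_span_range_iff_exists_fun ℝ).mp h1
  choose c hc using hex
  obtain ⟨M, hM⟩ : ∃ M : Γ → Matrix (Fin r) (Fin r) ℝ,
      ∀ γ j, ∑ l, M γ l j • X l = AdL A γ⁻¹ (X j) :=
    ⟨fun γ => Matrix.of fun l j => c γ j l, fun γ j => hc γ j⟩
  have hmul : ∀ γ δ, M (γ * δ) = M δ * M γ := by
    intro γ δ
    have h1 : ∀ j, (fun m => M (γ * δ) m j) = fun m => (M δ * M γ) m j := by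
      intro j
      refine G2_uniq hind ?_
      rw [hM (γ * δ) j, mul_inv_rev, AdL_mul, ← hM γ j, map_sum]
      have h2 : ∀ l, AdL A δ⁻¹ (M γ l j • X l) = ∑ m, (M δ m l * M γ l j) • X m := by
        intro l
        rw [map_smul, ← hM δ l, Finset.smul_sum]
        refine Finset.sum_congr rfl fun m _ => ?_
        rw [smul_smul, mul_comm]
      rw [Finset.sum_congr rfl fun l _ => h2 l, Finset.sum_comm]
      refine Finset.sum_congr rfl fun m _ => ?_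
      rw [← Finset.sum_smul, Matrix.mul_apply]
    ext m j
    exact congrFun (h1 j) m
  have hone : M 1 = 1 := by
    have h1 : ∀ j, (fun m => M 1 m j) = fun m => (1 : Matrix (Fin r) (Fin r) ℝ) m j := by
      intro j
      refine G2_uniq hind ?_
      rw [hM 1 j, inv_one, AdL_one]
      simp [Matrix.one_apply]
    ext m j
    exact congrFun (h1 j) m
  have hdet : ∀ γ, |(M γ⁻¹).det| * |(M γ).det| = 1 := by
    intro γ
    rw [← abs_mul, ← Matrix.det_mul, ← hmul, mul_inv_cancel, hone, Matrix.det_one, abs_one]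
  have hpos : ∀ γ, 0 < |(M γ).det| := by
    intro γ
    have h1 := hdet γ
    refine lt_of_le_of_ne (abs_nonneg _) fun h => ?_
    rw [← h, mul_zero] at h1
    exact zero_ne_one h1
  refine ⟨fun γ => Real.log |(M γ).det|, ?_, ?_⟩
  · intro γ δ
    change Real.log |(M (γ * δ)).det| = _
    rw [hmul, Matrix.det_mul, abs_mul, Real.log_mul (hpos δ).ne' (hpos γ).ne', add_comm]
  · intro γ b hb
    change _ = Real.exp (Real.log |(M γ).det|) * _
    rw [Real.exp_log (hpos γ)]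
    refine le_antisymm (G2_le (hM γ) hb) ?_
    have h1 := G2_le (hM γ⁻¹) (A.mem γ hb)
    rw [A.inv_left γ hb] at h1
    have h2 := mul_le_mul_of_nonneg_left h1 (hpos γ).le
    have h3 : |(M γ).det| * (|(M γ⁻¹).det| * Qdet Ω (fun j => (X j).1) (A.β γ b)) =
        Qdet Ω (fun j => (X j).1) (A.β γ b) := by
      rw [← mul_assoc, mul_comm |(M γ).det|, hdet γ, one_mul]
    rwa [h3] at h2

end Pool.Agent.H.MP_e23cd6_ag.AB
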