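import Pool.Agent.H.MP_e23cd6_ag.AB.G5a

/-!
ABUN G7a: circle averages and the Levi form; mollification.

* `circle_lev`: second order Taylor expansion at x: φ(x+y) = φ x + Dφ(x) y + (1/2) D²φ(x)(y,y) + o(‖y‖²). Put y = z • v, z = s e^{iθ} =
  s cos θ + i s sin θ, y = s cos θ v + s sin θ (i v). The average over θ of the linear term is 0, of the quadratic term
  (s²/2)(1/2)(D²(v,v) + D²(iv,iv)) = s² (lev φ x v v).re (the mixed term averages to 0; the imaginary part of lev φ x v v is
  (1/4)(D²(v,iv) - D²(iv,v)), irrelevant). The o(s²) term is uniform in θ.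
* `moll_smooth`, `moll_close`: convolution with a smooth bump (Mathlib: ContDiffBump.normed, `HasCompactSupport.contDiff_convolution_left`,
  `ContDiffBump.dist_normed_convolution_le`; m is uniformly continuous as it is continuous with compact support,
  `Continuous.uniformContinuous_of_hasCompactSupport`).
* `moll_lev`: for 0 < s ≤ r0 the circle average of z ↦ moll m (x + z v) is ∫ ρ(t) avg_z m(x - t + z v) dt (Fubini for continuous
  functions on (0,2π) × compact support) ≥ ∫ ρ(t) (m(x-t) + s² d(x-t)) dt = moll m x + s² ∫ ρ(t) d(x-t) dt since x - t ∈ closedBall x rOut for t in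
  the support of ρ. Subtract, divide by s², s → 0+ and use circle_lev.
-/

open Set Filter Topology Metric Complex MeasureTheory
open scoped ContDiff ComplexConjugate

namespace Pool.Agent.H.MP_e23cd6_ag.AB

variable {V : Type} [NormedAddCommGroup V] [NormedSpace ℝ V] [NormedSpace ℂ V]
  [IsScalarTower ℝ ℂ V] [FiniteDimensional ℂ V]

theorem G7a_taylor {φ : V → ℝ} {x : V} (hφ : ContDiff ℝ 2 φ) {ε : ℝ} (hε : 0 < ε) :
    ∃ δ : ℝ, 0 < δ ∧ ∀ y, ‖y‖ < δ →
      |φ (x + y) - φ x - (fderiv ℝ φ x y + 1 / 2 * fderiv ℝ (fderiv ℝ φ) x y y)| ≤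
        ε * ‖y‖ ^ 2 := by
  have hd : DifferentiableAt ℝ (fderiv ℝ φ) x :=
    ((hφ.fderiv_right (m := 1) (by norm_num)).differentiable (by norm_num)) x
  have hsym : ∀ v w, fderiv ℝ (fderiv ℝ φ) x v w = fderiv ℝ (fderiv ℝ φ) x w v := fun v w =>
    (hφ.contDiffAt (x := x)).isSymmSndFDerivAt (by simp) v w
  have hB := hd.hasFDerivAt
  rw [hasFDerivAt_iff_isLittleO_nhds_zero] at hB
  have h1 := hB.def hε
  obtain ⟨δ, hδ, h2⟩ := Metric.eventually_nhds_iff_ball.1 h1
  refine ⟨δ, hδ, fun y hy => ?_⟩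
  have hg : ∀ z : V, HasFDerivAt (fun z : V => φ (x + z) - φ x -
      (fderiv ℝ φ x z + 1 / 2 * fderiv ℝ (fderiv ℝ φ) x z z))
      (fderiv ℝ φ (x + z) - fderiv ℝ φ x - fderiv ℝ (fderiv ℝ φ) x z) z := by
    intro z
    have e1 : HasFDerivAt (fun z : V => φ (x + z)) ((fderiv ℝ φ (x + z)).comp
        (ContinuousLinearMap.id ℝ V)) z :=
      ((hφ.differentiable two_ne_zero) (x + z)).hasFDerivAt.comp z
        ((hasFDerivAt_id z).const_add x)
    have e2 := (fderiv ℝ φ x).hasFDerivAt (x := z)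
    have e3 := ((fderiv ℝ (fderiv ℝ φ) x).hasFDerivAt (x := z)).clm_apply (hasFDerivAt_id z)
    refine ((e1.sub_const (φ x)).sub (e2.add (e3.const_mul (1 / 2 : ℝ)))).congr_fderiv ?_
    ext w
    simp [hsym w z]
    ring
  have key := (convex_closedBall (0 : V) ‖y‖).norm_image_sub_le_of_norm_hasFDerivWithin_le
    (C := ε * ‖y‖) (fun z _ => (hg z).hasFDerivWithinAt) (fun z hz => ?_)
    (mem_closedBall_self (norm_nonneg y)) (mem_closedBall_zero_iff.2 le_rfl)
  · simp only [map_zero, mul_zero, add_zero, sub_self, sub_zero, Real.norm_eq_abs] at key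
    refine key.trans (le_of_eq ?_)
    ring
  · have h3 : z ∈ ball (0 : V) δ := by
      rw [mem_ball_zero_iff]
      exact lt_of_le_of_lt (mem_closedBall_zero_iff.1 hz) hy
    refine (h2 z h3).trans ?_
    exact mul_le_mul_of_nonneg_left (mem_closedBall_zero_iff.1 hz) hε.le

theorem G7a_circle (s θ : ℝ) (v : V) :
    circleMap 0 s θ • v = (s * Real.cos θ) • v + (s * Real.sin θ) • (I • v) := by
  have h : circleMap 0 s θ =
      algebraMap ℝ ℂ (s * Real.cos θ) + algebraMap ℝ ℂ (s * Real.sin θ) * I := by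
    rw [circleMap_zero, Complex.exp_mul_I]
    simp
    ring
  rw [h, add_smul, mul_smul, algebraMap_smul, algebraMap_smul]

theorem G7a_quad (A : V →L[ℝ] ℝ) (B : V →L[ℝ] V →L[ℝ] ℝ) (s : ℝ) (v : V) :
    Real.circleAverage (fun z : ℂ => A (z • v) + 1 / 2 * B (z • v) (z • v)) 0 s =
      s ^ 2 * (1 / 4 * (B v v + B (I • v) (I • v))) := by
  rw [Real.circleAverage_def]
  have h : (fun θ : ℝ => A (circleMap 0 s θ • v) +
      1 / 2 * B (circleMap 0 s θ • v) (circleMap 0 s θ • v)) = fun θ =>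
      s * A v * Real.cos θ + s * A (I • v) * Real.sin θ +
        (s ^ 2 / 2 * B v v * Real.cos θ ^ 2 +
          s ^ 2 / 2 * (B v (I • v) + B (I • v) v) * (Real.sin θ * Real.cos θ) +
          s ^ 2 / 2 * B (I • v) (I • v) * Real.sin θ ^ 2) := by
    funext θ
    rw [G7a_circle]
    simp only [map_add, map_smul, smul_eq_mul, add_apply, smul_apply]
    ring
  rw [h]
  have i1 : IntervalIntegrable (fun θ : ℝ => s * A v * Real.cos θ) volume 0 (2 * Real.pi) :=
    Continuous.intervalIntegrable (by fun_prop) _ _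
  have i2 : IntervalIntegrable (fun θ : ℝ => s * A (I • v) * Real.sin θ) volume 0
      (2 * Real.pi) := Continuous.intervalIntegrable (by fun_prop) _ _
  have i3 : IntervalIntegrable (fun θ : ℝ => s ^ 2 / 2 * B v v * Real.cos θ ^ 2) volume 0
      (2 * Real.pi) := Continuous.intervalIntegrable (by fun_prop) _ _
  have i4 : IntervalIntegrable (fun θ : ℝ => s ^ 2 / 2 * (B v (I • v) + B (I • v) v) *
      (Real.sin θ * Real.cos θ)) volume 0 (2 * Real.pi) :=
    Continuous.intervalIntegrable (by fun_prop) _ _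
  have i5 : IntervalIntegrable (fun θ : ℝ => s ^ 2 / 2 * B (I • v) (I • v) * Real.sin θ ^ 2)
      volume 0 (2 * Real.pi) := Continuous.intervalIntegrable (by fun_prop) _ _
  rw [intervalIntegral.integral_add (i1.add i2) ((i3.add i4).add i5),
    intervalIntegral.integral_add i1 i2, intervalIntegral.integral_add (i3.add i4) i5,
    intervalIntegral.integral_add i3 i4]
  simp only [intervalIntegral.integral_const_mul, integral_cos, integral_sin, integral_cos_sq,
    integral_sin_sq, integral_sin_mul_cos₁, Real.sin_two_pi, Real.cos_two_pi, Real.sin_zero,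
    Real.cos_zero, smul_eq_mul]
  have hpi := Real.pi_ne_zero
  field_simp
  ring

theorem circle_lev {φ : V → ℝ} {x : V} (hφ : ContDiff ℝ 2 φ) (v : V) :
    Tendsto (fun s : ℝ => (Real.circleAverage (fun z : ℂ => φ (x + z • v)) 0 s - φ x) / s ^ 2)
      (𝓝[>] 0) (𝓝 (lev φ x v v).re) := by
  have hre : (lev φ x v v).re = 1 / 4 * (fderiv ℝ (fderiv ℝ φ) x v v +
      fderiv ℝ (fderiv ℝ φ) x (I • v) (I • v)) := by
    unfold lev
    simp [Complex.add_re, Complex.mul_re]
  rw [hre, Metric.tendsto_nhds]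
  intro ε hε
  obtain ⟨δ, hδ, h1⟩ := G7a_taylor (x := x) hφ (show 0 < ε / (2 * (‖v‖ ^ 2 + 1)) by positivity)
  have hsmall : ∀ᶠ s : ℝ in 𝓝[>] 0, s * ‖v‖ < δ := by
    have hc : Continuous fun s : ℝ => s * ‖v‖ := by fun_prop
    have h2 := hc.tendsto 0
    rw [zero_mul] at h2
    exact (h2.mono_left nhdsWithin_le_nhds).eventually_lt_const hδ
  filter_upwards [hsmall, self_mem_nhdsWithin] with s hs hs0
  have hs0' : 0 < s := hs0
  have hφc : Continuous φ := hφ.continuous
  have c12 : CircleIntegrable (fun z : ℂ => φ (x + z • v) - φ x) 0 s :=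
    ContinuousOn.circleIntegrable' (Continuous.continuousOn (by fun_prop))
  have c1 : CircleIntegrable (fun z : ℂ => φ (x + z • v)) 0 s :=
    ContinuousOn.circleIntegrable' (Continuous.continuousOn (by fun_prop))
  have c2 : CircleIntegrable (fun _ : ℂ => φ x) 0 s :=
    ContinuousOn.circleIntegrable' (Continuous.continuousOn (by fun_prop))
  have c3 : CircleIntegrable (fun z : ℂ => fderiv ℝ φ x (z • v) +
      1 / 2 * fderiv ℝ (fderiv ℝ φ) x (z • v) (z • v)) 0 s :=
    ContinuousOn.circleIntegrable' (Continuous.continuousOn (by fun_prop))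
  have e1 : Real.circleAverage (fun z : ℂ => φ (x + z • v) - φ x - (fderiv ℝ φ x (z • v) +
      1 / 2 * fderiv ℝ (fderiv ℝ φ) x (z • v) (z • v))) 0 s =
      Real.circleAverage (fun z : ℂ => φ (x + z • v)) 0 s - φ x -
        s ^ 2 * (1 / 4 * (fderiv ℝ (fderiv ℝ φ) x v v +
          fderiv ℝ (fderiv ℝ φ) x (I • v) (I • v))) := by
    rw [Real.circleAverage_fun_sub c12 c3, Real.circleAverage_fun_sub c1 c2,
      Real.circleAverage_const, G7a_quad]
  have hb : ∀ z ∈ sphere (0 : ℂ) |s|, |φ (x + z • v) - φ x - (fderiv ℝ φ x (z • v) +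
      1 / 2 * fderiv ℝ (fderiv ℝ φ) x (z • v) (z • v))| ≤
      ε / (2 * (‖v‖ ^ 2 + 1)) * (s * ‖v‖) ^ 2 := by
    intro z hz
    have hz' : ‖z‖ = s := by
      rw [mem_sphere_zero_iff_norm] at hz
      rw [hz, abs_of_pos hs0']
    have h3 := h1 (z • v) (by rw [norm_smul, hz']; exact hs)
    rwa [norm_smul, hz'] at h3
  set q : ℝ := ε / (2 * (‖v‖ ^ 2 + 1)) with hq
  set L : ℝ := 1 / 4 * (fderiv ℝ (fderiv ℝ φ) x v v +
    fderiv ℝ (fderiv ℝ φ) x (I • v) (I • v)) with hL
  have c4 : CircleIntegrable (fun z : ℂ => φ (x + z • v) - φ x - (fderiv ℝ φ x (z • v) +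
      1 / 2 * fderiv ℝ (fderiv ℝ φ) x (z • v) (z • v))) 0 s :=
    ContinuousOn.circleIntegrable' (Continuous.continuousOn (by fun_prop))
  have c5 : CircleIntegrable (fun z : ℂ => -(φ (x + z • v) - φ x - (fderiv ℝ φ x (z • v) +
      1 / 2 * fderiv ℝ (fderiv ℝ φ) x (z • v) (z • v)))) 0 s :=
    ContinuousOn.circleIntegrable' (Continuous.continuousOn (by fun_prop))
  have hb1 := Real.circleAverage_mono_on_of_le_circle c4
    (fun z hz => (le_abs_self _).trans (hb z hz))
  have hb2 := Real.circleAverage_mono_on_of_le_circle c5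
    (fun z hz => (neg_le_abs _).trans (hb z hz))
  have e2 : Real.circleAverage (fun z : ℂ => -(φ (x + z • v) - φ x - (fderiv ℝ φ x (z • v) +
      1 / 2 * fderiv ℝ (fderiv ℝ φ) x (z • v) (z • v)))) 0 s =
      -Real.circleAverage (fun z : ℂ => φ (x + z • v) - φ x - (fderiv ℝ φ x (z • v) +
        1 / 2 * fderiv ℝ (fderiv ℝ φ) x (z • v) (z • v))) 0 s := by
    rw [Real.circleAverage_def, Real.circleAverage_def, intervalIntegral.integral_neg, smul_neg]
  rw [e2] at hb2
  rw [e1] at hb1 hb2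
  have hs2 : 0 < s ^ 2 := by positivity
  have hqv : q * ‖v‖ ^ 2 < ε := by
    rw [hq, div_mul_eq_mul_div, div_lt_iff₀ (by positivity)]
    nlinarith [sq_nonneg ‖v‖]
  rw [Real.dist_eq, abs_lt]
  have h5 : q * (s * ‖v‖) ^ 2 = q * ‖v‖ ^ 2 * s ^ 2 := by ring
  rw [h5] at hb1 hb2
  constructor
  · rw [lt_sub_iff_add_lt, lt_div_iff₀ hs2]
    nlinarith
  · rw [sub_lt_iff_lt_add, div_lt_iff₀ hs2]
    nlinarith

variable [FiniteDimensional ℝ V] [MeasurableSpace V] [BorelSpace V]

/-- mollification -/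
noncomputable def moll (μ : Measure V) (ρ : ContDiffBump (0 : V)) (m : V → ℝ) (x : V) : ℝ :=
  ∫ t, ρ.normed μ t * m (x - t) ∂μ

theorem moll_smooth (μ : Measure V) [μ.IsAddHaarMeasure] (ρ : ContDiffBump (0 : V)) {m : V → ℝ}
    (hm : Continuous m) (hc : HasCompactSupport m) : ContDiff ℝ ∞ (moll μ ρ m) := by
  have h := ρ.hasCompactSupport_normed (μ := μ).contDiff_convolution_left
    (ContinuousLinearMap.lsmul ℝ ℝ) (ρ.contDiff_normed (μ := μ) (n := ⊤))
    (hm.locallyIntegrable (μ := μ))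
  exact h

theorem moll_close (μ : Measure V) [μ.IsAddHaarMeasure] {m : V → ℝ}
    (hm : Continuous m) (hc : HasCompactSupport m) {ε : ℝ} (hε : 0 < ε) :
    ∃ δ : ℝ, 0 < δ ∧ ∀ ρ : ContDiffBump (0 : V), ρ.rOut ≤ δ → ∀ x, |moll μ ρ m x - m x| ≤ ε := by
  have huc := hc.uniformContinuous_of_continuous hm
  rw [Metric.uniformContinuous_iff] at huc
  obtain ⟨δ, hδ, h⟩ := huc ε hε
  refine ⟨δ, hδ, fun ρ hρ x => ?_⟩
  have h1 := ρ.dist_normed_convolution_le (μ := μ) (x₀ := x) (g := m) (ε := ε)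
    hm.aestronglyMeasurable (fun y hy => (h (lt_of_lt_of_le (mem_ball.1 hy) hρ)).le)
  rw [Real.dist_eq] at h1
  exact h1

/-- circle averages and mollification commute -/
theorem G7a_swap (μ : Measure V) [μ.IsAddHaarMeasure] (ρ : ContDiffBump (0 : V)) {m : V → ℝ}
    (hm : Continuous m) {C : ℝ} (hC : ∀ y, ‖m y‖ ≤ C) (x v : V) (s : ℝ) :
    Real.circleAverage (fun z : ℂ => moll μ ρ m (x + z • v)) 0 s =
      ∫ t, ρ.normed μ t * Real.circleAverage (fun z : ℂ => m (x - t + z • v)) 0 s ∂μ := by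
  have hfm : IsFiniteMeasure (volume.restrict (Set.uIoc 0 (2 * Real.pi))) := ⟨by
    rw [Measure.restrict_apply_univ, Set.uIoc_of_le Real.two_pi_pos.le]
    exact measure_Ioc_lt_top⟩
  have hint : Integrable (Function.uncurry fun (θ : ℝ) (t : V) =>
      ρ.normed μ t * m (x + circleMap 0 s θ • v - t))
      ((volume.restrict (Set.uIoc 0 (2 * Real.pi))).prod μ) := by
    have h1 : Integrable (fun z : ℝ × V => (fun _ : ℝ => C) z.1 * ρ.normed μ z.2)
        ((volume.restrict (Set.uIoc 0 (2 * Real.pi))).prod μ) :=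
      Integrable.mul_prod (integrable_const C) ρ.integrable_normed
    refine h1.mono' ?_ ?_
    · have hρ := ρ.continuous_normed (μ := μ)
      refine Continuous.aestronglyMeasurable ?_
      unfold Function.uncurry
      fun_prop
    · refine Filter.Eventually.of_forall fun z => ?_
      simp only [Function.uncurry]
      rw [norm_mul, Real.norm_of_nonneg (ρ.nonneg_normed z.2), mul_comm]
      exact mul_le_mul_of_nonneg_right (hC _) (ρ.nonneg_normed z.2)
  rw [Real.circleAverage_def]
  unfold moll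
  rw [MeasureTheory.intervalIntegral_integral_swap hint, smul_eq_mul, ← integral_const_mul]
  congr 1
  funext t
  rw [Real.circleAverage_def, smul_eq_mul, intervalIntegral.integral_const_mul]
  have h2 : ∀ θ : ℝ, x + circleMap 0 s θ • v - t = x - t + circleMap 0 s θ • v := fun θ => by abel
  simp only [h2]
  ring

theorem moll_lev (μ : Measure V) [μ.IsAddHaarMeasure] (ρ : ContDiffBump (0 : V)) {m : V → ℝ}
    (hm : Continuous m) (hc : HasCompactSupport m) {x v : V} {d : V → ℝ} (hd : Measurable d)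
    {D : ℝ} (hD : ∀ y, |d y| ≤ D) {r0 : ℝ} (hr0 : 0 < r0)
    (h : ∀ y ∈ closedBall x ρ.rOut, ∀ s : ℝ, 0 < s → s ≤ r0 →
      m y + s ^ 2 * d y ≤ Real.circleAverage (fun z : ℂ => m (y + z • v)) 0 s) :
    ∫ t, ρ.normed μ t * d (x - t) ∂μ ≤ (lev (moll μ ρ m) x v v).re := by
  obtain ⟨C, hC⟩ := hc.exists_bound_of_continuous hm
  have hρ := ρ.continuous_normed (μ := μ)
  have hρc := ρ.hasCompactSupport_normed (μ := μ)
  have i1 : Integrable (fun t => ρ.normed μ t * m (x - t)) μ :=
    Continuous.integrable_of_hasCompactSupport (by fun_prop) hρc.mul_right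
  have i2 : Integrable (fun t => ρ.normed μ t * d (x - t)) μ := by
    refine (ρ.integrable_normed.const_mul D).mono' ?_ ?_
    · exact (hρ.measurable.mul (hd.comp (measurable_const.sub measurable_id))).aestronglyMeasurable
    · refine Filter.Eventually.of_forall fun t => ?_
      rw [norm_mul, Real.norm_of_nonneg (ρ.nonneg_normed t), mul_comm]
      exact mul_le_mul_of_nonneg_right (hD _) (ρ.nonneg_normed t)
  have key : ∀ s : ℝ, 0 < s → s ≤ r0 → moll μ ρ m x + s ^ 2 * ∫ t, ρ.normed μ t * d (x - t) ∂μ ≤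
      Real.circleAverage (fun z : ℂ => moll μ ρ m (x + z • v)) 0 s := by
    intro s hs hs'
    rw [G7a_swap μ ρ hm hC]
    have i3 : Integrable (fun t => ρ.normed μ t *
        Real.circleAverage (fun z : ℂ => m (x - t + z • v)) 0 s) μ := by
      refine Continuous.integrable_of_hasCompactSupport ?_ hρc.mul_right
      refine hρ.mul ?_
      simp only [Real.circleAverage_def, smul_eq_mul]
      refine continuous_const.mul ?_
      have hcu : Continuous (Function.uncurry fun (t : V) (θ : ℝ) =>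
          m (x - t + circleMap 0 s θ • v)) := by
        unfold Function.uncurry
        fun_prop
      exact intervalIntegral.continuous_parametric_intervalIntegral_of_continuous' hcu _ _
    unfold moll
    rw [← integral_const_mul, ← integral_add i1 (i2.const_mul _)]
    refine integral_mono (i1.add (i2.const_mul _)) i3 fun t => ?_
    by_cases ht : ρ.normed μ t = 0
    · simp [ht]
    · have h1 : t ∈ ball (0 : V) ρ.rOut := by
        rw [← ρ.support_normed_eq (μ := μ)]
        exact ht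
      have h2 : x - t ∈ closedBall x ρ.rOut := by
        rw [mem_closedBall, dist_eq_norm]
        have h3 : x - t - x = -t := by abel
        rw [h3, norm_neg]
        exact (mem_ball_zero_iff.1 h1).le
      have h4 := mul_le_mul_of_nonneg_left (h (x - t) h2 s hs hs') (ρ.nonneg_normed (μ := μ) t)
      refine le_trans (le_of_eq ?_) h4
      ring
  have hsm : ContDiff ℝ 2 (moll μ ρ m) := (moll_smooth μ ρ hm hc).of_le (by norm_cast)
  refine ge_of_tendsto (circle_lev hsm v) ?_
  have hev : ∀ᶠ s : ℝ in 𝓝[>] 0, s ≤ r0 :=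
    nhdsWithin_le_nhds (Iic_mem_nhds hr0)
  filter_upwards [hev, self_mem_nhdsWithin] with s hs hs0
  have hs0' : 0 < s := hs0
  rw [le_div_iff₀ (by positivity)]
  have := key s hs0' hs
  linarith

end Pool.Agent.H.MP_e23cd6_ag.AB
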