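import Pool.Agent.H.MP_e23cd6_ag.AB.H1

/-!
ABUN I1: the elements acting trivially on the base; existence of a translation.

Let N = {γ | β γ = id on D} (a subgroup). Assume BasePD.
(0) `fib_cocompact`: there is R' with: for every z there is γ ∈ N with |a γ b0 z + c γ b0| ≤ R'. Let K, R from cc, F from BasePD for
  K ∪ {b0}. Given z take γ with β γ b0 ∈ K, |a γ b0 z + c γ b0| ≤ R, and δ ∈ F with β γ = β δ on D: γ' = δ⁻¹ γ ∈ N and its action on (b0,z)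
  is the action of δ⁻¹ on (β δ b0, w), |w| ≤ R: |a γ' b0 z + c γ' b0| ≤ |a δ⁻¹ (β δ b0)| R + |c δ⁻¹ (β δ b0)|; take the maximum over δ ∈ F.
(1) N is infinite: if N were finite, for |z| large all |a γ b0 z + c γ b0| > R' (a γ b0 ≠ 0). Contradiction.
(2) `norm_a`: γ ∈ N, b ∈ D ⟹ |a γ b| = 1. Otherwise z ↦ a z + c (a = a γ b ≠ 1, c = c γ b) has the fixed point z* = c/(1-a), all powers γ^j fix
  (b, z*): a(γ^j) b z* + c(γ^j) b = z*, and a(γ^j) b = a^j are pairwise distinct, so the γ^j are infinitely many elements in the finite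
  set of `pd` for K = {b}, R = |z*|.
(3) for t ∈ N with a t b0 = 1: a t = 1 on D: a t is holomorphic with |a t| = 1 on D, D preconnected: constant (maximum principle
  `Complex.eqOn_of_isPreconnected_of_isMaxOn_norm` in several variables, D open preconnected).
(4) t ∈ N, a t = 1 on D, c t b = 0 for some b ∈ D ⟹ c t = 0 on D: c(t^j) = j c t on D, so all t^j fix (b,0); by pd two powers coincide,
  t^m = 1 for some m ≥ 1, m c t = 0.
(5) `exists_transl`: suppose that every t ∈ N with a t b0 = 1 has c t b0 = 0. Commutators of elements of N have a = 1, so c = 0 at b0: the affine maps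
  z ↦ a γ b0 z + c γ b0 (γ ∈ N) commute. If all a γ b0 = 1 then all of N fixes (b0, 0), N is finite by pd: contradiction to (1). Otherwise let
  a γ0 b0 ≠ 1 with the unique fixed point z0; all affine maps commuting with it fix z0, so N fixes (b0,z0) and is finite by pd. Contradiction.
  So there is t ∈ N, a t b0 = 1, c t b0 ≠ 0; by (3), (4) a t = 1 on D and c t has no zero on D.
-/

open Set Filter Topology Metric

namespace Pool.Agent.H.MP_e23cd6_ag.AB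

variable {n : ℕ} {Ω : Dom n} {Γ : Type} [Group Γ]

/-- elements acting trivially on the base -/
def kerN (A : BaseAct Ω Γ) : Subgroup Γ where
  carrier := {γ | ∀ b ∈ Ω.D, A.β γ b = b}
  mul_mem' := by
    intro γ δ hγ hδ b hb
    rw [A.mul _ _ _ hb, hδ b hb, hγ b hb]
  one_mem' := A.one
  inv_mem' := by
    intro γ hγ b hb
    have h := A.inv_left γ hb
    rwa [hγ b hb] at h

/-- `t` acts as a translation in the fibres, without fixed points -/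
def IsTr (A : AffAct Ω Γ) (t : Γ) : Prop :=
  (∀ b ∈ Ω.D, A.β t b = b) ∧ (∀ b ∈ Ω.D, A.a t b = 1) ∧ ∀ b ∈ Ω.D, A.c t b ≠ 0

section I1

variable (A : AffAct Ω Γ)

theorem I1_a_mul {γ δ : Γ} (hδ : δ ∈ kerN A.toBaseAct) {b : E n} (hb : b ∈ Ω.D) :
    A.a (γ * δ) b = A.a γ b * A.a δ b := by
  rw [A.a_mul _ _ _ hb, hδ b hb]

theorem I1_c_mul {γ δ : Γ} (hδ : δ ∈ kerN A.toBaseAct) {b : E n} (hb : b ∈ Ω.D) :
    A.c (γ * δ) b = A.a γ b * A.c δ b + A.c γ b := by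
  rw [A.c_mul _ _ _ hb, hδ b hb]

theorem I1_a_pow {γ : Γ} (hγ : γ ∈ kerN A.toBaseAct) {b : E n} (hb : b ∈ Ω.D) (j : ℕ) :
    A.a (γ ^ j) b = A.a γ b ^ j := by
  induction j with
  | zero => rw [pow_zero, pow_zero, A.a_one _ hb]
  | succ j ih => rw [pow_succ, pow_succ, I1_a_mul A hγ hb, ih]

theorem I1_fix_pow {γ : Γ} (hγ : γ ∈ kerN A.toBaseAct) {b : E n} (hb : b ∈ Ω.D) {z : ℂ}
    (hz : A.a γ b * z + A.c γ b = z) (j : ℕ) :
    A.a (γ ^ j) b * z + A.c (γ ^ j) b = z := by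
  induction j with
  | zero => rw [pow_zero, A.a_one _ hb, A.c_one _ hb]; ring
  | succ j ih =>
    rw [pow_succ, I1_a_mul A hγ hb, I1_c_mul A hγ hb]
    calc A.a (γ ^ j) b * A.a γ b * z + (A.a (γ ^ j) b * A.c γ b + A.c (γ ^ j) b)
        = A.a (γ ^ j) b * (A.a γ b * z + A.c γ b) + A.c (γ ^ j) b := by ring
      _ = z := by rw [hz, ih]

/-- the set of elements of `kerN` which fix a point of a fibre is finite -/
theorem I1_fin {b : E n} (hb : b ∈ Ω.D) (z : ℂ) :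
    {γ | γ ∈ kerN A.toBaseAct ∧ A.a γ b * z + A.c γ b = z}.Finite := by
  refine (A.pd {b} (singleton_subset_iff.2 hb) isCompact_singleton ‖z‖).subset ?_
  rintro γ ⟨hγ, hz⟩
  refine ⟨b, mem_singleton b, z, le_rfl, ?_, ?_⟩
  · rw [hγ b hb]; exact mem_singleton b
  · rw [hz]

theorem I1_pow_eq {γ : Γ} (hγ : γ ∈ kerN A.toBaseAct) {b : E n} (hb : b ∈ Ω.D) {z : ℂ}
    (hz : A.a γ b * z + A.c γ b = z) : ∃ j k : ℕ, j < k ∧ γ ^ j = γ ^ k := by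
  refine (I1_fin A hb z).exists_lt_map_eq_of_forall_mem (f := fun j : ℕ => γ ^ j) ?_
  intro j
  exact ⟨Subgroup.pow_mem _ hγ j, I1_fix_pow A hγ hb hz j⟩

end I1

theorem norm_a (A : AffAct Ω Γ) {γ : Γ} (hγ : γ ∈ kerN A.toBaseAct) {b : E n} (hb : b ∈ Ω.D) :
    ‖A.a γ b‖ = 1 := by
  by_contra hne
  have ha1 : 1 - A.a γ b ≠ 0 := by
    intro h
    apply hne
    rw [← sub_eq_zero.1 h, norm_one]
  have hz : A.a γ b * (A.c γ b / (1 - A.a γ b)) + A.c γ b = A.c γ b / (1 - A.a γ b) := by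
    field_simp
    ring
  obtain ⟨j, k, hjk, he⟩ := I1_pow_eq A hγ hb hz
  have h1 : ‖A.a γ b‖ ^ j = ‖A.a γ b‖ ^ k := by
    rw [← norm_pow, ← norm_pow, ← I1_a_pow A hγ hb, ← I1_a_pow A hγ hb, he]
  have h2 := pow_right_injective₀ (norm_pos_iff.2 (A.a_ne γ b hb)) hne h1
  omega

theorem I1_a_one (A : AffAct Ω Γ) {t : Γ} (ht : t ∈ kerN A.toBaseAct) (h1 : A.a t Ω.b0 = 1) :
    ∀ b ∈ Ω.D, A.a t b = 1 := by
  intro b hb
  have hmax : IsMaxOn (norm ∘ A.a t) Ω.D Ω.b0 := by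
    intro x hx
    show ‖A.a t x‖ ≤ ‖A.a t Ω.b0‖
    rw [norm_a A ht hx, norm_a A ht Ω.b0_mem]
  have h := Complex.eqOn_of_isPreconnected_of_isMaxOn_norm Ω.conn Ω.isOpen (A.a_holo t)
    Ω.b0_mem hmax hb
  rw [h]
  exact h1

theorem I1_c_zero (A : AffAct Ω Γ) {t : Γ} (ht : t ∈ kerN A.toBaseAct)
    (h1 : ∀ b ∈ Ω.D, A.a t b = 1) {b : E n} (hb : b ∈ Ω.D) (h0 : A.c t b = 0) :
    ∀ b' ∈ Ω.D, A.c t b' = 0 := by
  have hc : ∀ b' ∈ Ω.D, ∀ j : ℕ, A.c (t ^ j) b' = j * A.c t b' := by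
    intro b' hb' j
    induction j with
    | zero => rw [pow_zero, A.c_one _ hb']; simp
    | succ j ih =>
      rw [pow_succ, I1_c_mul A ht hb', ih, I1_a_pow A ht hb', h1 b' hb', one_pow]
      push_cast
      ring
  obtain ⟨j, k, hjk, he⟩ := I1_pow_eq A ht hb (z := 0) (by rw [h0]; ring)
  intro b' hb'
  have h2 : (j : ℂ) * A.c t b' = (k : ℂ) * A.c t b' := by
    rw [← hc b' hb' j, ← hc b' hb' k, he]
  have h3 : ((k : ℂ) - j) * A.c t b' = 0 := by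
    rw [sub_mul, h2, sub_self]
  rcases mul_eq_zero.1 h3 with h4 | h4
  · exfalso
    have : (k : ℂ) = j := sub_eq_zero.1 h4
    have h5 : k = j := by exact_mod_cast this
    omega
  · exact h4

theorem I1_cocompact (A : AffAct Ω Γ) (hpd : BasePD A.toBaseAct) :
    ∃ R : ℝ, ∀ z : ℂ, ∃ γ ∈ kerN A.toBaseAct, ‖A.a γ Ω.b0 * z + A.c γ Ω.b0‖ ≤ R := by
  obtain ⟨K, hK, hKc, R, hR⟩ := A.cc
  obtain ⟨F, hF, hFK⟩ := hpd (insert Ω.b0 K) (insert_subset Ω.b0_mem hK) (hKc.insert _)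
  obtain ⟨R', hR'⟩ := (hF.image fun δ => ‖A.a δ⁻¹ (A.β δ Ω.b0)‖ * |R| +
    ‖A.c δ⁻¹ (A.β δ Ω.b0)‖).bddAbove
  refine ⟨R', fun z => ?_⟩
  obtain ⟨γ, hγK, hγ⟩ := hR Ω.b0 Ω.b0_mem z
  obtain ⟨δ, hδ, hγδ⟩ := hFK γ ⟨Ω.b0, mem_insert _ _, mem_insert_of_mem _ hγK⟩
  refine ⟨δ⁻¹ * γ, ?_, ?_⟩
  · intro b hb
    rw [A.mul _ _ _ hb, hγδ b hb, A.inv_left δ hb]
  · have h1 : A.a (δ⁻¹ * γ) Ω.b0 * z + A.c (δ⁻¹ * γ) Ω.b0 =
        A.a δ⁻¹ (A.β δ Ω.b0) * (A.a γ Ω.b0 * z + A.c γ Ω.b0) + A.c δ⁻¹ (A.β δ Ω.b0) := by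
      rw [A.a_mul _ _ _ Ω.b0_mem, A.c_mul _ _ _ Ω.b0_mem, hγδ _ Ω.b0_mem]
      ring
    rw [h1]
    refine (norm_add_le _ _).trans ?_
    rw [norm_mul]
    have h2 := hR' ⟨δ, hδ, rfl⟩
    refine le_trans ?_ h2
    have h3 : ‖A.a γ Ω.b0 * z + A.c γ Ω.b0‖ ≤ |R| := hγ.trans (le_abs_self R)
    have h4 := mul_le_mul_of_nonneg_left h3 (norm_nonneg (A.a δ⁻¹ (A.β δ Ω.b0)))
    exact add_le_add_left h4 _

theorem I1_infinite (A : AffAct Ω Γ) (hpd : BasePD A.toBaseAct) :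
    (kerN A.toBaseAct : Set Γ).Infinite := by
  intro hfin
  obtain ⟨R, hR⟩ := I1_cocompact A hpd
  obtain ⟨M, hM⟩ := (hfin.image fun γ => ‖A.c γ Ω.b0‖).bddAbove
  obtain ⟨γ, hγ, h1⟩ := hR (((|R| + |M| + 1 : ℝ) : ℂ))
  have h2 : ‖A.c γ Ω.b0‖ ≤ M := hM ⟨γ, hγ, rfl⟩
  have h3 : ‖A.a γ Ω.b0 * (((|R| + |M| + 1 : ℝ) : ℂ))‖ = |R| + |M| + 1 := by
    rw [norm_mul, norm_a A hγ Ω.b0_mem, one_mul, Complex.norm_real, Real.norm_eq_abs]
    exact abs_of_nonneg (by positivity)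
  have h4 : ‖A.a γ Ω.b0 * (((|R| + |M| + 1 : ℝ) : ℂ))‖ ≤
      ‖A.a γ Ω.b0 * (((|R| + |M| + 1 : ℝ) : ℂ)) + A.c γ Ω.b0‖ + ‖A.c γ Ω.b0‖ := by
    have := norm_sub_le (A.a γ Ω.b0 * (((|R| + |M| + 1 : ℝ) : ℂ)) + A.c γ Ω.b0) (A.c γ Ω.b0)
    rwa [add_sub_cancel_right] at this
  have h5 := le_abs_self R
  have h6 := le_abs_self M
  rw [h3] at h4
  linarith

theorem exists_transl (A : AffAct Ω Γ) (hpd : BasePD A.toBaseAct) : ∃ t, IsTr A t := by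
  by_contra hno
  push Not at hno
  have hb0 := Ω.b0_mem
  -- elements with linear part one act trivially at the base point
  have hkey : ∀ t ∈ kerN A.toBaseAct, A.a t Ω.b0 = 1 → A.c t Ω.b0 = 0 := by
    intro t ht h1
    by_contra hc
    refine hno t ⟨ht, I1_a_one A ht h1, fun b hb h0 => ?_⟩
    exact hc (I1_c_zero A ht (I1_a_one A ht h1) hb h0 Ω.b0 hb0)
  have hz : ∃ z : ℂ, ∀ γ ∈ kerN A.toBaseAct, A.a γ Ω.b0 * z + A.c γ Ω.b0 = z := by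
    by_cases hall : ∀ γ ∈ kerN A.toBaseAct, A.a γ Ω.b0 = 1
    · refine ⟨0, fun γ hγ => ?_⟩
      rw [hkey γ hγ (hall γ hγ)]
      ring
    · push Not at hall
      obtain ⟨g, hg, hg1⟩ := hall
      have hg2 : 1 - A.a g Ω.b0 ≠ 0 := fun h => hg1 (sub_eq_zero.1 h).symm
      refine ⟨A.c g Ω.b0 / (1 - A.a g Ω.b0), fun γ hγ => ?_⟩
      have hk : γ * g * (g * γ)⁻¹ ∈ kerN A.toBaseAct :=
        mul_mem (mul_mem hγ hg) (inv_mem (mul_mem hg hγ))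
      have hkm : γ * g * (g * γ)⁻¹ * (g * γ) = γ * g := by group
      have ha : A.a (γ * g * (g * γ)⁻¹) Ω.b0 = 1 := by
        have h1 := I1_a_mul A (γ := γ * g * (g * γ)⁻¹) (mul_mem hg hγ) hb0
        rw [hkm, I1_a_mul A hg hb0, I1_a_mul A hγ hb0] at h1
        have h2 : A.a g Ω.b0 * A.a γ Ω.b0 ≠ 0 := mul_ne_zero (A.a_ne _ _ hb0) (A.a_ne _ _ hb0)
        refine mul_right_cancel₀ h2 ?_
        rw [← h1]
        ring
      have hc := hkey _ hk ha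
      have h1 := I1_c_mul A (γ := γ * g * (g * γ)⁻¹) (mul_mem hg hγ) hb0
      rw [hkm, ha, hc, I1_c_mul A hg hb0, I1_c_mul A hγ hb0] at h1
      field_simp
      linear_combination h1
  obtain ⟨z, hz⟩ := hz
  refine I1_infinite A hpd ((I1_fin A hb0 z).subset ?_)
  intro γ hγ
  exact ⟨hγ, hz γ hγ⟩

end Pool.Agent.H.MP_e23cd6_ag.AB
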