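import Pool.Agent.H.MP_e23cd6_ag.AB.D7

/-!
ABUN H1: without limit fields the group acts on the domain through a properly discontinuous group of maps.

Proof of `base_pd`. ε from `no_small`. Suppose there is no finite F for some compact K. Then one can choose inductively γ_j with
x_j ∈ K, β γ_j x_j ∈ K such that β γ_j is different (as a map on D) from β γ_0, ..., β γ_{j-1} (apply the failure to F = {γ_0..γ_{j-1}}). By
`montel` twice and compactness of K pass to a subsequence with β γ_j → f, β γ_j⁻¹ → f' locally uniformly on D, x_j → x ∈ K,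
β γ_j x_j → y ∈ K. f x = y ∈ D (`TendstoLocallyUniformlyOn.tendsto_comp`). f is continuous at x, so there is r > 0 with
closedBall x r ⊆ D, f (closedBall x r) ⊆ closedBall y s ⊆ D for some s. For b ∈ closedBall x r: β γ_j b → f b ∈ D uniformly, so β γ_j b stays in a
compact neighbourhood closedBall y (2s) ⊆ D, where β γ_j⁻¹ → f' uniformly and f' is uniformly continuous: b = β γ_j⁻¹ (β γ_j b) → f'(f b), so
f'(f b) = b, and β γ_j⁻¹ (β γ_k b) → b uniformly on closedBall x r as j, k → ∞. By `near` (ball closedBall x r, compact set Ω.B, η = ε)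
|β (γ_j⁻¹ γ_k) b - b| ≤ ε on B for large j < k, so β (γ_j⁻¹ γ_k) = id on D by no_small, β γ_k = β γ_j on D: contradiction.
-/

open Set Filter Topology Metric

namespace Pool.Agent.H.MP_e23cd6_ag.AB

variable {n : ℕ} {Ω : Dom n} {Γ : Type} [Group Γ]

/-- the maps `β γ` form a properly discontinuous family on the domain -/
def BasePD (A : BaseAct Ω Γ) : Prop :=
  ∀ K ⊆ Ω.D, IsCompact K → ∃ F : Set Γ, F.Finite ∧
    ∀ γ, (∃ b ∈ K, A.β γ b ∈ K) → ∃ δ ∈ F, ∀ b ∈ Ω.D, A.β γ b = A.β δ b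

theorem H1_bounded (A : BaseAct Ω Γ) (γ : ℕ → Γ) :
    ∀ K ⊆ Ω.D, IsCompact K → ∃ m : ℝ, ∀ j, ∀ x ∈ K, ‖A.β (γ j) x‖ ≤ m := by
  intro K hK _
  obtain ⟨m, hm⟩ := Ω.bdd.exists_norm_le
  exact ⟨m, fun j x hx => hm _ (A.mem _ (hK hx))⟩

theorem H1_seq (A : BaseAct Ω Γ) {K : Set (E n)} (hK : K ⊆ Ω.D) (hKc : IsCompact K)
    (γ : ℕ → Γ) (hγ : ∀ j, ∃ b ∈ K, A.β (γ j) b ∈ K) :
    ∃ ψ : ℕ → ℕ, StrictMono ψ ∧ ∃ f f' : E n → E n, DifferentiableOn ℂ f Ω.D ∧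
      DifferentiableOn ℂ f' Ω.D ∧
      TendstoLocallyUniformlyOn (fun j => A.β (γ (ψ j))) f atTop Ω.D ∧
      TendstoLocallyUniformlyOn (fun j => A.β (γ (ψ j))⁻¹) f' atTop Ω.D ∧
      ∃ x ∈ Ω.D, f x ∈ Ω.D := by
  obtain ⟨φ1, hφ1, f, hf, hf1⟩ := montel Ω.isOpen (fun j => A.β (γ j))
    (fun j => A.holo (γ j)) (H1_bounded A γ)
  obtain ⟨φ2, hφ2, f', hf', hf2⟩ := montel Ω.isOpen (fun j => A.β (γ (φ1 j))⁻¹)
    (fun j => A.holo (γ (φ1 j))⁻¹) (H1_bounded A fun j => (γ (φ1 j))⁻¹)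
  choose x hx hy using hγ
  obtain ⟨x0, hx0, φ3, hφ3, hx3⟩ := hKc.tendsto_subseq (fun j => hx (φ1 (φ2 j)))
  obtain ⟨y0, hy0, φ4, hφ4, hy4⟩ := hKc.tendsto_subseq (fun j => hy (φ1 (φ2 (φ3 j))))
  have h34 : StrictMono (fun j => φ3 (φ4 j)) := hφ3.comp hφ4
  have h234 : StrictMono (fun j => φ2 (φ3 (φ4 j))) := hφ2.comp h34
  have hψ : StrictMono (fun j => φ1 (φ2 (φ3 (φ4 j)))) := hφ1.comp h234
  have hL1 : TendstoLocallyUniformlyOn (fun j => A.β (γ (φ1 (φ2 (φ3 (φ4 j)))))) f atTop Ω.D := by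
    intro u hu z hz
    obtain ⟨t, ht, hev⟩ := hf1 u hu z hz
    exact ⟨t, ht, h234.tendsto_atTop.eventually hev⟩
  have hL2 : TendstoLocallyUniformlyOn (fun j => A.β (γ (φ1 (φ2 (φ3 (φ4 j)))))⁻¹) f' atTop Ω.D := by
    intro u hu z hz
    obtain ⟨t, ht, hev⟩ := hf2 u hu z hz
    exact ⟨t, ht, h34.tendsto_atTop.eventually hev⟩
  refine ⟨_, hψ, f, f', hf, hf', hL1, hL2, x0, hK hx0, ?_⟩
  have hxlim : Tendsto (fun j => x (φ1 (φ2 (φ3 (φ4 j))))) atTop (𝓝[Ω.D] x0) := by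
    refine tendsto_nhdsWithin_iff.2 ⟨hx3.comp hφ4.tendsto_atTop, Eventually.of_forall fun j => ?_⟩
    exact hK (hx _)
  have h1 := hL1.tendsto_comp (hf.continuousOn x0 (hK hx0)) (hK hx0) hxlim
  have h2 : f x0 = y0 := tendsto_nhds_unique h1 hy4
  rw [h2]
  exact hK hy0

theorem base_pd (A : BaseAct Ω Γ) (h0 : ∀ X : Lie A, X = 0) : BasePD A := by
  classical
  obtain ⟨ε, hε, hsmall⟩ := no_small A h0
  intro K hK hKc
  by_contra hno
  push Not at hno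
  obtain ⟨γ, hγ1, hγ2⟩ := exists_seq_of_forall_finset_exists
    (fun γ : Γ => ∃ b ∈ K, A.β γ b ∈ K) (fun δ γ : Γ => ∃ b ∈ Ω.D, A.β γ b ≠ A.β δ b) (by
      intro s _
      obtain ⟨y, h1, h2⟩ := hno (s : Set Γ) s.finite_toSet
      exact ⟨y, h1, fun δ hδ => h2 δ (by exact_mod_cast hδ)⟩)
  obtain ⟨ψ, hψ, f, f', hf, hf', hL1, hL2, x, hx, hfx⟩ := H1_seq A hK hKc γ hγ1
  -- a ball around x mapped into the domain by f
  have hfc : ContinuousAt f x := (hf x hx).differentiableAt (Ω.isOpen.mem_nhds hx) |>.continuousAt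
  obtain ⟨r1, hr1, hr1b⟩ := Metric.eventually_nhds_iff_ball.1
    ((hfc.eventually (Ω.isOpen.mem_nhds hfx)).and (Ω.isOpen.mem_nhds hx))
  have hB : closedBall x (r1 / 2) ⊆ Ω.D := fun z hz =>
    (hr1b z (closedBall_subset_ball (by linarith) hz)).2
  -- the limit relation
  have key : ∀ φ : ℕ → ℕ, StrictMono φ → ∀ b ∈ ball x (r1 / 2),
      Tendsto (fun j => A.β ((γ (ψ (φ j)))⁻¹ * γ (ψ (φ j + 1))) b) atTop (𝓝 b) := by
    intro φ hφ b hb
    have hbD : b ∈ Ω.D := hB (ball_subset_closedBall hb)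
    have hfb : f b ∈ Ω.D := (hr1b b (ball_subset_ball (by linarith) hb)).1
    have hc' : ContinuousWithinAt f' Ω.D (f b) := hf'.continuousOn _ hfb
    have hlim0 : Tendsto (fun j => A.β (γ (ψ j)) b) atTop (𝓝[Ω.D] (f b)) :=
      tendsto_nhdsWithin_iff.2 ⟨hL1.tendsto_at hbD, Eventually.of_forall fun j => A.mem _ hbD⟩
    have h1 : Tendsto (fun j => A.β (γ (ψ j))⁻¹ (A.β (γ (ψ j)) b)) atTop (𝓝 (f' (f b))) :=
      hL2.tendsto_comp hc' hfb hlim0
    have h2 : f' (f b) = b := by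
      refine tendsto_nhds_unique h1 ?_
      have : (fun j => A.β (γ (ψ j))⁻¹ (A.β (γ (ψ j)) b)) = fun _ => b := by
        funext j
        exact A.inv_left _ hbD
      rw [this]
      exact tendsto_const_nhds
    have hL2' : TendstoLocallyUniformlyOn (fun j => A.β (γ (ψ (φ j)))⁻¹) f' atTop Ω.D := by
      intro u hu z hz
      obtain ⟨t, ht, hev⟩ := hL2 u hu z hz
      exact ⟨t, ht, hφ.tendsto_atTop.eventually hev⟩
    have hsh : Tendsto (fun j => φ j + 1) atTop atTop :=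
      tendsto_atTop_mono (fun j => Nat.le_succ (φ j)) hφ.tendsto_atTop
    have h3 : Tendsto (fun j => A.β (γ (ψ (φ j)))⁻¹ (A.β (γ (ψ (φ j + 1))) b)) atTop
        (𝓝 (f' (f b))) := hL2'.tendsto_comp hc' hfb (hlim0.comp hsh)
    rw [h2] at h3
    refine h3.congr fun j => ?_
    rw [A.mul _ _ _ hbD]
  refine near_aux Ω (x := x) (r := r1 / 2) (by positivity) hB Ω.B_sub Ω.B_compact hε
    (fun j => A.β ((γ (ψ j))⁻¹ * γ (ψ (j + 1)))) (fun j => A.maps _) (fun j => A.holo _) ?_ ?_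
  · intro φ hφ g _ hg b hb
    exact tendsto_nhds_unique (hg.tendsto_at (hB (ball_subset_closedBall hb))) (key φ hφ b hb)
  · intro j
    by_contra hcon
    push Not at hcon
    have h1 := hsmall _ hcon
    obtain ⟨b, hb, hne⟩ := hγ2 (ψ j) (ψ (j + 1)) (hψ (Nat.lt_succ_self j))
    apply hne
    have h2 := h1 b hb
    rw [A.mul _ _ _ hb] at h2
    rw [← A.inv_right (γ (ψ j)) (A.mem (γ (ψ (j + 1))) hb), h2]

end Pool.Agent.H.MP_e23cd6_ag.AB
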