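import Pool.Agent.H.MP_e23cd6_ag.AB.A1

/-!
ABUN A2: locally uniform limits of holomorphic maps are holomorphic, with locally uniform
convergence of the derivatives.

Proof. Let x ∈ U. Choose r > 0 with closedBall x (2r) ⊆ U; it is compact (V is finite dimensional), so
f_j → g uniformly on it. By `cauchy_fderiv` applied to f_j - f_k on the balls ball y r, y ∈ ball x r,
‖fderiv f_j y - fderiv f_k y‖ ≤ 2 sup_{ball x (2r)} ‖f_j - f_k‖ / r, so the derivatives are uniformly
Cauchy on ball x r, and `hasFDerivAt_of_tendstoUniformlyOn` gives the derivative of g.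
(In an infinite dimensional V the statement is false: coordinate functionals in c_0.)
-/

open Set Filter Topology Metric

namespace Pool.Agent.H.MP_e23cd6_ag.AB

theorem lim_holo {V F : Type*} [NormedAddCommGroup V] [NormedSpace ℂ V] [FiniteDimensional ℂ V]
    [NormedAddCommGroup F] [NormedSpace ℂ F] [CompleteSpace F] {U : Set V} (hU : IsOpen U)
    {f : ℕ → V → F} {g : V → F} (hf : ∀ j, DifferentiableOn ℂ (f j) U)
    (h : TendstoLocallyUniformlyOn f g atTop U) :
    DifferentiableOn ℂ g U ∧
      TendstoLocallyUniformlyOn (fun j => fderiv ℂ (f j)) (fderiv ℂ g) atTop U := by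
  have : ProperSpace V := FiniteDimensional.proper ℂ V
  have key : ∀ x ∈ U, ∃ r : ℝ, 0 < r ∧ (∀ y ∈ ball x r, DifferentiableAt ℂ g y) ∧
      TendstoUniformlyOn (fun j => fderiv ℂ (f j)) (fderiv ℂ g) atTop (ball x r) := by
    intro x hx
    obtain ⟨s, hs, hsU⟩ := Metric.isOpen_iff.1 hU x hx
    set r : ℝ := s / 4 with hr
    have hr0 : 0 < r := by positivity
    have hK : closedBall x (2 * r) ⊆ U := by
      refine Subset.trans ?_ hsU
      apply closedBall_subset_ball
      rw [hr]
      linarith
    have hunif : TendstoUniformlyOn f g atTop (closedBall x (2 * r)) :=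
      (tendstoLocallyUniformlyOn_iff_forall_isCompact hU).1 h _ hK (isCompact_closedBall x (2 * r))
    have hcau := hunif.uniformCauchySeqOn
    rw [Metric.uniformCauchySeqOn_iff] at hcau
    have hsubb : ∀ y ∈ ball x r, ball y r ⊆ closedBall x (2 * r) := by
      intro y hy w hw
      rw [mem_closedBall]
      have h1 := mem_ball.1 hw
      have h2 := mem_ball.1 hy
      have h3 := dist_triangle w y x
      linarith
    have hdc : UniformCauchySeqOn (fun j => fderiv ℂ (f j)) atTop (ball x r) := by
      rw [Metric.uniformCauchySeqOn_iff]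
      intro ε hε
      obtain ⟨N, hN⟩ := hcau (ε * r / 4) (by positivity)
      refine ⟨N, fun j hj k hk y hy => ?_⟩
      have hyU : y ∈ U := hK (hsubb y hy (mem_ball_self hr0))
      have hd : DifferentiableOn ℂ (fun z => f j z - f k z) (ball y r) :=
        ((hf j).mono ((hsubb y hy).trans hK)).sub ((hf k).mono ((hsubb y hy).trans hK))
      have hb := cauchy_fderiv (m := ε * r / 4) hr0 hd (fun w hw => by
        rw [← dist_eq_norm]
        exact (hN j hj k hk w (hsubb y hy hw)).le)
      have he : fderiv ℂ (fun z => f j z - f k z) y = fderiv ℂ (f j) y - fderiv ℂ (f k) y :=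
        fderiv_fun_sub ((hf j).differentiableAt (hU.mem_nhds hyU))
          ((hf k).differentiableAt (hU.mem_nhds hyU))
      rw [dist_eq_norm, ← he]
      refine hb.trans_lt ?_
      have : 2 * (ε * r / 4) / r = ε / 2 := by
        field_simp
        ring
      rw [this]
      linarith
    have hlim : ∀ y : V, ∃ G : V →L[ℂ] F, y ∈ ball x r →
        Tendsto (fun j => fderiv ℂ (f j) y) atTop (𝓝 G) := by
      intro y
      by_cases hy : y ∈ ball x r
      · obtain ⟨G, hG⟩ := cauchySeq_tendsto_of_complete (hdc.cauchySeq hy)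
        exact ⟨G, fun _ => hG⟩
      · exact ⟨0, fun h => absurd h hy⟩
    choose G hG using hlim
    have hGu : TendstoUniformlyOn (fun j => fderiv ℂ (f j)) G atTop (ball x r) :=
      hdc.tendstoUniformlyOn_of_tendsto (fun y hy => hG y hy)
    have hder : ∀ y ∈ ball x r, HasFDerivAt g (G y) y := by
      intro y hy
      refine hasFDerivAt_of_tendstoUniformlyOn isOpen_ball hGu (fun j z hz => ?_)
        (fun z hz => hunif.tendsto_at (hsubb z hz (mem_ball_self hr0))) hy
      have hzU : z ∈ U := hK (hsubb z hz (mem_ball_self hr0))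
      exact ((hf j).differentiableAt (hU.mem_nhds hzU)).hasFDerivAt
    refine ⟨r, hr0, fun y hy => (hder y hy).differentiableAt, ?_⟩
    exact hGu.congr_right (fun y hy => (hder y hy).fderiv.symm)
  refine ⟨fun x hx => ?_, ?_⟩
  · obtain ⟨r, hr, hd, -⟩ := key x hx
    exact (hd x (mem_ball_self hr)).differentiableWithinAt
  · intro u hu x hx
    obtain ⟨r, hr, -, ht⟩ := key x hx
    exact ⟨ball x r, mem_nhdsWithin_of_mem_nhds (ball_mem_nhds x hr), ht u hu⟩

end Pool.Agent.H.MP_e23cd6_ag.AB
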