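import Mathlib

/-!
ABUN B1: a biholomorphic map of the complex line is affine.

Proof. Put F z = f z - f 0, with inverse G w = g (w + f 0): F 0 = 0, G (F z) = z, F (G w) = w. F is zero only
at 0 (F injective). The derivative of F at 0 is not 0 (chain rule for G ∘ F = id). Let
D z = dslope F 0 z: entire (Mathlib: `differentiableOn_dslope` / `DifferentiableAt` versions) and nowhere zero
(at z ≠ 0 it is F z / z ≠ 0, at 0 it is F'(0)). q z = 1 / D z is entire, nowhere zero, q z = z / F z for z ≠ 0.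
G maps the closed unit disc into a bounded set, contained in a ball of radius R ≥ 1, so ‖z‖ > R implies
‖F z‖ > 1 and ‖q z‖ ≤ ‖z‖. Then dslope q 0 is entire and bounded (for ‖z‖ > R:
‖(q z - q 0)/z‖ ≤ 1 + ‖q 0‖; on the closed ball of radius R by continuity), so constant by Liouville
(`Differentiable.apply_eq_apply_of_bounded`): q z = q 0 + k z for all z. If k ≠ 0 then q vanishes at
-q 0 / k: impossible. So q = q 0 ≠ 0 is constant and F z = z / q 0.
-/

open Set Filter Topology Metric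

namespace Pool.Agent.H.MP_e23cd6_ag.AB

theorem entire_affine {f g : ℂ → ℂ} (hf : Differentiable ℂ f) (hg : Differentiable ℂ g)
    (h1 : ∀ z, g (f z) = z) (h2 : ∀ z, f (g z) = z) :
    ∃ a c : ℂ, a ≠ 0 ∧ ∀ z, f z = a * z + c := by
  obtain ⟨F, hF⟩ : ∃ F : ℂ → ℂ, ∀ z, F z = f z - f 0 := ⟨fun z => f z - f 0, fun _ => rfl⟩
  obtain ⟨G, hG⟩ : ∃ G : ℂ → ℂ, ∀ z, G z = g (z + f 0) := ⟨fun z => g (z + f 0), fun _ => rfl⟩
  have hFd : Differentiable ℂ F := by
    have : F = fun z => f z - f 0 := funext hF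
    rw [this]
    exact hf.sub_const _
  have hGd : Differentiable ℂ G := by
    have : G = fun z => g (z + f 0) := funext hG
    rw [this]
    exact hg.comp (differentiable_id.add_const (f 0))
  have hF0 : F 0 = 0 := by rw [hF, sub_self]
  have hGF : ∀ z, G (F z) = z := by
    intro z
    rw [hG, hF, sub_add_cancel, h1]
  have hG0 : G 0 = 0 := by
    have := hGF 0
    rwa [hF0] at this
  have hdF : deriv F 0 ≠ 0 := by
    intro h0
    have e1 : HasDerivAt F 0 0 := by
      have := (hFd 0).hasDerivAt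
      rwa [h0] at this
    have e2 : HasDerivAt G (deriv G 0) (F 0) := by
      rw [hF0]
      exact (hGd 0).hasDerivAt
    have e3 := e2.comp (0 : ℂ) e1
    rw [mul_zero] at e3
    have e4 : G ∘ F = id := funext hGF
    rw [e4] at e3
    exact one_ne_zero ((hasDerivAt_id (0 : ℂ)).unique e3)
  have hFne : ∀ z, z ≠ 0 → F z ≠ 0 := by
    intro z hz h0
    have := hGF z
    rw [h0, hG0] at this
    exact hz this.symm
  have hds : ∀ φ : ℂ → ℂ, Differentiable ℂ φ → Differentiable ℂ (dslope φ 0) := by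
    intro φ hφ
    rw [← differentiableOn_univ, Complex.differentiableOn_dslope univ_mem, differentiableOn_univ]
    exact hφ
  have hds2 : ∀ (φ : ℂ → ℂ) (z : ℂ), z * dslope φ 0 z = φ z - φ 0 := by
    intro φ z
    have := sub_smul_dslope φ 0 z
    rwa [sub_zero, smul_eq_mul] at this
  have hD : Differentiable ℂ (dslope F 0) := hds F hFd
  have hDne : ∀ z, dslope F 0 z ≠ 0 := by
    intro z
    by_cases hz : z = 0
    · rw [hz, dslope_same]
      exact hdF
    · intro h0
      have := hds2 F z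
      rw [h0, mul_zero, hF0, sub_zero] at this
      exact hFne z hz this.symm
  obtain ⟨q, hq⟩ : ∃ q : ℂ → ℂ, ∀ z, q z = (dslope F 0 z)⁻¹ :=
    ⟨fun z => (dslope F 0 z)⁻¹, fun _ => rfl⟩
  have hqd : Differentiable ℂ q := by
    have : q = fun z => (dslope F 0 z)⁻¹ := funext hq
    rw [this]
    exact hD.fun_inv hDne
  have hqne : ∀ z, q z ≠ 0 := fun z => by
    rw [hq]
    exact inv_ne_zero (hDne z)
  have hqF : ∀ z, q z * F z = z := by
    intro z
    have := hds2 F z
    rw [hF0, sub_zero] at this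
    rw [hq, ← this, mul_comm z, inv_mul_cancel_left₀ (hDne z)]
  obtain ⟨R, hR⟩ := (isCompact_closedBall (0 : ℂ) 1).exists_bound_of_continuousOn
    hGd.continuous.continuousOn
  have hlarge : ∀ z, max R 1 < ‖z‖ → ‖q z‖ ≤ ‖z‖ := by
    intro z hz
    have e1 : 1 < ‖F z‖ := by
      by_contra hcon
      have := hR (F z) (by rw [mem_closedBall_zero_iff]; exact not_lt.1 hcon)
      rw [hGF] at this
      exact absurd (lt_of_le_of_lt (le_max_left R 1) hz) (not_lt.2 this)
    have e2 : ‖q z‖ * ‖F z‖ = ‖z‖ := by rw [← norm_mul, hqF]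
    nlinarith [norm_nonneg (q z)]
  obtain ⟨M, hM⟩ := (isCompact_closedBall (0 : ℂ) (max R 1)).exists_bound_of_continuousOn
    (hds q hqd).continuous.continuousOn
  have hbd : ∀ z, ‖dslope q 0 z‖ ≤ max M (1 + ‖q 0‖) := by
    intro z
    by_cases hz : ‖z‖ ≤ max R 1
    · exact (hM z (by rw [mem_closedBall_zero_iff]; exact hz)).trans (le_max_left _ _)
    · rw [not_le] at hz
      refine le_trans ?_ (le_max_right _ _)
      have e1 : 1 < ‖z‖ := lt_of_le_of_lt (le_max_right R 1) hz
      have e2 : ‖z‖ * ‖dslope q 0 z‖ ≤ ‖z‖ * (1 + ‖q 0‖) := by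
        rw [← norm_mul, hds2 q z]
        calc ‖q z - q 0‖ ≤ ‖q z‖ + ‖q 0‖ := norm_sub_le _ _
          _ ≤ ‖z‖ + ‖z‖ * ‖q 0‖ := by
            nlinarith [hlarge z hz, norm_nonneg (q 0)]
          _ = ‖z‖ * (1 + ‖q 0‖) := by ring
      exact le_of_mul_le_mul_left e2 (by linarith)
  have hcst : ∀ z, dslope q 0 z = dslope q 0 0 := fun z =>
    (hds q hqd).apply_eq_apply_of_bounded
      (isBounded_iff_forall_norm_le.2 ⟨_, by rintro _ ⟨z, rfl⟩; exact hbd z⟩) z 0
  have hq1 : ∀ z, q z = q 0 + z * dslope q 0 0 := by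
    intro z
    have := hds2 q z
    rw [hcst z] at this
    rw [this]
    ring
  have hk : dslope q 0 0 = 0 := by
    by_contra hk
    refine hqne (-q 0 / dslope q 0 0) ?_
    rw [hq1, div_mul_cancel₀ _ hk]
    ring
  refine ⟨(q 0)⁻¹, f 0, inv_ne_zero (hqne 0), fun z => ?_⟩
  have e1 := hqF z
  rw [hq1 z, hk, mul_zero, add_zero] at e1
  have e2 : F z = (q 0)⁻¹ * z := by
    rw [eq_inv_mul_iff_mul_eq₀ (hqne 0)]
    exact e1
  rw [hF] at e2
  rw [← e2]
  ring

end Pool.Agent.H.MP_e23cd6_ag.AB
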