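import Pool.Agent.H.MP_e23cd6_ag.AB.Defs
import Pool.Agent.H.MP_e23cd6_ag.AB.B1

/-!
ABUN B2: a properly discontinuous cocompact group of biholomorphic maps of (bounded domain) × ℂ
consists of maps (b, z) ↦ (β b, a b * z + c b).

Proof of `exists_affAct`. For b ∈ D, z ↦ (g γ (b, z)).1 is entire (composition of g γ with the affine map
z ↦ (b, z)) and bounded (D bounded), hence constant (Liouville, `Differentiable.apply_eq_apply_of_bounded`):
put β γ b = (g γ (b, 0)).1. For b ∈ D the maps z ↦ (g γ (b, z)).2 and z ↦ (g γ⁻¹ (β γ b, z)).2 are entire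
and mutually inverse (from g γ⁻¹ (g γ x) = g 1 x = x and the constancy of first components), so by
`entire_affine` (g γ (b,z)).2 = a γ b * z + c γ b with c γ b := (g γ (b,0)).2, a γ b := (g γ (b,1)).2 - c γ b ≠ 0.
β γ, a γ, c γ are holomorphic on D as compositions of g γ with the maps b ↦ (b,0), b ↦ (b,1).
The cocycle rules follow by comparing g (γδ) (b,z) = g γ (g δ (b,z)) for z = 0 and z = 1.
pd: for K ⊆ D compact and R, use the compact set K ×ˢ closedBall 0 R. cc: K = image of the given compact set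
under the first projection, R = bound for the second projection.

Proof of `det_formula`. The derivative of g γ at (b,z) maps (v, w) to
(fderiv (β γ) b v, (fderiv (a γ) b v) * z + (fderiv (c γ) b v) + a γ b * w): block triangular, the determinant is
det (fderiv (β γ) b) * a γ b (`ContinuousLinearMap.det`, `LinearMap.det`, for instance through
`LinearMap.toMatrix` with the product basis and `Matrix.det_fromBlocks_zero₁₂`).
-/

open Set Filter Topology Metric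

namespace Pool.Agent.H.MP_e23cd6_ag.AB

variable {n : ℕ} {Ω : Dom n} {Γ : Type} [Group Γ]

/-- determinant of a block triangular endomorphism of (n-space) × (line) -/
theorem det_prod_tri (L : (E n × ℂ) →ₗ[ℂ] (E n × ℂ)) (P : E n →ₗ[ℂ] E n) (α : ℂ)
    (h1 : ∀ v w, (L (v, w)).1 = P v) (h2 : ∀ w, (L (0, w)).2 = α * w) :
    LinearMap.det L = LinearMap.det P * α := by
  classical
  let b1 : Module.Basis (Fin n) ℂ (E n) := Pi.basisFun ℂ (Fin n)
  let b2 : Module.Basis (Fin 1) ℂ ℂ := Module.Basis.singleton (Fin 1) ℂ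
  rw [← LinearMap.det_toMatrix (b1.prod b2) L, ← LinearMap.det_toMatrix b1 P]
  have hM : LinearMap.toMatrix (b1.prod b2) (b1.prod b2) L =
      Matrix.fromBlocks (LinearMap.toMatrix b1 b1 P) 0
        (Matrix.of fun (_ : Fin 1) j => (L (b1 j, 0)).2) (Matrix.of fun _ _ => α) := by
    ext i j
    rcases i with i | i <;> rcases j with j | j
    · simp [LinearMap.toMatrix_apply, h1]
    · simp [LinearMap.toMatrix_apply, h1]
    · simp [LinearMap.toMatrix_apply, b2]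
    · simp [LinearMap.toMatrix_apply, b2, h2]
  rw [hM, Matrix.det_fromBlocks_zero₁₂]
  simp

theorem exists_affAct (Ω : Dom n) (g : Γ → E n × ℂ → E n × ℂ)
    (maps : ∀ γ, MapsTo (g γ) (Ω.D ×ˢ univ) (Ω.D ×ˢ univ))
    (holo : ∀ γ, DifferentiableOn ℂ (g γ) (Ω.D ×ˢ univ))
    (one : ∀ x ∈ Ω.D ×ˢ (univ : Set ℂ), g 1 x = x)
    (mul : ∀ γ δ, ∀ x ∈ Ω.D ×ˢ (univ : Set ℂ), g (γ * δ) x = g γ (g δ x))
    (pd : ∀ K ⊆ Ω.D ×ˢ (univ : Set ℂ), IsCompact K → {γ | (g γ '' K ∩ K).Nonempty}.Finite)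
    (cc : ∃ K ⊆ Ω.D ×ˢ (univ : Set ℂ), IsCompact K ∧
      ∀ x ∈ Ω.D ×ˢ (univ : Set ℂ), ∃ γ, g γ x ∈ K) :
    ∃ A : AffAct Ω Γ, ∀ γ, ∀ b ∈ Ω.D, ∀ z, g γ (b, z) = (A.β γ b, A.a γ b * z + A.c γ b) := by
  have hin : ∀ b ∈ Ω.D, ∀ z : ℂ, ((b, z) : E n × ℂ) ∈ Ω.D ×ˢ (univ : Set ℂ) := fun b hb z => ⟨hb, trivial⟩
  have hline : ∀ γ, ∀ b ∈ Ω.D, Differentiable ℂ (fun z : ℂ => g γ (b, z)) := by
    intro γ b hb z
    have h1 : DifferentiableAt ℂ (g γ) (b, z) :=
      (holo γ).differentiableAt ((Ω.isOpen.prod isOpen_univ).mem_nhds (hin b hb z))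
    exact h1.comp z ((differentiableAt_const b).prodMk differentiableAt_id)
  have hfst : ∀ γ, ∀ b ∈ Ω.D, ∀ z w : ℂ, (g γ (b, z)).1 = (g γ (b, w)).1 := by
    intro γ b hb z w
    have hd : Differentiable ℂ (fun z : ℂ => (g γ (b, z)).1) := fun z => (hline γ b hb z).fst
    refine hd.apply_eq_apply_of_bounded ?_ z w
    refine Ω.bdd.subset ?_
    rintro _ ⟨z, rfl⟩
    exact (maps γ (hin b hb z)).1
  -- the pieces
  set β : Γ → E n → E n := fun γ b => (g γ (b, 0)).1 with hβ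
  set c : Γ → E n → ℂ := fun γ b => (g γ (b, 0)).2 with hc
  set a : Γ → E n → ℂ := fun γ b => (g γ (b, 1)).2 - (g γ (b, 0)).2 with ha
  have hβD : ∀ γ, ∀ b ∈ Ω.D, β γ b ∈ Ω.D := fun γ b hb => (maps γ (hin b hb 0)).1
  have hβz : ∀ γ, ∀ b ∈ Ω.D, ∀ z, (g γ (b, z)).1 = β γ b := fun γ b hb z => hfst γ b hb z 0
  have hg1 : ∀ γ, ∀ b ∈ Ω.D, ∀ z, g γ (b, z) = (β γ b, (g γ (b, z)).2) := fun γ b hb z =>
    Prod.ext (hβz γ b hb z) rfl
  have hinv : ∀ γ, ∀ b ∈ Ω.D, ∀ z, g γ⁻¹ (g γ (b, z)) = (b, z) := by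
    intro γ b hb z
    rw [← mul _ _ _ (hin b hb z), inv_mul_cancel, one _ (hin b hb z)]
  have hβinv : ∀ γ, ∀ b ∈ Ω.D, β γ⁻¹ (β γ b) = b := by
    intro γ b hb
    have h := hinv γ b hb 0
    rw [hg1 γ b hb 0] at h
    have h' := congrArg Prod.fst h
    rw [hβz γ⁻¹ _ (hβD γ b hb)] at h'
    exact h'
  have hsnd : ∀ γ, ∀ b ∈ Ω.D, ∀ z, (g γ⁻¹ (β γ b, (g γ (b, z)).2)).2 = z := by
    intro γ b hb z
    rw [← hg1 γ b hb z, hinv γ b hb z]
  have haff : ∀ γ, ∀ b ∈ Ω.D, a γ b ≠ 0 ∧ ∀ z, (g γ (b, z)).2 = a γ b * z + c γ b := by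
    intro γ b hb
    obtain ⟨a', c', ha', h'⟩ := entire_affine (f := fun z => (g γ (b, z)).2)
      (g := fun z => (g γ⁻¹ (β γ b, z)).2)
      (fun z => (hline γ b hb z).snd) (fun z => (hline γ⁻¹ _ (hβD γ b hb) z).snd)
      (fun z => hsnd γ b hb z) (fun z => by
        have h := hsnd γ⁻¹ (β γ b) (hβD γ b hb) z
        rw [inv_inv, hβinv γ b hb] at h
        exact h)
    have e0 : (g γ (b, 0)).2 = c' := by simpa using h' 0
    have e1 : (g γ (b, 1)).2 = a' + c' := by simpa using h' 1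
    have ea : a γ b = a' := by simp only [ha, e0, e1]; ring
    have ec : c γ b = c' := e0
    rw [ea, ec]
    exact ⟨ha', h'⟩
  have hg : ∀ γ, ∀ b ∈ Ω.D, ∀ z, g γ (b, z) = (β γ b, a γ b * z + c γ b) := by
    intro γ b hb z
    rw [hg1 γ b hb z, (haff γ b hb).2 z]
  have hslice : ∀ γ, ∀ z : ℂ, DifferentiableOn ℂ (fun b : E n => g γ (b, z)) Ω.D := by
    intro γ z
    refine (holo γ).comp (f := fun b : E n => (b, z)) ?_ (fun b hb => hin b hb z)
    exact (differentiable_id.prodMk (differentiable_const z)).differentiableOn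
  have hmulβ : ∀ γ δ, ∀ b ∈ Ω.D, β (γ * δ) b = β γ (β δ b) := by
    intro γ δ b hb
    have h := mul γ δ _ (hin b hb 0)
    rw [hg _ b hb, hg δ b hb, hg γ _ (hβD δ b hb)] at h
    exact (Prod.mk.inj h).1
  have hmul2 : ∀ γ δ, ∀ b ∈ Ω.D, ∀ z, a (γ * δ) b * z + c (γ * δ) b =
      a γ (β δ b) * (a δ b * z + c δ b) + c γ (β δ b) := by
    intro γ δ b hb z
    have h := mul γ δ _ (hin b hb z)
    rw [hg _ b hb, hg δ b hb, hg γ _ (hβD δ b hb)] at h
    exact (Prod.mk.inj h).2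
  have hone2 : ∀ b ∈ Ω.D, ∀ z, a 1 b * z + c 1 b = z := by
    intro b hb z
    have h := one _ (hin b hb z)
    rw [hg _ b hb] at h
    exact (Prod.mk.inj h).2
  have hcmul : ∀ γ δ, ∀ b ∈ Ω.D, c (γ * δ) b = a γ (β δ b) * c δ b + c γ (β δ b) := by
    intro γ δ b hb
    have h := hmul2 γ δ b hb 0
    simpa using h
  refine ⟨{
    β := β
    maps := fun γ b hb => hβD γ b hb
    holo := fun γ => (hslice γ 0).fst
    one := ?_
    mul := hmulβ
    a := a
    c := c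
    a_holo := fun γ => ((hslice γ 1).snd).sub (hslice γ 0).snd
    c_holo := fun γ => (hslice γ 0).snd
    a_ne := fun γ b hb => (haff γ b hb).1
    a_one := ?_
    c_one := ?_
    a_mul := ?_
    c_mul := hcmul
    pd := ?_
    cc := ?_ }, hg⟩
  · intro b hb
    have h := one _ (hin b hb 0)
    rw [hg _ b hb] at h
    exact (Prod.mk.inj h).1
  · intro b hb
    have h0 := hone2 b hb 0
    have h1 := hone2 b hb 1
    have h2 : c 1 b = 0 := by simpa using h0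
    rw [h2] at h1
    simpa using h1
  · intro b hb
    simpa using hone2 b hb 0
  · intro γ δ b hb
    have h1 := hmul2 γ δ b hb 1
    rw [hcmul γ δ b hb] at h1
    linear_combination h1
  · intro K hK hKc R
    have hcpt : IsCompact (K ×ˢ closedBall (0 : ℂ) R) := hKc.prod (isCompact_closedBall _ _)
    refine (pd _ (prod_mono hK (subset_univ _)) hcpt).subset ?_
    rintro γ ⟨b, hb, z, hz, hb', hz'⟩
    refine ⟨g γ (b, z), ⟨(b, z), ⟨hb, by simpa using hz⟩, rfl⟩, ?_⟩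
    rw [hg γ b (hK hb) z]
    exact ⟨hb', by simpa using hz'⟩
  · obtain ⟨K, hK, hKc, hcov⟩ := cc
    obtain ⟨R, hR⟩ := (hKc.image continuous_snd).isBounded.exists_norm_le
    refine ⟨Prod.fst '' K, ?_, hKc.image continuous_fst, R, ?_⟩
    · rintro _ ⟨x, hx, rfl⟩
      exact (hK hx).1
    · intro b hb z
      obtain ⟨γ, hγ⟩ := hcov _ (hin b hb z)
      rw [hg γ b hb z] at hγ
      exact ⟨γ, ⟨_, hγ, rfl⟩, hR _ ⟨_, hγ, rfl⟩⟩

theorem det_formula (A : AffAct Ω Γ) (f : E n × ℂ → E n × ℂ) (γ : Γ)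
    (hf : ∀ b ∈ Ω.D, ∀ z, f (b, z) = (A.β γ b, A.a γ b * z + A.c γ b)) {b : E n}
    (hb : b ∈ Ω.D) (z : ℂ) :
    (fderiv ℂ f (b, z)).det = (fderiv ℂ (A.β γ) b).det * A.a γ b := by
  have hN : Ω.D ∈ 𝓝 b := Ω.isOpen.mem_nhds hb
  have dβ : HasFDerivAt (A.β γ) (fderiv ℂ (A.β γ) b) b :=
    ((A.holo γ).differentiableAt hN).hasFDerivAt
  have da : HasFDerivAt (A.a γ) (fderiv ℂ (A.a γ) b) b :=
    ((A.a_holo γ).differentiableAt hN).hasFDerivAt
  have dc : HasFDerivAt (A.c γ) (fderiv ℂ (A.c γ) b) b :=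
    ((A.c_holo γ).differentiableAt hN).hasFDerivAt
  have hfst : HasFDerivAt (fun x : E n × ℂ => x.1) (ContinuousLinearMap.fst ℂ (E n) ℂ) (b, z) :=
    hasFDerivAt_fst
  have hsnd : HasFDerivAt (fun x : E n × ℂ => x.2) (ContinuousLinearMap.snd ℂ (E n) ℂ) (b, z) :=
    hasFDerivAt_snd
  have dβ' : HasFDerivAt (fun x : E n × ℂ => A.β γ x.1)
      ((fderiv ℂ (A.β γ) b).comp (ContinuousLinearMap.fst ℂ (E n) ℂ)) (b, z) :=
    HasFDerivAt.comp (b, z) (g := A.β γ) (f := fun x : E n × ℂ => x.1) dβ hfst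
  have da' : HasFDerivAt (fun x : E n × ℂ => A.a γ x.1)
      ((fderiv ℂ (A.a γ) b).comp (ContinuousLinearMap.fst ℂ (E n) ℂ)) (b, z) :=
    HasFDerivAt.comp (b, z) (g := A.a γ) (f := fun x : E n × ℂ => x.1) da hfst
  have dc' : HasFDerivAt (fun x : E n × ℂ => A.c γ x.1)
      ((fderiv ℂ (A.c γ) b).comp (ContinuousLinearMap.fst ℂ (E n) ℂ)) (b, z) :=
    HasFDerivAt.comp (b, z) (g := A.c γ) (f := fun x : E n × ℂ => x.1) dc hfst
  have d2 := (da'.mul hsnd).add dc'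
  have d3 := dβ'.prodMk d2
  have hev : f =ᶠ[𝓝 (b, z)] fun x : E n × ℂ => (A.β γ x.1, A.a γ x.1 * x.2 + A.c γ x.1) := by
    have hN' : Ω.D ×ˢ (univ : Set ℂ) ∈ 𝓝 ((b, z) : E n × ℂ) :=
      (Ω.isOpen.prod isOpen_univ).mem_nhds ⟨hb, trivial⟩
    filter_upwards [hN'] with x hx
    exact hf x.1 hx.1 x.2
  have d4 := d3.congr_of_eventuallyEq hev
  rw [d4.fderiv]
  refine det_prod_tri _ _ _ ?_ ?_
  · intro v w
    rfl
  · intro w
    simp

end Pool.Agent.H.MP_e23cd6_ag.AB
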