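import Pool.Agent.H.MP_e23cd6_ag.AB.C1

/-!
ABUN D1: bounds for limit fields (D0), powers (D1) and realization of small limit fields (D2).

D0 `lim_bound`. Take C, e0 from `estE_fwd` for K. Let X be a limit field, |X| ≤ m on B (then m ≥ 0, B is
nonempty). For ε > 0 small (ε (m + ε) ≤ e0) apply IsLim to the compact set K ∪ B and ε: t < ε, γ. On B:
|β b - b| ≤ t|X b| + ε t ≤ t (m + ε) ≤ e0, so on K |β b - b| ≤ C t (m + ε) and
t|X b| ≤ |β b - b| + ε t ≤ C t (m + ε) + ε t. Divide by t and let ε → 0: |X b| ≤ C m.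

D1 `powers`. Let b ∈ K, x_j = β (γ^j) b. By induction on j ≤ m: x_j ∈ cthickening r K and |x_j - b| ≤ 2 j t ≤ r/4
(each step moves a point of cthickening r K by at most t + ε t ≤ 2 t). X is (4/r)-Lipschitz on ball b (r/2)
(`cauchy_lip`; ball b r is contained in cthickening r K, D open; X holomorphic on D ⊇ cthickening r K). Then
x_m - b - m t X b = Σ_{j<m} (x_{j+1} - x_j - t X x_j) + t Σ_{j<m} (X x_j - X b), of norm at most
m ε t + t Σ_j (4/r) 2 j t ≤ ε m t + (8/r) (m t)^2. So C = 8/r.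

D2 `realize`. Choose r > 0 with K1 = cthickening r K ⊆ D (compact). C0 ≥ 1 from D0 for K1 (|X| ≤ C0 s on K1).
σ = C0 s, X' = X/σ (|X'| ≤ 1 on K1), C1 from D1 (K, r), ρ = r/(8 C0). Given ε1 > 0 small (ε1 ≤ σ, ε1 < 1) apply
IsLim X to K1, ε1: t1 < ε1, γ1 with |β b - b - t1 X b| ≤ ε1 t1 on K1 and the same for γ1⁻¹ with + sign. Put
t = t1 σ, ε = ε1/σ ≤ 1: |β b - b - t X' b| ≤ ε t. m = ⌊1/t1⌋: m t1 ≤ 1, 1 - m t1 ≤ t1, 2 m t ≤ 2σ ≤ r/4. D1:
|β (γ1^m) b - b - m t X' b| ≤ C1 (m t)^2 + ε m t ≤ C1 σ² + ε1, m t X' = m t1 X, |m t1 X b - X b| ≤ t1 |X b| ≤ ε1 σ.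
Total ≤ C1 C0² s² + ε1 (1 + σ) ≤ (C1 C0² + 1) s² if ε1 is small. For the inverse use γ1⁻¹ and -X (γ1^m inverse is
(γ1⁻¹)^m).
-/

open Set Filter Topology Metric

namespace Pool.Agent.H.MP_e23cd6_ag.AB

variable {n : ℕ} {Ω : Dom n} {Γ : Type} [Group Γ]

/-- D0 -/
theorem lim_bound (A : BaseAct Ω Γ) {K : Set (E n)} (hK : K ⊆ Ω.D) (hKc : IsCompact K) :
    ∃ C : ℝ, 0 < C ∧ ∀ X : E n → E n, IsLim A X → ∀ m : ℝ, (∀ b ∈ Ω.B, ‖X b‖ ≤ m) →
      ∀ b ∈ K, ‖X b‖ ≤ C * m := by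
  obtain ⟨C, e0, hC, he0, hE⟩ := estE_fwd A hK hKc
  refine ⟨C, hC, fun X hX m hm b hb => ?_⟩
  have hm0 : 0 ≤ m := (norm_nonneg _).trans (hm Ω.b0 Ω.b0_mem_B)
  refine le_of_forall_pos_le_add fun δ hδ => ?_
  obtain ⟨ε, hε, hε1, hε2, hε3⟩ : ∃ ε : ℝ, 0 < ε ∧ ε ≤ 1 ∧ ε * (m + 1) ≤ e0 ∧
      (C + 1) * ε ≤ δ := by
    refine ⟨min 1 (min (e0 / (m + 1)) (δ / (C + 1))), by positivity, min_le_left _ _, ?_, ?_⟩
    · have h1 : min 1 (min (e0 / (m + 1)) (δ / (C + 1))) ≤ e0 / (m + 1) :=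
        (min_le_right _ _).trans (min_le_left _ _)
      rwa [le_div_iff₀ (by positivity)] at h1
    · have h1 : min 1 (min (e0 / (m + 1)) (δ / (C + 1))) ≤ δ / (C + 1) :=
        (min_le_right _ _).trans (min_le_right _ _)
      rw [le_div_iff₀ (by positivity)] at h1
      linarith
  obtain ⟨t, ht, htε, γ, hγ⟩ := hX.2.2 (K ∪ Ω.B) (union_subset hK Ω.B_sub)
    (hKc.union Ω.B_compact) ε hε
  have hB : ∀ b ∈ Ω.B, ‖A.β γ b - b‖ ≤ t * (m + ε) := by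
    intro y hy
    have h1 := (hγ y (Or.inr hy)).1
    have h2 : A.β γ y - y = (A.β γ y - y - (t : ℂ) • X y) + (t : ℂ) • X y := by abel
    have h3 : ‖(t : ℂ) • X y‖ ≤ t * m := by
      rw [norm_smul, Complex.norm_real, Real.norm_of_nonneg ht.le]
      exact mul_le_mul_of_nonneg_left (hm y hy) ht.le
    rw [h2]
    refine (norm_add_le _ _).trans ?_
    nlinarith
  have hs : t * (m + ε) ≤ e0 := by
    refine le_trans ?_ hε2
    exact mul_le_mul htε.le (by linarith) (by positivity) hε.le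
  have h4 := hE γ (t * (m + ε)) (by positivity) hs hB b hb
  have h5 := (hγ b (Or.inl hb)).1
  have h6 : (t : ℂ) • X b = (A.β γ b - b) - (A.β γ b - b - (t : ℂ) • X b) := by abel
  have h7 : t * ‖X b‖ ≤ C * (t * (m + ε)) + ε * t := by
    have h8 : t * ‖X b‖ = ‖(t : ℂ) • X b‖ := by
      rw [norm_smul, Complex.norm_real, Real.norm_of_nonneg ht.le]
    rw [h8, h6]
    exact (norm_sub_le _ _).trans (add_le_add h4 h5)
  have h8 : ‖X b‖ ≤ C * (m + ε) + ε := by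
    have h9 : t * ‖X b‖ ≤ t * (C * (m + ε) + ε) := by linarith
    exact le_of_mul_le_mul_left h9 ht
  linarith

/-- D1 -/
theorem powers (A : BaseAct Ω Γ) {K : Set (E n)} {r : ℝ} (hr : 0 < r)
    (hKr : cthickening r K ⊆ Ω.D) :
    ∃ C : ℝ, 0 < C ∧ ∀ X : E n → E n, DifferentiableOn ℂ X Ω.D →
      (∀ b ∈ cthickening r K, ‖X b‖ ≤ 1) → ∀ (γ : Γ) (t ε : ℝ), 0 ≤ t → 0 ≤ ε → ε ≤ 1 →
      (∀ b ∈ cthickening r K, ‖A.β γ b - b - (t : ℂ) • X b‖ ≤ ε * t) →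
      ∀ m : ℕ, 2 * m * t ≤ r / 4 → ∀ b ∈ K,
        ‖A.β (γ ^ m) b - b - ((m * t : ℝ) : ℂ) • X b‖ ≤ C * (m * t) ^ 2 + ε * (m * t) := by
  refine ⟨8 / r, by positivity, fun X hX hX1 γ t ε ht hε hε1 hγ m hm b hb => ?_⟩
  have hbD : b ∈ Ω.D := hKr (self_subset_cthickening _ hb)
  have hball : ball b r ⊆ cthickening r K := fun y hy =>
    mem_cthickening_of_dist_le y b r _ hb (mem_ball.1 hy).le
  have hlip : ∀ y ∈ ball b (r / 2), ‖X y - X b‖ ≤ 4 / r * ‖y - b‖ := by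
    intro y hy
    have h1 := cauchy_lip hr (hX.mono (hball.trans hKr)) (fun y hy => hX1 y (hball hy)) hy
      (mem_ball_self (half_pos hr))
    rwa [mul_one] at h1
  have key : ∀ j : ℕ, j ≤ m → ‖A.β (γ ^ j) b - b‖ ≤ 2 * j * t ∧
      ‖A.β (γ ^ j) b - b - ((j * t : ℝ) : ℂ) • X b‖ ≤ 8 / r * (j * t) ^ 2 + ε * (j * t) := by
    intro j
    induction j with
    | zero =>
      intro _
      rw [pow_zero, A.one b hbD, sub_self]
      simp
    | succ j ih =>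
      intro hj
      obtain ⟨h1, h2⟩ := ih (by omega)
      have hjm : (j : ℝ) ≤ m := by exact_mod_cast (by omega : j ≤ m)
      have h3 : ‖A.β (γ ^ j) b - b‖ ≤ r / 4 := by
        refine h1.trans (le_trans ?_ hm)
        exact mul_le_mul_of_nonneg_right (by linarith) ht
      have hxK : A.β (γ ^ j) b ∈ cthickening r K := by
        refine mem_cthickening_of_dist_le _ b r _ hb ?_
        rw [dist_eq_norm]
        linarith
      have hxb : A.β (γ ^ j) b ∈ ball b (r / 2) := by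
        rw [mem_ball, dist_eq_norm]
        linarith
      have h4 := hγ _ hxK
      have h5 := hX1 _ hxK
      have h6 := hlip _ hxb
      have h7 : A.β (γ ^ (j + 1)) b = A.β γ (A.β (γ ^ j) b) := by
        rw [pow_succ', A.mul _ _ _ hbD]
      have h8 : ‖(t : ℂ) • X (A.β (γ ^ j) b)‖ ≤ t := by
        rw [norm_smul, Complex.norm_real, Real.norm_of_nonneg ht]
        nlinarith
      have h9 : ‖(t : ℂ) • (X (A.β (γ ^ j) b) - X b)‖ ≤ t * (4 / r * (2 * j * t)) := by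
        rw [norm_smul, Complex.norm_real, Real.norm_of_nonneg ht]
        apply mul_le_mul_of_nonneg_left _ ht
        refine h6.trans ?_
        exact mul_le_mul_of_nonneg_left h1 (by positivity)
      rw [h7]
      constructor
      · have e1 : A.β γ (A.β (γ ^ j) b) - b = (A.β γ (A.β (γ ^ j) b) - A.β (γ ^ j) b -
            (t : ℂ) • X (A.β (γ ^ j) b)) + (t : ℂ) • X (A.β (γ ^ j) b) +
            (A.β (γ ^ j) b - b) := by abel
        rw [e1]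
        refine (norm_add₃_le).trans ?_
        push_cast
        nlinarith
      · have e1 : A.β γ (A.β (γ ^ j) b) - b - (((j + 1 : ℕ) * t : ℝ) : ℂ) • X b =
            (A.β γ (A.β (γ ^ j) b) - A.β (γ ^ j) b - (t : ℂ) • X (A.β (γ ^ j) b)) +
            (t : ℂ) • (X (A.β (γ ^ j) b) - X b) +
            (A.β (γ ^ j) b - b - ((j * t : ℝ) : ℂ) • X b) := by
          push_cast
          rw [add_mul, add_smul, one_mul, smul_sub]
          abel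
        rw [e1]
        refine (norm_add₃_le).trans ?_
        have h10 : 8 / r * (((j + 1 : ℕ) : ℝ) * t) ^ 2 + ε * (((j + 1 : ℕ) : ℝ) * t) =
            ε * t + t * (4 / r * (2 * j * t)) + (8 / r * (j * t) ^ 2 + ε * (j * t)) +
              8 / r * ((j + 1) * t ^ 2) := by
          rw [Nat.cast_succ]
          ring
        rw [h10]
        have h11 : (0 : ℝ) ≤ 8 / r * ((j + 1) * t ^ 2) := by positivity
        linarith
  exact (key m le_rfl).2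

/-- the common part of the two estimates in `realize` -/
theorem D1_aux (A : BaseAct Ω Γ) {K : Set (E n)} {r C1 : ℝ}
    (hp : ∀ X : E n → E n, DifferentiableOn ℂ X Ω.D →
      (∀ b ∈ cthickening r K, ‖X b‖ ≤ 1) → ∀ (γ : Γ) (t ε : ℝ), 0 ≤ t → 0 ≤ ε → ε ≤ 1 →
      (∀ b ∈ cthickening r K, ‖A.β γ b - b - (t : ℂ) • X b‖ ≤ ε * t) →
      ∀ m : ℕ, 2 * m * t ≤ r / 4 → ∀ b ∈ K,
        ‖A.β (γ ^ m) b - b - ((m * t : ℝ) : ℂ) • X b‖ ≤ C1 * (m * t) ^ 2 + ε * (m * t))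
    (hC1 : 0 < C1) {X : E n → E n} (hX : DifferentiableOn ℂ X Ω.D) {σ : ℝ} (hσ : 0 < σ)
    (hσr : 2 * σ ≤ r / 4) (hXσ : ∀ b ∈ cthickening r K, ‖X b‖ ≤ σ) {t1 ε1 : ℝ} (ht1 : 0 < t1)
    (ht1ε : t1 < ε1) (hεσ : ε1 ≤ σ) {γ : Γ}
    (hγ : ∀ b ∈ cthickening r K, ‖A.β γ b - b - (t1 : ℂ) • X b‖ ≤ ε1 * t1) :
    ∀ b ∈ K, ‖A.β (γ ^ ⌊1 / t1⌋₊) b - b - X b‖ ≤ C1 * σ ^ 2 + ε1 * (1 + σ) := by
  intro b hb
  have hε1 : 0 < ε1 := ht1.trans ht1ε
  have hσ0 : (σ : ℂ) ≠ 0 := by exact_mod_cast hσ.ne'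
  have hm1 : (⌊1 / t1⌋₊ : ℝ) * t1 ≤ 1 := by
    have h1 := Nat.floor_le (show (0 : ℝ) ≤ 1 / t1 by positivity)
    rwa [le_div_iff₀ ht1] at h1
  have hm2 : 1 - (⌊1 / t1⌋₊ : ℝ) * t1 ≤ t1 := by
    have h1 := Nat.lt_floor_add_one (1 / t1)
    rw [div_lt_iff₀ ht1] at h1
    linarith
  set m : ℕ := ⌊1 / t1⌋₊ with hm
  have hmt : (m : ℝ) * (t1 * σ) ≤ σ := by
    have h1 : (m : ℝ) * (t1 * σ) = (m * t1) * σ := by ring
    rw [h1]
    nlinarith
  have h1 := hp (fun y => (σ : ℂ)⁻¹ • X y)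
    (show DifferentiableOn ℂ ((σ : ℂ)⁻¹ • X) Ω.D from hX.const_smul _)
    (fun y hy => by
      rw [norm_smul, norm_inv, Complex.norm_real, Real.norm_of_nonneg hσ.le,
        inv_mul_le_iff₀ hσ, mul_one]
      exact hXσ y hy) γ (t1 * σ) (ε1 / σ) (by positivity) (by positivity)
    (by rw [div_le_one hσ]; exact hεσ)
    (fun y hy => by
      have h2 : ((t1 * σ : ℝ) : ℂ) • ((σ : ℂ)⁻¹ • X y) = (t1 : ℂ) • X y := by
        rw [smul_smul]
        congr 1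
        push_cast
        rw [mul_assoc, mul_inv_cancel₀ hσ0, mul_one]
      have h3 : ε1 / σ * (t1 * σ) = ε1 * t1 := by field_simp
      rw [h2, h3]
      exact hγ y hy) m (by nlinarith) b hb
  have h2 : ((m * (t1 * σ) : ℝ) : ℂ) • ((σ : ℂ)⁻¹ • X b) = ((m * t1 : ℝ) : ℂ) • X b := by
    rw [smul_smul]
    congr 1
    push_cast
    rw [mul_assoc, mul_assoc (t1 : ℂ), mul_inv_cancel₀ hσ0, mul_one]
  rw [h2] at h1
  have h3 : A.β (γ ^ m) b - b - X b = (A.β (γ ^ m) b - b - ((m * t1 : ℝ) : ℂ) • X b) -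
      ((1 - m * t1 : ℝ) : ℂ) • X b := by
    push_cast
    rw [sub_smul, one_smul]
    abel
  have h4 : ‖((1 - m * t1 : ℝ) : ℂ) • X b‖ ≤ ε1 * σ := by
    rw [norm_smul, Complex.norm_real, Real.norm_of_nonneg (by linarith)]
    exact mul_le_mul (by linarith) (hXσ b (self_subset_cthickening _ hb)) (norm_nonneg _) hε1.le
  have h5 : C1 * (m * (t1 * σ)) ^ 2 ≤ C1 * σ ^ 2 := by
    apply mul_le_mul_of_nonneg_left _ hC1.le
    exact pow_le_pow_left₀ (by positivity) hmt 2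
  have h6 : ε1 / σ * (m * (t1 * σ)) ≤ ε1 := by
    have h7 : ε1 / σ * (m * (t1 * σ)) = ε1 * (m * t1) := by field_simp
    rw [h7]
    nlinarith
  rw [h3]
  refine (norm_sub_le _ _).trans ?_
  linarith

/-- D2 -/
theorem realize (A : BaseAct Ω Γ) {K : Set (E n)} (hK : K ⊆ Ω.D) (hKc : IsCompact K) :
    ∃ C ρ : ℝ, 0 < C ∧ 0 < ρ ∧ ∀ X : E n → E n, IsLim A X → ∀ s : ℝ, 0 < s → s ≤ ρ →
      (∀ b ∈ Ω.B, ‖X b‖ ≤ s) → ∃ γ : Γ, ∀ b ∈ K,
        ‖A.β γ b - b - X b‖ ≤ C * s ^ 2 ∧ ‖A.β γ⁻¹ b - b + X b‖ ≤ C * s ^ 2 := by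
  obtain ⟨r, hr, hrD⟩ := hKc.exists_cthickening_subset_open Ω.isOpen hK
  obtain ⟨C0, hC0, hb0⟩ := lim_bound A hrD (hKc.cthickening (r := r))
  obtain ⟨C1, hC1, hp⟩ := powers A hr hrD
  refine ⟨C1 * C0 ^ 2 + 1, r / (8 * C0), by positivity, by positivity,
    fun X hX s hs hsρ hB => ?_⟩
  have hXσ : ∀ b ∈ cthickening r K, ‖X b‖ ≤ C0 * s := hb0 X hX s hB
  have hσ : 0 < C0 * s := by positivity
  have hσr : 2 * (C0 * s) ≤ r / 4 := by
    rw [le_div_iff₀ (by positivity)] at hsρ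
    linarith
  obtain ⟨ε1, hε1, hεσ, hεs⟩ : ∃ ε1 : ℝ, 0 < ε1 ∧ ε1 ≤ C0 * s ∧
      ε1 * (1 + C0 * s) ≤ s ^ 2 := by
    refine ⟨min (C0 * s) (s ^ 2 / (1 + C0 * s)), by positivity, min_le_left _ _, ?_⟩
    have h1 : min (C0 * s) (s ^ 2 / (1 + C0 * s)) ≤ s ^ 2 / (1 + C0 * s) := min_le_right _ _
    rwa [le_div_iff₀ (by positivity)] at h1
  obtain ⟨t1, ht1, ht1ε, γ, hγ⟩ := hX.2.2 _ hrD (hKc.cthickening (r := r)) ε1 hε1
  refine ⟨γ ^ ⌊1 / t1⌋₊, fun b hb => ⟨?_, ?_⟩⟩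
  · have h1 := D1_aux A hp hC1 hX.1 hσ hσr hXσ ht1 ht1ε hεσ (fun y hy => (hγ y hy).1) b hb
    refine h1.trans ?_
    have h2 : C1 * (C0 * s) ^ 2 = C1 * C0 ^ 2 * s ^ 2 := by ring
    rw [h2]
    linarith
  · have h1 := D1_aux A hp hC1 (X := fun y => -X y) hX.1.neg hσ hσr
      (fun y hy => by rw [norm_neg]; exact hXσ y hy) ht1 ht1ε hεσ (γ := γ⁻¹)
      (fun y hy => by
        rw [smul_neg, sub_neg_eq_add]
        exact (hγ y hy).2) b hb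
    rw [sub_neg_eq_add] at h1
    rw [← inv_pow]
    refine h1.trans ?_
    have h2 : C1 * (C0 * s) ^ 2 = C1 * C0 ^ 2 * s ^ 2 := by ring
    rw [h2]
    linarith

end Pool.Agent.H.MP_e23cd6_ag.AB
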