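import Pool.Agent.H.MP_e23cd6_ag.AB.A2
import Pool.Agent.H.MP_e23cd6_ag.AB.D1

/-!
ABUN D2: the limit fields form a real vector space, closed under locally uniform limits (D3).

`lim_zero`: γ = 1, t = ε/2.
`lim_smul` (c > 0; c = 0 is lim_zero, c < 0 via lim_neg): given K, ε apply IsLim X to K and ε1 = min (ε/c) ε small with
ε1 ≤ ε / c and ε1 c' ... precisely: t1 < ε1, γ; put t = t1/c, then t (c X) = t1 X, need t1/c < ε and
ε1 t1 ≤ ε t1/c: take ε1 = min (ε c) (ε / c).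
`lim_neg`: use γ⁻¹ (inverse of γ⁻¹ is γ).
`lim_add`: given K, ε choose r > 0 with K1 = cthickening r K ⊆ D, constants C2, ρ of `realize` for K1, m ≥ 1 a bound
for X, Y on B (compact). For τ > 0 small apply `realize` to τX (IsLim by lim_smul) and τY with s = τ m:
γ, δ. For b ∈ K, b' = β δ b: |b' - b| ≤ τ|Y b| + C2 s² ≤ C τ (so b' ∈ K1 for τ small) and
β (γδ) b - b - τ(X+Y) b = [β γ b' - b' - τ X b'] + [β δ b - b - τ Y b] + τ [X b' - X b], of norm ≤ 2 C2 s² + τ C' |b' - b|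
≤ C'' τ² (X Lipschitz near K at small distance by `cauchy_lip`; X, Y are bounded on the compact K1). Choose
τ < ε with C'' τ ≤ ε. Inverse: (γδ)⁻¹ = δ⁻¹ γ⁻¹, b' = β γ⁻¹ b,
β δ⁻¹ b' - b + τ (X+Y) b = [β δ⁻¹ b' - b' + τ Y b'] + [β γ⁻¹ b - b + τ X b] + τ [Y b - Y b'].
`lim_closed`: X_j → X locally uniformly on D: X holomorphic (`lim_holo`). Given K, ε choose j with
|X_j - X| ≤ ε/2 on K and apply IsLim X_j to K, ε/2.
-/

open Set Filter Topology Metric

namespace Pool.Agent.H.MP_e23cd6_ag.AB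

variable {n : ℕ} {Ω : Dom n} {Γ : Type} [Group Γ]

theorem lim_zero (A : BaseAct Ω Γ) : IsLim A (0 : E n → E n) := by
  refine ⟨differentiableOn_const _, fun _ _ => rfl, fun K hK _ ε hε => ?_⟩
  refine ⟨ε / 2, by positivity, by linarith, 1, fun b hb => ?_⟩
  have h1 : A.β 1 b = b := A.one b (hK hb)
  have h2 : (0 : ℝ) ≤ ε * (ε / 2) := by positivity
  constructor
  · rw [h1, Pi.zero_apply, smul_zero, sub_self, sub_zero, norm_zero]
    exact h2
  · rw [inv_one, h1, Pi.zero_apply, smul_zero, sub_self, add_zero, norm_zero]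
    exact h2

theorem lim_neg {A : BaseAct Ω Γ} {X : E n → E n} (hX : IsLim A X) : IsLim A (-X) := by
  refine ⟨hX.1.neg, fun b hb => by rw [Pi.neg_apply, hX.2.1 b hb, neg_zero],
    fun K hK hKc ε hε => ?_⟩
  obtain ⟨t, ht, htε, γ, hγ⟩ := hX.2.2 K hK hKc ε hε
  refine ⟨t, ht, htε, γ⁻¹, fun b hb => ?_⟩
  obtain ⟨h1, h2⟩ := hγ b hb
  constructor
  · rw [Pi.neg_apply, smul_neg, sub_neg_eq_add]
    exact h2
  · rw [inv_inv, Pi.neg_apply, smul_neg, ← sub_eq_add_neg]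
    exact h1

theorem lim_smul_pos {A : BaseAct Ω Γ} {X : E n → E n} (hX : IsLim A X) {c : ℝ} (hc : 0 < c) :
    IsLim A (c • X) := by
  refine ⟨hX.1.const_smul c, fun b hb => by rw [Pi.smul_apply, hX.2.1 b hb, smul_zero],
    fun K hK hKc ε hε => ?_⟩
  obtain ⟨t, ht, htε, γ, hγ⟩ := hX.2.2 K hK hKc (min (ε * c) (ε / c))
    (lt_min (by positivity) (by positivity))
  have h0 : ((t / c : ℝ) : ℂ) * (c : ℂ) = (t : ℂ) := by
    rw [← Complex.ofReal_mul, div_mul_cancel₀ _ hc.ne']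
  have h1 : ∀ b, ((t / c : ℝ) : ℂ) • (c • X) b = (t : ℂ) • X b := by
    intro b
    rw [Pi.smul_apply, ← Complex.coe_smul, smul_smul, h0]
  have h2 : min (ε * c) (ε / c) * t ≤ ε * (t / c) := by
    calc min (ε * c) (ε / c) * t ≤ ε / c * t :=
          mul_le_mul_of_nonneg_right (min_le_right _ _) ht.le
      _ = ε * (t / c) := by ring
  refine ⟨t / c, by positivity, ?_, γ, fun b hb => ?_⟩
  · rw [div_lt_iff₀ hc]
    exact htε.trans_le (min_le_left _ _)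
  · obtain ⟨h3, h4⟩ := hγ b hb
    rw [h1]
    exact ⟨h3.trans h2, h4.trans h2⟩

theorem lim_smul {A : BaseAct Ω Γ} {X : E n → E n} (hX : IsLim A X) (c : ℝ) :
    IsLim A (c • X) := by
  rcases lt_trichotomy c 0 with hc | hc | hc
  · have h1 := lim_neg (lim_smul_pos hX (neg_pos.2 hc))
    rwa [neg_smul, neg_neg] at h1
  · rw [hc, zero_smul]
    exact lim_zero A
  · exact lim_smul_pos hX hc

/-- composition of two maps close to `b + τ U b` and `b + τ V b` -/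
theorem D2_comp {K D : Set (E n)} {r M e τ : ℝ} (hr : 0 < r) (hKr : cthickening r K ⊆ D)
    {U V : E n → E n} (hU : DifferentiableOn ℂ U D) (hUM : ∀ b ∈ cthickening r K, ‖U b‖ ≤ M)
    (hVM : ∀ b ∈ cthickening r K, ‖V b‖ ≤ M) (hτ : 0 ≤ τ) (he : e + τ * M < r / 2)
    {g h : E n → E n} (hg : ∀ b ∈ cthickening r K, ‖g b - b - (τ : ℂ) • U b‖ ≤ e)
    (hh : ∀ b ∈ cthickening r K, ‖h b - b - (τ : ℂ) • V b‖ ≤ e) {b : E n} (hb : b ∈ K) :
    ‖g (h b) - b - (τ : ℂ) • (U b + V b)‖ ≤ 2 * e + τ * (4 * M / r * (e + τ * M)) := by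
  have hbK : b ∈ cthickening r K := self_subset_cthickening K hb
  have hball : ball b r ⊆ cthickening r K :=
    ball_subset_closedBall.trans (closedBall_subset_cthickening hb r)
  have hτn : ‖(τ : ℂ)‖ = τ := by rw [Complex.norm_real, Real.norm_of_nonneg hτ]
  have h1 : ‖h b - b‖ ≤ e + τ * M := by
    calc ‖h b - b‖ = ‖(h b - b - (τ : ℂ) • V b) + (τ : ℂ) • V b‖ := by rw [sub_add_cancel]
      _ ≤ ‖h b - b - (τ : ℂ) • V b‖ + ‖(τ : ℂ) • V b‖ := norm_add_le _ _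
      _ ≤ e + τ * M := by
        rw [norm_smul, hτn]
        exact add_le_add (hh b hbK) (mul_le_mul_of_nonneg_left (hVM b hbK) hτ)
  have h2 : h b ∈ ball b (r / 2) := by
    rw [mem_ball, dist_eq_norm]
    exact h1.trans_lt he
  have h3 : h b ∈ cthickening r K := hball (ball_subset_ball (by linarith) h2)
  have hM : 0 ≤ M := (norm_nonneg _).trans (hUM b hbK)
  have h4 : ‖U (h b) - U b‖ ≤ 4 * M / r * (e + τ * M) := by
    refine (cauchy_lip hr (hU.mono (hball.trans hKr)) (fun y hy => hUM y (hball hy)) h2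
      (mem_ball_self (by positivity))).trans ?_
    exact mul_le_mul_of_nonneg_left h1 (by positivity)
  have h5 : g (h b) - b - (τ : ℂ) • (U b + V b) = (g (h b) - h b - (τ : ℂ) • U (h b)) +
      (h b - b - (τ : ℂ) • V b) + (τ : ℂ) • (U (h b) - U b) := by
    rw [smul_add, smul_sub]
    abel
  rw [h5]
  refine (norm_add_le _ _).trans ?_
  refine add_le_add ((norm_add_le _ _).trans ?_) ?_
  · have h6 := hg _ h3
    have h7 := hh _ hbK
    linarith
  · rw [norm_smul, hτn]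
    exact mul_le_mul_of_nonneg_left h4 hτ

theorem lim_add {A : BaseAct Ω Γ} {X Y : E n → E n} (hX : IsLim A X) (hY : IsLim A Y) :
    IsLim A (X + Y) := by
  refine ⟨hX.1.add hY.1, fun b hb => by rw [Pi.add_apply, hX.2.1 b hb, hY.2.1 b hb, add_zero],
    fun K hK hKc ε hε => ?_⟩
  obtain ⟨r, hr, hKr⟩ := hKc.exists_cthickening_subset_open Ω.isOpen hK
  have hK1c : IsCompact (cthickening r K) := hKc.cthickening
  obtain ⟨C, ρ, hC, hρ, hreal⟩ := realize A hKr hK1c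
  obtain ⟨m1, hm1⟩ := Ω.B_compact.exists_bound_of_continuousOn
    (hX.1.continuousOn.mono Ω.B_sub)
  obtain ⟨m2, hm2⟩ := Ω.B_compact.exists_bound_of_continuousOn
    (hY.1.continuousOn.mono Ω.B_sub)
  obtain ⟨M1, hM1⟩ := hK1c.exists_bound_of_continuousOn (hX.1.continuousOn.mono hKr)
  obtain ⟨M2, hM2⟩ := hK1c.exists_bound_of_continuousOn (hY.1.continuousOn.mono hKr)
  obtain ⟨m, hm0, hmX, hmY⟩ : ∃ m : ℝ, 0 < m ∧ (∀ b ∈ Ω.B, ‖X b‖ ≤ m) ∧
      ∀ b ∈ Ω.B, ‖Y b‖ ≤ m := by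
    refine ⟨max 1 (max m1 m2), by positivity, fun b hb => (hm1 b hb).trans ?_,
      fun b hb => (hm2 b hb).trans ?_⟩
    · exact (le_max_left _ _).trans (le_max_right _ _)
    · exact (le_max_right _ _).trans (le_max_right _ _)
  obtain ⟨M, hM0, hMX, hMY⟩ : ∃ M : ℝ, 0 < M ∧ (∀ b ∈ cthickening r K, ‖X b‖ ≤ M) ∧
      ∀ b ∈ cthickening r K, ‖Y b‖ ≤ M := by
    refine ⟨max 1 (max M1 M2), by positivity, fun b hb => (hM1 b hb).trans ?_,
      fun b hb => (hM2 b hb).trans ?_⟩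
    · exact (le_max_left _ _).trans (le_max_right _ _)
    · exact (le_max_right _ _).trans (le_max_right _ _)
  set P : ℝ := M + C * m ^ 2 with hP
  have hP0 : 0 < P := by positivity
  set Q : ℝ := 2 * (C * m ^ 2) + 4 * M / r * P with hQ
  have hQ0 : 0 < Q := by positivity
  obtain ⟨τ, hτ0, hτ1, hτρ, hτε, hτP, hτQ⟩ : ∃ τ : ℝ, 0 < τ ∧ τ ≤ 1 ∧ τ * m ≤ ρ ∧ τ < ε ∧
      τ * P < r / 2 ∧ τ * Q ≤ ε := by
    refine ⟨min 1 (min (ρ / m) (min (ε / 2) (min (r / 4 / P) (ε / Q)))), by positivity,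
      min_le_left _ _, ?_, ?_, ?_, ?_⟩
    · rw [← le_div_iff₀ hm0]
      exact (min_le_right _ _).trans (min_le_left _ _)
    · refine ((min_le_right _ _).trans ((min_le_right _ _).trans (min_le_left _ _))).trans_lt ?_
      linarith
    · rw [← lt_div_iff₀ hP0]
      refine ((min_le_right _ _).trans ((min_le_right _ _).trans ((min_le_right _ _).trans
        (min_le_left _ _)))).trans_lt ?_
      exact div_lt_div_of_pos_right (by linarith) hP0
    · rw [← le_div_iff₀ hQ0]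
      exact (min_le_right _ _).trans ((min_le_right _ _).trans ((min_le_right _ _).trans
        (min_le_right _ _)))
  have hs0 : 0 < τ * m := by positivity
  have hsm : ∀ Z : E n → E n, (∀ b ∈ Ω.B, ‖Z b‖ ≤ m) → ∀ b ∈ Ω.B, ‖(τ • Z) b‖ ≤ τ * m := by
    intro Z hZ b hb
    rw [Pi.smul_apply, norm_smul, Real.norm_of_nonneg hτ0.le]
    exact mul_le_mul_of_nonneg_left (hZ b hb) hτ0.le
  obtain ⟨γ, hγ⟩ := hreal _ (lim_smul hX τ) _ hs0 hτρ (hsm X hmX)
  obtain ⟨δ, hδ⟩ := hreal _ (lim_smul hY τ) _ hs0 hτρ (hsm Y hmY)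
  have hcs : ∀ (Z : E n → E n) (b : E n), (τ • Z) b = (τ : ℂ) • Z b := by
    intro Z b
    rw [Pi.smul_apply, Complex.coe_smul]
  simp only [hcs] at hγ hδ
  have he1 : C * (τ * m) ^ 2 ≤ τ * (τ * (C * m ^ 2)) := le_of_eq (by ring)
  have hCm : 0 ≤ C * m ^ 2 := by positivity
  have he2 : τ * (τ * (C * m ^ 2)) ≤ τ * (C * m ^ 2) := by
    refine mul_le_mul_of_nonneg_left ?_ hτ0.le
    nlinarith
  have he3 : C * (τ * m) ^ 2 + τ * M ≤ τ * P := by
    rw [hP, mul_add]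
    linarith
  have he4 : 2 * (C * (τ * m) ^ 2) + τ * (4 * M / r * (C * (τ * m) ^ 2 + τ * M)) ≤ ε * τ := by
    have h1 : 4 * M / r * (C * (τ * m) ^ 2 + τ * M) ≤ 4 * M / r * (τ * P) :=
      mul_le_mul_of_nonneg_left he3 (by positivity)
    calc 2 * (C * (τ * m) ^ 2) + τ * (4 * M / r * (C * (τ * m) ^ 2 + τ * M))
        ≤ 2 * (τ * (τ * (C * m ^ 2))) + τ * (4 * M / r * (τ * P)) :=
          add_le_add (by linarith) (mul_le_mul_of_nonneg_left h1 hτ0.le)
      _ = τ * Q * τ := by rw [hQ]; ring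
      _ ≤ ε * τ := mul_le_mul_of_nonneg_right hτQ hτ0.le
  have hnX : ∀ b ∈ cthickening r K, ‖(-X) b‖ ≤ M := fun b hb => by
    rw [Pi.neg_apply, norm_neg]; exact hMX b hb
  have hnY : ∀ b ∈ cthickening r K, ‖(-Y) b‖ ≤ M := fun b hb => by
    rw [Pi.neg_apply, norm_neg]; exact hMY b hb
  refine ⟨τ, hτ0, hτε, γ * δ, fun b hb => ⟨?_, ?_⟩⟩
  · have h1 := D2_comp hr hKr hX.1 hMX hMY hτ0.le (he3.trans_lt hτP)
      (fun b hb => (hγ b hb).1) (fun b hb => (hδ b hb).1) hb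
    rw [A.mul γ δ b (hK hb), Pi.add_apply]
    exact h1.trans he4
  · have h1 := D2_comp (U := -Y) (V := -X) (g := A.β δ⁻¹) (h := A.β γ⁻¹) hr hKr hY.1.neg hnY hnX
      hτ0.le (he3.trans_lt hτP)
      (fun b hb => by
        rw [Pi.neg_apply, smul_neg, sub_neg_eq_add]
        exact (hδ b hb).2)
      (fun b hb => by
        rw [Pi.neg_apply, smul_neg, sub_neg_eq_add]
        exact (hγ b hb).2) hb
    rw [mul_inv_rev, A.mul _ _ b (hK hb), Pi.add_apply]
    have h2 : A.β δ⁻¹ (A.β γ⁻¹ b) - b + (τ : ℂ) • (X b + Y b) =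
        A.β δ⁻¹ (A.β γ⁻¹ b) - b - (τ : ℂ) • ((-Y) b + (-X) b) := by
      rw [Pi.neg_apply, Pi.neg_apply, ← neg_add, smul_neg, sub_neg_eq_add, add_comm (Y b)]
    rw [h2]
    exact h1.trans he4

theorem lim_closed {A : BaseAct Ω Γ} {X : ℕ → E n → E n} {Y : E n → E n}
    (hX : ∀ j, IsLim A (X j)) (h : TendstoLocallyUniformlyOn X Y atTop Ω.D)
    (hY : ∀ b, b ∉ Ω.D → Y b = 0) : IsLim A Y := by
  refine ⟨(lim_holo Ω.isOpen (fun j => (hX j).1) h).1, hY, fun K hK hKc ε hε => ?_⟩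
  have h1 := (tendstoLocallyUniformlyOn_iff_forall_isCompact Ω.isOpen).1 h K hK hKc
  rw [Metric.tendstoUniformlyOn_iff] at h1
  obtain ⟨j, hj⟩ := (h1 (ε / 2) (by positivity)).exists
  obtain ⟨t, ht, htε, γ, hγ⟩ := (hX j).2.2 K hK hKc (ε / 2) (by positivity)
  have htn : ‖(t : ℂ)‖ = t := by rw [Complex.norm_real, Real.norm_of_nonneg ht.le]
  refine ⟨t, ht, by linarith, γ, fun b hb => ?_⟩
  obtain ⟨h2, h3⟩ := hγ b hb
  have h4 : ‖(t : ℂ) • (Y b - X j b)‖ ≤ ε / 2 * t := by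
    rw [norm_smul, htn, mul_comm]
    have h5 := (hj b hb).le
    rw [dist_eq_norm] at h5
    exact mul_le_mul_of_nonneg_right h5 ht.le
  constructor
  · have h6 : A.β γ b - b - (t : ℂ) • Y b =
        (A.β γ b - b - (t : ℂ) • X j b) - (t : ℂ) • (Y b - X j b) := by
      rw [smul_sub]
      abel
    rw [h6]
    refine (norm_sub_le _ _).trans ?_
    linarith
  · have h6 : A.β γ⁻¹ b - b + (t : ℂ) • Y b =
        (A.β γ⁻¹ b - b + (t : ℂ) • X j b) + (t : ℂ) • (Y b - X j b) := by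
      rw [smul_sub]
      abel
    rw [h6]
    refine (norm_add_le _ _).trans ?_
    linarith

end Pool.Agent.H.MP_e23cd6_ag.AB
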