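import Pool.Agent.H.MP_e23cd6_ag.AB.A4
import Pool.Agent.H.MP_e23cd6_ag.AB.D2

/-!
ABUN D3: the normed space of limit fields.

`limSub A` is the real subspace of limit fields, `Lie A` the corresponding type with the norm
`sup over the marked ball B`. (A separate type, so that the norm topology does not clash with the topology of
pointwise convergence.)
-/

open Set Filter Topology Metric

namespace Pool.Agent.H.MP_e23cd6_ag.AB

variable {n : ℕ} {Ω : Dom n} {Γ : Type} [Group Γ]

/-- the real vector space of limit fields -/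
def limSub (A : BaseAct Ω Γ) : Submodule ℝ (E n → E n) where
  carrier := {X | IsLim A X}
  add_mem' := fun hX hY => lim_add hX hY
  zero_mem' := lim_zero A
  smul_mem' := fun c _ hX => lim_smul hX c

/-- the real vector space of limit fields, as a type carrying the sup norm over the marked ball -/
def Lie (A : BaseAct Ω Γ) : Type := ↥(limSub A)

noncomputable instance (A : BaseAct Ω Γ) : AddCommGroup (Lie A) :=
  inferInstanceAs (AddCommGroup ↥(limSub A))

noncomputable instance (A : BaseAct Ω Γ) : Module ℝ (Lie A) :=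
  inferInstanceAs (Module ℝ ↥(limSub A))

instance (A : BaseAct Ω Γ) : CoeFun (Lie A) (fun _ => E n → E n) := ⟨fun X => X.1⟩

/-- a limit field as an element of the space -/
def mkLie {A : BaseAct Ω Γ} {X : E n → E n} (hX : IsLim A X) : Lie A := ⟨X, hX⟩

theorem mkLie_apply {A : BaseAct Ω Γ} {X : E n → E n} (hX : IsLim A X) (b : E n) :
    mkLie hX b = X b := rfl

theorem Lie.isLim {A : BaseAct Ω Γ} (X : Lie A) : IsLim A (X : E n → E n) := X.2

theorem Lie.ext {A : BaseAct Ω Γ} {X Y : Lie A} (h : ∀ b, X b = Y b) : X = Y :=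
  Subtype.ext (funext h)

theorem Lie.add_apply {A : BaseAct Ω Γ} (X Y : Lie A) (b : E n) : (X + Y) b = X b + Y b := rfl

theorem Lie.neg_apply {A : BaseAct Ω Γ} (X : Lie A) (b : E n) : (-X) b = -X b := rfl

theorem Lie.zero_apply {A : BaseAct Ω Γ} (b : E n) : (0 : Lie A) b = 0 := rfl

theorem Lie.smul_apply {A : BaseAct Ω Γ} (c : ℝ) (X : Lie A) (b : E n) : (c • X) b = c • X b := rfl

theorem Lie.sub_apply {A : BaseAct Ω Γ} (X Y : Lie A) (b : E n) : (X - Y) b = X b - Y b := by
  rw [sub_eq_add_neg, Lie.add_apply, Lie.neg_apply, sub_eq_add_neg]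

theorem Lie.sum_apply {A : BaseAct Ω Γ} {ι : Type} (s : Finset ι) (f : ι → Lie A) (b : E n) :
    (∑ i ∈ s, f i) b = ∑ i ∈ s, f i b := by
  classical
  induction s using Finset.induction_on with
  | empty => simp only [Finset.sum_empty, Lie.zero_apply]
  | insert a s ha ih => rw [Finset.sum_insert ha, Finset.sum_insert ha, Lie.add_apply, ih]

theorem Lie.holo {A : BaseAct Ω Γ} (X : Lie A) : DifferentiableOn ℂ (X : E n → E n) Ω.D :=
  X.isLim.holo

theorem Lie.off {A : BaseAct Ω Γ} (X : Lie A) {b : E n} (hb : b ∉ Ω.D) : X b = 0 :=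
  X.isLim.off hb

/-- two limit fields which agree on the marked ball are equal -/
theorem Lie.ext_B {A : BaseAct Ω Γ} {X Y : Lie A} (h : ∀ b ∈ Ω.B, X b = Y b) : X = Y := by
  refine Lie.ext fun b => ?_
  by_cases hb : b ∈ Ω.D
  · exact ident Ω.isOpen Ω.conn X.holo Y.holo Ω.hr0
      (ball_subset_closedBall.trans Ω.B_sub)
      (fun y hy => h y (ball_subset_closedBall hy)) hb
  · rw [X.off hb, Y.off hb]

/-- restriction of limit fields to the marked ball -/
noncomputable def Lie.res (A : BaseAct Ω Γ) : Lie A →ₗ[ℝ] C(Ω.B, E n) where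
  toFun X := ⟨fun b => X b, (X.holo.continuousOn.mono Ω.B_sub).domRestrict⟩
  map_add' X Y := by
    ext b : 1
    rfl
  map_smul' c X := by
    ext b : 1
    rfl

theorem Lie.res_apply {A : BaseAct Ω Γ} (X : Lie A) (b : Ω.B) : Lie.res A X b = X b := rfl

theorem Lie.res_injective (A : BaseAct Ω Γ) : Function.Injective (Lie.res A) := by
  intro X Y h
  refine Lie.ext_B fun b hb => ?_
  have := congrArg (fun f : C(Ω.B, E n) => f ⟨b, hb⟩) h
  simpa [Lie.res_apply] using this

instance (Ω : Dom n) : CompactSpace Ω.B := isCompact_iff_compactSpace.mp Ω.B_compact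

noncomputable instance (A : BaseAct Ω Γ) : NormedAddCommGroup (Lie A) :=
  NormedAddCommGroup.induced (Lie A) C(Ω.B, E n) (Lie.res A) (Lie.res_injective A)

noncomputable instance (A : BaseAct Ω Γ) : NormedSpace ℝ (Lie A) :=
  NormedSpace.induced ℝ (Lie A) C(Ω.B, E n) (Lie.res A)

theorem Lie.norm_def {A : BaseAct Ω Γ} (X : Lie A) : ‖X‖ = ‖Lie.res A X‖ := rfl

theorem Lie.norm_le {A : BaseAct Ω Γ} (X : Lie A) {m : ℝ} (hm : 0 ≤ m) :
    ‖X‖ ≤ m ↔ ∀ b ∈ Ω.B, ‖X b‖ ≤ m := by
  rw [Lie.norm_def, ContinuousMap.norm_le _ hm]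
  constructor
  · intro h b hb
    exact h ⟨b, hb⟩
  · intro h b
    exact h b.1 b.2

theorem Lie.le_norm {A : BaseAct Ω Γ} (X : Lie A) {b : E n} (hb : b ∈ Ω.B) : ‖X b‖ ≤ ‖X‖ :=
  (X.norm_le (norm_nonneg X)).mp le_rfl b hb

theorem Lie.res_isometry (A : BaseAct Ω Γ) (X : Lie A) : ‖Lie.res A X‖ = ‖X‖ := rfl

/-- D0 for the normed space -/
theorem Lie.bound (A : BaseAct Ω Γ) {K : Set (E n)} (hK : K ⊆ Ω.D) (hKc : IsCompact K) :
    ∃ C : ℝ, 0 < C ∧ ∀ X : Lie A, ∀ b ∈ K, ‖X b‖ ≤ C * ‖X‖ := by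
  obtain ⟨C, hC, h⟩ := lim_bound A hK hKc
  exact ⟨C, hC, fun X b hb => h X X.isLim ‖X‖ (fun b hb => X.le_norm hb) b hb⟩

end Pool.Agent.H.MP_e23cd6_ag.AB
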