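import Pool.Agent.H.MP_e23cd6_ag.AB.A3
import Pool.Agent.H.MP_e23cd6_ag.AB.D3

/-!
ABUN D4: the space of limit fields is finite dimensional.

`lie_compact`: every bounded sequence X_j in Lie A has a subsequence converging locally uniformly on D to an
element of Lie A. Proof: on each compact set |X_j| ≤ C ‖X_j‖ ≤ C m (`Lie.bound`); `montel` gives a subsequence
converging locally uniformly on D to g holomorphic; let Y = g on D, 0 outside (Set.indicator); `lim_closed`:
Y is a limit field.
`lie_tendsto`: locally uniform convergence on D gives convergence in norm (B is compact, so the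
convergence is uniform on B; `Lie.norm_le`).
`lie_findim`: Riesz (`FiniteDimensional.of_isCompact_closedBall₀` over ℝ or `.of_isCompact_closedBall`): the
closed unit ball of Lie A is sequentially compact (lie_compact, lie_tendsto; the limit has norm ≤ 1), hence
compact (`IsSeqCompact.isCompact`).
-/

open Set Filter Topology Metric

namespace Pool.Agent.H.MP_e23cd6_ag.AB

variable {n : ℕ} {Ω : Dom n} {Γ : Type} [Group Γ]

theorem lie_tendsto {A : BaseAct Ω Γ} {X : ℕ → Lie A} {Y : Lie A}
    (h : TendstoLocallyUniformlyOn (fun j => (X j : E n → E n)) (Y : E n → E n) atTop Ω.D) :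
    Tendsto X atTop (𝓝 Y) := by
  have h1 : TendstoUniformlyOn (fun j => (X j : E n → E n)) (Y : E n → E n) atTop Ω.B :=
    (tendstoLocallyUniformlyOn_iff_tendstoUniformlyOn_of_compact Ω.B_compact).mp
      (h.mono Ω.B_sub)
  rw [Metric.tendsto_atTop]
  intro ε hε
  rw [Metric.tendstoUniformlyOn_iff] at h1
  obtain ⟨N, hN⟩ := (h1 (ε / 2) (half_pos hε)).exists_forall_of_atTop
  refine ⟨N, fun j hj => ?_⟩
  rw [dist_eq_norm]
  refine lt_of_le_of_lt ?_ (half_lt_self hε)
  rw [Lie.norm_le _ (half_pos hε).le]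
  intro b hb
  rw [Lie.sub_apply, ← dist_eq_norm, dist_comm]
  exact (hN j hj b hb).le

theorem lie_compact {A : BaseAct Ω Γ} {X : ℕ → Lie A} {m : ℝ} (hm : ∀ j, ‖X j‖ ≤ m) :
    ∃ φ : ℕ → ℕ, StrictMono φ ∧ ∃ Y : Lie A,
      TendstoLocallyUniformlyOn (fun j => (X (φ j) : E n → E n)) (Y : E n → E n) atTop Ω.D := by
  have hbd : ∀ K ⊆ Ω.D, IsCompact K → ∃ m : ℝ, ∀ j, ∀ x ∈ K, ‖(X j : E n → E n) x‖ ≤ m := by
    intro K hK hKc
    obtain ⟨C, hC, h⟩ := Lie.bound A hK hKc
    exact ⟨C * m, fun j x hx => (h _ x hx).trans (mul_le_mul_of_nonneg_left (hm j) hC.le)⟩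
  obtain ⟨φ, hφ, g, _, hlim⟩ :=
    montel Ω.isOpen (fun j => (X j : E n → E n)) (fun j => (X j).holo) hbd
  have hYlim : TendstoLocallyUniformlyOn (fun j => (X (φ j) : E n → E n))
      (Ω.D.indicator g) atTop Ω.D :=
    hlim.congr_right fun b hb => (indicator_of_mem hb g).symm
  have hY : IsLim A (Ω.D.indicator g) :=
    lim_closed (fun j => (X (φ j)).isLim) hYlim fun b hb => indicator_of_notMem hb g
  exact ⟨φ, hφ, mkLie hY, hYlim⟩

instance lie_findim (A : BaseAct Ω Γ) : FiniteDimensional ℝ (Lie A) := by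
  refine FiniteDimensional.of_isCompact_closedBall₀ ℝ zero_lt_one ?_
  refine IsSeqCompact.isCompact ?_
  intro X hX
  have hm : ∀ j, ‖X j‖ ≤ 1 := fun j => by
    simpa [mem_closedBall, dist_zero_right] using hX j
  obtain ⟨φ, hφ, Y, hlim⟩ := lie_compact hm
  have ht := lie_tendsto hlim
  exact ⟨Y, isClosed_closedBall.mem_of_tendsto ht (Eventually.of_forall fun j => hX (φ j)),
    φ, hφ, ht⟩

end Pool.Agent.H.MP_e23cd6_ag.AB
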