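import Pool.Agent.H.MP_e23cd6_ag.AB.A6
import Pool.Agent.H.MP_e23cd6_ag.AB.D4

/-!
ABUN D5: the group acts on the space of limit fields by push forward, Ad δ X = (Dβ_δ X) ∘ β_δ⁻¹.

`ad_isLim`. Put φ = β δ, ψ = β δ⁻¹ (mutually inverse on D). Holomorphic on D: composition of the holomorphic
maps fderiv φ (`holo_fderiv`), X, ψ (MapsTo ψ D D), with the bilinear evaluation. Let K be compact, ε > 0.
K' = ψ '' K is compact in D. Choose r > 0 with K'' = cthickening r K' ⊆ D. There are constants M, C with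
|φ(b' + k) - φ b' - Dφ(b') k| ≤ C|k|² for b' ∈ K', |k| ≤ r/2 and ‖Dφ‖ ≤ M on K' (`cauchy_second`, `cauchy_fderiv`
on the balls ball b' r; φ is bounded as it maps D to D), |X| ≤ M on K'. Apply IsLim X to K' and a small ε1 < ε: t < ε1, γ.
For b ∈ K, b' = ψ b: β (δγδ⁻¹) b = φ (β γ b'), b = φ b', k = β γ b' - b' = tX b' + error, |error| ≤ ε1 t,
|k| ≤ t (M + 1). So |β (δγδ⁻¹) b - b - t Dφ(b') X b'| ≤ C t² (M+1)² + M ε1 t ≤ ε t if ε1 (C (M+1)² + M) ≤ ε (t < ε1).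
The inverse (δγδ⁻¹)⁻¹ = δγ⁻¹δ⁻¹ in the same way.
`Ad_one`, `Ad_mul`: β 1 = id on D, so fderiv (β 1) = id at points of D (D open); chain rule for
β (γδ) = β γ ∘ β δ near a point of D; (γδ)⁻¹ = δ⁻¹γ⁻¹.
-/

open Set Filter Topology Metric

namespace Pool.Agent.H.MP_e23cd6_ag.AB

variable {n : ℕ} {Ω : Dom n} {Γ : Type} [Group Γ]

/-- second order estimate of a holomorphic self map, uniform on a compact set, applied to
approximate displacements -/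
theorem ad_est {K : Set (E n)} (hK : K ⊆ Ω.D) (hKc : IsCompact K) {φ : E n → E n}
    (hφ : DifferentiableOn ℂ φ Ω.D) (hφm : MapsTo φ Ω.D Ω.D) {M : ℝ} (hM : 0 ≤ M) {ε : ℝ}
    (hε : 0 < ε) :
    ∃ ε1 : ℝ, 0 < ε1 ∧ ε1 ≤ ε ∧ ∀ t : ℝ, 0 < t → t < ε1 → ∀ b ∈ K, ∀ y u : E n,
      ‖u‖ ≤ t * M → ‖y - b - u‖ ≤ ε1 * t → ‖φ y - φ b - fderiv ℂ φ b u‖ ≤ ε * t := by
  obtain ⟨r, hr, hrK⟩ := hKc.exists_cthickening_subset_open Ω.isOpen hK
  obtain ⟨R, hR⟩ := Ω.bdd.exists_norm_le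
  have hR0 : 0 ≤ R := (norm_nonneg _).trans (hR _ Ω.b0_mem)
  set C : ℝ := 8 * R / r ^ 2 with hC
  set L : ℝ := 2 * R / r with hL
  have hC0 : 0 ≤ C := by positivity
  have hL0 : 0 ≤ L := by positivity
  set Q : ℝ := C * (M + 1) ^ 2 + L with hQ
  have hQ0 : 0 ≤ Q := by positivity
  set ε1 : ℝ := min (min 1 ε) (min (ε / (Q + 1)) (r / (2 * (M + 1)))) with hε1
  have h1 : ε1 ≤ 1 := (min_le_left _ _).trans (min_le_left _ _)
  have h2 : ε1 ≤ ε := (min_le_left _ _).trans (min_le_right _ _)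
  have h3 : ε1 ≤ ε / (Q + 1) := (min_le_right _ _).trans (min_le_left _ _)
  have h4 : ε1 ≤ r / (2 * (M + 1)) := (min_le_right _ _).trans (min_le_right _ _)
  have h0 : 0 < ε1 := by
    rw [hε1]
    have hQ1 : 0 < Q + 1 := by linarith
    have hM1 : 0 < 2 * (M + 1) := by linarith
    exact lt_min (lt_min one_pos hε) (lt_min (div_pos hε hQ1) (div_pos hr hM1))
  have h5 : ε1 * Q ≤ ε := by
    have hQ1 : 0 < Q + 1 := by linarith
    have := (le_div_iff₀ hQ1).1 h3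
    nlinarith
  have h6 : ε1 * (M + 1) ≤ r / 2 := by
    have hM1 : 0 < 2 * (M + 1) := by linarith
    have := (le_div_iff₀ hM1).1 h4
    linarith
  refine ⟨ε1, h0, h2, ?_⟩
  intro t ht0 ht1 b hb y u hu hy
  have hball : ball b r ⊆ Ω.D :=
    (ball_subset_closedBall.trans (closedBall_subset_cthickening hb r)).trans hrK
  have hφb : DifferentiableOn ℂ φ (ball b r) := hφ.mono hball
  have hφn : ∀ z ∈ ball b r, ‖φ z‖ ≤ R := fun z hz => hR _ (hφm (hball hz))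
  have hk : ‖y - b‖ ≤ t * (M + 1) := by
    have e : y - b = (y - b - u) + u := by abel
    calc ‖y - b‖ = ‖(y - b - u) + u‖ := by rw [← e]
      _ ≤ ‖y - b - u‖ + ‖u‖ := norm_add_le _ _
      _ ≤ ε1 * t + t * M := add_le_add hy hu
      _ ≤ t * (M + 1) := by nlinarith
  have hyb : y ∈ ball b (r / 2) := by
    rw [mem_ball, dist_eq_norm]
    refine hk.trans_lt ?_
    have : t * (M + 1) < ε1 * (M + 1) := by
      have hM1 : 0 < M + 1 := by linarith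
      exact mul_lt_mul_of_pos_right ht1 hM1
    linarith
  have g1 := cauchy_second hr hφb hφn hyb
  have g2 := cauchy_fderiv hr hφb hφn
  have e : φ y - φ b - fderiv ℂ φ b u
      = (φ y - φ b - fderiv ℂ φ b (y - b)) + fderiv ℂ φ b (y - b - u) := by
    rw [map_sub (fderiv ℂ φ b) (y - b) u]
    abel
  rw [e]
  have g3 : ‖φ y - φ b - fderiv ℂ φ b (y - b)‖ ≤ C * (t * (M + 1)) ^ 2 := by
    refine g1.trans ?_
    have : ‖y - b‖ ^ 2 ≤ (t * (M + 1)) ^ 2 := pow_le_pow_left₀ (norm_nonneg _) hk 2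
    exact mul_le_mul_of_nonneg_left this hC0
  have g4 : ‖fderiv ℂ φ b (y - b - u)‖ ≤ L * (ε1 * t) := by
    refine (ContinuousLinearMap.le_opNorm _ _).trans ?_
    exact mul_le_mul g2 hy (norm_nonneg _) hL0
  calc ‖(φ y - φ b - fderiv ℂ φ b (y - b)) + fderiv ℂ φ b (y - b - u)‖
      ≤ C * (t * (M + 1)) ^ 2 + L * (ε1 * t) := (norm_add_le _ _).trans (add_le_add g3 g4)
    _ = t * (t * (C * (M + 1) ^ 2) + ε1 * L) := by ring
    _ ≤ t * (ε1 * (C * (M + 1) ^ 2) + ε1 * L) := by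
        have hCM : 0 ≤ C * (M + 1) ^ 2 := by positivity
        have := mul_le_mul_of_nonneg_right ht1.le hCM
        have h7 := mul_le_mul_of_nonneg_left this ht0.le
        nlinarith
    _ = t * (ε1 * Q) := by rw [hQ]; ring
    _ ≤ t * ε := mul_le_mul_of_nonneg_left h5 ht0.le
    _ = ε * t := mul_comm _ _

theorem ad_isLim {A : BaseAct Ω Γ} (δ : Γ) {X : E n → E n} (hX : IsLim A X) :
    IsLim A (Ad A δ X) := by
  refine ⟨?_, fun b hb => Ad_off hb, ?_⟩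
  · have h1 : DifferentiableOn ℂ
        (fun b => fderiv ℂ (A.β δ) (A.β δ⁻¹ b) (X (A.β δ⁻¹ b))) Ω.D := by
      have hd := holo_fderiv Ω.isOpen (A.holo δ)
      exact (hd.comp (A.holo δ⁻¹) (A.maps δ⁻¹)).clm_apply (hX.holo.comp (A.holo δ⁻¹) (A.maps δ⁻¹))
    exact h1.congr fun b hb => Ad_apply hb
  · intro K hK hKc ε hε
    have hKc' : IsCompact (A.β δ⁻¹ '' K) := hKc.image_of_continuousOn
      ((A.holo δ⁻¹).continuousOn.mono hK)
    have hK' : A.β δ⁻¹ '' K ⊆ Ω.D := by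
      rintro _ ⟨b, hb, rfl⟩
      exact A.maps δ⁻¹ (hK hb)
    obtain ⟨M, hM⟩ := hKc'.exists_bound_of_continuousOn (hX.holo.continuousOn.mono hK')
    obtain ⟨ε1, h0, h2, hest⟩ := ad_est hK' hKc' (A.holo δ) (A.maps δ) (abs_nonneg M) hε
    obtain ⟨t, ht0, ht1, γ, hγ⟩ := hX.2.2 _ hK' hKc' ε1 h0
    refine ⟨t, ht0, ht1.trans_le h2, δ * γ * δ⁻¹, ?_⟩
    intro b hb
    have hbD : b ∈ Ω.D := hK hb
    have hb' : A.β δ⁻¹ b ∈ A.β δ⁻¹ '' K := mem_image_of_mem _ hb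
    have hb'D : A.β δ⁻¹ b ∈ Ω.D := hK' hb'
    obtain ⟨g1, g2⟩ := hγ _ hb'
    have hXn : ‖(t : ℂ) • X (A.β δ⁻¹ b)‖ ≤ t * |M| := by
      rw [norm_smul, Complex.norm_real, Real.norm_eq_abs, abs_of_pos ht0]
      exact mul_le_mul_of_nonneg_left ((hM _ hb').trans (le_abs_self M)) ht0.le
    have k1 := hest t ht0 ht1 _ hb' (A.β γ (A.β δ⁻¹ b)) ((t : ℂ) • X (A.β δ⁻¹ b)) hXn g1
    have k2 := hest t ht0 ht1 _ hb' (A.β γ⁻¹ (A.β δ⁻¹ b)) (-((t : ℂ) • X (A.β δ⁻¹ b)))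
      (by rw [norm_neg]; exact hXn) (by rw [sub_neg_eq_add]; exact g2)
    have e0 : A.β δ (A.β δ⁻¹ b) = b := A.inv_right δ hbD
    have e1 : A.β (δ * γ * δ⁻¹) b = A.β δ (A.β γ (A.β δ⁻¹ b)) := by
      rw [A.mul _ _ _ hbD, A.mul _ _ _ hb'D]
    have e2 : A.β (δ * γ * δ⁻¹)⁻¹ b = A.β δ (A.β γ⁻¹ (A.β δ⁻¹ b)) := by
      have : (δ * γ * δ⁻¹)⁻¹ = δ * γ⁻¹ * δ⁻¹ := by group
      rw [this, A.mul _ _ _ hbD, A.mul _ _ _ hb'D]
    rw [e0] at k1 k2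
    rw [e1, e2, Ad_apply hbD]
    constructor
    · rw [map_smul] at k1
      exact k1
    · rw [map_neg, map_smul, sub_neg_eq_add] at k2
      exact k2

/-- the adjoint action on the space of limit fields -/
noncomputable def AdL (A : BaseAct Ω Γ) (δ : Γ) : Lie A →ₗ[ℝ] Lie A where
  toFun X := mkLie (ad_isLim δ X.isLim)
  map_add' X Y := by
    refine Lie.ext fun b => ?_
    rw [Lie.add_apply, mkLie_apply, mkLie_apply, mkLie_apply]
    by_cases hb : b ∈ Ω.D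
    · rw [Ad_apply hb, Ad_apply hb, Ad_apply hb, Lie.add_apply, map_add]
    · rw [Ad_off hb, Ad_off hb, Ad_off hb, add_zero]
  map_smul' c X := by
    refine Lie.ext fun b => ?_
    rw [RingHom.id_apply, Lie.smul_apply, mkLie_apply, mkLie_apply]
    by_cases hb : b ∈ Ω.D
    · rw [Ad_apply hb, Ad_apply hb, Lie.smul_apply]
      exact ContinuousLinearMap.map_smul_of_tower _ c _
    · rw [Ad_off hb, Ad_off hb, smul_zero]

theorem AdL_apply {A : BaseAct Ω Γ} (δ : Γ) (X : Lie A) {b : E n} (hb : b ∈ Ω.D) :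
    AdL A δ X b = fderiv ℂ (A.β δ) (A.β δ⁻¹ b) (X (A.β δ⁻¹ b)) := Ad_apply hb

theorem AdL_one {A : BaseAct Ω Γ} (X : Lie A) : AdL A 1 X = X := by
  refine Lie.ext fun b => ?_
  by_cases hb : b ∈ Ω.D
  · have e1 : A.β (1 : Γ)⁻¹ b = b := by rw [inv_one]; exact A.one b hb
    have e2 : A.β (1 : Γ) =ᶠ[𝓝 b] id := by
      filter_upwards [Ω.isOpen.mem_nhds hb] with y hy
      exact A.one y hy
    rw [AdL_apply 1 X hb, e1, e2.fderiv_eq, fderiv_id]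
    rfl
  · rw [(AdL A 1 X).off hb, X.off hb]

theorem AdL_mul {A : BaseAct Ω Γ} (γ δ : Γ) (X : Lie A) :
    AdL A (γ * δ) X = AdL A γ (AdL A δ X) := by
  refine Lie.ext fun b => ?_
  by_cases hb : b ∈ Ω.D
  · have hc : A.β γ⁻¹ b ∈ Ω.D := A.mem _ hb
    have hd : A.β δ⁻¹ (A.β γ⁻¹ b) ∈ Ω.D := A.mem _ hc
    have e1 : A.β (γ * δ)⁻¹ b = A.β δ⁻¹ (A.β γ⁻¹ b) := by
      rw [mul_inv_rev, A.mul _ _ _ hb]
    have e2 : A.β δ (A.β δ⁻¹ (A.β γ⁻¹ b)) = A.β γ⁻¹ b := A.inv_right δ hc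
    rw [AdL_apply (γ * δ) X hb, AdL_apply γ _ hb, AdL_apply δ X hc, e1]
    have e3 : A.β (γ * δ) =ᶠ[𝓝 (A.β δ⁻¹ (A.β γ⁻¹ b))] (A.β γ) ∘ (A.β δ) := by
      filter_upwards [Ω.isOpen.mem_nhds hd] with y hy
      exact A.mul γ δ y hy
    have d1 : DifferentiableAt ℂ (A.β δ) (A.β δ⁻¹ (A.β γ⁻¹ b)) :=
      (A.holo δ).differentiableAt (Ω.isOpen.mem_nhds hd)
    have d2 : DifferentiableAt ℂ (A.β γ) (A.β δ (A.β δ⁻¹ (A.β γ⁻¹ b))) := by
      rw [e2]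
      exact (A.holo γ).differentiableAt (Ω.isOpen.mem_nhds hc)
    rw [e3.fderiv_eq, fderiv_comp _ d2 d1, e2]
    rfl
  · rw [(AdL A (γ * δ) X).off hb, (AdL A γ (AdL A δ X)).off hb]

end Pool.Agent.H.MP_e23cd6_ag.AB
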