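import Pool.Agent.H.MP_e23cd6_ag.AB.D5

/-!
ABUN D6: the bracket of limit fields.

`ad_expand`. For b ∈ K put b' = β γ⁻¹ b, so b' - b = -Y b + O(s²), |b' - b| ≤ C s (Lie.bound for Y), b' ∈ cthickening r K for
s ≤ ρ. Let u = β γ - id - Y on cthickening r K: |u| ≤ C0 s². By `cauchy_fderiv` on balls of radius r/2 around points b'
of cthickening (r/2) K: ‖Dβ_γ(b') - 1 - DY(b')‖ ≤ C s², and ‖DY(b') - DY(b)‖ ≤ C s |b'-b| ≤ C s² (`cauchy_dlip` or
second derivative bound). So Ad γ X b = Dβ_γ(b') X b' = X b' + DY(b) X b + O(s²) (X is bounded by C‖X‖ ≤ C and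
Lipschitz near K), and X b' = X b + DX(b)(b'-b) + O(|b'-b|²) = X b - DX(b) Y b + O(s²) (`cauchy_second`). Hence
Ad γ X b = X b - (DX(b) Y b - DY(b) X b) + O(s²).

`br_limit`. Let X, Y ∈ Lie A. By scaling ‖X‖ ≤ 1 (if X = 0 trivial). For j large let s = s_j = (1+‖Y‖)/(j+1), apply `realize` on
cthickening r K to Y/(j+1) (norm ≤ s): γ with error ≤ C0 s², then `ad_expand`: |Ad γ X - X + (1/(j+1)) br X Y| ≤ C s² on K. So
(j+1)(X - Ad γ X) = br X Y + O(1/(j+1)) on K. But γ depends on K. Use a compact exhaustion K_j of D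
(`CompactExhaustion` / cthickening of complements; or: for every compact K and ε > 0 there is γ, t with
|t⁻¹(X - Ad γ X) - br X Y| ≤ ε on K) to get one sequence γ_j, t_j → 0 with t_j⁻¹ (X - AdL γ_j X) → br X Y locally
uniformly on D.
`br_isLim`: from `br_limit` and `lim_closed`.
`br_mem`: P is finite dimensional so closed (`Submodule.closed_of_finiteDimensional`), t_j⁻¹ (X - AdL γ_j X) ∈ P and
converges to brL X Y in norm (`lie_tendsto`).
-/

open Set Filter Topology Metric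

namespace Pool.Agent.H.MP_e23cd6_ag.AB

variable {n : ℕ} {Ω : Dom n} {Γ : Type} [Group Γ]

theorem D6_diffAt {f : E n → E n} (hf : DifferentiableOn ℂ f Ω.D) {b : E n} (hb : b ∈ Ω.D) :
    DifferentiableAt ℂ f b := (hf b hb).differentiableAt (Ω.isOpen.mem_nhds hb)

theorem D6_fderiv_add {A : BaseAct Ω Γ} (X X' : Lie A) {b : E n} (hb : b ∈ Ω.D) :
    fderiv ℂ (X + X' : Lie A).1 b = fderiv ℂ X.1 b + fderiv ℂ X'.1 b := by
  have h : (X + X' : Lie A).1 = fun b => X.1 b + X'.1 b := rfl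
  rw [h]
  exact fderiv_fun_add (D6_diffAt X.holo hb) (D6_diffAt X'.holo hb)

theorem D6_fderiv_smul {A : BaseAct Ω Γ} (c : ℝ) (X : Lie A) {b : E n} (hb : b ∈ Ω.D) :
    fderiv ℂ (c • X : Lie A).1 b = c • fderiv ℂ X.1 b := by
  have h : (c • X : Lie A).1 = fun b => c • X.1 b := rfl
  rw [h]
  exact fderiv_fun_const_smul (D6_diffAt X.holo hb) c

theorem ad_expand (A : BaseAct Ω Γ) {K : Set (E n)} (hKc : IsCompact K) {r : ℝ} (hr : 0 < r)
    (hKr : cthickening r K ⊆ Ω.D) (C0 : ℝ) :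
    ∃ C ρ : ℝ, 0 < C ∧ 0 < ρ ∧ ∀ (X Y : Lie A) (s : ℝ), ‖X‖ ≤ 1 → 0 ≤ s → s ≤ ρ → ‖Y‖ ≤ s →
      ∀ γ : Γ, (∀ b ∈ cthickening r K,
        ‖A.β γ b - b - Y b‖ ≤ C0 * s ^ 2 ∧ ‖A.β γ⁻¹ b - b + Y b‖ ≤ C0 * s ^ 2) →
      ∀ b ∈ K, ‖Ad A γ X b - X b + br Ω X Y b‖ ≤ C * s ^ 2 := by
  obtain ⟨CL, hCL, hL⟩ := Lie.bound A hKr hKc.cthickening
  obtain ⟨c0, hc0, hC0⟩ : ∃ c0 : ℝ, 0 ≤ c0 ∧ C0 ≤ c0 := ⟨max C0 0, le_max_right _ _, le_max_left _ _⟩
  obtain ⟨C1, hC1⟩ : ∃ C1 : ℝ, C1 = CL + c0 := ⟨_, rfl⟩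
  have hC1p : 0 < C1 := by rw [hC1]; positivity
  refine ⟨4 * c0 / r * CL + 8 * CL / r ^ 2 * C1 ^ 2 + 2 * CL / r * c0 +
    64 * CL / r ^ 2 * C1 * CL + 2 * CL / r * (4 * CL / r * C1) + 1, min 1 (r / (16 * C1)),
    by positivity, by positivity, ?_⟩
  intro X Y s hX hs hsρ hY γ hγ b hb
  have hs1 : s ≤ 1 := hsρ.trans (min_le_left _ _)
  have hs2 : C1 * s ≤ r / 16 := by
    have h1 := hsρ.trans (min_le_right _ _)
    rw [le_div_iff₀ (by positivity)] at h1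
    linarith
  have hball : ball b r ⊆ cthickening r K :=
    ball_subset_closedBall.trans (closedBall_subset_cthickening hb r)
  have hballD : ball b r ⊆ Ω.D := hball.trans hKr
  have hbD : b ∈ Ω.D := hballD (mem_ball_self hr)
  have hXb : ∀ z ∈ ball b r, ‖X z‖ ≤ CL := fun z hz =>
    (hL X z (hball hz)).trans (by nlinarith)
  have hYb : ∀ z ∈ ball b r, ‖Y z‖ ≤ CL * s := fun z hz =>
    (hL Y z (hball hz)).trans (mul_le_mul_of_nonneg_left hY hCL.le)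
  set b' : E n := A.β γ⁻¹ b with hb'
  have hb'D : b' ∈ Ω.D := A.mem γ⁻¹ hbD
  have hss : s ^ 2 ≤ s := by nlinarith
  have h1 : ‖b' - b + Y b‖ ≤ c0 * s ^ 2 :=
    ((hγ b (hball (mem_ball_self hr))).2).trans (by nlinarith [sq_nonneg s])
  have h2 : ‖b' - b‖ ≤ C1 * s := by
    calc ‖b' - b‖ = ‖(b' - b + Y b) - Y b‖ := by rw [add_sub_cancel_right]
      _ ≤ ‖b' - b + Y b‖ + ‖Y b‖ := norm_sub_le _ _
      _ ≤ c0 * s ^ 2 + CL * s := add_le_add h1 (hYb b (mem_ball_self hr))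
      _ ≤ C1 * s := by rw [hC1]; nlinarith
  have h3 : b' ∈ ball b (r / 8) := by
    rw [mem_ball, dist_eq_norm]
    linarith
  have h3' : b' ∈ ball b (r / 2) := ball_subset_ball (by linarith) h3
  have h3'' : b' ∈ ball b r := ball_subset_ball (by linarith) h3
  have hsub : ball b' (r / 2) ⊆ ball b r := by
    intro z hz
    rw [mem_ball] at hz h3' ⊢
    calc dist z b ≤ dist z b' + dist b' b := dist_triangle _ _ _
      _ < r / 2 + r / 2 := add_lt_add hz h3'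
      _ = r := by ring
  have hbb : b ∈ ball b (r / 2) := mem_ball_self (by positivity)
  -- the error of the first order expansion
  set u : E n → E n := fun z => A.β γ z - z - Y z with hu
  have hud : DifferentiableOn ℂ u Ω.D := ((A.holo γ).sub differentiableOn_id).sub Y.holo
  have hu1 : ‖fderiv ℂ u b'‖ ≤ 2 * (c0 * s ^ 2) / (r / 2) := by
    refine cauchy_fderiv (by positivity) (hud.mono (hsub.trans hballD)) fun z hz => ?_
    exact ((hγ z (hball (hsub hz))).1).trans (by nlinarith [sq_nonneg s])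
  have hu2 : fderiv ℂ u b' = fderiv ℂ (A.β γ) b' - ContinuousLinearMap.id ℂ (E n) -
      fderiv ℂ Y.1 b' :=
    (((D6_diffAt (A.holo γ) hb'D).hasFDerivAt.sub (hasFDerivAt_id b')).sub
      (D6_diffAt Y.holo hb'D).hasFDerivAt).fderiv
  have hDX : ‖fderiv ℂ X.1 b‖ ≤ 2 * CL / r := cauchy_fderiv hr (X.holo.mono hballD) hXb
  have hDY : ‖fderiv ℂ Y.1 b‖ ≤ 2 * (CL * s) / r := cauchy_fderiv hr (Y.holo.mono hballD) hYb
  have hDY2 : ‖fderiv ℂ Y.1 b' - fderiv ℂ Y.1 b‖ ≤ 64 * (CL * s) / r ^ 2 * ‖b' - b‖ :=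
    cauchy_dlip hr (Y.holo.mono hballD) hYb h3
  have hX2 : ‖X b' - X b - fderiv ℂ X.1 b (b' - b)‖ ≤ 8 * CL / r ^ 2 * ‖b' - b‖ ^ 2 :=
    cauchy_second hr (X.holo.mono hballD) hXb h3'
  have hX1 : ‖X b' - X b‖ ≤ 4 * CL / r * ‖b' - b‖ :=
    cauchy_lip hr (X.holo.mono hballD) hXb h3' hbb
  have hXb' : ‖X b'‖ ≤ CL := hXb b' h3''
  have e : Ad A γ X b - X b + br Ω X Y b = fderiv ℂ u b' (X b') +
      (X b' - X b - fderiv ℂ X.1 b (b' - b)) + fderiv ℂ X.1 b (b' - b + Y b) +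
      (fderiv ℂ Y.1 b' - fderiv ℂ Y.1 b) (X b') + fderiv ℂ Y.1 b (X b' - X b) := by
    rw [Ad_apply hbD, br_apply hbD, hu2, ← hb']
    simp only [sub_apply, ContinuousLinearMap.id_apply, map_add, map_sub]
    abel
  have t1 : ‖fderiv ℂ u b' (X b')‖ ≤ 2 * (c0 * s ^ 2) / (r / 2) * CL :=
    (ContinuousLinearMap.le_opNorm _ _).trans
      (mul_le_mul hu1 hXb' (norm_nonneg _) (by positivity))
  have t2 : ‖X b' - X b - fderiv ℂ X.1 b (b' - b)‖ ≤ 8 * CL / r ^ 2 * (C1 * s) ^ 2 :=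
    hX2.trans (mul_le_mul_of_nonneg_left (pow_le_pow_left₀ (norm_nonneg _) h2 2) (by positivity))
  have t3 : ‖fderiv ℂ X.1 b (b' - b + Y b)‖ ≤ 2 * CL / r * (c0 * s ^ 2) :=
    (ContinuousLinearMap.le_opNorm _ _).trans (mul_le_mul hDX h1 (norm_nonneg _) (by positivity))
  have t4 : ‖(fderiv ℂ Y.1 b' - fderiv ℂ Y.1 b) (X b')‖ ≤
      64 * (CL * s) / r ^ 2 * (C1 * s) * CL :=
    (ContinuousLinearMap.le_opNorm _ _).trans
      (mul_le_mul (hDY2.trans (mul_le_mul_of_nonneg_left h2 (by positivity))) hXb'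
        (norm_nonneg _) (by positivity))
  have t5 : ‖fderiv ℂ Y.1 b (X b' - X b)‖ ≤ 2 * (CL * s) / r * (4 * CL / r * (C1 * s)) :=
    (ContinuousLinearMap.le_opNorm _ _).trans
      (mul_le_mul hDY (hX1.trans (mul_le_mul_of_nonneg_left h2 (by positivity)))
        (norm_nonneg _) (by positivity))
  rw [e]
  calc _ ≤ ‖fderiv ℂ u b' (X b')‖ + ‖X b' - X b - fderiv ℂ X.1 b (b' - b)‖ +
        ‖fderiv ℂ X.1 b (b' - b + Y b)‖ + ‖(fderiv ℂ Y.1 b' - fderiv ℂ Y.1 b) (X b')‖ +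
        ‖fderiv ℂ Y.1 b (X b' - X b)‖ := by
        refine (norm_add_le _ _).trans (add_le_add ?_ le_rfl)
        refine (norm_add_le _ _).trans (add_le_add ?_ le_rfl)
        refine (norm_add_le _ _).trans (add_le_add ?_ le_rfl)
        exact norm_add_le _ _
    _ ≤ 2 * (c0 * s ^ 2) / (r / 2) * CL + 8 * CL / r ^ 2 * (C1 * s) ^ 2 +
        2 * CL / r * (c0 * s ^ 2) + 64 * (CL * s) / r ^ 2 * (C1 * s) * CL +
        2 * (CL * s) / r * (4 * CL / r * (C1 * s)) := by linarith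
    _ = (4 * c0 / r * CL + 8 * CL / r ^ 2 * C1 ^ 2 + 2 * CL / r * c0 +
        64 * CL / r ^ 2 * C1 * CL + 2 * CL / r * (4 * CL / r * C1)) * s ^ 2 := by
        field_simp
        ring
    _ ≤ _ := by
        apply mul_le_mul_of_nonneg_right _ (sq_nonneg s)
        linarith

theorem D6_Ad_smul {A : BaseAct Ω Γ} (γ : Γ) (c : ℝ) (X : Lie A) {b : E n} (hb : b ∈ Ω.D) :
    Ad A γ (c • X : Lie A) b = c • Ad A γ X b := by
  rw [Ad_apply hb, Ad_apply hb, Lie.smul_apply]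
  exact ContinuousLinearMap.map_smul_of_tower _ c _

theorem D6_br_smul {A : BaseAct Ω Γ} (c d : ℝ) (X Y : Lie A) {b : E n} (hb : b ∈ Ω.D) :
    br Ω (c • X : Lie A) (d • Y : Lie A) b = (c * d) • br Ω X Y b := by
  rw [br_apply hb, br_apply hb, D6_fderiv_smul c X hb, D6_fderiv_smul d Y hb, Lie.smul_apply,
    Lie.smul_apply]
  have h1 : fderiv ℂ X.1 b (d • Y b) = d • fderiv ℂ X.1 b (Y b) :=
    ContinuousLinearMap.map_smul_of_tower _ d _
  have h2 : fderiv ℂ Y.1 b (c • X b) = c • fderiv ℂ Y.1 b (X b) :=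
    ContinuousLinearMap.map_smul_of_tower _ c _
  show c • fderiv ℂ X.1 b (d • Y b) - d • fderiv ℂ Y.1 b (c • X b) = _
  rw [h1, h2, smul_smul, smul_smul, mul_comm d c, ← smul_sub]

theorem D6_vec {V : Type} [AddCommGroup V] [Module ℝ V] {M t : ℝ} (hM : M ≠ 0) (ht : t ≠ 0)
    (x a c : V) : t⁻¹ • (x - a) - c =
      -((M * t⁻¹) • (M⁻¹ • a - M⁻¹ • x + (M⁻¹ * t) • c)) := by
  have e6 : M * t⁻¹ * M⁻¹ = t⁻¹ := by field_simp
  have e7 : M * t⁻¹ * (M⁻¹ * t) = 1 := by field_simp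
  rw [smul_add, smul_sub, smul_sub, smul_smul, smul_smul, smul_smul, e6, e7, one_smul]
  abel

theorem D6_step {A : BaseAct Ω Γ} (X Y : Lie A) {K : Set (E n)} (hK : K ⊆ Ω.D)
    (hKc : IsCompact K) {ε : ℝ} (hε : 0 < ε) : ∃ (γ : Γ) (t : ℝ), 0 < t ∧ ∀ b ∈ K,
      ‖(t⁻¹ • (X - AdL A γ X) : Lie A) b - br Ω X Y b‖ ≤ ε := by
  obtain ⟨r, hr, hrK⟩ := hKc.exists_cthickening_subset_open Ω.isOpen hK
  obtain ⟨C2, ρ2, hC2, hρ2, h2⟩ := realize A hrK hKc.cthickening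
  obtain ⟨C, ρ, hC, hρ, h1⟩ := ad_expand A hKc hr hrK C2
  obtain ⟨M, hM⟩ : ∃ M : ℝ, M = 1 + ‖X‖ := ⟨_, rfl⟩
  obtain ⟨N, hN⟩ : ∃ N : ℝ, N = 1 + ‖Y‖ := ⟨_, rfl⟩
  have hM0 : 0 < M := by rw [hM]; positivity
  have hN0 : 0 < N := by rw [hN]; positivity
  obtain ⟨t, ht0, ht1, ht2, ht3⟩ : ∃ t : ℝ, 0 < t ∧ t * N ≤ ρ ∧ t * N ≤ ρ2 ∧
      M * C * N ^ 2 * t ≤ ε := by
    refine ⟨min (min (ρ / N) (ρ2 / N)) (ε / (M * C * N ^ 2)), by positivity, ?_, ?_, ?_⟩
    · rw [← le_div_iff₀ hN0]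
      exact (min_le_left _ _).trans (min_le_left _ _)
    · rw [← le_div_iff₀ hN0]
      exact (min_le_left _ _).trans (min_le_right _ _)
    · rw [mul_comm, ← le_div_iff₀ (by positivity)]
      exact min_le_right _ _
  have hYn : ‖(t • Y : Lie A)‖ ≤ t * N := by
    rw [norm_smul, Real.norm_of_nonneg ht0.le, hN]
    exact mul_le_mul_of_nonneg_left (by linarith) ht0.le
  have hXn : ‖(M⁻¹ • X : Lie A)‖ ≤ 1 := by
    rw [norm_smul, Real.norm_of_nonneg (inv_nonneg.2 hM0.le), inv_mul_le_iff₀ hM0, hM]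
    linarith
  obtain ⟨γ, hγ⟩ := h2 (t • Y : Lie A) (t • Y : Lie A).isLim (t * N) (by positivity) ht2
    (fun b hb => ((t • Y : Lie A).le_norm hb).trans hYn)
  refine ⟨γ, t, ht0, fun b hb => ?_⟩
  have hbD := hK hb
  have h4 := h1 (M⁻¹ • X) (t • Y) (t * N) hXn (by positivity) ht1 hYn γ hγ b hb
  rw [D6_Ad_smul γ _ X hbD, D6_br_smul _ _ X Y hbD, Lie.smul_apply] at h4
  have e5 : (AdL A γ X) b = Ad A γ X b := rfl
  have e4 : (t⁻¹ • (X - AdL A γ X) : Lie A) b - br Ω X Y b =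
      -((M * t⁻¹) • (M⁻¹ • Ad A γ X b - M⁻¹ • X b + (M⁻¹ * t) • br Ω X Y b)) := by
    rw [Lie.smul_apply, Lie.sub_apply, e5]
    exact D6_vec hM0.ne' ht0.ne' _ _ _
  rw [e4, norm_neg, norm_smul, Real.norm_of_nonneg (by positivity)]
  calc M * t⁻¹ * ‖M⁻¹ • Ad A γ X b - M⁻¹ • X b + (M⁻¹ * t) • br Ω X Y b‖
      ≤ M * t⁻¹ * (C * (t * N) ^ 2) := mul_le_mul_of_nonneg_left h4 (by positivity)
    _ = M * C * N ^ 2 * t := by field_simp
    _ ≤ ε := ht3

theorem br_limit {A : BaseAct Ω Γ} (X Y : Lie A) :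
    ∃ (γ : ℕ → Γ) (t : ℕ → ℝ), (∀ j, 0 < t j) ∧
      TendstoLocallyUniformlyOn (fun j => ((t j)⁻¹ • (X - AdL A (γ j) X) : Lie A).1)
        (br Ω X Y) atTop Ω.D := by
  have : LocallyCompactSpace Ω.D := Ω.isOpen.locallyCompactSpace
  let Kx : CompactExhaustion Ω.D := CompactExhaustion.choice Ω.D
  have hsub : ∀ j, (Subtype.val '' (Kx j) : Set (E n)) ⊆ Ω.D := by
    rintro j _ ⟨x, _, rfl⟩
    exact x.2
  have hcomp : ∀ j, IsCompact (Subtype.val '' (Kx j) : Set (E n)) := fun j =>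
    (Kx.isCompact j).image continuous_subtype_val
  choose γ t ht hγ using fun j : ℕ =>
    D6_step X Y (hsub j) (hcomp j) (ε := 1 / ((j : ℝ) + 1)) (by positivity)
  refine ⟨γ, t, ht, ?_⟩
  rw [tendstoLocallyUniformlyOn_iff_forall_isCompact Ω.isOpen]
  intro K hK hKc
  rw [Metric.tendstoUniformlyOn_iff]
  intro ε hε
  have hK' : IsCompact (Subtype.val ⁻¹' K : Set Ω.D) := by
    rw [Subtype.isCompact_iff, Subtype.image_preimage_coe, inter_eq_right.2 hK]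
    exact hKc
  obtain ⟨N, hN⟩ := Kx.exists_superset_of_isCompact hK'
  have h1 : ∀ᶠ j : ℕ in atTop, 1 / ((j : ℝ) + 1) < ε :=
    tendsto_one_div_add_atTop_nhds_zero_nat.eventually_lt_const hε
  filter_upwards [h1, eventually_ge_atTop N] with j hj hNj x hx
  have hxj : x ∈ (Subtype.val '' (Kx j) : Set (E n)) :=
    ⟨⟨x, hK hx⟩, Kx.subset hNj (hN hx), rfl⟩
  rw [dist_comm, dist_eq_norm]
  exact (hγ j x hxj).trans_lt hj

theorem br_isLim {A : BaseAct Ω Γ} (X Y : Lie A) : IsLim A (br Ω X Y) := by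
  obtain ⟨γ, t, ht, h⟩ := br_limit X Y
  exact lim_closed (fun j => Lie.isLim _) h (fun b hb => br_off hb)

/-- the bracket on the space of limit fields -/
noncomputable def brL (A : BaseAct Ω Γ) : Lie A →ₗ[ℝ] Lie A →ₗ[ℝ] Lie A :=
  LinearMap.mk₂ ℝ (fun X Y => mkLie (br_isLim X Y))
    (by
      intro X X' Y
      refine Lie.ext fun b => ?_
      rw [Lie.add_apply, mkLie_apply, mkLie_apply, mkLie_apply]
      by_cases hb : b ∈ Ω.D
      · rw [br_apply hb, br_apply hb, br_apply hb, D6_fderiv_add X X' hb, Lie.add_apply, map_add]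
        show fderiv ℂ X.1 b (Y b) + fderiv ℂ X'.1 b (Y b) - _ = _
        abel
      · rw [br_off hb, br_off hb, br_off hb, add_zero])
    (by
      intro c X Y
      refine Lie.ext fun b => ?_
      rw [Lie.smul_apply, mkLie_apply, mkLie_apply]
      by_cases hb : b ∈ Ω.D
      · have h := D6_br_smul c 1 X Y hb
        rw [one_smul, mul_one] at h
        exact h
      · rw [br_off hb, br_off hb, smul_zero])
    (by
      intro X Y Y'
      refine Lie.ext fun b => ?_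
      rw [Lie.add_apply, mkLie_apply, mkLie_apply, mkLie_apply]
      by_cases hb : b ∈ Ω.D
      · rw [br_apply hb, br_apply hb, br_apply hb, D6_fderiv_add Y Y' hb, Lie.add_apply, map_add]
        show _ - (fderiv ℂ Y.1 b (X b) + fderiv ℂ Y'.1 b (X b)) = _
        abel
      · rw [br_off hb, br_off hb, br_off hb, add_zero])
    (by
      intro c X Y
      refine Lie.ext fun b => ?_
      rw [Lie.smul_apply, mkLie_apply, mkLie_apply]
      by_cases hb : b ∈ Ω.D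
      · have h := D6_br_smul 1 c X Y hb
        rw [one_smul, one_mul] at h
        exact h
      · rw [br_off hb, br_off hb, smul_zero])

theorem brL_apply {A : BaseAct Ω Γ} (X Y : Lie A) {b : E n} (hb : b ∈ Ω.D) :
    brL A X Y b = fderiv ℂ X b (Y b) - fderiv ℂ Y b (X b) := br_apply hb

theorem brL_off {A : BaseAct Ω Γ} (X Y : Lie A) {b : E n} (hb : b ∉ Ω.D) :
    brL A X Y b = 0 := br_off hb

theorem brL_anti {A : BaseAct Ω Γ} (X Y : Lie A) : brL A X Y = - brL A Y X := by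
  refine Lie.ext fun b => ?_
  rw [Lie.neg_apply]
  by_cases hb : b ∈ Ω.D
  · rw [brL_apply X Y hb, brL_apply Y X hb, neg_sub]
  · rw [brL_off X Y hb, brL_off Y X hb, neg_zero]

/-- the bracket of an element of an Ad-stable subspace with any limit field stays in the subspace -/
theorem br_mem {A : BaseAct Ω Γ} {P : Submodule ℝ (Lie A)}
    (hP : ∀ δ, ∀ X ∈ P, AdL A δ X ∈ P) {X : Lie A} (hX : X ∈ P) (Y : Lie A) : brL A X Y ∈ P := by
  obtain ⟨γ, t, ht, h⟩ := br_limit X Y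
  have h1 : Tendsto (fun j => ((t j)⁻¹ • (X - AdL A (γ j) X) : Lie A)) atTop
      (𝓝 (brL A X Y)) := lie_tendsto h
  have hcl : IsClosed (P : Set (Lie A)) := P.closed_of_finiteDimensional
  exact hcl.mem_of_tendsto h1
    (Eventually.of_forall fun j => P.smul_mem _ (P.sub_mem hX (hP _ _ hX)))

/-- the push forward of a field, in the form `Ad δ X (β δ b) = fderiv (β δ) b (X b)` -/
theorem D6_AdL_at {A : BaseAct Ω Γ} (δ : Γ) (X : Lie A) {b : E n} (hb : b ∈ Ω.D) :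
    AdL A δ X (A.β δ b) = fderiv ℂ (A.β δ) b (X b) := by
  rw [AdL_apply δ X (A.mem δ hb), A.inv_left δ hb]

theorem D6_fderiv_AdL {A : BaseAct Ω Γ} (δ : Γ) (X : Lie A) {b : E n} (hb : b ∈ Ω.D) (v : E n) :
    fderiv ℂ (AdL A δ X).1 (A.β δ b) (fderiv ℂ (A.β δ) b v) =
      fderiv ℂ (fderiv ℂ (A.β δ)) b v (X b) + fderiv ℂ (A.β δ) b (fderiv ℂ X.1 b v) := by
  have hφ := D6_diffAt (A.holo δ) hb
  have hX := D6_diffAt X.holo hb
  have hdφ : DifferentiableAt ℂ (fderiv ℂ (A.β δ)) b :=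
    (holo_fderiv Ω.isOpen (A.holo δ) b hb).differentiableAt (Ω.isOpen.mem_nhds hb)
  have hAd : DifferentiableAt ℂ (AdL A δ X).1 (A.β δ b) :=
    D6_diffAt (AdL A δ X).holo (A.mem δ hb)
  have h1 : HasFDerivAt (fun z => (AdL A δ X).1 (A.β δ z))
      ((fderiv ℂ (AdL A δ X).1 (A.β δ b)).comp (fderiv ℂ (A.β δ) b)) b :=
    hAd.hasFDerivAt.comp b hφ.hasFDerivAt
  have h2 := hdφ.hasFDerivAt.clm_apply hX.hasFDerivAt
  have h3 : (fun z => (AdL A δ X).1 (A.β δ z)) =ᶠ[𝓝 b]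
      fun z => fderiv ℂ (A.β δ) z (X.1 z) := by
    filter_upwards [Ω.isOpen.mem_nhds hb] with z hz
    exact D6_AdL_at δ X hz
  have h4 := h1.unique (h2.congr_of_eventuallyEq h3)
  have h5 := congrArg (fun L : E n →L[ℂ] E n => L v) h4
  simp only [ContinuousLinearMap.comp_apply, add_apply,
    ContinuousLinearMap.flip_apply] at h5
  rw [h5, add_comm]

/-- naturality of the bracket.  (`VectorField.pullback_lieBracket` and relatives, applied to the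
biholomorphic map `β δ`, or directly by differentiating
`Ad δ X (β δ b) = fderiv (β δ) b (X b)`, the second derivative being symmetric.) -/
theorem Ad_br {A : BaseAct Ω Γ} (δ : Γ) (X Y : Lie A) :
    AdL A δ (brL A X Y) = brL A (AdL A δ X) (AdL A δ Y) := by
  refine Lie.ext fun c => ?_
  by_cases hc : c ∈ Ω.D
  · obtain ⟨b, hb, rfl⟩ : ∃ b ∈ Ω.D, A.β δ b = c := ⟨A.β δ⁻¹ c, A.mem _ hc, A.inv_right δ hc⟩
    rw [D6_AdL_at δ _ hb, brL_apply X Y hb, brL_apply _ _ hc, D6_AdL_at δ X hb,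
      D6_AdL_at δ Y hb]
    have hX := D6_fderiv_AdL δ X hb (Y b)
    have hY := D6_fderiv_AdL δ Y hb (X b)
    have hsymm : IsSymmSndFDerivAt ℂ (A.β δ) b := by
      have h1 : ContDiffAt ℂ ((⊤ : ℕ∞) : WithTop ℕ∞) (A.β δ) b :=
        (Pool.Agent.ParLeaf.scv_contDiffOn Ω.isOpen (A.holo δ)).contDiffAt
          (Ω.isOpen.mem_nhds hb)
      refine h1.isSymmSndFDerivAt ?_
      rw [minSmoothness_of_isRCLikeNormedField]
      show ((2 : ℕ∞) : WithTop ℕ∞) ≤ ((⊤ : ℕ∞) : WithTop ℕ∞)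
      exact WithTop.coe_le_coe.2 le_top
    have h2 := hsymm.eq (X b) (Y b)
    rw [hX, hY, map_sub, h2]
    abel
  · rw [brL_off _ _ hc, (AdL A δ (brL A X Y)).off hc]

end Pool.Agent.H.MP_e23cd6_ag.AB
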