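import Pool.Agent.H.MP_e23cd6_ag.AB.D6

/-!
ABUN D7: group elements close to the identity give limit fields.

`lim_seq`. By `estE` for every compact K there is C with |β γ_j b - b| ≤ C A0 t_j and |β γ_j⁻¹ b - b| ≤ C A0 t_j on K for j large
(t_j → 0), so f_j = (β γ_j - id)/t_j is bounded on K uniformly in j (for the finitely many other j use
compactness of K and continuity). `montel` gives a subsequence and a holomorphic limit g. X = g on D, 0 outside. It is a
limit field: given K, ε choose r with cthickening r K ⊆ D, j large, t = t_j: |β b - b - t g b| ≤ ε1 t on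
cthickening r K; this gives the first half. For b ∈ K put b' = β γ_j⁻¹ b, |b' - b| ≤ C A0 t so b' ∈ cthickening r K:
|b - b' - t g b'| ≤ ε1 t, so |b' - b + t g b| ≤ ε1 t + t|g b' - g b| ≤ ε t if t is small (g is uniformly
continuous on the compact cthickening r K).

`no_small`. If Lie A is trivial there is ε > 0 such that an element with |β γ b - b| ≤ ε on B acts trivially on D. Otherwise
there are γ_j with t_j = sup_B |β γ_j b - b| ≤ 1/(j+1) not acting trivially on D, so t_j > 0 (`ident`), and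
lim_seq gives X with sup_B |X| = lim sup_B |f_j| = 1 along the subsequence (uniform convergence on B), so
X ≠ 0.
-/

open Set Filter Topology Metric

namespace Pool.Agent.H.MP_e23cd6_ag.AB

variable {n : ℕ} {Ω : Dom n} {Γ : Type} [Group Γ]

/-- the difference quotients are bounded on compact sets -/
theorem D7_bdd (A : BaseAct Ω Γ) (γ : ℕ → Γ) (t : ℕ → ℝ) (A0 : ℝ) (hA0 : 0 ≤ A0)
    (ht : ∀ j, 0 < t j)
    (ht0 : Tendsto t atTop (𝓝 0)) (h : ∀ j, ∀ b ∈ Ω.B, ‖A.β (γ j) b - b‖ ≤ A0 * t j)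
    (K : Set (E n)) (hK : K ⊆ Ω.D) (hKc : IsCompact K) :
    ∃ m : ℝ, ∀ j, ∀ b ∈ K, ‖(t j)⁻¹ • (A.β (γ j) b - b)‖ ≤ m := by
  obtain ⟨C, e0, hC, he0, hE⟩ := estE A hK hKc
  have h1 : Tendsto (fun j => A0 * t j) atTop (𝓝 0) := by
    simpa using ht0.const_mul A0
  obtain ⟨N, hN⟩ := eventually_atTop.1 (h1.eventually_le_const he0)
  have h2 : ∀ j, ∃ m : ℝ, ∀ b ∈ K, ‖(t j)⁻¹ • (A.β (γ j) b - b)‖ ≤ m := by
    intro j
    have hc : ContinuousOn ((t j)⁻¹ • (A.β (γ j) - id)) K :=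
      (((A.holo (γ j)).continuousOn.mono hK).sub continuousOn_id).const_smul _
    exact hKc.exists_bound_of_continuousOn hc
  choose m hm using h2
  obtain ⟨M, hM⟩ := ((Finset.range N).image m).exists_le
  refine ⟨max M (C * A0), fun j b hb => ?_⟩
  by_cases hj : j < N
  · exact (hm j b hb).trans
      ((hM _ (Finset.mem_image_of_mem m (Finset.mem_range.2 hj))).trans (le_max_left _ _))
  · have hj' : N ≤ j := not_lt.1 hj
    have h3 := (hE (γ j) (A0 * t j) (mul_nonneg hA0 (ht j).le) (hN j hj') (h j) b hb).1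
    refine le_trans ?_ (le_max_right _ _)
    rw [norm_smul, norm_inv, Real.norm_of_nonneg (ht j).le, inv_mul_le_iff₀ (ht j)]
    calc _ ≤ C * (A0 * t j) := h3
      _ = t j * (C * A0) := by ring

/-- limits of difference quotients are limit fields -/
theorem D7_isLim (A : BaseAct Ω Γ) (γ : ℕ → Γ) (t : ℕ → ℝ) (A0 : ℝ) (hA0 : 0 ≤ A0)
    (ht : ∀ j, 0 < t j)
    (ht0 : Tendsto t atTop (𝓝 0)) (h : ∀ j, ∀ b ∈ Ω.B, ‖A.β (γ j) b - b‖ ≤ A0 * t j)
    (g : E n → E n) (hg : DifferentiableOn ℂ g Ω.D) (hg0 : ∀ b, b ∉ Ω.D → g b = 0)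
    (hu : TendstoLocallyUniformlyOn (fun j b => (t j)⁻¹ • (A.β (γ j) b - b)) g atTop Ω.D) :
    IsLim A g := by
  refine ⟨hg, hg0, fun K hK hKc ε hε => ?_⟩
  obtain ⟨r, hr, hK1⟩ := hKc.exists_cthickening_subset_open Ω.isOpen hK
  have hK1c : IsCompact (cthickening r K) := hKc.cthickening
  obtain ⟨C, e0, hC, he0, hE⟩ := estE A hK hKc
  have hun := (tendstoLocallyUniformlyOn_iff_forall_isCompact Ω.isOpen).1 hu _ hK1 hK1c
  rw [Metric.tendstoUniformlyOn_iff] at hun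
  have huc := hK1c.uniformContinuousOn_of_continuous (hg.continuousOn.mono hK1)
  rw [Metric.uniformContinuousOn_iff] at huc
  obtain ⟨δ, hδ, hδg⟩ := huc (ε / 2) (by positivity)
  have h1 : Tendsto (fun j => A0 * t j) atTop (𝓝 0) := by
    simpa using ht0.const_mul A0
  have h2 : Tendsto (fun j => C * (A0 * t j)) atTop (𝓝 0) := by
    simpa using h1.const_mul C
  obtain ⟨j, hj1, hj2, hj3, hj4⟩ := ((hun (ε / 2) (by positivity)).and
    ((h1.eventually_le_const he0).and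
      ((h2.eventually_lt_const (lt_min hr hδ)).and (ht0.eventually_lt_const hε)))).exists
  have hKK : K ⊆ cthickening r K := self_subset_cthickening K
  have hmain : ∀ b ∈ cthickening r K,
      ‖A.β (γ j) b - b - (t j : ℂ) • g b‖ ≤ ε / 2 * t j := by
    intro b hb
    have h3 := hj1 b hb
    rw [dist_eq_norm, norm_sub_rev] at h3
    have h4 : A.β (γ j) b - b - (t j : ℂ) • g b =
        (t j) • ((t j)⁻¹ • (A.β (γ j) b - b) - g b) := by
      rw [smul_sub, smul_inv_smul₀ (ht j).ne', Complex.coe_smul]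
    rw [h4, norm_smul, Real.norm_of_nonneg (ht j).le, mul_comm]
    exact mul_le_mul_of_nonneg_right h3.le (ht j).le
  refine ⟨t j, ht j, hj4, γ j, fun b hb => ⟨?_, ?_⟩⟩
  · refine (hmain b (hKK hb)).trans (mul_le_mul_of_nonneg_right (by linarith) (ht j).le)
  · have hbD : b ∈ Ω.D := hK hb
    set b' := A.β (γ j)⁻¹ b with hb'
    have h5 : ‖b' - b‖ ≤ C * (A0 * t j) :=
      (hE (γ j) (A0 * t j) (mul_nonneg hA0 (ht j).le) hj2 (h j) b hb).2
    have h6 : dist b' b < min r δ := by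
      rw [dist_eq_norm]
      exact h5.trans_lt hj3
    have h7 : b' ∈ cthickening r K :=
      mem_cthickening_of_dist_le b' b r K hb (h6.trans_le (min_le_left _ _)).le
    have h8 := hmain b' h7
    have h9 : A.β (γ j) b' = b := A.inv_right (γ j) hbD
    rw [h9] at h8
    have h10 : ‖g b - g b'‖ ≤ ε / 2 := by
      rw [← dist_eq_norm]
      refine (hδg b (hKK hb) b' h7 ?_).le
      rw [dist_comm]
      exact h6.trans_le (min_le_right _ _)
    have h11 : b' - b + (t j : ℂ) • g b =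
        -(b - b' - (t j : ℂ) • g b') + (t j : ℂ) • (g b - g b') := by
      rw [smul_sub]
      abel
    rw [h11]
    refine (norm_add_le _ _).trans ?_
    rw [norm_neg, norm_smul, Complex.norm_real, Real.norm_of_nonneg (ht j).le]
    have h12 : t j * ‖g b - g b'‖ ≤ t j * (ε / 2) := mul_le_mul_of_nonneg_left h10 (ht j).le
    linarith

theorem lim_seq (A : BaseAct Ω Γ) (γ : ℕ → Γ) (t : ℕ → ℝ) (A0 : ℝ) (ht : ∀ j, 0 < t j)
    (ht0 : Tendsto t atTop (𝓝 0)) (h : ∀ j, ∀ b ∈ Ω.B, ‖A.β (γ j) b - b‖ ≤ A0 * t j) :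
    ∃ φ : ℕ → ℕ, StrictMono φ ∧ ∃ X : Lie A,
      TendstoLocallyUniformlyOn (fun j b => (t (φ j))⁻¹ • (A.β (γ (φ j)) b - b))
        (X : E n → E n) atTop Ω.D := by
  have hA : 0 ≤ max A0 0 := le_max_right _ _
  have h' : ∀ j, ∀ b ∈ Ω.B, ‖A.β (γ j) b - b‖ ≤ max A0 0 * t j := fun j b hb =>
    (h j b hb).trans (mul_le_mul_of_nonneg_right (le_max_left _ _) (ht j).le)
  obtain ⟨φ, hφ, g, hg, hu⟩ := montel Ω.isOpen (fun j b => (t j)⁻¹ • (A.β (γ j) b - b))
    (fun j => show DifferentiableOn ℂ ((t j)⁻¹ • (A.β (γ j) - id)) Ω.D from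
      ((A.holo (γ j)).sub differentiableOn_id).const_smul _)
    (D7_bdd A γ t _ hA ht ht0 h')
  have hgi : ∀ b ∈ Ω.D, g b = Set.indicator Ω.D g b := fun b hb =>
    (Set.indicator_of_mem hb g).symm
  have hg' : DifferentiableOn ℂ (Set.indicator Ω.D g) Ω.D :=
    hg.congr fun b hb => (hgi b hb).symm
  have hu' : TendstoLocallyUniformlyOn
      (fun j b => (t (φ j))⁻¹ • (A.β (γ (φ j)) b - b)) (Set.indicator Ω.D g) atTop Ω.D :=
    hu.congr_right hgi
  have hL : IsLim A (Set.indicator Ω.D g) :=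
    D7_isLim A (fun j => γ (φ j)) (fun j => t (φ j)) _ hA (fun j => ht _)
      (ht0.comp hφ.tendsto_atTop) (fun j => h' (φ j)) _ hg'
      (fun b hb => Set.indicator_of_notMem hb g) hu'
  exact ⟨φ, hφ, mkLie hL, hu'⟩

theorem no_small (A : BaseAct Ω Γ) (h0 : ∀ X : Lie A, X = 0) :
    ∃ ε : ℝ, 0 < ε ∧ ∀ γ : Γ, (∀ b ∈ Ω.B, ‖A.β γ b - b‖ ≤ ε) → ∀ b ∈ Ω.D, A.β γ b = b := by
  by_contra hno
  push Not at hno
  have h1 : ∀ j : ℕ, ∃ γ : Γ, (∀ b ∈ Ω.B, ‖A.β γ b - b‖ ≤ 1 / ((j : ℝ) + 1)) ∧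
      ∃ b ∈ Ω.D, A.β γ b ≠ b := fun j => hno _ (by positivity)
  choose γ hγ hne using h1
  have h2 : ∀ j, ∃ x ∈ Ω.B, IsMaxOn (fun b => ‖A.β (γ j) b - b‖) Ω.B x := fun j =>
    Ω.B_compact.exists_isMaxOn ⟨_, Ω.b0_mem_B⟩
      ((((A.holo (γ j)).continuousOn.mono Ω.B_sub).sub continuousOn_id).norm)
  choose x hx hmax using h2
  have ht : ∀ j, 0 < ‖A.β (γ j) (x j) - x j‖ := by
    intro j
    by_contra hle
    have hzero : ‖A.β (γ j) (x j) - x j‖ = 0 := le_antisymm (not_lt.1 hle) (norm_nonneg _)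
    obtain ⟨b, hb, hbne⟩ := hne j
    apply hbne
    refine ident Ω.isOpen Ω.conn (A.holo (γ j)) differentiableOn_id Ω.hr0
      (ball_subset_closedBall.trans Ω.B_sub) (fun y hy => ?_) hb
    have h3 := isMaxOn_iff.1 (hmax j) y (ball_subset_closedBall hy)
    rw [hzero] at h3
    exact sub_eq_zero.1 (norm_le_zero_iff.1 h3)
  have ht0 : Tendsto (fun j => ‖A.β (γ j) (x j) - x j‖) atTop (𝓝 0) :=
    squeeze_zero (fun _ => norm_nonneg _) (fun j => hγ j _ (hx j))
      tendsto_one_div_add_atTop_nhds_zero_nat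
  obtain ⟨φ, hφ, X, hX⟩ := lim_seq A γ (fun j => ‖A.β (γ j) (x j) - x j‖) 1 ht ht0
    (fun j b hb => by
      rw [one_mul]
      exact isMaxOn_iff.1 (hmax j) b hb)
  rw [h0 X] at hX
  have hun := (tendstoLocallyUniformlyOn_iff_forall_isCompact Ω.isOpen).1 hX _ Ω.B_sub Ω.B_compact
  rw [Metric.tendstoUniformlyOn_iff] at hun
  obtain ⟨j, hj⟩ := (hun 1 one_pos).exists
  have h4 := hj (x (φ j)) (hx (φ j))
  rw [Lie.zero_apply, dist_eq_norm, zero_sub, norm_neg, norm_smul, norm_inv, norm_norm,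
    inv_mul_cancel₀ (ht (φ j)).ne'] at h4
  exact lt_irrefl _ h4

end Pool.Agent.H.MP_e23cd6_ag.AB
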