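import Pool.Agent.H.MP_e23cd6_ag.AB.D7

/-!
ABUN D8: second order approximation of small group elements by limit fields.
B1 = closedBall b0 r1 is the larger marked ball.

`D8_step`: if γ is s-close to the identity on B and X is a limit field of norm at most c s then
there is a group element ρ equal to id + (β γ - id - X) + O(s²) on B1.
`approx` follows by comparing with an almost nearest limit field.
-/

open Set Filter Topology Metric

namespace Pool.Agent.H.MP_e23cd6_ag.AB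

variable {n : ℕ} {Ω : Dom n} {Γ : Type} [Group Γ]

theorem D8_step (A : BaseAct Ω Γ) {c : ℝ} (hc : 0 < c) :
    ∃ C e : ℝ, 0 < C ∧ 0 < e ∧ ∀ (γ : Γ) (s : ℝ), 0 < s → s ≤ e →
      (∀ b ∈ Ω.B, ‖A.β γ b - b‖ ≤ s) → ∀ X : Lie A, ‖X‖ ≤ c * s →
        ∃ ρ : Γ, ∀ b ∈ closedBall Ω.b0 Ω.r1,
          ‖A.β ρ b - b - (A.β γ b - b - X b)‖ ≤ C * s ^ 2 := by
  obtain ⟨r, hr, hrD⟩ := (isCompact_closedBall Ω.b0 Ω.r1).exists_cthickening_subset_open
    Ω.isOpen Ω.hB
  set K : Set (E n) := cthickening r (closedBall Ω.b0 Ω.r1) with hKdef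
  have hKc : IsCompact K := (isCompact_closedBall Ω.b0 Ω.r1).cthickening
  have hBK : closedBall Ω.b0 Ω.r1 ⊆ K := self_subset_cthickening _
  obtain ⟨C1, e0, hC1, he0, hE⟩ := estE A hrD hKc
  obtain ⟨C2, ρ0, hC2, hρ0, hR⟩ := realize A hrD hKc
  obtain ⟨C3, hC3, hL⟩ := Lie.bound A hrD hKc
  have hball : ∀ b ∈ closedBall Ω.b0 Ω.r1, closedBall b r ⊆ K := by
    intro b hb y hy
    exact mem_cthickening_of_dist_le y b r _ hb (mem_closedBall.mp hy)
  set C4 : ℝ := C3 * c + C2 * c ^ 2 with hC4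
  have hC4pos : 0 < C4 := by positivity
  refine ⟨C2 * c ^ 2 + 4 * (C1 + C3 * c) / r * C4, min (min e0 1) (min (ρ0 / c) (r / (4 * C4))),
    by positivity, by positivity, ?_⟩
  intro γ s hs hse hγ X hX
  have hs1 : s ≤ e0 := hse.trans ((min_le_left _ _).trans (min_le_left _ _))
  have hs2 : s ≤ 1 := hse.trans ((min_le_left _ _).trans (min_le_right _ _))
  have hs3 : s ≤ ρ0 / c := hse.trans ((min_le_right _ _).trans (min_le_left _ _))
  have hs4 : s ≤ r / (4 * C4) := hse.trans ((min_le_right _ _).trans (min_le_right _ _))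
  have hcs : c * s ≤ ρ0 := by
    rw [le_div_iff₀ hc] at hs3
    linarith
  have hC4s : C4 * s ≤ r / 4 := by
    rw [le_div_iff₀ (by positivity)] at hs4
    linarith
  obtain ⟨δ, hδ⟩ := hR X X.isLim (c * s) (by positivity) hcs
    (fun b hb => (X.le_norm hb).trans hX)
  have hXK : ∀ b ∈ K, ‖X b‖ ≤ C3 * (c * s) := fun b hb =>
    (hL X b hb).trans (mul_le_mul_of_nonneg_left hX hC3.le)
  refine ⟨γ * δ⁻¹, fun b hb => ?_⟩
  have hbK : b ∈ K := hBK hb
  have hbD : b ∈ Ω.D := hrD hbK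
  set b' := A.β δ⁻¹ b with hb'
  have hbb : ‖b' - b‖ ≤ C4 * s := by
    have h1 := (hδ b hbK).2
    have h2 : b' - b = (A.β δ⁻¹ b - b + X b) - X b := by rw [hb']; abel
    rw [h2]
    refine (norm_sub_le _ _).trans ?_
    refine (add_le_add h1 (hXK b hbK)).trans ?_
    rw [hC4]
    have : s ^ 2 ≤ s := by nlinarith
    nlinarith [mul_pos hC2 (pow_pos hc 2)]
  have hb'r : b' ∈ ball b (r / 2) := by
    rw [mem_ball, dist_eq_norm]
    linarith
  have hb'K : b' ∈ K := hball b hb (ball_subset_closedBall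
    (ball_subset_ball (by linarith) hb'r))
  have hb'D : b' ∈ Ω.D := hrD hb'K
  set W : E n → E n := fun x => A.β γ x - x - X x with hW
  have hWm : ∀ y ∈ ball b r, ‖W y‖ ≤ (C1 + C3 * c) * s := by
    intro y hy
    have hyK : y ∈ K := hball b hb (ball_subset_closedBall hy)
    have h1 := (hE γ s hs.le hs1 hγ y hyK).1
    have h2 := hXK y hyK
    refine (norm_sub_le _ _).trans ?_
    linarith
  have hballD : ball b r ⊆ Ω.D := (ball_subset_closedBall.trans (hball b hb)).trans hrD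
  have hWd : DifferentiableOn ℂ W (ball b r) :=
    (((A.holo γ).sub differentiableOn_id).sub X.holo).mono hballD
  have hlip := cauchy_lip hr hWd hWm hb'r (mem_ball_self (by positivity))
  have e1 : A.β (γ * δ⁻¹) b = A.β γ b' := A.mul _ _ _ hbD
  have e2 : b = A.β δ b' := (A.inv_right δ hbD).symm
  have e3 : A.β (γ * δ⁻¹) b - b - (A.β γ b - b - X b) =
      (W b' - W b) - (A.β δ b' - b' - X b') := by
    rw [e1, ← e2]
    simp only [hW]
    abel
  rw [e3]
  refine (norm_sub_le _ _).trans ?_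
  have h5 := (hδ b' hb'K).1
  have h6 : ‖W b' - W b‖ ≤ 4 * ((C1 + C3 * c) * s) / r * (C4 * s) :=
    hlip.trans (mul_le_mul_of_nonneg_left hbb (by positivity))
  calc ‖W b' - W b‖ + ‖A.β δ b' - b' - X b'‖
      ≤ 4 * ((C1 + C3 * c) * s) / r * (C4 * s) + C2 * (c * s) ^ 2 := add_le_add h6 h5
    _ = (C2 * c ^ 2 + 4 * (C1 + C3 * c) / r * C4) * s ^ 2 := by ring

instance D8_compact (Ω : Dom n) : CompactSpace (closedBall Ω.b0 Ω.r1) :=
  isCompact_iff_compactSpace.mp (isCompact_closedBall _ _)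

/-- restriction of limit fields to the larger marked ball -/
noncomputable def D8_res (A : BaseAct Ω Γ) : Lie A →ₗ[ℝ] C(closedBall Ω.b0 Ω.r1, E n) where
  toFun X := ⟨fun b => X b, (X.holo.continuousOn.mono Ω.hB).domRestrict⟩
  map_add' X Y := by
    ext b : 1
    rfl
  map_smul' c X := by
    ext b : 1
    rfl

theorem D8_res_apply {A : BaseAct Ω Γ} (X : Lie A) (b : closedBall Ω.b0 Ω.r1) :
    D8_res A X b = X b := rfl

/-- almost nearest limit field on the larger ball -/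
theorem D8_near (A : BaseAct Ω Γ) (v : C(closedBall Ω.b0 Ω.r1, E n)) {m : ℝ} (hm : ‖v‖ ≤ m) :
    (∃ X : Lie A, D8_res A X = v) ∨
      ∃ (X : Lie A) (d : ℝ), 0 < d ∧ d ≤ m ∧ d ≤ ‖v - D8_res A X‖ ∧ ‖v - D8_res A X‖ ≤ 2 * d ∧
        ∀ Y : Lie A, d ≤ ‖v - D8_res A Y‖ := by
  set S : Submodule ℝ C(closedBall Ω.b0 Ω.r1, E n) := LinearMap.range (D8_res A) with hS
  have : FiniteDimensional ℝ S := inferInstance
  have hcl : IsClosed (S : Set C(closedBall Ω.b0 Ω.r1, E n)) := S.closed_of_finiteDimensional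
  have hne : (S : Set C(closedBall Ω.b0 Ω.r1, E n)).Nonempty := ⟨0, S.zero_mem⟩
  by_cases hv : v ∈ S
  · left
    obtain ⟨X, hX⟩ := hv
    exact ⟨X, hX⟩
  · right
    have hd0 : infDist v (S : Set C(closedBall Ω.b0 Ω.r1, E n)) ≠ 0 := fun h =>
      hv ((hcl.mem_iff_infDist_zero hne).mpr h)
    have hd : 0 < infDist v (S : Set C(closedBall Ω.b0 Ω.r1, E n)) :=
      lt_of_le_of_ne infDist_nonneg (Ne.symm hd0)
    have hle : ∀ Y : Lie A, infDist v (S : Set C(closedBall Ω.b0 Ω.r1, E n)) ≤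
        ‖v - D8_res A Y‖ := by
      intro Y
      rw [← dist_eq_norm]
      exact infDist_le_dist_of_mem ⟨Y, rfl⟩
    obtain ⟨w, ⟨X, hX⟩, hw⟩ := (infDist_lt_iff hne).mp
      (show infDist v (S : Set C(closedBall Ω.b0 Ω.r1, E n)) <
        2 * infDist v (S : Set C(closedBall Ω.b0 Ω.r1, E n)) by linarith)
    refine ⟨X, _, hd, ?_, hle X, ?_, hle⟩
    · have := hle 0
      rw [map_zero, sub_zero] at this
      exact this.trans hm
    · rw [hX, ← dist_eq_norm]
      exact hw.le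

theorem approx (A : BaseAct Ω Γ) :
    ∃ C e1 : ℝ, 0 < C ∧ 0 < e1 ∧ ∀ (γ : Γ) (s : ℝ), 0 < s → s ≤ e1 →
      (∀ b ∈ Ω.B, ‖A.β γ b - b‖ ≤ s) → ∃ X : Lie A, ‖X‖ ≤ C * s ∧
        ∀ b ∈ closedBall Ω.b0 Ω.r1, ‖A.β γ b - b - X b‖ ≤ C * s ^ 2 := by
  by_contra hno
  push Not at hno
  obtain ⟨C1, e0, hC1, he0, hE⟩ := estE A Ω.hB (isCompact_closedBall Ω.b0 Ω.r1)
  obtain ⟨C, e, hC, he, hstep⟩ := D8_step A (show (0 : ℝ) < 3 * C1 by positivity)
  obtain ⟨N, hN⟩ := exists_nat_gt (3 * C1 + 1 + 1 / e0 + 1 / e)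
  have hB1 : Ω.B ⊆ closedBall Ω.b0 Ω.r1 := closedBall_subset_closedBall Ω.hr01.le
  -- the data for every index
  have hdata : ∀ j : ℕ, ∃ (γ ρ : Γ) (t : ℝ) (X : Lie A), 0 < t ∧
      t ≤ 2 * C1 / ((j : ℝ) + 1) ∧
      (∀ b ∈ closedBall Ω.b0 Ω.r1, ‖A.β γ b - b - X b‖ ≤ t) ∧
      (∀ b ∈ closedBall Ω.b0 Ω.r1,
        ‖A.β ρ b - b - (A.β γ b - b - X b)‖ ≤ C * t / ((j : ℝ) + 1)) ∧
      (∀ Y : Lie A, ∀ m : ℝ, 0 ≤ m → (∀ b ∈ closedBall Ω.b0 Ω.r1, ‖A.β γ b - b - Y b‖ ≤ m) →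
        t / 2 ≤ m) := by
    intro j
    have hk : (0 : ℝ) < (j : ℝ) + N + 1 := by positivity
    obtain ⟨γ, s, hs, hse, hγ, hX⟩ := hno ((j : ℝ) + N + 1) (1 / ((j : ℝ) + N + 1)) hk
      (by positivity)
    have hj0 : (0 : ℝ) ≤ j := Nat.cast_nonneg j
    have hN0 : (0 : ℝ) ≤ 1 / e0 := by positivity
    have hN1 : (0 : ℝ) ≤ 1 / e := by positivity
    have hks : s * ((j : ℝ) + N + 1) ≤ 1 := by
      rwa [le_div_iff₀ hk] at hse
    have hse0 : s ≤ e0 := by
      refine hse.trans ?_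
      rw [div_le_comm₀ hk he0]
      linarith
    have hsee : s ≤ e := by
      refine hse.trans ?_
      rw [div_le_comm₀ hk he]
      linarith
    have hsj : s ≤ 1 / ((j : ℝ) + 1) := hse.trans
      (one_div_le_one_div_of_le (by positivity) (by linarith [Nat.cast_nonneg (α := ℝ) N]))
    have hv : ∀ b ∈ closedBall Ω.b0 Ω.r1, ‖A.β γ b - b‖ ≤ C1 * s := fun b hb =>
      (hE γ s hs.le hse0 hγ b hb).1
    set v : C(closedBall Ω.b0 Ω.r1, E n) :=
      ⟨fun b => A.β γ b - b,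
        (((A.holo γ).continuousOn.mono Ω.hB).domRestrict).sub continuous_subtype_val⟩ with hvdef
    have hvm : ‖v‖ ≤ C1 * s := by
      rw [ContinuousMap.norm_le _ (by positivity)]
      exact fun b => hv b.1 b.2
    rcases D8_near A v hvm with ⟨X, hXv⟩ | ⟨X, d, hd, hdm, hd1, hd2, hd3⟩
    · exfalso
      have hXb : ∀ b ∈ closedBall Ω.b0 Ω.r1, X b = A.β γ b - b := fun b hb =>
        congrArg (fun f : C(closedBall Ω.b0 Ω.r1, E n) => f ⟨b, hb⟩) hXv
      have hXn : ‖X‖ ≤ ((j : ℝ) + N + 1) * s := by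
        rw [X.norm_le (by positivity)]
        intro b hb
        rw [hXb b (hB1 hb)]
        refine (hγ b hb).trans ?_
        have : (1 : ℝ) ≤ (j : ℝ) + N + 1 := by linarith [Nat.cast_nonneg (α := ℝ) N]
        nlinarith
      obtain ⟨b, hb, hb2⟩ := hX X hXn
      rw [hXb b hb, sub_self, norm_zero] at hb2
      exact absurd hb2 (not_lt.mpr (by positivity))
    · have hnorm : ‖X‖ ≤ 3 * C1 * s := by
        rw [X.norm_le (by positivity)]
        intro b hb
        have h1 : ‖(v - D8_res A X) ⟨b, hB1 hb⟩‖ ≤ 2 * d :=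
          ((v - D8_res A X).norm_coe_le_norm _).trans hd2
        have h2 : (v - D8_res A X) ⟨b, hB1 hb⟩ = A.β γ b - b - X b := rfl
        rw [h2] at h1
        have h3 := hv b (hB1 hb)
        have h4 : X b = (A.β γ b - b) - (A.β γ b - b - X b) := by abel
        rw [h4]
        refine (norm_sub_le _ _).trans ?_
        linarith
      obtain ⟨ρ, hρ⟩ := hstep γ s hs hsee hγ X hnorm
      set t : ℝ := ‖v - D8_res A X‖ with ht
      have htpos : 0 < t := lt_of_lt_of_le hd hd1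
      have hWt : ∀ b ∈ closedBall Ω.b0 Ω.r1, ‖A.β γ b - b - X b‖ ≤ t := fun b hb =>
        (v - D8_res A X).norm_coe_le_norm ⟨b, hb⟩
      have hts : ((j : ℝ) + N + 1) * s ^ 2 < t := by
        obtain ⟨b, hb, hb2⟩ := hX X (hnorm.trans (mul_le_mul_of_nonneg_right
          (by linarith) hs.le))
        exact lt_of_lt_of_le hb2 (hWt b hb)
      refine ⟨γ, ρ, t, X, htpos, ?_, hWt, ?_, ?_⟩
      · calc t ≤ 2 * d := hd2
          _ ≤ 2 * (C1 * s) := by linarith
          _ = 2 * C1 * s := by ring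
          _ ≤ 2 * C1 * (1 / ((j : ℝ) + 1)) := mul_le_mul_of_nonneg_left hsj (by positivity)
          _ = 2 * C1 / ((j : ℝ) + 1) := by ring
      · intro b hb
        refine (hρ b hb).trans ?_
        rw [le_div_iff₀ (by positivity), mul_assoc]
        refine mul_le_mul_of_nonneg_left ?_ hC.le
        have : s ^ 2 * ((j : ℝ) + 1) ≤ ((j : ℝ) + N + 1) * s ^ 2 := by
          have : (0 : ℝ) ≤ N * s ^ 2 := by positivity
          nlinarith
        linarith
      · intro Y m hm0 hm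
        have h1 : ‖v - D8_res A Y‖ ≤ m := by
          rw [ContinuousMap.norm_le _ hm0]
          exact fun b => hm b.1 b.2
        have h2 := hd3 Y
        linarith
  choose γ ρ t X ht ht2 hW hρ hmin using hdata
  have ht0 : Tendsto t atTop (𝓝 0) := by
    have h1 : Tendsto (fun j : ℕ => 2 * C1 * (1 / ((j : ℝ) + 1))) atTop (𝓝 (2 * C1 * 0)) :=
      tendsto_one_div_add_atTop_nhds_zero_nat.const_mul _
    rw [mul_zero] at h1
    refine squeeze_zero (fun j => (ht j).le) (fun j => (ht2 j).trans (le_of_eq ?_)) h1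
    ring
  have hA0 : ∀ j, ∀ b ∈ Ω.B, ‖A.β (ρ j) b - b‖ ≤ (1 + C) * t j := by
    intro j b hb
    have h1 := hW j b (hB1 hb)
    have h2 := hρ j b (hB1 hb)
    have h3 : A.β (ρ j) b - b = (A.β (ρ j) b - b - (A.β (γ j) b - b - X j b)) +
        (A.β (γ j) b - b - X j b) := by abel
    rw [h3]
    refine (norm_add_le _ _).trans ?_
    have h4 : C * t j / ((j : ℝ) + 1) ≤ C * t j :=
      div_le_self (mul_nonneg hC.le (ht j).le) (by linarith [Nat.cast_nonneg (α := ℝ) j])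
    linarith
  obtain ⟨φ, hφ, Y, hY⟩ := lim_seq A ρ t (1 + C) ht ht0 hA0
  have hYu : TendstoUniformlyOn (fun j b => (t (φ j))⁻¹ • (A.β (ρ (φ j)) b - b))
      (Y : E n → E n) atTop (closedBall Ω.b0 Ω.r1) :=
    (tendstoLocallyUniformlyOn_iff_tendstoUniformlyOn_of_compact
      (isCompact_closedBall Ω.b0 Ω.r1)).mp (hY.mono Ω.hB)
  rw [Metric.tendstoUniformlyOn_iff] at hYu
  have h1 := hYu (1 / 4) (by norm_num)
  obtain ⟨M, hM⟩ := exists_nat_gt (8 * C)
  obtain ⟨j, hj, hjM⟩ := (h1.and (eventually_ge_atTop M)).exists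
  have hjM' : (8 : ℝ) * C ≤ ((φ j : ℕ) : ℝ) + 1 := by
    have : (M : ℝ) ≤ ((φ j : ℕ) : ℝ) := by exact_mod_cast hjM.trans (hφ.id_le j)
    linarith
  have htp := ht (φ j)
  have hfin := hmin (φ j) (X (φ j) + t (φ j) • Y) (3 / 8 * t (φ j)) (by positivity) (by
    intro b hb
    have h2 := hρ (φ j) b hb
    have h3 := hj b hb
    rw [dist_eq_norm] at h3
    have h4 : C * t (φ j) / (((φ j : ℕ) : ℝ) + 1) ≤ 1 / 8 * t (φ j) := by
      rw [div_le_iff₀ (by positivity)]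
      nlinarith
    have h5 : ‖A.β (ρ (φ j)) b - b - t (φ j) • Y b‖ ≤ 1 / 4 * t (φ j) := by
      have h6 : A.β (ρ (φ j)) b - b - t (φ j) • Y b =
          -(t (φ j) • (Y b - (t (φ j))⁻¹ • (A.β (ρ (φ j)) b - b))) := by
        rw [smul_sub, smul_smul, mul_inv_cancel₀ htp.ne', one_smul]
        abel
      rw [h6, norm_neg, norm_smul, Real.norm_of_nonneg htp.le, mul_comm]
      exact mul_le_mul_of_nonneg_right h3.le htp.le
    have h7 : A.β (γ (φ j)) b - b - (X (φ j) + t (φ j) • Y) b =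
        (A.β (ρ (φ j)) b - b - t (φ j) • Y b) -
          (A.β (ρ (φ j)) b - b - (A.β (γ (φ j)) b - b - X (φ j) b)) := by
      rw [Lie.add_apply, Lie.smul_apply]
      abel
    rw [h7]
    refine (norm_sub_le _ _).trans ?_
    linarith)
  linarith

end Pool.Agent.H.MP_e23cd6_ag.AB
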