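import Pool.Agent.H.MP_e23cd6_ag.AB.D6

/-!
ABUN D9: commutators of small group elements.

`comm_est`. Write f = β γ = id + u, g = β δ = id + v, w = γ δ γ⁻¹ δ⁻¹. Fix r' > 0, K = cthickening r' B1 ⊆ D, B1 = closedBall b0 r1.
By `estE` |u|, |v|, |f⁻¹ - id|, |g⁻¹ - id| ≤ C s on K (s ≤ e2). On cthickening (r'/2) B1:
f(g x) - g(f x) = [u(x + v x) - u x] - [v(x + u x) - v x] = Du(x) v x - Dv(x) u x + O(s³) by `cauchy_second`
(|u(x+k) - u x - Du(x) k| ≤ C s |k|², |k| ≤ C s). In particular h(x) = f(g x) - g(f x) is O(s²) on cthickening (r'/2) B1,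
so C s²-Lipschitz on cthickening (r'/4) B1 (`cauchy_lip`). For b ∈ B put x = β (δγ)⁻¹ b = (g f)⁻¹ b, |x - b| ≤ C s (estE applied
twice). β w (g (f x)) = f (g x) because w δ γ = γ δ, so β w b - b = h(x) = h(b) + O(s³), in particular |β w b - b| ≤ C s².
For b ∈ B: |u - X| ≤ C0 s² on B1, and B1 contains the balls of radius r1 - r0 around b, so (`cauchy_fderiv`)
‖Du(b) - DX(b)‖ ≤ C s² and the same for v, Y. |Du(b)|, |DX(b)| ≤ C s, |v b|, |Y b| ≤ C s. Hence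
Du(b) v b - Dv(b) u b = DX(b) Y b - DY(b) X b + O(s³) = brL X Y b + O(s³).
-/

open Set Filter Topology Metric

namespace Pool.Agent.H.MP_e23cd6_ag.AB

variable {n : ℕ} {Ω : Dom n} {Γ : Type} [Group Γ]

/-- commutator of two maps near the identity -/
theorem comm_an {V : Type*} [NormedAddCommGroup V] [NormedSpace ℂ V] {u v : V → V} {x : V}
    {ρ m : ℝ} (hρ : 0 < ρ) (hm : 2 * m < ρ) (hu : DifferentiableOn ℂ u (ball x ρ))
    (hv : DifferentiableOn ℂ v (ball x ρ)) (hum : ∀ y ∈ ball x ρ, ‖u y‖ ≤ m)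
    (hvm : ∀ y ∈ ball x ρ, ‖v y‖ ≤ m) :
    ‖(u (x + v x) - u x - (v (x + u x) - v x)) -
        (fderiv ℂ u x (v x) - fderiv ℂ v x (u x))‖ ≤ 16 * m ^ 3 / ρ ^ 2 ∧
      ‖u (x + v x) - u x - (v (x + u x) - v x)‖ ≤ 12 * m ^ 2 / ρ := by
  have hx : x ∈ ball x ρ := mem_ball_self hρ
  have h1 := hum x hx
  have h2 := hvm x hx
  have hm0 : 0 ≤ m := (norm_nonneg _).trans h1
  have hy1 : x + v x ∈ ball x (ρ / 2) := by
    rw [mem_ball_iff_norm, add_sub_cancel_left]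
    linarith
  have hy2 : x + u x ∈ ball x (ρ / 2) := by
    rw [mem_ball_iff_norm, add_sub_cancel_left]
    linarith
  have e1 := cauchy_second hρ hu hum hy1
  have e2 := cauchy_second hρ hv hvm hy2
  rw [add_sub_cancel_left] at e1 e2
  have d1 := cauchy_fderiv hρ hu hum
  have d2 := cauchy_fderiv hρ hv hvm
  have hcoef : 0 ≤ 8 * m / ρ ^ 2 := by positivity
  have e1' : ‖u (x + v x) - u x - fderiv ℂ u x (v x)‖ ≤ 8 * m / ρ ^ 2 * m ^ 2 :=
    e1.trans (mul_le_mul_of_nonneg_left (pow_le_pow_left₀ (norm_nonneg _) h2 2) hcoef)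
  have e2' : ‖v (x + u x) - v x - fderiv ℂ v x (u x)‖ ≤ 8 * m / ρ ^ 2 * m ^ 2 :=
    e2.trans (mul_le_mul_of_nonneg_left (pow_le_pow_left₀ (norm_nonneg _) h1 2) hcoef)
  have f1 : ‖fderiv ℂ u x (v x)‖ ≤ 2 * m / ρ * m :=
    ((fderiv ℂ u x).le_opNorm _).trans (mul_le_mul d1 h2 (norm_nonneg _) (by positivity))
  have f2 : ‖fderiv ℂ v x (u x)‖ ≤ 2 * m / ρ * m :=
    ((fderiv ℂ v x).le_opNorm _).trans (mul_le_mul d2 h1 (norm_nonneg _) (by positivity))
  have g1 : ‖(u (x + v x) - u x - (v (x + u x) - v x)) -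
      (fderiv ℂ u x (v x) - fderiv ℂ v x (u x))‖ ≤ 16 * m ^ 3 / ρ ^ 2 := by
    have : (u (x + v x) - u x - (v (x + u x) - v x)) -
      (fderiv ℂ u x (v x) - fderiv ℂ v x (u x)) =
      (u (x + v x) - u x - fderiv ℂ u x (v x)) - (v (x + u x) - v x - fderiv ℂ v x (u x)) := by
      abel
    rw [this]
    refine (norm_sub_le _ _).trans ((add_le_add e1' e2').trans (le_of_eq ?_))
    ring
  refine ⟨g1, ?_⟩
  have : u (x + v x) - u x - (v (x + u x) - v x) =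
      ((u (x + v x) - u x - (v (x + u x) - v x)) -
        (fderiv ℂ u x (v x) - fderiv ℂ v x (u x))) + (fderiv ℂ u x (v x) - fderiv ℂ v x (u x)) := by
    abel
  rw [this]
  refine (norm_add_le _ _).trans ((add_le_add g1 ((norm_sub_le _ _).trans
    (add_le_add f1 f2))).trans ?_)
  have e3 : 16 * m ^ 3 / ρ ^ 2 ≤ 8 * m ^ 2 / ρ := by
    rw [div_le_div_iff₀ (by positivity) hρ]
    have : m ^ 2 * ρ * (2 * m) ≤ m ^ 2 * ρ * ρ :=
      mul_le_mul_of_nonneg_left hm.le (by positivity)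
    nlinarith
  calc 16 * m ^ 3 / ρ ^ 2 + (2 * m / ρ * m + 2 * m / ρ * m) ≤
      8 * m ^ 2 / ρ + (2 * m / ρ * m + 2 * m / ρ * m) := by linarith
    _ = 12 * m ^ 2 / ρ := by ring

theorem comm_est (A : BaseAct Ω Γ) (C0 : ℝ) :
    ∃ C e2 : ℝ, 0 < C ∧ 0 < e2 ∧ ∀ (γ δ : Γ) (s : ℝ) (X Y : Lie A), 0 < s → s ≤ e2 →
      (∀ b ∈ Ω.B, ‖A.β γ b - b‖ ≤ s) → (∀ b ∈ Ω.B, ‖A.β δ b - b‖ ≤ s) →
      ‖X‖ ≤ C0 * s → ‖Y‖ ≤ C0 * s →
      (∀ b ∈ closedBall Ω.b0 Ω.r1, ‖A.β γ b - b - X b‖ ≤ C0 * s ^ 2) →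
      (∀ b ∈ closedBall Ω.b0 Ω.r1, ‖A.β δ b - b - Y b‖ ≤ C0 * s ^ 2) →
      ∀ b ∈ Ω.B, ‖A.β (γ * δ * γ⁻¹ * δ⁻¹) b - b‖ ≤ C * s ^ 2 ∧
        ‖A.β (γ * δ * γ⁻¹ * δ⁻¹) b - b - brL A X Y b‖ ≤ C * s ^ 3 := by
  by_cases hC0 : 0 ≤ C0
  swap
  · refine ⟨1, 1, one_pos, one_pos, fun γ δ s X Y hs _ _ _ hX => ?_⟩
    exfalso
    have h1 := (norm_nonneg X).trans hX
    have h2 : C0 * s < 0 := mul_neg_of_neg_of_pos (not_le.1 hC0) hs
    linarith
  obtain ⟨r', hr', hK⟩ := (isCompact_closedBall Ω.b0 Ω.r1).exists_cthickening_subset_open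
    Ω.isOpen Ω.hB
  have hKc : IsCompact (cthickening r' (closedBall Ω.b0 Ω.r1)) :=
    (isCompact_closedBall Ω.b0 Ω.r1).cthickening
  obtain ⟨C1, e0, hC1, he0, hE⟩ := estE A hK hKc
  have hd : 0 < Ω.r1 - Ω.r0 := sub_pos.2 Ω.hr01
  obtain ⟨Ca, hCa⟩ : ∃ Ca : ℝ, Ca = 24 * C1 ^ 2 / r' := ⟨_, rfl⟩
  obtain ⟨Cb, hCb⟩ : ∃ Cb : ℝ, Cb = 16 * Ca * C1 / r' := ⟨_, rfl⟩
  obtain ⟨Cc, hCc⟩ : ∃ Cc : ℝ, Cc = 64 * C1 ^ 3 / r' ^ 2 := ⟨_, rfl⟩
  obtain ⟨Cd, hCd⟩ : ∃ Cd : ℝ, Cd = 4 * C1 * C0 / r' + 2 * C0 ^ 2 / (Ω.r1 - Ω.r0) := ⟨_, rfl⟩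
  have hCa0 : 0 < Ca := by rw [hCa]; positivity
  have hCb0 : 0 < Cb := by rw [hCb]; positivity
  have hCc0 : 0 < Cc := by rw [hCc]; positivity
  have hCd0 : 0 ≤ Cd := by rw [hCd]; positivity
  refine ⟨Ca + Cb + Cc + 2 * Cd, min e0 (r' / (16 * C1)), by positivity,
    lt_min he0 (by positivity), fun γ δ s X Y hs hse hγ hδ hX hY hγX hδY b hb => ?_⟩
  have hs0 : s ≤ e0 := hse.trans (min_le_left _ _)
  have hsr : C1 * s ≤ r' / 16 := by
    have h1 : s ≤ r' / (16 * C1) := hse.trans (min_le_right _ _)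
    rw [le_div_iff₀ (by positivity)] at h1
    linarith
  have hEγ := hE γ s hs.le hs0 hγ
  have hEδ := hE δ s hs.le hs0 hδ
  -- the points near `b`
  have hbB1 : b ∈ closedBall Ω.b0 Ω.r1 := closedBall_subset_closedBall Ω.hr01.le hb
  have hball : ∀ x, dist x b < r' → x ∈ cthickening r' (closedBall Ω.b0 Ω.r1) := by
    intro x hx
    exact closedBall_subset_cthickening hbB1 r' (mem_closedBall.2 hx.le)
  have hbK : b ∈ cthickening r' (closedBall Ω.b0 Ω.r1) := hball b (by rw [dist_self]; exact hr')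
  have hbD : b ∈ Ω.D := hK hbK
  obtain ⟨u, hu⟩ : ∃ u : E n → E n, ∀ y, u y = A.β γ y - y := ⟨fun y => A.β γ y - y, fun _ => rfl⟩
  obtain ⟨v, hv⟩ : ∃ v : E n → E n, ∀ y, v y = A.β δ y - y := ⟨fun y => A.β δ y - y, fun _ => rfl⟩
  have hud : DifferentiableOn ℂ u Ω.D := by
    have : u = fun y => A.β γ y - y := funext hu
    rw [this]
    exact (A.holo γ).sub differentiableOn_id
  have hvd : DifferentiableOn ℂ v Ω.D := by
    have : v = fun y => A.β δ y - y := funext hv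
    rw [this]
    exact (A.holo δ).sub differentiableOn_id
  obtain ⟨h, hh⟩ : ∃ h : E n → E n, ∀ y, h y = A.β γ (A.β δ y) - A.β δ (A.β γ y) :=
    ⟨fun y => A.β γ (A.β δ y) - A.β δ (A.β γ y), fun _ => rfl⟩
  have hhd : DifferentiableOn ℂ h Ω.D := by
    have : h = fun y => A.β γ (A.β δ y) - A.β δ (A.β γ y) := funext hh
    rw [this]
    exact ((A.holo γ).comp (A.holo δ) (A.maps δ)).sub ((A.holo δ).comp (A.holo γ) (A.maps γ))
  have hrep : ∀ x, h x = u (x + v x) - u x - (v (x + u x) - v x) := by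
    intro x
    rw [hh, hu, hu, hv, hv]
    have e1 : x + (A.β δ x - x) = A.β δ x := by abel
    have e2 : x + (A.β γ x - x) = A.β γ x := by abel
    rw [e1, e2]
    abel
  have hest : ∀ x, dist x b < r' / 2 →
      ‖h x - (fderiv ℂ u x (v x) - fderiv ℂ v x (u x))‖ ≤ Cc * s ^ 3 ∧ ‖h x‖ ≤ Ca * s ^ 2 := by
    intro x hx
    have hsub : ∀ y ∈ ball x (r' / 2), y ∈ cthickening r' (closedBall Ω.b0 Ω.r1) := by
      intro y hy
      refine hball y ?_
      have h1 := dist_triangle y x b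
      have h2 := mem_ball.1 hy
      linarith
    have h1 := comm_an (u := u) (v := v) (x := x) (ρ := r' / 2) (m := C1 * s) (by linarith)
      (by linarith) (hud.mono fun y hy => hK (hsub y hy)) (hvd.mono fun y hy => hK (hsub y hy))
      (fun y hy => by rw [hu]; exact (hEγ y (hsub y hy)).1)
      (fun y hy => by rw [hv]; exact (hEδ y (hsub y hy)).1)
    rw [← hrep x] at h1
    refine ⟨h1.1.trans (le_of_eq ?_), h1.2.trans (le_of_eq ?_)⟩
    · rw [hCc]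
      field_simp
      ring
    · rw [hCa]
      field_simp
      ring
  -- the point `x`
  obtain ⟨b', hb'⟩ : ∃ b', b' = A.β δ⁻¹ b := ⟨_, rfl⟩
  obtain ⟨x, hx⟩ : ∃ x, x = A.β γ⁻¹ b' := ⟨_, rfl⟩
  have hb'D : b' ∈ Ω.D := by rw [hb']; exact A.mem _ hbD
  have hxD : x ∈ Ω.D := by rw [hx]; exact A.mem _ hb'D
  have hbb' : dist b' b ≤ C1 * s := by
    rw [hb', dist_eq_norm]
    exact (hEδ b hbK).2
  have hb'K : b' ∈ cthickening r' (closedBall Ω.b0 Ω.r1) := hball b' (by linarith)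
  have hxb' : dist x b' ≤ C1 * s := by
    rw [hx, dist_eq_norm]
    exact (hEγ b' hb'K).2
  have hxb : dist x b ≤ 2 * (C1 * s) := by
    have := dist_triangle x b' b
    linarith
  have hγx : A.β γ x = b' := by rw [hx]; exact A.inv_right γ hb'D
  have hδb' : A.β δ b' = b := by rw [hb']; exact A.inv_right δ hbD
  have hw : A.β (γ * δ * γ⁻¹ * δ⁻¹) b = A.β γ (A.β δ x) := by
    rw [A.mul _ _ _ hbD, ← hb', A.mul _ _ _ hb'D, ← hx, A.mul _ _ _ hxD]
  have hwx : A.β (γ * δ * γ⁻¹ * δ⁻¹) b - b = h x := by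
    rw [hw, hh, hγx, hδb']
  rw [hwx]
  have hx2 := (hest x (by linarith)).2
  have hs2 : 0 < s ^ 2 := by positivity
  have hs3 : 0 < s ^ 3 := by positivity
  refine ⟨?_, ?_⟩
  · refine hx2.trans (mul_le_mul_of_nonneg_right ?_ hs2.le)
    linarith
  · -- `h x - h b`
    have hl : ‖h x - h b‖ ≤ Cb * s ^ 3 := by
      have h1 := cauchy_lip (f := h) (x := b) (r := r' / 2) (m := Ca * s ^ 2) (by linarith)
        (hhd.mono fun y hy => hK (hball y (by
          have := mem_ball.1 hy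
          linarith)))
        (fun y hy => (hest y (mem_ball.1 hy)).2) (y := x) (z := b)
        (mem_ball.2 (by linarith)) (mem_ball_self (by linarith))
      refine h1.trans ?_
      rw [← dist_eq_norm]
      have h2 : 4 * (Ca * s ^ 2) / (r' / 2) * dist x b ≤
          4 * (Ca * s ^ 2) / (r' / 2) * (2 * (C1 * s)) :=
        mul_le_mul_of_nonneg_left hxb (by positivity)
      refine h2.trans (le_of_eq ?_)
      rw [hCb]
      field_simp
      ring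
    have hb3 := (hest b (by rw [dist_self]; linarith)).1
    -- comparison of the derivatives
    have hnb : Ω.D ∈ 𝓝 b := Ω.isOpen.mem_nhds hbD
    have hsub1 : ball b (Ω.r1 - Ω.r0) ⊆ closedBall Ω.b0 Ω.r1 := by
      intro y hy
      have h1 := dist_triangle y b Ω.b0
      have h2 := mem_ball.1 hy
      have h3 := mem_closedBall.1 hb
      exact mem_closedBall.2 (by linarith)
    have hcmp : ∀ (w w' : E n → E n) (Z Z' : Lie A), DifferentiableOn ℂ w Ω.D →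
        (∀ y ∈ cthickening r' (closedBall Ω.b0 Ω.r1), ‖w y‖ ≤ C1 * s) →
        (∀ y ∈ closedBall Ω.b0 Ω.r1, ‖w y - Z y‖ ≤ C0 * s ^ 2) → ‖w' b - Z' b‖ ≤ C0 * s ^ 2 →
        ‖Z'‖ ≤ C0 * s → ‖fderiv ℂ w b (w' b) - fderiv ℂ (Z : E n → E n) b (Z' b)‖ ≤ Cd * s ^ 3 := by
      intro w w' Z Z' hwd hwm hwZ hw'Z' hZ'
      have h1 : ‖fderiv ℂ w b‖ ≤ 2 * (C1 * s) / (r' / 2) :=
        cauchy_fderiv (by linarith) (hwd.mono fun y hy => hK (hball y (by
          have := mem_ball.1 hy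
          linarith))) (fun y hy => hwm y (hball y (by
          have := mem_ball.1 hy
          linarith)))
      have h2 : ‖fderiv ℂ (fun y => w y - Z y) b‖ ≤ 2 * (C0 * s ^ 2) / (Ω.r1 - Ω.r0) :=
        cauchy_fderiv hd ((hwd.sub Z.holo).mono (hsub1.trans Ω.hB)) (fun y hy => hwZ y (hsub1 hy))
      have h3 : fderiv ℂ (fun y => w y - Z y) b = fderiv ℂ w b - fderiv ℂ (Z : E n → E n) b :=
        fderiv_fun_sub (hwd.differentiableAt hnb) (Z.holo.differentiableAt hnb)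
      rw [h3] at h2
      have h4 : fderiv ℂ w b (w' b) - fderiv ℂ (Z : E n → E n) b (Z' b) =
          fderiv ℂ w b (w' b - Z' b) + (fderiv ℂ w b - fderiv ℂ (Z : E n → E n) b) (Z' b) := by
        rw [map_sub, sub_apply]
        abel
      rw [h4]
      have h5 : ‖fderiv ℂ w b (w' b - Z' b)‖ ≤ 2 * (C1 * s) / (r' / 2) * (C0 * s ^ 2) :=
        ((fderiv ℂ w b).le_opNorm _).trans (mul_le_mul h1 hw'Z' (norm_nonneg _) (by positivity))
      have h6 : ‖(fderiv ℂ w b - fderiv ℂ (Z : E n → E n) b) (Z' b)‖ ≤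
          2 * (C0 * s ^ 2) / (Ω.r1 - Ω.r0) * (C0 * s) :=
        ((fderiv ℂ w b - fderiv ℂ (Z : E n → E n) b).le_opNorm _).trans
          (mul_le_mul h2 ((Z'.le_norm hb).trans hZ') (norm_nonneg _) (by positivity))
      refine (norm_add_le _ _).trans ((add_le_add h5 h6).trans (le_of_eq ?_))
      rw [hCd]
      field_simp
      ring
    have k1 := hcmp u v X Y hud (fun y hy => by rw [hu]; exact (hEγ y hy).1)
      (fun y hy => by rw [hu]; exact hγX y hy) (by rw [hv]; exact hδY b hbB1) hY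
    have k2 := hcmp v u Y X hvd (fun y hy => by rw [hv]; exact (hEδ y hy).1)
      (fun y hy => by rw [hv]; exact hδY y hy) (by rw [hu]; exact hγX b hbB1) hX
    rw [brL_apply X Y hbD]
    have hfin : h x - (fderiv ℂ (X : E n → E n) b (Y b) - fderiv ℂ (Y : E n → E n) b (X b)) =
        (h x - h b) + (h b - (fderiv ℂ u b (v b) - fderiv ℂ v b (u b))) +
        ((fderiv ℂ u b (v b) - fderiv ℂ (X : E n → E n) b (Y b)) -
          (fderiv ℂ v b (u b) - fderiv ℂ (Y : E n → E n) b (X b))) := by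
      abel
    rw [hfin]
    refine (norm_add_le _ _).trans ((add_le_add ((norm_add_le _ _).trans (add_le_add hl hb3))
      ((norm_sub_le _ _).trans (add_le_add k1 k2))).trans ?_)
    have : 0 ≤ Ca * s ^ 3 := by positivity
    nlinarith

end Pool.Agent.H.MP_e23cd6_ag.AB
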