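import Mathlib

/-!
ABUN E1: linear algebra for a finite dimensional real normed space P with a bilinear product whose
values span P.

Proof. (1) There is b > 0 such that for every functional φ there are u, v with ‖u‖ ≤ 1, ‖v‖ ≤ 1 and
b ‖φ‖ ≤ |φ (Bk u v)|: the linear map φ ↦ (u ↦ v ↦ φ (Bk u v)) on the (finite dimensional) dual is injective, hence
bounded below; operator norms are almost attained on the unit ball.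
(2) Given S, α ≥ 0, φ. Take u, v from (1). ψ(x) = φ (Bk x v) is a (continuous) functional with
‖ψ‖ ≥ |ψ u| ≥ b‖φ‖; choose x ∈ S with |ψ x| ≥ α‖ψ‖ ≥ α b‖φ‖. ψ'(y) = φ (Bk x y) has ‖ψ'‖ ≥ |ψ' v| ≥ α b ‖φ‖; choose
y ∈ S with |ψ' y| ≥ α‖ψ'‖ ≥ α² b‖φ‖.
-/

namespace Pool.Agent.H.MP_e23cd6_ag.AB

private theorem step_one {P : Type} [NormedAddCommGroup P] [NormedSpace ℝ P] [FiniteDimensional ℝ P]
    (Bk : P →ₗ[ℝ] P →ₗ[ℝ] P) (hB : Submodule.span ℝ {w | ∃ u v, w = Bk u v} = ⊤) :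
    ∃ b : ℝ, 0 < b ∧ ∀ φ : P →L[ℝ] ℝ, ∃ u v : P, ‖u‖ ≤ 1 ∧ ‖v‖ ≤ 1 ∧ b * ‖φ‖ ≤ |φ (Bk u v)| := by
  let Bc : P →L[ℝ] (P →L[ℝ] P) := LinearMap.toContinuousLinearMap
    ((LinearMap.toContinuousLinearMap : (P →ₗ[ℝ] P) ≃ₗ[ℝ] P →L[ℝ] P).toLinearMap ∘ₗ Bk)
  have hBc : ∀ u v, Bc u v = Bk u v := fun u v => rfl
  let T : (P →L[ℝ] ℝ) →ₗ[ℝ] (P →L[ℝ] (P →L[ℝ] ℝ)) :=
    { toFun := fun φ => (ContinuousLinearMap.compL ℝ P P ℝ φ).comp Bc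
      map_add' := by
        intro φ ψ; ext u v; simp
      map_smul' := by
        intro c φ; ext u v; simp }
  have hT : ∀ φ u v, T φ u v = φ (Bk u v) := fun φ u v => rfl
  have hker : LinearMap.ker T = ⊥ := by
    rw [LinearMap.ker_eq_bot']
    intro φ hφ
    have h0 : ∀ x ∈ Submodule.span ℝ {w | ∃ u v, w = Bk u v}, φ x = 0 := by
      intro x hx
      induction hx using Submodule.span_induction with
      | mem w hw =>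
        obtain ⟨u, v, rfl⟩ := hw
        rw [← hT, hφ]; rfl
      | zero => exact map_zero φ
      | add x y _ _ hx hy => rw [map_add, hx, hy, add_zero]
      | smul c x _ hx => rw [map_smul, hx, smul_zero]
    ext x
    exact h0 x (by rw [hB]; trivial)
  obtain ⟨K, hK, hanti⟩ := LinearMap.exists_antilipschitzWith (𝕜 := ℝ) (E := P →L[ℝ] ℝ) (F := P →L[ℝ] (P →L[ℝ] ℝ)) T hker
  have hK' : (0 : ℝ) < K := hK
  refine ⟨1 / (2 * K), by positivity, ?_⟩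
  intro φ
  by_cases hφ : φ = 0
  · refine ⟨0, 0, by simp, by simp, ?_⟩
    simp [hφ]
  have hn : 0 < ‖φ‖ := norm_pos_iff.mpr hφ
  have h1 : ‖φ‖ ≤ K * ‖T φ‖ := by
    have h := hanti.le_mul_dist φ 0
    have h0 : T 0 = 0 := map_zero T
    rw [h0] at h
    have e1 : dist φ 0 = ‖φ‖ := dist_zero_right φ
    have e2 : dist (T φ) 0 = ‖T φ‖ := dist_zero_right (T φ)
    rw [e1] at h
    exact h.trans (le_of_eq (by rw [e2]))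
  have h2 : 1 / (2 * K) * ‖φ‖ < ‖T φ‖ := by
    have h3 : ‖φ‖ / K ≤ ‖T φ‖ := by
      rw [div_le_iff₀ hK']; linarith [mul_comm (K : ℝ) ‖T φ‖]
    have h4 : 1 / (2 * (K : ℝ)) * ‖φ‖ = (‖φ‖ / K) / 2 := by field_simp
    rw [h4]
    have : 0 < ‖φ‖ / K := by positivity
    linarith
  obtain ⟨u, hu, hu'⟩ := ContinuousLinearMap.exists_lt_apply_of_lt_opNorm (T φ) h2
  obtain ⟨v, hv, hv'⟩ := ContinuousLinearMap.exists_lt_apply_of_lt_opNorm (T φ u) hu'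
  refine ⟨u, v, hu.le, hv.le, ?_⟩
  rw [hT, Real.norm_eq_abs] at hv'
  exact hv'.le

theorem two_step {P : Type} [NormedAddCommGroup P] [NormedSpace ℝ P] [FiniteDimensional ℝ P]
    (Bk : P →ₗ[ℝ] P →ₗ[ℝ] P) (hB : Submodule.span ℝ {w | ∃ u v, w = Bk u v} = ⊤) :
    ∃ b : ℝ, 0 < b ∧ ∀ (S : Set P) (α : ℝ), 0 ≤ α →
      (∀ φ : P →L[ℝ] ℝ, ∃ x ∈ S, α * ‖φ‖ ≤ |φ x|) →
      ∀ φ : P →L[ℝ] ℝ, ∃ x ∈ S, ∃ y ∈ S, b * α ^ 2 * ‖φ‖ ≤ |φ (Bk x y)| := by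
  obtain ⟨b, hb, h1⟩ := step_one Bk hB
  refine ⟨b, hb, ?_⟩
  intro S α hα hS φ
  obtain ⟨u, v, hu, hv, huv⟩ := h1 φ
  let ψ : P →L[ℝ] ℝ := LinearMap.toContinuousLinearMap (φ.toLinearMap ∘ₗ Bk.flip v)
  have hψ : ∀ x, ψ x = φ (Bk x v) := fun x => rfl
  have hψn : b * ‖φ‖ ≤ ‖ψ‖ := by
    have h2 : ‖ψ u‖ ≤ ‖ψ‖ * ‖u‖ := ψ.le_opNorm u
    rw [hψ, Real.norm_eq_abs] at h2
    have h3 : ‖ψ‖ * ‖u‖ ≤ ‖ψ‖ * 1 := mul_le_mul_of_nonneg_left hu (norm_nonneg _)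
    linarith
  obtain ⟨x, hxS, hx⟩ := hS ψ
  rw [hψ] at hx
  have hx' : α * (b * ‖φ‖) ≤ |φ (Bk x v)| :=
    (mul_le_mul_of_nonneg_left hψn hα).trans hx
  let ψ' : P →L[ℝ] ℝ := LinearMap.toContinuousLinearMap (φ.toLinearMap ∘ₗ Bk x)
  have hψ' : ∀ y, ψ' y = φ (Bk x y) := fun y => rfl
  have hψn' : α * (b * ‖φ‖) ≤ ‖ψ'‖ := by
    have h2 : ‖ψ' v‖ ≤ ‖ψ'‖ * ‖v‖ := ψ'.le_opNorm v
    rw [hψ', Real.norm_eq_abs] at h2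
    have h3 : ‖ψ'‖ * ‖v‖ ≤ ‖ψ'‖ * 1 := mul_le_mul_of_nonneg_left hv (norm_nonneg _)
    linarith
  obtain ⟨y, hyS, hy⟩ := hS ψ'
  rw [hψ'] at hy
  refine ⟨x, hxS, y, hyS, ?_⟩
  calc b * α ^ 2 * ‖φ‖ = α * (α * (b * ‖φ‖)) := by ring
    _ ≤ α * ‖ψ'‖ := mul_le_mul_of_nonneg_left hψn' hα
    _ ≤ _ := hy

end Pool.Agent.H.MP_e23cd6_ag.AB
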