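import Pool.Agent.H.MP_e23cd6_ag.AB.D8
import Pool.Agent.H.MP_e23cd6_ag.AB.D9
import Pool.Agent.H.MP_e23cd6_ag.AB.E1

/-!
ABUN E2: iterated commutators of small elements realizing an Ad-stable perfect subspace P stay under
control (recursive step and initial set).

`Apx A C γ e X`: γ is e-close to the identity and X is a second order approximation.
`Good`: the set S consists of elements with approximations X whose component outside P is ≤ y, and the
P-components of the approximations detect every functional on P up to the factor α.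

`Apx.mono`: if ‖X‖ ≤ C e etc. and e ≤ e' (0 ≤ e, 0 ≤ C).

`good_step`. C8, e1 from `approx`, C9, e9 from `comm_est` with C0 = C8; b from `two_step` applied to P with the product
brL (maps P × P to P by `br_mem`); let M be a bound: ‖brL X Y‖ ≤ M‖X‖‖Y‖ (finite dimension:
`LinearMap.toContinuousLinearMap`, `LinearMap.mkContinuous₂` or apply continuity twice), ‖p X‖ ≤ M‖X‖.
Let S be good, s, t ∈ S with approximations X, Y, w = s t s⁻¹ t⁻¹. `comm_est`: |β w - id| ≤ C9 e² ≤ C e² =: e' on B and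
|β w b - b - brL X Y b| ≤ C9 e³ on B. If e' ≤ e1, `approx` gives Z with ‖Z‖ ≤ C8 e', |β w - id - Z| ≤ C8 e'^2 on B1: Apx w e' Z.
On B: ‖Z - brL X Y‖ ≤ C9 e³ + C8 C² e⁴ ≤ C' e³.                                         (1)
Write X = pX + X', Y = pY + Y' (X' = X - pX, ‖X'‖ ≤ y, ‖X'‖ ≤ (1+M) C8 e). brL X Y - brL X' Y' ∈ P by `br_mem` (and
antisymmetry), so with Q = id - p (zero on P): Q Z = Q (brL X' Y') + O(e³), ‖Z - pZ‖ ≤ C (y² + e³).
p Z = brL (pX) (pY) + [terms with a factor X' or Y'] + O(e³), so ‖pZ - brL pX pY‖ ≤ C (e³ + e y).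
Functionals: apply `two_step` to the set {p X | s ∈ S, X approximation as in Good}: for φ there are s, t, X, Y with
|φ (brL pX pY)| ≥ b α²‖φ‖, so |φ (pZ)| ≥ (b α² - C (e³ + e y))‖φ‖.

`good_init`. X_1, ..., X_d a basis of P (finite). Linear functionals: c0 ‖φ‖ ≤ max_i |φ X_i|, c0 > 0 (as in E1). For ε > 0
small apply `realize` (compact set B1) to ε X_i with s = ε m, m = 1 + max ‖X_i‖: elements s_i with
|β s_i - id - ε X_i| ≤ C2 m² ε² on B1. S0 = {s_1..s_d}, X = ε X_i ∈ P so X - pX = 0. Apx with e = C1 ε for C1 large: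
|β s_i - id| ≤ ε m + C2 m² ε² ≤ C1 ε, ‖ε X_i‖ ≤ ε m ≤ C8 C1 ε, C2 m² ε² ≤ C8 C1² ε².
-/

open Set Filter Topology Metric

namespace Pool.Agent.H.MP_e23cd6_ag.AB

variable {n : ℕ} {Ω : Dom n} {Γ : Type} [Group Γ]

/-- the set of commutators of elements of `S` -/
def comSet (S : Set Γ) : Set Γ := {w | ∃ s ∈ S, ∃ t ∈ S, w = s * t * s⁻¹ * t⁻¹}

/-- `γ` is `e`-close to the identity with second order approximation `X` -/
def Apx (A : BaseAct Ω Γ) (C : ℝ) (γ : Γ) (e : ℝ) (X : Lie A) : Prop :=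
  (∀ b ∈ Ω.B, ‖A.β γ b - b‖ ≤ e) ∧ ‖X‖ ≤ C * e ∧
    ∀ b ∈ closedBall Ω.b0 Ω.r1, ‖A.β γ b - b - X b‖ ≤ C * e ^ 2

/-- see the header -/
def Good (A : BaseAct Ω Γ) (P : Submodule ℝ (Lie A)) (p : Lie A →L[ℝ] P) (C e y α : ℝ)
    (S : Set Γ) : Prop :=
  (∀ s ∈ S, ∃ X : Lie A, Apx A C s e X ∧ ‖X - (p X : Lie A)‖ ≤ y) ∧
  ∀ φ : P →L[ℝ] ℝ, ∃ s ∈ S, ∃ X : Lie A, Apx A C s e X ∧ ‖X - (p X : Lie A)‖ ≤ y ∧
    α * ‖φ‖ ≤ |φ (p X)|

theorem Good.mono {A : BaseAct Ω Γ} {P : Submodule ℝ (Lie A)} {p : Lie A →L[ℝ] P}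
    {C e y α e' y' α' : ℝ} {S : Set Γ} (h : Good A P p C e y α S) (hC : 0 ≤ C) (he0 : 0 ≤ e)
    (he : e ≤ e') (hy : y ≤ y') (hα : α' ≤ α) : Good A P p C e' y' α' S := by
  have hA : ∀ {s : Γ} {X : Lie A}, Apx A C s e X → Apx A C s e' X := fun hX =>
    ⟨fun b hb => (hX.1 b hb).trans he, hX.2.1.trans (mul_le_mul_of_nonneg_left he hC),
      fun b hb => (hX.2.2 b hb).trans
        (mul_le_mul_of_nonneg_left (pow_le_pow_left₀ he0 he 2) hC)⟩
  refine ⟨fun s hs => ?_, fun φ => ?_⟩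
  · obtain ⟨X, hX, hXy⟩ := h.1 s hs
    exact ⟨X, hA hX, hXy.trans hy⟩
  · obtain ⟨s, hs, X, hX, hXy, hφ⟩ := h.2 φ
    exact ⟨s, hs, X, hA hX, hXy.trans hy,
      (mul_le_mul_of_nonneg_right hα φ.opNorm_nonneg).trans hφ⟩

theorem E2_bound (A : BaseAct Ω Γ) :
    ∃ M : ℝ, 0 < M ∧ ∀ X Y : Lie A, ‖brL A X Y‖ ≤ M * ‖X‖ * ‖Y‖ := by
  set T : Lie A →L[ℝ] Lie A →L[ℝ] Lie A := LinearMap.toContinuousLinearMap
    ((LinearMap.toContinuousLinearMap : (Lie A →ₗ[ℝ] Lie A) ≃ₗ[ℝ] (Lie A →L[ℝ] Lie A)).toLinearMap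
      ∘ₗ brL A) with hT
  refine ⟨‖T‖ + 1, by positivity, fun X Y => ?_⟩
  have h1 : ‖T X Y‖ ≤ ‖T‖ * ‖X‖ * ‖Y‖ := T.le_opNorm₂ X Y
  have h2 : T X Y = brL A X Y := rfl
  rw [← h2]
  refine h1.trans ?_
  have := mul_nonneg (norm_nonneg X) (norm_nonneg Y)
  nlinarith

/-- the product on `P` -/
noncomputable def E2_Bk (A : BaseAct Ω Γ) (P : Submodule ℝ (Lie A))
    (hP : ∀ δ, ∀ X ∈ P, AdL A δ X ∈ P) : P →ₗ[ℝ] P →ₗ[ℝ] P :=
  LinearMap.mk₂ ℝ (fun X Y => (⟨brL A X Y, br_mem hP X.2 Y⟩ : P))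
    (fun X X' Y => Subtype.ext (by
      show brL A ((X : Lie A) + X') Y = brL A X Y + brL A X' Y
      rw [map_add, LinearMap.add_apply]))
    (fun c X Y => Subtype.ext (by
      show brL A (c • (X : Lie A)) Y = c • brL A X Y
      rw [map_smul, LinearMap.smul_apply]))
    (fun X Y Y' => Subtype.ext (by
      show brL A X ((Y : Lie A) + Y') = brL A X Y + brL A X Y'
      rw [map_add]))
    (fun c X Y => Subtype.ext (by
      show brL A X (c • (Y : Lie A)) = c • brL A X Y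
      rw [map_smul]))

theorem E2_Bk_coe (A : BaseAct Ω Γ) (P : Submodule ℝ (Lie A))
    (hP : ∀ δ, ∀ X ∈ P, AdL A δ X ∈ P) (X Y : P) :
    ((E2_Bk A P hP X Y : P) : Lie A) = brL A X Y := rfl

theorem E2_span (A : BaseAct Ω Γ) (P : Submodule ℝ (Lie A))
    (hP : ∀ δ, ∀ X ∈ P, AdL A δ X ∈ P)
    (hperf : P ≤ Submodule.span ℝ {Z | ∃ X ∈ P, ∃ Y ∈ P, Z = brL A X Y}) :
    Submodule.span ℝ {w | ∃ u v, w = E2_Bk A P hP u v} = ⊤ := by
  rw [eq_top_iff]
  rintro w -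
  have h1 : (w : Lie A) ∈ Submodule.map P.subtype
      (Submodule.span ℝ {w | ∃ u v, w = E2_Bk A P hP u v}) := by
    rw [Submodule.map_span]
    refine Submodule.span_mono ?_ (hperf w.2)
    rintro Z ⟨X, hX, Y, hY, rfl⟩
    exact ⟨E2_Bk A P hP ⟨X, hX⟩ ⟨Y, hY⟩, ⟨_, _, rfl⟩, rfl⟩
  obtain ⟨w', hw', hww⟩ := Submodule.mem_map.1 h1
  have : w' = w := Subtype.ext hww
  rwa [← this]

/-- the estimates for one commutator -/
theorem E2_core (A : BaseAct Ω Γ) (P : Submodule ℝ (Lie A))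
    (hP : ∀ δ, ∀ X ∈ P, AdL A δ X ∈ P)
    (p : Lie A →L[ℝ] P) (hp : ∀ X : P, p X = X) :
    ∃ C8 C e2 : ℝ, 0 < C8 ∧ 0 < C ∧ 0 < e2 ∧
      ∀ (s t : Γ) (e y : ℝ) (X Y : Lie A), 0 < e → e ≤ e2 → 0 ≤ y →
        Apx A C8 s e X → ‖X - (p X : Lie A)‖ ≤ y → Apx A C8 t e Y → ‖Y - (p Y : Lie A)‖ ≤ y →
        ∃ Z : Lie A, Apx A C8 (s * t * s⁻¹ * t⁻¹) (C * e ^ 2) Z ∧
          ‖Z - (p Z : Lie A)‖ ≤ C * (y ^ 2 + e ^ 3) ∧
          ‖p Z - E2_Bk A P hP (p X) (p Y)‖ ≤ C * (e ^ 3 + e * y) := by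
  obtain ⟨C8, e1, hC8, he1, happ⟩ := approx A
  obtain ⟨C9, e9, hC9, he9, hcom⟩ := comm_est A C8
  obtain ⟨M, hM, hbr⟩ := E2_bound A
  set N : ℝ := ‖p‖ with hN
  have hN0 : 0 ≤ N := p.opNorm_nonneg
  have hpN : ∀ X : Lie A, ‖p X‖ ≤ N * ‖X‖ := fun X => p.le_opNorm X
  have hpN' : ∀ X : Lie A, ‖(p X : Lie A)‖ ≤ N * ‖X‖ := hpN
  set K1 : ℝ := C9 + C8 * C9 ^ 2 with hK1
  have hK1p : 0 < K1 := by positivity
  set C : ℝ := C9 + (1 + N) * (K1 + M) + N * (K1 + M * C8 * (N + 1)) with hC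
  have hCp : 0 < C := by positivity
  refine ⟨C8, C, min (min e9 1) (e1 / C9), hC8, hCp,
    lt_min (lt_min he9 one_pos) (div_pos he1 hC9), ?_⟩
  intro s t e y X Y he hee hy hX hXy hY hYy
  have h9 : e ≤ e9 := hee.trans ((min_le_left _ _).trans (min_le_left _ _))
  have h1 : e ≤ 1 := hee.trans ((min_le_left _ _).trans (min_le_right _ _))
  have h2 : e ≤ e1 / C9 := hee.trans (min_le_right _ _)
  have h3 : C9 * e ^ 2 ≤ e1 := by
    rw [le_div_iff₀ hC9] at h2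
    nlinarith [mul_nonneg hC9.le he.le, mul_nonneg (mul_nonneg hC9.le he.le) (sub_nonneg.2 h1)]
  have hc := hcom s t e X Y he h9 hX.1 hY.1 hX.2.1 hY.2.1 hX.2.2 hY.2.2
  obtain ⟨Z, hZ1, hZ2⟩ := happ (s * t * s⁻¹ * t⁻¹) (C9 * e ^ 2) (by positivity) h3
    (fun b hb => (hc b hb).1)
  have hCge : C9 ≤ C := by
    rw [hC]
    have : 0 ≤ (1 + N) * (K1 + M) + N * (K1 + M * C8 * (N + 1)) := by positivity
    linarith
  have hle : C9 * e ^ 2 ≤ C * e ^ 2 := mul_le_mul_of_nonneg_right hCge (by positivity)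
  have hZapx : Apx A C8 (s * t * s⁻¹ * t⁻¹) (C * e ^ 2) Z :=
    ⟨fun b hb => (hc b hb).1.trans hle, hZ1.trans (mul_le_mul_of_nonneg_left hle hC8.le),
      fun b hb => (hZ2 b hb).trans (mul_le_mul_of_nonneg_left
        (pow_le_pow_left₀ (by positivity) hle 2) hC8.le)⟩
  set W : Lie A := brL A X Y with hW
  -- (1)
  have hZW : ‖Z - W‖ ≤ K1 * e ^ 3 := by
    rw [Lie.norm_le _ (by positivity)]
    intro b hb
    rw [Lie.sub_apply]
    have h4 := (hc b hb).2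
    have h5 := hZ2 b (closedBall_subset_closedBall Ω.hr01.le hb)
    have h6 : Z b - W b = (A.β (s * t * s⁻¹ * t⁻¹) b - b - brL A X Y b) -
        (A.β (s * t * s⁻¹ * t⁻¹) b - b - Z b) := by rw [hW]; abel
    rw [h6]
    refine (norm_sub_le _ _).trans ((add_le_add h4 h5).trans ?_)
    have h7 : C8 * (C9 * e ^ 2) ^ 2 ≤ C8 * C9 ^ 2 * e ^ 3 := by
      have : (C9 * e ^ 2) ^ 2 = C9 ^ 2 * (e ^ 3 * e) := by ring
      rw [this, mul_assoc]
      refine mul_le_mul_of_nonneg_left (mul_le_mul_of_nonneg_left ?_ (by positivity)) hC8.le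
      exact mul_le_of_le_one_right (by positivity) h1
    rw [hK1, add_mul]
    linarith
  set X' : Lie A := X - (p X : Lie A) with hX'
  set Y' : Lie A := Y - (p Y : Lie A) with hY'
  have hXn : ‖X‖ ≤ C8 * e := hX.2.1
  have hYn : ‖Y‖ ≤ C8 * e := hY.2.1
  have hpXn : ‖(p X : Lie A)‖ ≤ N * (C8 * e) := (hpN' X).trans (mul_le_mul_of_nonneg_left hXn hN0)
  have eX : X = (p X : Lie A) + X' := by rw [hX']; abel
  have eY : Y = (p Y : Lie A) + Y' := by rw [hY']; abel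
  -- decomposition of the bracket
  have hmem : W - brL A X' Y' ∈ P := by
    have h4 : W - brL A X' Y' = brL A (p X : Lie A) Y + brL A X' (p Y : Lie A) := by
      have h5 : W = brL A (p X : Lie A) Y + brL A X' Y := by
        rw [hW]
        conv_lhs => rw [eX]
        rw [map_add, LinearMap.add_apply]
      have h6 : brL A X' Y = brL A X' (p Y : Lie A) + brL A X' Y' := by
        conv_lhs => rw [eY]
        rw [map_add]
      rw [h5, h6]; abel
    rw [h4, brL_anti X' _]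
    exact P.add_mem (br_mem hP (p X).2 Y) (P.neg_mem (br_mem hP (p Y).2 X'))
  have hpW : (p (W - brL A X' Y') : Lie A) = W - brL A X' Y' :=
    congrArg Subtype.val (hp ⟨_, hmem⟩)
  refine ⟨Z, hZapx, ?_, ?_⟩
  · have h4 : Z - (p Z : Lie A) = ((Z - W) - (p (Z - W) : Lie A)) +
        (brL A X' Y' - (p (brL A X' Y') : Lie A)) := by
      have h5 : (p Z : Lie A) = (p (Z - W) : Lie A) + (p (W - brL A X' Y') : Lie A) +
          (p (brL A X' Y') : Lie A) := by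
        rw [← Submodule.coe_add, ← Submodule.coe_add, ← map_add, ← map_add]
        congr 2
        abel
      rw [h5, hpW]; abel
    have h6 : ∀ U : Lie A, ‖U - (p U : Lie A)‖ ≤ (1 + N) * ‖U‖ := fun U => by
      refine (norm_sub_le _ _).trans ?_
      have := hpN' U
      linarith
    have h7 : ‖brL A X' Y'‖ ≤ M * y ^ 2 := by
      refine (hbr X' Y').trans ?_
      rw [mul_assoc, pow_two]
      exact mul_le_mul_of_nonneg_left (mul_le_mul hXy hYy (norm_nonneg _) hy) hM.le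
    rw [h4]
    refine (norm_add_le _ _).trans ((add_le_add (h6 _) (h6 _)).trans ?_)
    have h8 : (1 + N) * ‖Z - W‖ ≤ (1 + N) * (K1 * e ^ 3) :=
      mul_le_mul_of_nonneg_left hZW (by positivity)
    have h9 : (1 + N) * ‖brL A X' Y'‖ ≤ (1 + N) * (M * y ^ 2) :=
      mul_le_mul_of_nonneg_left h7 (by positivity)
    have h10 : (1 + N) * (K1 + M) ≤ C := by
      rw [hC]
      have : 0 ≤ C9 + N * (K1 + M * C8 * (N + 1)) := by positivity
      linarith
    have h11 : (1 + N) * K1 ≤ C := le_trans (by nlinarith [mul_nonneg (by positivity : (0:ℝ) ≤ 1 + N) hM.le]) h10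
    have h12 : (1 + N) * M ≤ C := le_trans (by nlinarith [mul_nonneg (by positivity : (0:ℝ) ≤ 1 + N) hK1p.le]) h10
    calc (1 + N) * ‖Z - W‖ + (1 + N) * ‖brL A X' Y'‖
        ≤ (1 + N) * K1 * e ^ 3 + (1 + N) * M * y ^ 2 := by linarith
      _ ≤ C * e ^ 3 + C * y ^ 2 := add_le_add
          (mul_le_mul_of_nonneg_right h11 (by positivity))
          (mul_le_mul_of_nonneg_right h12 (by positivity))
      _ = C * (y ^ 2 + e ^ 3) := by ring
  · have h4 : p Z - E2_Bk A P hP (p X) (p Y) =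
        p (Z - W) + p (brL A (p X : Lie A) Y' + brL A X' Y) := by
      have h5 : E2_Bk A P hP (p X) (p Y) = p (brL A (p X : Lie A) (p Y : Lie A)) :=
        (hp (E2_Bk A P hP (p X) (p Y))).symm
      have h6 : W = brL A (p X : Lie A) (p Y : Lie A) + (brL A (p X : Lie A) Y' + brL A X' Y) := by
        have h7 : W = brL A (p X : Lie A) Y + brL A X' Y := by
          rw [hW]
          conv_lhs => rw [eX]
          rw [map_add, LinearMap.add_apply]
        have h8 : brL A (p X : Lie A) Y =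
            brL A (p X : Lie A) (p Y : Lie A) + brL A (p X : Lie A) Y' := by
          conv_lhs => rw [eY]
          rw [map_add]
        rw [h7, h8]; abel
      rw [h5]
      have h9 : p W = p (brL A (p X : Lie A) (p Y : Lie A)) +
          p (brL A (p X : Lie A) Y' + brL A X' Y) := by rw [← map_add, ← h6]
      rw [map_sub, h9]; abel
    have h5 : ‖brL A (p X : Lie A) Y' + brL A X' Y‖ ≤ M * C8 * (N + 1) * (e * y) := by
      refine (norm_add_le _ _).trans ?_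
      have h6 : ‖brL A (p X : Lie A) Y'‖ ≤ M * (N * (C8 * e)) * y :=
        (hbr _ _).trans (mul_le_mul (mul_le_mul_of_nonneg_left hpXn hM.le) hYy (norm_nonneg _)
          (by positivity))
      have h7 : ‖brL A X' Y‖ ≤ M * y * (C8 * e) :=
        (hbr _ _).trans (mul_le_mul (mul_le_mul_of_nonneg_left hXy hM.le) hYn (norm_nonneg _)
          (by positivity))
      calc _ ≤ M * (N * (C8 * e)) * y + M * y * (C8 * e) := add_le_add h6 h7
        _ = M * C8 * (N + 1) * (e * y) := by ring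
    rw [h4]
    refine (norm_add_le _ _).trans ((add_le_add (hpN _) (hpN _)).trans ?_)
    have h8 : N * ‖Z - W‖ ≤ N * (K1 * e ^ 3) := mul_le_mul_of_nonneg_left hZW hN0
    have h9 := mul_le_mul_of_nonneg_left h5 hN0
    have h10 : N * K1 ≤ C ∧ N * (M * C8 * (N + 1)) ≤ C := by
      have h11 : 0 ≤ N * (M * C8 * (N + 1)) := by positivity
      have h12 : 0 ≤ N * K1 := by positivity
      have h13 : 0 ≤ (1 + N) * (K1 + M) := by positivity
      constructor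
      · rw [hC]; nlinarith
      · rw [hC]; nlinarith
    calc N * ‖Z - W‖ + N * ‖brL A (p X : Lie A) Y' + brL A X' Y‖
        ≤ N * K1 * e ^ 3 + N * (M * C8 * (N + 1)) * (e * y) := by linarith
      _ ≤ C * e ^ 3 + C * (e * y) := add_le_add
          (mul_le_mul_of_nonneg_right h10.1 (by positivity))
          (mul_le_mul_of_nonneg_right h10.2 (by positivity))
      _ = C * (e ^ 3 + e * y) := by ring

/-- one step of the recursion -/
theorem good_step (A : BaseAct Ω Γ) (P : Submodule ℝ (Lie A))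
    (hP : ∀ δ, ∀ X ∈ P, AdL A δ X ∈ P)
    (hperf : P ≤ Submodule.span ℝ {Z | ∃ X ∈ P, ∃ Y ∈ P, Z = brL A X Y})
    (p : Lie A →L[ℝ] P) (hp : ∀ X : P, p X = X) :
    ∃ C8 C b e2 : ℝ, 0 < C8 ∧ 0 < C ∧ 0 < b ∧ 0 < e2 ∧
      (∀ (S : Set Γ) (e y α : ℝ), 0 < e → e ≤ e2 → 0 ≤ y → 0 ≤ α → Good A P p C8 e y α S →
        Good A P p C8 (C * e ^ 2) (C * (y ^ 2 + e ^ 3)) (b * α ^ 2 - C * (e ^ 3 + e * y))
          (comSet S)) := by
  obtain ⟨C8, C, e2, hC8, hC, he2, hcore⟩ := E2_core A P hP p hp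
  obtain ⟨b, hb, htwo⟩ := two_step (E2_Bk A P hP) (E2_span A P hP hperf)
  refine ⟨C8, C, b, e2, hC8, hC, hb, he2, fun S e y α he hee hy hα hS => ⟨?_, ?_⟩⟩
  · rintro w ⟨s, hs, t, ht, rfl⟩
    obtain ⟨X, hX, hXy⟩ := hS.1 s hs
    obtain ⟨Y, hY, hYy⟩ := hS.1 t ht
    obtain ⟨Z, hZ, hZy, -⟩ := hcore s t e y X Y he hee hy hX hXy hY hYy
    exact ⟨Z, hZ, hZy⟩
  · intro φ
    obtain ⟨x, ⟨s, hs, X, hX, hXy, rfl⟩, x', ⟨t, ht, Y, hY, hYy, rfl⟩, hφ⟩ := htwo
      {x : P | ∃ s ∈ S, ∃ X : Lie A, Apx A C8 s e X ∧ ‖X - (p X : Lie A)‖ ≤ y ∧ x = p X} α hα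
      (fun φ => by
        obtain ⟨s, hs, X, hX, hXy, h⟩ := hS.2 φ
        exact ⟨p X, ⟨s, hs, X, hX, hXy, rfl⟩, h⟩) φ
    obtain ⟨Z, hZ, hZy, hZB⟩ := hcore s t e y X Y he hee hy hX hXy hY hYy
    refine ⟨s * t * s⁻¹ * t⁻¹, ⟨s, hs, t, ht, rfl⟩, Z, hZ, hZy, ?_⟩
    have h1 : |φ (p Z) - φ (E2_Bk A P hP (p X) (p Y))| ≤ ‖φ‖ * (C * (e ^ 3 + e * y)) := by
      rw [← map_sub, ← Real.norm_eq_abs]
      exact (φ.le_opNorm _).trans (mul_le_mul_of_nonneg_left hZB φ.opNorm_nonneg)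
    have h2 := abs_sub_abs_le_abs_sub (φ (E2_Bk A P hP (p X) (p Y))) (φ (p Z))
    rw [abs_sub_comm] at h2
    nlinarith

theorem E2_fun {V : Type} [NormedAddCommGroup V] [NormedSpace ℝ V] [FiniteDimensional ℝ V]
    [Nontrivial V] :
    ∃ (d : ℕ) (v : Fin d → V) (c0 : ℝ), 0 < c0 ∧
      ∀ φ : V →L[ℝ] ℝ, ∃ i, c0 * ‖φ‖ ≤ |φ (v i)| := by
  set b := Module.finBasis ℝ V with hb
  set T : (V →L[ℝ] ℝ) →ₗ[ℝ] (Fin (Module.finrank ℝ V) → ℝ) :=
    { toFun := fun φ i => φ (b i)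
      map_add' := fun _ _ => rfl
      map_smul' := fun _ _ => rfl } with hT
  have hker : LinearMap.ker T = ⊥ := by
    rw [LinearMap.ker_eq_bot']
    intro φ hφ
    have h1 : (φ : V →ₗ[ℝ] ℝ) = 0 := b.ext fun i => congrFun hφ i
    ext v
    exact LinearMap.congr_fun h1 v
  obtain ⟨K, hK, hanti⟩ := T.exists_antilipschitzWith hker
  have hd : 0 < Module.finrank ℝ V := Module.finrank_pos
  have : Nonempty (Fin (Module.finrank ℝ V)) := ⟨⟨0, hd⟩⟩
  have hK' : (0 : ℝ) < K := by exact_mod_cast hK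
  refine ⟨_, b, (K : ℝ)⁻¹, by positivity, fun φ => ?_⟩
  obtain ⟨i, hi⟩ := Finite.exists_max fun i => |φ (b i)|
  refine ⟨i, ?_⟩
  have h1 : ‖φ‖ ≤ K * ‖T φ‖ := by
    have := hanti.le_mul_dist φ 0
    rwa [dist_zero_right, map_zero, dist_zero_right] at this
  have h2 : ‖T φ‖ ≤ |φ (b i)| := (pi_norm_le_iff_of_nonneg (abs_nonneg _)).2 fun j => hi j
  rw [inv_mul_le_iff₀ hK']
  exact h1.trans (mul_le_mul_of_nonneg_left h2 hK'.le)

/-- the initial set -/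
theorem good_init (A : BaseAct Ω Γ) (P : Submodule ℝ (Lie A)) (p : Lie A →L[ℝ] P)
    (hp : ∀ X : P, p X = X) {C8 : ℝ} (hC8 : 0 < C8) (hPne : P ≠ ⊥) :
    ∃ C1 ρ c : ℝ, 0 < C1 ∧ 0 < ρ ∧ 0 < c ∧ ∀ ε : ℝ, 0 < ε → ε ≤ ρ →
      ∃ S0 : Set Γ, S0.Finite ∧ Good A P p C8 (C1 * ε) 0 (c * ε) S0 := by
  have : Nontrivial P := Submodule.nontrivial_iff_ne_bot.2 hPne
  obtain ⟨d, v, c0, hc0, hv⟩ := E2_fun (V := P)
  obtain ⟨C2, ρ2, hC2, hρ2, hreal⟩ := realize A Ω.hB (isCompact_closedBall Ω.b0 Ω.r1)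
  set m : ℝ := 1 + ∑ i, ‖v i‖ with hm
  have hm1 : 1 ≤ m := by
    rw [hm]
    have : 0 ≤ ∑ i, ‖v i‖ := Finset.sum_nonneg fun _ _ => norm_nonneg _
    linarith
  have hmv : ∀ i, ‖v i‖ ≤ m := fun i => by
    have := Finset.single_le_sum (f := fun i => ‖v i‖) (fun _ _ => norm_nonneg _)
      (Finset.mem_univ i)
    rw [hm]
    linarith
  have hm0 : 0 < m := by linarith
  set C1 : ℝ := 1 + m + C2 * m ^ 2 + m / C8 + C2 * m ^ 2 / C8 with hC1
  have hC1p : 1 ≤ C1 := by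
    rw [hC1]
    have : 0 ≤ m + C2 * m ^ 2 + m / C8 + C2 * m ^ 2 / C8 := by positivity
    linarith
  have hC1pos : 0 < C1 := by linarith
  refine ⟨C1, min 1 (ρ2 / m), c0, hC1pos, lt_min one_pos (by positivity), hc0,
    fun ε hε hερ => ?_⟩
  have hε1 : ε ≤ 1 := hερ.trans (min_le_left _ _)
  have hε2 : ε * m ≤ ρ2 := by
    have := hερ.trans (min_le_right _ _)
    rwa [le_div_iff₀ hm0] at this
  have hex : ∀ i, ∃ γ : Γ, ∀ b ∈ closedBall Ω.b0 Ω.r1,
      ‖A.β γ b - b - (ε • (v i : Lie A)) b‖ ≤ C2 * (ε * m) ^ 2 := by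
    intro i
    obtain ⟨γ, hγ⟩ := hreal (ε • (v i : Lie A) : Lie A) (Lie.isLim _) (ε * m) (by positivity) hε2
      (fun b hb => by
        refine (Lie.le_norm _ hb).trans ?_
        rw [norm_smul, Real.norm_of_nonneg hε.le]
        exact mul_le_mul_of_nonneg_left (hmv i) hε.le)
    exact ⟨γ, fun b hb => (hγ b hb).1⟩
  choose g hg using hex
  have hapx : ∀ i, Apx A C8 (g i) (C1 * ε) (ε • (v i : Lie A)) := by
    intro i
    have hn : ‖(ε • (v i : Lie A) : Lie A)‖ ≤ ε * m := by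
      rw [norm_smul, Real.norm_of_nonneg hε.le]
      exact mul_le_mul_of_nonneg_left (hmv i) hε.le
    refine ⟨fun b hb => ?_, ?_, fun b hb => (hg i b hb).trans ?_⟩
    · have h1 := hg i b (closedBall_subset_closedBall Ω.hr01.le hb)
      have h2 : A.β (g i) b - b = (A.β (g i) b - b - (ε • (v i : Lie A)) b) +
          (ε • (v i : Lie A)) b := by abel
      rw [h2]
      refine (norm_add_le _ _).trans ((add_le_add h1 ((Lie.le_norm _ hb).trans hn)).trans ?_)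
      have h3 : C2 * (ε * m) ^ 2 ≤ C2 * m ^ 2 * ε := by
        have : C2 * (ε * m) ^ 2 = C2 * m ^ 2 * ε * ε := by ring
        rw [this]
        exact mul_le_of_le_one_right (by positivity) hε1
      have h4 : (C2 * m ^ 2 + m) * ε ≤ C1 * ε := by
        refine mul_le_mul_of_nonneg_right ?_ hε.le
        rw [hC1]
        have : 0 ≤ m / C8 + C2 * m ^ 2 / C8 := by positivity
        linarith
      linarith
    · refine hn.trans ?_
      have h3 : m ≤ C8 * C1 := by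
        have h5 : C8 * (m / C8) = m := by field_simp
        have h6 : C8 * (m / C8) ≤ C8 * C1 := by
          refine mul_le_mul_of_nonneg_left ?_ hC8.le
          rw [hC1]
          have : 0 ≤ 1 + m + C2 * m ^ 2 + C2 * m ^ 2 / C8 := by positivity
          linarith
        rwa [h5] at h6
      nlinarith
    · have h3 : C2 * m ^ 2 ≤ C8 * C1 ^ 2 := by
        have h5 : C8 * (C2 * m ^ 2 / C8) = C2 * m ^ 2 := by field_simp
        have h6 : C8 * (C2 * m ^ 2 / C8) ≤ C8 * C1 := by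
          refine mul_le_mul_of_nonneg_left ?_ hC8.le
          rw [hC1]
          have : 0 ≤ 1 + m + C2 * m ^ 2 + m / C8 := by positivity
          linarith
        rw [h5] at h6
        refine h6.trans (mul_le_mul_of_nonneg_left ?_ hC8.le)
        nlinarith
      have h7 := mul_le_mul_of_nonneg_right h3 (by positivity : (0:ℝ) ≤ ε ^ 2)
      calc C2 * (ε * m) ^ 2 = C2 * m ^ 2 * ε ^ 2 := by ring
        _ ≤ C8 * C1 ^ 2 * ε ^ 2 := h7
        _ = C8 * (C1 * ε) ^ 2 := by ring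
  have hpv : ∀ i, p (ε • (v i : Lie A)) = ε • v i := fun i => by rw [map_smul, hp]
  have hzero : ∀ i, ‖(ε • (v i : Lie A) : Lie A) - (p (ε • (v i : Lie A)) : Lie A)‖ ≤ 0 := by
    intro i
    rw [hpv, Submodule.coe_smul, sub_self, norm_zero]
  refine ⟨Set.range g, Set.finite_range g, ?_, ?_⟩
  · rintro s ⟨i, rfl⟩
    exact ⟨_, hapx i, hzero i⟩
  · intro φ
    obtain ⟨i, hi⟩ := hv φ
    refine ⟨g i, ⟨i, rfl⟩, _, hapx i, hzero i, ?_⟩
    rw [hpv, map_smul, smul_eq_mul, abs_mul, abs_of_pos hε]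
    nlinarith

end Pool.Agent.H.MP_e23cd6_ag.AB
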