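import Mathlib

/-!
ABUN E2num: the numerical recursion.

Define e, y, α by the recursion (`Nat.rec`). Let x = C² ε (so C e 0 = x), z = (c b/2) ε, and let ε > 0 be so small that
x ≤ 1, x ≤ q, x ≤ C e2, and the conditions (i)-(iii) below hold; put κ = x/z = 2 C²/(c b), independent of ε.
* e k = x^(2^k)/C: induction (C e (k+1) = (C e k)²). So 0 < e k ≤ x/C ≤ e2 and e k ≤ q^(2^k).
* y k ≤ (2/C²) (x^(3/2))^(2^k) and 0 ≤ y k: put s = √x, so x^(3/2) = s³. y 0 = 0. Induction: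
  C (y k² + e k³) ≤ C (4/C⁴ + 1/C³) s^(3·2^(k+1)) ≤ (2/C²) s^(3·2^(k+1)) because C ≥ 4. And y k ≤ e k: (2/C²) s^(3·2^k) ≤
  s^(2·2^k)/C since 2/C ≤ 1, s ≤ 1.
* α k ≥ (2/b) z^(2^k): α 0 = c ε = (2/b) z. Induction: b α k² ≥ (4/b) z^(2^(k+1)) and
  C (e k³ + e k y k) ≤ (1/C²) s^(6·2^k) + (2/C²) s^(5·2^k) ≤ (3/C²) s^(5·2^k) = (3/C²) (s κ²)^(2^k) z^(2·2^k) as
  s^5 = s x², x = κ z. (i) s κ² ≤ 1 and (ii) (3/C²) s κ² ≤ 2/b give ≤ (2/b) z^(2^(k+1)).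
* C e k² = x^(2·2^k)/C = (x²/z)^(2^k) z^(2^k)/C < (2/b) z^(2^k) if (iii) x²/z ≤ 1 and x²/z < 2 C/b
  (x²/z = κ x → 0 as ε → 0).
-/

namespace Pool.Agent.H.MP_e23cd6_ag.AB

theorem num_seq {C b c q e2 : ℝ} (hC : 4 ≤ C) (hb : 0 < b) (hc : 0 < c) (hq : 0 < q)
    (he : 0 < e2) :
    ∃ ε : ℝ, 0 < ε ∧ ε < q ∧ ∃ e y α : ℕ → ℝ,
      e 0 = C * ε ∧ y 0 = 0 ∧ α 0 = c * ε ∧
      (∀ k, e (k + 1) = C * e k ^ 2) ∧
      (∀ k, y (k + 1) = C * (y k ^ 2 + e k ^ 3)) ∧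
      (∀ k, α (k + 1) = b * α k ^ 2 - C * (e k ^ 3 + e k * y k)) ∧
      ∀ k, 0 < e k ∧ e k ≤ e2 ∧ e k ≤ q ^ (2 ^ k) ∧ 0 ≤ y k ∧ y k ≤ e k ∧ 0 < α k ∧
        C * e k ^ 2 < α k := by
  have hC0 : 0 < C := by linarith
  obtain ⟨κ, hκ⟩ : ∃ κ : ℝ, κ = 2 * C ^ 2 / (c * b) := ⟨_, rfl⟩
  have hκ0 : 0 < κ := by rw [hκ]; positivity
  obtain ⟨s, hs0, hs1, hs2, hs3, hs4, hs5, hs6, hs7⟩ : ∃ s : ℝ, 0 < s ∧ s ≤ 1 ∧ s ≤ q ∧
      s ≤ C * e2 ∧ s ≤ 1 / κ ^ 2 ∧ s ≤ 2 * C ^ 2 / (3 * b * κ ^ 2) ∧ s ≤ 1 / κ ∧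
      s ≤ C / (b * κ) := by
    refine ⟨min 1 (min q (min (C * e2) (min (1 / κ ^ 2) (min (2 * C ^ 2 / (3 * b * κ ^ 2))
      (min (1 / κ) (C / (b * κ))))))), by positivity, ?_, ?_, ?_, ?_, ?_, ?_, ?_⟩ <;>
      simp
  have hss : s ^ 2 ≤ s := by nlinarith
  have hs4' : s * κ ^ 2 ≤ 1 := by rwa [le_div_iff₀ (by positivity)] at hs4
  have hs5' : 3 * b * (s * κ ^ 2) ≤ 2 * C ^ 2 := by
    rw [le_div_iff₀ (by positivity)] at hs5
    linarith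
  have hs6' : κ * s ^ 2 ≤ 1 := by
    rw [le_div_iff₀ hκ0] at hs6
    nlinarith
  have hs7' : b * (κ * s ^ 2) ≤ C := by
    rw [le_div_iff₀ (by positivity)] at hs7
    have h1 : b * κ * s ^ 2 ≤ b * κ * s := mul_le_mul_of_nonneg_left hss (by positivity)
    linarith
  obtain ⟨z, hz⟩ : ∃ z : ℝ, z = s ^ 2 / κ := ⟨_, rfl⟩
  have hz0 : 0 < z := by rw [hz]; positivity
  have hsz : s ^ 2 = κ * z := by rw [hz]; field_simp
  let e : ℕ → ℝ := fun k => (s ^ 2 ^ k) ^ 2 / C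
  let y : ℕ → ℝ := fun k => Nat.rec (motive := fun _ => ℝ) 0 (fun k yk => C * (yk ^ 2 + e k ^ 3)) k
  let α : ℕ → ℝ := fun k => Nat.rec (motive := fun _ => ℝ) (c * (s ^ 2 / C ^ 2))
    (fun k ak => b * ak ^ 2 - C * (e k ^ 3 + e k * y k)) k
  have hy1 : ∀ k, y (k + 1) = C * (y k ^ 2 + e k ^ 3) := fun k => rfl
  have hα1 : ∀ k, α (k + 1) = b * α k ^ 2 - C * (e k ^ 3 + e k * y k) := fun k => rfl
  have hP0 : ∀ k, 0 < s ^ 2 ^ k := fun k => pow_pos hs0 _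
  have hP1 : ∀ k, s ^ 2 ^ k ≤ 1 := fun k => pow_le_one₀ hs0.le hs1
  have hPs : ∀ k, s ^ 2 ^ k ≤ s := fun k =>
    pow_le_of_le_one hs0.le hs1 (pow_ne_zero k two_ne_zero)
  have hPP : ∀ k, s ^ 2 ^ (k + 1) = (s ^ 2 ^ k) ^ 2 := fun k => by rw [pow_succ, pow_mul]
  have hQQ : ∀ k, z ^ 2 ^ (k + 1) = (z ^ 2 ^ k) ^ 2 := fun k => by rw [pow_succ, pow_mul]
  have hQ0 : ∀ k, 0 < z ^ 2 ^ k := fun k => pow_pos hz0 _
  have hy : ∀ k, 0 ≤ y k ∧ y k ≤ 2 / C ^ 2 * (s ^ 2 ^ k) ^ 3 := by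
    intro k
    induction k with
    | zero => exact ⟨le_rfl, by show (0 : ℝ) ≤ _; positivity⟩
    | succ k ih =>
      rw [hy1, hPP]
      have hP := hP0 k
      constructor
      · have h1 : 0 ≤ e k := by positivity
        have h2 := ih.1
        positivity
      · have h1 : y k ^ 2 ≤ (2 / C ^ 2 * (s ^ 2 ^ k) ^ 3) ^ 2 := pow_le_pow_left₀ ih.1 ih.2 2
        show C * (y k ^ 2 + ((s ^ 2 ^ k) ^ 2 / C) ^ 3) ≤ _
        generalize s ^ 2 ^ k = P at *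
        calc C * (y k ^ 2 + (P ^ 2 / C) ^ 3)
            ≤ C * ((2 / C ^ 2 * P ^ 3) ^ 2 + (P ^ 2 / C) ^ 3) :=
              mul_le_mul_of_nonneg_left (by linarith) hC0.le
          _ = (4 / C + 1) / C ^ 2 * P ^ 6 := by field_simp; ring
          _ ≤ 2 / C ^ 2 * P ^ 6 := by
              apply mul_le_mul_of_nonneg_right _ (by positivity)
              apply div_le_div_of_nonneg_right _ (by positivity)
              have h3 : 4 / C ≤ 1 := by rw [div_le_one hC0]; exact hC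
              linarith
          _ = 2 / C ^ 2 * (P ^ 2) ^ 3 := by ring
  have hye : ∀ k, y k ≤ e k := by
    intro k
    refine (hy k).2.trans ?_
    show _ ≤ (s ^ 2 ^ k) ^ 2 / C
    have hP := hP0 k
    have hP' := hP1 k
    generalize s ^ 2 ^ k = P at *
    have h1 : 2 / C ^ 2 * P ^ 3 = (2 / C * P) * (P ^ 2 / C) := by field_simp
    rw [h1]
    have h2 : 2 / C ≤ 1 := by rw [div_le_one hC0]; linarith
    have h3 : 2 / C * P ≤ 1 := mul_le_one₀ h2 hP.le hP'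
    have h4 : 0 ≤ P ^ 2 / C := by positivity
    nlinarith
  have hrel : ∀ k, (s ^ 2 ^ k) ^ 5 = (s * κ ^ 2) ^ 2 ^ k * (z ^ 2 ^ k) ^ 2 := by
    intro k
    rw [← pow_mul, ← pow_mul, mul_comm (2 ^ k) 5, mul_comm (2 ^ k) 2, pow_mul, pow_mul z,
      ← mul_pow]
    congr 1
    calc s ^ 5 = s * (s ^ 2) ^ 2 := by ring
      _ = s * κ ^ 2 * z ^ 2 := by rw [hsz]; ring
  have hα : ∀ k, 2 / b * z ^ 2 ^ k ≤ α k := by
    intro k
    induction k with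
    | zero =>
      show _ ≤ c * (s ^ 2 / C ^ 2)
      rw [pow_zero, pow_one, hz, hκ]
      apply le_of_eq
      field_simp
    | succ k ih =>
      rw [hα1, hQQ]
      have hP := hP0 k
      have hP' := hP1 k
      have hQ := hQ0 k
      have h1 : (2 / b * z ^ 2 ^ k) ^ 2 ≤ α k ^ 2 := pow_le_pow_left₀ (by positivity) ih 2
      have h2 : C * (e k ^ 3 + e k * y k) ≤ 3 / C ^ 2 * (s ^ 2 ^ k) ^ 5 := by
        have h3 : e k * y k ≤ e k * (2 / C ^ 2 * (s ^ 2 ^ k) ^ 3) :=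
          mul_le_mul_of_nonneg_left (hy k).2 (by positivity)
        have h4 : e k = (s ^ 2 ^ k) ^ 2 / C := rfl
        rw [h4] at h3 ⊢
        generalize s ^ 2 ^ k = P at *
        calc C * ((P ^ 2 / C) ^ 3 + P ^ 2 / C * y k)
            ≤ C * ((P ^ 2 / C) ^ 3 + P ^ 2 / C * (2 / C ^ 2 * P ^ 3)) :=
              mul_le_mul_of_nonneg_left (by linarith) hC0.le
          _ = 1 / C ^ 2 * (P * P ^ 5 + 2 * P ^ 5) := by field_simp
          _ ≤ 1 / C ^ 2 * (1 * P ^ 5 + 2 * P ^ 5) := by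
              apply mul_le_mul_of_nonneg_left _ (by positivity)
              have h5 : P * P ^ 5 ≤ 1 * P ^ 5 := mul_le_mul_of_nonneg_right hP' (by positivity)
              linarith
          _ = 3 / C ^ 2 * P ^ 5 := by ring
      have h5 : (s * κ ^ 2) ^ 2 ^ k ≤ s * κ ^ 2 :=
        pow_le_of_le_one (by positivity) hs4' (pow_ne_zero k two_ne_zero)
      have h6 : 3 / C ^ 2 * (s ^ 2 ^ k) ^ 5 ≤ 2 / b * (z ^ 2 ^ k) ^ 2 := by
        rw [hrel]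
        have h7 : (s * κ ^ 2) ^ 2 ^ k * (z ^ 2 ^ k) ^ 2 ≤ s * κ ^ 2 * (z ^ 2 ^ k) ^ 2 :=
          mul_le_mul_of_nonneg_right h5 (by positivity)
        have h8 : 3 / C ^ 2 * (s * κ ^ 2) ≤ 2 / b := by
          rw [div_mul_eq_mul_div, div_le_div_iff₀ (by positivity) hb]
          linarith
        calc 3 / C ^ 2 * ((s * κ ^ 2) ^ 2 ^ k * (z ^ 2 ^ k) ^ 2)
            ≤ 3 / C ^ 2 * (s * κ ^ 2 * (z ^ 2 ^ k) ^ 2) :=
              mul_le_mul_of_nonneg_left h7 (by positivity)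
          _ = 3 / C ^ 2 * (s * κ ^ 2) * (z ^ 2 ^ k) ^ 2 := by ring
          _ ≤ 2 / b * (z ^ 2 ^ k) ^ 2 := mul_le_mul_of_nonneg_right h8 (by positivity)
      have h9 : b * (2 / b * z ^ 2 ^ k) ^ 2 = 4 / b * (z ^ 2 ^ k) ^ 2 := by
        field_simp
        ring
      have h10 : b * (2 / b * z ^ 2 ^ k) ^ 2 ≤ b * α k ^ 2 :=
        mul_le_mul_of_nonneg_left h1 hb.le
      have h11 : 4 / b * (z ^ 2 ^ k) ^ 2 = 2 / b * (z ^ 2 ^ k) ^ 2 + 2 / b * (z ^ 2 ^ k) ^ 2 := by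
        ring
      linarith
  have hα0 : ∀ k, 0 < α k := fun k =>
    lt_of_lt_of_le (mul_pos (by positivity) (hQ0 k)) (hα k)
  refine ⟨s ^ 2 / C ^ 2, by positivity, ?_, e, y, α, ?_, rfl, rfl, ?_, hy1, hα1, ?_⟩
  · rw [div_lt_iff₀ (by positivity)]
    nlinarith [hq, sq_nonneg (C - 4), mul_pos hq hC0]
  · show (s ^ 2 ^ 0) ^ 2 / C = _
    rw [pow_zero, pow_one]
    field_simp
  · intro k
    show (s ^ 2 ^ (k + 1)) ^ 2 / C = C * ((s ^ 2 ^ k) ^ 2 / C) ^ 2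
    rw [hPP]
    field_simp
  · intro k
    have hP := hP0 k
    have hP' := hPs k
    have hP1' := hP1 k
    have hek : e k = (s ^ 2 ^ k) ^ 2 / C := rfl
    have hPsq : (s ^ 2 ^ k) ^ 2 ≤ s := by nlinarith
    refine ⟨by positivity, ?_, ?_, (hy k).1, hye k, hα0 k, ?_⟩
    · rw [hek, div_le_iff₀ hC0]
      linarith
    · rw [hek]
      calc (s ^ 2 ^ k) ^ 2 / C ≤ (s ^ 2 ^ k) ^ 2 / 1 :=
            div_le_div_of_nonneg_left (by positivity) one_pos (by linarith)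
        _ = (s ^ 2 ^ k) ^ 2 := div_one _
        _ ≤ s ^ 2 ^ k := by nlinarith
        _ ≤ q ^ 2 ^ k := pow_le_pow_left₀ hs0.le hs2 _
    · refine lt_of_lt_of_le ?_ (hα k)
      rw [hek]
      have h1 : ((s ^ 2 ^ k) ^ 2) ^ 2 = (κ * s ^ 2) ^ 2 ^ k * z ^ 2 ^ k := by
        rw [← pow_mul, ← pow_mul, ← mul_pow, mul_assoc, mul_comm (2 ^ k) (2 * 2), pow_mul]
        congr 1
        calc s ^ (2 * 2) = (s ^ 2) * (s ^ 2) := by ring
          _ = (κ * z) * (s ^ 2) := by rw [← hsz]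
          _ = κ * (s ^ 2 * z) := by ring
      have h2 : (κ * s ^ 2) ^ 2 ^ k ≤ κ * s ^ 2 :=
        pow_le_of_le_one (by positivity) hs6' (pow_ne_zero k two_ne_zero)
      have h3 : C * ((s ^ 2 ^ k) ^ 2 / C) ^ 2 = ((s ^ 2 ^ k) ^ 2) ^ 2 / C := by
        field_simp
      rw [h3, h1, div_lt_iff₀ hC0]
      have hQ := hQ0 k
      calc (κ * s ^ 2) ^ 2 ^ k * z ^ 2 ^ k ≤ κ * s ^ 2 * z ^ 2 ^ k :=
            mul_le_mul_of_nonneg_right h2 hQ.le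
        _ ≤ C / b * z ^ 2 ^ k := by
            apply mul_le_mul_of_nonneg_right _ hQ.le
            rw [le_div_iff₀ hb]
            linarith
        _ < 2 / b * z ^ 2 ^ k * C := by
            have h4 : 0 < C / b * z ^ 2 ^ k := by positivity
            have h5 : 2 / b * z ^ 2 ^ k * C = C / b * z ^ 2 ^ k + C / b * z ^ 2 ^ k := by ring
            linarith

end Pool.Agent.H.MP_e23cd6_ag.AB
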