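import Pool.Agent.H.MP_e23cd6_ag.AB.E2
import Pool.Agent.H.MP_e23cd6_ag.AB.E2num

/-!
ABUN E2b: for a nonzero perfect Ad-stable subspace P there are finite sets of group elements all of whose
iterated commutator sets are doubly exponentially small but contain nontrivial elements.

Proof. p : Lie A → P a continuous linear projection (finite dimension: `Submodule.ClosedComplemented`, or
`Submodule.exists_isCompl` + `LinearMap.toContinuousLinearMap`). C8, C, b, e2 from `good_step`, C1, ρ, c from `good_init`. Let C' be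
the maximum of 4, C, C1, ‖p‖ C8, and apply `num_seq` with C', b, c and q' = min q ρ: ε < q', sequences e, y, α. `good_init`
and `Good.mono` give S0 with Good (e 0) (y 0) (α 0); by induction Good (e k) (y k) (α k) (comSet^[k] S0) (`good_step`, `Good.mono`
with C ≤ C'; Function.iterate_succ_apply'). Smallness: Apx gives |β s b - b| ≤ e k ≤ q^(2^k) on B.
Nontrivial element: P ≠ ⊥, so there is a functional φ with ‖φ‖ = 1 (Hahn-Banach, `exists_dual_vector`). Take s, X from Good: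
α k ≤ |φ (p X)| ≤ ‖p‖‖X‖. If β s b = b for all b ∈ D then Apx gives ‖X‖ ≤ C8 (e k)², so α k ≤ ‖p‖ C8 (e k)² ≤ C' (e k)² < α k.
Contradiction.
-/

open Set Filter Topology Metric

namespace Pool.Agent.H.MP_e23cd6_ag.AB

variable {n : ℕ} {Ω : Dom n} {Γ : Type} [Group Γ]

theorem small_comm (A : BaseAct Ω Γ) (P : Submodule ℝ (Lie A))
    (hP : ∀ δ, ∀ X ∈ P, AdL A δ X ∈ P) (hPne : P ≠ ⊥)
    (hperf : P ≤ Submodule.span ℝ {Z | ∃ X ∈ P, ∃ Y ∈ P, Z = brL A X Y})
    {q : ℝ} (hq : 0 < q) :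
    ∃ S0 : Set Γ, S0.Finite ∧ ∀ k : ℕ,
      (∀ s ∈ comSet^[k] S0, ∀ b ∈ Ω.B, ‖A.β s b - b‖ ≤ q ^ (2 ^ k)) ∧
      ∃ s ∈ comSet^[k] S0, ∃ b ∈ Ω.D, A.β s b ≠ b := by
  obtain ⟨p, hp⟩ : ∃ p : Lie A →L[ℝ] P, ∀ X : P, p X = X := by
    obtain ⟨Q, hQ⟩ := P.exists_isCompl
    exact ⟨LinearMap.toContinuousLinearMap (Submodule.projectionOnto P Q hQ),
      fun X => Submodule.projectionOnto_apply_left hQ X⟩
  obtain ⟨C8, C, b, e2, hC8, hC, hb, he2, hstep⟩ := good_step A P hP hperf p hp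
  obtain ⟨C1, ρ, c, hC1, hρ, hc, hinit⟩ := good_init A P p hp hC8 hPne
  obtain ⟨C', h4, hCC, hC1C, hpC⟩ : ∃ C' : ℝ, 4 ≤ C' ∧ C ≤ C' ∧ C1 ≤ C' ∧ ‖p‖ * C8 ≤ C' :=
    ⟨max (max 4 C) (max C1 (‖p‖ * C8)), (le_max_left _ _).trans (le_max_left _ _),
      (le_max_right _ _).trans (le_max_left _ _), (le_max_left _ _).trans (le_max_right _ _),
      (le_max_right _ _).trans (le_max_right _ _)⟩
  obtain ⟨ε, hε, hεq, e, y, α, he0, hy0, hα0, he, hy, hα, hk⟩ :=
    num_seq (C := C') (b := b) (c := c) (q := min q ρ) (e2 := e2) h4 hb hc (lt_min hq hρ) he2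
  obtain ⟨S0, hfin, hgood0⟩ := hinit ε hε (hεq.le.trans (min_le_right _ _))
  have hg : ∀ k, Good A P p C8 (e k) (y k) (α k) (comSet^[k] S0) := by
    intro k
    induction k with
    | zero =>
      refine hgood0.mono hC8.le (by positivity) ?_ ?_ ?_
      · rw [he0]
        exact mul_le_mul_of_nonneg_right hC1C hε.le
      · rw [hy0]
      · rw [hα0]
    | succ k ih =>
      rw [Function.iterate_succ_apply']
      obtain ⟨h1, h2, h3, h4, h5, h6, h7⟩ := hk k
      refine (hstep _ _ _ _ h1 h2 h4 h6.le ih).mono hC8.le (by positivity) ?_ ?_ ?_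
      · rw [he]
        exact mul_le_mul_of_nonneg_right hCC (by positivity)
      · rw [hy]
        exact mul_le_mul_of_nonneg_right hCC (by positivity)
      · rw [hα]
        have : C * (e k ^ 3 + e k * y k) ≤ C' * (e k ^ 3 + e k * y k) :=
          mul_le_mul_of_nonneg_right hCC (by positivity)
        linarith
  have hPn : Nontrivial P := Submodule.nontrivial_iff_ne_bot.2 hPne
  obtain ⟨v, hv⟩ := exists_ne (0 : P)
  obtain ⟨φ, hφ, -⟩ := exists_dual_vector ℝ v (norm_ne_zero_iff.2 hv)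
  refine ⟨S0, hfin, fun k => ⟨?_, ?_⟩⟩
  · intro s hs b hb
    obtain ⟨X, hX, -⟩ := (hg k).1 s hs
    obtain ⟨h1, h2, h3, h4, h5, h6, h7⟩ := hk k
    refine (hX.1 b hb).trans (h3.trans ?_)
    exact pow_le_pow_left₀ (le_min hq.le hρ.le) (min_le_left _ _) _
  · obtain ⟨s, hs, X, hX, -, hαφ⟩ := (hg k).2 φ
    obtain ⟨h1, h2, h3, h4, h5, h6, h7⟩ := hk k
    refine ⟨s, hs, ?_⟩
    by_contra hno
    push Not at hno
    have hXn : ‖X‖ ≤ C8 * e k ^ 2 := by
      rw [X.norm_le (by positivity)]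
      intro b hb
      have h8 := hX.2.2 b (closedBall_subset_closedBall Ω.hr01.le hb)
      rw [hno b (Ω.B_sub hb), sub_self, zero_sub, norm_neg] at h8
      exact h8
    rw [hφ, mul_one] at hαφ
    have h9 : |φ (p X)| ≤ ‖p‖ * ‖X‖ := by
      have h10 := φ.le_opNorm (p X)
      rw [hφ, one_mul, Real.norm_eq_abs] at h10
      exact h10.trans (p.le_opNorm X)
    have h11 : ‖p‖ * ‖X‖ ≤ C' * e k ^ 2 := by
      refine (mul_le_mul_of_nonneg_left hXn (norm_nonneg p)).trans ?_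
      rw [← mul_assoc]
      exact mul_le_mul_of_nonneg_right hpC (by positivity)
    linarith

end Pool.Agent.H.MP_e23cd6_ag.AB
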