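import Pool.Agent.H.MP_e23cd6_ag.AB.C1
import Pool.Agent.H.MP_e23cd6_ag.AB.A6

/-!
ABUN E3a: one step estimates for commutators in the affine action: logarithm of the linear part and
translation part.

Common part. Apply `estE` to the compact set closedBall b0 r1: C1, e0 with |β γ b - b|, |β γ⁻¹ b - b| ≤ C1 e there whenever
|β γ - id| ≤ e ≤ e0 on B. Let g = ρ - ρ', w = s t s⁻¹ t⁻¹ and assume e ≤ κ g with κ small (κ ≤ 1/(16 C1), κ (r1 - r0) ≤ e0).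
For b' ∈ ball b0 ρ' put b1 = β t⁻¹ b', b = β s⁻¹ b1: |b1 - b'| ≤ C1 e ≤ g/16, |b - b1| ≤ C1 e (b1 ∈ closedBall b0 r1), so
b ∈ ball b0 (ρ' + g/8), and β t b, β s b ∈ ball b (g/16). b' = β t (β s b) = β (t s) b, and w (t s) = s t. b depends holomorphically on b'.

`log_step`. lw(b') = ls (β t b) - ls b + lt b - lt (β s b), b = β s⁻¹ (β t⁻¹ b'): holomorphic on ball b0 ρ'. exp (lw b') =
a_s(β t b) a_t(b) / (a_t(β s b) a_s(b)) = a_{st}(b)/a_{ts}(b) = a_w(b') because a_{w (ts)}(b) = a_w(β (ts) b) a_{ts}(b).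
ls, lt are bounded by Λ on ball b (g/2) ⊆ ball b0 ρ, so by `cauchy_lip`
|ls y - ls z| ≤ (8 Λ/g)|y - z| for y, z ∈ ball b (g/4): |lw b'| ≤ 2 (8 Λ/g) C1 e.

`c_step`. From c_{w (ts)}(b) = a_w(b') c_{ts}(b) + c_w(b') and w (ts) = st:
c_w(b') = c_{st}(b) - a_w(b') c_{ts}(b)
 = [c_s(β t b) - c_s b] - [c_t(β s b) - c_t b] + (a_s(β t b) - 1) c_t b - (a_t(β s b) - 1) c_s b + (1 - a_w(b')) c_{ts}(b),
|c_{ts}(b)| = |a_t(β s b) c_s b + c_t(β s b)| ≤ (2 + δ) M. So |c_w b'| ≤ 2 (8 M/g) C1 e + 2 δ M + δ' (2 + δ) M.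
-/

open Set Filter Topology Metric

namespace Pool.Agent.H.MP_e23cd6_ag.AB

variable {n : ℕ} {Ω : Dom n} {Γ : Type} [Group Γ]

/-- The common part of the two estimates. -/
theorem E3a_common (A : BaseAct Ω Γ) :
    ∃ C1 κ : ℝ, 0 < C1 ∧ 0 < κ ∧ ∀ (s t : Γ) (ρ ρ' e : ℝ),
      0 < ρ' → ρ' < ρ → ρ ≤ Ω.r1 → 0 ≤ e → e ≤ κ * (ρ - ρ') →
      (∀ b ∈ Ω.B, ‖A.β s b - b‖ ≤ e) → (∀ b ∈ Ω.B, ‖A.β t b - b‖ ≤ e) →
      ∀ b' ∈ ball Ω.b0 ρ', A.β s⁻¹ (A.β t⁻¹ b') ∈ ball Ω.b0 (ρ' + (ρ - ρ') / 8) ∧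
        A.β s⁻¹ (A.β t⁻¹ b') ∈ Ω.D ∧
        ball (A.β s⁻¹ (A.β t⁻¹ b')) ((ρ - ρ') / 2) ⊆ ball Ω.b0 ρ ∧
        A.β t (A.β s⁻¹ (A.β t⁻¹ b')) ∈ ball (A.β s⁻¹ (A.β t⁻¹ b')) ((ρ - ρ') / 2 / 2) ∧
        A.β s (A.β s⁻¹ (A.β t⁻¹ b')) ∈ ball (A.β s⁻¹ (A.β t⁻¹ b')) ((ρ - ρ') / 2 / 2) ∧
        ‖A.β t (A.β s⁻¹ (A.β t⁻¹ b')) - A.β s⁻¹ (A.β t⁻¹ b')‖ ≤ C1 * e ∧
        ‖A.β s (A.β s⁻¹ (A.β t⁻¹ b')) - A.β s⁻¹ (A.β t⁻¹ b')‖ ≤ C1 * e ∧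
        A.β (t * s) (A.β s⁻¹ (A.β t⁻¹ b')) = b' := by
  obtain ⟨C1, e0, hC1, he0, hE⟩ := estE A Ω.hB (isCompact_closedBall Ω.b0 Ω.r1)
  have hr1 : 0 < Ω.r1 := Ω.hr0.trans Ω.hr01
  refine ⟨C1, min (1 / (16 * C1)) (e0 / Ω.r1), hC1, lt_min (by positivity) (by positivity), ?_⟩
  intro s t ρ ρ' e hρ' hρ hρ1 he hek hs ht b' hb'
  have hg : 0 < ρ - ρ' := by linarith
  have h1 : e ≤ e0 := by
    refine hek.trans ((mul_le_mul_of_nonneg_right (min_le_right _ _) hg.le).trans ?_)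
    rw [div_mul_eq_mul_div, div_le_iff₀ hr1]
    exact mul_le_mul_of_nonneg_left (by linarith) he0.le
  have h2 : C1 * e ≤ (ρ - ρ') / 16 := by
    have h3 : e ≤ 1 / (16 * C1) * (ρ - ρ') :=
      hek.trans (mul_le_mul_of_nonneg_right (min_le_left _ _) hg.le)
    calc C1 * e ≤ C1 * (1 / (16 * C1) * (ρ - ρ')) := mul_le_mul_of_nonneg_left h3 hC1.le
      _ = (ρ - ρ') / 16 := by field_simp
  have hb'1 : b' ∈ closedBall Ω.b0 Ω.r1 := by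
    rw [mem_closedBall]; rw [mem_ball] at hb'; linarith
  have hb'D : b' ∈ Ω.D := Ω.hB hb'1
  have hd1 := (hE t e he h1 ht b' hb'1).2
  set b1 := A.β t⁻¹ b' with hb1
  have hb1b : dist b1 Ω.b0 < ρ' + (ρ - ρ') / 16 := by
    rw [mem_ball] at hb'
    have := dist_triangle b1 b' Ω.b0
    rw [dist_eq_norm b1 b'] at this
    linarith
  have hb1c : b1 ∈ closedBall Ω.b0 Ω.r1 := by rw [mem_closedBall]; linarith
  have hb1D : b1 ∈ Ω.D := Ω.hB hb1c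
  have hd2 := (hE s e he h1 hs b1 hb1c).2
  set b := A.β s⁻¹ b1 with hb
  have hbb : dist b Ω.b0 < ρ' + (ρ - ρ') / 8 := by
    have := dist_triangle b b1 Ω.b0
    rw [dist_eq_norm b b1] at this
    linarith
  have hbc : b ∈ closedBall Ω.b0 Ω.r1 := by rw [mem_closedBall]; linarith
  have hbD : b ∈ Ω.D := Ω.hB hbc
  have hd3 := (hE t e he h1 ht b hbc).1
  have hd4 := (hE s e he h1 hs b hbc).1
  refine ⟨hbb, hbD, ?_, ?_, ?_, hd3, hd4, ?_⟩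
  · refine ball_subset_ball' ?_
    linarith
  · rw [mem_ball, dist_eq_norm]; linarith
  · rw [mem_ball, dist_eq_norm]; linarith
  · rw [A.mul _ _ _ hbD, hb, A.inv_right s hb1D, hb1, A.inv_right t hb'D]

/-- The linear part of the commutator. -/
theorem E3a_a (A : AffAct Ω Γ) (s t : Γ) {b b' : E n} (hb : b ∈ Ω.D)
    (hb' : A.β (t * s) b = b') :
    A.a (s * t * s⁻¹ * t⁻¹) b' * (A.a t (A.β s b) * A.a s b) = A.a s (A.β t b) * A.a t b := by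
  have h1 := A.a_mul (s * t * s⁻¹ * t⁻¹) (t * s) b hb
  rw [show s * t * s⁻¹ * t⁻¹ * (t * s) = s * t by group, hb', A.a_mul s t b hb,
    A.a_mul t s b hb] at h1
  exact h1.symm

/-- The translation part of the commutator. -/
theorem E3a_c (A : AffAct Ω Γ) (s t : Γ) {b b' : E n} (hb : b ∈ Ω.D)
    (hb' : A.β (t * s) b = b') :
    A.c (s * t * s⁻¹ * t⁻¹) b' = (A.a s (A.β t b) * A.c t b + A.c s (A.β t b)) -
      A.a (s * t * s⁻¹ * t⁻¹) b' * (A.a t (A.β s b) * A.c s b + A.c t (A.β s b)) := by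
  have h1 := A.c_mul (s * t * s⁻¹ * t⁻¹) (t * s) b hb
  rw [show s * t * s⁻¹ * t⁻¹ * (t * s) = s * t by group, hb', A.c_mul s t b hb,
    A.c_mul t s b hb] at h1
  rw [h1]; ring

theorem log_step (A : AffAct Ω Γ) :
    ∃ C κ : ℝ, 0 < C ∧ 0 < κ ∧ ∀ (s t : Γ) (ls lt : E n → ℂ) (ρ ρ' Λ e : ℝ),
      0 < ρ' → ρ' < ρ → ρ ≤ Ω.r1 → 0 ≤ e → e ≤ κ * (ρ - ρ') →
      (∀ b ∈ Ω.B, ‖A.β s b - b‖ ≤ e) → (∀ b ∈ Ω.B, ‖A.β t b - b‖ ≤ e) →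
      DifferentiableOn ℂ ls (ball Ω.b0 ρ) → DifferentiableOn ℂ lt (ball Ω.b0 ρ) →
      (∀ b ∈ ball Ω.b0 ρ, Complex.exp (ls b) = A.a s b ∧ ‖ls b‖ ≤ Λ) →
      (∀ b ∈ ball Ω.b0 ρ, Complex.exp (lt b) = A.a t b ∧ ‖lt b‖ ≤ Λ) →
      ∃ lw : E n → ℂ, DifferentiableOn ℂ lw (ball Ω.b0 ρ') ∧
        ∀ b ∈ ball Ω.b0 ρ', Complex.exp (lw b) = A.a (s * t * s⁻¹ * t⁻¹) b ∧
          ‖lw b‖ ≤ C * Λ * e / (ρ - ρ') := by
  obtain ⟨C1, κ, hC1, hκ, hcom⟩ := E3a_common A.toBaseAct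
  refine ⟨16 * C1, κ, by positivity, hκ, ?_⟩
  intro s t ls lt ρ ρ' Λ e hρ' hρ hρ1 he hek hs ht hls hlt hls2 hlt2
  have hcom' := hcom s t ρ ρ' e hρ' hρ hρ1 he hek hs ht
  have hg : 0 < ρ - ρ' := by linarith
  have hsubD : ball Ω.b0 ρ' ⊆ Ω.D := fun y hy =>
    Ω.hB (ball_subset_closedBall (ball_subset_ball (hρ.le.trans hρ1) hy))
  have hhalf : ∀ x : E n, ball x ((ρ - ρ') / 2 / 2) ⊆ ball x ((ρ - ρ') / 2) := fun x =>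
    ball_subset_ball (by linarith)
  refine ⟨fun b' => (ls (A.β t (A.β s⁻¹ (A.β t⁻¹ b'))) - ls (A.β s⁻¹ (A.β t⁻¹ b'))) +
    (lt (A.β s⁻¹ (A.β t⁻¹ b')) - lt (A.β s (A.β s⁻¹ (A.β t⁻¹ b')))), ?_, ?_⟩
  · have hd1 : DifferentiableOn ℂ (fun b' => A.β s⁻¹ (A.β t⁻¹ b')) (ball Ω.b0 ρ') := by
      refine (A.holo s⁻¹).comp ((A.holo t⁻¹).mono hsubD) ?_
      exact fun y hy => A.maps _ (hsubD hy)
    have hd2 : DifferentiableOn ℂ (fun b' => A.β t (A.β s⁻¹ (A.β t⁻¹ b'))) (ball Ω.b0 ρ') :=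
      (A.holo t).comp hd1 fun y hy => (hcom' y hy).2.1
    have hd3 : DifferentiableOn ℂ (fun b' => A.β s (A.β s⁻¹ (A.β t⁻¹ b'))) (ball Ω.b0 ρ') :=
      (A.holo s).comp hd1 fun y hy => (hcom' y hy).2.1
    have hm1 : ∀ y ∈ ball Ω.b0 ρ', A.β s⁻¹ (A.β t⁻¹ y) ∈ ball Ω.b0 ρ := fun y hy =>
      (hcom' y hy).2.2.1 (mem_ball_self (by positivity))
    have hm2 : ∀ y ∈ ball Ω.b0 ρ', A.β t (A.β s⁻¹ (A.β t⁻¹ y)) ∈ ball Ω.b0 ρ := fun y hy =>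
      (hcom' y hy).2.2.1 (hhalf _ (hcom' y hy).2.2.2.1)
    have hm3 : ∀ y ∈ ball Ω.b0 ρ', A.β s (A.β s⁻¹ (A.β t⁻¹ y)) ∈ ball Ω.b0 ρ := fun y hy =>
      (hcom' y hy).2.2.1 (hhalf _ (hcom' y hy).2.2.2.2.1)
    exact ((hls.comp hd2 hm2).sub (hls.comp hd1 hm1)).add
      ((hlt.comp hd1 hm1).sub (hlt.comp hd3 hm3))
  · intro b' hb'
    obtain ⟨h1, hD, hsub, h3, h4, h5, h6, h7⟩ := hcom' b' hb'
    set b := A.β s⁻¹ (A.β t⁻¹ b') with hb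
    have hg2 : 0 < (ρ - ρ') / 2 := by positivity
    have hbm : b ∈ ball b ((ρ - ρ') / 2 / 2) := mem_ball_self (by positivity)
    have hb0 : b ∈ ball Ω.b0 ρ := hsub (hhalf _ hbm)
    have ht0 : A.β t b ∈ ball Ω.b0 ρ := hsub (hhalf _ h3)
    have hs0 : A.β s b ∈ ball Ω.b0 ρ := hsub (hhalf _ h4)
    have hΛ : 0 ≤ Λ := (norm_nonneg _).trans (hls2 b hb0).2
    constructor
    · have ha := E3a_a A s t hD h7
      have hsbD : A.β s b ∈ Ω.D := A.maps s hD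
      have hne : A.a t (A.β s b) * A.a s b ≠ 0 := mul_ne_zero (A.a_ne _ _ hsbD) (A.a_ne _ _ hD)
      rw [← eq_div_iff hne] at ha
      rw [ha, Complex.exp_add, Complex.exp_sub, Complex.exp_sub, (hls2 _ ht0).1, (hls2 _ hb0).1,
        (hlt2 _ hb0).1, (hlt2 _ hs0).1]
      rw [div_mul_div_comm, mul_comm (A.a s b)]
    · have e1 := cauchy_lip hg2 (hls.mono hsub) (fun y hy => (hls2 y (hsub hy)).2) h3 hbm
      have e2 := cauchy_lip hg2 (hlt.mono hsub) (fun y hy => (hlt2 y (hsub hy)).2) hbm h4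
      rw [norm_sub_rev b] at e2
      have e3 : 4 * Λ / ((ρ - ρ') / 2) * ‖A.β t b - b‖ ≤ 4 * Λ / ((ρ - ρ') / 2) * (C1 * e) :=
        mul_le_mul_of_nonneg_left h5 (by positivity)
      have e4 : 4 * Λ / ((ρ - ρ') / 2) * ‖A.β s b - b‖ ≤ 4 * Λ / ((ρ - ρ') / 2) * (C1 * e) :=
        mul_le_mul_of_nonneg_left h6 (by positivity)
      have e5 : 16 * C1 * Λ * e / (ρ - ρ') = 4 * Λ / ((ρ - ρ') / 2) * (C1 * e) +
          4 * Λ / ((ρ - ρ') / 2) * (C1 * e) := by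
        field_simp
        ring
      rw [e5]
      exact (norm_add_le _ _).trans (add_le_add (e1.trans e3) (e2.trans e4))

theorem c_step (A : AffAct Ω Γ) :
    ∃ C κ : ℝ, 0 < C ∧ 0 < κ ∧ ∀ (s t : Γ) (ρ ρ' M e δ δ' : ℝ),
      0 < ρ' → ρ' < ρ → ρ ≤ Ω.r1 → 0 ≤ e → e ≤ κ * (ρ - ρ') →
      (∀ b ∈ Ω.B, ‖A.β s b - b‖ ≤ e) → (∀ b ∈ Ω.B, ‖A.β t b - b‖ ≤ e) →
      (∀ b ∈ ball Ω.b0 ρ, ‖A.a s b - 1‖ ≤ δ ∧ ‖A.c s b‖ ≤ M) →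
      (∀ b ∈ ball Ω.b0 ρ, ‖A.a t b - 1‖ ≤ δ ∧ ‖A.c t b‖ ≤ M) →
      (∀ b ∈ ball Ω.b0 ρ', ‖A.a (s * t * s⁻¹ * t⁻¹) b - 1‖ ≤ δ') →
      ∀ b ∈ ball Ω.b0 ρ', ‖A.c (s * t * s⁻¹ * t⁻¹) b‖ ≤
        (C * e / (ρ - ρ') + 2 * δ + δ' * (2 + δ)) * M := by
  obtain ⟨C1, κ, hC1, hκ, hcom⟩ := E3a_common A.toBaseAct
  refine ⟨16 * C1, κ, by positivity, hκ, ?_⟩
  intro s t ρ ρ' M e δ δ' hρ' hρ hρ1 he hek hs ht hs2 ht2 hw b' hb'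
  have hg : 0 < ρ - ρ' := by linarith
  have hhalf : ∀ x : E n, ball x ((ρ - ρ') / 2 / 2) ⊆ ball x ((ρ - ρ') / 2) := fun x =>
    ball_subset_ball (by linarith)
  obtain ⟨h1, hD, hsub, h3, h4, h5, h6, h7⟩ := hcom s t ρ ρ' e hρ' hρ hρ1 he hek hs ht b' hb'
  set b := A.β s⁻¹ (A.β t⁻¹ b') with hb
  have hg2 : 0 < (ρ - ρ') / 2 := by positivity
  have hbm : b ∈ ball b ((ρ - ρ') / 2 / 2) := mem_ball_self (by positivity)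
  have hb0 : b ∈ ball Ω.b0 ρ := hsub (hhalf _ hbm)
  have ht0 : A.β t b ∈ ball Ω.b0 ρ := hsub (hhalf _ h3)
  have hs0 : A.β s b ∈ ball Ω.b0 ρ := hsub (hhalf _ h4)
  have hM : 0 ≤ M := (norm_nonneg _).trans (hs2 b hb0).2
  have hδ : 0 ≤ δ := (norm_nonneg _).trans (hs2 b hb0).1
  have hδ' : 0 ≤ δ' := (norm_nonneg _).trans (hw b' hb')
  have hρD : ball Ω.b0 ρ ⊆ Ω.D := fun y hy =>
    Ω.hB (ball_subset_closedBall (ball_subset_ball hρ1 hy))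
  have e1 := cauchy_lip hg2 ((A.c_holo s).mono (hsub.trans hρD))
    (fun y hy => (hs2 y (hsub hy)).2) h3 hbm
  have e2 := cauchy_lip hg2 ((A.c_holo t).mono (hsub.trans hρD))
    (fun y hy => (ht2 y (hsub hy)).2) h4 hbm
  have e3 : 4 * M / ((ρ - ρ') / 2) * ‖A.β t b - b‖ ≤ 4 * M / ((ρ - ρ') / 2) * (C1 * e) :=
    mul_le_mul_of_nonneg_left h5 (by positivity)
  have e4 : 4 * M / ((ρ - ρ') / 2) * ‖A.β s b - b‖ ≤ 4 * M / ((ρ - ρ') / 2) * (C1 * e) :=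
    mul_le_mul_of_nonneg_left h6 (by positivity)
  have hat : ‖A.a t (A.β s b)‖ ≤ 1 + δ := by
    have h8 := (ht2 _ hs0).1
    have h9 := norm_add_le (A.a t (A.β s b) - 1) 1
    rw [sub_add_cancel, norm_one] at h9
    linarith
  have hcts : ‖A.a t (A.β s b) * A.c s b + A.c t (A.β s b)‖ ≤ (2 + δ) * M := by
    refine (norm_add_le _ _).trans ?_
    rw [norm_mul]
    have h10 := mul_le_mul hat (hs2 b hb0).2 (norm_nonneg _) (by linarith)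
    have h11 := (ht2 _ hs0).2
    linarith
  have hexp : A.c (s * t * s⁻¹ * t⁻¹) b' = ((A.c s (A.β t b) - A.c s b) -
      (A.c t (A.β s b) - A.c t b)) + ((A.a s (A.β t b) - 1) * A.c t b -
      (A.a t (A.β s b) - 1) * A.c s b) + (1 - A.a (s * t * s⁻¹ * t⁻¹) b') *
      (A.a t (A.β s b) * A.c s b + A.c t (A.β s b)) := by
    rw [E3a_c A s t hD h7]; ring
  rw [hexp]
  have n1 : ‖(A.a s (A.β t b) - 1) * A.c t b‖ ≤ δ * M := by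
    rw [norm_mul]
    exact mul_le_mul (hs2 _ ht0).1 (ht2 b hb0).2 (norm_nonneg _) hδ
  have n2 : ‖(A.a t (A.β s b) - 1) * A.c s b‖ ≤ δ * M := by
    rw [norm_mul]
    exact mul_le_mul (ht2 _ hs0).1 (hs2 b hb0).2 (norm_nonneg _) hδ
  have n3 : ‖(1 - A.a (s * t * s⁻¹ * t⁻¹) b') *
      (A.a t (A.β s b) * A.c s b + A.c t (A.β s b))‖ ≤ δ' * ((2 + δ) * M) := by
    rw [norm_mul, norm_sub_rev]
    exact mul_le_mul (hw b' hb') hcts (norm_nonneg _) hδ'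
  have e5 : (16 * C1 * e / (ρ - ρ') + 2 * δ + δ' * (2 + δ)) * M =
      ((4 * M / ((ρ - ρ') / 2) * (C1 * e) + 4 * M / ((ρ - ρ') / 2) * (C1 * e)) +
        (δ * M + δ * M)) + δ' * ((2 + δ) * M) := by
    field_simp
    ring
  rw [e5]
  refine (norm_add_le _ _).trans (add_le_add ((norm_add_le _ _).trans (add_le_add ?_ ?_)) n3)
  · exact (norm_sub_le _ _).trans (add_le_add (e1.trans e3) (e2.trans e4))
  · exact (norm_sub_le _ _).trans (add_le_add n1 n2)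

end Pool.Agent.H.MP_e23cd6_ag.AB
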