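import Pool.Agent.H.MP_e23cd6_ag.AB.E3a
import Pool.Agent.H.MP_e23cd6_ag.AB.E2

/-!
ABUN E3b: iterated commutator sets which are doubly exponentially close to the identity on the base act
trivially on the base after finitely many steps (proper discontinuity of the affine action).

Proof. Let C, κ work for both `log_step` and `c_step` (take max and min). Radii ρ_k = r0 + (r1 - r0)/2^(k+1), g_k = ρ_k - ρ_{k+1} =
(r1 - r0)/2^(k+2). Choose q ∈ (0, 1/2) so small that q^(2^k) ≤ κ g_k for all k (2^k ≥ k + 1) and q ≤ r1.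
Let S0 be finite with |β s b - b| ≤ q^(2^k) on B for s ∈ S_k = comSet^[k] S0, all k.
(1) There are Λ_k ≥ 0 such that each s ∈ S_k has a holomorphic logarithm l of a_s on ball b0 ρ_k with |l| ≤ Λ_k, and Λ_k → 0: for k = 0
`exists_log` on ball b0 r1 and compactness of closedBall b0 ρ_0 (finitely many s). Step: `log_step`:
Λ_{k+1} = C Λ_k q^(2^k)/g_k; the ratios C q^(2^k)/g_k tend to 0, so Λ_k → 0.
(2) δ_k = exp Λ_k - 1: |a_s - 1| = |exp l - 1| ≤ exp |l| - 1 ≤ δ_k on ball b0 ρ_k (`Complex.norm_exp_sub_one_le...`/ `Complex.norm_exp_sub_sum_le`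
or series), δ_k → 0.
(3) M_k with |c_s| ≤ M_k on ball b0 ρ_k for s ∈ S_k: M_0 by compactness (closedBall b0 ρ_0 ⊆ D, finitely many s),
M_{k+1} = (C q^(2^k)/g_k + 2 δ_k + δ_{k+1} (2 + δ_k)) M_k by `c_step`; the factors tend to 0, so M_k → 0; choose k0 with M_k ≤ 1
for k ≥ k0.
(4) F = {γ | ∃ b ∈ K, ∃ z, ‖z‖ ≤ 1 ∧ β γ b ∈ K ∧ ‖a γ b z + c γ b‖ ≤ 1} with K = closedBall b0 r1 is finite (pd). Every s ∈ S_k,
k ≥ k0, is in F (b = b0, z = 0; |β s b0 - b0| ≤ q^(2^k) ≤ q ≤ r1). For γ ∈ F not acting trivially on D there is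
b_γ ∈ B with β γ b_γ ≠ b_γ (`ident`). Let δ > 0 be smaller than all |β γ b_γ - b_γ| (finitely many). Take k ≥ k0 with q^(2^k) < δ:
all s ∈ S_k act trivially on D.
-/

open Set Filter Topology Metric

namespace Pool.Agent.H.MP_e23cd6_ag.AB

variable {n : ℕ} {Ω : Dom n} {Γ : Type} [Group Γ]

private theorem E3b_tendsto {u r : ℕ → ℝ} (h0 : ∀ k, 0 ≤ u k)
    (h : ∀ k, u (k + 1) ≤ r k * u k) (hr : Tendsto r atTop (𝓝 0)) : Tendsto u atTop (𝓝 0) := by
  have h1 : ∀ᶠ k in atTop, r k ≤ 1 / 2 := hr.eventually_le_const (by norm_num)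
  have h2 : Summable u := by
    refine summable_of_ratio_norm_eventually_le (r := 1 / 2) (by norm_num) ?_
    filter_upwards [h1] with k hk
    rw [Real.norm_of_nonneg (h0 _), Real.norm_of_nonneg (h0 _)]
    exact (h k).trans (mul_le_mul_of_nonneg_right hk (h0 k))
  exact h2.tendsto_atTop_zero

private theorem E3b_bound {S : Set Γ} (hS : S.Finite) {P : Γ → ℝ → Prop}
    (hP : ∀ s ∈ S, ∃ M, P s M) (hmono : ∀ s M M', M ≤ M' → P s M → P s M') :
    ∃ M, 0 ≤ M ∧ ∀ s ∈ S, P s M := by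
  classical
  choose! f hf using hP
  obtain ⟨B, hB⟩ := (hS.image f).bddAbove
  refine ⟨max B 0, le_max_right _ _, fun s hs => ?_⟩
  exact hmono s (f s) _ ((hB (mem_image_of_mem f hs)).trans (le_max_left _ _)) (hf s hs)

private theorem E3b_exp {z : ℂ} {L : ℝ} (h : ‖z‖ ≤ L) : ‖Complex.exp z - 1‖ ≤ Real.exp L - 1 := by
  have h1 := Complex.norm_exp_sub_sum_le_exp_norm_sub_sum z 1
  simp only [Finset.range_one, Finset.sum_singleton, pow_zero, Nat.factorial_zero, Nat.cast_one,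
    div_one] at h1
  have h2 := Real.exp_le_exp.2 h
  linarith

theorem comm_trivial (A : AffAct Ω Γ) :
    ∃ q : ℝ, 0 < q ∧ ∀ S0 : Set Γ, S0.Finite →
      (∀ k : ℕ, ∀ s ∈ comSet^[k] S0, ∀ b ∈ Ω.B, ‖A.β s b - b‖ ≤ q ^ (2 ^ k)) →
      ∃ k : ℕ, ∀ s ∈ comSet^[k] S0, ∀ b ∈ Ω.D, A.β s b = b := by
  obtain ⟨C1, κ1, hC1, hκ1, hlog⟩ := log_step A
  obtain ⟨C2, κ2, hC2, hκ2, hcs⟩ := c_step A
  obtain ⟨κ, hκdef⟩ : ∃ κ : ℝ, κ = min κ1 κ2 := ⟨_, rfl⟩
  have hκ : 0 < κ := by rw [hκdef]; exact lt_min hκ1 hκ2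
  have hκ1' : κ ≤ κ1 := by rw [hκdef]; exact min_le_left _ _
  have hκ2' : κ ≤ κ2 := by rw [hκdef]; exact min_le_right _ _
  have hr0 := Ω.hr0
  have hr01 := Ω.hr01
  obtain ⟨d, hd⟩ : ∃ d : ℝ, d = Ω.r1 - Ω.r0 := ⟨_, rfl⟩
  have hd0 : 0 < d := by rw [hd]; linarith
  obtain ⟨ρ, hρ⟩ : ∃ ρ : ℕ → ℝ, ∀ k, ρ k = Ω.r0 + d / 2 ^ (k + 1) := ⟨_, fun k => rfl⟩
  have hρ0 : ∀ k, 0 < ρ k := fun k => by rw [hρ]; positivity
  have hgap : ∀ k, ρ k - ρ (k + 1) = d / 2 ^ (k + 2) := by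
    intro k
    rw [hρ, hρ, pow_succ 2 (k + 1)]
    field_simp
    ring
  have hgap0 : ∀ k, 0 < ρ k - ρ (k + 1) := fun k => by rw [hgap]; positivity
  have hρlt : ∀ k, ρ (k + 1) < ρ k := fun k => by linarith [hgap0 k]
  have hρ1 : ∀ k, ρ k < Ω.r1 := by
    intro k
    rw [hρ]
    have h1 : d / 2 ^ (k + 1) < d := by
      rw [div_lt_iff₀ (by positivity)]
      have : (1 : ℝ) < 2 ^ (k + 1) := one_lt_pow₀ (by norm_num) (by omega)
      nlinarith
    linarith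
  obtain ⟨q, hq0, hq1, hq2, hq3⟩ : ∃ q : ℝ, 0 < q ∧ q ≤ 1 / 4 ∧ q ≤ κ * d / 4 ∧ q ≤ Ω.r1 :=
    ⟨min (1 / 4) (min (κ * d / 4) Ω.r1), lt_min (by norm_num)
      (lt_min (by positivity) (by linarith)), min_le_left _ _,
      (min_le_right _ _).trans (min_le_left _ _), (min_le_right _ _).trans (min_le_right _ _)⟩
  refine ⟨q, hq0, fun S0 hS0 hsmall => ?_⟩
  obtain ⟨e, he⟩ : ∃ e : ℕ → ℝ, ∀ k, e k = q ^ (2 ^ k) := ⟨_, fun k => rfl⟩
  have he0 : ∀ k, 0 ≤ e k := fun k => by rw [he]; positivity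
  have he1 : ∀ k, e k ≤ q * (1 / 4) ^ k := by
    intro k
    rw [he]
    have h1 : k + 1 ≤ 2 ^ k := Nat.lt_two_pow_self
    calc q ^ (2 ^ k) ≤ q ^ (k + 1) := pow_le_pow_of_le_one hq0.le (by linarith) h1
      _ = q * q ^ k := by rw [pow_succ, mul_comm]
      _ ≤ q * (1 / 4) ^ k := mul_le_mul_of_nonneg_left (pow_le_pow_left₀ hq0.le hq1 k) hq0.le
  have heq : ∀ k, e k ≤ q := by
    intro k
    refine (he1 k).trans ?_
    have : (1 / 4 : ℝ) ^ k ≤ 1 := pow_le_one₀ (by norm_num) (by norm_num)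
    nlinarith
  have hek : ∀ k, e k ≤ κ * (ρ k - ρ (k + 1)) := by
    intro k
    rw [hgap]
    refine (he1 k).trans ?_
    have h1 : q * (1 / 4) ^ k ≤ κ * d / 4 * (1 / 2) ^ k := by
      apply mul_le_mul hq2 _ (by positivity) (by positivity)
      exact pow_le_pow_left₀ (by norm_num) (by norm_num) k
    refine h1.trans (le_of_eq ?_)
    rw [pow_add, one_div, inv_pow]
    field_simp
    norm_num
  have hratio : Tendsto (fun k => e k / (ρ k - ρ (k + 1))) atTop (𝓝 0) := by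
    have h1 : ∀ k, e k / (ρ k - ρ (k + 1)) ≤ 4 * q / d * (1 / 2) ^ k := by
      intro k
      rw [hgap, div_le_iff₀ (by positivity)]
      refine (he1 k).trans (le_of_eq ?_)
      have h2 : (1 / 4 : ℝ) ^ k = (1 / 2) ^ k * (1 / 2) ^ k := by
        rw [← mul_pow]; norm_num
      have h3 : (2 : ℝ) ^ (k + 2) = 4 * 2 ^ k := by ring
      have h4 : (1 / 2 : ℝ) ^ k * 2 ^ k = 1 := by rw [← mul_pow]; norm_num
      rw [h2, h3]
      field_simp
      ring_nf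
      ring_nf at h4
      try nlinarith [h4]
    have h2 : Tendsto (fun k : ℕ => 4 * q / d * (1 / 2 : ℝ) ^ k) atTop (𝓝 0) := by
      have := (tendsto_pow_atTop_nhds_zero_of_lt_one (r := (1 / 2 : ℝ)) (by norm_num)
        (by norm_num)).const_mul (4 * q / d)
      simpa using this
    exact squeeze_zero (fun k => div_nonneg (he0 k) (hgap0 k).le) h1 h2
  have hsucc : ∀ k, comSet^[k + 1] S0 = comSet (comSet^[k] S0) := fun k =>
    Function.iterate_succ_apply' _ _ _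
  have hsub0 : closedBall Ω.b0 (ρ 0) ⊆ ball Ω.b0 Ω.r1 := closedBall_subset_ball (hρ1 0)
  have hbD : ball Ω.b0 Ω.r1 ⊆ Ω.D := ball_subset_closedBall.trans Ω.hB
  -- logarithms
  obtain ⟨L0, hL0, hL0'⟩ : ∃ M, 0 ≤ M ∧ ∀ s ∈ S0, ∃ l : E n → ℂ,
      DifferentiableOn ℂ l (ball Ω.b0 (ρ 0)) ∧
        ∀ b ∈ ball Ω.b0 (ρ 0), Complex.exp (l b) = A.a s b ∧ ‖l b‖ ≤ M := by
    refine E3b_bound hS0 (P := fun s M => ∃ l : E n → ℂ,
      DifferentiableOn ℂ l (ball Ω.b0 (ρ 0)) ∧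
        ∀ b ∈ ball Ω.b0 (ρ 0), Complex.exp (l b) = A.a s b ∧ ‖l b‖ ≤ M) ?_ ?_
    · intro s _
      obtain ⟨l, hl, hl'⟩ := exists_log ((A.a_holo s).mono hbD) (fun b hb => A.a_ne s b (hbD hb))
      obtain ⟨M, hM⟩ := (isCompact_closedBall Ω.b0 (ρ 0)).exists_bound_of_continuousOn
        (hl.continuousOn.mono hsub0)
      exact ⟨M, l, hl.mono (ball_subset_ball (hρ1 0).le), fun b hb =>
        ⟨hl' b (ball_subset_ball (hρ1 0).le hb), hM b (ball_subset_closedBall hb)⟩⟩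
    · rintro s M M' hMM' ⟨l, hl, hl'⟩
      exact ⟨l, hl, fun b hb => ⟨(hl' b hb).1, (hl' b hb).2.trans hMM'⟩⟩
  obtain ⟨Λ, hΛ0, hΛ1⟩ : ∃ Λ : ℕ → ℝ, Λ 0 = L0 ∧
      ∀ k, Λ (k + 1) = C1 * Λ k * e k / (ρ k - ρ (k + 1)) :=
    ⟨fun k => Nat.rec (motive := fun _ => ℝ) L0
      (fun k x => C1 * x * e k / (ρ k - ρ (k + 1))) k, rfl, fun k => rfl⟩
  have hΛnn : ∀ k, 0 ≤ Λ k := by
    intro k
    induction k with
    | zero => rw [hΛ0]; exact hL0
    | succ k ih =>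
      rw [hΛ1]
      exact div_nonneg (mul_nonneg (mul_nonneg hC1.le ih) (he0 k)) (hgap0 k).le
  have hΛt : Tendsto Λ atTop (𝓝 0) := by
    refine E3b_tendsto (r := fun k => C1 * (e k / (ρ k - ρ (k + 1)))) hΛnn ?_ ?_
    · intro k
      rw [hΛ1]
      apply le_of_eq
      ring
    · simpa using hratio.const_mul C1
  have hsm : ∀ k, ∀ s ∈ comSet^[k] S0, ∀ b ∈ Ω.B, ‖A.β s b - b‖ ≤ e k := by
    intro k s hs b hb
    rw [he]
    exact hsmall k s hs b hb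
  have hlogs : ∀ k, ∀ s ∈ comSet^[k] S0, ∃ l : E n → ℂ,
      DifferentiableOn ℂ l (ball Ω.b0 (ρ k)) ∧
        ∀ b ∈ ball Ω.b0 (ρ k), Complex.exp (l b) = A.a s b ∧ ‖l b‖ ≤ Λ k := by
    intro k
    induction k with
    | zero =>
      intro s hs
      rw [hΛ0]
      exact hL0' s hs
    | succ k ih =>
      intro w hw
      rw [hsucc] at hw
      obtain ⟨s, hs, t, ht, rfl⟩ := hw
      obtain ⟨ls, hls, hls'⟩ := ih s hs
      obtain ⟨lt', hlt, hlt'⟩ := ih t ht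
      rw [hΛ1]
      exact hlog s t ls lt' (ρ k) (ρ (k + 1)) (Λ k) (e k) (hρ0 _) (hρlt k) (hρ1 k).le (he0 k)
        ((hek k).trans (mul_le_mul_of_nonneg_right hκ1' (hgap0 k).le)) (hsm k s hs) (hsm k t ht)
        hls hlt hls' hlt'
  -- linear parts
  obtain ⟨δ, hδ⟩ : ∃ δ : ℕ → ℝ, ∀ k, δ k = Real.exp (Λ k) - 1 := ⟨_, fun k => rfl⟩
  have hδ0 : ∀ k, 0 ≤ δ k := by
    intro k
    rw [hδ]
    have := Real.one_le_exp (hΛnn k)
    linarith
  have hδt : Tendsto δ atTop (𝓝 0) := by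
    have h1 : Tendsto (fun k => Real.exp (Λ k) - 1) atTop (𝓝 (Real.exp 0 - 1)) :=
      ((Real.continuous_exp.tendsto 0).comp hΛt).sub_const 1
    rw [Real.exp_zero, sub_self] at h1
    exact h1.congr fun k => (hδ k).symm
  have has : ∀ k, ∀ s ∈ comSet^[k] S0, ∀ b ∈ ball Ω.b0 (ρ k), ‖A.a s b - 1‖ ≤ δ k := by
    intro k s hs b hb
    obtain ⟨l, _, hl⟩ := hlogs k s hs
    rw [← (hl b hb).1, hδ]
    exact E3b_exp (hl b hb).2
  -- translation parts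
  obtain ⟨M0, hM0, hM0'⟩ : ∃ M, 0 ≤ M ∧ ∀ s ∈ S0, ∀ b ∈ ball Ω.b0 (ρ 0), ‖A.c s b‖ ≤ M := by
    refine E3b_bound hS0 (P := fun s M => ∀ b ∈ ball Ω.b0 (ρ 0), ‖A.c s b‖ ≤ M) ?_ ?_
    · intro s _
      obtain ⟨M, hM⟩ := (isCompact_closedBall Ω.b0 (ρ 0)).exists_bound_of_continuousOn
        ((A.c_holo s).continuousOn.mono (hsub0.trans hbD))
      exact ⟨M, fun b hb => hM b (ball_subset_closedBall hb)⟩
    · intro s M M' hMM' h b hb
      exact (h b hb).trans hMM'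
  obtain ⟨M, hMz, hMs⟩ : ∃ M : ℕ → ℝ, M 0 = M0 ∧ ∀ k, M (k + 1) =
      (C2 * e k / (ρ k - ρ (k + 1)) + 2 * δ k + δ (k + 1) * (2 + δ k)) * M k :=
    ⟨fun k => Nat.rec (motive := fun _ => ℝ) M0
      (fun k x => (C2 * e k / (ρ k - ρ (k + 1)) + 2 * δ k + δ (k + 1) * (2 + δ k)) * x) k,
      rfl, fun k => rfl⟩
  have hMnn : ∀ k, 0 ≤ M k := by
    intro k
    induction k with
    | zero => rw [hMz]; exact hM0
    | succ k ih =>
      rw [hMs]
      have h1 := hδ0 k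
      have h2 := hδ0 (k + 1)
      have h3 : 0 ≤ C2 * e k / (ρ k - ρ (k + 1)) :=
        div_nonneg (mul_nonneg hC2.le (he0 k)) (hgap0 k).le
      positivity
  have hMt : Tendsto M atTop (𝓝 0) := by
    refine E3b_tendsto (r := fun k => C2 * e k / (ρ k - ρ (k + 1)) + 2 * δ k +
      δ (k + 1) * (2 + δ k)) hMnn (fun k => (hMs k).le) ?_
    have h1 : Tendsto (fun k => C2 * e k / (ρ k - ρ (k + 1))) atTop (𝓝 0) := by
      have := hratio.const_mul C2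
      rw [mul_zero] at this
      exact this.congr fun k => by ring
    have h2 := hδt.const_mul 2
    have h3 := (hδt.comp (tendsto_add_atTop_nat 1)).mul (hδt.const_add 2)
    have h4 := (h1.add h2).add h3
    simpa using h4
  have hcb : ∀ k, ∀ s ∈ comSet^[k] S0, ∀ b ∈ ball Ω.b0 (ρ k), ‖A.c s b‖ ≤ M k := by
    intro k
    induction k with
    | zero =>
      intro s hs
      rw [hMz]
      exact hM0' s hs
    | succ k ih =>
      intro w hw
      have hw' := hw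
      rw [hsucc] at hw
      obtain ⟨s, hs, t, ht, rfl⟩ := hw
      rw [hMs]
      exact hcs s t (ρ k) (ρ (k + 1)) (M k) (e k) (δ k) (δ (k + 1)) (hρ0 _) (hρlt k) (hρ1 k).le
        (he0 k) ((hek k).trans (mul_le_mul_of_nonneg_right hκ2' (hgap0 k).le))
        (hsm k s hs) (hsm k t ht) (fun b hb => ⟨has k s hs b hb, ih s hs b hb⟩)
        (fun b hb => ⟨has k t ht b hb, ih t ht b hb⟩) (has (k + 1) _ hw')
  -- proper discontinuity
  have hF := A.pd (closedBall Ω.b0 Ω.r1) Ω.hB (isCompact_closedBall _ _) 1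
  have het : Tendsto e atTop (𝓝 0) := by
    have h2 : Tendsto (fun k : ℕ => q * (1 / 4 : ℝ) ^ k) atTop (𝓝 0) := by
      have := (tendsto_pow_atTop_nhds_zero_of_lt_one (r := (1 / 4 : ℝ)) (by norm_num)
        (by norm_num)).const_mul q
      simpa using this
    exact squeeze_zero he0 he1 h2
  have hev : ∀ᶠ k in atTop, ∀ γ ∈ {γ | ∃ b ∈ closedBall Ω.b0 Ω.r1, ∃ z : ℂ, ‖z‖ ≤ 1 ∧
      A.β γ b ∈ closedBall Ω.b0 Ω.r1 ∧ ‖A.a γ b * z + A.c γ b‖ ≤ 1},
      (∀ b ∈ Ω.B, ‖A.β γ b - b‖ ≤ e k) → ∀ b ∈ Ω.D, A.β γ b = b := by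
    rw [eventually_all_finite hF]
    intro γ _
    by_cases hγ : ∀ b ∈ Ω.D, A.β γ b = b
    · exact Eventually.of_forall fun k _ => hγ
    · obtain ⟨b, hb, hne⟩ : ∃ b ∈ Ω.B, A.β γ b ≠ b := by
        by_contra hcon
        push Not at hcon
        apply hγ
        have h1 := ident Ω.isOpen Ω.conn (A.holo γ) (differentiableOn_id) hr0
          (ball_subset_closedBall.trans Ω.B_sub)
          (fun y hy => hcon y (ball_subset_closedBall hy))
        exact fun b hb => h1 hb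
      have hpos : 0 < ‖A.β γ b - b‖ := norm_pos_iff.2 (sub_ne_zero.2 hne)
      filter_upwards [het.eventually_lt_const hpos] with k hk hall
      exact absurd (hall b hb) (not_le.2 hk)
  have hev2 : ∀ᶠ k in atTop, M k ≤ 1 := hMt.eventually_le_const (by norm_num)
  obtain ⟨k, hk1, hk2⟩ := (hev.and hev2).exists
  refine ⟨k, fun s hs => hk1 s ?_ (hsm k s hs)⟩
  have hmem : Ω.b0 ∈ closedBall Ω.b0 Ω.r1 := mem_closedBall_self (by linarith)
  refine ⟨Ω.b0, hmem, 0, by simp, ?_, ?_⟩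
  · rw [mem_closedBall, dist_eq_norm]
    exact ((hsm k s hs _ Ω.b0_mem_B).trans (heq k)).trans hq3
  · rw [mul_zero, zero_add]
    exact (hcb k s hs _ (mem_ball_self (hρ0 k))).trans hk2

end Pool.Agent.H.MP_e23cd6_ag.AB
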