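import Pool.Agent.H.MP_e23cd6_ag.AB.E2b
import Pool.Agent.H.MP_e23cd6_ag.AB.E3b

/-!
ABUN E4: if there are nonzero limit fields then there is a nonzero abelian Ad-stable subspace.
-/

open Set Filter Topology Metric

namespace Pool.Agent.H.MP_e23cd6_ag.AB

variable {n : ℕ} {Ω : Dom n} {Γ : Type} [Group Γ]

theorem no_perfect (A : AffAct Ω Γ) (P : Submodule ℝ (Lie A.toBaseAct))
    (hP : ∀ δ, ∀ X ∈ P, AdL A.toBaseAct δ X ∈ P)
    (hperf : P ≤ Submodule.span ℝ {Z | ∃ X ∈ P, ∃ Y ∈ P, Z = brL A.toBaseAct X Y}) : P = ⊥ := by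
  by_contra hne
  obtain ⟨q, hq, h⟩ := comm_trivial A
  obtain ⟨S0, hfin, hS⟩ := small_comm A.toBaseAct P hP hne hperf hq
  obtain ⟨k, hk⟩ := h S0 hfin (fun k => (hS k).1)
  obtain ⟨s, hs, b, hb, hne'⟩ := (hS k).2
  exact hne' (hk s hs b hb)

theorem exists_abelian (A : AffAct Ω Γ) (hL : ∃ X : Lie A.toBaseAct, X ≠ 0) :
    ∃ P : Submodule ℝ (Lie A.toBaseAct), P ≠ ⊥ ∧ (∀ δ, ∀ X ∈ P, AdL A.toBaseAct δ X ∈ P) ∧
      ∀ X ∈ P, ∀ Y ∈ P, brL A.toBaseAct X Y = 0 := by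
  classical
  -- a nonzero Ad-stable subspace of minimal dimension
  let S : Set ℕ := {d | ∃ P : Submodule ℝ (Lie A.toBaseAct), P ≠ ⊥ ∧
    (∀ δ, ∀ X ∈ P, AdL A.toBaseAct δ X ∈ P) ∧ Module.finrank ℝ P = d}
  have hS : S.Nonempty := by
    refine ⟨_, ⊤, ?_, fun _ _ _ => Submodule.mem_top, rfl⟩
    obtain ⟨X, hX⟩ := hL
    intro h
    exact hX (by simpa [h] using (Submodule.mem_top : X ∈ (⊤ : Submodule ℝ (Lie A.toBaseAct))))
  obtain ⟨P, hne, hst, hd⟩ := Nat.sInf_mem hS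
  refine ⟨P, hne, hst, ?_⟩
  set Q : Submodule ℝ (Lie A.toBaseAct) :=
    Submodule.span ℝ {Z | ∃ X ∈ P, ∃ Y ∈ P, Z = brL A.toBaseAct X Y} with hQ
  have hQP : Q ≤ P := by
    rw [hQ, Submodule.span_le]
    rintro Z ⟨X, hX, Y, -, rfl⟩
    exact br_mem hst hX Y
  have hQst : ∀ δ, ∀ X ∈ Q, AdL A.toBaseAct δ X ∈ Q := by
    intro δ X hX
    have : Q ≤ Q.comap (AdL A.toBaseAct δ) := by
      conv_lhs => rw [hQ]
      rw [Submodule.span_le]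
      rintro Z ⟨X, hX, Y, hY, rfl⟩
      show AdL A.toBaseAct δ (brL A.toBaseAct X Y) ∈ Q
      rw [Ad_br]
      exact Submodule.subset_span ⟨_, hst δ X hX, _, hst δ Y hY, rfl⟩
    exact this hX
  by_cases hQ0 : Q = ⊥
  · intro X hX Y hY
    have : brL A.toBaseAct X Y ∈ Q := Submodule.subset_span ⟨X, hX, Y, hY, rfl⟩
    rw [hQ0] at this
    exact (Submodule.mem_bot ℝ).mp this
  · exfalso
    have h1 : sInf S ≤ Module.finrank ℝ Q := Nat.sInf_le ⟨Q, hQ0, hQst, rfl⟩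
    have h2 : Q = P := Submodule.eq_of_le_of_finrank_le hQP (by rw [hd]; exact h1)
    exact hne (no_perfect A P hst (by rw [← hQ, h2]))

end Pool.Agent.H.MP_e23cd6_ag.AB
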