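import Pool.Agent.H.MP_e23cd6_ag.AB.D6
import Pool.Agent.H.MP_e23cd6_ag.AB.F0

/-!
ABUN F1: commuting limit fields almost preserve the Caratheodory length of each other.

`one_step`. Choose r > 0 with K' = cthickening r K ⊆ D. Let V, X be limit fields of norm ≤ 1, brL V X = 0, b ∈ K, 0 < t ≤ ρ (t = 0 is
trivial). `realize` (for K') applied to t X (norm ≤ t) gives γ with |β γ - id - tX| ≤ C t² and |β γ⁻¹ - id + tX| ≤ C t² on K'.
`ad_expand` for γ⁻¹ and the field Y = -tX (s = t): |Ad γ⁻¹ V - V + br V Y| ≤ C t² on K, br V Y = 0. So |Ad γ⁻¹ V b - V b| ≤ C t².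
V (β γ b) = Dβ_γ(b) (Ad γ⁻¹ V b): indeed Ad γ⁻¹ V b = Dβ_{γ⁻¹}(β γ b) V(β γ b) and Dβ_γ(b) ∘ Dβ_{γ⁻¹}(β γ b) = id. By `carLen_inv`
carLen (β γ b) (V (β γ b)) = carLen b (Ad γ⁻¹ V b), so it differs from carLen b (V b) by ≤ C t² (`carLen_lip`). Finally
|β γ b - (b + tX b)| ≤ C t², V is Lipschitz near K (`cauchy_lip`, V bounded by `Lie.bound`) so by `carLen_lip` (at the compact set
cthickening (r/2) K)
|carLen (β γ b) (V (β γ b)) - carLen (b + tX b) (V (b + tX b))| ≤ C t².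

`euler`. X, V as before, b ∈ K, 0 ≤ r ≤ ρ, N ≥ 1, h = r/N, p_0 = b, p_{k+1} = p_k + h X(p_k), k < N. All p_k are in K' = cthickening r0 K ⊆ D for
r ≤ ρ (|X| ≤ C on K', |p_k - b| ≤ C k h ≤ C r). `one_step` on K' : |carLen p_N (V p_N) - carLen b (V b)| ≤ N C h² = C r²/N.
X(p_k) = X b + DX(b)(p_k - b) + O(r²) (`cauchy_second`), p_k - b = k h X b + O(r²)(X(p_j) = X b + O(r)). So
p_N - b = N h X b + h² Σ_{k<N} k DX(b) X b + O(N h r²) = r X b + (r²/2)(1 - 1/N) DX(b) X b + O(r³), i.e.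
|p_N - (b + r X b + (r²/2) DX(b) X b)| ≤ C (r³ + r²/N). With `carLen_lip` and Lipschitz V:
|carLen (q) (V q) - carLen b (V b)| ≤ C (r³ + r²/N), q = b + r X b + (r²/2) DX(b) X b; let N → ∞.
-/

open Set Filter Topology Metric

namespace Pool.Agent.H.MP_e23cd6_ag.AB

variable {n : ℕ} {Ω : Dom n} {Γ : Type} [Group Γ]

/-- uniform Lipschitz bound for the length of limit fields near a compact set -/
theorem F1_lip (A : BaseAct Ω Γ) {K : Set (E n)} (hK : K ⊆ Ω.D) (hKc : IsCompact K) :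
    ∃ C ρ : ℝ, 0 < C ∧ 0 < ρ ∧ ∀ V : Lie A, ‖V‖ ≤ 1 → ∀ p ∈ K, ∀ p' : E n, ‖p' - p‖ ≤ ρ →
      |carLen Ω p' (V p') - carLen Ω p (V p)| ≤ C * ‖p' - p‖ := by
  obtain ⟨r, hr, hrK⟩ := hKc.exists_cthickening_subset_open Ω.isOpen hK
  obtain ⟨CL, hCL, hL⟩ := Lie.bound A hrK hKc.cthickening
  obtain ⟨C, ρ, hC, hρ, hlip⟩ := carLen_lip Ω hK hKc
  refine ⟨C * (CL + 4 * CL / r), min ρ (r / 4), by positivity, by positivity, ?_⟩
  intro V hV p hp p' hpp
  have h1 : ‖p' - p‖ ≤ ρ := hpp.trans (min_le_left _ _)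
  have h2 : ‖p' - p‖ ≤ r / 4 := hpp.trans (min_le_right _ _)
  have hb := hlip p hp p' (V p) (V p') h1
  have hball : ball p r ⊆ cthickening r K :=
    ball_subset_closedBall.trans (closedBall_subset_cthickening hp r)
  have hV1 : ∀ y ∈ ball p r, ‖V y‖ ≤ CL := by
    intro y hy
    have := hL V y (hball hy)
    nlinarith [norm_nonneg V]
  have hV2 : ‖V p‖ ≤ CL := hV1 p (mem_ball_self hr)
  have hV3 : ‖V p' - V p‖ ≤ 4 * CL / r * ‖p' - p‖ := by
    refine cauchy_lip hr (V.holo.mono (hball.trans hrK)) hV1 ?_ (mem_ball_self (by positivity))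
    rw [mem_ball, dist_eq_norm]
    linarith
  have hn := norm_nonneg (p' - p)
  calc |carLen Ω p' (V p') - carLen Ω p (V p)|
      ≤ C * (‖p' - p‖ * ‖V p‖ + ‖V p' - V p‖) := hb
    _ ≤ C * (‖p' - p‖ * CL + 4 * CL / r * ‖p' - p‖) := by
        refine mul_le_mul_of_nonneg_left ?_ hC.le
        exact add_le_add (mul_le_mul_of_nonneg_left hV2 hn) hV3
    _ = C * (CL + 4 * CL / r) * ‖p' - p‖ := by ring

theorem one_step (A : BaseAct Ω Γ) {K : Set (E n)} (hK : K ⊆ Ω.D) (hKc : IsCompact K) :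
    ∃ C ρ : ℝ, 0 < C ∧ 0 < ρ ∧ ∀ V X : Lie A, ‖V‖ ≤ 1 → ‖X‖ ≤ 1 → brL A V X = 0 →
      ∀ b ∈ K, ∀ t : ℝ, 0 ≤ t → t ≤ ρ →
        |carLen Ω (b + t • X b) (V (b + t • X b)) - carLen Ω b (V b)| ≤ C * t ^ 2 := by
  obtain ⟨r, hr, hrK⟩ := hKc.exists_cthickening_subset_open Ω.isOpen hK
  obtain ⟨C2, ρ2, hC2, hρ2, h2⟩ := realize A hrK hKc.cthickening
  obtain ⟨C3, ρ3, hC3, hρ3, h3⟩ := ad_expand A hKc hr hrK C2
  obtain ⟨C4, ρ4, hC4, hρ4, h4⟩ := carLen_lip Ω hK hKc
  obtain ⟨CL, hCL, hL⟩ := Lie.bound A hrK hKc.cthickening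
  obtain ⟨C5, ρ5, hC5, hρ5, h5⟩ := F1_lip A hrK hKc.cthickening
  obtain ⟨ρ, hρ, e1, e2, e3, e4, e5⟩ : ∃ ρ : ℝ, 0 < ρ ∧ ρ ≤ 1 ∧ ρ ≤ ρ2 ∧ ρ ≤ ρ3 ∧
      ρ * CL ≤ r ∧ C2 * ρ ≤ ρ5 := by
    refine ⟨min 1 (min ρ2 (min ρ3 (min (r / CL) (ρ5 / C2)))), by positivity, min_le_left _ _,
      (min_le_right _ _).trans (min_le_left _ _),
      (min_le_right _ _).trans ((min_le_right _ _).trans (min_le_left _ _)), ?_, ?_⟩
    · have : min 1 (min ρ2 (min ρ3 (min (r / CL) (ρ5 / C2)))) ≤ r / CL :=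
        (min_le_right _ _).trans ((min_le_right _ _).trans ((min_le_right _ _).trans
          (min_le_left _ _)))
      exact (le_div_iff₀ hCL).mp this
    · have : min 1 (min ρ2 (min ρ3 (min (r / CL) (ρ5 / C2)))) ≤ ρ5 / C2 :=
        (min_le_right _ _).trans ((min_le_right _ _).trans ((min_le_right _ _).trans
          (min_le_right _ _)))
      have h := (le_div_iff₀ hC2).mp this
      linarith
  refine ⟨C4 * C3 + C5 * C2, ρ, by positivity, hρ, ?_⟩
  intro V X hV hX hVX b hb t ht htρ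
  rcases ht.eq_or_lt with rfl | ht0
  · simp
  -- the group element
  have hXb : ∀ y ∈ cthickening r K, ‖X y‖ ≤ CL := by
    intro y hy
    have := hL X y hy
    nlinarith [norm_nonneg X]
  have htX : ‖t • X‖ ≤ t := by
    rw [norm_smul, Real.norm_eq_abs, abs_of_pos ht0]
    nlinarith
  obtain ⟨γ, hγ⟩ := h2 (t • X : Lie A) (Lie.isLim _) t ht0 (htρ.trans e2)
    (fun y hy => (Lie.le_norm _ hy).trans htX)
  -- expansion of the push forward
  have hY : ‖-(t • X)‖ ≤ t := by rw [norm_neg]; exact htX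
  have hbr : br Ω V (-(t • X) : Lie A) b = 0 := by
    have h : brL A V (-(t • X)) = 0 := by
      rw [map_neg, map_smul, hVX, smul_zero, neg_zero]
    change (brL A V (-(t • X)) : Lie A) b = 0
    rw [h]
    rfl
  have hbK1 : b ∈ cthickening r K := self_subset_cthickening K hb
  have hAd := h3 V (-(t • X)) t hV ht0.le (htρ.trans e3) hY γ⁻¹ (by
    intro y hy
    obtain ⟨g1, g2⟩ := hγ y hy
    rw [inv_inv, Lie.neg_apply]
    constructor
    · rw [sub_neg_eq_add]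
      exact g2
    · rw [← sub_eq_add_neg]
      exact g1) b hb
  rw [hbr, add_zero] at hAd
  -- length at the image point
  have hbD : b ∈ Ω.D := hK hb
  have hV' : V (A.β γ b) = fderiv ℂ (A.β γ) b (AdL A γ⁻¹ V b) := by
    rw [← D6_AdL_at γ (AdL A γ⁻¹ V) hbD, ← AdL_mul, mul_inv_cancel, AdL_one]
  have hc1 : carLen Ω (A.β γ b) (V (A.β γ b)) = carLen Ω b (AdL A γ⁻¹ V b) := by
    rw [hV']
    exact carLen_inv A γ hbD _
  have hc2 : |carLen Ω b (AdL A γ⁻¹ V b) - carLen Ω b (V b)| ≤ C4 * (C3 * t ^ 2) := by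
    have h := h4 b hb b (V b) (AdL A γ⁻¹ V b) (by simp [hρ4.le])
    rw [sub_self, norm_zero, zero_mul, zero_add] at h
    exact h.trans (mul_le_mul_of_nonneg_left hAd hC4.le)
  -- the point b + tX
  have hpK : b + t • X b ∈ cthickening r K := by
    refine mem_cthickening_of_dist_le _ b r K hb ?_
    rw [dist_eq_norm, add_sub_cancel_left, norm_smul, Real.norm_eq_abs, abs_of_pos ht0]
    have := hXb b hbK1
    nlinarith
  have hg1 : ‖A.β γ b - (b + t • X b)‖ ≤ C2 * t ^ 2 := by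
    have h := (hγ b hbK1).1
    rwa [Lie.smul_apply, sub_sub] at h
  have hsmall : C2 * t ^ 2 ≤ ρ5 := by
    have i1 : t ^ 2 ≤ ρ := by nlinarith
    exact (mul_le_mul_of_nonneg_left i1 hC2.le).trans e5
  have hc3 := h5 V hV (b + t • X b) hpK (A.β γ b) (hg1.trans hsmall)
  have hc4 : C5 * ‖A.β γ b - (b + t • X b)‖ ≤ C5 * (C2 * t ^ 2) :=
    mul_le_mul_of_nonneg_left hg1 hC5.le
  rw [hc1] at hc3
  rw [abs_le] at hc2 hc3 ⊢
  constructor <;> nlinarith [hc2.1, hc2.2, hc3.1, hc3.2]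

/-- the Euler polygon -/
noncomputable def F1_poly {A : BaseAct Ω Γ} (X : Lie A) (h : ℝ) (b : E n) : ℕ → E n
  | 0 => b
  | k + 1 => F1_poly X h b k + h • X (F1_poly X h b k)

/-- the estimates along the Euler polygon -/
theorem F1_poly_est {A : BaseAct Ω Γ} {X : Lie A} {b : E n} {r0 CL : ℝ} (hr0 : 0 < r0)
    (hCL : 0 < CL) (hD : ball b r0 ⊆ Ω.D) (hX : ∀ y ∈ ball b r0, ‖X y‖ ≤ CL) {h r : ℝ}
    (hh : 0 ≤ h) (hr : r * CL ≤ r0 / 8) {N : ℕ} (hN : N * h ≤ r) (k : ℕ) (hk : k ≤ N) :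
    ‖F1_poly X h b k - b‖ ≤ k * h * CL ∧
    ‖F1_poly X h b k - b - (k * h) • X b‖ ≤ (k * h) * (4 * CL / r0 * (r * CL)) ∧
    ‖F1_poly X h b k - b - (k * h) • X b - (h ^ 2 * (k * (k - 1) / 2)) • fderiv ℂ X.1 b (X b)‖ ≤
      (k * h) * ((8 * CL / r0 ^ 2 * CL ^ 2 + 2 * CL / r0 * (4 * CL / r0 * CL)) * r ^ 2) := by
  induction k with
  | zero => simp [F1_poly]
  | succ k ih =>
    obtain ⟨i1, i2, i3⟩ := ih (by omega)
    have hk0 : (0 : ℝ) ≤ k := Nat.cast_nonneg k
    have hkN : (k : ℝ) + 1 ≤ N := by exact_mod_cast hk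
    have hkh : k * h ≤ r := by nlinarith
    have hkh0 : 0 ≤ k * h := by positivity
    have hr0' : 0 ≤ r := hkh0.trans hkh
    set p := F1_poly X h b k with hp
    have hp1 : F1_poly X h b (k + 1) = p + h • X p := rfl
    have hpr : ‖p - b‖ ≤ r * CL := i1.trans (mul_le_mul_of_nonneg_right hkh hCL.le)
    have hpb2 : p ∈ ball b (r0 / 2) := by
      rw [mem_ball, dist_eq_norm]
      linarith
    have hpb : p ∈ ball b r0 := ball_subset_ball (by linarith) hpb2
    have hholo : DifferentiableOn ℂ X.1 (ball b r0) := X.holo.mono hD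
    have hXp : ‖X p‖ ≤ CL := hX p hpb
    have hl : ‖X p - X b‖ ≤ 4 * CL / r0 * ‖p - b‖ :=
      cauchy_lip hr0 hholo hX hpb2 (mem_ball_self (by positivity))
    have hl' : ‖X p - X b‖ ≤ 4 * CL / r0 * (r * CL) :=
      hl.trans (mul_le_mul_of_nonneg_left hpr (by positivity))
    have hs : ‖X p - X b - fderiv ℂ X.1 b (p - b)‖ ≤ 8 * CL / r0 ^ 2 * ‖p - b‖ ^ 2 :=
      cauchy_second hr0 hholo hX hpb2
    have hs' : ‖X p - X b - fderiv ℂ X.1 b (p - b)‖ ≤ 8 * CL / r0 ^ 2 * (r * CL) ^ 2 := by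
      refine hs.trans (mul_le_mul_of_nonneg_left ?_ (by positivity))
      exact pow_le_pow_left₀ (norm_nonneg _) hpr 2
    have hf : ‖fderiv ℂ X.1 b‖ ≤ 2 * CL / r0 := cauchy_fderiv hr0 hholo hX
    rw [hp1]
    refine ⟨?_, ?_, ?_⟩
    · have e : p + h • X p - b = (p - b) + h • X p := by abel
      rw [e]
      refine (norm_add_le _ _).trans ?_
      rw [norm_smul, Real.norm_eq_abs, abs_of_nonneg hh]
      push_cast
      nlinarith
    · have e : p + h • X p - b - (((k + 1 : ℕ) : ℝ) * h) • X b =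
          (p - b - (k * h) • X b) + h • (X p - X b) := by
        push_cast
        module
      rw [e]
      refine (norm_add_le _ _).trans ?_
      rw [norm_smul, Real.norm_eq_abs, abs_of_nonneg hh]
      push_cast
      have := mul_le_mul_of_nonneg_left hl' hh
      linarith
    · have e2 : fderiv ℂ X.1 b (p - b) =
          (k * h) • fderiv ℂ X.1 b (X b) + fderiv ℂ X.1 b (p - b - (k * h) • X b) := by
        have e3 : fderiv ℂ X.1 b ((k * h : ℝ) • X b) = (k * h : ℝ) • fderiv ℂ X.1 b (X b) :=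
          ContinuousLinearMap.map_smul_of_tower _ _ _
        have e4 : fderiv ℂ X.1 b (p - b - (k * h) • X b) =
            fderiv ℂ X.1 b (p - b) - fderiv ℂ X.1 b ((k * h : ℝ) • X b) := map_sub _ _ _
        rw [e4, e3]
        abel
      have e : p + h • X p - b - (((k + 1 : ℕ) : ℝ) * h) • X b -
          (h ^ 2 * (((k + 1 : ℕ) : ℝ) * (((k + 1 : ℕ) : ℝ) - 1) / 2)) • fderiv ℂ X.1 b (X b) =
          (p - b - (k * h) • X b - (h ^ 2 * (k * (k - 1) / 2)) • fderiv ℂ X.1 b (X b)) +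
          h • ((X p - X b - fderiv ℂ X.1 b (p - b)) +
            fderiv ℂ X.1 b (p - b - (k * h) • X b)) := by
        have e4 : fderiv ℂ X.1 b (p - b - (k * h) • X b) =
            fderiv ℂ X.1 b (p - b) - (k * h) • fderiv ℂ X.1 b (X b) := by
          rw [e2]; abel
        rw [e4]
        push_cast
        module
      rw [e]
      refine (norm_add_le _ _).trans ?_
      rw [norm_smul, Real.norm_eq_abs, abs_of_nonneg hh]
      have hD1 : ‖fderiv ℂ X.1 b (p - b - (k * h) • X b)‖ ≤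
          2 * CL / r0 * (r * (4 * CL / r0 * (r * CL))) := by
        refine (ContinuousLinearMap.le_opNorm _ _).trans ?_
        refine mul_le_mul hf (i2.trans ?_) (norm_nonneg _) (by positivity)
        exact mul_le_mul_of_nonneg_right hkh (by positivity)
      have hsum := (norm_add_le (X p - X b - fderiv ℂ X.1 b (p - b))
        (fderiv ℂ X.1 b (p - b - (k * h) • X b))).trans (add_le_add hs' hD1)
      have := mul_le_mul_of_nonneg_left hsum hh
      push_cast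
      refine (add_le_add i3 this).trans (le_of_eq ?_)
      ring

theorem euler (A : BaseAct Ω Γ) {K : Set (E n)} (hK : K ⊆ Ω.D) (hKc : IsCompact K) :
    ∃ C ρ : ℝ, 0 < C ∧ 0 < ρ ∧ ∀ V X : Lie A, ‖V‖ ≤ 1 → ‖X‖ ≤ 1 → brL A V X = 0 →
      ∀ b ∈ K, ∀ r : ℝ, 0 ≤ r → r ≤ ρ → ∀ q : E n,
        q = b + r • X b + (r ^ 2 / 2) • fderiv ℂ X b (X b) →
        |carLen Ω q (V q) - carLen Ω b (V b)| ≤ C * r ^ 3 := by
  obtain ⟨r0, hr0, hrK⟩ := hKc.exists_cthickening_subset_open Ω.isOpen hK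
  obtain ⟨C1, ρ1, hC1, hρ1, h1⟩ := one_step A hrK hKc.cthickening
  obtain ⟨C5, ρ5, hC5, hρ5, h5⟩ := F1_lip A hrK hKc.cthickening
  obtain ⟨CL, hCL, hL⟩ := Lie.bound A hrK hKc.cthickening
  obtain ⟨M, hM⟩ : ∃ M : ℝ, M = 8 * CL / r0 ^ 2 * CL ^ 2 + 2 * CL / r0 * (4 * CL / r0 * CL) :=
    ⟨_, rfl⟩
  have hM0 : 0 < M := by rw [hM]; positivity
  obtain ⟨ρ, hρ, e1, e2, e3⟩ : ∃ ρ : ℝ, 0 < ρ ∧ ρ ≤ ρ1 ∧ ρ * CL ≤ r0 / 8 ∧
      ρ * (3 * CL) ≤ ρ5 := by
    refine ⟨min ρ1 (min (r0 / 8 / CL) (ρ5 / (3 * CL))), by positivity, min_le_left _ _, ?_, ?_⟩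
    · exact (le_div_iff₀ hCL).mp ((min_le_right _ _).trans (min_le_left _ _))
    · exact (le_div_iff₀ (by positivity)).mp ((min_le_right _ _).trans (min_le_right _ _))
  refine ⟨C5 * M, ρ, by positivity, hρ, ?_⟩
  intro V X hV hX hVX b hb r hr hrρ q hq
  have hball : ball b r0 ⊆ cthickening r0 K :=
    ball_subset_closedBall.trans (closedBall_subset_cthickening hb r0)
  have hXb : ∀ y ∈ ball b r0, ‖X y‖ ≤ CL := by
    intro y hy
    have := hL X y (hball hy)
    nlinarith [norm_nonneg X]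
  have hrCL : r * CL ≤ r0 / 8 := (mul_le_mul_of_nonneg_right hrρ hCL.le).trans e2
  have hholo : DifferentiableOn ℂ X.1 (ball b r0) := X.holo.mono (hball.trans hrK)
  have hf : ‖fderiv ℂ X.1 b‖ ≤ 2 * CL / r0 := cauchy_fderiv hr0 hholo hXb
  have hXbb : ‖X b‖ ≤ CL := hXb b (mem_ball_self hr0)
  have hDX : ‖fderiv ℂ X.1 b (X b)‖ ≤ 2 * CL / r0 * CL :=
    (ContinuousLinearMap.le_opNorm _ _).trans (mul_le_mul hf hXbb (norm_nonneg _) (by positivity))
  -- the bound for every number of steps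
  have key : ∀ N : ℕ, 1 ≤ N → |carLen Ω q (V q) - carLen Ω b (V b)| ≤
      C5 * M * r ^ 3 + (C1 * r ^ 2 + C5 * (r ^ 2 / 2 * (2 * CL / r0 * CL))) / N := by
    intro N hN
    have hN0 : (0 : ℝ) < N := by exact_mod_cast hN
    obtain ⟨h, hh⟩ : ∃ h : ℝ, h = r / N := ⟨_, rfl⟩
    have hNh : N * h = r := by rw [hh]; field_simp
    have hh0 : 0 ≤ h := by rw [hh]; positivity
    have hhr : h ≤ r := by
      rw [hh]
      exact div_le_self hr (by exact_mod_cast hN)
    have est := fun k hk => F1_poly_est (X := X) (b := b) hr0 hCL (hball.trans hrK) hXb hh0 hrCL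
      (N := N) hNh.le k hk
    -- the polygon stays in the compact set
    have hmem : ∀ k ≤ N, F1_poly X h b k ∈ cthickening r0 K := by
      intro k hk
      have h1 := (est k hk).1
      have h2 : (k : ℝ) * h ≤ r := by
        rw [← hNh]
        exact mul_le_mul_of_nonneg_right (by exact_mod_cast hk) hh0
      refine mem_cthickening_of_dist_le _ b r0 K hb ?_
      rw [dist_eq_norm]
      have h3 := mul_le_mul_of_nonneg_right h2 hCL.le
      linarith
    -- sum of the steps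
    have hsteps : ∀ k ≤ N, |carLen Ω (F1_poly X h b k) (V (F1_poly X h b k)) -
        carLen Ω b (V b)| ≤ k * (C1 * h ^ 2) := by
      intro k
      induction k with
      | zero => intro _; simp [F1_poly]
      | succ k ih =>
        intro hk
        have i1 := ih (by omega)
        have i2 := h1 V X hV hX hVX (F1_poly X h b k) (hmem k (by omega)) h hh0
          (hhr.trans (hrρ.trans e1))
        have e : F1_poly X h b (k + 1) = F1_poly X h b k + h • X (F1_poly X h b k) := rfl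
        rw [e]
        push_cast
        rw [abs_le] at i1 i2 ⊢
        constructor <;> linarith [i1.1, i1.2, i2.1, i2.2]
    obtain ⟨p, hp⟩ : ∃ p : E n, p = F1_poly X h b N := ⟨_, rfl⟩
    have hpK : p ∈ cthickening r0 K := by rw [hp]; exact hmem N le_rfl
    have s1 : |carLen Ω p (V p) - carLen Ω b (V b)| ≤ C1 * r ^ 2 / N := by
      rw [hp]
      refine (hsteps N le_rfl).trans (le_of_eq ?_)
      rw [hh]
      field_simp
    -- the end point
    have s2 : ‖q - p‖ ≤ M * r ^ 3 + r ^ 2 / 2 * (2 * CL / r0 * CL) / N := by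
      have i3 := (est N le_rfl).2.2
      rw [← hp, hNh] at i3
      have e : q - p = -(p - b - r • X b - (h ^ 2 * (N * (N - 1) / 2)) • fderiv ℂ X.1 b (X b)) +
          (r ^ 2 / 2 / N) • fderiv ℂ X.1 b (X b) := by
        have e5 : h ^ 2 * (N * (N - 1) / 2) = r ^ 2 / 2 - r ^ 2 / 2 / N := by
          rw [hh]
          field_simp
        rw [hq, e5]
        change b + r • X b + (r ^ 2 / 2) • fderiv ℂ X.1 b (X b) - p = _
        module
      rw [e]
      refine (norm_add_le _ _).trans ?_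
      rw [norm_neg, norm_smul, Real.norm_eq_abs, abs_of_nonneg (by positivity)]
      have i4 := mul_le_mul_of_nonneg_left hDX (show (0 : ℝ) ≤ r ^ 2 / 2 / N by positivity)
      have i5 : r ^ 2 / 2 / N * (2 * CL / r0 * CL) = r ^ 2 / 2 * (2 * CL / r0 * CL) / N := by
        ring
      rw [i5] at i4
      have i6 : r * ((8 * CL / r0 ^ 2 * CL ^ 2 + 2 * CL / r0 * (4 * CL / r0 * CL)) * r ^ 2) =
          M * r ^ 3 := by rw [hM]; ring
      rw [i6] at i3
      exact add_le_add i3 i4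
    have s3 : ‖q - p‖ ≤ ρ5 := by
      have j1 : ‖p - b‖ ≤ r * CL := by
        have := (est N le_rfl).1
        rwa [← hp, hNh] at this
      have j2 : ‖q - b‖ ≤ r * CL + r ^ 2 / 2 * (2 * CL / r0 * CL) := by
        have e : q - b = r • X b + (r ^ 2 / 2) • fderiv ℂ X.1 b (X b) := by
          rw [hq, add_assoc]
          exact add_sub_cancel_left _ _
        rw [e]
        refine (norm_add_le _ _).trans ?_
        rw [norm_smul, norm_smul, Real.norm_eq_abs, Real.norm_eq_abs, abs_of_nonneg hr,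
          abs_of_nonneg (show (0 : ℝ) ≤ r ^ 2 / 2 by positivity)]
        exact add_le_add (mul_le_mul_of_nonneg_left hXbb hr)
          (mul_le_mul_of_nonneg_left hDX (by positivity))
      have j3 : r ^ 2 / 2 * (2 * CL / r0 * CL) ≤ r * CL := by
        have : r ^ 2 / 2 * (2 * CL / r0 * CL) = r * CL * (r * CL / r0) := by
          field_simp
        rw [this]
        have j4 : r * CL / r0 ≤ 1 := by
          rw [div_le_one hr0]
          linarith
        exact mul_le_of_le_one_right (by positivity) j4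
      have j5 : ‖q - p‖ ≤ ‖q - b‖ + ‖p - b‖ := by
        have e : q - p = (q - b) - (p - b) := by abel
        rw [e]
        exact norm_sub_le _ _
      have j6 := mul_le_mul_of_nonneg_right hrρ (show (0 : ℝ) ≤ 3 * CL by positivity)
      linarith
    have s4 := h5 V hV p hpK q s3
    have s5 := mul_le_mul_of_nonneg_left s2 hC5.le
    have s6 : C5 * (M * r ^ 3 + r ^ 2 / 2 * (2 * CL / r0 * CL) / N) + C1 * r ^ 2 / N =
        C5 * M * r ^ 3 + (C1 * r ^ 2 + C5 * (r ^ 2 / 2 * (2 * CL / r0 * CL))) / N := by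
      ring
    rw [← s6]
    rw [abs_le] at s1 s4 ⊢
    constructor <;> linarith [s1.1, s1.2, s4.1, s4.2]
  -- many steps
  refine le_of_forall_pos_le_add fun ε hε => ?_
  obtain ⟨c, hc⟩ : ∃ c : ℝ, c = C1 * r ^ 2 + C5 * (r ^ 2 / 2 * (2 * CL / r0 * CL)) := ⟨_, rfl⟩
  obtain ⟨N, hN⟩ := exists_nat_gt (c / ε)
  have hc0 : 0 ≤ c := by rw [hc]; positivity
  have hN1 : 1 ≤ N := by
    have : (0 : ℝ) < N := lt_of_le_of_lt (by positivity) hN
    exact_mod_cast this
  have hN0 : (0 : ℝ) < N := by exact_mod_cast hN1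
  refine (key N hN1).trans ?_
  rw [← hc]
  have : c / N ≤ ε := by
    rw [div_le_iff₀ hN0]
    rw [div_lt_iff₀ hε] at hN
    linarith
  linarith

end Pool.Agent.H.MP_e23cd6_ag.AB
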