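import Pool.Agent.H.MP_e23cd6_ag.AB.F1

/-!
ABUN F2: commuting limit fields V, W with W b = i V b vanish at b.

Proof. Scale V, W by the same positive factor so that ‖V‖, ‖W‖ ≤ 1/2. K = {b}. For real θ let X = cos θ V + sin θ W: ‖X‖ ≤ 1,
brL V X = 0 (bilinear; brL V V = 0 by antisymmetry), X b = e^{iθ} V b, and
DX(b) X b = e^{iθ} (cos θ DV(b) + sin θ DW(b)) V b. Since brL V W = 0: DW(b) V b = DV(b) W b = i DV(b) V b. So
DX(b) X b = e^{2iθ} DV(b) V b.
`euler` with r: for z = r e^{iθ}, |z| ≤ ρ, φ₂(z) = b + z V b + (z²/2) DV(b) V b: |carLen (φ₂ z) (V (φ₂ z)) - k0| ≤ C|z|³, k0 = carLen b (V b).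
Let φ(z) = the holomorphic primitive of z ↦ V(φ₂ z) on a small disc with φ(0) = b (φ₂ z stays in a ball inside D for |z| < ρ';
`DifferentiableOn.isExactOn_ball` or the one variable primitive on a disc, HasPrimitives). φ'(z) = V(φ₂ z). φ₂'(z) = V b + z DV(b) V b and
V(φ₂ z) = V b + DV(b)(φ₂ z - b) + O(|z|²) = V b + z DV(b) V b + O(|z|²), so |φ'(z) - φ₂'(z)| ≤ C|z|² and |φ z - φ₂ z| ≤ C|z|³ (mean value
inequality). By `carLen_lip` |carLen (φ z) (φ' z) - carLen (φ₂ z) (V (φ₂ z))| ≤ C|z|³, hence carLen (φ z) (φ' z) ≤ k0 + C|z|³ for |z| ≤ ρ''.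
Suppose V b ≠ 0: k0 > 0 (`carLen_pos`). Let f ∈ UD with f b = 0, m = |Df(b) V b|; any f ∈ UD with |Df(b) V b| ≥ k0 - ε can be
replaced by its composition with the disc automorphism taking f b to 0, which increases |Df(b) V b| (the
derivative is divided by 1 - |f b|²). h = f ∘ φ holomorphic near the closed disc of radius r, h(0) = 0, |h'(0)| = m ≥ k0 - ε, |h'(z)| ≤
(1 - |h z|²) carLen (φ z) (φ' z) ≤ (1 - |h z|²)(k0 + C r³) on |z| = r (`carLen_schwarz`). Mean values over the circle |z| = r (circleAverage):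
|h'(0)| ≤ avg |h'| ≤ (k0 + C r³)(1 - avg |h|²), and avg |h|² ≥ |avg (h(z) conj z)/r|² ... precisely: h'(0) = avg (h(z)/z) so
m ≤ avg |h|/r, m² r² ≤ (avg |h|)² ≤ avg |h|² (Cauchy-Schwarz / Jensen). So m ≤ (k0 + C r³)(1 - m² r²) with m between k0 - ε and
k0; let ε → 0: k0 ≤ (k0 + C r³)(1 - k0² r²), so k0³ r² ≤ C r³, for all small r > 0: k0 = 0. Contradiction.
-/

open Set Filter Topology Metric ComplexConjugate

namespace Pool.Agent.H.MP_e23cd6_ag.AB

variable {n : ℕ} {Ω : Dom n} {Γ : Type} [Group Γ]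

/-- a maximum principle for holomorphic functions satisfying a differential inequality -/
theorem F2_disc {h : ℂ → ℂ} {r R k : ℝ} (hr : 0 < r) (hrR : r < R) (hk : 0 ≤ k)
    (hh : DifferentiableOn ℂ h (ball 0 R))
    (hd : ∀ z : ℂ, ‖z‖ = r → ‖deriv h z‖ ≤ (1 - ‖h z‖ ^ 2) * k) :
    ‖deriv h 0‖ ≤ k * (1 - ‖deriv h 0‖ ^ 2 * r ^ 2) := by
  by_cases hm0 : deriv h 0 = 0
  · rw [hm0]
    simpa using hk
  set m' : ℂ := deriv h 0 with hm'
  set a : ℂ := h 0 with ha
  have hm : 0 < ‖m'‖ := norm_pos_iff.2 hm0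
  set c : ℂ := conj m' / (‖m'‖ : ℂ) with hc
  have hcn : ‖c‖ = 1 := by
    rw [hc, norm_div, Complex.norm_conj, Complex.norm_real, norm_norm, div_self hm.ne']
  have hcm : c * m' = (‖m'‖ : ℂ) := by
    rw [hc, div_mul_eq_mul_div, mul_comm (conj m') m', Complex.mul_conj,
      Complex.normSq_eq_norm_sq]
    have : (‖m'‖ : ℂ) ≠ 0 := by exact_mod_cast hm.ne'
    field_simp
    push_cast
    ring
  have h0R : (0 : ℂ) ∈ ball (0 : ℂ) R := mem_ball_self (hr.trans hrR)
  have hsub : closedBall (0 : ℂ) r ⊆ ball 0 R := closedBall_subset_ball hrR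
  set G : ℂ → ℂ := fun z => c * deriv h z +
    2 * k * (conj a * h z + conj m' * r ^ 2 * dslope h 0 z) with hG
  have hds : DifferentiableOn ℂ (dslope h 0) (ball 0 R) :=
    (Complex.differentiableOn_dslope (isOpen_ball.mem_nhds h0R)).2 hh
  have hGd : DifferentiableOn ℂ G (ball 0 R) := by
    refine ((hh.deriv isOpen_ball).const_mul c).add (DifferentiableOn.const_mul ?_ _)
    exact (hh.const_mul _).add (hds.const_mul _)
  set M : ℝ := k * (1 + ‖a‖ ^ 2 + ‖m'‖ ^ 2 * r ^ 2) with hM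
  have hbd : ∀ z : ℂ, ‖z‖ = r → (G z).re ≤ M := by
    intro z hz
    have hz0 : z ≠ 0 := by
      intro h0
      rw [h0, norm_zero] at hz
      exact hr.ne hz
    have h1 : (c * deriv h z).re ≤ ‖deriv h z‖ := by
      refine (Complex.re_le_norm _).trans ?_
      rw [norm_mul, hcn, one_mul]
    have hds2 : dslope h 0 z = (h z - a) / z := by
      rw [dslope_of_ne _ hz0, slope_def_field, sub_zero]
    -- |h z - (a + m' z)|^2 ≥ 0
    have h2 : 0 ≤ Complex.normSq (h z - (a + m' * z)) := Complex.normSq_nonneg _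
    have hzz : (r : ℂ) ^ 2 = z * conj z := by
      rw [Complex.mul_conj, Complex.normSq_eq_norm_sq, hz]
      push_cast
      ring
    have h3 : conj m' * r ^ 2 * dslope h 0 z = conj m' * conj z * (h z - a) := by
      rw [hds2, hzz]
      field_simp
    have h4 : Complex.normSq (h z - (a + m' * z)) =
        Complex.normSq (h z) + Complex.normSq a + Complex.normSq m' * Complex.normSq z
          - 2 * (conj a * h z + conj m' * conj z * (h z - a)).re := by
      simp only [Complex.normSq_apply, Complex.sub_re, Complex.sub_im, Complex.add_re,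
        Complex.add_im, Complex.mul_re, Complex.mul_im, Complex.conj_re, Complex.conj_im]
      ring
    have h5 : (G z).re = (c * deriv h z).re +
        2 * k * (conj a * h z + conj m' * conj z * (h z - a)).re := by
      simp only [hG]
      rw [h3, Complex.add_re]
      congr 1
      have : (2 * (k : ℂ) * (conj a * h z + conj m' * conj z * (h z - a))) =
          ((2 * k : ℝ) : ℂ) * (conj a * h z + conj m' * conj z * (h z - a)) := by
        push_cast
        ring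
      rw [this, Complex.re_ofReal_mul]
    rw [Complex.normSq_eq_norm_sq, Complex.normSq_eq_norm_sq, Complex.normSq_eq_norm_sq,
      Complex.normSq_eq_norm_sq, Complex.normSq_eq_norm_sq, hz] at h4
    have h6 : 2 * (conj a * h z + conj m' * conj z * (h z - a)).re ≤
        ‖h z‖ ^ 2 + ‖a‖ ^ 2 + ‖m'‖ ^ 2 * r ^ 2 := by
      have h7 : 0 ≤ ‖h z - (a + m' * z)‖ ^ 2 := by positivity
      linarith
    have h8 := hd z hz
    have h9 : 2 * k * (conj a * h z + conj m' * conj z * (h z - a)).re ≤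
        k * (‖h z‖ ^ 2 + ‖a‖ ^ 2 + ‖m'‖ ^ 2 * r ^ 2) := by
      have := mul_le_mul_of_nonneg_left h6 hk
      linarith
    rw [h5, hM]
    nlinarith
  have hmax : ‖Complex.exp (G 0)‖ ≤ Real.exp M := by
    refine Complex.norm_le_of_forall_mem_frontier_norm_le (U := ball (0 : ℂ) r) isBounded_ball
      (f := fun z => Complex.exp (G z)) ?_ ?_ (subset_closure (mem_ball_self hr))
    · have h1 : DifferentiableOn ℂ (fun z => Complex.exp (G z)) (ball 0 R) := hGd.cexp
      refine DifferentiableOn.diffContOnCl ?_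
      rw [closure_ball _ hr.ne']
      exact h1.mono hsub
    · intro z hz
      rw [frontier_ball _ hr.ne', mem_sphere_zero_iff_norm] at hz
      rw [Complex.norm_exp]
      exact Real.exp_le_exp.2 (hbd z hz)
  rw [Complex.norm_exp, Real.exp_le_exp] at hmax
  have hG0 : (G 0).re = ‖m'‖ + 2 * k * (‖a‖ ^ 2 + ‖m'‖ ^ 2 * r ^ 2) := by
    have h1 : G 0 = ((‖m'‖ + 2 * k * (‖a‖ ^ 2 + ‖m'‖ ^ 2 * r ^ 2) : ℝ) : ℂ) := by
      simp only [hG]
      rw [dslope_same, ← hm', ← ha, hcm]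
      have e1 : conj a * a = ((‖a‖ ^ 2 : ℝ) : ℂ) := by
        rw [mul_comm, Complex.mul_conj, Complex.normSq_eq_norm_sq]
      have e2 : conj m' * m' = ((‖m'‖ ^ 2 : ℝ) : ℂ) := by
        rw [mul_comm, Complex.mul_conj, Complex.normSq_eq_norm_sq]
      have e3 : conj m' * (r : ℂ) ^ 2 * m' = (conj m' * m') * (r : ℂ) ^ 2 := by ring
      rw [e3, e1, e2]
      push_cast
      ring
    rw [h1, Complex.ofReal_re]
  rw [hG0, hM] at hmax
  nlinarith [mul_nonneg hk (sq_nonneg ‖a‖)]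

/-- the real combination of two fields in direction `θ` -/
noncomputable def F2X {A : BaseAct Ω Γ} (V W : Lie A) (θ : ℝ) : Lie A :=
  Real.cos θ • V + Real.sin θ • W

theorem F2X_apply {A : BaseAct Ω Γ} (V W : Lie A) (θ : ℝ) (x : E n) :
    F2X V W θ x = Real.cos θ • V x + Real.sin θ • W x := rfl

theorem F2_exp (θ : ℝ) (v : E n) :
    Real.cos θ • v + Real.sin θ • (Complex.I • v) = Complex.exp (θ * Complex.I) • v := by
  rw [Complex.exp_mul_I]
  ext i
  simp only [Pi.add_apply, Pi.smul_apply, Complex.real_smul, smul_eq_mul, Complex.ofReal_cos,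
    Complex.ofReal_sin]
  ring

theorem F2X_at {A : BaseAct Ω Γ} {V W : Lie A} {b : E n} (h : W b = Complex.I • V b) (θ : ℝ) :
    F2X V W θ b = Complex.exp (θ * Complex.I) • V b := by
  rw [F2X_apply, h, F2_exp]

theorem F2X_fderiv {A : BaseAct Ω Γ} {V W : Lie A} (hc : brL A V W = 0) {b : E n}
    (hb : b ∈ Ω.D) (h : W b = Complex.I • V b) (θ : ℝ) :
    fderiv ℂ (F2X V W θ : E n → E n) b (F2X V W θ b) =
      (Complex.exp (θ * Complex.I)) ^ 2 • fderiv ℂ (V : E n → E n) b (V b) := by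
  have hV : DifferentiableAt ℂ (V : E n → E n) b :=
    V.holo.differentiableAt (Ω.isOpen.mem_nhds hb)
  have hW : DifferentiableAt ℂ (W : E n → E n) b :=
    W.holo.differentiableAt (Ω.isOpen.mem_nhds hb)
  have h1 : HasFDerivAt (F2X V W θ : E n → E n)
      (Real.cos θ • fderiv ℂ (V : E n → E n) b + Real.sin θ • fderiv ℂ (W : E n → E n) b) b :=
    (hV.hasFDerivAt.const_smul (Real.cos θ)).add (hW.hasFDerivAt.const_smul (Real.sin θ))
  have h2 : fderiv ℂ (W : E n → E n) b (V b) = Complex.I • fderiv ℂ (V : E n → E n) b (V b) := by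
    have h3 := brL_apply V W hb
    rw [hc, Lie.zero_apply, h, map_smul] at h3
    exact (sub_eq_zero.1 h3.symm).symm
  rw [h1.fderiv, F2X_at h, map_smul, add_apply, smul_apply, smul_apply, h2, F2_exp, smul_smul, sq]

theorem F2X_norm {A : BaseAct Ω Γ} {V W : Lie A} (hV : ‖V‖ ≤ 1 / 2) (hW : ‖W‖ ≤ 1 / 2) (θ : ℝ) :
    ‖F2X V W θ‖ ≤ 1 := by
  refine (norm_add_le _ _).trans ?_
  rw [norm_smul, norm_smul, Real.norm_eq_abs, Real.norm_eq_abs]
  have h1 := Real.abs_cos_le_one θ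
  have h2 := Real.abs_sin_le_one θ
  nlinarith [norm_nonneg V, norm_nonneg W, abs_nonneg (Real.cos θ), abs_nonneg (Real.sin θ)]

theorem F2_brL_self {A : BaseAct Ω Γ} (V : Lie A) : brL A V V = 0 := by
  have h1 : (2 : ℝ) • brL A V V = 0 := by
    rw [two_smul]
    nth_rewrite 2 [brL_anti]
    exact add_neg_cancel _
  exact (smul_eq_zero.1 h1).resolve_left two_ne_zero

theorem F2X_br {A : BaseAct Ω Γ} {V W : Lie A} (hc : brL A V W = 0) (θ : ℝ) :
    brL A V (F2X V W θ) = 0 := by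
  rw [F2X, map_add, map_smul, map_smul, F2_brL_self, hc, smul_zero, smul_zero, add_zero]

/-- second order approximation of the orbit of the field -/
noncomputable def F2p {A : BaseAct Ω Γ} (V : Lie A) (b : E n) (z : ℂ) : E n :=
  b + z • V b + (z ^ 2 / 2) • fderiv ℂ (V : E n → E n) b (V b)

theorem F2_euler (A : BaseAct Ω Γ) (V W : Lie A) (hV : ‖V‖ ≤ 1 / 2) (hW : ‖W‖ ≤ 1 / 2)
    (hc : brL A V W = 0) {b : E n} (hb : b ∈ Ω.D) (h : W b = Complex.I • V b) :
    ∃ C ρ : ℝ, 0 < C ∧ 0 < ρ ∧ ∀ z : ℂ, ‖z‖ ≤ ρ →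
      |carLen Ω (F2p V b z) (V (F2p V b z)) - carLen Ω b (V b)| ≤ C * ‖z‖ ^ 3 := by
  obtain ⟨C, ρ, hC, hρ, H⟩ := euler A (K := {b}) (singleton_subset_iff.2 hb) isCompact_singleton
  refine ⟨C, ρ, hC, hρ, fun z hz => ?_⟩
  set θ := Complex.arg z with hθ
  refine H V (F2X V W θ) (hV.trans (by norm_num)) (F2X_norm hV hW θ) (F2X_br hc θ) b rfl ‖z‖
    (norm_nonneg z) hz (F2p V b z) ?_
  rw [F2X_fderiv hc hb h, F2X_at h, F2p]
  have h1 : (‖z‖ : ℂ) * Complex.exp (θ * Complex.I) = z := Complex.norm_mul_exp_arg_mul_I z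
  have h2 : ‖z‖ • (Complex.exp (θ * Complex.I) • V b) = z • V b := by
    rw [← Complex.coe_smul, smul_smul, h1]
  have h3 : (‖z‖ ^ 2 / 2) • ((Complex.exp (θ * Complex.I)) ^ 2 • fderiv ℂ (V : E n → E n) b (V b)) =
      (z ^ 2 / 2) • fderiv ℂ (V : E n → E n) b (V b) := by
    rw [← Complex.coe_smul, smul_smul]
    congr 1
    have h4 : z ^ 2 = ((‖z‖ : ℂ) * Complex.exp (θ * Complex.I)) ^ 2 := by rw [h1]
    rw [h4]
    push_cast
    ring
  rw [h2, h3]

/-- a holomorphic disc whose velocity has almost constant Caratheodory length -/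
theorem F2_path (A : BaseAct Ω Γ) (V W : Lie A) (hV : ‖V‖ ≤ 1 / 2) (hW : ‖W‖ ≤ 1 / 2)
    (hc : brL A V W = 0) {b : E n} (hb : b ∈ Ω.D) (h : W b = Complex.I • V b) :
    ∃ C ρ : ℝ, 0 < C ∧ 0 < ρ ∧ ∃ φ : ℂ → E n, φ 0 = b ∧ ∀ z ∈ ball (0 : ℂ) ρ,
      HasDerivAt φ (V (F2p V b z)) z ∧ φ z ∈ Ω.D ∧
        carLen Ω (φ z) (V (F2p V b z)) ≤ carLen Ω b (V b) + C * ‖z‖ ^ 3 := by
  obtain ⟨C1, ρ1, hC1, hρ1, H1⟩ := F2_euler A V W hV hW hc hb h
  obtain ⟨R0, hR0, hR0D⟩ := Metric.isOpen_iff.1 Ω.isOpen b hb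
  set R : ℝ := R0 / 2 with hR
  have hRpos : 0 < R := by positivity
  have hclD : closedBall b R ⊆ Ω.D := by
    refine (closedBall_subset_ball ?_).trans hR0D
    rw [hR]
    linarith
  obtain ⟨M, hM, HM⟩ := Lie.bound A hclD (isCompact_closedBall b R)
  obtain ⟨CL, ρL, hCL, hρL, HL⟩ := carLen_lip Ω (K := closedBall b (R / 2))
    ((closedBall_subset_closedBall (by linarith)).trans hclD) (isCompact_closedBall b (R / 2))
  set v : E n := V b with hv
  set Q : E n := fderiv ℂ (V : E n → E n) b v with hQ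
  set S : ℝ := ‖v‖ + ‖Q‖ + 1 with hS
  have hSpos : 0 < S := by positivity
  set C2 : ℝ := 8 * M / R ^ 2 * S ^ 2 + ‖fderiv ℂ (V : E n → E n) b Q‖ + 1 with hC2
  have hC2pos : 0 < C2 := by positivity
  have hVM : ∀ x ∈ closedBall b R, ‖V x‖ ≤ M := by
    intro x hx
    refine (HM V x hx).trans ?_
    nlinarith
  -- choice of the radius
  set ρ : ℝ := min (min ρ1 1) (min (R / (4 * S)) (min (R / (4 * C2)) (ρL / C2))) with hρ
  have hρpos : 0 < ρ := by positivity
  have hρa : ρ ≤ ρ1 := (min_le_left _ _).trans (min_le_left _ _)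
  have hρb : ρ ≤ 1 := (min_le_left _ _).trans (min_le_right _ _)
  have hρc : ρ ≤ R / (4 * S) := (min_le_right _ _).trans (min_le_left _ _)
  have hρd : ρ ≤ R / (4 * C2) :=
    (min_le_right _ _).trans ((min_le_right _ _).trans (min_le_left _ _))
  have hρe : ρ ≤ ρL / C2 := (min_le_right _ _).trans ((min_le_right _ _).trans (min_le_right _ _))
  have hρc' : S * ρ ≤ R / 4 := by
    rw [le_div_iff₀ (by positivity)] at hρc
    linarith
  have hρd' : C2 * ρ ≤ R / 4 := by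
    rw [le_div_iff₀ (by positivity)] at hρd
    linarith
  have hρe' : C2 * ρ ≤ ρL := by
    rw [le_div_iff₀ (by positivity)] at hρe
    linarith
  -- the second order approximation
  have hp0 : F2p V b 0 = b := by simp [F2p]
  have hpn : ∀ z : ℂ, ‖z‖ < ρ → ‖F2p V b z - b‖ ≤ S * ‖z‖ := by
    intro z hz
    have h1 : F2p V b z - b = z • v + (z ^ 2 / 2) • Q := by
      rw [F2p]
      abel
    rw [h1]
    refine (norm_add_le _ _).trans ?_
    rw [norm_smul, norm_smul, norm_div, norm_pow, Complex.norm_ofNat]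
    have hz1 : ‖z‖ ≤ 1 := (hz.trans_le hρb).le
    have h2 : ‖z‖ ^ 2 ≤ ‖z‖ := by nlinarith [norm_nonneg z]
    nlinarith [norm_nonneg z, norm_nonneg v, norm_nonneg Q,
      mul_le_mul_of_nonneg_right h2 (norm_nonneg Q)]
  have hpn2 : ∀ z : ℂ, ‖z‖ < ρ → ‖F2p V b z - b‖ ≤ R / 4 := by
    intro z hz
    refine (hpn z hz).trans (le_trans ?_ hρc')
    exact mul_le_mul_of_nonneg_left hz.le hSpos.le
  have hpball : ∀ z : ℂ, ‖z‖ < ρ → F2p V b z ∈ ball b (R / 2) := by
    intro z hz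
    rw [mem_ball, dist_eq_norm]
    exact (hpn2 z hz).trans_lt (by linarith)
  have hpD : ∀ z : ℂ, ‖z‖ < ρ → F2p V b z ∈ Ω.D := fun z hz =>
    hclD (closedBall_subset_closedBall (by linarith) (ball_subset_closedBall (hpball z hz)))
  have hpd : ∀ z : ℂ, HasDerivAt (F2p V b) (v + z • Q) z := by
    intro z
    have h1 : HasDerivAt (fun z : ℂ => z • v) ((1 : ℂ) • v) z := (hasDerivAt_id z).smul_const v
    have h2 : HasDerivAt (fun z : ℂ => (z ^ 2 / 2) • Q) (z • Q) z := by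
      have h3 : HasDerivAt (fun z : ℂ => z ^ 2 / 2) z z := by
        have := (hasDerivAt_pow 2 z).div_const 2
        simpa using this
      exact h3.smul_const Q
    have h4 := (h1.const_add b).add h2
    rw [one_smul] at h4
    exact h4
  -- the velocity field along the approximation
  have hgd : DifferentiableOn ℂ (fun z => V (F2p V b z)) (ball 0 ρ) := by
    refine V.holo.comp (fun z _ => (hpd z).differentiableAt.differentiableWithinAt) ?_
    intro z hz
    rw [mem_ball_zero_iff] at hz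
    exact hpD z hz
  obtain ⟨φ, hφ0, hφ⟩ := Complex.IsExactOn.with_val_at hgd.isExactOn_ball 0 b
  have hge : ∀ z : ℂ, ‖z‖ < ρ → ‖V (F2p V b z) - (v + z • Q)‖ ≤ C2 * ‖z‖ ^ 2 := by
    intro z hz
    have h1 := cauchy_second (f := (V : E n → E n)) (x := b) (r := R) (m := M) hRpos
      (V.holo.mono (ball_subset_closedBall.trans hclD))
      (fun y hy => hVM y (ball_subset_closedBall hy)) (hpball z hz)
    have h2 : fderiv ℂ (V : E n → E n) b (F2p V b z - b) =
        z • Q + (z ^ 2 / 2) • fderiv ℂ (V : E n → E n) b Q := by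
      have h3 : F2p V b z - b = z • v + (z ^ 2 / 2) • Q := by
        rw [F2p]
        abel
      rw [h3, map_add, map_smul, map_smul]
    rw [h2] at h1
    have h4 : V (F2p V b z) - (v + z • Q) =
        (V (F2p V b z) - V b - (z • Q + (z ^ 2 / 2) • fderiv ℂ (V : E n → E n) b Q)) +
          (z ^ 2 / 2) • fderiv ℂ (V : E n → E n) b Q := by
      rw [hv]
      abel
    rw [h4]
    refine (norm_add_le _ _).trans ?_
    rw [norm_smul, norm_div, norm_pow, Complex.norm_ofNat]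
    have h5 : ‖F2p V b z - b‖ ^ 2 ≤ S ^ 2 * ‖z‖ ^ 2 := by
      rw [← mul_pow]
      exact pow_le_pow_left₀ (norm_nonneg _) (hpn z hz) 2
    have h6 : 8 * M / R ^ 2 * ‖F2p V b z - b‖ ^ 2 ≤ 8 * M / R ^ 2 * (S ^ 2 * ‖z‖ ^ 2) :=
      mul_le_mul_of_nonneg_left h5 (by positivity)
    have h7 := h1.trans h6
    have h8 : 0 ≤ ‖z‖ ^ 2 := by positivity
    have h9 := norm_nonneg (fderiv ℂ (V : E n → E n) b Q)
    rw [hC2]
    nlinarith [mul_nonneg h8 h9]
  have hdiff : ∀ z : ℂ, ‖z‖ < ρ → ‖φ z - F2p V b z‖ ≤ C2 * ‖z‖ ^ 3 := by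
    intro z hz
    have hsub : closedBall (0 : ℂ) ‖z‖ ⊆ ball 0 ρ := closedBall_subset_ball hz
    have h1 := Convex.norm_image_sub_le_of_norm_hasDerivWithin_le (𝕜 := ℂ)
      (f := fun w => φ w - F2p V b w)
      (f' := fun w => V (F2p V b w) - (v + w • Q)) (s := closedBall (0 : ℂ) ‖z‖)
      (C := C2 * ‖z‖ ^ 2) (x := 0) (y := z)
      (fun w hw => ((hφ w (hsub hw)).sub (hpd w)).hasDerivWithinAt)
      (fun w hw => by
        have hw' := hsub hw
        rw [mem_ball_zero_iff] at hw'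
        rw [mem_closedBall_zero_iff] at hw
        refine (hge w hw').trans ?_
        exact mul_le_mul_of_nonneg_left (pow_le_pow_left₀ (norm_nonneg w) hw 2) hC2pos.le)
      (convex_closedBall _ _) (mem_closedBall_self (norm_nonneg z))
      (by rw [mem_closedBall_zero_iff])
    simp only [hφ0, hp0, sub_self, sub_zero] at h1
    refine h1.trans (le_of_eq ?_)
    ring
  have hdiff2 : ∀ z : ℂ, ‖z‖ < ρ → C2 * ‖z‖ ^ 3 ≤ C2 * ρ := by
    intro z hz
    have hz1 : ‖z‖ ≤ 1 := (hz.trans_le hρb).le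
    have h1 : ‖z‖ ^ 3 ≤ ‖z‖ := by
      have := pow_le_of_le_one (norm_nonneg z) hz1 (n := 3) (by norm_num)
      exact this
    exact mul_le_mul_of_nonneg_left (h1.trans hz.le) hC2pos.le
  refine ⟨C1 + CL * (C2 * M), ρ, by positivity, hρpos, φ, hφ0, fun z hz => ⟨hφ z hz, ?_, ?_⟩⟩
  · rw [mem_ball_zero_iff] at hz
    apply hclD
    rw [mem_closedBall, dist_eq_norm]
    have h1 : φ z - b = (φ z - F2p V b z) + (F2p V b z - b) := by abel
    rw [h1]
    refine (norm_add_le _ _).trans ?_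
    have h2 := (hdiff z hz).trans (hdiff2 z hz)
    have h3 := hpn2 z hz
    linarith
  · rw [mem_ball_zero_iff] at hz
    have h1 := HL (F2p V b z) (ball_subset_closedBall (hpball z hz)) (φ z) (V (F2p V b z))
      (V (F2p V b z)) (((hdiff z hz).trans (hdiff2 z hz)).trans hρe')
    rw [sub_self, norm_zero, add_zero] at h1
    have h2 := H1 z (hz.le.trans hρa)
    have h3 : ‖V (F2p V b z)‖ ≤ M := hVM _ (closedBall_subset_closedBall (by linarith)
      (ball_subset_closedBall (hpball z hz)))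
    have h4 : CL * (‖φ z - F2p V b z‖ * ‖V (F2p V b z)‖) ≤ CL * (C2 * ‖z‖ ^ 3 * M) :=
      mul_le_mul_of_nonneg_left (mul_le_mul (hdiff z hz) h3 (norm_nonneg _) (by positivity))
        hCL.le
    have h5 := (abs_le.1 h1).2
    have h6 := (abs_le.1 h2).2
    have h7 : (C1 + CL * (C2 * M)) * ‖z‖ ^ 3 = C1 * ‖z‖ ^ 3 + CL * (C2 * ‖z‖ ^ 3 * M) := by ring
    rw [h7]
    linarith

theorem F2_small (A : BaseAct Ω Γ) (V W : Lie A) (hV : ‖V‖ ≤ 1 / 2) (hW : ‖W‖ ≤ 1 / 2)
    (hc : brL A V W = 0) {b : E n} (hb : b ∈ Ω.D) (h : W b = Complex.I • V b) : V b = 0 := by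
  by_contra hne
  obtain ⟨C, ρ, hC, hρ, φ, hφ0, H⟩ := F2_path A V W hV hW hc hb h
  set k0 : ℝ := carLen Ω b (V b) with hk0
  have hk0pos : 0 < k0 := carLen_pos hb hne
  have hp0 : F2p V b 0 = b := by simp [F2p]
  have key : ∀ f ∈ UD Ω, ∀ r : ℝ, 0 < r → r < ρ →
      ‖fderiv ℂ f b (V b)‖ ≤ (k0 + C * r ^ 3) * (1 - ‖fderiv ℂ f b (V b)‖ ^ 2 * r ^ 2) := by
    intro f hf r hr hrρ
    have hder : ∀ z ∈ ball (0 : ℂ) ρ, HasDerivAt (fun z => f (φ z))
        (fderiv ℂ f (φ z) (V (F2p V b z))) z := by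
      intro z hz
      have h1 := H z hz
      have h2 : HasFDerivAt f (fderiv ℂ f (φ z)) (φ z) :=
        (hf.1.differentiableAt (Ω.isOpen.mem_nhds h1.2.1)).hasFDerivAt
      exact h2.comp_hasDerivAt z h1.1
    have h0 : deriv (fun z => f (φ z)) 0 = fderiv ℂ f b (V b) := by
      rw [(hder 0 (mem_ball_self hρ)).deriv, hφ0, hp0]
    have h3 := F2_disc (h := fun z => f (φ z)) (r := r) (R := ρ) (k := k0 + C * r ^ 3) hr hrρ
      (by positivity) (fun z hz => (hder z hz).differentiableAt.differentiableWithinAt) ?_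
    · rw [h0] at h3
      exact h3
    · intro z hz
      have hzb : z ∈ ball (0 : ℂ) ρ := by
        rw [mem_ball_zero_iff, hz]
        exact hrρ
      rw [(hder z hzb).deriv]
      have h4 := carLen_schwarz (H z hzb).2.1 hf (V (F2p V b z))
      have h5 := (H z hzb).2.2
      rw [hz] at h5
      refine h4.trans (mul_le_mul_of_nonneg_left h5 ?_)
      have h6 := hf.2 _ (H z hzb).2.1
      nlinarith [norm_nonneg (f (φ z))]
  -- choose the radius
  set r : ℝ := min (min (ρ / 2) 1) (min (k0 / 2) (k0 ^ 3 / (8 * (C + 1)))) with hr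
  have hrpos : 0 < r := by positivity
  have hr1 : r < ρ := ((min_le_left _ _).trans (min_le_left _ _)).trans_lt (by linarith)
  have hr2 : r ≤ 1 := (min_le_left _ _).trans (min_le_right _ _)
  have hr3 : r ≤ k0 / 2 := (min_le_right _ _).trans (min_le_left _ _)
  have hr4 : r ≤ k0 ^ 3 / (8 * (C + 1)) := (min_le_right _ _).trans (min_le_right _ _)
  have hr3' : r ^ 3 ≤ k0 / 2 :=
    (pow_le_of_le_one hrpos.le hr2 (by norm_num)).trans hr3
  have hr3pos : 0 < r ^ 3 := by positivity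
  have hex : ∃ f ∈ UD Ω, k0 - r ^ 3 < ‖fderiv ℂ f b (V b)‖ := by
    by_contra hno
    push Not at hno
    have h1 := carLen_le (b := b) (v := V b) hno
    rw [← hk0] at h1
    linarith
  obtain ⟨f, hf, hfm⟩ := hex
  have h1 := key f hf r hrpos hr1
  set m : ℝ := ‖fderiv ℂ f b (V b)‖ with hm
  have hmlow : k0 / 2 ≤ m := by linarith
  have hm2 : k0 ^ 2 / 4 ≤ m ^ 2 := by nlinarith
  have h2 : m + k0 * (m ^ 2 * r ^ 2) ≤ k0 + C * r ^ 3 := by
    have h3 : 0 ≤ C * r ^ 3 * (m ^ 2 * r ^ 2) := by positivity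
    nlinarith
  have h3 : k0 * (k0 ^ 2 / 4 * r ^ 2) ≤ k0 * (m ^ 2 * r ^ 2) :=
    mul_le_mul_of_nonneg_left (mul_le_mul_of_nonneg_right hm2 (by positivity)) hk0pos.le
  have h4 : k0 ^ 3 / 4 * r ^ 2 < (C + 1) * r ^ 3 := by nlinarith
  have h5 : (C + 1) * r ^ 3 ≤ k0 ^ 3 / 8 * r ^ 2 := by
    rw [le_div_iff₀ (by positivity)] at hr4
    have h6 : r * (8 * (C + 1)) * r ^ 2 ≤ k0 ^ 3 * r ^ 2 :=
      mul_le_mul_of_nonneg_right hr4 (by positivity)
    nlinarith
  have h6 : 0 < k0 ^ 3 / 8 * r ^ 2 := by positivity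
  nlinarith

theorem complex_line_zero (A : BaseAct Ω Γ) (V W : Lie A) (hc : brL A V W = 0) {b : E n}
    (hb : b ∈ Ω.D) (h : W b = Complex.I • V b) : V b = 0 := by
  set c : ℝ := (2 * (‖V‖ + ‖W‖ + 1))⁻¹ with hcdef
  have hN : 0 < ‖V‖ + ‖W‖ + 1 := by positivity
  have hcpos : 0 < c := by positivity
  have hcN : c * (‖V‖ + ‖W‖ + 1) = 1 / 2 := by
    rw [hcdef]
    field_simp
  have h1 : ‖c • V‖ ≤ 1 / 2 := by
    rw [norm_smul, Real.norm_of_nonneg hcpos.le]
    nlinarith [norm_nonneg V, norm_nonneg W]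
  have h2 : ‖c • W‖ ≤ 1 / 2 := by
    rw [norm_smul, Real.norm_of_nonneg hcpos.le]
    nlinarith [norm_nonneg V, norm_nonneg W]
  have h3 : brL A (c • V) (c • W) = 0 := by
    rw [map_smul, map_smul, LinearMap.smul_apply, hc, smul_zero, smul_zero]
  have h4 : (c • W) b = Complex.I • (c • V) b := by
    rw [Lie.smul_apply, Lie.smul_apply, h, smul_comm]
  have h5 := F2_small A (c • V) (c • W) h1 h2 h3 hb h4
  rw [Lie.smul_apply] at h5
  exact (smul_eq_zero.1 h5).resolve_left hcpos.ne'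

end Pool.Agent.H.MP_e23cd6_ag.AB
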