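import Pool.Agent.H.MP_e23cd6_ag.AB.F2

/-!
ABUN F3: real independent elements of an abelian space of limit fields are complex independent at some
point of the domain.

Proof by induction on r. r = 0: b0. Step: by induction there is b* ∈ D with X_0(b*), ..., X_{r-1}(b*) independent over ℂ; suppose
that X_0(b), ..., X_r(b) are ℂ-dependent for every b ∈ D. Choose a ℂ-linear map T : E n → (Fin r → ℂ) with T X_j(b*) = e_j
(j < r) (extend to a basis / left inverse of the injective map c ↦ Σ c_j X_j(b*)). The matrix M(b) with columns T X_j(b)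
is holomorphic in b, equal to 1 at b*, so det M(b) ≠ 0 on a small ball U around b*, there the X_j(b), j < r, are
independent, and X_r(b) = Σ c_j(b) X_j(b) with c(b) = M(b)⁻¹ T X_r(b) holomorphic on U (adjugate/determinant formula).
For b ∈ U let V = Σ_j Im c_j(b) X_j, W = X_r - Σ_j Re c_j(b) X_j (real combinations, elements of P, so brL V W = 0):
W b = Σ_j (c_j(b) - Re c_j(b)) X_j(b) = i V b, so V b = 0 by `complex_line_zero` and Im c_j(b) = 0 by independence. A holomorphic
function with real values on a ball is constant (derivative: the real-linear image of Dc is in ℝ and complex linear, so 0; or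
Cauchy-Riemann / open mapping on complex lines), c_j(b) = c_j real on U. So X_r = Σ c_j X_j on U, hence on D (`ident`) and so in
Lie A (`Lie.ext`): contradicts the real linear independence.
-/

open Set Filter Topology Metric

namespace Pool.Agent.H.MP_e23cd6_ag.AB

/-- a holomorphic function with real values on a ball is constant -/
theorem F3_real_const {V : Type*} [NormedAddCommGroup V] [NormedSpace ℂ V] {f : V → ℂ} {x : V}
    {ρ : ℝ} (hf : DifferentiableOn ℂ f (ball x ρ)) (him : ∀ b ∈ ball x ρ, (f b).im = 0)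
    {b : V} (hb : b ∈ ball x ρ) : f b = f x := by
  have hρ : 0 < ρ := by
    rw [mem_ball] at hb
    exact dist_nonneg.trans_lt hb
  let _ : NormedSpace ℝ V := NormedSpace.restrictScalars ℝ ℂ V
  have hpc : IsPreconnected (ball x ρ) := (convex_ball x ρ).isPreconnected
  refine isOpen_ball.is_const_of_fderiv_eq_zero hpc hf ?_ hb (mem_ball_self hρ)
  intro y hy
  have hd : HasFDerivAt f (fderiv ℂ f y) y :=
    (hf.differentiableAt (isOpen_ball.mem_nhds hy)).hasFDerivAt
  have h1 : HasFDerivAt (fun z => (f z).im)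
      (Complex.imCLM.comp ((fderiv ℂ f y).restrictScalars ℝ)) y :=
    Complex.imCLM.hasFDerivAt.comp y (hd.restrictScalars ℝ)
  have h2 : HasFDerivAt (fun z => (f z).im) (0 : V →L[ℝ] ℝ) y := by
    refine (hasFDerivAt_const (0 : ℝ) y).congr_of_eventuallyEq ?_
    filter_upwards [isOpen_ball.mem_nhds hy] with z hz
    exact him z hz
  have h3 := h1.unique h2
  have h4 : ∀ v : V, (fderiv ℂ f y v).im = 0 := by
    intro v
    have := congrArg (fun L : V →L[ℝ] ℝ => L v) h3
    simpa using this
  show fderiv ℂ f y = 0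
  ext v
  have h5 := h4 v
  have h6 := h4 (Complex.I • v)
  rw [map_smul, smul_eq_mul, Complex.mul_im, Complex.I_re, Complex.I_im, zero_mul, one_mul,
    zero_add] at h6
  exact Complex.ext h6 h5

variable {n : ℕ} {Ω : Dom n} {Γ : Type} [Group Γ]

/-- the linear combination map at a point -/
noncomputable def F3L {A : BaseAct Ω Γ} {r : ℕ} (X : Fin r → Lie A) (b : E n) :
    (Fin r → ℂ) →L[ℂ] E n :=
  ∑ j, (ContinuousLinearMap.proj (R := ℂ) (φ := fun _ : Fin r => ℂ) j).smulRight (X j b)

theorem F3L_apply {A : BaseAct Ω Γ} {r : ℕ} (X : Fin r → Lie A) (b : E n) (c : Fin r → ℂ) :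
    F3L X b c = ∑ j, c j • X j b := by
  unfold F3L
  rw [sum_apply]
  rfl

theorem F3L_diff {A : BaseAct Ω Γ} {r : ℕ} (X : Fin r → Lie A) :
    DifferentiableOn ℂ (F3L X) Ω.D := by
  unfold F3L
  refine DifferentiableOn.fun_sum fun j _ => ?_
  exact ((ContinuousLinearMap.smulRightL ℂ (Fin r → ℂ) (E n))
    (ContinuousLinearMap.proj (R := ℂ) (φ := fun _ : Fin r => ℂ) j)).differentiable.comp_differentiableOn
      (X j).holo

theorem generic_indep (A : BaseAct Ω Γ) (P : Submodule ℝ (Lie A))
    (hab : ∀ X ∈ P, ∀ Y ∈ P, brL A X Y = 0) {r : ℕ} (X : Fin r → Lie A)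
    (hX : ∀ j, X j ∈ P) (hind : LinearIndependent ℝ X) :
    ∃ b ∈ Ω.D, LinearIndependent ℂ (fun j => X j b) := by
  induction r with
  | zero => exact ⟨Ω.b0, Ω.b0_mem, linearIndependent_empty_type⟩
  | succ r ih =>
  set X' : Fin r → Lie A := fun j => X j.castSucc with hX'
  set Y : Lie A := X (Fin.last r) with hY
  obtain ⟨bs, hbs, hli⟩ := ih X' (fun j => hX _) (hind.comp _ (Fin.castSucc_injective r))
  by_contra hno
  push Not at hno
  -- left inverse at bs
  have hinj : Function.Injective (F3L X' bs).toLinearMap := by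
    rw [← LinearMap.ker_eq_bot, LinearMap.ker_eq_bot']
    intro c hc
    have h1 : ∑ j, c j • X' j bs = 0 := by
      rw [← F3L_apply]
      exact hc
    funext j
    exact (Fintype.linearIndependent_iff.mp hli) c h1 j
  obtain ⟨T, hT⟩ := LinearMap.exists_leftInverse_of_injective (F3L X' bs).toLinearMap
    (LinearMap.ker_eq_bot.mpr hinj)
  set TL : E n →L[ℂ] (Fin r → ℂ) := LinearMap.toContinuousLinearMap T with hTL
  set M : E n → ((Fin r → ℂ) →L[ℂ] (Fin r → ℂ)) := fun b => TL.comp (F3L X' b) with hM
  have hM1 : M bs = 1 := by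
    ext1 c
    have := congrArg (fun L : (Fin r → ℂ) →ₗ[ℂ] (Fin r → ℂ) => L c) hT
    exact this
  have hMd : DifferentiableOn ℂ M Ω.D :=
    (differentiableOn_const TL).clm_comp (F3L_diff X')
  have hnhds : {b | IsUnit (M b)} ∩ Ω.D ∈ 𝓝 bs := by
    have hc : ContinuousAt M bs :=
      (hMd.differentiableAt (Ω.isOpen.mem_nhds hbs)).continuousAt
    refine Filter.inter_mem ?_ (Ω.isOpen.mem_nhds hbs)
    have h1 : IsUnit (M bs) := by
      rw [hM1]
      exact isUnit_one
    have h2 : {x : (Fin r → ℂ) →L[ℂ] (Fin r → ℂ) | IsUnit x} ∈ 𝓝 (M bs) :=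
      Units.isOpen.mem_nhds h1
    exact hc.preimage_mem_nhds h2
  obtain ⟨ρ, hρ, hball⟩ := Metric.mem_nhds_iff.mp hnhds
  have hUD : ball bs ρ ⊆ Ω.D := fun b hb => (hball hb).2
  have hunit : ∀ b ∈ ball bs ρ, IsUnit (M b) := fun b hb => (hball hb).1
  -- injectivity
  have hinjb : ∀ b ∈ ball bs ρ, ∀ d : Fin r → ℂ, F3L X' b d = 0 → d = 0 := by
    intro b hb d hd
    have h1 : M b d = 0 := by
      show TL (F3L X' b d) = 0
      rw [hd, map_zero]
    have h2 : (Ring.inverse (M b) * M b) d = 0 := by
      show Ring.inverse (M b) (M b d) = 0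
      rw [h1, map_zero]
    rw [Ring.inverse_mul_cancel _ (hunit b hb)] at h2
    exact h2
  set c : E n → (Fin r → ℂ) := fun b => Ring.inverse (M b) (TL (Y b)) with hc
  have hYb : ∀ b ∈ ball bs ρ, Y b = F3L X' b (c b) := by
    intro b hb
    have h1 := hno b (hUD hb)
    rw [Fintype.not_linearIndependent_iff] at h1
    obtain ⟨g, hg, i, hi⟩ := h1
    rw [Fin.sum_univ_castSucc] at hg
    have hlast : g (Fin.last r) ≠ 0 := by
      intro h0
      rw [h0, zero_smul, add_zero] at hg
      have h2 : F3L X' b (fun j => g j.castSucc) = 0 := by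
        rw [F3L_apply]
        exact hg
      have h3 := hinjb b hb _ h2
      apply hi
      refine Fin.lastCases ?_ ?_ i
      · exact h0
      · intro j
        exact congrFun h3 j
    set d : Fin r → ℂ := fun j => -((g (Fin.last r))⁻¹ * g j.castSucc) with hd
    have h4 : Y b = F3L X' b d := by
      rw [F3L_apply]
      have h5 : g (Fin.last r) • Y b = - ∑ j : Fin r, g j.castSucc • X' j b :=
        eq_neg_of_add_eq_zero_right hg
      have h6 : Y b = (g (Fin.last r))⁻¹ • (- ∑ j : Fin r, g j.castSucc • X' j b) := by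
        rw [← h5, smul_smul, inv_mul_cancel₀ hlast, one_smul]
      rw [h6, smul_neg, Finset.smul_sum, ← Finset.sum_neg_distrib]
      refine Finset.sum_congr rfl fun j _ => ?_
      rw [hd, neg_smul, mul_smul]
    have h7 : c b = d := by
      show Ring.inverse (M b) (TL (Y b)) = d
      rw [h4]
      have h8 : TL (F3L X' b d) = M b d := rfl
      rw [h8]
      have h9 : (Ring.inverse (M b) * M b) d = d := by
        rw [Ring.inverse_mul_cancel _ (hunit b hb)]
        rfl
      exact h9
    rw [h7]
    exact h4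
  have hcd : DifferentiableOn ℂ c (ball bs ρ) := by
    have h1 : DifferentiableOn ℂ (fun b => Ring.inverse (M b)) (ball bs ρ) := by
      intro b hb
      have h2 : DifferentiableAt ℂ M b :=
        hMd.differentiableAt (Ω.isOpen.mem_nhds (hUD hb))
      have h3 : DifferentiableAt ℂ (Ring.inverse : ((Fin r → ℂ) →L[ℂ] (Fin r → ℂ)) → _) (M b) :=
        differentiableAt_inverse (hunit b hb)
      exact (h3.comp b h2).differentiableWithinAt
    have h4 : DifferentiableOn ℂ (fun b => TL (Y b)) (ball bs ρ) :=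
      TL.differentiable.comp_differentiableOn (Y.holo.mono hUD)
    exact h1.clm_apply h4
  have him : ∀ b ∈ ball bs ρ, ∀ j, (c b j).im = 0 := by
    intro b hb
    set V : Lie A := ∑ j, (c b j).im • X' j with hV
    set W : Lie A := Y - ∑ j, (c b j).re • X' j with hW
    have hVP : V ∈ P := Submodule.sum_mem _ fun j _ => P.smul_mem _ (hX _)
    have hWP : W ∈ P := P.sub_mem (hX _) (Submodule.sum_mem _ fun j _ => P.smul_mem _ (hX _))
    have hVb : V b = ∑ j, ((c b j).im : ℂ) • X' j b := by
      rw [hV, Lie.sum_apply]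
      refine Finset.sum_congr rfl fun j _ => ?_
      rw [Lie.smul_apply, Complex.coe_smul]
    have hWb : W b = Complex.I • V b := by
      rw [hW, Lie.sub_apply, Lie.sum_apply, hYb b hb, F3L_apply, hVb, ← Finset.sum_sub_distrib,
        Finset.smul_sum]
      refine Finset.sum_congr rfl fun j _ => ?_
      rw [Lie.smul_apply, ← Complex.coe_smul, ← sub_smul, smul_smul]
      congr 1
      apply Complex.ext <;> simp
    have hV0 : V b = 0 := complex_line_zero A V W (hab V hVP W hWP) (hUD hb) hWb
    rw [hVb, ← F3L_apply] at hV0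
    have h1 := hinjb b hb _ hV0
    intro j
    have h2 := congrFun h1 j
    have h3 : ((c b j).im : ℂ) = 0 := h2
    exact_mod_cast h3
  have hconst : ∀ b ∈ ball bs ρ, ∀ j, c b j = ((c bs j).re : ℂ) := by
    intro b hb j
    have h1 : DifferentiableOn ℂ (fun b => c b j) (ball bs ρ) :=
      (ContinuousLinearMap.proj (R := ℂ) (φ := fun _ : Fin r => ℂ) j).differentiable.comp_differentiableOn hcd
    have h2 : c b j = c bs j := F3_real_const h1 (fun z hz => him z hz j) hb
    rw [h2]
    apply Complex.ext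
    · simp
    · simpa using him bs (mem_ball_self hρ) j
  set Z : Lie A := ∑ j, (c bs j).re • X' j with hZ
  have hYZ : Y = Z := by
    refine Lie.ext fun b => ?_
    by_cases hb : b ∈ Ω.D
    · refine ident Ω.isOpen Ω.conn Y.holo Z.holo hρ hUD (fun y hy => ?_) hb
      rw [hYb y hy, F3L_apply, hZ, Lie.sum_apply]
      refine Finset.sum_congr rfl fun j _ => ?_
      rw [hconst y hy j, Lie.smul_apply, Complex.coe_smul]
    · rw [Y.off hb, Z.off hb]
  have hsum : ∑ j, (Fin.snoc (fun j : Fin r => (c bs j).re) (-1) : Fin (r + 1) → ℝ) j • X j = 0 := by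
    rw [Fin.sum_univ_castSucc, Fin.snoc_last, neg_smul, one_smul]
    have h1 : ∑ j : Fin r, (Fin.snoc (fun j : Fin r => (c bs j).re) (-1) : Fin (r + 1) → ℝ)
        j.castSucc • X j.castSucc = Z := by
      rw [hZ]
      refine Finset.sum_congr rfl fun j _ => ?_
      rw [Fin.snoc_castSucc]
    rw [h1, ← hYZ]
    exact add_neg_cancel Y
  have h0 := (Fintype.linearIndependent_iff.mp hind) _ hsum (Fin.last r)
  rw [Fin.snoc_last] at h0
  norm_num at h0

end Pool.Agent.H.MP_e23cd6_ag.AB
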