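import Pool.Agent.H.MP_e23cd6_ag.AB.D6
import Pool.Agent.H.MP_e23cd6_ag.AB.F0

/-!
ABUN G0: the extremal determinant function Q of a family X_0..X_{r-1} of limit fields,
Q(b) = sup |det (Df_i(b) X_j(b))| over f_0..f_{r-1} ∈ UD Ω.

All the determinants |det (Df_i(b) X_j(b))| with b in a compact set K are bounded: entries are bounded by `ud_bound` and
`Lie.bound`/continuity, and |det M| ≤ r! c^r for |M i j| ≤ c (Leibniz formula, `Matrix.det_apply`).
* `le_Qdet`, `Qdet_le`, `Qdet_nonneg`: csSup properties (r-tuples of zero functions give nonemptiness).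
* `Qdet_cont`: for b, b' near a point: |Df_i(b') X_j(b') - Df_i(b) X_j(b)| ≤ C|b' - b| uniformly in f (`ud_bound`, X_j locally Lipschitz by
  `cauchy_lip`), the determinant is a polynomial, so locally uniformly Lipschitz in its entries:
  |det M - det M'| ≤ C max|M - M'| for entries ≤ c. So Q is continuous on D.
* `Qdet_pos`: if the vectors X_j(b) are ℂ-independent choose complex linear functionals l_i on E n with l_i (X_j b) = δ_ij, and
  f_i(x) = ε l_i (x - b) with ε > 0 so small that |f_i| < 1 on the bounded set D: det = ε^r > 0.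
* `Qdet_schwarz`: (by changing the f_i one after another or all at once) compose f_i with the disc automorphism taking
  f_i(b) to 0: the i-th row of the matrix is divided by 1 - |f_i(b)|² (Matrix.det_mul_column / det of a diagonal matrix
  times the matrix), and the new functions are in UD. So |det| / Π (1 - |f_i b|²) ≤ Q b.
-/

open Set Filter Topology Metric

namespace Pool.Agent.H.MP_e23cd6_ag.AB

variable {n : ℕ} {Ω : Dom n} {Γ : Type} [Group Γ]

/-- the matrix `Df_i(b) X_j(b)` -/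
noncomputable def Qmat {r : ℕ} (f : Fin r → E n → ℂ) (X : Fin r → E n → E n) (b : E n) :
    Matrix (Fin r) (Fin r) ℂ := Matrix.of fun i j => fderiv ℂ (f i) b (X j b)

/-- the extremal determinant -/
noncomputable def Qdet (Ω : Dom n) {r : ℕ} (X : Fin r → E n → E n) (b : E n) : ℝ :=
  sSup {x | ∃ f : Fin r → E n → ℂ, (∀ i, f i ∈ UD Ω) ∧ x = ‖(Qmat f X b).det‖}

theorem G0_zero_mem {r : ℕ} (i : Fin r) : (fun (_ : Fin r) (_ : E n) => (0 : ℂ)) i ∈ UD Ω :=
  zero_mem_ud Ω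

/-- the entries of the determinant are bounded near a point, uniformly in the functions -/
theorem G0_entry (Ω : Dom n) {r : ℕ} {X : Fin r → E n → E n} {b : E n} (hb : b ∈ Ω.D) :
    ∃ C ρ : ℝ, 0 < C ∧ 0 < ρ ∧ ∀ f : Fin r → E n → ℂ, (∀ i, f i ∈ UD Ω) → ∀ i j,
      ‖Qmat f X b i j‖ ≤ C * ‖X j b‖ ∧
      ∀ b', ‖b' - b‖ ≤ ρ → ‖Qmat f X b' i j‖ ≤ C * ‖X j b'‖ ∧
        ‖Qmat f X b' i j - Qmat f X b i j‖ ≤ C * (‖b' - b‖ * ‖X j b‖ + ‖X j b' - X j b‖) := by
  obtain ⟨C, ρ, hC, hρ, -, h⟩ := ud_bound Ω (singleton_subset_iff.2 hb) isCompact_singleton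
  refine ⟨C, ρ, hC, hρ, fun f hf i j => ⟨?_, fun b' hb' => ⟨?_, ?_⟩⟩⟩
  · exact ((fderiv ℂ (f i) b).le_opNorm _).trans
      (mul_le_mul_of_nonneg_right (h (f i) (hf i) b (mem_singleton b)).1 (norm_nonneg _))
  · exact ((fderiv ℂ (f i) b').le_opNorm _).trans
      (mul_le_mul_of_nonneg_right ((h (f i) (hf i) b (mem_singleton b)).2 b' hb').1
        (norm_nonneg _))
  · have h1 := (h (f i) (hf i) b (mem_singleton b)).2 b' hb'
    have e : Qmat f X b' i j - Qmat f X b i j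
        = fderiv ℂ (f i) b' (X j b' - X j b) +
          (fderiv ℂ (f i) b' - fderiv ℂ (f i) b) (X j b) := by
      have e1 : Qmat f X b' i j = fderiv ℂ (f i) b' (X j b') := rfl
      have e2 : Qmat f X b i j = fderiv ℂ (f i) b (X j b) := rfl
      rw [e1, e2, map_sub, ContinuousLinearMap.sub_apply]
      ring
    rw [e]
    have h2 : ‖fderiv ℂ (f i) b' (X j b' - X j b)‖ ≤ C * ‖X j b' - X j b‖ :=
      ((fderiv ℂ (f i) b').le_opNorm _).trans
        (mul_le_mul_of_nonneg_right h1.1 (norm_nonneg _))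
    have h3 : ‖(fderiv ℂ (f i) b' - fderiv ℂ (f i) b) (X j b)‖ ≤ C * ‖b' - b‖ * ‖X j b‖ :=
      ((fderiv ℂ (f i) b' - fderiv ℂ (f i) b).le_opNorm _).trans
        (mul_le_mul_of_nonneg_right h1.2 (norm_nonneg _))
    have h4 := norm_add_le (fderiv ℂ (f i) b' (X j b' - X j b))
      ((fderiv ℂ (f i) b' - fderiv ℂ (f i) b) (X j b))
    nlinarith [h2, h3, h4]

/-- the determinant as a function of the entries -/
noncomputable def G0_det (r : ℕ) (M : Fin r → Fin r → ℂ) : ℂ := (Matrix.of M).det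

theorem G0_det_cont (r : ℕ) : Continuous (G0_det r) := by
  unfold G0_det
  exact Continuous.matrix_det continuous_id

theorem G0_det_eq {r : ℕ} (f : Fin r → E n → ℂ) (X : Fin r → E n → E n) (b : E n) :
    (Qmat f X b).det = G0_det r (fun i j => Qmat f X b i j) := rfl

theorem G0_bdd {r : ℕ} {X : Fin r → E n → E n} {b : E n} (hb : b ∈ Ω.D) :
    BddAbove {x | ∃ f : Fin r → E n → ℂ, (∀ i, f i ∈ UD Ω) ∧ x = ‖(Qmat f X b).det‖} := by
  obtain ⟨C, ρ, hC, hρ, h⟩ := G0_entry Ω (X := X) hb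
  set c : ℝ := C * ∑ j, ‖X j b‖ with hc
  have hc0 : 0 ≤ c := mul_nonneg hC.le (Finset.sum_nonneg fun j _ => norm_nonneg _)
  obtain ⟨B, hB⟩ := (isCompact_closedBall (0 : Fin r → Fin r → ℂ) c).exists_bound_of_continuousOn
    (G0_det_cont r).continuousOn
  refine ⟨B, ?_⟩
  rintro x ⟨f, hf, rfl⟩
  rw [G0_det_eq]
  refine hB _ ?_
  rw [mem_closedBall_zero_iff, pi_norm_le_iff_of_nonneg hc0]
  intro i
  rw [pi_norm_le_iff_of_nonneg hc0]
  intro j
  refine ((h f hf i j).1).trans ?_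
  rw [hc]
  refine mul_le_mul_of_nonneg_left ?_ hC.le
  exact Finset.single_le_sum (f := fun j => ‖X j b‖) (fun j _ => norm_nonneg _)
    (Finset.mem_univ j)

theorem Qdet_le {r : ℕ} {X : Fin r → E n → E n} {b : E n} {m : ℝ}
    (h : ∀ f : Fin r → E n → ℂ, (∀ i, f i ∈ UD Ω) → ‖(Qmat f X b).det‖ ≤ m) :
    Qdet Ω X b ≤ m := by
  refine csSup_le ⟨_, _, G0_zero_mem (Ω := Ω) (r := r), rfl⟩ ?_
  rintro x ⟨f, hf, rfl⟩
  exact h f hf

theorem le_Qdet {r : ℕ} {X : Fin r → E n → E n} {b : E n} (hb : b ∈ Ω.D)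
    {f : Fin r → E n → ℂ} (hf : ∀ i, f i ∈ UD Ω) : ‖(Qmat f X b).det‖ ≤ Qdet Ω X b :=
  le_csSup (G0_bdd hb) ⟨f, hf, rfl⟩

theorem Qdet_nonneg {r : ℕ} (X : Fin r → E n → E n) (b : E n) : 0 ≤ Qdet Ω X b := by
  refine Real.sSup_nonneg ?_
  rintro x ⟨f, _, rfl⟩
  exact norm_nonneg _

theorem Qdet_cont {r : ℕ} {X : Fin r → E n → E n} (hX : ∀ j, DifferentiableOn ℂ (X j) Ω.D) :
    ContinuousOn (Qdet Ω X) Ω.D := by
  intro b hb
  refine ContinuousAt.continuousWithinAt ?_
  obtain ⟨C, ρ, hC, hρ, h⟩ := G0_entry Ω (X := X) hb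
  have hXc : ∀ j, ContinuousAt (X j) b := fun j =>
    ((hX j).differentiableAt (Ω.isOpen.mem_nhds hb)).continuousAt
  set c : ℝ := C * ∑ j, (‖X j b‖ + 1) with hc
  have hc0 : 0 ≤ c := mul_nonneg hC.le (Finset.sum_nonneg fun j _ => by positivity)
  rw [Metric.continuousAt_iff']
  intro ε hε
  have huc := (isCompact_closedBall (0 : Fin r → Fin r → ℂ) c).uniformContinuousOn_of_continuous
    (G0_det_cont r).continuousOn
  rw [Metric.uniformContinuousOn_iff] at huc
  obtain ⟨δ, hδ, hδ'⟩ := huc (ε / 2) (half_pos hε)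
  have ev1 : ∀ᶠ b' in 𝓝 b, ‖b' - b‖ ≤ ρ := by
    filter_upwards [closedBall_mem_nhds b hρ] with b' hb'
    rwa [mem_closedBall, dist_eq_norm] at hb'
  have ev2 : ∀ᶠ b' in 𝓝 b, ∀ j, ‖X j b' - X j b‖ < 1 := by
    rw [eventually_all]
    intro j
    have := (Metric.continuousAt_iff'.1 (hXc j)) 1 one_pos
    filter_upwards [this] with b' hb'
    rwa [dist_eq_norm] at hb'
  have ev3 : ∀ᶠ b' in 𝓝 b, ∀ j, C * (‖b' - b‖ * ‖X j b‖ + ‖X j b' - X j b‖) < δ := by
    rw [eventually_all]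
    intro j
    have hcont : ContinuousAt (fun b' => C * (‖b' - b‖ * ‖X j b‖ + ‖X j b' - X j b‖)) b := by
      have h1 : ContinuousAt (fun b' : E n => ‖b' - b‖) b :=
        ((continuous_id.sub continuous_const).norm).continuousAt
      have h2 : ContinuousAt (fun b' => ‖X j b' - X j b‖) b :=
        ((hXc j).sub continuousAt_const).norm
      exact continuousAt_const.mul ((h1.mul continuousAt_const).add h2)
    have h0 : C * (‖b - b‖ * ‖X j b‖ + ‖X j b - X j b‖) < δ := by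
      simpa using hδ
    exact hcont.eventually_lt continuousAt_const h0
  have ev4 : ∀ᶠ b' in 𝓝 b, b' ∈ Ω.D := Ω.isOpen.mem_nhds hb
  filter_upwards [ev1, ev2, ev3, ev4] with b' h1 h2 h3 h4
  have key : ∀ f : Fin r → E n → ℂ, (∀ i, f i ∈ UD Ω) →
      ‖(Qmat f X b').det - (Qmat f X b).det‖ ≤ ε / 2 := by
    intro f hf
    rw [G0_det_eq, G0_det_eq, ← dist_eq_norm]
    have hsum : ∀ j, ‖X j b‖ + 1 ≤ ∑ j, (‖X j b‖ + 1) := fun j =>
      Finset.single_le_sum (f := fun j => ‖X j b‖ + 1) (fun j _ => by positivity)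
        (Finset.mem_univ j)
    refine (hδ' _ ?_ _ ?_ ?_).le
    · rw [mem_closedBall_zero_iff, pi_norm_le_iff_of_nonneg hc0]
      intro i
      rw [pi_norm_le_iff_of_nonneg hc0]
      intro j
      refine (((h f hf i j).2 b' h1).1).trans ?_
      rw [hc]
      refine mul_le_mul_of_nonneg_left ?_ hC.le
      refine le_trans ?_ (hsum j)
      have := norm_add_le (X j b' - X j b) (X j b)
      rw [sub_add_cancel] at this
      linarith [h2 j]
    · rw [mem_closedBall_zero_iff, pi_norm_le_iff_of_nonneg hc0]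
      intro i
      rw [pi_norm_le_iff_of_nonneg hc0]
      intro j
      refine ((h f hf i j).1).trans ?_
      rw [hc]
      refine mul_le_mul_of_nonneg_left ?_ hC.le
      linarith [hsum j]
    · rw [dist_eq_norm]
      rw [pi_norm_lt_iff hδ]
      intro i
      rw [pi_norm_lt_iff hδ]
      intro j
      exact lt_of_le_of_lt ((h f hf i j).2 b' h1).2 (h3 j)
  rw [Real.dist_eq]
  refine lt_of_le_of_lt ?_ (half_lt_self hε)
  rw [abs_le]
  constructor
  · have : Qdet Ω X b ≤ Qdet Ω X b' + ε / 2 := by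
      refine Qdet_le fun f hf => ?_
      have k1 := key f hf
      have k2 := le_Qdet (X := X) h4 hf
      have k3 := norm_sub_norm_le (Qmat f X b).det (Qmat f X b').det
      rw [norm_sub_rev] at k3
      linarith
    linarith
  · have : Qdet Ω X b' ≤ Qdet Ω X b + ε / 2 := by
      refine Qdet_le fun f hf => ?_
      have k1 := key f hf
      have k2 := le_Qdet (X := X) hb hf
      have k3 := norm_sub_norm_le (Qmat f X b').det (Qmat f X b).det
      linarith
    linarith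

theorem Qdet_pos {r : ℕ} {X : Fin r → E n → E n} {b : E n} (hb : b ∈ Ω.D)
    (h : LinearIndependent ℂ (fun j => X j b)) : 0 < Qdet Ω X b := by
  -- a left inverse of `a ↦ ∑ a j • X j b`
  have hinj : LinearMap.ker (Fintype.linearCombination ℂ (fun j => X j b)) = ⊥ := by
    rw [LinearMap.ker_eq_bot]
    exact linearIndependent_iff_injective_fintypeLinearCombination.1 h
  obtain ⟨S, hS⟩ := LinearMap.exists_leftInverse_of_injective _ hinj
  set L : E n →L[ℂ] (Fin r → ℂ) := LinearMap.toContinuousLinearMap S with hL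
  have hLX : ∀ j, L (X j b) = Pi.single j 1 := by
    intro j
    have h1 := LinearMap.congr_fun hS (Pi.single j (1 : ℂ))
    rw [LinearMap.comp_apply, Fintype.linearCombination_apply_single, one_smul] at h1
    exact h1
  obtain ⟨R, hR, hD⟩ := Ω.bdd.subset_ball_lt 0 b
  set e : ℝ := (1 + ‖L‖ * R)⁻¹ with he
  have hpos : 0 < 1 + ‖L‖ * R := by positivity
  have he0 : 0 < e := inv_pos.2 hpos
  set f : Fin r → E n → ℂ := fun i x => (e : ℂ) * (L x i - L b i) with hf
  have hder : ∀ i x, HasFDerivAt (f i)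
      ((e : ℂ) • ((ContinuousLinearMap.proj (R := ℂ) (φ := fun _ : Fin r => ℂ) i).comp L)) x := by
    intro i x
    have h1 : HasFDerivAt (fun x => L x i - L b i)
        ((ContinuousLinearMap.proj (R := ℂ) (φ := fun _ : Fin r => ℂ) i).comp L) x :=
      (((ContinuousLinearMap.proj (R := ℂ) (φ := fun _ : Fin r => ℂ) i).comp
        L).hasFDerivAt (x := x)).sub_const _
    exact h1.const_mul _
  have hmem : ∀ i, f i ∈ UD Ω := by
    intro i
    refine ⟨fun x _ => (hder i x).differentiableAt.differentiableWithinAt, fun x hx => ?_⟩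
    have h1 := hD hx
    rw [mem_ball, dist_eq_norm] at h1
    have h2 : ‖L x i - L b i‖ ≤ ‖L‖ * R := by
      calc ‖L x i - L b i‖ = ‖(L (x - b)) i‖ := by rw [map_sub]; rfl
        _ ≤ ‖L (x - b)‖ := norm_le_pi_norm _ i
        _ ≤ ‖L‖ * ‖x - b‖ := L.le_opNorm _
        _ ≤ ‖L‖ * R := mul_le_mul_of_nonneg_left h1.le (norm_nonneg _)
    have h3 : f i x = (e : ℂ) * (L x i - L b i) := rfl
    rw [h3, norm_mul, Complex.norm_real, Real.norm_eq_abs, abs_of_pos he0]
    calc e * ‖L x i - L b i‖ ≤ e * (‖L‖ * R) := mul_le_mul_of_nonneg_left h2 he0.le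
      _ < e * (1 + ‖L‖ * R) := mul_lt_mul_of_pos_left (by linarith) he0
      _ = 1 := inv_mul_cancel₀ hpos.ne'
  have hQ : Qmat f X b = (e : ℂ) • (1 : Matrix (Fin r) (Fin r) ℂ) := by
    ext i j
    have e1 : Qmat f X b i j = fderiv ℂ (f i) b (X j b) := rfl
    rw [e1, (hder i b).fderiv]
    have e2 : ((e : ℂ) • ((ContinuousLinearMap.proj (R := ℂ) (φ := fun _ : Fin r => ℂ) i).comp
        L)) (X j b) = (e : ℂ) * (L (X j b)) i := rfl
    rw [e2, hLX, Matrix.smul_apply, Matrix.one_apply, smul_eq_mul, Pi.single_apply]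
  have hdet : ‖(Qmat f X b).det‖ = e ^ r := by
    rw [hQ, Matrix.det_smul, Matrix.det_one, mul_one, Fintype.card_fin, norm_pow,
      Complex.norm_real, Real.norm_eq_abs, abs_of_pos he0]
  have hle := le_Qdet (X := X) hb hmem
  rw [hdet] at hle
  exact lt_of_lt_of_le (pow_pos he0 r) hle

/-- compose with the disc automorphism taking the value at `b` to zero -/
theorem G0_auto {b : E n} (hb : b ∈ Ω.D) {f : E n → ℂ} (hf : f ∈ UD Ω) :
    ∃ g ∈ UD Ω, ∀ v, fderiv ℂ g b v = ((1 - ‖f b‖ ^ 2 : ℝ) : ℂ)⁻¹ * fderiv ℂ f b v := by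
  set a := f b with ha
  have ha1 : ‖a‖ < 1 := hf.2 b hb
  have hpos : 0 < 1 - ‖a‖ ^ 2 := by nlinarith [norm_nonneg a]
  set m : ℂ → ℂ := fun z => (z - a) / (1 - (starRingEnd ℂ) a * z) with hm
  have hmder : ∀ z, ‖z‖ < 1 → HasDerivAt m
      ((1 * (1 - (starRingEnd ℂ) a * z) - (z - a) * (-((starRingEnd ℂ) a * 1)))
        / (1 - (starRingEnd ℂ) a * z) ^ 2) z := by
    intro z hz
    have h1 : HasDerivAt (fun z : ℂ => z - a) 1 z := (hasDerivAt_id z).sub_const a
    have h2 : HasDerivAt (fun z : ℂ => 1 - (starRingEnd ℂ) a * z) (-((starRingEnd ℂ) a * 1)) z :=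
      ((hasDerivAt_id z).const_mul _).const_sub 1
    exact h1.div h2 (disc_lt ha1 hz).1
  have hfd : DifferentiableAt ℂ f b := hf.1.differentiableAt (Ω.isOpen.mem_nhds hb)
  have hgmem : (fun x => m (f x)) ∈ UD Ω := by
    refine ⟨fun x hx => ?_, fun x hx => (disc_lt ha1 (hf.2 x hx)).2⟩
    have h1 := (hmder (f x) (hf.2 x hx)).differentiableAt
    exact h1.comp_differentiableWithinAt x (hf.1 x hx)
  refine ⟨fun x => m (f x), hgmem, fun v => ?_⟩
  have h1 := ((hmder a ha1).comp_hasFDerivAt b hfd.hasFDerivAt).fderiv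
  have h2 : (m ∘ f) = fun x => m (f x) := rfl
  rw [h2] at h1
  rw [h1]
  have h3 : (1 - (starRingEnd ℂ) a * a) = ((1 - ‖a‖ ^ 2 : ℝ) : ℂ) := by
    rw [mul_comm, Complex.mul_conj, Complex.normSq_eq_norm_sq]
    push_cast
    ring
  have hne : ((1 - ‖a‖ ^ 2 : ℝ) : ℂ) ≠ 0 := by exact_mod_cast hpos.ne'
  rw [h3, sub_self, zero_mul, sub_zero, one_mul, sq]
  rw [ContinuousLinearMap.smul_apply, smul_eq_mul]
  congr 1
  field_simp

theorem Qdet_schwarz {r : ℕ} {X : Fin r → E n → E n} {b : E n} (hb : b ∈ Ω.D)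
    {f : Fin r → E n → ℂ} (hf : ∀ i, f i ∈ UD Ω) :
    ‖(Qmat f X b).det‖ ≤ Qdet Ω X b * ∏ i, (1 - ‖f i b‖ ^ 2) := by
  choose g hg hgd using fun i => G0_auto (Ω := Ω) hb (hf i)
  have hp : ∀ i, 0 < 1 - ‖f i b‖ ^ 2 := by
    intro i
    have h1 := (hf i).2 b hb
    nlinarith [norm_nonneg (f i b)]
  have hP : 0 < ∏ i, (1 - ‖f i b‖ ^ 2) := Finset.prod_pos fun i _ => hp i
  have hQ : Qmat g X b = Matrix.of fun i j =>
      (fun i => ((1 - ‖f i b‖ ^ 2 : ℝ) : ℂ)⁻¹) i * Qmat f X b i j := by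
    ext i j
    exact hgd i (X j b)
  have hle := le_Qdet (X := X) hb hg
  rw [hQ, Matrix.det_mul_column, norm_mul, norm_prod] at hle
  have hn : ∏ i, ‖((1 - ‖f i b‖ ^ 2 : ℝ) : ℂ)⁻¹‖ = (∏ i, (1 - ‖f i b‖ ^ 2))⁻¹ := by
    rw [← Finset.prod_inv_distrib]
    refine Finset.prod_congr rfl fun i _ => ?_
    rw [norm_inv, Complex.norm_real, Real.norm_eq_abs, abs_of_pos (hp i)]
  rw [hn, inv_mul_le_iff₀ hP] at hle
  rw [mul_comm]
  exact hle

end Pool.Agent.H.MP_e23cd6_ag.AB
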