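import Pool.Agent.H.MP_e23cd6_ag.AB.G0

/-!
ABUN G3: sub-mean value inequalities for log Q (Jensen), in a form that avoids log 0.

`Q_submean`. For small ε > 0 choose f_i ∈ UD with |det Qmat f X b| ≥ (1 - ε) Q b > 0. H(z) = det (Qmat f X (b + z v)) is holomorphic on a
neighbourhood of the closed disc of radius s (the preimage of D under z ↦ b + z v is open and contains it; derivatives of f_i are
holomorphic by `holo_fderiv`), H 0 ≠ 0. Jensen (`AnalyticOnNhd.circleAverage_log_norm`, all terms of the finite sum are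
≥ 0 for zeros in the closed disc; or use only the inequality): log|H 0| ≤ circleAverage (log|H|) 0 s. On the circle, where H(z) ≠ 0:
0 < |H z| ≤ Q(b + z v) (`le_Qdet`), so log|H z| ≤ log Q ≤ g z. H has only finitely many zeros on the circle, so the inequality
holds almost everywhere in the angle (`circleAverage_mono_of_ae`-like, or: log|H| agrees off a codiscrete set ...; the circle
integrability of log|H| is `circleIntegrable_log_norm_meromorphicOn`). Hence log((1-ε) Q b) ≤ circleAverage g 0 s; ε → 0.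

`Q_strict`. As before but with the sharper bound from `Qdet_schwarz`: |H z| ≤ Q(b+zv) Π (1 - |f_i(b+zv)|²) ≤ Q(b+zv) exp(-Σ|f_i(b+zv)|²), so
log|H z| + Σ|f_i(b+zv)|² ≤ log Q(b+zv) ≤ g z where H z ≠ 0 (then Q(b+zv) > 0). For F holomorphic near the closed disc
avg|F|² ≥ |F 0|² + s²|F'(0)|²: avg |F - F 0 - F'(0) z|² ≥ 0 and the mean values of F, F(z) conj z, z are known (F 0, F'(0) s², 0);
expand. So avg g ≥ log|H 0| + Σ|f_i b|² + s² Σ|Df_i(b) v|². Lower bound of Σ_i |Df_i(b) v|² for b near b1, v = X_{j0}(b1): entries of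
Qmat f X b are bounded by c near b1 (`ud_bound`, continuity of X_j), expanding the determinant along column j0 (or the Leibniz formula)
|H 0| ≤ r! c^{r-1} max_i |Df_i(b) X_{j0}(b)|, and |H 0| ≥ (1-ε) Q b ≥ (1/4) Q b1 > 0 for b near b1 (continuity `Qdet_cont`), so
max_i |Df_i(b) X_{j0}(b)| ≥ c1 > 0, and |Df_i(b)(X_{j0}(b1) - X_{j0}(b))| ≤ C|b - b1| ≤ c1/2 for b near b1. Then
Σ|Df_i(b) v|² ≥ c1²/4 =: c. Let ε → 0.
-/

open Set Filter Topology Metric

namespace Pool.Agent.H.MP_e23cd6_ag.AB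

variable {n : ℕ} {Ω : Dom n}

/-! ### One variable: Jensen's inequality with a continuous majorant, and the second mean value -/

theorem G3_jensen0 {H : ℂ → ℂ} {s : ℝ} (hs : 0 < s) (hA : AnalyticOnNhd ℂ H (closedBall 0 s))
    (h0 : H 0 ≠ 0) :
    Real.log ‖H 0‖ ≤ Real.circleAverage (fun z => Real.log ‖H z‖) 0 s := by
  have hA' : AnalyticOnNhd ℂ H (closedBall (0 : ℂ) |s|) := by rwa [abs_of_pos hs]
  rw [AnalyticOnNhd.circleAverage_log_norm (c := 0) (R := s) hs.ne' hA' h0]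
  have h1 : 0 ≤ ∑ᶠ u, (MeromorphicOn.divisor H (closedBall (0 : ℂ) |s|) u : ℝ)
      * Real.log (s * ‖(0 : ℂ) - u‖⁻¹) := by
    apply finsum_nonneg
    intro u
    by_cases hu : u ∈ closedBall (0 : ℂ) |s|
    · apply mul_nonneg
      · have : (0 : ℤ) ≤ MeromorphicOn.divisor H (closedBall (0 : ℂ) |s|) u :=
          MeromorphicOn.AnalyticOnNhd.divisor_nonneg hA' u
        exact_mod_cast this
      · have hu1 : ‖u‖ ≤ s := by
          rw [abs_of_pos hs] at hu
          simpa using hu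
        rw [zero_sub, norm_neg]
        by_cases hu0 : u = 0
        · simp [hu0]
        · apply Real.log_nonneg
          rw [← div_eq_mul_inv, one_le_div (norm_pos_iff.2 hu0)]
          exact hu1
    · rw [Function.locallyFinsuppWithin.apply_eq_zero_of_notMem _ hu]
      simp
  linarith

theorem G3_jensen {H : ℂ → ℂ} {s : ℝ} (hs : 0 < s) (hA : AnalyticOnNhd ℂ H (closedBall 0 s))
    (h0 : H 0 ≠ 0) {g : ℂ → ℝ} (hg : ContinuousOn g (sphere 0 s))
    (h : ∀ z ∈ sphere (0 : ℂ) s, H z ≠ 0 → Real.log ‖H z‖ ≤ g z) :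
    Real.log ‖H 0‖ ≤ Real.circleAverage g 0 s := by
  refine (G3_jensen0 hs hA h0).trans ?_
  have hsa : |s| = s := abs_of_pos hs
  set φ : ℂ → ℝ := fun ζ => Real.log ‖H ζ‖ with hφ
  set ψ : ℂ → ℝ := fun ζ => if H ζ = 0 then min (φ ζ) (g ζ) else φ ζ with hψ
  have hz : H ⁻¹' {0}ᶜ ∈ codiscreteWithin (sphere (0 : ℂ) |s|) := by
    have h1 : H ⁻¹' {0}ᶜ ∈ codiscreteWithin (closedBall (0 : ℂ) s) :=
      hA.preimage_zero_mem_codiscreteWithin h0 (mem_closedBall_self hs.le)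
        ⟨⟨0, mem_closedBall_self hs.le⟩, (convex_closedBall _ _).isPreconnected⟩
    rw [hsa]
    exact Filter.codiscreteWithin_mono sphere_subset_closedBall h1
  have hcod : φ =ᶠ[codiscreteWithin (sphere (0 : ℂ) |s|)] ψ := by
    filter_upwards [hz] with z hz
    have hz' : H z ≠ 0 := hz
    simp [hψ, hz']
  have hM : MeromorphicOn H (sphere (0 : ℂ) |s|) := by
    rw [hsa]
    exact fun z hz => (hA z (sphere_subset_closedBall hz)).meromorphicAt
  have hφi : CircleIntegrable φ 0 s := hM.circleIntegrable_log_norm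
  have hψi : CircleIntegrable ψ 0 s := hφi.congr_codiscreteWithin hcod
  rw [Real.circleAverage_congr_codiscreteWithin hcod hs.ne']
  apply Real.circleAverage_mono hψi (hg.circleIntegrable hs.le)
  intro z hz1
  rw [hsa] at hz1
  by_cases hfz : H z = 0
  · simp [hψ, hfz]
  · simp only [hψ, hfz, if_false]
    exact h z hz1 hfz

theorem G3_deriv {F : ℂ → ℂ} {s : ℝ} (hs : 0 < s) (hA : AnalyticOnNhd ℂ F (closedBall 0 s)) :
    s ^ 2 * ‖deriv F 0‖ ^ 2 ≤ Real.circleAverage (fun z => ‖F z‖ ^ 2) 0 s := by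
  have hc : ContinuousOn F (closedBall 0 s) := hA.continuousOn
  have hcs : ContinuousOn F (sphere 0 s) := hc.mono sphere_subset_closedBall
  have hd : DiffContOnCl ℂ F (ball 0 s) := by
    refine ⟨hA.differentiableOn.mono ball_subset_closedBall, ?_⟩
    rw [closure_ball _ hs.ne']
    exact hc
  have h1 := hd.deriv_eq_smul_circleIntegral hs
  have h2 : deriv F 0 = Real.circleAverage (fun z => z⁻¹ • F z) 0 s := by
    rw [Real.circleAverage_eq_circleIntegral hs.ne']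
    have h3 : (∮ z in C(0, s), (z - 0)⁻¹ • z⁻¹ • F z) =
        ∮ z in C(0, s), (1 / (z - 0) ^ 2) • F z := by
      congr 1
      funext z
      rw [sub_zero, smul_smul, one_div, sq, mul_inv]
    rw [h3, h1, smul_smul, inv_mul_cancel₀ Complex.two_pi_I_ne_zero, one_smul]
  set a : ℝ := Real.circleAverage (fun z => ‖F z‖) 0 s with ha
  have ha1 : s * ‖deriv F 0‖ ≤ a := by
    have h4 : ‖deriv F 0‖ ≤ s⁻¹ * a := by
      rw [h2, Real.circleAverage, norm_smul, Real.norm_of_nonneg (by positivity)]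
      have h5 : s⁻¹ * a = (2 * Real.pi)⁻¹ *
          ∫ θ in (0 : ℝ)..2 * Real.pi, s⁻¹ * ‖F (circleMap 0 s θ)‖ := by
        rw [ha, Real.circleAverage, intervalIntegral.integral_const_mul, smul_eq_mul]
        ring
      rw [h5]
      apply mul_le_mul_of_nonneg_left _ (by positivity)
      refine (intervalIntegral.norm_integral_le_integral_norm (by positivity)).trans ?_
      apply le_of_eq
      congr 1
      funext θ
      rw [norm_smul, norm_inv]
      simp [abs_of_pos hs]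
    rwa [inv_mul_eq_div, le_div_iff₀ hs, mul_comm] at h4
  have hi1 : CircleIntegrable (fun z => ‖F z‖) 0 s := hcs.norm.circleIntegrable hs.le
  have hi2 : CircleIntegrable (fun z => ‖F z‖ ^ 2) 0 s := (hcs.norm.pow 2).circleIntegrable hs.le
  have ha2 : a ^ 2 ≤ Real.circleAverage (fun z => ‖F z‖ ^ 2) 0 s := by
    have h6 : 0 ≤ Real.circleAverage (fun z => (‖F z‖ - a) ^ 2) 0 s :=
      Real.circleAverage_nonneg_of_nonneg fun z _ => sq_nonneg _
    have h7 : (fun z => (‖F z‖ - a) ^ 2) =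
        fun z => (‖F z‖ ^ 2 - (2 * a) • ‖F z‖) + a ^ 2 := by
      funext z
      rw [smul_eq_mul]
      ring
    have hi3 : CircleIntegrable (fun z => (2 * a) • ‖F z‖) 0 s :=
      (hcs.norm.const_smul (2 * a)).circleIntegrable hs.le
    have hi4 : CircleIntegrable (fun z => ‖F z‖ ^ 2 - (2 * a) • ‖F z‖) 0 s :=
      ((hcs.norm.pow 2).sub (hcs.norm.const_smul (2 * a))).circleIntegrable hs.le
    rw [h7, Real.circleAverage_fun_add hi4 (circleIntegrable_const _ _ _),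
      Real.circleAverage_fun_sub hi2 hi3, Real.circleAverage_fun_smul, Real.circleAverage_const,
      ← ha, smul_eq_mul] at h6
    nlinarith
  calc s ^ 2 * ‖deriv F 0‖ ^ 2 = (s * ‖deriv F 0‖) ^ 2 := by ring
    _ ≤ a ^ 2 := pow_le_pow_left₀ (by positivity) ha1 2
    _ ≤ _ := ha2

/-! ### Holomorphy of the determinant along complex lines -/

theorem G3_line {V : Type} [NormedAddCommGroup V] [NormedSpace ℂ V] [CompleteSpace V]
    {F : E n → V} (hF : DifferentiableOn ℂ F Ω.D) {b v : E n} {s : ℝ}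
    (hsub : ∀ z : ℂ, ‖z‖ ≤ s → b + z • v ∈ Ω.D) :
    AnalyticOnNhd ℂ (fun z : ℂ => F (b + z • v)) (closedBall 0 s) := by
  have hl : Differentiable ℂ (fun z : ℂ => b + z • v) := by fun_prop
  have ho : IsOpen ((fun z : ℂ => b + z • v) ⁻¹' Ω.D) := Ω.isOpen.preimage hl.continuous
  have h1 : DifferentiableOn ℂ (fun z : ℂ => F (b + z • v)) ((fun z : ℂ => b + z • v) ⁻¹' Ω.D) :=
    hF.comp hl.differentiableOn (fun z hz => hz)
  refine (h1.analyticOnNhd ho).mono fun z hz => hsub z ?_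
  simpa using hz

theorem G3_det {r : ℕ} {X : Fin r → E n → E n} (hX : ∀ j, DifferentiableOn ℂ (X j) Ω.D)
    {f : Fin r → E n → ℂ} (hf : ∀ i, f i ∈ UD Ω) :
    DifferentiableOn ℂ (fun b => (Qmat f X b).det) Ω.D := by
  have h1 : (fun b => (Qmat f X b).det) = fun b => ∑ σ : Equiv.Perm (Fin r),
      ((Equiv.Perm.sign σ : ℤ) : ℂ) * ∏ i, fderiv ℂ (f (σ i)) b (X i b) := by
    funext b
    rw [Matrix.det_apply']
    rfl
  rw [h1]
  refine DifferentiableOn.fun_sum fun σ _ => ?_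
  have hi : ∀ i : Fin r, DifferentiableOn ℂ (fun b => fderiv ℂ (f (σ i)) b (X i b)) Ω.D :=
    fun i => (holo_fderiv Ω.isOpen (hf (σ i)).1).clm_apply (hX i)
  have hprod : DifferentiableOn ℂ (fun b => ∏ i, fderiv ℂ (f (σ i)) b (X i b)) Ω.D := by
    have hgen : ∀ S : Finset (Fin r),
        DifferentiableOn ℂ (fun b => ∏ i ∈ S, fderiv ℂ (f (σ i)) b (X i b)) Ω.D := by
      intro S
      induction S using Finset.induction_on with
      | empty => simpa using (differentiableOn_const (1 : ℂ))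
      | insert a S ha ih =>
        simp only [Finset.prod_insert ha]
        exact (hi a).mul ih
    exact hgen Finset.univ
  exact (differentiableOn_const _).mul hprod

theorem G3_exists {r : ℕ} {X : Fin r → E n → E n} {b : E n} {y : ℝ} (hy : y < Qdet Ω X b) :
    ∃ f : Fin r → E n → ℂ, (∀ i, f i ∈ UD Ω) ∧ y < ‖(Qmat f X b).det‖ := by
  by_contra hno
  push Not at hno
  exact absurd (Qdet_le hno) (not_le.2 hy)

theorem Q_submean {r : ℕ} {X : Fin r → E n → E n} (hX : ∀ j, DifferentiableOn ℂ (X j) Ω.D)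
    {b v : E n} {s : ℝ} (hs : 0 < s) (hsub : ∀ z : ℂ, ‖z‖ ≤ s → b + z • v ∈ Ω.D)
    (hQ : 0 < Qdet Ω X b) {g : ℂ → ℝ} (hg : ContinuousOn g (sphere 0 s))
    (h : ∀ z ∈ sphere (0 : ℂ) s, 0 < Qdet Ω X (b + z • v) →
      Real.log (Qdet Ω X (b + z • v)) ≤ g z) :
    Real.log (Qdet Ω X b) ≤ Real.circleAverage g 0 s := by
  refine le_of_forall_lt_imp_le_of_dense fun y hy => ?_
  rw [Real.lt_log_iff_exp_lt hQ] at hy
  obtain ⟨f, hf, hfy⟩ := G3_exists hy
  have hA := G3_line (G3_det hX hf) hsub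
  have e0 : (Qmat f X (b + (0 : ℂ) • v)).det = (Qmat f X b).det := by
    rw [zero_smul, add_zero]
  have hpos : 0 < ‖(Qmat f X b).det‖ := (Real.exp_pos y).trans hfy
  have h0 : (Qmat f X (b + (0 : ℂ) • v)).det ≠ 0 := by
    rw [e0]
    exact norm_pos_iff.1 hpos
  have h1 := G3_jensen hs hA h0 hg (fun z hz hz0 => by
    have hzD : b + z • v ∈ Ω.D := hsub z (by simpa using (mem_sphere_zero_iff_norm.1 hz).le)
    have h2 : ‖(Qmat f X (b + z • v)).det‖ ≤ Qdet Ω X (b + z • v) := le_Qdet hzD hf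
    have h3 : 0 < ‖(Qmat f X (b + z • v)).det‖ := norm_pos_iff.2 hz0
    exact (Real.log_le_log h3 h2).trans (h z hz (h3.trans_le h2)))
  rw [e0] at h1
  exact ((Real.lt_log_iff_exp_lt hpos).2 hfy).le.trans h1

/-- the inequality for one tuple of functions -/
theorem G3_one {r : ℕ} {X : Fin r → E n → E n} (hX : ∀ j, DifferentiableOn ℂ (X j) Ω.D)
    {b v : E n} {s : ℝ} (hs : 0 < s) (hsub : ∀ z : ℂ, ‖z‖ ≤ s → b + z • v ∈ Ω.D)
    {f : Fin r → E n → ℂ} (hf : ∀ i, f i ∈ UD Ω) (h0 : (Qmat f X b).det ≠ 0) {g : ℂ → ℝ}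
    (hg : ContinuousOn g (sphere 0 s))
    (h : ∀ z ∈ sphere (0 : ℂ) s, 0 < Qdet Ω X (b + z • v) →
      Real.log (Qdet Ω X (b + z • v)) ≤ g z) :
    Real.log ‖(Qmat f X b).det‖ + s ^ 2 * ∑ i, ‖fderiv ℂ (f i) b v‖ ^ 2 ≤
      Real.circleAverage g 0 s := by
  have hA := G3_line (G3_det hX hf) hsub
  have e0 : (Qmat f X (b + (0 : ℂ) • v)).det = (Qmat f X b).det := by
    rw [zero_smul, add_zero]
  have h0' : (Qmat f X (b + (0 : ℂ) • v)).det ≠ 0 := by
    rw [e0]
    exact h0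
  have hfA : ∀ i, AnalyticOnNhd ℂ (fun z : ℂ => f i (b + z • v)) (closedBall 0 s) := fun i =>
    G3_line (hf i).1 hsub
  have hfc : ∀ i, ContinuousOn (fun z : ℂ => ‖f i (b + z • v)‖ ^ 2) (sphere 0 s) := fun i =>
    (((hfA i).continuousOn.mono sphere_subset_closedBall).norm).pow 2
  have hSc : ContinuousOn (fun z : ℂ => ∑ i, ‖f i (b + z • v)‖ ^ 2) (sphere 0 s) :=
    continuousOn_finsetSum _ fun i _ => hfc i
  have h1 := G3_jensen hs hA h0' (g := fun z => g z - ∑ i, ‖f i (b + z • v)‖ ^ 2) (hg.sub hSc)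
    (fun z hz hz0 => by
      have hzD : b + z • v ∈ Ω.D := hsub z (by simpa using (mem_sphere_zero_iff_norm.1 hz).le)
      have h3 : 0 < ‖(Qmat f X (b + z • v)).det‖ := norm_pos_iff.2 hz0
      have h2 := Qdet_schwarz (X := X) hzD hf
      have hlt : ∀ i, 0 < 1 - ‖f i (b + z • v)‖ ^ 2 := fun i => by
        have := (hf i).2 _ hzD
        nlinarith [norm_nonneg (f i (b + z • v))]
      have hP : 0 < ∏ i, (1 - ‖f i (b + z • v)‖ ^ 2) := Finset.prod_pos fun i _ => hlt i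
      have hQ : 0 < Qdet Ω X (b + z • v) := pos_of_mul_pos_left (h3.trans_le h2) hP.le
      have h4 := Real.log_le_log h3 h2
      rw [Real.log_mul hQ.ne' hP.ne', Real.log_prod (fun i _ => (hlt i).ne')] at h4
      have h5 : ∑ i, Real.log (1 - ‖f i (b + z • v)‖ ^ 2) ≤
          ∑ i, -‖f i (b + z • v)‖ ^ 2 := Finset.sum_le_sum fun i _ => by
        have := Real.log_le_sub_one_of_pos (hlt i)
        linarith
      rw [Finset.sum_neg_distrib] at h5
      have h6 := h z hz hQ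
      show Real.log ‖(Qmat f X (b + z • v)).det‖ ≤ g z - ∑ i, ‖f i (b + z • v)‖ ^ 2
      linarith)
  rw [e0, Real.circleAverage_fun_sub (hg.circleIntegrable hs.le) (hSc.circleIntegrable hs.le),
    Real.circleAverage_fun_sum (fun i _ => (hfc i).circleIntegrable hs.le)] at h1
  have h2 : s ^ 2 * ∑ i, ‖fderiv ℂ (f i) b v‖ ^ 2 ≤
      ∑ i, Real.circleAverage (fun z : ℂ => ‖f i (b + z • v)‖ ^ 2) 0 s := by
    rw [Finset.mul_sum]
    refine Finset.sum_le_sum fun i _ => ?_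
    have h3 := G3_deriv hs (hfA i)
    have hbD : b ∈ Ω.D := by
      have := hsub 0 (by simpa using hs.le)
      simpa using this
    have h4 : HasDerivAt (fun z : ℂ => f i (b + z • v)) (fderiv ℂ (f i) b v) 0 := by
      have h5 : HasFDerivAt (f i) (fderiv ℂ (f i) b) (b + (0 : ℂ) • v) := by
        rw [zero_smul, add_zero]
        exact ((hf i).1.differentiableAt (Ω.isOpen.mem_nhds hbD)).hasFDerivAt
      have h6 : HasDerivAt (fun z : ℂ => b + z • v) v 0 := by
        have := ((hasDerivAt_id (0 : ℂ)).smul_const v).const_add b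
        simpa using this
      exact h5.comp_hasDerivAt (0 : ℂ) h6
    rw [h4.deriv] at h3
    exact h3
  linarith

theorem G3_detbound {r : ℕ} (M : Matrix (Fin r) (Fin r) ℂ) (j0 : Fin r) {e : ℝ} (he : 1 ≤ e)
    (hM : ∀ i j, ‖M i j‖ ≤ e) :
    ‖M.det‖ ≤ (Nat.factorial r) * e ^ r * Real.sqrt (∑ i, ‖M i j0‖ ^ 2) := by
  have he0 : 0 < e := by linarith
  rw [Matrix.det_apply']
  refine (norm_sum_le _ _).trans ?_
  have h1 : ∀ σ : Equiv.Perm (Fin r), ‖((Equiv.Perm.sign σ : ℤ) : ℂ) * ∏ i, M (σ i) i‖ ≤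
      e ^ r * Real.sqrt (∑ i, ‖M i j0‖ ^ 2) := by
    intro σ
    have hsgn : ‖((Equiv.Perm.sign σ : ℤ) : ℂ)‖ = 1 := by
      rcases Int.units_eq_one_or (Equiv.Perm.sign σ) with h | h <;> simp [h]
    rw [norm_mul, hsgn, one_mul, norm_prod, ← Finset.mul_prod_erase _ _ (Finset.mem_univ j0)]
    have h2 : ‖M (σ j0) j0‖ ≤ Real.sqrt (∑ i, ‖M i j0‖ ^ 2) := by
      apply Real.le_sqrt_of_sq_le
      exact Finset.single_le_sum (f := fun i => ‖M i j0‖ ^ 2) (fun i _ => sq_nonneg _)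
        (Finset.mem_univ (σ j0))
    have h3 : ∏ i ∈ Finset.univ.erase j0, ‖M (σ i) i‖ ≤ e ^ r := by
      calc ∏ i ∈ Finset.univ.erase j0, ‖M (σ i) i‖
          ≤ ∏ _i ∈ Finset.univ.erase j0, e :=
            Finset.prod_le_prod (fun i _ => norm_nonneg _) fun i _ => hM _ _
        _ = e ^ (Finset.univ.erase j0).card := by rw [Finset.prod_const]
        _ ≤ e ^ r := by
            apply pow_le_pow_right₀ he
            refine (Finset.card_le_univ _).trans ?_
            rw [Fintype.card_fin]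
    rw [mul_comm]
    exact mul_le_mul h3 h2 (norm_nonneg _) (by positivity)
  refine (Finset.sum_le_sum fun σ _ => h1 σ).trans ?_
  rw [Finset.sum_const, Finset.card_univ, Fintype.card_perm, Fintype.card_fin, nsmul_eq_mul,
    mul_assoc]

theorem Q_strict {r : ℕ} {X : Fin r → E n → E n} (hX : ∀ j, DifferentiableOn ℂ (X j) Ω.D)
    {b1 : E n} (hb1 : b1 ∈ Ω.D) (hind : LinearIndependent ℂ (fun j => X j b1)) (j0 : Fin r) :
    ∃ c ρ : ℝ, 0 < c ∧ 0 < ρ ∧ ∀ b : E n, ‖b - b1‖ ≤ ρ → ∀ s : ℝ, 0 < s → s ≤ ρ →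
      (∀ z : ℂ, ‖z‖ ≤ s → b + z • X j0 b1 ∈ Ω.D) ∧ 0 < Qdet Ω X b ∧
      ∀ g : ℂ → ℝ, ContinuousOn g (sphere 0 s) →
        (∀ z ∈ sphere (0 : ℂ) s, 0 < Qdet Ω X (b + z • X j0 b1) →
          Real.log (Qdet Ω X (b + z • X j0 b1)) ≤ g z) →
        Real.log (Qdet Ω X b) + c * s ^ 2 ≤ Real.circleAverage g 0 s := by
  set v : E n := X j0 b1 with hv
  have hq := Qdet_pos hb1 hind
  set q : ℝ := Qdet Ω X b1 with hqdef
  obtain ⟨R0, hR0, hR0D⟩ := Metric.nhds_basis_closedBall.mem_iff.1 (Ω.isOpen.mem_nhds hb1)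
  obtain ⟨C, _, hC, _, _, hCb⟩ := ud_bound Ω hR0D (isCompact_closedBall b1 R0)
  -- a bound of the fields
  have hm : ∃ m : ℝ, 1 ≤ m ∧ ∀ j, ∀ b ∈ closedBall b1 R0, ‖X j b‖ ≤ m := by
    have h1 : ∀ j, ∃ m : ℝ, ∀ b ∈ closedBall b1 R0, ‖X j b‖ ≤ m := fun j =>
      (isCompact_closedBall b1 R0).exists_bound_of_continuousOn ((hX j).continuousOn.mono hR0D)
    choose m hm using h1
    refine ⟨1 + ∑ j, |m j|, by
      have : 0 ≤ ∑ j, |m j| := Finset.sum_nonneg fun j _ => abs_nonneg _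
      linarith, fun j b hb => ?_⟩
    have h2 : |m j| ≤ ∑ j, |m j| :=
      Finset.single_le_sum (f := fun j => |m j|) (fun j _ => abs_nonneg _) (Finset.mem_univ j)
    have h3 := hm j b hb
    have h4 := le_abs_self (m j)
    linarith
  obtain ⟨m, hm1, hmb⟩ := hm
  set e : ℝ := max 1 (C * m) with he
  have he1 : 1 ≤ e := le_max_left _ _
  set c1 : ℝ := q / 4 / ((Nat.factorial r) * e ^ r) with hc1
  have hfac : (0 : ℝ) < (Nat.factorial r) := by exact_mod_cast Nat.factorial_pos r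
  have hc1p : 0 < c1 := by
    have : 0 < e := by linarith
    positivity
  have hr : 0 < r := Fin.pos_iff_nonempty.2 ⟨j0⟩
  have hrR : (1 : ℝ) ≤ r := by exact_mod_cast hr
  -- continuity
  have hQc : ∀ᶠ b in 𝓝 b1, q / 2 < Qdet Ω X b := by
    have h1 : ContinuousAt (Qdet Ω X) b1 := (Qdet_cont hX).continuousAt (Ω.isOpen.mem_nhds hb1)
    exact h1.eventually_const_lt (by linarith : q / 2 < Qdet Ω X b1)
  have hXc : ∀ᶠ b in 𝓝 b1, ‖X j0 b - v‖ < c1 / (2 * r) / C := by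
    have h1 : ContinuousAt (X j0) b1 := ((hX j0) b1 hb1).differentiableAt
      (Ω.isOpen.mem_nhds hb1) |>.continuousAt
    have h2 : Tendsto (fun b => ‖X j0 b - v‖) (𝓝 b1) (𝓝 0) := by
      have := (h1.sub (continuousAt_const : ContinuousAt (fun _ : E n => v) b1)).norm
      simpa [ContinuousAt, hv] using this
    exact h2.eventually_lt_const (by positivity)
  obtain ⟨ρ1, hρ1, hρ1b⟩ := Metric.eventually_nhds_iff_ball.1 (hQc.and hXc)
  refine ⟨c1 ^ 2 / 4, min (ρ1 / 2) (R0 / (2 * (1 + ‖v‖))), by positivity, by positivity, ?_⟩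
  intro b hb s hs hsρ
  have hb2 : ‖b - b1‖ ≤ R0 / (2 * (1 + ‖v‖)) := hb.trans (min_le_right _ _)
  have hb1' : ‖b - b1‖ < ρ1 := by
    have := hb.trans (min_le_left _ _)
    linarith
  have hs2 : s ≤ R0 / (2 * (1 + ‖v‖)) := hsρ.trans (min_le_right _ _)
  rw [le_div_iff₀ (by positivity)] at hb2 hs2
  have hsub : ∀ z : ℂ, ‖z‖ ≤ s → b + z • v ∈ Ω.D := by
    intro z hz
    apply hR0D
    rw [mem_closedBall, dist_eq_norm]
    calc ‖b + z • v - b1‖ = ‖(b - b1) + z • v‖ := by congr 1; abel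
      _ ≤ ‖b - b1‖ + ‖z • v‖ := norm_add_le _ _
      _ ≤ ‖b - b1‖ + s * ‖v‖ := by
          rw [norm_smul]
          have := mul_le_mul_of_nonneg_right hz (norm_nonneg v)
          linarith
      _ ≤ R0 := by
          nlinarith [norm_nonneg v, norm_nonneg (b - b1),
            mul_nonneg (norm_nonneg (b - b1)) (norm_nonneg v)]
  obtain ⟨hQb, hXb⟩ := hρ1b b (by rw [mem_ball, dist_eq_norm]; exact hb1')
  have hQb0 : 0 < Qdet Ω X b := by linarith
  refine ⟨hsub, hQb0, fun g hg h => ?_⟩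
  have hbR : b ∈ closedBall b1 R0 := by
    rw [mem_closedBall, dist_eq_norm]
    nlinarith [norm_nonneg v, norm_nonneg (b - b1),
      mul_nonneg (norm_nonneg (b - b1)) (norm_nonneg v)]
  rw [← le_sub_iff_add_le]
  refine le_of_forall_lt_imp_le_of_dense fun y hy => ?_
  rw [Real.lt_log_iff_exp_lt hQb0] at hy
  obtain ⟨f, hf, hfy⟩ := G3_exists (X := X) (b := b) (y := max (Real.exp y) (q / 4))
    (max_lt hy (by linarith))
  have hf1 : Real.exp y < ‖(Qmat f X b).det‖ := (le_max_left _ _).trans_lt hfy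
  have hf2 : q / 4 < ‖(Qmat f X b).det‖ := (le_max_right _ _).trans_lt hfy
  have hpos : 0 < ‖(Qmat f X b).det‖ := (Real.exp_pos y).trans hf1
  have h1 := G3_one hX hs hsub hf (norm_pos_iff.1 hpos) hg h
  have h2 : y < Real.log ‖(Qmat f X b).det‖ := (Real.lt_log_iff_exp_lt hpos).2 hf1
  -- lower bound for the derivatives
  have h3 : ‖(Qmat f X b).det‖ ≤ (Nat.factorial r) * e ^ r *
      Real.sqrt (∑ i, ‖Qmat f X b i j0‖ ^ 2) := by
    refine G3_detbound _ j0 he1 fun i j => ?_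
    have h4 := (hCb (f i) (hf i) b hbR).1
    calc ‖Qmat f X b i j‖ ≤ ‖fderiv ℂ (f i) b‖ * ‖X j b‖ := (fderiv ℂ (f i) b).le_opNorm _
      _ ≤ C * m := mul_le_mul h4 (hmb j b hbR) (norm_nonneg _) hC.le
      _ ≤ e := le_max_right _ _
  have h5 : c1 ≤ Real.sqrt (∑ i, ‖Qmat f X b i j0‖ ^ 2) := by
    rw [hc1, div_le_iff₀ (by have : 0 < e := by linarith
                             positivity)]
    linarith
  have h6 : c1 ^ 2 ≤ ∑ i, ‖Qmat f X b i j0‖ ^ 2 := by
    have h7 := pow_le_pow_left₀ hc1p.le h5 2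
    rwa [Real.sq_sqrt (Finset.sum_nonneg fun i _ => sq_nonneg _)] at h7
  have h8 : ∀ i, ‖Qmat f X b i j0‖ ^ 2 ≤
      2 * ‖fderiv ℂ (f i) b v‖ ^ 2 + 2 * (c1 / (2 * r)) ^ 2 := by
    intro i
    have h9 : ‖Qmat f X b i j0‖ ≤ ‖fderiv ℂ (f i) b v‖ + c1 / (2 * r) := by
      have e1 : Qmat f X b i j0 = fderiv ℂ (f i) b v + fderiv ℂ (f i) b (X j0 b - v) := by
        rw [← map_add, add_sub_cancel]
        rfl
      rw [e1]
      refine (norm_add_le _ _).trans (add_le_add le_rfl ?_)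
      calc ‖fderiv ℂ (f i) b (X j0 b - v)‖ ≤ ‖fderiv ℂ (f i) b‖ * ‖X j0 b - v‖ :=
            (fderiv ℂ (f i) b).le_opNorm _
        _ ≤ C * (c1 / (2 * r) / C) :=
            mul_le_mul (hCb (f i) (hf i) b hbR).1 hXb.le (norm_nonneg _) hC.le
        _ = c1 / (2 * r) := by field_simp
    have h10 := pow_le_pow_left₀ (norm_nonneg _) h9 2
    nlinarith [sq_nonneg (‖fderiv ℂ (f i) b v‖ - c1 / (2 * r))]
  have h11 : c1 ^ 2 ≤ 2 * ∑ i, ‖fderiv ℂ (f i) b v‖ ^ 2 + r * (2 * (c1 / (2 * r)) ^ 2) := by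
    refine h6.trans ((Finset.sum_le_sum fun i _ => h8 i).trans ?_)
    rw [Finset.sum_add_distrib, ← Finset.mul_sum, Finset.sum_const, Finset.card_univ,
      Fintype.card_fin, nsmul_eq_mul]
  have h12 : (r : ℝ) * (2 * (c1 / (2 * r)) ^ 2) ≤ c1 ^ 2 / 2 := by
    have e2 : (r : ℝ) * (2 * (c1 / (2 * r)) ^ 2) = c1 ^ 2 / (2 * r) := by
      field_simp
    rw [e2]
    apply div_le_div_of_nonneg_left (by positivity) (by norm_num)
    linarith
  have h13 : c1 ^ 2 / 4 ≤ ∑ i, ‖fderiv ℂ (f i) b v‖ ^ 2 := by linarith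
  have h14 : c1 ^ 2 / 4 * s ^ 2 ≤ s ^ 2 * ∑ i, ‖fderiv ℂ (f i) b v‖ ^ 2 := by
    rw [mul_comm]
    exact mul_le_mul_of_nonneg_left h13 (by positivity)
  linarith

end Pool.Agent.H.MP_e23cd6_ag.AB
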