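import Pool.Agent.H.MP_3a36cd_an.SCV1

/-!
ABUN G5a: Levi form, Kaehler metrics on open sets, and the associated second order operator.

V is a finite dimensional complex vector space with basis e, M ⊆ V an open set.
`lev φ x v w` = ∂_v ∂bar_w φ (x) for a real function φ, ∂_v = (D_v - i D_{iv})/2, ∂bar_w = (D_w + i D_{iw})/2.
`KMet M`: a smooth Kaehler metric on M, as a family of Hermitian forms h x (ℂ-linear in the first, conjugate linear in the
second variable), the Kaehler condition is ∂_u h(v,w) = ∂_v h(u,w).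
`Lap e h φ x` = Re trace (adj(H x) * (lev φ x (e i) (e j))), H x = (h x (e i) (e j)).

Statements:
* `lev_add_left` ... : for φ of class C² near x the second derivative is symmetric and bilinear, so lev is ℂ-linear in v,
  conjugate linear in w, Hermitian: lev φ x w v = conj (lev φ x v w). (Second derivative symmetric:
  `ContDiffAt.isSymmSndFDerivAt` or `second_derivative_symmetric`.)
* `lev_comp`: g holomorphic near x (DifferentiableOn ℂ on an open set U ∋ x), φ of class C² near g x: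
  lev (φ ∘ g) x v w = lev φ (g x) (Dg(x) v) (Dg(x) w). Proof: D²(φ∘g)(a,b) = D²φ(Dg a, Dg b) + Dφ(D²g(a,b)); D²g is ℂ-bilinear
  symmetric, and the combination D²g(v,w) + D²g(iv,iw) + i(...)... : D²g(iv,iw) = -D²g(v,w) and D²g(v,iw) = i D²g(v,w) =
  D²g(iv,w), so the terms with Dφ cancel: Dφ applied to D²g(v,w) + D²g(iv,iw) = 0 and to D²g(v,iw) - D²g(iv,w) = 0.
* `lev_congr`, `lev_const`, `lev_add`, `lev_smul`.
-/

open Set Filter Topology Metric Complex
open scoped ContDiff ComplexConjugate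

namespace Pool.Agent.H.MP_e23cd6_ag.AB

variable {V : Type} [NormedAddCommGroup V] [NormedSpace ℝ V] [NormedSpace ℂ V]
  [IsScalarTower ℝ ℂ V] [FiniteDimensional ℂ V]

/-- the Levi form of a real function, `∂_v ∂bar_w φ (x)` -/
noncomputable def lev (φ : V → ℝ) (x v w : V) : ℂ :=
  (1 / 4 : ℂ) *
    ((fderiv ℝ (fderiv ℝ φ) x v w : ℝ) + (fderiv ℝ (fderiv ℝ φ) x (I • v) (I • w) : ℝ) +
      I * ((fderiv ℝ (fderiv ℝ φ) x v (I • w) : ℝ) - (fderiv ℝ (fderiv ℝ φ) x (I • v) w : ℝ)))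

/-- the (1,0)-derivative of a complex valued function -/
noncomputable def dz (ψ : V → ℂ) (x u : V) : ℂ :=
  (1 / 2 : ℂ) * (fderiv ℝ ψ x u - I * fderiv ℝ ψ x (I • u))

/-- a smooth Kaehler metric on the open set `M` -/
structure KMet (M : Set V) where
  h : V → V → V → ℂ
  smooth : ∀ v w, ContDiffOn ℝ ∞ (fun x => h x v w) M
  add_left : ∀ x ∈ M, ∀ u v w, h x (u + v) w = h x u w + h x v w
  smul_left : ∀ x ∈ M, ∀ (c : ℂ) (v w : V), h x (c • v) w = c * h x v w
  herm : ∀ x ∈ M, ∀ v w, h x w v = conj (h x v w)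
  pos : ∀ x ∈ M, ∀ v, v ≠ 0 → 0 < (h x v v).re
  kahler : ∀ x ∈ M, ∀ u v w, dz (fun y => h y v w) x u = dz (fun y => h y u w) x v

variable {ι : Type} [Fintype ι] [DecidableEq ι]

/-- the Gram matrix of the metric -/
noncomputable def Hmat {M : Set V} (e : Module.Basis ι ℂ V) (h : KMet M) (x : V) : Matrix ι ι ℂ :=
  Matrix.of fun i j => h.h x (e i) (e j)

/-- the Levi matrix -/
noncomputable def Lmat (e : Module.Basis ι ℂ V) (φ : V → ℝ) (x : V) : Matrix ι ι ℂ :=
  Matrix.of fun i j => lev φ x (e i) (e j)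

/-- `Re tr (adj(H) Lev φ)`, i.e. the Laplacian of the metric times its determinant -/
noncomputable def Lap {M : Set V} (e : Module.Basis ι ℂ V) (h : KMet M) (φ : V → ℝ) (x : V) : ℝ :=
  ((Hmat e h x).adjugate * Lmat e φ x).trace.re

theorem lev_congr {φ ψ : V → ℝ} {x : V} (h : φ =ᶠ[𝓝 x] ψ) (v w : V) :
    lev φ x v w = lev ψ x v w := by
  have h1 : fderiv ℝ (fderiv ℝ φ) x = fderiv ℝ (fderiv ℝ ψ) x := h.fderiv.fderiv_eq
  simp only [lev, h1]

theorem lev_const (c : ℝ) (x v w : V) : lev (fun _ => c) x v w = 0 := by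
  have h1 : fderiv ℝ (fun _ : V => c) = fun _ => 0 := by
    funext y
    simp
  have h2 : fderiv ℝ (fderiv ℝ (fun _ : V => c)) x = 0 := by
    rw [h1]
    simp
  simp [lev, h2]

/-- the first derivative of a function of class C² is differentiable -/
theorem G5a_diff {φ : V → ℝ} {x : V} (hφ : ContDiffAt ℝ 2 φ x) :
    DifferentiableAt ℝ (fderiv ℝ φ) x :=
  (hφ.fderiv_right (m := 1) (by norm_num)).differentiableAt (by norm_num)

/-- a function of class C² is differentiable in a neighbourhood -/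
theorem G5a_ev {φ : V → ℝ} {x : V} (hφ : ContDiffAt ℝ 2 φ x) :
    ∀ᶠ y in 𝓝 x, DifferentiableAt ℝ φ y := by
  filter_upwards [hφ.eventually (by simp)] with y hy
  exact hy.differentiableAt (by norm_num)

theorem lev_add {φ ψ : V → ℝ} {x : V} (hφ : ContDiffAt ℝ 2 φ x) (hψ : ContDiffAt ℝ 2 ψ x)
    (v w : V) : lev (fun y => φ y + ψ y) x v w = lev φ x v w + lev ψ x v w := by
  have h1 : fderiv ℝ (fun y => φ y + ψ y) =ᶠ[𝓝 x] fun y => fderiv ℝ φ y + fderiv ℝ ψ y := by
    filter_upwards [G5a_ev hφ, G5a_ev hψ] with y h1 h2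
    exact fderiv_fun_add h1 h2
  have h2 : fderiv ℝ (fderiv ℝ (fun y => φ y + ψ y)) x =
      fderiv ℝ (fderiv ℝ φ) x + fderiv ℝ (fderiv ℝ ψ) x := by
    rw [h1.fderiv_eq]
    exact fderiv_fun_add (G5a_diff hφ) (G5a_diff hψ)
  simp only [lev, h2, ContinuousLinearMap.add_apply]
  push_cast
  ring

theorem lev_smul {φ : V → ℝ} {x : V} (hφ : ContDiffAt ℝ 2 φ x) (c : ℝ) (v w : V) :
    lev (fun y => c * φ y) x v w = c * lev φ x v w := by
  have h1 : fderiv ℝ (fun y => c * φ y) =ᶠ[𝓝 x] fun y => c • fderiv ℝ φ y := by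
    filter_upwards [G5a_ev hφ] with y h1
    exact fderiv_const_mul h1 c
  have h2 : fderiv ℝ (fderiv ℝ (fun y => c * φ y)) x = c • fderiv ℝ (fderiv ℝ φ) x := by
    rw [h1.fderiv_eq]
    exact fderiv_fun_const_smul (G5a_diff hφ) c
  simp only [lev, h2, ContinuousLinearMap.smul_apply, smul_eq_mul]
  push_cast
  ring

theorem lev_add_left {φ : V → ℝ} {x : V} (hφ : ContDiffAt ℝ 2 φ x) (u v w : V) :
    lev φ x (u + v) w = lev φ x u w + lev φ x v w := by
  simp only [lev, smul_add, map_add, ContinuousLinearMap.add_apply]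
  push_cast
  ring

theorem G5a_smul (c : ℂ) (v : V) : c • v = (c.re : ℝ) • v + (c.im : ℝ) • (I • v) := by
  conv_lhs => rw [← Complex.re_add_im c]
  rw [add_smul, mul_smul]
  congr 1
  · rw [← smul_one_smul ℂ c.re v]
    simp
  · rw [← smul_one_smul ℂ c.im (I • v)]
    simp

theorem lev_smul_left {φ : V → ℝ} {x : V} (hφ : ContDiffAt ℝ 2 φ x) (c : ℂ) (v w : V) :
    lev φ x (c • v) w = c * lev φ x v w := by
  have hI : I • I • v = -v := by
    rw [smul_smul, I_mul_I]
    simp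
  have h1 : I • (c • v) = (c.re : ℝ) • (I • v) + (-c.im : ℝ) • v := by
    rw [smul_comm I c v, G5a_smul c (I • v), hI]
    simp
  simp only [lev]
  rw [h1, G5a_smul c v]
  simp only [map_add, map_smul, ContinuousLinearMap.add_apply, ContinuousLinearMap.smul_apply,
    smul_eq_mul]
  conv_rhs => rw [← Complex.re_add_im c]
  push_cast
  ring_nf
  rw [I_sq]
  ring

theorem lev_herm {φ : V → ℝ} {x : V} (hφ : ContDiffAt ℝ 2 φ x) (v w : V) :
    lev φ x w v = conj (lev φ x v w) := by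
  have hs : IsSymmSndFDerivAt ℝ φ x := hφ.isSymmSndFDerivAt (by simp)
  have h1 : ∀ a b, fderiv ℝ (fderiv ℝ φ) x a b = fderiv ℝ (fderiv ℝ φ) x b a := hs
  simp only [lev]
  rw [h1 w v, h1 (I • w) (I • v), h1 w (I • v), h1 (I • w) v]
  simp only [map_mul, map_add, map_sub, Complex.conj_ofReal, Complex.conj_I, map_div₀, map_one,
    map_ofNat]
  ring

/-- the second derivative of a composition with a holomorphic map -/
theorem G5a_snd {φ : V → ℝ} {g : V → V} {U : Set V} (hU : IsOpen U) (hg : DifferentiableOn ℂ g U)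
    {x : V} (hx : x ∈ U) (hφ : ContDiffAt ℝ 2 φ (g x)) (a b : V) :
    fderiv ℝ (fderiv ℝ (fun y => φ (g y))) x a b =
      fderiv ℝ (fderiv ℝ φ) (g x) (fderiv ℂ g x a) (fderiv ℂ g x b) +
        fderiv ℝ φ (g x) (fderiv ℂ (fderiv ℂ g) x a b) := by
  haveI : CompleteSpace V := FiniteDimensional.complete ℂ V
  have hgc : ContDiffOn ℂ ∞ g U := ParLeaf.scv_contDiffOn hU hg
  have hgx : ContDiffAt ℂ ∞ g x := hgc.contDiffAt (hU.mem_nhds hx)
  have hgx2 : ContDiffAt ℂ 2 g x := by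
    exact_mod_cast (contDiffOn_infty.1 hgc 2).contDiffAt (hU.mem_nhds hx)
  have hgr : ContDiffAt ℝ 2 g x := hgx2.restrict_scalars ℝ
  have hcomp : ContDiffAt ℝ 2 (fun y => φ (g y)) x := ContDiffAt.comp x hφ hgr
  have hG : DifferentiableAt ℂ (fderiv ℂ g) x :=
    (hgx2.fderiv_right (m := 1) (by norm_num)).differentiableAt (by norm_num)
  have h1 : fderiv ℝ (fderiv ℝ (fun y => φ (g y))) x a b =
      fderiv ℝ (fun y => fderiv ℝ (fun y => φ (g y)) y b) x a := by
    have := ((G5a_diff hcomp).hasFDerivAt.clm_apply (hasFDerivAt_const b x)).fderiv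
    rw [this]
    simp
  have hev : (fun y => fderiv ℝ (fun y => φ (g y)) y b) =ᶠ[𝓝 x]
      fun y => fderiv ℝ φ (g y) (fderiv ℂ g y b) := by
    have hc : ContinuousAt g x := hgx.continuousAt
    filter_upwards [hc.eventually (G5a_ev hφ), hU.mem_nhds hx] with y hy hyU
    have h2 : HasFDerivAt g ((fderiv ℂ g y).restrictScalars ℝ) y :=
      ((hg y hyU).differentiableAt (hU.mem_nhds hyU)).hasFDerivAt.restrictScalars ℝ
    have h3 := (hy.hasFDerivAt.comp y h2).fderiv
    have h4 : fderiv ℝ (fun y => φ (g y)) y = _ := h3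
    rw [h4]
    rfl
  have h2 : HasFDerivAt (fun y => fderiv ℝ φ (g y))
      ((fderiv ℝ (fderiv ℝ φ) (g x)).comp ((fderiv ℂ g x).restrictScalars ℝ)) x := by
    have h3 : HasFDerivAt g ((fderiv ℂ g x).restrictScalars ℝ) x :=
      (hgx.differentiableAt (by simp)).hasFDerivAt.restrictScalars ℝ
    exact (G5a_diff hφ).hasFDerivAt.comp x h3
  have h3 : HasFDerivAt (fun y => fderiv ℂ g y b)
      (((ContinuousLinearMap.apply ℂ V b).comp (fderiv ℂ (fderiv ℂ g) x)).restrictScalars ℝ) x := by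
    have h4 : HasFDerivAt (fun y => fderiv ℂ g y b)
        ((ContinuousLinearMap.apply ℂ V b).comp (fderiv ℂ (fderiv ℂ g) x)) x :=
      (ContinuousLinearMap.apply ℂ V b).hasFDerivAt.comp x hG.hasFDerivAt
    exact h4.restrictScalars ℝ
  rw [h1, hev.fderiv_eq, (h2.clm_apply h3).fderiv]
  simp
  ring

theorem lev_comp {φ : V → ℝ} {g : V → V} {U : Set V} (hU : IsOpen U) (hg : DifferentiableOn ℂ g U)
    {x : V} (hx : x ∈ U) (hφ : ContDiffAt ℝ 2 φ (g x)) (v w : V) :
    lev (fun y => φ (g y)) x v w = lev φ (g x) (fderiv ℂ g x v) (fderiv ℂ g x w) := by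
  simp only [lev, G5a_snd hU hg hx hφ, map_smul, ContinuousLinearMap.smul_apply]
  have h1 : I • I • (fderiv ℂ (fderiv ℂ g) x v w) = -(fderiv ℂ (fderiv ℂ g) x v w) := by
    rw [smul_smul, I_mul_I]
    simp
  rw [h1, map_neg]
  push_cast
  ring

end Pool.Agent.H.MP_e23cd6_ag.AB
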