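import Mathlib

/-!
ABUN G5bm: linear algebra for G5b: traces of products of positive semidefinite matrices,
sesquilinear forms and their matrices.
-/

open Set Filter Topology Metric Complex
open scoped ComplexConjugate ComplexOrder Matrix

namespace Pool.Agent.H.MP_e23cd6_ag.AB

variable {ι : Type} [Fintype ι] [DecidableEq ι]

/-- the real quadratic form of a matrix -/
noncomputable def G5bq (L : Matrix ι ι ℂ) (ξ : ι → ℂ) : ℝ := (star ξ ⬝ᵥ (L *ᵥ ξ)).re

theorem G5b_trace {m : ℕ} (v : Fin m → (ι → ℂ)) (L : Matrix ι ι ℂ) :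
    ((∑ l, Matrix.vecMulVec (v l) (star (v l))) * L).trace.re = ∑ l, G5bq L (v l) := by
  rw [Finset.sum_mul, Matrix.trace_sum, Complex.re_sum]
  refine Finset.sum_congr rfl fun l _ => ?_
  unfold G5bq
  rw [Matrix.vecMulVec_mul, Matrix.trace_vecMulVec, Matrix.dotProduct_mulVec, dotProduct_comm]

theorem G5b_traceOne {m : ℕ} (v : Fin m → (ι → ℂ)) :
    (∑ l, Matrix.vecMulVec (v l) (star (v l))).trace.re = ∑ l, ∑ i, ‖v l i‖ ^ 2 := by
  rw [Matrix.trace_sum, Complex.re_sum]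
  refine Finset.sum_congr rfl fun l _ => ?_
  rw [Matrix.trace_vecMulVec, dotProduct, Complex.re_sum]
  refine Finset.sum_congr rfl fun i _ => ?_
  rw [Pi.star_apply, Complex.star_def, Complex.mul_conj, Complex.ofReal_re, Complex.normSq_eq_norm_sq]

theorem G5b_lowerTrace {A L : Matrix ι ι ℂ} (hA : A.PosSemidef) {δ : ℝ}
    (hL : ∀ ξ : ι → ℂ, -δ * ∑ i, ‖ξ i‖ ^ 2 ≤ G5bq L ξ) :
    -δ * A.trace.re ≤ (A * L).trace.re := by
  obtain ⟨m, v, rfl⟩ := Matrix.posSemidef_iff_eq_sum_vecMulVec.1 hA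
  rw [G5b_trace, G5b_traceOne, Finset.mul_sum]
  exact Finset.sum_le_sum fun l _ => hL (v l)

theorem G5b_lowerTwo {A L : Matrix ι ι ℂ} {lam : ℝ} (hA : (A - (lam : ℂ) • 1).PosSemidef)
    (hL : ∀ ξ : ι → ℂ, 0 ≤ G5bq L ξ) :
    lam * L.trace.re ≤ (A * L).trace.re := by
  have h1 := G5b_lowerTrace (δ := 0) hA (L := L) (fun ξ => by
    rw [neg_zero, zero_mul]
    exact hL ξ)
  rw [neg_zero, zero_mul, sub_mul, Matrix.trace_sub, Complex.sub_re, Matrix.smul_mul, one_mul,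
    Matrix.trace_smul, smul_eq_mul, Complex.re_ofReal_mul] at h1
  linarith

theorem G5b_quadLe {L : Matrix ι ι ℂ} (hL : L.PosSemidef) (ξ : ι → ℂ) :
    G5bq L ξ ≤ (∑ i, ‖ξ i‖ ^ 2) * L.trace.re := by
  obtain ⟨m, v, rfl⟩ := Matrix.posSemidef_iff_eq_sum_vecMulVec.1 hL
  rw [G5b_traceOne]
  unfold G5bq
  rw [Matrix.sum_mulVec, dotProduct_sum, Complex.re_sum, Finset.mul_sum]
  refine Finset.sum_le_sum fun l _ => ?_
  have h1 : star ξ ⬝ᵥ (Matrix.vecMulVec (v l) (star (v l)) *ᵥ ξ) =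
      ((‖∑ i, conj (ξ i) * v l i‖ ^ 2 : ℝ) : ℂ) := by
    rw [← Complex.normSq_eq_norm_sq, ← Complex.mul_conj, map_sum]
    simp only [map_mul, Complex.conj_conj]
    rw [Matrix.vecMulVec_mulVec]
    simp only [dotProduct, Pi.smul_apply, Pi.star_apply, Complex.star_def, MulOpposite.smul_eq_mul_unop,
      MulOpposite.unop_op]
    rw [Finset.sum_mul]
    refine Finset.sum_congr rfl fun i _ => ?_
    rw [mul_assoc]
    congr 2
    refine Finset.sum_congr rfl fun k _ => ?_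
    ring
  rw [h1, Complex.ofReal_re]
  have h2 : ‖∑ i, conj (ξ i) * v l i‖ ≤ ∑ i, ‖ξ i‖ * ‖v l i‖ := by
    refine (norm_sum_le _ _).trans (le_of_eq ?_)
    refine Finset.sum_congr rfl fun i _ => ?_
    rw [norm_mul, RCLike.norm_conj]
  calc ‖∑ i, conj (ξ i) * v l i‖ ^ 2 ≤ (∑ i, ‖ξ i‖ * ‖v l i‖) ^ 2 :=
        pow_le_pow_left₀ (norm_nonneg _) h2 2
    _ ≤ (∑ i, ‖ξ i‖ ^ 2) * ∑ i, ‖v l i‖ ^ 2 := Finset.sum_mul_sq_le_sq_mul_sq _ _ _

section Form

variable {V : Type} [AddCommGroup V] [Module ℂ V] (e : Module.Basis ι ℂ V)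
  {b : V → V → ℂ} (hadd : ∀ u v w, b (u + v) w = b u w + b v w)
  (hsmul : ∀ (c : ℂ) (v w : V), b (c • v) w = c * b v w)
  (hherm : ∀ v w, b w v = conj (b v w))

include hadd hsmul in
omit [Fintype ι] [DecidableEq ι] in
theorem G5b_sumLeft {κ : Type} (s : Finset κ) (c : κ → ℂ) (f : κ → V) (w : V) :
    b (∑ i ∈ s, c i • f i) w = ∑ i ∈ s, c i * b (f i) w := by
  classical
  induction s using Finset.induction_on with
  | empty =>
    have h1 := hsmul 0 0 w
    rw [zero_smul, zero_mul] at h1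
    rw [Finset.sum_empty, Finset.sum_empty, h1]
  | insert a s ha ih => rw [Finset.sum_insert ha, Finset.sum_insert ha, hadd, hsmul, ih]

include hadd hsmul hherm in
omit [Fintype ι] [DecidableEq ι] in
theorem G5b_sumRight {κ : Type} (s : Finset κ) (c : κ → ℂ) (f : κ → V) (w : V) :
    b w (∑ i ∈ s, c i • f i) = ∑ i ∈ s, conj (c i) * b w (f i) := by
  rw [hherm, G5b_sumLeft hadd hsmul, map_sum]
  refine Finset.sum_congr rfl fun i _ => ?_
  rw [map_mul, ← hherm]

include hadd hsmul hherm in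
theorem G5b_form (ξ : ι → ℂ) :
    star ξ ⬝ᵥ ((Matrix.of fun i j => b (e i) (e j)) *ᵥ ξ) =
      b (∑ i, conj (ξ i) • e i) (∑ i, conj (ξ i) • e i) := by
  rw [G5b_sumLeft hadd hsmul]
  simp only [dotProduct, Matrix.mulVec, Matrix.of_apply, Pi.star_apply, Complex.star_def]
  refine Finset.sum_congr rfl fun i _ => ?_
  rw [G5b_sumRight hadd hsmul hherm]
  congr 1
  refine Finset.sum_congr rfl fun j _ => ?_
  rw [Complex.conj_conj, mul_comm]

include hadd hsmul hherm in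
theorem G5b_mat (f : V →ₗ[ℂ] V) :
    (Matrix.of fun i j => b (f (e i)) (f (e j))) =
      (LinearMap.toMatrix e e f)ᵀ * (Matrix.of fun i j => b (e i) (e j)) *
        ((LinearMap.toMatrix e e f)ᵀ)ᴴ := by
  have hf : ∀ i, f (e i) = ∑ a, LinearMap.toMatrix e e f a i • e a := by
    intro i
    conv_lhs => rw [← e.sum_repr (f (e i))]
    refine Finset.sum_congr rfl fun a _ => ?_
    rw [LinearMap.toMatrix_apply]
  ext i j
  rw [Matrix.of_apply, hf i, G5b_sumLeft hadd hsmul, Matrix.mul_apply]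
  simp only [Matrix.mul_apply, Matrix.of_apply, Matrix.transpose_apply, Matrix.conjTranspose_apply,
    Complex.star_def]
  have h1 : ∀ a, b (e a) (f (e j)) =
      ∑ c, conj (LinearMap.toMatrix e e f c j) * b (e a) (e c) := by
    intro a
    rw [hf j, G5b_sumRight hadd hsmul hherm]
  simp only [h1, Finset.mul_sum, Finset.sum_mul]
  rw [Finset.sum_comm]
  refine Finset.sum_congr rfl fun c _ => Finset.sum_congr rfl fun a _ => ?_
  ring

end Form

end Pool.Agent.H.MP_e23cd6_ag.AB
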