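import Pool.Agent.H.MP_e23cd6_ag.AB.G5a
import Pool.Agent.H.MP_e23cd6_ag.AB.G5bm

/-!
ABUN G5bl: uniform ellipticity of the operator Lap on compact sets (used in G5b).
-/

open Set Filter Topology Metric Complex
open scoped ContDiff ComplexConjugate ComplexOrder Matrix

namespace Pool.Agent.H.MP_e23cd6_ag.AB

variable {V : Type} [NormedAddCommGroup V] [NormedSpace ℝ V] [NormedSpace ℂ V]
  [IsScalarTower ℝ ℂ V] [FiniteDimensional ℂ V] {ι : Type} [Fintype ι] [DecidableEq ι]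
  {M : Set V} (e : Module.Basis ι ℂ V) (h : KMet M)

/-- the Gram matrix is positive definite -/
theorem G5b_pos {x : V} (hx : x ∈ M) : (Hmat e h x).PosDef := by
  refine Matrix.PosDef.of_dotProduct_mulVec_pos ?_ fun ξ hξ => ?_
  · ext i j
    rw [Matrix.conjTranspose_apply]
    exact (h.herm x hx _ _).symm
  · have h1 := G5b_form e (h.add_left x hx) (h.smul_left x hx) (h.herm x hx) ξ
    have h2 : star ξ ⬝ᵥ (Hmat e h x *ᵥ ξ) =
        h.h x (∑ i, conj (ξ i) • e i) (∑ i, conj (ξ i) • e i) := h1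
    rw [h2]
    have hv : (∑ i, conj (ξ i) • e i) ≠ 0 := by
      intro h0
      apply hξ
      funext i
      have h3 := (Fintype.linearIndependent_iff.1 e.linearIndependent) (fun i => conj (ξ i)) h0 i
      exact (map_eq_zero _).1 h3
    have hp := h.pos x hx _ hv
    have him := Complex.conj_eq_iff_im.1 (h.herm x hx (∑ i, conj (ξ i) • e i)
      (∑ i, conj (ξ i) • e i)).symm
    rw [Complex.lt_def]
    exact ⟨by rw [Complex.zero_re]; exact hp, by rw [Complex.zero_im, him]⟩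

theorem G5b_adj {x : V} (hx : x ∈ M) : (Hmat e h x).adjugate.PosDef := by
  have h1 := G5b_pos e h hx
  have h2 : (Hmat e h x).adjugate = (Hmat e h x).det • (Hmat e h x)⁻¹ := by
    rw [Matrix.inv_def, smul_smul, Ring.mul_inverse_cancel _ ((Matrix.isUnit_iff_isUnit_det _).1
      h1.isUnit), one_smul]
  rw [h2]
  exact h1.inv.smul h1.det_pos

theorem G5b_cont {K : Set V} (hK : K ⊆ M) : ContinuousOn (fun x => (Hmat e h x).adjugate) K := by
  have h1 : ContinuousOn (fun x => Hmat e h x) K := by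
    refine continuousOn_pi.2 fun i => continuousOn_pi.2 fun j => ?_
    exact ((h.smooth (e i) (e j)).continuousOn).mono hK
  exact (continuous_id.matrix_adjugate).comp_continuousOn h1

/-- uniform ellipticity -/
theorem G5b_ell {K : Set V} (hK : K ⊆ M) (hKc : IsCompact K) :
    ∃ lam Lam : ℝ, 0 < lam ∧ 0 < Lam ∧ ∀ x ∈ K,
      ((Hmat e h x).adjugate - (lam : ℂ) • 1).PosSemidef ∧ (Hmat e h x).adjugate.trace.re ≤ Lam := by
  have hA := G5b_cont e h hK
  -- the upper bound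
  obtain ⟨B, hB⟩ : ∃ B : ℝ, ∀ x ∈ K, (Hmat e h x).adjugate.trace.re ≤ B := by
    have h1 : ContinuousOn (fun x => (Hmat e h x).adjugate.trace.re) K :=
      (Complex.continuous_re.comp (continuous_id.matrix_trace)).comp_continuousOn hA
    obtain ⟨B, hB⟩ := hKc.bddAbove_image h1
    exact ⟨B, fun x hx => hB (mem_image_of_mem _ hx)⟩
  -- the lower bound
  obtain ⟨μ, hμ, hμ'⟩ : ∃ μ : ℝ, 0 < μ ∧ ∀ x ∈ K, ∀ ξ : ι → ℂ, ‖ξ‖ = 1 →
      μ ≤ G5bq ((Hmat e h x).adjugate) ξ := by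
    have h1 : ContinuousOn (fun p : V × (ι → ℂ) => G5bq ((Hmat e h p.1).adjugate) p.2)
        (K ×ˢ sphere 0 1) := by
      have h2 : ContinuousOn (fun p : V × (ι → ℂ) => (Hmat e h p.1).adjugate)
          (K ×ˢ sphere 0 1) := hA.comp continuousOn_fst fun p hp => hp.1
      have h3 : ∀ i j, ContinuousOn (fun p : V × (ι → ℂ) => (Hmat e h p.1).adjugate i j)
          (K ×ˢ sphere 0 1) := fun i j =>
        continuousOn_pi.1 (continuousOn_pi.1 h2 i) j
      have h4 : ∀ i, ContinuousOn (fun p : V × (ι → ℂ) => p.2 i) (K ×ˢ sphere 0 1) := fun i =>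
        ((continuous_apply i).comp continuous_snd).continuousOn
      unfold G5bq
      simp only [dotProduct, Matrix.mulVec, Pi.star_apply]
      refine Complex.continuous_re.comp_continuousOn ?_
      refine continuousOn_finsetSum _ fun i _ => ContinuousOn.mul ?_ ?_
      · exact (h4 i).star
      · exact continuousOn_finsetSum _ fun j _ => (h3 i j).mul (h4 j)
    rcases (K ×ˢ sphere (0 : ι → ℂ) 1).eq_empty_or_nonempty with h0 | h0
    · refine ⟨1, one_pos, fun x hx ξ hξ => ?_⟩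
      have : (x, ξ) ∈ K ×ˢ sphere (0 : ι → ℂ) 1 := ⟨hx, by simpa using hξ⟩
      rw [h0] at this
      exact this.elim
    · obtain ⟨p, hp, hp'⟩ := (hKc.prod (isCompact_sphere _ _)).exists_isMinOn h0 h1
      rw [isMinOn_iff] at hp'
      refine ⟨G5bq ((Hmat e h p.1).adjugate) p.2, ?_, fun x hx ξ hξ => ?_⟩
      swap
      · exact hp' (x, ξ) ⟨hx, by simpa using hξ⟩
      have h5 : p.2 ≠ 0 := by
        intro h6
        have h7 : ‖p.2‖ = 1 := by simpa using hp.2
        rw [h6, norm_zero] at h7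
        exact zero_ne_one h7
      have h6 := (G5b_adj e h (hK hp.1)).dotProduct_mulVec_pos h5
      exact (Complex.lt_def.1 h6).1
  have hN : (0 : ℝ) < Fintype.card ι + 1 := by positivity
  refine ⟨μ / (Fintype.card ι + 1), max B 1, by positivity, lt_max_of_lt_right one_pos,
    fun x hx => ⟨?_, (hB x hx).trans (le_max_left _ _)⟩⟩
  have hAx := G5b_adj e h (hK hx)
  have hherm : ((Hmat e h x).adjugate - ((μ / (Fintype.card ι + 1) : ℝ) : ℂ) • 1).IsHermitian := by
    refine hAx.1.sub ?_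
    rw [Matrix.IsHermitian, Matrix.conjTranspose_smul, Matrix.conjTranspose_one, Complex.star_def,
      Complex.conj_ofReal]
  refine Matrix.PosSemidef.of_dotProduct_mulVec_nonneg hherm fun ξ => ?_
  have him := hherm.im_star_dotProduct_mulVec_self ξ
  rw [Complex.le_def]
  refine ⟨?_, by rw [Complex.zero_im]; exact him.symm⟩
  rw [Complex.zero_re, Matrix.sub_mulVec, dotProduct_sub, Complex.sub_re, Matrix.smul_mulVec,
    Matrix.one_mulVec, dotProduct_smul, smul_eq_mul, Complex.re_ofReal_mul]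
  have h1 : (star ξ ⬝ᵥ ξ).re = ∑ i, ‖ξ i‖ ^ 2 := by
    rw [dotProduct, Complex.re_sum]
    refine Finset.sum_congr rfl fun i _ => ?_
    rw [Pi.star_apply, Complex.star_def, ← Complex.normSq_eq_conj_mul_self, Complex.ofReal_re,
      Complex.normSq_eq_norm_sq]
  rw [h1]
  have h2 : ∑ i, ‖ξ i‖ ^ 2 ≤ Fintype.card ι * ‖ξ‖ ^ 2 := by
    calc ∑ i, ‖ξ i‖ ^ 2 ≤ ∑ _i : ι, ‖ξ‖ ^ 2 :=
          Finset.sum_le_sum fun i _ => pow_le_pow_left₀ (norm_nonneg _) (norm_le_pi_norm ξ i) 2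
      _ = Fintype.card ι * ‖ξ‖ ^ 2 := by simp
  have h3 : μ * ‖ξ‖ ^ 2 ≤ G5bq ((Hmat e h x).adjugate) ξ := by
    rcases eq_or_ne ξ 0 with rfl | hξ
    · simp [G5bq]
    · have hn : 0 < ‖ξ‖ := norm_pos_iff.2 hξ
      have h4 := hμ' x hx (((‖ξ‖⁻¹ : ℝ) : ℂ) • ξ) (by
        rw [norm_smul, Complex.norm_real, norm_inv, norm_norm, inv_mul_cancel₀ hn.ne'])
      have h5 : G5bq ((Hmat e h x).adjugate) (((‖ξ‖⁻¹ : ℝ) : ℂ) • ξ) =
          (‖ξ‖ ^ 2)⁻¹ * G5bq ((Hmat e h x).adjugate) ξ := by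
        unfold G5bq
        rw [Matrix.mulVec_smul, star_smul, dotProduct_smul, smul_dotProduct, Complex.star_def,
          Complex.conj_ofReal, smul_eq_mul, smul_eq_mul, ← mul_assoc, ← Complex.ofReal_mul,
          Complex.re_ofReal_mul]
        congr 1
        rw [sq, mul_inv]
      rw [h5, le_inv_mul_iff₀ (by positivity)] at h4
      linarith
  have h6 : μ / (Fintype.card ι + 1) * ∑ i, ‖ξ i‖ ^ 2 ≤ μ * ‖ξ‖ ^ 2 := by
    rw [div_mul_eq_mul_div, div_le_iff₀ hN]
    have h7 : μ * ∑ i, ‖ξ i‖ ^ 2 ≤ μ * (Fintype.card ι * ‖ξ‖ ^ 2) :=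
      mul_le_mul_of_nonneg_left h2 hμ.le
    nlinarith [sq_nonneg ‖ξ‖]
  have h7 : G5bq ((Hmat e h x).adjugate) ξ = (star ξ ⬝ᵥ ((Hmat e h x).adjugate *ᵥ ξ)).re := rfl
  linarith

end Pool.Agent.H.MP_e23cd6_ag.AB
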