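import Pool.Agent.H.MP_e23cd6_ag.AB.G5a
import Pool.Agent.H.MP_e23cd6_ag.AB.G5bl
import Pool.Agent.H.MP_e23cd6_ag.AB.G5bl
import Pool.Agent.H.MP_e23cd6_ag.AB.G5bl

/-!
ABUN G5b: elementary properties of the operator Lap: linearity, invariance, lower bounds.

* `lap_congr`, `lap_const`, `lap_add`, `lap_smul`, `lap_finset_sum`: from the lev lemmas.
* `lap_comp` (invariance): let J be the matrix of Dg(x) : V → V in the basis e (LinearMap.toMatrix e e, (Dg)(e i) = Σ_a J a i • e a),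
  T the matrix with T i a = J a i. By the invariance of h (h (g x) (Dg v) (Dg w) = h x v w) and lev_comp:
  H(x) = T * H(g x) * Tᴴ (Tᴴ = conjugate transpose), Lmat (φ∘g) x = T * Lmat φ (g x) * Tᴴ (sesquilinearity of h and lev; uses
  herm for conjugate linearity in the second variable). adj(H x) = adj(Tᴴ) adj(H(g x)) adj(T) (`Matrix.adjugate_mul_distrib`), so
  trace (adj(H x) T L Tᴴ) = trace (adj(Tᴴ) adj(H(g x)) adj(T) T L Tᴴ) = det T · trace (Tᴴ adj(Tᴴ) adj(H(g x)) L)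
  = det T · conj(det T) · trace (adj(H(g x)) L(g x)); det T = det Dg(x).
* `lap_lower`: on the compact K ⊆ M. For x ∈ K, H = H(x) is Hermitian positive definite (pos), so adj(H) = det(H) H⁻¹ is Hermitian
  positive definite; it is continuous in x and the set {adj(H x)} is compact, so there are 0 < λ ≤ Λ with λ|ξ|² ≤ ξ* adj(H x) ξ ≤ Λ|ξ|² for all x ∈ K,
  ξ ∈ ℂ^ι (continuous positive function on K × unit sphere). Let L = Lmat φ x (Hermitian). For a positive definite matrix A =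
  Σ_l ξ_l ξ_l^* (spectral theorem, `Matrix.PosSemidef` has a square root / A = Bᴴ * B) trace(A L) = Σ_l ξ_l^* L ξ_l, with ξ^* L ξ = lev φ x v v
  for the vector v with coordinates conj ξ_i or so. (1) If (lev φ x v v).re ≥ -δ‖v‖² for all v then trace(A L).re ≥ -δ C Σ|ξ_l|² =
  -δ C trace A ≥ -C' δ. (2) If lev ≥ 0: A - λ 1 is positive semidefinite, so trace(A L) ≥ λ trace L (trace of the product of two positive
  semidefinite matrices is ≥ 0) and trace L ≥ (ξ^* L ξ)/|ξ|² ≥ c lev φ x v v for ‖v‖ ≤ 1. Norm equivalence between ‖v‖ and the Euclidean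
  norm of the coordinates (finite dimension).
-/

open Set Filter Topology Metric Complex
open scoped ContDiff ComplexConjugate ComplexOrder Matrix ComplexOrder Matrix ComplexOrder Matrix

namespace Pool.Agent.H.MP_e23cd6_ag.AB

variable {V : Type} [NormedAddCommGroup V] [NormedSpace ℝ V] [NormedSpace ℂ V]
  [IsScalarTower ℝ ℂ V] [FiniteDimensional ℂ V] {ι : Type} [Fintype ι] [DecidableEq ι]
  {M : Set V} (e : Module.Basis ι ℂ V) (h : KMet M)

theorem lap_congr {φ ψ : V → ℝ} {x : V} (hφ : φ =ᶠ[𝓝 x] ψ) : Lap e h φ x = Lap e h ψ x := by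
  have h1 : Lmat e φ x = Lmat e ψ x := by
    ext i j
    exact lev_congr hφ _ _
  rw [Lap, Lap, h1]

theorem lap_const (c : ℝ) (x : V) : Lap e h (fun _ => c) x = 0 := by
  have h1 : Lmat e (fun _ : V => c) x = 0 := by
    ext i j
    exact lev_const c x _ _
  rw [Lap, h1, mul_zero, Matrix.trace_zero, Complex.zero_re]

theorem lap_add {φ ψ : V → ℝ} {x : V} (hφ : ContDiffAt ℝ 2 φ x) (hψ : ContDiffAt ℝ 2 ψ x) :
    Lap e h (fun y => φ y + ψ y) x = Lap e h φ x + Lap e h ψ x := by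
  have h1 : Lmat e (fun y => φ y + ψ y) x = Lmat e φ x + Lmat e ψ x := by
    ext i j
    exact lev_add hφ hψ _ _
  rw [Lap, Lap, Lap, h1, mul_add, Matrix.trace_add, Complex.add_re]

theorem lap_smul {φ : V → ℝ} {x : V} (hφ : ContDiffAt ℝ 2 φ x) (c : ℝ) :
    Lap e h (fun y => c * φ y) x = c * Lap e h φ x := by
  have h1 : Lmat e (fun y => c * φ y) x = (c : ℂ) • Lmat e φ x := by
    ext i j
    exact lev_smul hφ c _ _
  rw [Lap, Lap, h1, Matrix.mul_smul, Matrix.trace_smul, smul_eq_mul, Complex.re_ofReal_mul]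

theorem lap_sum {κ : Type} (s : Finset κ) {φ : κ → V → ℝ} {x : V}
    (hφ : ∀ i ∈ s, ContDiffAt ℝ 2 (φ i) x) :
    Lap e h (fun y => ∑ i ∈ s, φ i y) x = ∑ i ∈ s, Lap e h (φ i) x := by
  classical
  induction s using Finset.induction_on with
  | empty =>
    simp only [Finset.sum_empty]
    exact lap_const e h 0 x
  | insert a s ha ih =>
    rw [Finset.sum_insert ha, ← ih fun i hi => hφ i (Finset.mem_insert_of_mem hi)]
    rw [← lap_add e h (hφ a (Finset.mem_insert_self a s))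
      (ContDiffAt.sum fun i hi => hφ i (Finset.mem_insert_of_mem hi))]
    apply lap_congr
    filter_upwards with y
    rw [Finset.sum_insert ha]

theorem lap_comp {φ : V → ℝ} {g : V → V} (hM : IsOpen M) (hg : DifferentiableOn ℂ g M)
    {x : V} (hx : x ∈ M) (hgx : g x ∈ M)
    (hinv : ∀ v w, h.h (g x) (fderiv ℂ g x v) (fderiv ℂ g x w) = h.h x v w)
    (hφ : ContDiffAt ℝ 2 φ (g x)) :
    Lap e h (fun y => φ (g y)) x = ‖(fderiv ℂ g x).det‖ ^ 2 * Lap e h φ (g x) := by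
  let f : V →ₗ[ℂ] V := (fderiv ℂ g x : V →ₗ[ℂ] V)
  let T : Matrix ι ι ℂ := (LinearMap.toMatrix e e f)ᵀ
  have h1 : Hmat e h x = T * Hmat e h (g x) * Tᴴ := by
    have h2 := G5b_mat e (h.add_left (g x) hgx) (h.smul_left (g x) hgx) (h.herm (g x) hgx) f
    rw [show Hmat e h x = Matrix.of fun i j => h.h (g x) (f (e i)) (f (e j)) from ?_, h2]
    · rfl
    · ext i j
      exact (hinv (e i) (e j)).symm
  have h2 : Lmat e (fun y => φ (g y)) x = T * Lmat e φ (g x) * Tᴴ := by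
    have h2 := G5b_mat e (b := lev φ (g x)) (lev_add_left hφ) (lev_smul_left hφ) (lev_herm hφ) f
    rw [show Lmat e (fun y => φ (g y)) x = Matrix.of fun i j => lev φ (g x) (f (e i)) (f (e j))
      from ?_, h2]
    · rfl
    · ext i j
      exact lev_comp hM hg hx hφ (e i) (e j)
  have hdet : T.det = (fderiv ℂ g x).det := by
    rw [Matrix.det_transpose, LinearMap.det_toMatrix]
  have h3 : (Matrix.adjugate (T * Hmat e h (g x) * Tᴴ) * (T * Lmat e φ (g x) * Tᴴ)).trace =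
      ((‖T.det‖ ^ 2 : ℝ) : ℂ) * ((Hmat e h (g x)).adjugate * Lmat e φ (g x)).trace := by
    rw [Matrix.adjugate_mul_distrib, Matrix.adjugate_mul_distrib]
    have h4 : Tᴴ.adjugate * (Matrix.adjugate (Hmat e h (g x)) * T.adjugate) *
        (T * Lmat e φ (g x) * Tᴴ) =
        Tᴴ.adjugate * ((Matrix.adjugate (Hmat e h (g x)) * (T.adjugate * T) * Lmat e φ (g x)) *
          Tᴴ) := by
      simp only [Matrix.mul_assoc]
    rw [h4, Matrix.trace_mul_comm, Matrix.mul_assoc, Matrix.mul_adjugate, Matrix.adjugate_mul,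
      Matrix.det_conjTranspose]
    simp only [Matrix.mul_smul, Matrix.smul_mul, Matrix.mul_one, Matrix.trace_smul, smul_eq_mul]
    rw [← Complex.normSq_eq_norm_sq, ← Complex.mul_conj, Complex.star_def]
    ring
  rw [Lap, Lap, h1, h2, h3, Complex.re_ofReal_mul, hdet]

/-- the quadratic form of the Levi matrix -/
theorem G5b_lev {φ : V → ℝ} {x : V} (hφ : ContDiffAt ℝ 2 φ x) (ξ : ι → ℂ) :
    G5bq (Lmat e φ x) ξ = (lev φ x (∑ i, conj (ξ i) • e i) (∑ i, conj (ξ i) • e i)).re := by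
  unfold G5bq
  congr 1
  exact G5b_form e (lev_add_left hφ) (lev_smul_left hφ) (lev_herm hφ) ξ

theorem G5b_levsq {φ : V → ℝ} {x : V} (hφ : ContDiffAt ℝ 2 φ x) (c : ℝ) (v : V) :
    (lev φ x ((c : ℂ) • v) ((c : ℂ) • v)).re = c ^ 2 * (lev φ x v v).re := by
  rw [lev_smul_left hφ, lev_herm hφ ((c : ℂ) • v) v, lev_smul_left hφ, map_mul,
    Complex.conj_ofReal, ← lev_herm hφ, ← mul_assoc, ← Complex.ofReal_mul, Complex.re_ofReal_mul, sq]

theorem G5b_scale {φ : V → ℝ} {x : V} (hφ : ContDiffAt ℝ 2 φ x) {δ : ℝ}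
    (h1 : ∀ v, ‖v‖ ≤ 1 → -δ ≤ (lev φ x v v).re) (v : V) :
    -δ * ‖v‖ ^ 2 ≤ (lev φ x v v).re := by
  rcases eq_or_ne v 0 with rfl | hv
  · have h2 := G5b_levsq hφ 0 (0 : V)
    rw [smul_zero] at h2
    rw [norm_zero, h2]
    simp
  · have hn : 0 < ‖v‖ := norm_pos_iff.2 hv
    have h2 := h1 (((‖v‖⁻¹ : ℝ) : ℂ) • v) (by
      rw [norm_smul, Complex.norm_real, norm_inv, norm_norm, inv_mul_cancel₀ hn.ne'])
    rw [G5b_levsq hφ, inv_pow, le_inv_mul_iff₀ (by positivity)] at h2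
    linarith

theorem lap_lower {K : Set V} (hK : K ⊆ M) (hKc : IsCompact K) :
    ∃ c C : ℝ, 0 < c ∧ 0 < C ∧ ∀ x ∈ K, ∀ φ : V → ℝ, ContDiffAt ℝ 2 φ x →
      (∀ δ : ℝ, 0 ≤ δ → (∀ v, ‖v‖ ≤ 1 → -δ ≤ (lev φ x v v).re) → -(C * δ) ≤ Lap e h φ x) ∧
      ((∀ v, ‖v‖ ≤ 1 → 0 ≤ (lev φ x v v).re) → ∀ v, ‖v‖ ≤ 1 →
        c * (lev φ x v v).re ≤ Lap e h φ x) := by
  obtain ⟨lam, Lam, hlam, hLam, hell⟩ := G5b_ell e h hK hKc
  -- comparison of norms
  let N1 : ℝ := ∑ i, ‖e i‖ ^ 2 + 1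
  have hN1 : 0 < N1 := by positivity
  have hN1' : ∀ ξ : ι → ℂ, ‖∑ i, conj (ξ i) • e i‖ ^ 2 ≤ N1 * ∑ i, ‖ξ i‖ ^ 2 := by
    intro ξ
    have h2 : ‖∑ i, conj (ξ i) • e i‖ ≤ ∑ i, ‖e i‖ * ‖ξ i‖ := by
      refine (norm_sum_le _ _).trans (le_of_eq ?_)
      refine Finset.sum_congr rfl fun i _ => ?_
      rw [norm_smul, RCLike.norm_conj, mul_comm]
    calc ‖∑ i, conj (ξ i) • e i‖ ^ 2 ≤ (∑ i, ‖e i‖ * ‖ξ i‖) ^ 2 :=
          pow_le_pow_left₀ (norm_nonneg _) h2 2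
      _ ≤ (∑ i, ‖e i‖ ^ 2) * ∑ i, ‖ξ i‖ ^ 2 := Finset.sum_mul_sq_le_sq_mul_sq _ _ _
      _ ≤ N1 * ∑ i, ‖ξ i‖ ^ 2 :=
          mul_le_mul_of_nonneg_right (by simp only [N1]; linarith) (by positivity)
  obtain ⟨N2, hN2, hN2'⟩ : ∃ N2 : ℝ, 0 < N2 ∧ ∀ v : V, ‖v‖ ≤ 1 → ∑ i, ‖e.repr v i‖ ^ 2 ≤ N2 := by
    have : FiniteDimensional ℝ V := FiniteDimensional.trans ℝ ℂ V
    let f : V →ₗ[ℂ] (ι → ℂ) := e.equivFun
    have hf : Continuous f := f.continuous_of_finiteDimensional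
    let F : V →L[ℂ] (ι → ℂ) := ⟨f, hf⟩
    refine ⟨Fintype.card ι * ‖F‖ ^ 2 + 1, by positivity, fun v hv => ?_⟩
    have h1 : ∀ i, ‖e.repr v i‖ ≤ ‖F‖ := fun i => by
      have h2 : ‖F v‖ ≤ ‖F‖ := (F.le_opNorm v).trans (mul_le_of_le_one_right (norm_nonneg _) hv)
      exact (norm_le_pi_norm (F v) i).trans h2
    calc ∑ i, ‖e.repr v i‖ ^ 2 ≤ ∑ _i : ι, ‖F‖ ^ 2 :=
          Finset.sum_le_sum fun i _ => pow_le_pow_left₀ (norm_nonneg _) (h1 i) 2
      _ = Fintype.card ι * ‖F‖ ^ 2 := by simp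
      _ ≤ _ := by linarith
  refine ⟨lam / N2, N1 * Lam, by positivity, by positivity, fun x hx φ hφ => ⟨?_, ?_⟩⟩
  · intro δ hδ h1
    have h2 : ∀ ξ : ι → ℂ, -(δ * N1) * ∑ i, ‖ξ i‖ ^ 2 ≤ G5bq (Lmat e φ x) ξ := by
      intro ξ
      rw [G5b_lev e hφ]
      refine le_trans ?_ (G5b_scale hφ h1 _)
      have h3 := mul_le_mul_of_nonneg_left (hN1' ξ) hδ
      linarith
    have h3 := G5b_lowerTrace (G5b_adj e h (hK hx)).posSemidef h2
    have h4 := mul_le_mul_of_nonneg_left (hell x hx).2 (mul_nonneg hδ hN1.le)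
    have h5 : Lap e h φ x = ((Hmat e h x).adjugate * Lmat e φ x).trace.re := rfl
    rw [h5]
    linarith
  · intro h1 v hv
    have h1' : ∀ v, 0 ≤ (lev φ x v v).re := by
      intro w
      have h2 := G5b_scale hφ (δ := 0) (fun v hv => by
        rw [neg_zero]
        exact h1 v hv) w
      rwa [neg_zero, zero_mul] at h2
    have h2 : ∀ ξ : ι → ℂ, 0 ≤ G5bq (Lmat e φ x) ξ := by
      intro ξ
      rw [G5b_lev e hφ]
      exact h1' _
    have hherm : (Lmat e φ x).IsHermitian := by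
      ext i j
      rw [Matrix.conjTranspose_apply]
      exact (lev_herm hφ _ _).symm
    have hpsd : (Lmat e φ x).PosSemidef := by
      refine Matrix.PosSemidef.of_dotProduct_mulVec_nonneg hherm fun ξ => ?_
      have him := hherm.im_star_dotProduct_mulVec_self ξ
      rw [Complex.le_def]
      exact ⟨h2 ξ, by rw [Complex.zero_im]; exact him.symm⟩
    have h3 := G5b_lowerTwo (hell x hx).1 h2
    have h4 := G5b_quadLe hpsd (fun i => conj (e.repr v i))
    rw [G5b_lev e hφ] at h4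
    simp only [Complex.conj_conj, RCLike.norm_conj] at h4
    rw [e.sum_repr] at h4
    have h5 : 0 ≤ (Lmat e φ x).trace.re := (Complex.le_def.1 hpsd.trace_nonneg).1
    have h6 : (lev φ x v v).re ≤ N2 * (Lmat e φ x).trace.re :=
      h4.trans (mul_le_mul_of_nonneg_right (hN2' v hv) h5)
    have h7 : Lap e h φ x = ((Hmat e h x).adjugate * Lmat e φ x).trace.re := rfl
    rw [h7]
    refine le_trans ?_ h3
    rw [div_mul_eq_mul_div, div_le_iff₀ hN2]
    have h8 := mul_le_mul_of_nonneg_left h6 hlam.le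
    linarith

end Pool.Agent.H.MP_e23cd6_ag.AB
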