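import Pool.Agent.H.MP_e23cd6_ag.AB.G5a

/-!
ABUN G5c: the adjugate of the matrix of a Kaehler metric is divergence free, and Lap is symmetric.
-/

open Set Filter Topology Metric Complex MeasureTheory
open scoped ContDiff ComplexConjugate

namespace Pool.Agent.H.MP_e23cd6_ag.AB

variable {V : Type} [NormedAddCommGroup V] [NormedSpace ℝ V] [NormedSpace ℂ V]
  [IsScalarTower ℝ ℂ V] [FiniteDimensional ℂ V] {ι : Type} [Fintype ι] [DecidableEq ι]
  {M : Set V}

/-! ### the functional defining `dz` -/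

/-- the functional of a real linear map defining `dz` -/
noncomputable def G5c_L (u : V) : (V →L[ℝ] ℂ) →ₗ[ℂ] ℂ where
  toFun T := (1 / 2 : ℂ) * (T u - I * T (I • u))
  map_add' S T := by
    simp only [add_apply]
    ring
  map_smul' c T := by
    simp only [smul_apply, smul_eq_mul, RingHom.id_apply]
    ring

omit [FiniteDimensional ℂ V] in
theorem G5c_dz (ψ : V → ℂ) (x u : V) : dz ψ x u = G5c_L u (fderiv ℝ ψ x) := rfl

omit [FiniteDimensional ℂ V] in
theorem G5c_mul {f g : V → ℂ} {x : V} (hf : DifferentiableAt ℝ f x) (hg : DifferentiableAt ℝ g x)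
    (u : V) : dz (fun y => f y * g y) x u = f x * dz g x u + g x * dz f x u := by
  rw [G5c_dz, fderiv_fun_mul hf hg, map_add, map_smul, map_smul, smul_eq_mul, smul_eq_mul]
  rfl

omit [FiniteDimensional ℂ V] in
theorem G5c_sum {κ : Type} (s : Finset κ) {f : κ → V → ℂ} {x : V}
    (hf : ∀ i ∈ s, DifferentiableAt ℝ (f i) x) (u : V) :
    dz (fun y => ∑ i ∈ s, f i y) x u = ∑ i ∈ s, dz (f i) x u := by
  rw [G5c_dz, fderiv_fun_sum hf, map_sum]
  rfl

omit [FiniteDimensional ℂ V] in
theorem G5c_const (c : ℂ) (x u : V) : dz (fun _ => c) x u = 0 := by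
  rw [G5c_dz]
  simp

omit [FiniteDimensional ℂ V] in
theorem G5c_congr {f g : V → ℂ} {x : V} (h : f =ᶠ[𝓝 x] g) (u : V) : dz f x u = dz g x u := by
  rw [G5c_dz, G5c_dz, h.fderiv_eq]

omit [FiniteDimensional ℂ V] in
theorem G5c_prod {κ : Type} [DecidableEq κ] (s : Finset κ) {f : κ → V → ℂ} {x : V}
    (hf : ∀ i ∈ s, DifferentiableAt ℝ (f i) x) (u : V) :
    dz (fun y => ∏ i ∈ s, f i y) x u = ∑ i ∈ s, (∏ j ∈ s.erase i, f j x) * dz (f i) x u := by
  have h1 := (HasFDerivAt.finsetProd (fun i hi => (hf i hi).hasFDerivAt)).fderiv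
  rw [G5c_dz, h1, map_sum]
  refine Finset.sum_congr rfl fun i _ => ?_
  rw [map_smul, smul_eq_mul]
  rfl

omit [NormedSpace ℂ V] [IsScalarTower ℝ ℂ V] [FiniteDimensional ℂ V] in
theorem G5c_dprod {κ : Type} (s : Finset κ) {f : κ → V → ℂ} {x : V}
    (hf : ∀ i ∈ s, DifferentiableAt ℝ (f i) x) :
    DifferentiableAt ℝ (fun y => ∏ i ∈ s, f i y) x := by
  classical
  exact (HasFDerivAt.finsetProd (fun i hi => (hf i hi).hasFDerivAt)).differentiableAt

/-! ### smoothness of the adjugate -/

omit [NormedSpace ℂ V] [IsScalarTower ℝ ℂ V] [FiniteDimensional ℂ V] in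
theorem G5c_det {a : V → Matrix ι ι ℂ} (ha : ∀ i j, ContDiffOn ℝ ∞ (fun x => a x i j) M) :
    ContDiffOn ℝ ∞ (fun x => (a x).det) M := by
  simp only [Matrix.det_apply']
  exact ContDiffOn.sum fun σ _ => contDiffOn_const.mul (contDiffOn_prod fun i _ => ha _ _)

theorem adj_smooth (e : Module.Basis ι ℂ V) (h : KMet M) (i j : ι) :
    ContDiffOn ℝ ∞ (fun x => (Hmat e h x).adjugate i j) M := by
  simp only [Matrix.adjugate_apply]
  refine G5c_det fun a b => ?_
  simp only [Matrix.updateRow_apply]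
  by_cases hb : a = j
  · simp only [hb, if_true]
    exact contDiffOn_const
  · simp only [hb, if_false]
    exact h.smooth _ _

/-! ### Jacobi's formula -/

omit [FiniteDimensional ℂ V] in
theorem G5c_jac {a : V → Matrix ι ι ℂ} {x : V}
    (ha : ∀ i j, DifferentiableAt ℝ (fun y => a y i j) x) (u : V) :
    dz (fun y => (a y).det) x u =
      ∑ i, ∑ r, (a x).adjugate i r * dz (fun y => a y r i) x u := by
  have h1 : dz (fun y => (a y).det) x u =
      ∑ i, ((a x).updateCol i (fun r => dz (fun y => a y r i) x u)).det := by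
    simp only [Matrix.det_apply']
    rw [G5c_sum]
    · rw [Finset.sum_comm]
      refine Finset.sum_congr rfl fun σ _ => ?_
      have h2 : DifferentiableAt ℝ (fun y => ∏ i, a y (σ i) i) x := by
        exact G5c_dprod _ fun i _ => ha _ _
      rw [G5c_mul (differentiableAt_const _) h2, G5c_const, mul_zero, add_zero,
        G5c_prod _ (fun i _ => ha _ _), Finset.mul_sum]
      refine Finset.sum_congr rfl fun i _ => ?_
      congr 1
      rw [← Finset.mul_prod_erase Finset.univ _ (Finset.mem_univ i), mul_comm]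
      congr 1
      · simp
      · refine Finset.prod_congr rfl fun j hj => ?_
        rw [Matrix.updateCol_ne (Finset.ne_of_mem_erase hj)]
    · intro σ _
      exact (differentiableAt_const _).mul (G5c_dprod _ fun i _ => ha _ _)
  rw [h1]
  refine Finset.sum_congr rfl fun i _ => ?_
  rw [← Matrix.cramer_apply, Matrix.cramer_eq_adjugate_mulVec]
  rfl

/-! ### invertibility -/

theorem G5c_conj (e : Module.Basis ι ℂ V) (h : KMet M) {x : V} (hx : x ∈ M) (v : ι → ℂ) (w : V) :
    h.h x (∑ j, v j • e j) w = ∑ j, v j * h.h x (e j) w := by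
  classical
  have h0 : h.h x 0 w = 0 := by
    have := h.smul_left x hx 0 0 w
    simpa using this
  have : ∀ s : Finset ι, h.h x (∑ j ∈ s, v j • e j) w = ∑ j ∈ s, v j * h.h x (e j) w := by
    intro s
    induction s using Finset.induction_on with
    | empty => simpa using h0
    | insert a s ha ih =>
      rw [Finset.sum_insert ha, Finset.sum_insert ha, h.add_left x hx, h.smul_left x hx, ih]
  exact this _

theorem G5c_det_ne (e : Module.Basis ι ℂ V) (h : KMet M) {x : V} (hx : x ∈ M) :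
    (Hmat e h x).det ≠ 0 := by
  classical
  intro hd
  obtain ⟨v, hv, hv0⟩ := Matrix.exists_vecMul_eq_zero_iff.2 hd
  have h1 : (∑ j, v j • e j) ≠ 0 := by
    intro h0
    apply hv
    funext j
    exact (Fintype.linearIndependent_iff.1 e.linearIndependent v h0 j)
  have h2 : ∀ i, h.h x (∑ j, v j • e j) (e i) = 0 := by
    intro i
    rw [G5c_conj e h hx]
    have := congrFun hv0 i
    simpa [Matrix.vecMul, dotProduct, Hmat] using this
  have h3 : h.h x (∑ j, v j • e j) (∑ j, v j • e j) = 0 := by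
    have h4 : h.h x (∑ j, v j • e j) (∑ j, v j • e j) =
        conj (h.h x (∑ j, v j • e j) (∑ j, v j • e j)) := h.herm x hx _ _
    rw [h4]
    conv_lhs => rw [G5c_conj e h hx]
    rw [map_sum]
    refine Finset.sum_eq_zero fun j _ => ?_
    rw [map_mul, ← h.herm x hx, h2 j, mul_zero]
  have h5 := h.pos x hx _ h1
  rw [h3] at h5
  simp at h5

/-! ### the adjugate is divergence free -/

theorem div_free (hM : IsOpen M) (e : Module.Basis ι ℂ V) (h : KMet M) (k : ι) {x : V}
    (hx : x ∈ M) : ∑ i, dz (fun y => (Hmat e h y).adjugate k i) x (e i) = 0 := by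
  classical
  have hdH : ∀ i j, DifferentiableAt ℝ (fun y => Hmat e h y i j) x := fun i j =>
    ((h.smooth _ _).contDiffAt (hM.mem_nhds hx)).differentiableAt (by simp)
  have hdA : ∀ i j, DifferentiableAt ℝ (fun y => (Hmat e h y).adjugate i j) x := fun i j =>
    ((adj_smooth e h i j).contDiffAt (hM.mem_nhds hx)).differentiableAt (by simp)
  set d := (Hmat e h x).det with hd
  have hd0 : d ≠ 0 := G5c_det_ne e h hx
  set A : Matrix ι ι ℂ := (Hmat e h x).adjugate with hA
  set H : Matrix ι ι ℂ := Hmat e h x with hH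
  -- derivatives
  set DH : ι → ι → ι → ℂ := fun i j l => dz (fun y => Hmat e h y i j) x (e l) with hDH
  set DA : ι → ι → ι → ℂ := fun i j l => dz (fun y => (Hmat e h y).adjugate i j) x (e l) with hDA
  set Dd : ι → ℂ := fun l => dz (fun y => (Hmat e h y).det) x (e l) with hDd
  have hk : ∀ b a l, DH b a l = DH l a b := fun b a l => h.kahler x hx (e l) (e b) (e a)
  have hjac : ∀ l, Dd l = ∑ a, ∑ b, A a b * DH b a l := fun l => G5c_jac hdH (e l)
  have hid : ∀ j l, ∑ i, (DA k i l * H i j + A k i * DH i j l) = if k = j then Dd l else 0 := by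
    intro j l
    have h1 : (fun y => ∑ i, (Hmat e h y).adjugate k i * Hmat e h y i j) =
        fun y => (Hmat e h y).det * (if k = j then 1 else 0) := by
      funext y
      have h2 := congrFun (congrFun (Matrix.adjugate_mul (Hmat e h y)) k) j
      rw [Matrix.mul_apply] at h2
      rw [h2, Matrix.smul_apply, Matrix.one_apply, smul_eq_mul]
    have h3 : dz (fun y => ∑ i, (Hmat e h y).adjugate k i * Hmat e h y i j) x (e l) =
        ∑ i, (DA k i l * H i j + A k i * DH i j l) := by
      rw [G5c_sum _ (fun i _ => (hdA k i).fun_mul (hdH i j))]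
      refine Finset.sum_congr rfl fun i _ => ?_
      rw [G5c_mul (hdA k i) (hdH i j)]
      simp only [hDA, hDH, hA, hH]
      ring
    rw [← h3, h1]
    by_cases hkj : k = j
    · simp only [if_pos hkj, mul_one]
      rfl
    · simp only [if_neg hkj, mul_zero]
      exact G5c_const _ _ _
  -- multiply by the adjugate
  have hHA : ∀ i l, ∑ j, H i j * A j l = if i = l then d else 0 := by
    intro i l
    have h2 := congrFun (congrFun (Matrix.mul_adjugate H) i) l
    rw [Matrix.mul_apply] at h2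
    rw [h2, Matrix.smul_apply, Matrix.one_apply, smul_eq_mul]
    split_ifs <;> simp [hd]
  have hS : d * ∑ i, DA k i i = (∑ l, A k l * Dd l) - ∑ l, ∑ j, ∑ i, A k i * DH i j l * A j l := by
    have h1 : ∑ l, ∑ j, (∑ i, (DA k i l * H i j + A k i * DH i j l)) * A j l =
        ∑ l, A k l * Dd l := by
      refine Finset.sum_congr rfl fun l _ => ?_
      simp only [hid, ite_mul, zero_mul]
      rw [Finset.sum_ite_eq Finset.univ k]
      simp [mul_comm]
    have h2 : ∑ l, ∑ j, (∑ i, (DA k i l * H i j + A k i * DH i j l)) * A j l =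
        d * ∑ i, DA k i i + ∑ l, ∑ j, ∑ i, A k i * DH i j l * A j l := by
      have h3 : d * ∑ i, DA k i i = ∑ l, ∑ j, ∑ i, DA k i l * H i j * A j l := by
        rw [Finset.mul_sum]
        refine Finset.sum_congr rfl fun l _ => ?_
        rw [Finset.sum_comm]
        have h4 : ∀ i, ∑ j, DA k i l * H i j * A j l = DA k i l * (if i = l then d else 0) := by
          intro i
          rw [← hHA i l, Finset.mul_sum]
          exact Finset.sum_congr rfl fun j _ => by ring
        simp only [h4, mul_ite, mul_zero]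
        rw [Finset.sum_ite_eq' Finset.univ l]
        simp [mul_comm]
      rw [h3, ← Finset.sum_add_distrib]
      refine Finset.sum_congr rfl fun l _ => ?_
      rw [← Finset.sum_add_distrib]
      refine Finset.sum_congr rfl fun j _ => ?_
      rw [← Finset.sum_add_distrib, Finset.sum_mul]
      exact Finset.sum_congr rfl fun i _ => by ring
    rw [← h1, h2]
    ring
  have hzero : (∑ l, A k l * Dd l) - ∑ l, ∑ j, ∑ i, A k i * DH i j l * A j l = 0 := by
    rw [sub_eq_zero]
    simp only [hjac, Finset.mul_sum]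
    -- sum over l a b of A k l * (A a b * DH b a l), with DH b a l = DH l a b
    have h1 : ∑ l, ∑ a, ∑ b, A k l * (A a b * DH b a l) =
        ∑ l, ∑ a, ∑ b, A k l * DH l a b * A a b := by
      refine Finset.sum_congr rfl fun l _ => Finset.sum_congr rfl fun a _ =>
        Finset.sum_congr rfl fun b _ => ?_
      rw [hk b a l]
      ring
    rw [h1]
    have h2 : ∑ l, ∑ a, ∑ b, A k l * DH l a b * A a b =
        ∑ b, ∑ l, ∑ a, A k l * DH l a b * A a b := by
      have h3 : ∀ l, ∑ a, ∑ b, A k l * DH l a b * A a b = ∑ b, ∑ a, A k l * DH l a b * A a b :=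
        fun l => Finset.sum_comm
      simp only [h3]
      rw [Finset.sum_comm]
    rw [h2]
    exact Finset.sum_congr rfl fun b _ => Finset.sum_comm
  rw [hzero] at hS
  exact (mul_eq_zero.1 hS).resolve_left hd0

/-! ### integration by parts -/

theorem G5c_int [MeasurableSpace V] [BorelSpace V] (μ : Measure V) [μ.IsAddHaarMeasure]
    {F : V → ℂ} (hF : ContDiff ℝ 1 F) (hc : HasCompactSupport F) (u : V) :
    Integrable (fun x => fderiv ℝ F x u) μ ∧ ∫ x, fderiv ℝ F x u ∂μ = 0 := by
  have : FiniteDimensional ℝ V := Module.Finite.trans (R := ℝ) ℂ V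
  have hi : Integrable (fun x => fderiv ℝ F x u) μ := by
    refine Continuous.integrable_of_hasCompactSupport ?_ ?_
    · exact (hF.continuous_fderiv (by norm_num)).clm_apply continuous_const
    · exact (hc.fderiv_apply ℝ u)
  refine ⟨hi, ?_⟩
  have hFi : Integrable F μ := hF.continuous.integrable_of_hasCompactSupport hc
  have h1 := integral_mul_fderiv_eq_neg_fderiv_mul_of_integrable (μ := μ) (f := fun _ : V => (1 : ℂ))
    (g := F) (v := u) (by simp) (by simpa using hi) (by simpa using hFi)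
    (fun x _ => differentiableAt_const _) (fun x _ => (hF.differentiable (by norm_num)) x)
  simpa using h1

theorem int_dz [MeasurableSpace V] [BorelSpace V] (μ : Measure V) [μ.IsAddHaarMeasure]
    {F : V → ℂ} (hF : ContDiff ℝ 1 F) (hc : HasCompactSupport F) (u : V) :
    ∫ x, dz F x u ∂μ = 0 := by
  obtain ⟨h1, h2⟩ := G5c_int μ hF hc u
  obtain ⟨h3, h4⟩ := G5c_int μ hF hc (I • u)
  simp only [dz]
  rw [integral_const_mul, integral_sub h1 (h3.const_mul I), integral_const_mul, h2, h4]
  simp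

/-! ### first order derivatives of real functions -/

/-- the (0,1)-derivative of a real function -/
noncomputable def G5c_db (b : V → ℝ) (x w : V) : ℂ :=
  (1 / 2 : ℂ) * ((fderiv ℝ b x w : ℝ) + I * (fderiv ℝ b x (I • w) : ℝ))

theorem G5c_dzr {a : V → ℝ} {x : V} (ha : DifferentiableAt ℝ a x) (u : V) :
    dz (fun y => (a y : ℂ)) x u =
      (1 / 2 : ℂ) * ((fderiv ℝ a x u : ℝ) - I * (fderiv ℝ a x (I • u) : ℝ)) := by
  have h1 : HasFDerivAt (fun y => (a y : ℂ)) (Complex.ofRealCLM.comp (fderiv ℝ a x)) x :=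
    Complex.ofRealCLM.hasFDerivAt.comp x ha.hasFDerivAt
  rw [dz, h1.fderiv]
  rfl

theorem G5c_conj_dz {a : V → ℝ} {x : V} (ha : DifferentiableAt ℝ a x) (u : V) :
    conj (dz (fun y => (a y : ℂ)) x u) = G5c_db a x u := by
  rw [G5c_dzr ha, G5c_db]
  simp only [map_mul, map_sub, Complex.conj_ofReal, Complex.conj_I, map_div₀, map_one, map_ofNat]
  ring

theorem G5c_conj_db {a : V → ℝ} {x : V} (ha : DifferentiableAt ℝ a x) (u : V) :
    conj (G5c_db a x u) = dz (fun y => (a y : ℂ)) x u := by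
  rw [← G5c_conj_dz ha, Complex.conj_conj]

theorem G5c_dz_db {b : V → ℝ} {x : V} (hb : ContDiffAt ℝ 2 b x) (v w : V) :
    dz (fun y => G5c_db b y w) x v = lev b x v w := by
  have h0 : ∀ w : V, HasFDerivAt (fun y => ((fderiv ℝ b y w : ℝ) : ℂ))
      (Complex.ofRealCLM.comp ((ContinuousLinearMap.apply ℝ ℝ w).comp
        (fderiv ℝ (fderiv ℝ b) x))) x := by
    intro w
    have h1 : HasFDerivAt (fun y => fderiv ℝ b y w)
        ((ContinuousLinearMap.apply ℝ ℝ w).comp (fderiv ℝ (fderiv ℝ b) x)) x :=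
      (ContinuousLinearMap.apply ℝ ℝ w).hasFDerivAt.comp x (G5a_diff hb).hasFDerivAt
    exact Complex.ofRealCLM.hasFDerivAt.comp x h1
  have h1 := ((h0 w).add ((h0 (I • w)).const_mul I)).const_mul (1 / 2 : ℂ)
  have h2 : fderiv ℝ (fun y => G5c_db b y w) x = _ := h1.fderiv
  rw [dz, h2, lev]
  simp only [smul_apply, add_apply,
    ContinuousLinearMap.comp_apply, ContinuousLinearMap.apply_apply, Complex.ofRealCLM_apply,
    smul_eq_mul]
  ring_nf
  rw [I_sq]
  ring

theorem G5c_db_smooth (hM : IsOpen M) {b : V → ℝ} (hb : ContDiffOn ℝ ∞ b M) (w : V) :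
    ContDiffOn ℝ ∞ (fun x => G5c_db b x w) M := by
  have h1 : ContDiffOn ℝ ∞ (fderiv ℝ b) M := hb.fderiv_of_isOpen hM (by simp)
  have h2 : ∀ w : V, ContDiffOn ℝ ∞ (fun x => ((fderiv ℝ b x w : ℝ) : ℂ)) M := fun w =>
    Complex.ofRealCLM.contDiff.comp_contDiffOn (h1.clm_apply contDiffOn_const)
  exact contDiffOn_const.mul ((h2 w).add (contDiffOn_const.mul (h2 (I • w))))

theorem G5c_dz_cont (hM : IsOpen M) {a : V → ℝ} (ha : ContDiffOn ℝ ∞ a M) (u : V) :
    ContinuousOn (fun x => dz (fun y => (a y : ℂ)) x u) M := by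
  have h0 : ContDiffOn ℝ ∞ (fun y => (a y : ℂ)) M := Complex.ofRealCLM.contDiff.comp_contDiffOn ha
  have h1 : ContDiffOn ℝ ∞ (fderiv ℝ (fun y => (a y : ℂ))) M := h0.fderiv_of_isOpen hM (by simp)
  have h2 : ∀ w : V, ContinuousOn (fun x => fderiv ℝ (fun y => (a y : ℂ)) x w) M := fun w =>
    (h1.clm_apply contDiffOn_const).continuousOn
  exact continuousOn_const.mul ((h2 u).sub (continuousOn_const.mul (h2 (I • u))))

theorem G5c_lev_cont (hM : IsOpen M) {b : V → ℝ} (hb : ContDiffOn ℝ ∞ b M) (v w : V) :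
    ContinuousOn (fun x => lev b x v w) M := by
  have h : ContinuousOn (fun x => dz (fun y => G5c_db b y w) x v) M := by
    have h1 : ContDiffOn ℝ ∞ (fderiv ℝ (fun y => G5c_db b y w)) M :=
      (G5c_db_smooth hM hb w).fderiv_of_isOpen hM (by simp)
    have h2 : ∀ u : V, ContinuousOn (fun x => fderiv ℝ (fun y => G5c_db b y w) x u) M := fun u =>
      (h1.clm_apply contDiffOn_const).continuousOn
    exact continuousOn_const.mul ((h2 v).sub (continuousOn_const.mul (h2 (I • v))))
  refine h.congr fun x hx => ?_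
  have h2 : ContDiffAt ℝ 2 b x := by
    exact_mod_cast (contDiffOn_infty.1 hb 2).contDiffAt (hM.mem_nhds hx)
  exact (G5c_dz_db h2 v w).symm

/-! ### the symmetry -/

theorem G5c_integrable [MeasurableSpace V] [BorelSpace V] (μ : Measure V) [μ.IsAddHaarMeasure]
    {f : V → ℂ} {K : Set V} (hf : ContinuousOn f M) (hK : IsCompact K) (hKM : K ⊆ M)
    (h0 : ∀ x, x ∉ K → f x = 0) : Integrable f μ := by
  have : FiniteDimensional ℝ V := Module.Finite.trans (R := ℝ) ℂ V
  have h1 : IntegrableOn f K μ := (hf.mono hKM).integrableOn_compact hK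
  refine (integrableOn_iff_integrable_of_support_subset ?_).1 h1
  intro x hx
  by_contra hxK
  exact hx (h0 x hxK)

/-- the first order form -/
noncomputable def G5c_B (e : Module.Basis ι ℂ V) (h : KMet M) (a b : V → ℝ) (x : V) : ℂ :=
  ∑ k, ∑ i, (Hmat e h x).adjugate k i * dz (fun y => (a y : ℂ)) x (e i) * G5c_db b x (e k)

/-- the second order term -/
noncomputable def G5c_T (e : Module.Basis ι ℂ V) (h : KMet M) (a b : V → ℝ) (x : V) : ℂ :=
  ∑ k, ∑ i, (a x : ℂ) * ((Hmat e h x).adjugate k i * lev b x (e i) (e k))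

theorem G5c_T_eq (e : Module.Basis ι ℂ V) (h : KMet M) (a b : V → ℝ) (x : V) :
    (G5c_T e h a b x).re = a x * Lap e h b x := by
  have h1 : G5c_T e h a b x = (a x : ℂ) * ((Hmat e h x).adjugate * Lmat e b x).trace := by
    rw [G5c_T, Matrix.trace, Finset.mul_sum]
    refine Finset.sum_congr rfl fun k _ => ?_
    rw [Matrix.diag_apply, Matrix.mul_apply, Finset.mul_sum]
    rfl
  rw [h1, Complex.re_ofReal_mul]
  rfl

theorem G5c_part [MeasurableSpace V] [BorelSpace V] (μ : Measure V) [μ.IsAddHaarMeasure]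
    (hM : IsOpen M) (e : Module.Basis ι ℂ V) (h : KMet M) {a b : V → ℝ}
    (ha : ContDiffOn ℝ ∞ a M) (hb : ContDiffOn ℝ ∞ b M) {K : Set V} (hK : IsCompact K)
    (hKM : K ⊆ M) (hz : ∀ x, x ∉ K → (a =ᶠ[𝓝 x] fun _ => 0) ∨ (b =ᶠ[𝓝 x] fun _ => 0)) :
    Integrable (G5c_T e h a b) μ ∧ ∫ x, G5c_T e h a b x ∂μ = -∫ x, G5c_B e h a b x ∂μ := by
  have hac : ContDiffOn ℝ ∞ (fun y => (a y : ℂ)) M := Complex.ofRealCLM.contDiff.comp_contDiffOn ha
  have hb2 : ∀ x ∈ M, ContDiffAt ℝ 2 b x := fun x hx => by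
    exact_mod_cast (contDiffOn_infty.1 hb 2).contDiffAt (hM.mem_nhds hx)
  -- vanishing outside K
  have hdb0 : ∀ x, (b =ᶠ[𝓝 x] fun _ => 0) → ∀ w, G5c_db b x w = 0 := by
    intro x hx w
    rw [G5c_db, hx.fderiv_eq]
    simp
  have hdz0 : ∀ x, (a =ᶠ[𝓝 x] fun _ => 0) → ∀ w, dz (fun y => (a y : ℂ)) x w = 0 := by
    intro x hx w
    have h1 : (fun y => (a y : ℂ)) =ᶠ[𝓝 x] fun _ => 0 := by
      filter_upwards [hx] with y hy
      rw [hy]
      simp
    rw [G5c_congr h1, G5c_const]
  have hB0 : ∀ x, x ∉ K → G5c_B e h a b x = 0 := by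
    intro x hx
    rw [G5c_B]
    refine Finset.sum_eq_zero fun k _ => Finset.sum_eq_zero fun i _ => ?_
    rcases hz x hx with h1 | h1
    · rw [hdz0 x h1, mul_zero, zero_mul]
    · rw [hdb0 x h1, mul_zero]
  have hT0 : ∀ x, x ∉ K → G5c_T e h a b x = 0 := by
    intro x hx
    rw [G5c_T]
    refine Finset.sum_eq_zero fun k _ => Finset.sum_eq_zero fun i _ => ?_
    rcases hz x hx with h1 | h1
    · rw [h1.self_of_nhds]
      simp
    · rw [lev_congr h1, lev_const, mul_zero, mul_zero]
  have hTi : Integrable (G5c_T e h a b) μ := by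
    refine G5c_integrable μ (M := M) ?_ hK hKM hT0
    refine continuousOn_finsetSum _ fun k _ => continuousOn_finsetSum _ fun i _ => ?_
    exact hac.continuousOn.mul ((adj_smooth e h k i).continuousOn.mul (G5c_lev_cont hM hb _ _))
  have hBi : Integrable (G5c_B e h a b) μ := by
    refine G5c_integrable μ (M := M) ?_ hK hKM hB0
    refine continuousOn_finsetSum _ fun k _ => continuousOn_finsetSum _ fun i _ => ?_
    exact ((adj_smooth e h k i).continuousOn.mul (G5c_dz_cont hM ha _)).mul
      (G5c_db_smooth hM hb _).continuousOn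
  refine ⟨hTi, ?_⟩
  -- the vector field
  set F : ι → ι → V → ℂ := fun k i x =>
    ((a x : ℂ) * (Hmat e h x).adjugate k i) * G5c_db b x (e k) with hF
  have hFz : ∀ k i x, x ∉ K → F k i =ᶠ[𝓝 x] fun _ => 0 := by
    intro k i x hx
    rcases hz x hx with h1 | h1
    · filter_upwards [h1] with y hy
      simp only [hF, hy]
      simp
    · filter_upwards [h1.eventuallyEq_nhds] with y hy
      simp only [hF, hdb0 y hy, mul_zero]
  have hFM : ∀ k i, ContDiffOn ℝ ∞ (F k i) M := fun k i =>
    (hac.mul (adj_smooth e h k i)).mul (G5c_db_smooth hM hb _)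
  have hF1 : ∀ k i, ContDiff ℝ 1 (F k i) := by
    intro k i
    rw [contDiff_iff_contDiffAt]
    intro x
    by_cases hx : x ∈ M
    · exact_mod_cast (contDiffOn_infty.1 (hFM k i) 1).contDiffAt (hM.mem_nhds hx)
    · exact contDiffAt_const.congr_of_eventuallyEq (hFz k i x fun h1 => hx (hKM h1))
  have hFc : ∀ k i, HasCompactSupport (F k i) := fun k i =>
    HasCompactSupport.intro hK fun x hx => (hFz k i x hx).self_of_nhds
  have hdi : ∀ k i, Integrable (fun x => dz (F k i) x (e i)) μ := by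
    intro k i
    obtain ⟨h1, -⟩ := G5c_int μ (hF1 k i) (hFc k i) (e i)
    obtain ⟨h3, -⟩ := G5c_int μ (hF1 k i) (hFc k i) (I • e i)
    exact (h1.sub (h3.const_mul I)).const_mul _
  have h0 : ∫ x, ∑ k, ∑ i, dz (F k i) x (e i) ∂μ = 0 := by
    rw [integral_finsetSum _ fun k _ => integrable_finsetSum _ fun i _ => hdi k i]
    refine Finset.sum_eq_zero fun k _ => ?_
    rw [integral_finsetSum _ fun i _ => hdi k i]
    exact Finset.sum_eq_zero fun i _ => int_dz μ (hF1 k i) (hFc k i) _
  have hpt : ∀ x, ∑ k, ∑ i, dz (F k i) x (e i) = G5c_B e h a b x + G5c_T e h a b x := by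
    intro x
    by_cases hx : x ∈ M
    · have hda : DifferentiableAt ℝ (fun y => (a y : ℂ)) x :=
        (hac.contDiffAt (hM.mem_nhds hx)).differentiableAt (by simp)
      have hdA : ∀ i j, DifferentiableAt ℝ (fun y => (Hmat e h y).adjugate i j) x := fun i j =>
        ((adj_smooth e h i j).contDiffAt (hM.mem_nhds hx)).differentiableAt (by simp)
      have hdd : ∀ w, DifferentiableAt ℝ (fun y => G5c_db b y w) x := fun w =>
        ((G5c_db_smooth hM hb w).contDiffAt (hM.mem_nhds hx)).differentiableAt (by simp)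
      have h1 : ∀ k i, dz (F k i) x (e i) =
          (Hmat e h x).adjugate k i * dz (fun y => (a y : ℂ)) x (e i) * G5c_db b x (e k) +
          (a x : ℂ) * ((Hmat e h x).adjugate k i * lev b x (e i) (e k)) +
          (a x : ℂ) * G5c_db b x (e k) *
            dz (fun y => (Hmat e h y).adjugate k i) x (e i) := by
        intro k i
        rw [hF]
        simp only
        rw [G5c_mul (hda.fun_mul (hdA k i)) (hdd (e k)), G5c_mul hda (hdA k i),
          G5c_dz_db (hb2 x hx)]
        ring
      simp only [h1, Finset.sum_add_distrib]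
      have h2 : ∑ k, ∑ i, (a x : ℂ) * G5c_db b x (e k) *
          dz (fun y => (Hmat e h y).adjugate k i) x (e i) = 0 := by
        refine Finset.sum_eq_zero fun k _ => ?_
        rw [← Finset.mul_sum, div_free hM e h k hx, mul_zero]
      rw [h2, add_zero]
      rfl
    · have hxK : x ∉ K := fun h1 => hx (hKM h1)
      rw [hB0 x hxK, hT0 x hxK, add_zero]
      refine Finset.sum_eq_zero fun k _ => Finset.sum_eq_zero fun i _ => ?_
      rw [G5c_congr (hFz k i x hxK), G5c_const]
  simp only [hpt] at h0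
  rw [integral_add hBi hTi] at h0
  exact eq_neg_of_add_eq_zero_right h0

theorem G5c_herm (e : Module.Basis ι ℂ V) (h : KMet M) {x : V} (hx : x ∈ M) (i k : ι) :
    conj ((Hmat e h x).adjugate k i) = (Hmat e h x).adjugate i k := by
  have h1 : (Hmat e h x).conjTranspose = Hmat e h x := by
    ext a b
    rw [Matrix.conjTranspose_apply]
    exact (h.herm x hx (e b) (e a)).symm
  have h2 := congrFun (congrFun (Matrix.adjugate_conjTranspose (Hmat e h x)) i) k
  rw [h1, Matrix.conjTranspose_apply] at h2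
  exact h2

theorem lap_symm [MeasurableSpace V] [BorelSpace V] (μ : Measure V) [μ.IsAddHaarMeasure]
    (hM : IsOpen M) (e : Module.Basis ι ℂ V) (h : KMet M) {φ ψ : V → ℝ}
    (hφ : ContDiffOn ℝ ∞ φ M) (hψ : ContDiff ℝ ∞ ψ) (hc : HasCompactSupport ψ)
    (hs : tsupport ψ ⊆ M) :
    ∫ x, φ x * Lap e h ψ x ∂μ = ∫ x, ψ x * Lap e h φ x ∂μ := by
  have hz : ∀ x, x ∉ tsupport ψ → ψ =ᶠ[𝓝 x] fun _ => 0 := fun x hx =>
    notMem_tsupport_iff_eventuallyEq.1 hx
  obtain ⟨hi1, he1⟩ := G5c_part μ hM e h hφ hψ.contDiffOn hc.isCompact hs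
    (fun x hx => Or.inr (hz x hx))
  obtain ⟨hi2, he2⟩ := G5c_part μ hM e h hψ.contDiffOn hφ hc.isCompact hs
    (fun x hx => Or.inl (hz x hx))
  have hB : ∀ x, G5c_B e h φ ψ x = conj (G5c_B e h ψ φ x) := by
    intro x
    by_cases hx : x ∈ M
    · have hdφ : DifferentiableAt ℝ φ x :=
        (hφ.contDiffAt (hM.mem_nhds hx)).differentiableAt (by simp)
      have hdψ : DifferentiableAt ℝ ψ x := hψ.contDiffAt.differentiableAt (by simp)
      rw [G5c_B, G5c_B, map_sum, Finset.sum_comm]
      refine Finset.sum_congr rfl fun i _ => ?_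
      rw [map_sum]
      refine Finset.sum_congr rfl fun k _ => ?_
      rw [map_mul, map_mul, G5c_herm e h hx, G5c_conj_dz hdψ, G5c_conj_db hdφ]
      ring
    · have hxs : x ∉ tsupport ψ := fun h1 => hx (hs h1)
      have h1 : ∀ w, G5c_db ψ x w = 0 := by
        intro w
        rw [G5c_db, (hz x hxs).fderiv_eq]
        simp
      have h2 : ∀ w, dz (fun y => (ψ y : ℂ)) x w = 0 := by
        intro w
        have h3 : (fun y => (ψ y : ℂ)) =ᶠ[𝓝 x] fun _ => 0 := by
          filter_upwards [hz x hxs] with y hy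
          rw [hy]
          simp
        rw [G5c_congr h3, G5c_const]
      simp [G5c_B, h1, h2]
  have hint : ∫ x, G5c_T e h φ ψ x ∂μ = conj (∫ x, G5c_T e h ψ φ x ∂μ) := by
    rw [he1, he2, map_neg, ← integral_conj]
    simp only [hB]
  have hre : ∀ {a b : V → ℝ}, Integrable (G5c_T e h a b) μ →
      ∫ x, a x * Lap e h b x ∂μ = (∫ x, G5c_T e h a b x ∂μ).re := by
    intro a b hi
    have h1 := integral_re hi
    simp only [G5c_T_eq, RCLike.re_eq_complex_re] at h1
    exact h1
  rw [hre hi1, hre hi2, hint, Complex.conj_re]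

end Pool.Agent.H.MP_e23cd6_ag.AB
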