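import Pool.Agent.H.MP_e23cd6_ag.AB.G6
import Pool.Agent.H.MP_e23cd6_ag.AB.G7a
import Pool.Agent.H.MP_e23cd6_ag.AB.G7c

/-!
ABUN G7d: the main inequality. If m_N is a quasi-invariant potential, then the bad set ZN cannot have
small volume in a fixed compact set.

Proof. x1 = (b1, 0). c1, ρ1, N0, v1 from `mN_strict`. S = tsupport χ (compact in M). Choose δ > 0 with K = cthickening (2δ) S ⊆ M (compact) and 2δ ≤ ρ1.
C1, r0 from `mN_submean` for the compact set cthickening δ S; we may assume r0 ≤ δ, r0 ≤ ρ1. λ, Λ = constants c, C of `lap_lower` for S.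
Fix N ≥ N0, m = mN .. N (continuous on M: `mN_cont`, u0 continuous), Z = ZN .. N (Z ∩ M is relatively open, so measurable).
Let η be a smooth (or continuous) cutoff, η = 1 on K, compact support in M; m' = η m on M, 0 outside: continuous with compact
support, m' = m on K. `int_zero` with `mN_equiv`: ∫ m Lap χ = 0, so ∫ m' Lap χ = 0 (Lap χ = 0 outside S).
For a bump ρ with rOut ≤ δ put φ = moll volume ρ m' (smooth by `moll_smooth`). `lap_symm` (φ smooth, ψ = χ): ∫ φ Lap χ = ∫ χ Lap φ.  (1)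
Let d(y) = -C1 on Z ∩ K, 0 elsewhere (measurable, bounded). For x ∈ S, ‖v‖ ≤ 1, y ∈ closedBall x rOut ⊆ cthickening δ S and s ≤ r0 ≤ δ all points
y + z v are in K, so `mN_submean` says m' y + s² d y ≤ circleAverage (m' (y + z v)). `moll_lev`: (lev φ x v v).re ≥ -C1 σ(x), σ(x) = ∫ ρ(t) 1_{Z ∩ K}(x - t) dt ≥ 0.
`lap_lower` (first part): Lap φ x ≥ -Λ C1 σ(x) for x ∈ S.                                                        (2)
Let x ∈ S ∩ closedBall x1 (ρ1/2) and rOut ≤ ρ1/2: closedBall x rOut ⊆ closedBall x1 ρ1 does not meet Z (N ≥ N0), so the first argument gives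
lev φ x v v ≥ 0 for all v (d = 0), and `mN_strict` (d = c1 constant) gives (lev φ x v1 v1).re ≥ c1 ∫ρ = c1. `lap_lower` (second part):
Lap φ x ≥ λ c1.                                                                                                  (3)
So ∫ χ Lap φ ≥ λ c1 ∫_{closedBall x1 (ρ1/2)} χ - Λ C1 ∫ χ σ, the first integral is a constant κ > 0 as χ is continuous and χ x1 > 0, and
∫ χ σ ≤ sup χ · volume (Z ∩ K) (Fubini/Tonelli, translation invariance, ∫ρ = 1). So ∫ χ Lap φ ≥ λ c1 κ - Λ C1 supχ · volume(Z ∩ K).   (4)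
Let rOut → 0: |φ - m'| ≤ ε uniformly (`moll_close`), so |∫ φ Lap χ - ∫ m' Lap χ| ≤ ε ∫|Lap χ| (Lap χ is continuous with compact support;
bounded measurable is enough). With (1), ∫ m' Lap χ = 0: 0 ≥ λ c1 κ - Λ C1 supχ · volume (Z ∩ K). All constants and K are independent of
N: c = λ c1 κ, C = Λ C1 sup χ (+ 1).
-/

open Set Filter Topology Metric Complex MeasureTheory
open scoped ContDiff ComplexConjugate

namespace Pool.Agent.H.MP_e23cd6_ag.AB

section aux

variable {V : Type} [NormedAddCommGroup V] [NormedSpace ℝ V] [NormedSpace ℂ V]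
  [IsScalarTower ℝ ℂ V] [FiniteDimensional ℂ V] {ι : Type} [Fintype ι] [DecidableEq ι]
  {M : Set V}

omit [NormedSpace ℝ V] [NormedSpace ℂ V] [IsScalarTower ℝ ℂ V] [FiniteDimensional ℂ V] in
/-- The product of a function supported in `M` and a function continuous on `M` is continuous. -/
theorem G7d_cs_cont (hM : IsOpen M) {f g : V → ℝ} (hf : Continuous f) (hfs : tsupport f ⊆ M)
    (hg : ContinuousOn g M) : Continuous (fun x => f x * g x) := by
  rw [continuous_iff_continuousAt]
  intro x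
  by_cases hx : x ∈ M
  · exact hf.continuousAt.mul (hg.continuousAt (hM.mem_nhds hx))
  · have hx' : x ∉ tsupport f := fun h => hx (hfs h)
    have h6 : (fun x => f x * g x) =ᶠ[𝓝 x] fun _ => 0 := by
      filter_upwards [(isClosed_tsupport f).isOpen_compl.mem_nhds hx'] with y hy
      rw [image_eq_zero_of_notMem_tsupport hy, zero_mul]
    exact continuousAt_const.congr h6.symm

omit [IsScalarTower ℝ ℂ V] [FiniteDimensional ℂ V] in
theorem G7d_lev_cont {φ : V → ℝ} (hφ : ContDiff ℝ ∞ φ) (v w : V) :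
    Continuous (fun x => lev φ x v w) := by
  have h1 : ContDiff ℝ ∞ (fderiv ℝ φ) := hφ.fderiv_right (by simp)
  have h2 : ContDiff ℝ ∞ (fderiv ℝ (fderiv ℝ φ)) := h1.fderiv_right (by simp)
  have h3 : ∀ v w, Continuous fun x => fderiv ℝ (fderiv ℝ φ) x v w := fun v w =>
    (h2.continuous.clm_apply continuous_const).clm_apply continuous_const
  unfold lev
  exact continuous_const.mul (((Complex.continuous_ofReal.comp (h3 v w)).add
    (Complex.continuous_ofReal.comp (h3 (I • v) (I • w)))).add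
    (continuous_const.mul ((Complex.continuous_ofReal.comp (h3 v (I • w))).sub
      (Complex.continuous_ofReal.comp (h3 (I • v) w)))))

theorem G7d_lap_cont (e : Module.Basis ι ℂ V) (h : KMet M) {φ : V → ℝ} (hφ : ContDiff ℝ ∞ φ) :
    ContinuousOn (Lap e h φ) M := by
  unfold Lap
  simp only [Matrix.trace, Matrix.diag, Matrix.mul_apply]
  refine Complex.continuous_re.comp_continuousOn ?_
  refine continuousOn_finsetSum _ fun i _ => continuousOn_finsetSum _ fun j _ => ?_
  exact (adj_smooth e h i j).continuousOn.mul (G7d_lev_cont hφ _ _).continuousOn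

theorem G7d_lap_zero (e : Module.Basis ι ℂ V) (h : KMet M) {χ : V → ℝ} {x : V}
    (hx : x ∉ tsupport χ) : Lap e h χ x = 0 := by
  have h6 : χ =ᶠ[𝓝 x] fun _ => 0 := by
    filter_upwards [(isClosed_tsupport χ).isOpen_compl.mem_nhds hx] with y hy
    exact image_eq_zero_of_notMem_tsupport hy
  rw [lap_congr e h h6, lap_const]

theorem G7d_lap_cont' (hM : IsOpen M) (e : Module.Basis ι ℂ V) (h : KMet M) {χ : V → ℝ}
    (hχ : ContDiff ℝ ∞ χ) (hs : tsupport χ ⊆ M) : Continuous (Lap e h χ) := by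
  rw [continuous_iff_continuousAt]
  intro x
  by_cases hx : x ∈ M
  · exact (G7d_lap_cont e h hχ).continuousAt (hM.mem_nhds hx)
  · have hx' : x ∉ tsupport χ := fun h => hx (hs h)
    have h6 : Lap e h χ =ᶠ[𝓝 x] fun _ => 0 := by
      filter_upwards [(isClosed_tsupport χ).isOpen_compl.mem_nhds hx'] with y hy
      exact G7d_lap_zero e h hy
    exact continuousAt_const.congr h6.symm

theorem G7d_lap_supp (e : Module.Basis ι ℂ V) (h : KMet M) {χ : V → ℝ}
    (hc : HasCompactSupport χ) : HasCompactSupport (Lap e h χ) := by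
  refine hc.of_isClosed_subset (isClosed_tsupport _) ?_
  refine closure_minimal ?_ (isClosed_tsupport χ)
  intro x hx
  by_contra hx'
  exact hx (G7d_lap_zero e h hx')

variable [FiniteDimensional ℝ V] [MeasurableSpace V] [BorelSpace V]

theorem G7d_haar (n : ℕ) : (volume : Measure (E n × ℂ)).IsAddHaarMeasure := by
  have h0 : (volume : Measure (E n)).IsAddHaarMeasure := by
    have : (volume : Measure (E n)) = Measure.pi (fun _ => volume) := rfl
    rw [this]
    infer_instance
  have : (volume : Measure (E n × ℂ)) = (volume : Measure (E n)).prod volume := rfl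
  rw [this]
  have h3 : SFinite (volume : Measure (E n)) := by infer_instance
  have h4 : MeasurableAdd (E n) := by infer_instance
  exact Measure.prod.instIsAddHaarMeasure _ _

omit [NormedSpace ℂ V] [IsScalarTower ℝ ℂ V] [FiniteDimensional ℂ V] in
/-- The integral of a bounded function times the mollification of an indicator function. -/
theorem G7d_conv (μ : Measure V) [μ.IsAddHaarMeasure] (ρ : ContDiffBump (0 : V)) {Z : Set V}
    (hZ : MeasurableSet Z) (hZf : μ Z ≠ ⊤) {χ : V → ℝ} (hχ : Continuous χ) (hχ0 : ∀ x, 0 ≤ χ x)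
    {B : ℝ} (hB : ∀ x, ‖χ x‖ ≤ B) :
    Integrable (fun x => χ x * ∫ t, ρ.normed μ t * Z.indicator (fun _ => (1 : ℝ)) (x - t) ∂μ) μ ∧
    ∫ x, χ x * ∫ t, ρ.normed μ t * Z.indicator (fun _ => (1 : ℝ)) (x - t) ∂μ ∂μ ≤
      B * (μ Z).toReal := by
  have hfd : ProperSpace V := FiniteDimensional.proper ℝ V
  have hρi : Integrable (ρ.normed μ) μ := ρ.integrable_normed
  have hZi : Integrable (Z.indicator (fun _ => (1 : ℝ))) μ :=
    (integrable_indicator_iff hZ).2 (integrableOn_const hZf)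
  have hci := hρi.integrable_convolution (ContinuousLinearMap.mul ℝ ℝ) hZi
  have hce := integral_convolution (ContinuousLinearMap.mul ℝ ℝ) hρi hZi
  have heq : (convolution (ρ.normed μ) (Z.indicator (fun _ => (1 : ℝ)))
      (ContinuousLinearMap.mul ℝ ℝ) μ) =
      fun x => ∫ t, ρ.normed μ t * Z.indicator (fun _ => (1 : ℝ)) (x - t) ∂μ := by
    funext x
    rfl
  rw [heq] at hci hce
  have hv : ∫ x, Z.indicator (fun _ => (1 : ℝ)) x ∂μ = (μ Z).toReal := by
    rw [integral_indicator hZ, setIntegral_const, smul_eq_mul, mul_one]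
    rfl
  rw [ContDiffBump.integral_normed, hv, ContinuousLinearMap.mul_apply', one_mul] at hce
  have hσ0 : ∀ x, 0 ≤ ∫ t, ρ.normed μ t * Z.indicator (fun _ => (1 : ℝ)) (x - t) ∂μ := by
    intro x
    refine integral_nonneg fun t => mul_nonneg (ρ.nonneg_normed t) ?_
    exact indicator_nonneg (fun _ _ => zero_le_one) _
  have hint := hci.bdd_mul (c := B) hχ.aestronglyMeasurable (ae_of_all _ hB)
  refine ⟨hint, ?_⟩
  rw [← hce, ← integral_const_mul]
  refine integral_mono hint (hci.const_mul B) fun x => ?_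
  have := hB x
  rw [Real.norm_of_nonneg (hχ0 x)] at this
  exact mul_le_mul_of_nonneg_right this (hσ0 x)

end aux

variable {n : ℕ} {Ω : Dom n} {Γ : Type} [Group Γ] {ι : Type} [Fintype ι] [DecidableEq ι]

theorem main_ineq (A : AffAct Ω Γ) (h : KMet Ω.M) (hinv : InvMet A h)
    (e : Module.Basis ι ℂ (E n × ℂ)) (k : Γ → ℝ) (hk : ∀ γ δ, k (γ * δ) = k γ + k δ)
    {χ : E n × ℂ → ℝ} (hχ : ContDiff ℝ ∞ χ) (hχ0 : ∀ x, 0 ≤ χ x)
    (hc : HasCompactSupport χ) (hs : tsupport χ ⊆ Ω.M)
    (h1 : ∀ x ∈ Ω.M, ∑ᶠ γ, χ (A.act γ x) = 1)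
    {r : ℕ} {X : Fin r → E n → E n} (hX : ∀ j, DifferentiableOn ℂ (X j) Ω.D)
    {b1 : E n} (hb1 : b1 ∈ Ω.D) (hind : LinearIndependent ℂ (fun j => X j b1)) (j0 : Fin r)
    (hQ : ∀ γ, ∀ b ∈ Ω.D, Qdet Ω X (A.β γ b) = Real.exp (k γ) * Qdet Ω X b)
    (hχ1 : 0 < χ (b1, 0)) {u0 : E n × ℂ → ℝ} (hu : ContDiffOn ℝ ∞ u0 Ω.M)
    (huk : ∀ γ, ∀ x ∈ Ω.M, u0 (A.act γ x) = u0 x + k γ) :
    ∃ (c C N0 : ℝ) (K : Set (E n × ℂ)), 0 < c ∧ 0 < C ∧ K ⊆ Ω.M ∧ IsCompact K ∧
      ∀ N : ℝ, N0 ≤ N → c ≤ C * (volume (ZN (Qdet Ω X) u0 N ∩ K)).toReal := by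
  classical
  set x1 : E n × ℂ := (b1, 0) with hx1
  obtain ⟨c1, ρ1, N0, v1, hc1, hρ1, hv1, hball1, hstrict⟩ := mN_strict hX hb1 hind j0 hu
  have hS : IsCompact (tsupport χ) := hc
  obtain ⟨δ0, hδ0, hδM⟩ := hS.exists_cthickening_subset_open Ω.M_open hs
  obtain ⟨δ, hδ, hδ1, hδ2⟩ : ∃ δ : ℝ, 0 < δ ∧ 2 * δ ≤ δ0 ∧ 2 * δ ≤ ρ1 :=
    ⟨min (δ0 / 2) (ρ1 / 2), lt_min (by positivity) (by positivity),
      by linarith [min_le_left (δ0 / 2) (ρ1 / 2)], by linarith [min_le_right (δ0 / 2) (ρ1 / 2)]⟩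
  set K : Set (E n × ℂ) := cthickening (2 * δ) (tsupport χ) with hKdef
  have hKM : K ⊆ Ω.M := (cthickening_mono hδ1 _).trans hδM
  have hKc : IsCompact K := hS.cthickening
  have hK1M : cthickening δ (tsupport χ) ⊆ Ω.M :=
    (cthickening_mono (by linarith) _).trans hδM
  obtain ⟨C1, r0, hC1, hr0, hsub⟩ := mN_submean hX hu hK1M hS.cthickening
  obtain ⟨lam, Lam, hlam, hLam, hlow⟩ := lap_lower e h hs hS
  obtain ⟨B, hB⟩ := hχ.continuous.bounded_above_of_compact_support hc
  have hB0 : 0 ≤ B := (norm_nonneg _).trans (hB 0)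
  set κ : ℝ := ∫ x in closedBall x1 (ρ1 / 2), χ x with hκ
  have hχi : Integrable χ (volume : Measure (E n × ℂ)) :=
    hχ.continuous.integrable_of_hasCompactSupport hc
  have hκ0 : 0 < κ := by
    rw [hκ, setIntegral_pos_iff_support_of_nonneg_ae (ae_of_all _ hχ0) hχi.integrableOn]
    have ho : IsOpen (Function.support χ ∩ ball x1 (ρ1 / 2)) :=
      (hχ.continuous.isOpen_support).inter isOpen_ball
    have hne : (Function.support χ ∩ ball x1 (ρ1 / 2)).Nonempty :=
      ⟨x1, ne_of_gt hχ1, mem_ball_self (by positivity)⟩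
    exact (ho.measure_pos volume hne).trans_le
      (measure_mono (inter_subset_inter_right _ ball_subset_closedBall))
  refine ⟨lam * c1 * κ / 2, Lam * C1 * (B + 1), N0, K, by positivity, by positivity, hKM, hKc,
    fun N hN => ?_⟩
  set m : E n × ℂ → ℝ := mN (Qdet Ω X) u0 N with hmdef
  have hm : ContinuousOn m Ω.M := mN_cont (Qdet_cont hX) hu.continuousOn N
  -- the cutoff
  obtain ⟨η, hηc, hηK, hηs, hηM⟩ : ∃ η : E n × ℂ → ℝ, Continuous η ∧ (∀ x ∈ K, η x = 1) ∧
      HasCompactSupport η ∧ tsupport η ⊆ Ω.M := by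
    obtain ⟨ψ, g1, g2, g3, g4, g5⟩ := G4_bump hKc Ω.M_open hKM
    obtain ⟨q, hq, hqK⟩ : ∃ q : ℝ, 0 < q ∧ ∀ x ∈ K, q ≤ ψ x := by
      rcases K.eq_empty_or_nonempty with he | hne
      · exact ⟨1, one_pos, fun x hx => by rw [he] at hx; exact absurd hx (notMem_empty x)⟩
      · obtain ⟨x0, hx0, hmin⟩ := hKc.exists_isMinOn hne g1.continuous.continuousOn
        exact ⟨ψ x0, g5 x0 hx0, fun x hx => hmin hx⟩
    have hsupp : tsupport (fun x => min 1 (ψ x / q)) ⊆ tsupport ψ := by
      refine closure_mono fun x hx h0 => hx ?_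
      simp only
      rw [h0, zero_div]
      exact min_eq_right zero_le_one
    refine ⟨fun x => min 1 (ψ x / q), continuous_const.min (g1.continuous.div_const q), ?_, ?_, ?_⟩
    · intro x hx
      simp only
      rw [min_eq_left]
      rw [le_div_iff₀ hq, one_mul]
      exact hqK x hx
    · exact g2.of_isClosed_subset (isClosed_tsupport _) hsupp
    · exact hsupp.trans g3
  set m' : E n × ℂ → ℝ := fun x => η x * m x with hm'def
  have hm'c : Continuous m' := G7d_cs_cont Ω.M_open hηc hηM hm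
  have hm's : HasCompactSupport m' := hηs.mul_right
  have hm'K : ∀ x ∈ K, m' x = m x := fun x hx => by
    simp only [hm'def]
    rw [hηK x hx, one_mul]
  have hSK : tsupport χ ⊆ K := self_subset_cthickening _
  set ℓ : E n × ℂ → ℝ := Lap e h χ with hℓdef
  have hℓc : Continuous ℓ := G7d_lap_cont' Ω.M_open e h hχ hs
  have hℓs : HasCompactSupport ℓ := G7d_lap_supp e h hc
  have hℓi : Integrable ℓ (volume : Measure (E n × ℂ)) := hℓc.integrable_of_hasCompactSupport hℓs
  have hint0 : ∫ x, m' x * ℓ x = 0 := by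
    rw [← int_zero A h hinv e k hk hχ hc hs h1 hm
      (fun γ x hx => mN_equiv A k hQ huk N γ hx)]
    congr 1
    funext x
    by_cases hx : x ∈ tsupport χ
    · rw [hm'K x (hSK hx)]
    · rw [hℓdef, G7d_lap_zero e h hx, mul_zero, mul_zero]
  have hIℓ : 0 ≤ ∫ x, ‖ℓ x‖ := integral_nonneg fun x => norm_nonneg _
  have hHaar : (volume : Measure (E n × ℂ)).IsAddHaarMeasure := G7d_haar n
  obtain ⟨δ3, hδ3, hclose⟩ := moll_close (volume : Measure (E n × ℂ)) hm'c hm's
    (show 0 < lam * c1 * κ / 2 / ((∫ x, ‖ℓ x‖) + 1) by positivity)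
  -- the bump
  obtain ⟨ρ, hρδ, hρδ3⟩ : ∃ ρ : ContDiffBump (0 : E n × ℂ), ρ.rOut ≤ δ ∧ ρ.rOut ≤ δ3 := by
    have h5 : 0 < min δ δ3 := lt_min hδ hδ3
    exact ⟨⟨min δ δ3 / 2, min δ δ3, by positivity, by linarith⟩, min_le_left _ _, min_le_right _ _⟩
  set φ : E n × ℂ → ℝ := moll (volume : Measure (E n × ℂ)) ρ m' with hφdef
  have hφ : ContDiff ℝ ∞ φ := moll_smooth volume ρ hm'c hm's
  have e1 : ∫ x, φ x * ℓ x = ∫ x, χ x * Lap e h φ x :=
    lap_symm volume Ω.M_open e h hφ.contDiffOn hχ hc hs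
  have e2 : ∫ x, φ x * ℓ x ≤ lam * c1 * κ / 2 := by
    have i1 : Integrable (fun x => φ x * ℓ x) (volume : Measure (E n × ℂ)) :=
      (hφ.continuous.mul hℓc).integrable_of_hasCompactSupport hℓs.mul_left
    have i2 : Integrable (fun x => m' x * ℓ x) (volume : Measure (E n × ℂ)) :=
      (hm'c.mul hℓc).integrable_of_hasCompactSupport hℓs.mul_left
    have i3 : ∫ x, φ x * ℓ x = ∫ x, (φ x * ℓ x - m' x * ℓ x) := by
      rw [integral_sub i1 i2, hint0, sub_zero]
    rw [i3]
    calc ∫ x, (φ x * ℓ x - m' x * ℓ x)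
        ≤ ∫ x, lam * c1 * κ / 2 / ((∫ x, ‖ℓ x‖) + 1) * ‖ℓ x‖ := by
          refine integral_mono (i1.sub i2) (hℓi.norm.const_mul _) fun x => ?_
          have h6 := hclose ρ hρδ3 x
          have h7 : φ x * ℓ x - m' x * ℓ x = (φ x - m' x) * ℓ x := by ring
          show φ x * ℓ x - m' x * ℓ x ≤ _
          rw [h7]
          refine (le_abs_self _).trans ?_
          rw [abs_mul]
          exact mul_le_mul_of_nonneg_right h6 (abs_nonneg _)
      _ = lam * c1 * κ / 2 * ((∫ x, ‖ℓ x‖) / ((∫ x, ‖ℓ x‖) + 1)) := by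
          rw [integral_const_mul]; ring
      _ ≤ lam * c1 * κ / 2 * 1 := by
          apply mul_le_mul_of_nonneg_left _ (by positivity)
          rw [div_le_one (by positivity)]
          linarith
      _ = _ := mul_one _
  -- the bad set
  set Z : Set (E n × ℂ) := ZN (Qdet Ω X) u0 N ∩ K with hZdef
  have hZm : MeasurableSet Z := by
    have hQc : ContinuousOn (fun y : E n × ℂ => Qdet Ω X y.1) Ω.M :=
      (Qdet_cont hX).comp continuous_fst.continuousOn fun y hy => hy.1
    have hec : ContinuousOn (fun y : E n × ℂ => Real.exp (u0 y - N)) Ω.M :=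
      Real.continuous_exp.comp_continuousOn (hu.continuousOn.sub continuousOn_const)
    have ho : IsOpen (Ω.M ∩ (fun y => Real.exp (u0 y - N) - Qdet Ω X y.1) ⁻¹' (Ioi 0)) :=
      (hec.sub hQc).isOpen_inter_preimage Ω.M_open isOpen_Ioi
    have hZe : Z = (Ω.M ∩ (fun y => Real.exp (u0 y - N) - Qdet Ω X y.1) ⁻¹' (Ioi 0)) ∩ K := by
      ext y
      simp only [hZdef, ZN, mem_inter_iff, mem_setOf_eq, mem_preimage, mem_Ioi, sub_pos]
      constructor
      · rintro ⟨h5, h6⟩
        exact ⟨⟨hKM h6, h5⟩, h6⟩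
      · rintro ⟨⟨h5, h6⟩, h7⟩
        exact ⟨h6, h7⟩
    rw [hZe]
    exact ho.measurableSet.inter hKc.isClosed.measurableSet
  have hZf : (volume : Measure (E n × ℂ)) Z ≠ ⊤ :=
    ((measure_mono inter_subset_right).trans_lt hKc.measure_lt_top).ne
  set σ : E n × ℂ → ℝ := fun x => ∫ t, ρ.normed volume t * Z.indicator (fun _ => (1 : ℝ)) (x - t)
    with hσdef
  have hσ0 : ∀ x, 0 ≤ σ x := by
    intro x
    refine integral_nonneg fun t => mul_nonneg (ρ.nonneg_normed t) ?_
    exact indicator_nonneg (fun _ _ => zero_le_one) _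
  -- the sub-mean value inequality near the support
  have hsm : ∀ x ∈ tsupport χ, ∀ v : E n × ℂ, ‖v‖ ≤ 1 → ∀ y ∈ closedBall x ρ.rOut, y ∈ K ∧
      ∀ s : ℝ, 0 < s → s ≤ min r0 δ → m' y = m y ∧
        Real.circleAverage (fun z : ℂ => m' (y + z • v)) 0 s =
          Real.circleAverage (fun z : ℂ => m (y + z • v)) 0 s ∧
        m y - C1 * s ^ 2 * Z.indicator (fun _ => 1) y ≤
          Real.circleAverage (fun z : ℂ => m (y + z • v)) 0 s := by
    intro x hx v hv y hy
    rw [mem_closedBall] at hy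
    have hyK1 : y ∈ cthickening δ (tsupport χ) :=
      mem_cthickening_of_dist_le y x δ _ hx (hy.trans hρδ)
    have hyK : y ∈ K := cthickening_mono (by linarith) _ hyK1
    refine ⟨hyK, fun s hs0 hsr => ⟨hm'K y hyK, ?_, ?_⟩⟩
    · apply Real.circleAverage_congr_sphere
      intro z hz
      rw [mem_sphere_zero_iff_norm, abs_of_pos hs0] at hz
      apply hm'K
      apply mem_cthickening_of_dist_le _ x (2 * δ) _ hx
      have h8 : dist (y + z • v) y ≤ δ := by
        rw [dist_eq_norm, add_sub_cancel_left, norm_smul, hz]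
        calc s * ‖v‖ ≤ s * 1 := mul_le_mul_of_nonneg_left hv hs0.le
          _ ≤ δ := by rw [mul_one]; exact hsr.trans (min_le_right _ _)
      have h9 := dist_triangle (y + z • v) y x
      linarith [hy.trans hρδ]
    · have h8 := hsub N y hyK1 v hv s hs0 (hsr.trans (min_le_left _ _))
      have h9 : Z.indicator (fun _ => (1 : ℝ)) y =
          (ZN (Qdet Ω X) u0 N).indicator (fun _ => 1) y := by
        by_cases hyZ : y ∈ ZN (Qdet Ω X) u0 N
        · rw [indicator_of_mem hyZ, indicator_of_mem (show y ∈ Z from ⟨hyZ, hyK⟩)]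
        · rw [indicator_of_notMem hyZ, indicator_of_notMem (fun h : y ∈ Z => hyZ h.1)]
      rw [h9]
      exact h8
  have hr1 : 0 < min r0 δ := lt_min hr0 hδ
  -- lower bounds for the Levi form
  have hlev1 : ∀ x ∈ tsupport χ, ∀ v : E n × ℂ, ‖v‖ ≤ 1 → -(C1 * σ x) ≤ (lev φ x v v).re := by
    intro x hx v hv
    have h8 := moll_lev (volume : Measure (E n × ℂ)) ρ hm'c hm's (x := x) (v := v)
      (d := fun y => -C1 * Z.indicator (fun _ => (1 : ℝ)) y)
      ((measurable_const.indicator hZm).const_mul _) (D := C1) (fun y => by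
        rw [abs_mul, abs_neg, abs_of_pos hC1]
        have : |Z.indicator (fun _ => (1 : ℝ)) y| ≤ 1 := by
          by_cases hy : y ∈ Z
          · rw [indicator_of_mem hy, abs_one]
          · rw [indicator_of_notMem hy, abs_zero]; exact zero_le_one
        nlinarith) hr1 (fun y hy s hs0 hsr => by
        obtain ⟨-, h9⟩ := hsm x hx v hv y hy
        obtain ⟨g1, g2, g3⟩ := h9 s hs0 hsr
        rw [g1, g2]
        refine le_trans (le_of_eq ?_) g3
        ring)
    refine le_trans (le_of_eq ?_) h8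
    rw [hσdef]
    simp only
    rw [← neg_mul, ← integral_const_mul]
    congr 1
    funext t
    ring
  have hρint : ∫ t, ρ.normed (volume : Measure (E n × ℂ)) t = 1 := ρ.integral_normed
  have hlev2 : ∀ x ∈ tsupport χ, x ∈ closedBall x1 (ρ1 / 2) →
      (∀ v : E n × ℂ, ‖v‖ ≤ 1 → 0 ≤ (lev φ x v v).re) ∧ c1 ≤ (lev φ x v1 v1).re := by
    intro x hx hxb
    have hyb : ∀ y ∈ closedBall x ρ.rOut, y ∈ closedBall x1 ρ1 := by
      intro y hy
      rw [mem_closedBall] at hy hxb ⊢
      have h9 := dist_triangle y x x1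
      linarith
    constructor
    · intro v hv
      have h8 := moll_lev (volume : Measure (E n × ℂ)) ρ hm'c hm's (x := x) (v := v)
        (d := fun _ => 0) measurable_const (D := 0) (fun y => by rw [abs_zero]) hr1
        (fun y hy s hs0 hsr => by
          obtain ⟨-, h9⟩ := hsm x hx v hv y hy
          obtain ⟨g1, g2, g3⟩ := h9 s hs0 hsr
          rw [g1, g2]
          have h10 : y ∉ Z := fun h => (hstrict N hN y (hyb y hy)).1 h.1
          rw [indicator_of_notMem h10] at g3
          simpa using g3)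
      simpa using h8
    · have h8 := moll_lev (volume : Measure (E n × ℂ)) ρ hm'c hm's (x := x) (v := v1)
        (d := fun _ => c1) measurable_const (D := c1) (fun y => by rw [abs_of_pos hc1]) hr1
        (fun y hy s hs0 hsr => by
          obtain ⟨-, h9⟩ := hsm x hx v1 hv1 y hy
          obtain ⟨g1, g2, g3⟩ := h9 s hs0 hsr
          rw [g1, g2]
          have h10 := (hstrict N hN y (hyb y hy)).2 s hs0 (by
            have := hsr.trans (min_le_right r0 δ)
            linarith)
          linarith)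
      rw [integral_mul_const, hρint, one_mul] at h8
      exact h8
  have hlap : ∀ x, χ x * ((closedBall x1 (ρ1 / 2)).indicator (fun _ => lam * c1) x -
      Lam * C1 * σ x) ≤ χ x * Lap e h φ x := by
    intro x
    by_cases hx : x ∈ tsupport χ
    · apply mul_le_mul_of_nonneg_left _ (hχ0 x)
      obtain ⟨g1, g2⟩ := hlow x hx φ (hφ.contDiffAt.of_le (WithTop.coe_le_coe.2 le_top))
      by_cases hxb : x ∈ closedBall x1 (ρ1 / 2)
      · rw [indicator_of_mem hxb]
        obtain ⟨g3, g4⟩ := hlev2 x hx hxb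
        have g5 := g2 g3 v1 hv1
        have g6 : lam * c1 ≤ lam * (lev φ x v1 v1).re := mul_le_mul_of_nonneg_left g4 hlam.le
        have g7 : 0 ≤ Lam * C1 * σ x := mul_nonneg (by positivity) (hσ0 x)
        linarith
      · rw [indicator_of_notMem hxb]
        have g3 := g1 (C1 * σ x) (mul_nonneg hC1.le (hσ0 x)) (hlev1 x hx)
        linarith
    · rw [image_eq_zero_of_notMem_tsupport hx, zero_mul, zero_mul]
  obtain ⟨hσi, hσb⟩ := G7d_conv (volume : Measure (E n × ℂ)) ρ hZm hZf hχ.continuous hχ0 hB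
  have i5 : Integrable (fun x => χ x * (closedBall x1 (ρ1 / 2)).indicator (fun _ => lam * c1) x)
      (volume : Measure (E n × ℂ)) := by
    have h8 : (fun x => χ x * (closedBall x1 (ρ1 / 2)).indicator (fun _ => lam * c1) x) =
        (closedBall x1 (ρ1 / 2)).indicator (fun x => χ x * (lam * c1)) := by
      funext x
      by_cases hxb : x ∈ closedBall x1 (ρ1 / 2)
      · rw [indicator_of_mem hxb, indicator_of_mem hxb]
      · rw [indicator_of_notMem hxb, indicator_of_notMem hxb, mul_zero]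
    rw [h8]
    exact (hχi.mul_const _).indicator isClosed_closedBall.measurableSet
  have i6 : ∫ x, χ x * (closedBall x1 (ρ1 / 2)).indicator (fun _ => lam * c1) x =
      lam * c1 * κ := by
    have h8 : (fun x => χ x * (closedBall x1 (ρ1 / 2)).indicator (fun _ => lam * c1) x) =
        (closedBall x1 (ρ1 / 2)).indicator (fun x => lam * c1 * χ x) := by
      funext x
      by_cases hxb : x ∈ closedBall x1 (ρ1 / 2)
      · rw [indicator_of_mem hxb, indicator_of_mem hxb, mul_comm]
      · rw [indicator_of_notMem hxb, indicator_of_notMem hxb, mul_zero]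
    rw [h8, integral_indicator isClosed_closedBall.measurableSet, integral_const_mul]
  have i7 : Integrable (fun x => χ x * Lap e h φ x) (volume : Measure (E n × ℂ)) :=
    (G7d_cs_cont Ω.M_open hχ.continuous hs (G7d_lap_cont e h hφ)).integrable_of_hasCompactSupport
      hc.mul_right
  have i8 : ∫ x, (χ x * (closedBall x1 (ρ1 / 2)).indicator (fun _ => lam * c1) x -
      Lam * C1 * (χ x * σ x)) ≤ ∫ x, χ x * Lap e h φ x := by
    refine integral_mono (i5.sub (hσi.const_mul _)) i7 fun x => ?_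
    refine le_trans (le_of_eq ?_) (hlap x)
    ring
  rw [integral_sub i5 (hσi.const_mul _), i6, integral_const_mul, ← e1] at i8
  have h9 : Lam * C1 * ∫ x, χ x * σ x ≤ Lam * C1 * (B * (volume Z).toReal) :=
    mul_le_mul_of_nonneg_left hσb (by positivity)
  have h10 : 0 ≤ (volume Z).toReal := ENNReal.toReal_nonneg
  have h11 : Lam * C1 * (B * (volume Z).toReal) ≤ Lam * C1 * (B + 1) * (volume Z).toReal := by
    have : 0 ≤ Lam * C1 * (volume Z).toReal := by positivity
    nlinarith
  linarith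

end Pool.Agent.H.MP_e23cd6_ag.AB
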