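import Pool.Agent.H.MP_e23cd6_ag.AB.G7c

/-!
ABUN G8: the bad sets have small volume.

* `holo_null`: the zero set of a holomorphic function f on the domain, not identically zero, has Lebesgue measure 0.
  Proof: (Mathlib may contain a statement for analytic functions of several variables; search for analytic + volume
  zero.) Otherwise: it suffices that every point p ∈ D has a ball W with volume(W ∩ {f = 0}) = 0 (Lindelöf). f is not identically zero on
  a ball W = ball p s ⊆ D (`ident`), so f q ≠ 0 for some q ∈ W. Let v = q - x for x ∈ W varying... use polar type Fubini: simplest is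
  induction over coordinates / Fubini on the cube W: for g holomorphic on a product W = W' × W'' (one coordinate split off, sup norm
  balls are products), if g is not identically zero on W, then {w' ∈ W' | g(w', ·) ≡ 0} is contained in the zero set of w' ↦ g(w', a) for
  an a with g(·, a) not identically zero, so null by induction on the dimension, and for other w' the zero set of g(w', ·) is countable (isolated
  zeros of one variable), so null; Fubini.
  Alternative avoiding Fubini with coordinates: for x ∈ W and the point q with f q ≠ 0 the function ζ ↦ f(x + ζ(q - x)) has f ≠ 0 at ζ = 1, so for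
  every x the set of real t near 0 with f(x + t(q-x)) = 0 is finite. The maps T_t(x) = x + t(q - x), t ∈ (0,1/2), have Jacobian
  (1-t)^(2n) ≥ 4^(-n); by Fubini ∫_0^{1/2} volume({x ∈ W | f(T_t x) = 0}) dt = ∫_W |{t | f(T_t x) = 0}| dx = 0, so for almost every t the set
  {x ∈ W : f(T_t x) = 0} is null, so its image {f = 0} ∩ T_t W is null; T_t W exhausts W as t → 0.
* `Q_null`: choose a ℂ-linear map T : E n → (Fin r → ℂ) with T X_j(b1) = e_j (independence at b1). f(b) = det (T X_j(b))_j is holomorphic, f b1 = 1.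
  If Q b = 0 then the X_j(b) are dependent (`Qdet_pos`), so f b = 0.
* `vol_ZN`: K ⊆ M compact, u0 ≤ C on K. The sets A_N = {x ∈ K | Q x.1 < exp(u0 x - N)} decrease with N (ℕ) and their intersection is
  {x ∈ K | Q x.1 = 0} ⊆ {b ∈ D | Q b = 0} × ℂ, of measure 0 (product measure). Continuity from above (volume K < ∞;
  measurability: the sets are relatively open in K, `tendsto_measure_iInter_atTop`).
-/

open Set Filter Topology Metric Complex MeasureTheory
open scoped ContDiff

namespace Pool.Agent.H.MP_e23cd6_ag.AB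

variable {n : ℕ} {Ω : Dom n}

/-- on a line through a point where the function does not vanish the real zeros form a null set -/
theorem G8_line {W : Set (E n)} (hWo : IsOpen W) (hWc : Convex ℝ W) {f : E n → ℂ}
    (hf : DifferentiableOn ℂ f W) {x q : E n} (hx : x ∈ W) (hq : q ∈ W) (hfq : f q ≠ 0) :
    volume {t : ℝ | t ∈ Ioo (0 : ℝ) 1 ∧ f (x + (t : ℂ) • (q - x)) = 0} = 0 := by
  set l : ℂ → E n := fun ζ => x + ζ • (q - x) with hl
  have hdl : Differentiable ℂ l := (differentiable_const x).add (differentiable_id.smul_const _)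
  set S : Set ℂ := l ⁻¹' W with hS
  have hSo : IsOpen S := hWo.preimage hdl.continuous
  have hga : AnalyticOnNhd ℂ (f ∘ l) S :=
    (hf.comp hdl.differentiableOn (fun ζ hζ => hζ)).analyticOnNhd hSo
  set SR : Set ℝ := (fun t : ℝ => (t : ℂ)) ⁻¹' S with hSR
  have hSRo : IsOpen SR := hSo.preimage Complex.continuous_ofReal
  have hreal : AnalyticOnNhd ℝ (fun t : ℝ => f (l (t : ℂ))) SR := by
    intro t ht
    have h1 : AnalyticAt ℝ (f ∘ l) (t : ℂ) := (hga (t : ℂ) ht).restrictScalars
    have h2 : AnalyticAt ℝ (fun t : ℝ => (t : ℂ)) t := Complex.ofRealCLM.analyticAt t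
    exact AnalyticAt.comp (f := fun t : ℝ => (t : ℂ)) (g := f ∘ l) h1 h2
  have hSRc : Convex ℝ SR := by
    intro s hs t ht a b ha hb hab
    have h1 : l ((a * s + b * t : ℝ) : ℂ) = a • l (s : ℂ) + b • l (t : ℂ) := by
      obtain rfl : b = 1 - a := by linarith
      simp only [hl, Complex.coe_smul]
      module
    change l ((a • s + b • t : ℝ) : ℂ) ∈ W
    rw [smul_eq_mul, smul_eq_mul, h1]
    exact hWc hs ht ha hb hab
  have h0S : (0 : ℝ) ∈ SR := by simpa [hSR, hS, hl] using hx
  have h1S : (1 : ℝ) ∈ SR := by simpa [hSR, hS, hl] using hq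
  have hne : ¬ EqOn (fun t : ℝ => f (l (t : ℂ))) 0 SR := by
    intro h
    have h2 := h h1S
    simp only [hl, Complex.ofReal_one, one_smul, add_sub_cancel, Pi.zero_apply] at h2
    exact hfq h2
  have hev := (hreal.eqOn_zero_or_eventually_ne_zero_of_preconnected
    hSRc.isPreconnected).resolve_left hne
  have hae : ∀ᵐ t : ℝ ∂(volume.restrict SR), f (l (t : ℂ)) ≠ 0 :=
    ae_restrict_le_codiscreteWithin hSRo.measurableSet hev
  rw [ae_restrict_iff' hSRo.measurableSet, ae_iff] at hae
  refine measure_mono_null ?_ hae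
  rintro t ⟨ht, hft⟩
  have htS : t ∈ SR := hSRc.ordConnected.out h0S h1S ⟨ht.1.le, ht.2.le⟩
  simp only [mem_ofPred_eq, not_forall, not_not]
  exact ⟨htS, hft⟩

/-- the local statement on a ball -/
theorem G8_ball {p q : E n} {s : ℝ} {f : E n → ℂ} (hf : DifferentiableOn ℂ f (ball p s))
    (hq : q ∈ ball p s) (hfq : f q ≠ 0) : volume {b | b ∈ ball p s ∧ f b = 0} = 0 := by
  set W : Set (E n) := ball p s with hW
  have hWo : IsOpen W := isOpen_ball
  have hWc : Convex ℝ W := convex_ball p s
  have hT : ∀ x ∈ W, ∀ t ∈ Ioo (0 : ℝ) 1, x + (t : ℂ) • (q - x) ∈ W := by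
    intro x hx t ht
    have h1 := hWc hx hq (sub_nonneg.2 ht.2.le) ht.1.le (sub_add_cancel 1 t)
    have h2 : (1 - t) • x + t • q = x + (t : ℂ) • (q - x) := by
      rw [Complex.coe_smul, smul_sub, sub_smul, one_smul]
      abel
    rwa [h2] at h1
  -- the bad set in the product
  set U : Set (ℝ × E n) := Ioo (0 : ℝ) 1 ×ˢ W with hU
  have hUo : IsOpen U := isOpen_Ioo.prod hWo
  set F : ℝ × E n → ℂ := fun y => f (y.2 + (y.1 : ℂ) • (q - y.2)) with hF
  have hFc : ContinuousOn F U := by
    refine hf.continuousOn.comp (t := W) ?_ ?_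
    · refine Continuous.continuousOn ?_
      exact continuous_snd.add ((Complex.continuous_ofReal.comp continuous_fst).smul
        (continuous_const.sub continuous_snd))
    · rintro ⟨t, x⟩ ⟨ht, hx⟩
      exact hT x hx t ht
  set Z : Set (ℝ × E n) := {y | y ∈ U ∧ F y = 0} with hZ
  have hZm : MeasurableSet Z := by
    obtain ⟨C, hC, hCe⟩ := continuousOn_iff_isClosed.1 hFc {0} isClosed_singleton
    have : Z = C ∩ U := by
      rw [← hCe]
      ext y
      simp only [hZ, mem_ofPred_eq, mem_inter_iff, mem_preimage, mem_singleton_iff]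
      exact and_comm
    rw [this]
    exact hC.measurableSet.inter hUo.measurableSet
  have hZ0 : (volume : Measure (ℝ × E n)) Z = 0 := by
    rw [Measure.volume_eq_prod, Measure.prod_apply_symm hZm]
    rw [lintegral_eq_zero_iff (measurable_measure_prodMk_right hZm)]
    refine Eventually.of_forall fun x => ?_
    by_cases hx : x ∈ W
    · refine measure_mono_null ?_ (G8_line hWo hWc hf hx hq hfq)
      rintro t ⟨ht, hft⟩
      exact ⟨ht.1, hft⟩
    · refine measure_mono_null (t := ∅) ?_ measure_empty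
      rintro t ⟨ht, -⟩
      exact hx ht.2
  rw [Measure.volume_eq_prod] at hZ0
  have hae : ∀ᵐ t : ℝ, volume (Prod.mk t ⁻¹' Z) = 0 := by
    filter_upwards [Measure.measure_ae_null_of_prod_null hZ0] with t ht using ht
  have hdense := Measure.dense_of_ae hae
  -- a sequence of good parameters
  have hseq : ∀ k : ℕ, ∃ t : ℝ, t ∈ Ioo (0 : ℝ) (1 / (k + 2)) ∧
      volume (Prod.mk t ⁻¹' Z) = 0 := by
    intro k
    have hk : (0 : ℝ) < 1 / (k + 2) := by positivity
    obtain ⟨t, ht, ht'⟩ := hdense.exists_mem_open isOpen_Ioo (nonempty_Ioo.2 hk)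
    exact ⟨t, ht', ht⟩
  choose t ht htZ using hseq
  have ht1 : ∀ k, t k < 1 := by
    intro k
    refine (ht k).2.trans_le ?_
    rw [div_le_one (by positivity)]
    have : (0 : ℝ) ≤ k := Nat.cast_nonneg k
    linarith
  have hsub : {b | b ∈ W ∧ f b = 0} ⊆
      ⋃ k, (AffineMap.homothety q (1 - t k)) '' (Prod.mk (t k) ⁻¹' Z) := by
    rintro y ⟨hy, hfy⟩
    -- the preimages converge to y
    have htend : Tendsto t atTop (𝓝 0) := by
      refine squeeze_zero (fun k => (ht k).1.le) (fun k => (ht k).2.le) ?_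
      have h1 : Tendsto (fun k : ℕ => (1 : ℝ) / ((k : ℝ) + 2)) atTop (𝓝 0) :=
        Tendsto.div_atTop tendsto_const_nhds
          (tendsto_atTop_add_const_right _ _ tendsto_natCast_atTop_atTop)
      exact h1
    have hcont : Tendsto (fun k => (1 - t k)⁻¹ • (y - t k • q)) atTop (𝓝 y) := by
      have h1 : Tendsto (fun k => (1 - t k)⁻¹ • (y - t k • q)) atTop
          (𝓝 ((1 - (0 : ℝ))⁻¹ • (y - (0 : ℝ) • q))) := by
        refine Tendsto.smul ?_ (tendsto_const_nhds.sub (htend.smul_const q))
        exact (tendsto_const_nhds.sub htend).inv₀ (by norm_num)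
      simpa using h1
    obtain ⟨k, hk⟩ := (hcont.eventually (hWo.mem_nhds hy)).exists
    rw [mem_iUnion]
    have h1t : (1 - t k) ≠ 0 := by
      have := ht1 k
      intro h
      linarith
    set w : E n := (1 - t k)⁻¹ • (y - t k • q) with hw
    have hw1 : (1 - t k) • w = y - t k • q := by
      rw [hw, smul_smul, mul_inv_cancel₀ h1t, one_smul]
    have he : w + ((t k : ℝ) : ℂ) • (q - w) = y := by
      calc w + ((t k : ℝ) : ℂ) • (q - w) = (1 - t k) • w + t k • q := by
            rw [Complex.coe_smul]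
            module
        _ = y := by rw [hw1]; abel
    refine ⟨k, w, ?_, ?_⟩
    · refine ⟨⟨⟨(ht k).1, ht1 k⟩, hk⟩, ?_⟩
      change f (w + ((t k : ℝ) : ℂ) • (q - w)) = 0
      rw [he]
      exact hfy
    · rw [AffineMap.homothety_apply, vsub_eq_sub, vadd_eq_add, smul_sub, hw1]
      module
  refine measure_mono_null hsub ?_
  rw [measure_iUnion_null_iff]
  intro k
  rw [Measure.addHaar_image_homothety, htZ k, mul_zero]

theorem holo_null {f : E n → ℂ} (hf : DifferentiableOn ℂ f Ω.D) {b1 : E n} (hb1 : b1 ∈ Ω.D)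
    (h1 : f b1 ≠ 0) : volume {b | b ∈ Ω.D ∧ f b = 0} = 0 := by
  refine measure_null_of_locally_null _ fun p hp => ?_
  obtain ⟨s, hs, hsD⟩ := Metric.isOpen_iff.1 Ω.isOpen p hp.1
  obtain ⟨q, hq, hfq⟩ : ∃ q ∈ ball p s, f q ≠ 0 := by
    by_contra h
    push Not at h
    have h2 := ident Ω.isOpen Ω.conn hf (differentiableOn_const (0 : ℂ)) hs hsD h
    exact h1 (h2 hb1)
  refine ⟨{b | b ∈ ball p s ∧ f b = 0}, ?_, G8_ball (hf.mono hsD) hq hfq⟩
  rw [mem_nhdsWithin]
  refine ⟨ball p s, isOpen_ball, mem_ball_self hs, ?_⟩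
  rintro b ⟨hb, -, hfb⟩
  exact ⟨hb, hfb⟩

theorem G8_prod {m : ℕ} {U : Set (E n)} {g : Fin m → E n → ℂ}
    (hg : ∀ i, DifferentiableOn ℂ (g i) U) (u : Finset (Fin m)) :
    DifferentiableOn ℂ (fun b => ∏ i ∈ u, g i b) U := by
  induction u using Finset.induction_on with
  | empty => simpa using differentiableOn_const (1 : ℂ)
  | insert a u ha ih =>
    have h1 : (fun b => ∏ i ∈ insert a u, g i b) = fun b => g a b * ∏ i ∈ u, g i b := by
      funext b
      rw [Finset.prod_insert ha]
    rw [h1]
    exact (hg a).mul ih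

theorem Q_null {r : ℕ} {X : Fin r → E n → E n} (hX : ∀ j, DifferentiableOn ℂ (X j) Ω.D)
    {b1 : E n} (hb1 : b1 ∈ Ω.D) (hind : LinearIndependent ℂ (fun j => X j b1)) :
    volume {b | b ∈ Ω.D ∧ Qdet Ω X b = 0} = 0 := by
  have hinj : LinearMap.ker (Fintype.linearCombination ℂ (fun j => X j b1)) = ⊥ := by
    rw [LinearMap.ker_eq_bot]
    exact linearIndependent_iff_injective_fintypeLinearCombination.1 hind
  obtain ⟨S, hS⟩ := LinearMap.exists_leftInverse_of_injective _ hinj
  set L : E n →L[ℂ] (Fin r → ℂ) := LinearMap.toContinuousLinearMap S with hL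
  have hLX : ∀ j, L (X j b1) = Pi.single j 1 := by
    intro j
    have h1 := LinearMap.congr_fun hS (Pi.single j (1 : ℂ))
    rw [LinearMap.comp_apply, Fintype.linearCombination_apply_single, one_smul] at h1
    exact h1
  set f : E n → ℂ := fun b => (Matrix.of fun i j => L (X j b) i).det with hf
  have hfd : DifferentiableOn ℂ f Ω.D := by
    rw [hf]
    simp only [Matrix.det_apply']
    refine DifferentiableOn.fun_sum fun σ _ => ?_
    refine DifferentiableOn.const_mul ?_ _
    refine G8_prod (fun i => ?_) _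
    simp only [Matrix.of_apply]
    have h1 : DifferentiableOn ℂ (fun b => L (X i b)) Ω.D :=
      L.differentiable.comp_differentiableOn (hX i)
    exact (differentiableOn_pi.1 h1) (σ i)
  have hf1 : f b1 ≠ 0 := by
    have h1 : (Matrix.of fun i j => L (X j b1) i) = (1 : Matrix (Fin r) (Fin r) ℂ) := by
      ext i j
      rw [Matrix.of_apply, hLX, Matrix.one_apply, Pi.single_apply]
    have h2 : f b1 = 1 := by
      rw [hf]
      simp only
      rw [h1, Matrix.det_one]
    rw [h2]
    exact one_ne_zero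
  refine measure_mono_null ?_ (holo_null hfd hb1 hf1)
  rintro b ⟨hb, hQb⟩
  refine ⟨hb, ?_⟩
  by_contra hne
  have h1 := Matrix.linearIndependent_cols_of_det_ne_zero (A := Matrix.of fun i j => L (X j b) i)
    hne
  have h2 : LinearIndependent ℂ (fun j => L (X j b)) := h1
  have h3 : LinearIndependent ℂ (fun j => X j b) := LinearIndependent.of_comp L.toLinearMap h2
  exact (Qdet_pos hb h3).ne' hQb

theorem vol_ZN {r : ℕ} {X : Fin r → E n → E n} (hX : ∀ j, DifferentiableOn ℂ (X j) Ω.D)
    {b1 : E n} (hb1 : b1 ∈ Ω.D) (hind : LinearIndependent ℂ (fun j => X j b1))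
    {u0 : E n × ℂ → ℝ} (hu : ContinuousOn u0 Ω.M) {K : Set (E n × ℂ)} (hK : K ⊆ Ω.M)
    (hKc : IsCompact K) :
    Tendsto (fun N : ℕ => (volume (ZN (Qdet Ω X) u0 N ∩ K)).toReal) atTop (𝓝 0) := by
  have hKt : volume K ≠ ⊤ := hKc.measure_lt_top.ne
  have hQc : ContinuousOn (fun x : E n × ℂ => Qdet Ω X x.1) K :=
    (Qdet_cont hX).comp continuous_fst.continuousOn fun x hx => (hK hx).1
  have huK : ContinuousOn u0 K := hu.mono hK
  have hmeas : ∀ N : ℕ, NullMeasurableSet (ZN (Qdet Ω X) u0 N ∩ K) volume := by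
    intro N
    have hg : ContinuousOn (fun x : E n × ℂ => Qdet Ω X x.1 - Real.exp (u0 x - N)) K :=
      hQc.sub (Real.continuous_exp.comp_continuousOn (huK.sub continuousOn_const))
    obtain ⟨u, huo, hue⟩ := continuousOn_iff'.1 hg (Iio 0) isOpen_Iio
    have : ZN (Qdet Ω X) u0 N ∩ K = u ∩ K := by
      rw [← hue]
      ext x
      simp only [ZN, mem_inter_iff, mem_ofPred_eq, mem_preimage, mem_Iio, sub_neg]
    rw [this]
    exact (huo.measurableSet.inter hKc.measurableSet).nullMeasurableSet
  have hanti : Antitone (fun N : ℕ => ZN (Qdet Ω X) u0 N ∩ K) := by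
    intro N N' hNN
    refine inter_subset_inter_left _ fun x hx => ?_
    refine lt_of_lt_of_le (show Qdet Ω X x.1 < Real.exp (u0 x - N') from hx) ?_
    refine Real.exp_le_exp.2 ?_
    have : (N : ℝ) ≤ N' := by exact_mod_cast hNN
    linarith
  have hlim := tendsto_measure_iInter_atTop hmeas hanti
    ⟨0, ((measure_mono inter_subset_right).trans_lt hKt.lt_top).ne⟩
  have hz : volume (⋂ N : ℕ, ZN (Qdet Ω X) u0 N ∩ K) = 0 := by
    refine measure_mono_null (t := {b | b ∈ Ω.D ∧ Qdet Ω X b = 0} ×ˢ (univ : Set ℂ)) ?_ ?_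
    · intro x hx
      rw [mem_iInter] at hx
      refine ⟨⟨(hK (hx 0).2).1, ?_⟩, mem_univ _⟩
      refine le_antisymm ?_ (Qdet_nonneg X x.1)
      have htend : Tendsto (fun N : ℕ => Real.exp (u0 x - N)) atTop (𝓝 0) := by
        refine Real.tendsto_exp_atBot.comp ?_
        exact tendsto_atBot_add_const_left _ _
          (tendsto_neg_atTop_atBot.comp tendsto_natCast_atTop_atTop)
      exact ge_of_tendsto' htend fun N => (show Qdet Ω X x.1 < _ from (hx N).1).le
    · rw [Measure.volume_eq_prod, Measure.prod_prod, Q_null hX hb1 hind, zero_mul]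
  rw [hz] at hlim
  have h2 := (ENNReal.tendsto_toReal ENNReal.zero_ne_top).comp hlim
  rw [ENNReal.toReal_zero] at h2
  exact h2

end Pool.Agent.H.MP_e23cd6_ag.AB
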