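import Pool.Agent.H.MP_e23cd6_ag.AB.E4
import Pool.Agent.H.MP_e23cd6_ag.AB.F3
import Pool.Agent.H.MP_e23cd6_ag.AB.G2
import Pool.Agent.H.MP_e23cd6_ag.AB.G7d
import Pool.Agent.H.MP_e23cd6_ag.AB.G8

/-!
ABUN G9: in the presence of an invariant Kaehler metric there are no limit fields.
-/

open Set Filter Topology Metric Complex MeasureTheory
open scoped ContDiff

namespace Pool.Agent.H.MP_e23cd6_ag.AB

variable {n : ℕ} {Ω : Dom n} {Γ : Type} [Group Γ]

/-- a basis of the total space -/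
noncomputable def totBasis (n : ℕ) : Module.Basis (Fin n ⊕ Unit) ℂ (E n × ℂ) :=
  (Pi.basisFun ℂ (Fin n)).prod (Module.Basis.singleton Unit ℂ)

theorem no_abelian (A : AffAct Ω Γ) (h : KMet Ω.M) (hinv : InvMet A h)
    (P : Submodule ℝ (Lie A.toBaseAct)) (hP : ∀ δ, ∀ X ∈ P, AdL A.toBaseAct δ X ∈ P)
    (hab : ∀ X ∈ P, ∀ Y ∈ P, brL A.toBaseAct X Y = 0) : P = ⊥ := by
  by_contra hne
  -- a basis of P
  let bs := Module.finBasis ℝ P
  set r : ℕ := Module.finrank ℝ P with hr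
  let X : Fin r → Lie A.toBaseAct := fun j => (bs j : Lie A.toBaseAct)
  have hXP : ∀ j, X j ∈ P := fun j => (bs j).2
  have hind : LinearIndependent ℝ X :=
    bs.linearIndependent.map' P.subtype (Submodule.ker_subtype P)
  have hspan : Submodule.span ℝ (Set.range X) = P := by
    have h1 : Submodule.span ℝ (Set.range bs) = ⊤ := bs.span_eq
    have h2 : Set.range X = P.subtype '' Set.range bs := by
      rw [← Set.range_comp]
      rfl
    rw [h2, Submodule.span_image, h1, Submodule.map_top, Submodule.range_subtype]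
  have hr0 : 0 < r := by
    rw [hr]
    exact Module.finrank_pos_iff_exists_ne_zero.mpr (by
      obtain ⟨x, hx, hx0⟩ := (Submodule.ne_bot_iff P).mp hne
      exact ⟨⟨x, hx⟩, fun h => hx0 (congrArg Subtype.val h)⟩)
  obtain ⟨b1, hb1, hC⟩ := generic_indep A.toBaseAct P hab X hXP hind
  obtain ⟨k, hk, hQ⟩ := Qdet_equiv A.toBaseAct P hP X hind hspan
  have hx1 : (b1, (0 : ℂ)) ∈ Ω.M := ⟨hb1, trivial⟩
  obtain ⟨χ, hχ, hc, hs, hχ0, hχ1, hsum⟩ := exists_chi A hx1
  obtain ⟨u0, hu, -, huk⟩ := exists_u0 A k hk hχ hc hs hsum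
  have hX : ∀ j, DifferentiableOn ℂ ((fun j => (X j).1) j) Ω.D := fun j => (X j).holo
  obtain ⟨c, C, N0, K, hc0, hC0, hK, hKc, hN⟩ := main_ineq A h hinv (totBasis n) k hk hχ hχ0 hc hs
    hsum (X := fun j => (X j).1) hX hb1 hC ⟨0, hr0⟩ hQ hχ1 hu huk
  have hlim := vol_ZN (X := fun j => (X j).1) hX hb1 hC hu.continuousOn hK hKc
  have hlim2 := hlim.const_mul C
  rw [mul_zero] at hlim2
  have h3 : ∀ᶠ N : ℕ in atTop,
      C * (volume (ZN (Qdet Ω fun j => (X j).1) u0 (N : ℝ) ∩ K)).toReal < c :=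
    hlim2.eventually (gt_mem_nhds hc0)
  have h4 : ∀ᶠ N : ℕ in atTop, N0 ≤ (N : ℝ) := by
    obtain ⟨N1, hN1⟩ := exists_nat_ge N0
    filter_upwards [eventually_ge_atTop N1] with N hN'
    exact hN1.trans (by exact_mod_cast hN')
  obtain ⟨N, hN3, hN4⟩ := (h3.and h4).exists
  exact absurd (hN N hN4) (not_le.mpr hN3)

/-- there are no nonzero limit fields -/
theorem no_fields (A : AffAct Ω Γ) (h : KMet Ω.M) (hinv : InvMet A h)
    (X : Lie A.toBaseAct) : X = 0 := by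
  by_contra hX
  obtain ⟨P, hP0, hP, hab⟩ := exists_abelian A ⟨X, hX⟩
  exact hP0 (no_abelian A h hinv P hP hab)

end Pool.Agent.H.MP_e23cd6_ag.AB
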