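import Pool.Agent.H.MP_e23cd6_ag.AB.A3
import Pool.Agent.H.MP_e23cd6_ag.AB.Defs

/-!
ABUN I0: tools for series of holomorphic functions: countability of the group, sums of locally bounded
families of holomorphic functions, mean value inequality for squares.
-/

open Set Filter Topology Metric MeasureTheory

namespace Pool.Agent.H.MP_e23cd6_ag.AB

variable {n : ℕ} {Ω : Dom n} {Γ : Type} [Group Γ]

theorem countable_group (A : AffAct Ω Γ) : Countable Γ := by
  obtain ⟨F, hFc, hFD, hFU, -⟩ := Ω.isOpen.exists_iUnion_isClosed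
  have hK : ∀ j, IsCompact (insert Ω.b0 (F j)) := fun j =>
    (Metric.isCompact_of_isClosed_isBounded (hFc j) (Ω.bdd.subset (hFD j))).insert _
  have hKD : ∀ j, insert Ω.b0 (F j) ⊆ Ω.D := fun j => insert_subset Ω.b0_mem (hFD j)
  have hun : (univ : Set Γ) = ⋃ j : ℕ, ⋃ k : ℕ, {γ | ∃ b ∈ insert Ω.b0 (F j), ∃ z : ℂ,
      ‖z‖ ≤ (k : ℝ) ∧ A.β γ b ∈ insert Ω.b0 (F j) ∧ ‖A.a γ b * z + A.c γ b‖ ≤ (k : ℝ)} := by
    symm
    rw [eq_univ_iff_forall]
    intro γ
    have h1 : A.β γ Ω.b0 ∈ ⋃ j, F j := by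
      rw [hFU]
      exact A.maps γ Ω.b0_mem
    obtain ⟨j, hj⟩ := mem_iUnion.mp h1
    obtain ⟨k, hk⟩ := exists_nat_ge ‖A.c γ Ω.b0‖
    refine mem_iUnion.mpr ⟨j, mem_iUnion.mpr ⟨k, Ω.b0, mem_insert _ _, 0, ?_, mem_insert_of_mem _ hj, ?_⟩⟩
    · simp
    · simpa using hk
  have hc : (univ : Set Γ).Countable := by
    rw [hun]
    exact countable_iUnion fun j => countable_iUnion fun k =>
      (A.pd _ (hKD j) (hK j) k).countable
  exact countable_univ_iff.mp hc

theorem tsum_holo {I : Type} [Countable I] {f : I → E n → ℂ}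
    (hf : ∀ i, DifferentiableOn ℂ (f i) Ω.D)
    (h : ∀ K ⊆ Ω.D, IsCompact K → ∃ C : ℝ, ∀ b ∈ K, ∀ s : Finset I, ∑ i ∈ s, ‖f i b‖ ≤ C) :
    DifferentiableOn ℂ (fun b => ∑' i, f i b) Ω.D := by
  have hsum : ∀ b ∈ Ω.D, Summable (fun i => f i b) := by
    intro b hb
    obtain ⟨C, hC⟩ := h {b} (singleton_subset_iff.mpr hb) isCompact_singleton
    have h1 : Summable (fun i => ‖f i b‖) :=
      summable_of_sum_le (fun i => norm_nonneg _) (fun s => hC b (mem_singleton b) s)
    exact h1.of_norm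
  obtain ⟨s, hs⟩ := Filter.exists_seq_tendsto (atTop : Filter (Finset I))
  obtain ⟨φ, hφ, g, hg, hlim⟩ := montel Ω.isOpen (fun j b => ∑ i ∈ s j, f i b)
    (fun j => DifferentiableOn.fun_sum fun i _ => hf i) (by
      intro K hK hKc
      obtain ⟨C, hC⟩ := h K hK hKc
      exact ⟨C, fun j x hx => (norm_sum_le _ _).trans (hC x hx (s j))⟩)
  refine hg.congr fun b hb => ?_
  have h1 : Tendsto (fun j => ∑ i ∈ s (φ j), f i b) atTop (𝓝 (g b)) := hlim.tendsto_at hb
  have h2 : Tendsto (fun j => ∑ i ∈ s (φ j), f i b) atTop (𝓝 (∑' i, f i b)) :=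
    (hsum b hb).hasSum.comp (hs.comp hφ.tendsto_atTop)
  exact tendsto_nhds_unique h2 h1

/-- multiplication by a complex number of modulus one preserves the volume -/
theorem mp_smul (θ : ℝ) :
    MeasurePreserving (fun w : E n => circleMap 0 1 θ • w) volume volume := by
  have h1 : MeasurePreserving (fun z : ℂ => circleMap 0 1 θ * z) volume volume := by
    have h := (rotation (Circle.exp θ)).measurePreserving
    have e : (fun z : ℂ => circleMap 0 1 θ * z) = ⇑(rotation (Circle.exp θ)) := by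
      funext z
      rw [rotation_apply, Circle.coe_exp, circleMap]
      simp
    rw [e]
    exact h
  exact volume_preserving_pi (fun _ : Fin n => h1)

theorem set_rot {b : E n} {r : ℝ} (g : E n → ℝ) (θ : ℝ) :
    ∫ w in ball (0 : E n) r, g (b + circleMap 0 1 θ • w) = ∫ x in ball b r, g x := by
  have hn : ‖circleMap 0 1 θ‖ = 1 := by simp
  have hne : circleMap 0 1 θ ≠ 0 := by
    intro h0
    rw [h0] at hn
    simp at hn
  have hm : MeasurePreserving (fun w : E n => b + circleMap 0 1 θ • w) volume volume :=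
    (measurePreserving_add_left volume b).comp (mp_smul θ)
  have he : MeasurableEmbedding (fun w : E n => b + circleMap 0 1 θ • w) :=
    (Homeomorph.addLeft b).measurableEmbedding.comp
      (Homeomorph.smulOfNeZero (circleMap 0 1 θ) hne).measurableEmbedding
  have h := hm.setIntegral_preimage_emb he g (ball b r)
  have hp : (fun w : E n => b + circleMap 0 1 θ • w) ⁻¹' ball b r = ball 0 r := by
    ext w
    rw [mem_preimage, mem_ball_iff_norm, add_sub_cancel_left, norm_smul, hn, one_mul,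
      mem_ball_zero_iff]
  rw [hp] at h
  exact h

theorem mean_sq_line {f : E n → ℂ} {b : E n} {r : ℝ}
    (hfo : ∀ x ∈ ball b r, DifferentiableAt ℂ f x)
    {w : E n} (hw : w ∈ ball (0 : E n) r) :
    ‖f b‖ ^ 2 ≤ (2 * Real.pi)⁻¹ * ∫ θ in Ioc (0 : ℝ) (2 * Real.pi),
      ‖f (b + circleMap 0 1 θ • w)‖ ^ 2 := by
  rw [mem_ball_zero_iff] at hw
  have hmem : ∀ ζ ∈ closedBall (0 : ℂ) 1, b + ζ • w ∈ ball b r := by
    intro ζ hζ
    rw [mem_closedBall_zero_iff] at hζ
    rw [mem_ball_iff_norm, add_sub_cancel_left, norm_smul]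
    calc ‖ζ‖ * ‖w‖ ≤ 1 * ‖w‖ := by gcongr
      _ < r := by rwa [one_mul]
  have hd : DiffContOnCl ℂ (fun ζ : ℂ => f (b + ζ • w) ^ 2) (ball 0 |1|) := by
    refine DifferentiableOn.diffContOnCl ?_
    rw [abs_one, closure_ball (0 : ℂ) one_ne_zero]
    intro ζ hζ
    have h1 : DifferentiableAt ℂ f (b + ζ • w) := hfo _ (hmem ζ hζ)
    have h2 : DifferentiableAt ℂ (fun ζ : ℂ => b + ζ • w) ζ := by fun_prop
    exact ((h1.comp ζ h2).pow 2).differentiableWithinAt
  have h1 := DiffContOnCl.circleAverage hd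
  have hpi : (0 : ℝ) < 2 * Real.pi := Real.two_pi_pos
  rw [Real.circleAverage_def, intervalIntegral.integral_of_le hpi.le] at h1
  simp only [zero_smul, add_zero] at h1
  calc ‖f b‖ ^ 2 = ‖f b ^ 2‖ := (norm_pow _ _).symm
    _ = ‖(2 * Real.pi)⁻¹ • ∫ θ in Ioc (0 : ℝ) (2 * Real.pi), f (b + circleMap 0 1 θ • w) ^ 2‖ := by
        rw [h1]
    _ = (2 * Real.pi)⁻¹ * ‖∫ θ in Ioc (0 : ℝ) (2 * Real.pi), f (b + circleMap 0 1 θ • w) ^ 2‖ := by
        rw [norm_smul, Real.norm_of_nonneg (inv_nonneg.mpr hpi.le)]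
    _ ≤ (2 * Real.pi)⁻¹ * ∫ θ in Ioc (0 : ℝ) (2 * Real.pi),
          ‖f (b + circleMap 0 1 θ • w) ^ 2‖ := by
        refine mul_le_mul_of_nonneg_left ?_ (inv_nonneg.mpr hpi.le)
        exact norm_integral_le_integral_norm _
    _ = _ := by
        congr 1
        exact integral_congr_ae (Eventually.of_forall fun θ => norm_pow _ _)

theorem mean_sq {f : E n → ℂ} (hf : DifferentiableOn ℂ f Ω.D) {b : E n} {r : ℝ} (hr : 0 < r)
    (hb : closedBall b r ⊆ Ω.D) :
    ‖f b‖ ^ 2 * (volume (ball b r)).toReal ≤ ∫ x in ball b r, ‖f x‖ ^ 2 := by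
  have hfc : DifferentiableOn ℂ f (closedBall b r) := hf.mono hb
  have hfo : ∀ x ∈ ball b r, DifferentiableAt ℂ f x := fun x hx =>
    hf.differentiableAt (Ω.isOpen.mem_nhds (hb (ball_subset_closedBall hx)))
  have hpi : (0 : ℝ) < 2 * Real.pi := Real.two_pi_pos
  obtain ⟨M, hM⟩ := (isCompact_closedBall b r).exists_bound_of_continuousOn hfc.continuousOn
  -- integrability on the product
  have hcont : ContinuousOn (fun p : ℝ × E n => ‖f (b + circleMap 0 1 p.1 • p.2)‖ ^ 2)
      (Ioc (0 : ℝ) (2 * Real.pi) ×ˢ ball (0 : E n) r) := by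
    have h1 : Continuous (fun p : ℝ × E n => b + circleMap 0 1 p.1 • p.2) := by
      have : Continuous (fun θ : ℝ => circleMap 0 1 θ) := continuous_circleMap 0 1
      fun_prop
    have h2 : MapsTo (fun p : ℝ × E n => b + circleMap 0 1 p.1 • p.2)
        (Ioc (0 : ℝ) (2 * Real.pi) ×ˢ ball (0 : E n) r) (closedBall b r) := by
      rintro ⟨θ, w⟩ ⟨-, hw⟩
      rw [mem_ball_zero_iff] at hw
      rw [mem_closedBall_iff_norm, add_sub_cancel_left, norm_smul]
      simp only [norm_circleMap_zero, abs_one, one_mul]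
      exact hw.le
    exact ((hfc.continuousOn.comp h1.continuousOn h2).norm.pow 2)
  have hmeas : MeasurableSet (Ioc (0 : ℝ) (2 * Real.pi) ×ˢ ball (0 : E n) r) :=
    measurableSet_Ioc.prod measurableSet_ball
  have hint : Integrable (fun p : ℝ × E n => ‖f (b + circleMap 0 1 p.1 • p.2)‖ ^ 2)
      ((volume.restrict (Ioc (0 : ℝ) (2 * Real.pi))).prod (volume.restrict (ball (0 : E n) r))) := by
    rw [Measure.prod_restrict]
    have hfin : IsFiniteMeasure (((volume : Measure ℝ).prod (volume : Measure (E n))).restrict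
        (Ioc (0 : ℝ) (2 * Real.pi) ×ˢ ball (0 : E n) r)) := by
      refine ⟨?_⟩
      rw [Measure.restrict_apply_univ, Measure.prod_prod]
      exact ENNReal.mul_lt_top measure_Ioc_lt_top measure_ball_lt_top
    refine Integrable.of_bound (hcont.aestronglyMeasurable hmeas) (M ^ 2) ?_
    · refine (ae_restrict_iff' hmeas).mpr (Eventually.of_forall ?_)
      rintro ⟨θ, w⟩ ⟨-, hw⟩
      rw [mem_ball_zero_iff] at hw
      have h3 : b + circleMap 0 1 θ • w ∈ closedBall b r := by
        rw [mem_closedBall_iff_norm, add_sub_cancel_left, norm_smul]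
        simp only [norm_circleMap_zero, abs_one, one_mul]
        exact hw.le
      have h4 := hM _ h3
      rw [Real.norm_of_nonneg (by positivity)]
      exact pow_le_pow_left₀ (norm_nonneg _) h4 2
  have hvol : (volume (ball b r)).toReal = (volume (ball (0 : E n) r)).toReal := by
    rw [Measure.addHaar_ball_center]
  have h5 : ‖f b‖ ^ 2 * (volume (ball (0 : E n) r)).toReal =
      ∫ _ in ball (0 : E n) r, ‖f b‖ ^ 2 := by
    rw [setIntegral_const, smul_eq_mul, mul_comm]
    rfl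
  rw [hvol, h5]
  calc ∫ _ in ball (0 : E n) r, ‖f b‖ ^ 2
      ≤ ∫ w in ball (0 : E n) r, (2 * Real.pi)⁻¹ * ∫ θ in Ioc (0 : ℝ) (2 * Real.pi),
          ‖f (b + circleMap 0 1 θ • w)‖ ^ 2 := by
        refine setIntegral_mono_on ?_ ?_ measurableSet_ball
          (fun w hw => mean_sq_line hfo hw)
        · exact integrableOn_const measure_ball_lt_top.ne
        · exact (hint.integral_prod_right).const_mul _
    _ = (2 * Real.pi)⁻¹ * ∫ w in ball (0 : E n) r, ∫ θ in Ioc (0 : ℝ) (2 * Real.pi),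
          ‖f (b + circleMap 0 1 θ • w)‖ ^ 2 := integral_const_mul _ _
    _ = (2 * Real.pi)⁻¹ * ∫ θ in Ioc (0 : ℝ) (2 * Real.pi), ∫ w in ball (0 : E n) r,
          ‖f (b + circleMap 0 1 θ • w)‖ ^ 2 := by
        rw [integral_integral_swap (f := fun (θ : ℝ) (w : E n) =>
          ‖f (b + circleMap 0 1 θ • w)‖ ^ 2) hint]
    _ = (2 * Real.pi)⁻¹ * ∫ _ in Ioc (0 : ℝ) (2 * Real.pi), ∫ x in ball b r, ‖f x‖ ^ 2 := by
        congr 1
        refine integral_congr_ae (Eventually.of_forall fun θ => ?_)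
        exact set_rot (fun x => ‖f x‖ ^ 2) θ
    _ = ∫ x in ball b r, ‖f x‖ ^ 2 := by
        rw [setIntegral_const, smul_eq_mul, Measure.real, Real.volume_Ioc, sub_zero,
          ENNReal.toReal_ofReal hpi.le, ← mul_assoc, inv_mul_cancel₀ hpi.ne', one_mul]

end Pool.Agent.H.MP_e23cd6_ag.AB
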