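import Mathlib

/-!
ABUN I2a: sums of negative powers of a discrete family of complex numbers.

* `I2_count`: if every unit disc contains at most N0 members of a family of complex numbers of modulus at least μ,
  then the finite sums of the (-m)-th powers of the moduli, m ≥ 3, are bounded in terms of N0, μ, m only.
* `I2_ne`: nonvanishing of power sums.
-/

open Set Filter Topology Metric

namespace Pool.Agent.H.MP_e23cd6_ag.AB

/-- comparison function on the lattice -/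
noncomputable def I2G (x : Fin 2 → ℤ) : ℝ := ‖x‖ ^ (-(3 : ℝ)) + if x = 0 then 1 else 0

theorem I2G_nonneg (x : Fin 2 → ℤ) : 0 ≤ I2G x := by
  unfold I2G
  have h1 : 0 ≤ ‖x‖ ^ (-(3 : ℝ)) := Real.rpow_nonneg (norm_nonneg _) _
  split_ifs <;> linarith

theorem I2G_summable : Summable I2G := by
  unfold I2G
  refine (EisensteinSeries.summable_one_div_norm_rpow (by norm_num)).add ?_
  exact summable_of_ne_finset_zero (s := {0}) (fun b hb => if_neg (by simpa using hb))

theorem I2G_ge (x : Fin 2 → ℤ) : ((‖x‖ + 1) ^ 3)⁻¹ ≤ I2G x := by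
  unfold I2G
  by_cases hx : x = 0
  · subst hx
    have h1 : 0 ≤ ‖(0 : Fin 2 → ℤ)‖ ^ (-(3 : ℝ)) := Real.rpow_nonneg (norm_nonneg _) _
    rw [if_pos rfl]
    simp only [norm_zero, zero_add, one_pow, inv_one] at h1 ⊢
    linarith
  · rw [if_neg hx, add_zero]
    have hpos : 0 < ‖x‖ := norm_pos_iff.2 hx
    rw [Real.rpow_neg hpos.le]
    have : ‖x‖ ^ (3 : ℝ) = ‖x‖ ^ 3 := by
      rw [← Real.rpow_natCast]
      norm_num
    rw [this]
    refine inv_anti₀ (by positivity) ?_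
    exact pow_le_pow_left₀ hpos.le (by linarith) 3

/-- lattice point next to a complex number -/
noncomputable def I2r (w : ℂ) : Fin 2 → ℤ := ![round w.re, round w.im]

theorem I2r_close {w w' : ℂ} (h : I2r w = I2r w') : ‖w - w'‖ ≤ 2 := by
  have h0 : round w.re = round w'.re := by
    have := congrFun h 0
    simpa [I2r] using this
  have h1 : round w.im = round w'.im := by
    have := congrFun h 1
    simpa [I2r] using this
  have a1 := abs_sub_round w.re
  have a2 := abs_sub_round w'.re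
  have b1 := abs_sub_round w.im
  have b2 := abs_sub_round w'.im
  rw [h0] at a1
  rw [h1] at b1
  have hre : |(w - w').re| ≤ 1 := by
    rw [Complex.sub_re]
    rw [abs_le] at a1 a2 ⊢
    constructor <;> linarith [a1.1, a1.2, a2.1, a2.2]
  have him : |(w - w').im| ≤ 1 := by
    rw [Complex.sub_im]
    rw [abs_le] at b1 b2 ⊢
    constructor <;> linarith [b1.1, b1.2, b2.1, b2.2]
  calc ‖w - w'‖ ≤ |(w - w').re| + |(w - w').im| := Complex.norm_le_abs_re_add_abs_im _
    _ ≤ 2 := by linarith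

theorem I2r_norm (w : ℂ) : ‖I2r w‖ ≤ ‖w‖ + 1 / 2 := by
  rw [pi_norm_le_iff_of_nonneg (by positivity)]
  intro i
  fin_cases i
  · have a1 := abs_sub_round w.re
    have a2 := Complex.abs_re_le_norm w
    show ‖((![round w.re, round w.im] : Fin 2 → ℤ) 0)‖ ≤ _
    simp only [Matrix.cons_val_zero, Int.norm_eq_abs]
    rw [abs_le] at a1 a2
    rw [abs_le]
    constructor <;> linarith [a1.1, a1.2, a2.1, a2.2]
  · have a1 := abs_sub_round w.im
    have a2 := Complex.abs_im_le_norm w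
    show ‖((![round w.re, round w.im] : Fin 2 → ℤ) 1)‖ ≤ _
    simp only [Matrix.cons_val_one, Matrix.cons_val_fin_one, Int.norm_eq_abs]
    rw [abs_le] at a1 a2
    rw [abs_le]
    constructor <;> linarith [a1.1, a1.2, a2.1, a2.2]

theorem I2_int {x : Fin 2 → ℤ} (h : ‖x‖ < 2) : ‖x‖ ≤ 1 := by
  rw [pi_norm_le_iff_of_nonneg zero_le_one]
  intro i
  have h1 := lt_of_le_of_lt (norm_le_pi_norm x i) h
  rw [Int.norm_eq_abs] at h1 ⊢
  have h2 : |x i| < 2 := by exact_mod_cast h1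
  exact_mod_cast (by omega : |x i| ≤ 1)

theorem I2_term {μ : ℝ} (hμ : 0 < μ) (hμ1 : μ ≤ 1) {m : ℕ} (hm : 3 ≤ m) {w : ℂ} (hw : μ ≤ ‖w‖) :
    ‖(w ^ m)⁻¹‖ ≤ (2 / μ) ^ m * I2G (I2r w) := by
  have hn := I2r_norm w
  have hx0 : 0 ≤ ‖I2r w‖ := norm_nonneg _
  have hkey : μ / 2 * (‖I2r w‖ + 1) ≤ ‖w‖ := by
    rcases le_or_gt 1 ‖w‖ with h1 | h1
    · have h2 : ‖I2r w‖ + 1 ≤ 2 * ‖w‖ + 1 / 2 := by linarith
      -- use the integrality only through the crude bound
      by_cases h3 : 2 ≤ ‖I2r w‖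
      · nlinarith
      · have h4 : ‖I2r w‖ ≤ 1 := I2_int (not_le.1 h3)
        nlinarith
    · have h4 : ‖I2r w‖ ≤ 1 := I2_int (by linarith)
      nlinarith
  have hpos : 0 < μ / 2 * (‖I2r w‖ + 1) := by positivity
  rw [norm_inv, norm_pow]
  calc (‖w‖ ^ m)⁻¹ ≤ ((μ / 2 * (‖I2r w‖ + 1)) ^ m)⁻¹ :=
        inv_anti₀ (by positivity) (pow_le_pow_left₀ hpos.le hkey m)
    _ = (2 / μ) ^ m * ((‖I2r w‖ + 1) ^ m)⁻¹ := by
        rw [mul_pow, mul_inv, ← inv_pow]
        congr 2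
        field_simp
    _ ≤ (2 / μ) ^ m * ((‖I2r w‖ + 1) ^ 3)⁻¹ := by
        refine mul_le_mul_of_nonneg_left ?_ (by positivity)
        refine inv_anti₀ (by positivity) ?_
        exact pow_le_pow_right₀ (by linarith) hm
    _ ≤ (2 / μ) ^ m * I2G (I2r w) := by
        refine mul_le_mul_of_nonneg_left (I2G_ge _) (by positivity)

theorem I2_count {I : Type} {x : I → ℂ} {μ : ℝ} (hμ : 0 < μ) (hμ1 : μ ≤ 1) {N0 : ℕ}
    {m : ℕ} (hm : 3 ≤ m) (s : Finset I) (hx : ∀ i ∈ s, μ ≤ ‖x i‖)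
    (hN : ∀ s' ⊆ s, (∀ i ∈ s', ∀ j ∈ s', ‖x i - x j‖ ≤ 2) → s'.card ≤ N0) :
    ∑ i ∈ s, ‖(x i ^ m)⁻¹‖ ≤ (2 / μ) ^ m * (N0 * ∑' y, I2G y) := by
  classical
  have hstep : ∑ i ∈ s, ‖(x i ^ m)⁻¹‖ ≤ ∑ i ∈ s, (2 / μ) ^ m * I2G (I2r (x i)) :=
    Finset.sum_le_sum (fun i hi => I2_term hμ hμ1 hm (hx i hi))
  refine hstep.trans ?_
  rw [← Finset.mul_sum]
  refine mul_le_mul_of_nonneg_left ?_ (by positivity)
  have h1 := Finset.sum_fiberwise_of_maps_to' (s := s) (t := s.image (fun i => I2r (x i)))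
    (g := fun i => I2r (x i)) (fun i hi => Finset.mem_image_of_mem _ hi) I2G
  rw [← h1]
  have h2 : ∀ y ∈ s.image (fun i => I2r (x i)),
      ∑ i ∈ s with I2r (x i) = y, I2G y ≤ N0 * I2G y := by
    intro y _
    rw [Finset.sum_const, nsmul_eq_mul]
    refine mul_le_mul_of_nonneg_right ?_ (I2G_nonneg y)
    have := hN (s.filter (fun i => I2r (x i) = y)) (Finset.filter_subset _ _) (by
      intro i hi j hj
      rw [Finset.mem_filter] at hi hj
      exact I2r_close (hi.2.trans hj.2.symm))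
    exact_mod_cast this
  refine (Finset.sum_le_sum h2).trans ?_
  rw [← Finset.mul_sum]
  refine mul_le_mul_of_nonneg_left ?_ (by positivity)
  exact I2G_summable.sum_le_tsum _ (fun y _ => I2G_nonneg y)

end Pool.Agent.H.MP_e23cd6_ag.AB
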