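import Mathlib

/-!
ABUN I2b: nonvanishing of power sums of a discrete family of complex numbers.
-/

open Set Filter Topology Metric

namespace Pool.Agent.H.MP_e23cd6_ag.AB

/-- simultaneous recurrence of powers of unit complex numbers -/
theorem I2_recur {J : Type} [Finite J] (u : J → ℂ) (hu : ∀ i, ‖u i‖ = 1) (k0 : ℕ) :
    ∃ j, k0 ≤ j ∧ ∀ i, ‖u i ^ j - 1‖ ≤ 1 / 2 := by
  have := Fintype.ofFinite J
  have hv : ∀ j : ℕ, (fun i => u i ^ j) ∈ closedBall (0 : J → ℂ) 1 := by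
    intro j
    rw [mem_closedBall, dist_zero_right, pi_norm_le_iff_of_nonneg zero_le_one]
    intro i
    rw [norm_pow, hu i, one_pow]
  obtain ⟨a, -, φ, hφ, hlim⟩ := (isCompact_closedBall (0 : J → ℂ) 1).tendsto_subseq hv
  have hc : CauchySeq ((fun j : ℕ => (fun i => u i ^ j : J → ℂ)) ∘ φ) := hlim.cauchySeq
  obtain ⟨K, hK⟩ := Metric.cauchySeq_iff'.1 hc (1 / 2) (by norm_num)
  have hφK : ∀ k, k ≤ φ k := hφ.id_le
  refine ⟨φ (K + φ K + k0) - φ K, ?_, ?_⟩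
  · have := hφK (K + φ K + k0)
    omega
  · intro i
    have h1 := hK (K + φ K + k0) (by omega)
    rw [dist_eq_norm] at h1
    have h2 := lt_of_le_of_lt (norm_le_pi_norm _ i) h1
    have hle : φ K ≤ φ (K + φ K + k0) := hφ.monotone (by omega)
    have h3 : u i ^ φ (K + φ K + k0) - u i ^ φ K
        = u i ^ φ K * (u i ^ (φ (K + φ K + k0) - φ K) - 1) := by
      rw [mul_sub, mul_one, ← pow_add, Nat.add_sub_cancel' hle]
    have h4 : ‖u i ^ φ (K + φ K + k0) - u i ^ φ K‖ < 1 / 2 := h2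
    rw [h3, norm_mul, norm_pow, hu i, one_pow, one_mul] at h4
    exact h4.le

theorem I2_ne {I : Type} {x : I → ℂ} (hne : Nonempty I) (hx : ∀ i, x i ≠ 0)
    (hfin : ∀ R : ℝ, {i | ‖x i‖ ≤ R}.Finite) (hsum : Summable (fun i => ‖(x i ^ 3)⁻¹‖))
    {m0 : ℕ} (hm0 : 0 < m0) (m' : ℕ) :
    ∃ m, m' ≤ m ∧ m0 ∣ m ∧ ∑' i, (x i ^ m)⁻¹ ≠ 0 := by
  classical
  obtain ⟨i0⟩ := hne
  obtain ⟨i1, hi1, hmin⟩ := Set.exists_min_image {i | ‖x i‖ ≤ ‖x i0‖} (fun i => ‖x i‖)
    (hfin _) ⟨i0, le_refl ‖x i0‖⟩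
  have hmin' : ∀ i, ‖x i1‖ ≤ ‖x i‖ := by
    intro i
    rcases le_or_gt ‖x i‖ ‖x i0‖ with h | h
    · exact hmin i h
    · exact (le_trans hi1 h.le)
  set μ : ℝ := ‖x i1‖ with hμdef
  have hμ : 0 < μ := norm_pos_iff.2 (hx i1)
  have hμc : (μ : ℂ) ≠ 0 := by exact_mod_cast hμ.ne'
  set y : I → ℂ := fun i => (μ : ℂ) * (x i)⁻¹ with hy
  have hynorm : ∀ i, ‖y i‖ = μ / ‖x i‖ := by
    intro i
    rw [hy]
    simp only [norm_mul, norm_inv, Complex.norm_real, Real.norm_eq_abs, abs_of_pos hμ]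
    rfl
  have hy1 : ∀ i, ‖y i‖ ≤ 1 := by
    intro i
    rw [hynorm i]
    exact (div_le_one (norm_pos_iff.2 (hx i))).2 (hmin' i)
  have hxy : ∀ i m, (x i ^ m)⁻¹ = ((μ : ℂ) ^ m)⁻¹ * y i ^ m := by
    intro i m
    rw [hy]
    simp only
    rw [mul_pow, ← mul_assoc, inv_mul_cancel₀ (pow_ne_zero m hμc), one_mul, inv_pow]
  have hPfin : {i | ‖x i‖ = μ}.Finite := (hfin μ).subset (fun i hi => le_of_eq hi)
  set P : Finset I := hPfin.toFinset with hPdef
  have hPmem : ∀ i, i ∈ P ↔ ‖x i‖ = μ := by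
    intro i
    rw [hPdef, Set.Finite.mem_toFinset]
    rfl
  have hi1P : i1 ∈ P := (hPmem i1).2 rfl
  have hyP : ∀ i ∈ P, ‖y i‖ = 1 := by
    intro i hi
    rw [hynorm i, (hPmem i).1 hi, div_self hμ.ne']
  have hyN : ∀ i, i ∉ P → ‖y i‖ < 1 := by
    intro i hi
    rw [hynorm i]
    refine (div_lt_one (norm_pos_iff.2 (hx i))).2 ?_
    exact lt_of_le_of_ne (hmin' i) (fun h => hi ((hPmem i).2 h.symm))
  have hsum3 : Summable (fun i => ‖y i‖ ^ 3) := by
    refine (hsum.mul_left (μ ^ 3)).congr (fun i => ?_)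
    rw [norm_inv, norm_pow, hynorm i, div_pow]
    rfl
  have hbound : ∀ m, 3 ≤ m → ∀ i, ‖y i‖ ^ m ≤ ‖y i‖ ^ 3 := by
    intro m hm i
    exact pow_le_pow_of_le_one (norm_nonneg _) (hy1 i) hm
  -- the tail
  set h : ℕ → I → ℂ := fun m i => if i ∈ P then 0 else y i ^ m with hh
  have hhb : ∀ m, 3 ≤ m → ∀ i, ‖h m i‖ ≤ ‖y i‖ ^ 3 := by
    intro m hm i
    rw [hh]
    simp only
    split_ifs with hi
    · rw [norm_zero]
      positivity
    · rw [norm_pow]
      exact hbound m hm i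
  have htail : Tendsto (fun m => ∑' i, h m i) atTop (𝓝 (∑' _ : I, (0 : ℂ))) := by
    refine tendsto_tsum_of_dominated_convergence hsum3 ?_ ?_
    · intro i
      by_cases hi : i ∈ P
      · simp only [hh, if_pos hi]
        exact tendsto_const_nhds
      · simp only [hh, if_neg hi]
        exact tendsto_pow_atTop_nhds_zero_of_norm_lt_one (hyN i hi)
    · filter_upwards [eventually_ge_atTop 3] with m hm i
      exact hhb m hm i
  rw [tsum_zero] at htail
  have hev := (htail.norm.eventually (gt_mem_nhds (by rw [norm_zero]; norm_num :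
    ‖(0 : ℂ)‖ < 1 / 4)))
  obtain ⟨M, hM⟩ := eventually_atTop.1 hev
  obtain ⟨j, hj, hju⟩ := I2_recur (J := P) (fun i => y i.1 ^ m0)
    (fun i => by rw [norm_pow, hyP i.1 i.2, one_pow]) (M + m' + 3)
  have hmj : j ≤ m0 * j := Nat.le_mul_of_pos_left j hm0
  refine ⟨m0 * j, by omega, Dvd.intro _ rfl, ?_⟩
  have hS : Summable (h (m0 * j)) :=
    Summable.of_norm_bounded hsum3 (hhb (m0 * j) (by omega))
  have hfirst : HasSum (fun i => if i ∈ P then y i ^ (m0 * j) else 0)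
      (∑ i ∈ P, if i ∈ P then y i ^ (m0 * j) else 0) :=
    hasSum_sum_of_ne_finset_zero (fun b hb => if_neg hb)
  have htot : ∑' i, y i ^ (m0 * j) = (∑ i ∈ P, y i ^ (m0 * j)) + ∑' i, h (m0 * j) i := by
    have h1 := (hfirst.add hS.hasSum).tsum_eq
    have h2 : (∑ i ∈ P, if i ∈ P then y i ^ (m0 * j) else 0) = ∑ i ∈ P, y i ^ (m0 * j) :=
      Finset.sum_congr rfl (fun i hi => if_pos hi)
    rw [h2] at h1
    rw [← h1]
    refine tsum_congr (fun i => ?_)
    rw [hh]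
    simp only
    split_ifs <;> simp
  have hre : (1 : ℝ) / 2 ≤ (∑ i ∈ P, y i ^ (m0 * j)).re := by
    rw [Complex.re_sum]
    have hterm : ∀ i ∈ P, (1 : ℝ) / 2 ≤ (y i ^ (m0 * j)).re := by
      intro i hi
      have h1 := hju ⟨i, hi⟩
      simp only at h1
      rw [← pow_mul] at h1
      have h2 := (abs_le.1 (Complex.abs_re_le_norm (y i ^ (m0 * j) - 1))).1
      rw [Complex.sub_re, Complex.one_re] at h2
      linarith
    calc (1 : ℝ) / 2 ≤ (y i1 ^ (m0 * j)).re := hterm i1 hi1P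
      _ ≤ ∑ i ∈ P, (y i ^ (m0 * j)).re := by
          refine Finset.single_le_sum (f := fun i => (y i ^ (m0 * j)).re) ?_ hi1P
          intro i hi
          have := hterm i hi
          show 0 ≤ (y i ^ (m0 * j)).re
          linarith
  have hne0 : ∑' i, y i ^ (m0 * j) ≠ 0 := by
    intro h0
    rw [htot] at h0
    have h1 := congrArg Complex.re h0
    rw [Complex.add_re, Complex.zero_re] at h1
    have h2 := hM (m0 * j) (by omega)
    have h3 := (abs_le.1 (Complex.abs_re_le_norm (∑' i, h (m0 * j) i))).1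
    linarith
  intro h0
  apply hne0
  have h1 : ∑' i, (x i ^ (m0 * j))⁻¹ = ((μ : ℂ) ^ (m0 * j))⁻¹ * ∑' i, y i ^ (m0 * j) := by
    rw [← tsum_mul_left]
    exact tsum_congr (fun i => hxy i _)
  rw [h1] at h0
  rcases mul_eq_zero.1 h0 with h2 | h2
  · exact absurd h2 (inv_ne_zero (pow_ne_zero _ hμc))
  · exact h2

end Pool.Agent.H.MP_e23cd6_ag.AB
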