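import Pool.Agent.H.MP_e23cd6_ag.AB.I0
import Pool.Agent.H.MP_e23cd6_ag.AB.I1
import Pool.Agent.H.MP_e23cd6_ag.AB.I2a
import Pool.Agent.H.MP_e23cd6_ag.AB.I2b

/-!
ABUN I2: Eisenstein series.

* `tr_finite`: K ⊆ D compact, R: {t | IsTr t, ∃ b ∈ K, ‖c t b‖ ≤ R} is finite (pd with z = 0).
* `tr_conj`: t IsTr, γ any element: s = γ t γ⁻¹ is IsTr and c s (β γ b) = a γ b * c t b for b ∈ D: compare a, c of s γ = γ t.
* `tr_mul_inv`: for IsTr elements s, t: c (s t⁻¹) b = c s b - c t b, and β = id, a = 1.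
* `eis_bound` (m ≥ 3): K compact. N0 = number of γ with β γ = id on D, a γ = 1 on D, ‖c γ b‖ ≤ 2 for some b ∈ K (finite, by pd with z = 0). Fix
  b ∈ K: each disc of radius 1 in ℂ contains c t b for at most N0 elements t (differences as in tr_mul_inv). μ > 0 a lower bound
  of |c t b| for IsTr t, b ∈ K (finitely many t have |c t b| ≤ 1 somewhere on K; each |c t| has a positive minimum on K; so μ ≤ 1 exists,
  independent of b). So for every finite set s: Σ_{t∈s} |c t b|^{-m} ≤ N0 Σ_{(p,q) ∈ ℤ²} sup over the square of side 1 centred p+iq (covered by a disc of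
  radius 1) of min(μ^{-m}, |w|^{-m}), and this is finite for m ≥ 3. (E.g. for |p|,|q| ≤ k shells max(|p|,|q|) = k ≥ 2 there are ≤ 8k+... squares with |w| ≥ k/2:
  Σ_k 8k (k/2)^{-m} < ∞; the 9 or 25 central squares contribute ≤ 25 μ^{-m}.) The bound is independent of b ∈ K and of s. It suffices to do
  m = 3 and use |c t b|^{-m} ≤ μ^{-(m-3)} |c t b|^{-3}.
* `eis_holo`: `tsum_holo`.
* `eis_trans`: reindex by t ↦ γ t γ⁻¹ (a bijection of TI A with inverse conjugation by γ⁻¹), tr_conj.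
* `eis_ne`: b ∈ D. By tr_finite (K = {b}) |c t b| attains its minimum μ > 0 over TI A (nonempty by hypothesis), at finitely many t_1..t_p,
  c t_i b = μ u_i, |u_i| = 1, all other t have |c t b| ≥ μ' > μ. For m ≥ 3: |μ^m E_m(b) - Σ u_i^{-m}| ≤ Σ_{others} (μ/|c t b|)^m ≤ (μ/μ')^{m-3} Σ (μ/|c t b|)³ → 0.
  Recurrence: the points (u_i^{-m0 j})_i, j ∈ ℕ, lie in a compact torus, so there are arbitrarily large differences j of indices with
  all |u_i^{-m0 j} - 1| ≤ 1/2 (sequential compactness: subsequence Cauchy, differences of indices j' - j → arbitrarily large), then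
  Re Σ u_i^{-m0 j} ≥ p/2 ≥ 1/2. So E_m(b) ≠ 0 for m = m0 j large.
-/

open Set Filter Topology Metric

namespace Pool.Agent.H.MP_e23cd6_ag.AB

variable {n : ℕ} {Ω : Dom n} {Γ : Type} [Group Γ]

/-- index set of the Eisenstein series -/
def TI (A : AffAct Ω Γ) : Type := {t : Γ // IsTr A t}

/-- Eisenstein series -/
noncomputable def eis (A : AffAct Ω Γ) (m : ℕ) (b : E n) : ℂ := ∑' t : TI A, (A.c t.1 b ^ m)⁻¹

theorem tr_conj (A : AffAct Ω Γ) {t : Γ} (ht : IsTr A t) (γ : Γ) :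
    IsTr A (γ * t * γ⁻¹) ∧ ∀ b ∈ Ω.D, A.c (γ * t * γ⁻¹) (A.β γ b) = A.a γ b * A.c t b := by
  obtain ⟨h1, h2, h3⟩ := ht
  have hs : γ * t * γ⁻¹ * γ = γ * t := by group
  have hβ : ∀ b ∈ Ω.D, A.β (γ * t * γ⁻¹) b = b := by
    intro b hb
    rw [A.mul _ _ _ hb, A.mul _ _ _ (A.mem γ⁻¹ hb), h1 _ (A.mem γ⁻¹ hb), A.inv_right γ hb]
  have ha : ∀ b ∈ Ω.D, A.a (γ * t * γ⁻¹) (A.β γ b) = 1 := by
    intro b hb
    have e1 := A.a_mul (γ * t * γ⁻¹) γ b hb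
    rw [hs, A.a_mul γ t b hb, h1 b hb, h2 b hb, mul_one] at e1
    exact (mul_right_cancel₀ (A.a_ne γ b hb) ((one_mul _).trans e1)).symm
  have hc : ∀ b ∈ Ω.D, A.c (γ * t * γ⁻¹) (A.β γ b) = A.a γ b * A.c t b := by
    intro b hb
    have e1 := A.c_mul (γ * t * γ⁻¹) γ b hb
    rw [hs, A.c_mul γ t b hb, h1 b hb, ha b hb, one_mul, add_comm (A.c γ b)] at e1
    exact (add_right_cancel e1).symm
  refine ⟨⟨hβ, ?_, ?_⟩, hc⟩
  · intro b hb
    have := ha _ (A.mem γ⁻¹ hb)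
    rwa [A.inv_right γ hb] at this
  · intro b hb
    have := hc _ (A.mem γ⁻¹ hb)
    rw [A.inv_right γ hb] at this
    rw [this]
    exact mul_ne_zero (A.a_ne γ _ (A.mem γ⁻¹ hb)) (h3 _ (A.mem γ⁻¹ hb))

/-- translation parts subtract -/
theorem tr_mul_inv (A : AffAct Ω Γ) {s t : Γ} (hs : IsTr A s) (ht : IsTr A t) {b : E n}
    (hb : b ∈ Ω.D) : A.β (s * t⁻¹) b = b ∧ A.c (s * t⁻¹) b = A.c s b - A.c t b := by
  obtain ⟨s1, s2, -⟩ := hs
  obtain ⟨t1, t2, -⟩ := ht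
  have hβ : A.β t⁻¹ b = b := by
    have := A.inv_left t hb
    rwa [t1 b hb] at this
  have ha : A.a t⁻¹ b = 1 := by
    have := A.a_mul t⁻¹ t b hb
    rw [inv_mul_cancel, A.a_one b hb, t1 b hb, t2 b hb, mul_one] at this
    exact this.symm
  have hc : A.c t⁻¹ b = -A.c t b := by
    have := A.c_mul t⁻¹ t b hb
    rw [inv_mul_cancel, A.c_one b hb, t1 b hb, ha, one_mul] at this
    linear_combination -this
  refine ⟨?_, ?_⟩
  · rw [A.mul _ _ _ hb, hβ, s1 b hb]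
  · rw [A.c_mul s t⁻¹ b hb, hβ, s2 b hb, one_mul, hc]
    ring

theorem tr_finite (A : AffAct Ω Γ) {K : Set (E n)} (hK : K ⊆ Ω.D) (hKc : IsCompact K) (R : ℝ) :
    {t : TI A | ∃ b ∈ K, ‖A.c t.1 b‖ ≤ R}.Finite := by
  refine ((A.pd K hK hKc R).preimage
    (f := fun t : TI A => t.1) Subtype.val_injective.injOn).subset ?_
  rintro t ⟨b, hb, hR⟩
  refine ⟨b, hb, 0, ?_, ?_, ?_⟩
  · rw [norm_zero]
    exact (norm_nonneg _).trans hR
  · show A.β t.1 b ∈ K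
    rw [t.2.1 b (hK hb)]
    exact hb
  · show ‖A.a t.1 b * 0 + A.c t.1 b‖ ≤ R
    rw [mul_zero, zero_add]
    exact hR

theorem tr_lower (A : AffAct Ω Γ) {K : Set (E n)} (hK : K ⊆ Ω.D) (hKc : IsCompact K) :
    ∃ μ : ℝ, 0 < μ ∧ μ ≤ 1 ∧ ∀ b ∈ K, ∀ t : TI A, μ ≤ ‖A.c t.1 b‖ := by
  classical
  have hone : ∀ t : TI A, ∃ μ : ℝ, 0 < μ ∧ μ ≤ 1 ∧ ∀ b ∈ K, μ ≤ ‖A.c t.1 b‖ := by
    intro t
    rcases K.eq_empty_or_nonempty with h | h
    · exact ⟨1, one_pos, le_refl _, fun b hb => by rw [h] at hb; exact absurd hb (by simp)⟩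
    · obtain ⟨b, hb, hmin⟩ := hKc.exists_isMinOn h
        (((A.c_holo t.1).continuousOn.mono hK).norm)
      refine ⟨min 1 ‖A.c t.1 b‖, lt_min one_pos (norm_pos_iff.2 (t.2.2.2 b (hK hb))),
        min_le_left _ _, fun b' hb' => ?_⟩
      exact (min_le_right _ _).trans (hmin hb')
  have hfin : ∀ T : Finset (TI A), ∃ μ : ℝ, 0 < μ ∧ μ ≤ 1 ∧ ∀ b ∈ K, ∀ t ∈ T,
      μ ≤ ‖A.c t.1 b‖ := by
    intro T
    induction T using Finset.induction_on with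
    | empty => exact ⟨1, one_pos, le_refl _, fun b _ t ht => by simp at ht⟩
    | insert t T _ ih =>
      obtain ⟨μ, h0, h1, h2⟩ := ih
      obtain ⟨ν, k0, k1, k2⟩ := hone t
      refine ⟨min μ ν, lt_min h0 k0, (min_le_left _ _).trans h1, fun b hb s hs => ?_⟩
      rcases Finset.mem_insert.1 hs with h | h
      · subst h
        exact (min_le_right _ _).trans (k2 b hb)
      · exact (min_le_left _ _).trans (h2 b hb s h)
  obtain ⟨μ, h0, h1, h2⟩ := hfin (tr_finite A hK hKc 1).toFinset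
  refine ⟨μ, h0, h1, fun b hb t => ?_⟩
  rcases le_or_gt ‖A.c t.1 b‖ 1 with h | h
  · exact h2 b hb t ((Set.Finite.mem_toFinset _).2 ⟨b, hb, h⟩)
  · exact h1.trans h.le

theorem eis_bound (A : AffAct Ω Γ) {m : ℕ} (hm : 3 ≤ m) {K : Set (E n)} (hK : K ⊆ Ω.D)
    (hKc : IsCompact K) :
    ∃ C : ℝ, ∀ b ∈ K, ∀ s : Finset (TI A), ∑ t ∈ s, ‖(A.c t.1 b ^ m)⁻¹‖ ≤ C := by
  classical
  obtain ⟨μ, hμ, hμ1, hlow⟩ := tr_lower A hK hKc
  have hpd := A.pd K hK hKc 2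
  refine ⟨(2 / μ) ^ m * (hpd.toFinset.card * ∑' y, I2G y), fun b hb s => ?_⟩
  refine I2_count (x := fun t : TI A => A.c t.1 b) hμ hμ1 hm s (fun t _ => hlow b hb t) ?_
  intro s' _ hs'
  rcases s'.eq_empty_or_nonempty with h | ⟨t0, ht0⟩
  · rw [h]
    simp
  · refine Finset.card_le_card_of_injOn (fun t => t.1 * t0.1⁻¹) ?_ ?_
    · intro t ht
      rw [Finset.mem_coe, Set.Finite.mem_toFinset]
      obtain ⟨e1, e2⟩ := tr_mul_inv A t.2 t0.2 (hK hb)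
      refine ⟨b, hb, 0, by rw [norm_zero]; norm_num, ?_, ?_⟩
      · rw [e1]
        exact hb
      · rw [mul_zero, zero_add, e2]
        exact hs' t (Finset.mem_coe.1 ht) t0 ht0
    · intro t _ t' _ h
      exact Subtype.ext (mul_right_cancel h)

theorem eis_holo (A : AffAct Ω Γ) {m : ℕ} (hm : 3 ≤ m) : DifferentiableOn ℂ (eis A m) Ω.D := by
  have : Countable Γ := countable_group A
  have : Countable (TI A) := Subtype.val_injective.countable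
  refine tsum_holo (f := fun (t : TI A) b => (A.c t.1 b ^ m)⁻¹) ?_ ?_
  · intro t
    exact ((A.c_holo t.1).pow m).inv (fun b hb => pow_ne_zero m (t.2.2.2 b hb))
  · intro K hK hKc
    exact eis_bound A hm hK hKc

/-- conjugation acts on the index set -/
def trEquiv (A : AffAct Ω Γ) (γ : Γ) : TI A ≃ TI A where
  toFun t := ⟨γ * t.1 * γ⁻¹, (tr_conj A t.2 γ).1⟩
  invFun t := ⟨γ⁻¹ * t.1 * γ⁻¹⁻¹, (tr_conj A t.2 γ⁻¹).1⟩
  left_inv t := Subtype.ext (by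
    show γ⁻¹ * (γ * t.1 * γ⁻¹) * γ⁻¹⁻¹ = t.1
    group)
  right_inv t := Subtype.ext (by
    show γ * (γ⁻¹ * t.1 * γ⁻¹⁻¹) * γ⁻¹ = t.1
    group)

theorem eis_trans (A : AffAct Ω Γ) (m : ℕ) (γ : Γ) {b : E n} (hb : b ∈ Ω.D) :
    eis A m (A.β γ b) * A.a γ b ^ m = eis A m b := by
  have h1 : eis A m (A.β γ b) = ∑' t : TI A, (A.c (trEquiv A γ t).1 (A.β γ b) ^ m)⁻¹ :=
    ((trEquiv A γ).tsum_eq (fun t : TI A => (A.c t.1 (A.β γ b) ^ m)⁻¹)).symm
  have h2 : ∀ t : TI A, (A.c (trEquiv A γ t).1 (A.β γ b) ^ m)⁻¹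
      = (A.a γ b ^ m)⁻¹ * (A.c t.1 b ^ m)⁻¹ := by
    intro t
    have : A.c (trEquiv A γ t).1 (A.β γ b) = A.a γ b * A.c t.1 b := (tr_conj A t.2 γ).2 b hb
    rw [this, mul_pow, mul_inv]
  rw [h1, tsum_congr h2, tsum_mul_left]
  have h3 : A.a γ b ^ m ≠ 0 := pow_ne_zero m (A.a_ne γ b hb)
  show (A.a γ b ^ m)⁻¹ * eis A m b * A.a γ b ^ m = eis A m b
  field_simp

theorem eis_ne (A : AffAct Ω Γ) (hne : ∃ t, IsTr A t) {b : E n} (hb : b ∈ Ω.D) {m0 : ℕ}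
    (hm0 : 0 < m0) (m' : ℕ) : ∃ m, m' ≤ m ∧ m0 ∣ m ∧ eis A m b ≠ 0 := by
  obtain ⟨t0, ht0⟩ := hne
  have hK : ({b} : Set (E n)) ⊆ Ω.D := by
    intro x hx
    rw [mem_singleton_iff] at hx
    rw [hx]
    exact hb
  obtain ⟨C, hC⟩ := eis_bound A (le_refl 3) hK isCompact_singleton
  refine I2_ne (I := TI A) (x := fun t => A.c t.1 b) ⟨⟨t0, ht0⟩⟩ (fun t => t.2.2.2 b hb) ?_ ?_
    hm0 m'
  · intro R
    exact (tr_finite A hK isCompact_singleton R).subset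
      (fun t ht => ⟨b, mem_singleton b, ht⟩)
  · exact summable_of_sum_le (fun t => norm_nonneg _) (hC b (mem_singleton b))

end Pool.Agent.H.MP_e23cd6_ag.AB
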