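import Pool.Agent.H.MP_e23cd6_ag.AB.I0
import Pool.Agent.H.MP_e23cd6_ag.AB.I1
import Pool.Agent.H.MP_e23cd6_ag.AB.A6

/-!
ABUN I4: Poincaré series on the base.

kerN A is a normal subgroup (β (γ δ γ⁻¹) = id on D for δ ∈ kerN). Index set Γ ⧸ kerN A, representatives q.out. J γ b = det Dβ_γ(b).
If γ⁻¹ δ ∈ kerN A then β γ = β δ on D, so J γ = J δ on D (D open).
* `J_mul`: J (γ δ) b = J γ (β δ b) * J δ b on D (chain rule, det_mul). `J_ne`: J γ b ≠ 0.
* `poin_bound`: K compact in D. r > 0 with K' = cthickening r K ⊆ D. For b ∈ K `mean_sq` for J q: |J q b|² vol(ball b r) ≤ ∫_{ball b r} |J q|² =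
  vol(β_q (ball b r)) (`lintegral/integral_image_eq_integral_abs_det_fderiv_smul`, real determinant = |complex determinant|²,
  β_q injective on D). The sets β_q(ball b r), q ∈ s, are contained in the bounded set D and each point of D lies in at most N0 of
  them, N0 = the number of classes q with β_q K' ∩ K' ≠ ∅ (finite by BasePD: if x ∈ β_q(ball) ∩ β_q'(ball) then q⁻¹ q' is such a class). So
  Σ_{q∈s} |J q b|² vol(ball b r) ≤ N0 vol(D). (vol(ball b r) does not depend on b.)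
* `poin_holo` (m ≥ 2, φ holomorphic on D with |φ| ≤ Cφ on D): |φ(β_q b) J q b^m| ≤ Cφ |J q b|² C^{(m-2)/2}; `tsum_holo`, countability of the quotient
  from `countable_group` (here as a hypothesis [Countable Γ]).
* `poin_trans`: P(β γ b) * J γ b ^ m = P b: J q (β γ b) J γ b = J (q.out γ) b = J ((q * [γ]).out) b and β_{q.out}(β γ b) = β_{q.out γ} b =
  β_{(q*[γ]).out} b; reindex by Equiv.mulRight.
* `poin_ne`: b ∈ D. The set S = {q | |J q b| ≥ 1/2} is finite (poin_bound for {b}). Stab = {q | β_q b = b} is a finite subgroup of Γ ⧸ kerN (BasePD for {b}), w its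
  order (or any positive exponent): J (γ) b ^ w = 1 for γ in the stabilizer (J restricted to the stabilizer is multiplicative, γ^w ∈ kerN), in
  particular |J| = 1 and Stab ⊆ S. Let φ be a polynomial (product of affine linear functions) with φ b = 1, φ(β_q b) = 0 for q ∈ S \ Stab. For m
  multiple of w: P b = |Stab| + Σ_{q∉S} φ(β_q b) J q b^m, the last sum is ≤ Cφ (1/2)^{m-2} Σ|J q b|² < 1/2 for m large. (φ is entire, bounded
  on the bounded set D.)
-/

open Set Filter Topology Metric MeasureTheory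

namespace Pool.Agent.H.MP_e23cd6_ag.AB

variable {n : ℕ} {Ω : Dom n} {Γ : Type} [Group Γ]

/-- Jacobian determinant on the base -/
noncomputable def Jac (A : BaseAct Ω Γ) (γ : Γ) (b : E n) : ℂ := (fderiv ℂ (A.β γ) b).det

instance kerN_normal (A : BaseAct Ω Γ) : (kerN A).Normal where
  conj_mem := by
    intro δ hδ γ b hb
    rw [A.mul _ _ _ hb, A.mul _ _ _ (A.mem _ hb), hδ _ (A.mem _ hb), A.inv_right _ hb]

/-- Poincaré series -/
noncomputable def poin (A : BaseAct Ω Γ) (φ : E n → ℂ) (m : ℕ) (b : E n) : ℂ :=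
  ∑' q : Γ ⧸ kerN A, φ (A.β q.out b) * Jac A q.out b ^ m

theorem I4_hd (A : BaseAct Ω Γ) (γ : Γ) {b : E n} (hb : b ∈ Ω.D) :
    HasFDerivAt (A.β γ) (fderiv ℂ (A.β γ) b) b :=
  ((A.holo γ).differentiableAt (Ω.isOpen.mem_nhds hb)).hasFDerivAt

theorem I4_congr (A : BaseAct Ω Γ) {γ δ : Γ} (h : ∀ b ∈ Ω.D, A.β γ b = A.β δ b) {b : E n}
    (hb : b ∈ Ω.D) : Jac A γ b = Jac A δ b := by
  have h1 : A.β γ =ᶠ[𝓝 b] A.β δ := by
    filter_upwards [Ω.isOpen.mem_nhds hb] with x hx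
    exact h x hx
  unfold Jac
  rw [h1.fderiv_eq]

theorem Jac_mul (A : BaseAct Ω Γ) (γ δ : Γ) {b : E n} (hb : b ∈ Ω.D) :
    Jac A (γ * δ) b = Jac A γ (A.β δ b) * Jac A δ b := by
  have h1 : A.β (γ * δ) =ᶠ[𝓝 b] fun x => A.β γ (A.β δ x) := by
    filter_upwards [Ω.isOpen.mem_nhds hb] with x hx
    exact A.mul γ δ x hx
  have h2 : HasFDerivAt (fun x => A.β γ (A.β δ x))
      ((fderiv ℂ (A.β γ) (A.β δ b)).comp (fderiv ℂ (A.β δ) b)) b :=
    (I4_hd A γ (A.mem δ hb)).comp b (I4_hd A δ hb)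
  unfold Jac
  rw [h1.fderiv_eq, h2.fderiv]
  exact LinearMap.det_comp _ _

theorem Jac_one (A : BaseAct Ω Γ) {b : E n} (hb : b ∈ Ω.D) : Jac A 1 b = 1 := by
  have h1 : A.β 1 =ᶠ[𝓝 b] fun x => x := by
    filter_upwards [Ω.isOpen.mem_nhds hb] with x hx
    exact A.one x hx
  unfold Jac
  rw [h1.fderiv_eq, fderiv_fun_id]
  exact LinearMap.det_id

theorem I4_ker (A : BaseAct Ω Γ) {γ : Γ} (h : γ ∈ kerN A) {b : E n} (hb : b ∈ Ω.D) :
    Jac A γ b = 1 := by
  rw [I4_congr A (γ := γ) (δ := 1) (fun x hx => by rw [h x hx, A.one x hx]) hb, Jac_one A hb]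

theorem Jac_ne (A : BaseAct Ω Γ) (γ : Γ) {b : E n} (hb : b ∈ Ω.D) : Jac A γ b ≠ 0 := by
  have h1 := Jac_mul A γ⁻¹ γ hb
  rw [inv_mul_cancel, Jac_one A hb] at h1
  exact right_ne_zero_of_mul (h1 ▸ one_ne_zero)

theorem I4_out (A : BaseAct Ω Γ) (g : Γ) {b : E n} (hb : b ∈ Ω.D) :
    A.β (Quotient.out (g : Γ ⧸ kerN A)) b = A.β g b := by
  obtain ⟨h, hh⟩ := QuotientGroup.mk_out_eq_mul (kerN A) g
  rw [hh, A.mul _ _ _ hb, h.2 b hb]

theorem I4_Jout (A : BaseAct Ω Γ) (g : Γ) {b : E n} (hb : b ∈ Ω.D) :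
    Jac A (Quotient.out (g : Γ ⧸ kerN A)) b = Jac A g b :=
  I4_congr A (fun x hx => I4_out A g hx) hb

theorem I4_prod {ι : Type} {f : ι → E n → ℂ} {U : Set (E n)} (s : Finset ι)
    (h : ∀ i ∈ s, DifferentiableOn ℂ (f i) U) : DifferentiableOn ℂ (fun b => ∏ i ∈ s, f i b) U := by
  classical
  induction s using Finset.induction_on with
  | empty => exact differentiableOn_const _
  | insert a s ha ih =>
    have h1 : (fun b => ∏ i ∈ insert a s, f i b) = fun b => f a b * ∏ i ∈ s, f i b := by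
      funext b
      rw [Finset.prod_insert ha]
    rw [h1]
    exact (h a (Finset.mem_insert_self a s)).mul
      (ih fun i hi => h i (Finset.mem_insert_of_mem hi))

theorem I4_Jdiff (A : BaseAct Ω Γ) (γ : Γ) : DifferentiableOn ℂ (Jac A γ) Ω.D := by
  have h1 : DifferentiableOn ℂ (fderiv ℂ (A.β γ)) Ω.D := holo_fderiv Ω.isOpen (A.holo γ)
  have h2 : Jac A γ = fun b => ∑ σ : Equiv.Perm (Fin n), (Equiv.Perm.sign σ : ℤ) •
      ∏ i, (fderiv ℂ (A.β γ) b) (Pi.single i 1) (σ i) := by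
    funext b
    unfold Jac
    have h3 : (fderiv ℂ (A.β γ) b).det
        = (LinearMap.toMatrix' ((fderiv ℂ (A.β γ) b) : E n →ₗ[ℂ] E n)).det :=
      (LinearMap.det_toMatrix' _).symm
    rw [h3, Matrix.det_apply]
    refine Finset.sum_congr rfl fun σ _ => ?_
    congr 1
  rw [h2]
  have h4 : ∀ i j : Fin n, DifferentiableOn ℂ
      (fun b => (fderiv ℂ (A.β γ) b) (Pi.single i 1) j) Ω.D := by
    intro i j
    have h5 : DifferentiableOn ℂ (fun b => (fderiv ℂ (A.β γ) b) (Pi.single i 1)) Ω.D :=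
      h1.clm_apply (differentiableOn_const _)
    exact (differentiableOn_pi.mp h5) j
  refine DifferentiableOn.fun_sum fun σ _ => ?_
  refine DifferentiableOn.const_smul ?_ _
  exact I4_prod Finset.univ fun i _ => h4 i (σ i)

theorem poin_trans (A : BaseAct Ω Γ) (φ : E n → ℂ) (m : ℕ) (γ : Γ) {b : E n} (hb : b ∈ Ω.D) :
    poin A φ m (A.β γ b) * Jac A γ b ^ m = poin A φ m b := by
  unfold poin
  rw [← tsum_mul_right, ← Equiv.tsum_eq (Equiv.mulRight ((γ : Γ) : Γ ⧸ kerN A))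
    (fun q => φ (A.β q.out b) * Jac A q.out b ^ m)]
  refine tsum_congr fun q => ?_
  have h1 : (Equiv.mulRight ((γ : Γ) : Γ ⧸ kerN A)) q = ((q.out * γ : Γ) : Γ ⧸ kerN A) := by
    show q * (γ : Γ ⧸ kerN A) = _
    rw [QuotientGroup.mk_mul, QuotientGroup.out_eq']
  rw [h1, I4_out A _ hb, I4_Jout A _ hb, A.mul _ _ _ hb, Jac_mul A _ _ hb, mul_pow, mul_assoc]

theorem I4_image (A : BaseAct Ω Γ) (γ : Γ) {B : Set (E n)} (hB : IsOpen B) (hBD : B ⊆ Ω.D) :
    IsOpen (A.β γ '' B) ∧ A.β γ '' B ⊆ Ω.D := by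
  have h1 : A.β γ '' B = Ω.D ∩ A.β γ⁻¹ ⁻¹' B := by
    ext x
    constructor
    · rintro ⟨y, hy, rfl⟩
      refine ⟨A.mem γ (hBD hy), ?_⟩
      show A.β γ⁻¹ (A.β γ y) ∈ B
      rw [A.inv_left γ (hBD hy)]
      exact hy
    · rintro ⟨hx, hx2⟩
      exact ⟨A.β γ⁻¹ x, hx2, A.inv_right γ hx⟩
  refine ⟨?_, ?_⟩
  · rw [h1]
    exact (A.holo γ⁻¹).continuousOn.isOpen_inter_preimage Ω.isOpen hB
  · rw [h1]
    exact Set.inter_subset_left

theorem I4_vol (A : BaseAct Ω Γ) (γ : Γ) {b : E n} {r : ℝ} (hr : 0 < r)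
    (hb : closedBall b r ⊆ Ω.D) :
    ‖Jac A γ b‖ ^ 2 * (volume (ball b r)).toReal ≤ (volume (A.β γ '' ball b r)).toReal := by
  have h1 := mean_sq (I4_Jdiff A γ) hr hb
  have hBD : ball b r ⊆ Ω.D := ball_subset_closedBall.trans hb
  have h2 := integral_image_eq_integral_abs_det_fderiv_smul (volume : Measure (E n))
    (s := ball b r) (f := A.β γ)
    (f' := fun x => (fderiv ℂ (A.β γ) x).restrictScalars ℝ) measurableSet_ball
    (fun x hx => ((I4_hd A γ (hBD hx)).restrictScalars ℝ).hasFDerivWithinAt)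
    (fun x hx y hy hxy => by
      have h3 := congrArg (A.β γ⁻¹) hxy
      rwa [A.inv_left γ (hBD hx), A.inv_left γ (hBD hy)] at h3)
    (fun _ => (1 : ℝ))
  have h4 : ∀ x, |((fderiv ℂ (A.β γ) x).restrictScalars ℝ).det| • (1 : ℝ) = ‖Jac A γ x‖ ^ 2 := by
    intro x
    have h5 : ((fderiv ℂ (A.β γ) x).restrictScalars ℝ).det
        = Algebra.norm ℝ (fderiv ℂ (A.β γ) x).det :=
      LinearMap.det_restrictScalars (R := ℝ) (S := ℂ)
        (f := ((fderiv ℂ (A.β γ) x) : E n →ₗ[ℂ] E n))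
    rw [h5, Algebra.norm_complex_apply, abs_of_nonneg (Complex.normSq_nonneg _),
      Complex.normSq_eq_norm_sq, smul_eq_mul, mul_one]
    rfl
  simp only [h4] at h2
  rw [setIntegral_const, smul_eq_mul, mul_one] at h2
  rw [← h2] at h1
  exact h1

theorem I4_mult (A : BaseAct Ω Γ) {F : Set Γ} (hF : F.Finite) {K' : Set (E n)} (hK' : K' ⊆ Ω.D)
    (hF2 : ∀ γ, (∃ b ∈ K', A.β γ b ∈ K') → ∃ δ ∈ F, ∀ b ∈ Ω.D, A.β γ b = A.β δ b)
    (s : Finset (Γ ⧸ kerN A)) (x : E n) (hs : ∀ q ∈ s, x ∈ A.β q.out '' K') :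
    s.card ≤ hF.toFinset.card := by
  classical
  rcases s.eq_empty_or_nonempty with h0 | ⟨q0, hq0⟩
  · rw [h0, Finset.card_empty]
    exact Nat.zero_le _
  obtain ⟨y0, hy0, hxy0⟩ := hs q0 hq0
  have hx : x ∈ Ω.D := by
    rw [← hxy0]
    exact A.mem _ (hK' hy0)
  have h1 : ∀ q ∈ s, ∃ δ ∈ F, ∀ b ∈ Ω.D, A.β (q.out⁻¹ * q0.out) b = A.β δ b := by
    intro q hq
    refine hF2 _ ⟨y0, hy0, ?_⟩
    obtain ⟨y, hy, hxy⟩ := hs q hq
    rw [A.mul _ _ _ (hK' hy0), hxy0, ← hxy, A.inv_left _ (hK' hy)]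
    exact hy
  choose! f hf using h1
  refine Finset.card_le_card_of_injOn f (fun q hq => ?_) ?_
  · rw [Finset.mem_coe, Set.Finite.mem_toFinset]
    exact (hf q hq).1
  · intro q hq q' hq' hqq
    have h2 := (hf q hq).2
    have h3 := (hf q' hq').2
    have hqq' : f q = f q' := hqq
    have h4 : q.out⁻¹ * q'.out ∈ kerN A := by
      intro z hz
      have hz1 : A.β q'.out z ∈ Ω.D := A.mem _ hz
      have hw : A.β q0.out⁻¹ (A.β q'.out z) ∈ Ω.D := A.mem _ hz1
      have h5 : A.β (q.out⁻¹ * q0.out) (A.β q0.out⁻¹ (A.β q'.out z))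
          = A.β (q'.out⁻¹ * q0.out) (A.β q0.out⁻¹ (A.β q'.out z)) := by
        rw [h2 _ hw, h3 _ hw, hqq']
      rw [A.mul _ _ _ hw, A.mul _ _ _ hw, A.inv_right _ hz1, A.inv_left _ hz] at h5
      rw [A.mul _ _ _ hz]
      exact h5
    have h6 := QuotientGroup.eq.mpr h4
    rwa [QuotientGroup.out_eq', QuotientGroup.out_eq'] at h6

theorem poin_bound (A : BaseAct Ω Γ) (hpd : BasePD A) {K : Set (E n)} (hK : K ⊆ Ω.D)
    (hKc : IsCompact K) :
    ∃ C : ℝ, ∀ b ∈ K, ∀ s : Finset (Γ ⧸ kerN A), ∑ q ∈ s, ‖Jac A q.out b‖ ^ 2 ≤ C := by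
  classical
  obtain ⟨r, hr, hrK⟩ := hKc.exists_cthickening_subset_open Ω.isOpen hK
  obtain ⟨F, hF, hF2⟩ := hpd _ hrK hKc.cthickening
  have hDfin : volume Ω.D ≠ ⊤ := Ω.bdd.measure_lt_top.ne
  have hv0 : 0 < (volume (ball (0 : E n) r)).toReal :=
    ENNReal.toReal_pos (measure_ball_pos volume _ hr).ne' measure_ball_lt_top.ne
  refine ⟨hF.toFinset.card * (volume Ω.D).toReal / (volume (ball (0 : E n) r)).toReal, ?_⟩
  intro b hb s
  rw [le_div_iff₀ hv0, Finset.sum_mul]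
  have hcb : closedBall b r ⊆ cthickening r K := closedBall_subset_cthickening hb r
  have hBD : ball b r ⊆ Ω.D := ball_subset_closedBall.trans (hcb.trans hrK)
  have h1 : ∀ q ∈ s, ‖Jac A q.out b‖ ^ 2 * (volume (ball (0 : E n) r)).toReal
      ≤ (volume (A.β q.out '' ball b r)).toReal := by
    intro q _
    have h2 := I4_vol A q.out hr (hcb.trans hrK)
    rwa [Measure.addHaar_ball_center] at h2
  refine (Finset.sum_le_sum h1).trans ?_
  have hfin : ∀ q ∈ s, volume (A.β q.out '' ball b r) ≠ ⊤ := by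
    intro q _
    exact ((measure_mono (I4_image A q.out isOpen_ball hBD).2).trans_lt hDfin.lt_top).ne
  rw [← ENNReal.toReal_sum hfin]
  have h3 : ∑ q ∈ s, volume (A.β q.out '' ball b r) ≤ hF.toFinset.card * volume Ω.D := by
    have h4 : ∀ q ∈ s, volume (A.β q.out '' ball b r)
        = ∫⁻ x in Ω.D, (A.β q.out '' ball b r).indicator 1 x := by
      intro q _
      have h5 := I4_image A q.out isOpen_ball hBD
      rw [lintegral_indicator_one h5.1.measurableSet, Measure.restrict_apply h5.1.measurableSet,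
        Set.inter_eq_left.mpr h5.2]
    rw [Finset.sum_congr rfl h4, ← lintegral_finsetSum]
    · have h6 : ∀ x, ∑ q ∈ s, (A.β q.out '' ball b r).indicator (1 : E n → ENNReal) x
          ≤ (hF.toFinset.card : ENNReal) := by
        intro x
        have h7 : ∑ q ∈ s, (A.β q.out '' ball b r).indicator (1 : E n → ENNReal) x
            = ((s.filter fun q => x ∈ A.β q.out '' ball b r).card : ENNReal) := by
          rw [Finset.card_filter, Nat.cast_sum]
          refine Finset.sum_congr rfl fun q _ => ?_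
          by_cases hx : x ∈ A.β q.out '' ball b r
          · rw [Set.indicator_of_mem hx, if_pos hx]
            simp
          · rw [Set.indicator_of_notMem hx, if_neg hx]
            simp
        rw [h7]
        have h8 := I4_mult A hF hrK hF2 (s.filter fun q => x ∈ A.β q.out '' ball b r) x
          (fun q hq => Set.image_mono (ball_subset_closedBall.trans hcb)
            (Finset.mem_filter.mp hq).2)
        exact_mod_cast h8
      refine (lintegral_mono h6).trans ?_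
      rw [lintegral_const, Measure.restrict_apply_univ]
    · intro q _
      exact measurable_one.indicator (I4_image A q.out isOpen_ball hBD).1.measurableSet
  have h9 := ENNReal.toReal_mono (ENNReal.mul_ne_top (ENNReal.natCast_ne_top _) hDfin) h3
  rwa [ENNReal.toReal_mul, ENNReal.toReal_natCast] at h9

theorem I4_phi_bound (Ω : Dom n) {φ : E n → ℂ} (hφ : Differentiable ℂ φ) :
    ∃ Cφ : ℝ, 0 ≤ Cφ ∧ ∀ b ∈ Ω.D, ‖φ b‖ ≤ Cφ := by
  have h1 : IsCompact (closure Ω.D) := Ω.bdd.isCompact_closure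
  obtain ⟨C, hC⟩ := h1.exists_bound_of_continuousOn hφ.continuous.continuousOn
  exact ⟨C, (norm_nonneg _).trans (hC _ (subset_closure Ω.b0_mem)), fun b hb =>
    hC b (subset_closure hb)⟩

theorem poin_holo [Countable Γ] (A : BaseAct Ω Γ) (hpd : BasePD A) {φ : E n → ℂ}
    (hφ : Differentiable ℂ φ) {m : ℕ} (hm : 2 ≤ m) : DifferentiableOn ℂ (poin A φ m) Ω.D := by
  obtain ⟨Cφ, hCφ, hφD⟩ := I4_phi_bound Ω hφ
  have hcount : Countable (Γ ⧸ kerN A) := QuotientGroup.mk_surjective.countable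
  refine tsum_holo (f := fun (q : Γ ⧸ kerN A) b => φ (A.β q.out b) * Jac A q.out b ^ m)
    (fun q => ?_) ?_
  · exact (hφ.comp_differentiableOn (A.holo q.out)).mul ((I4_Jdiff A q.out).pow m)
  · intro K hK hKc
    obtain ⟨C, hC⟩ := poin_bound A hpd hK hKc
    refine ⟨Cφ * ((max 1 C) ^ (m - 2) * C), fun b hb s => ?_⟩
    have h1 : ∀ q : Γ ⧸ kerN A, ‖Jac A q.out b‖ ≤ max 1 C := by
      intro q
      have h2 := hC b hb {q}
      rw [Finset.sum_singleton] at h2
      rcases le_total ‖Jac A q.out b‖ 1 with h3 | h3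
      · exact h3.trans (le_max_left _ _)
      · refine le_trans ?_ (le_max_right 1 C)
        nlinarith
    have h4 : ∀ q ∈ s, ‖φ (A.β q.out b) * Jac A q.out b ^ m‖
        ≤ Cφ * ((max 1 C) ^ (m - 2) * ‖Jac A q.out b‖ ^ 2) := by
      intro q _
      rw [norm_mul, norm_pow]
      refine mul_le_mul (hφD _ (A.mem _ (hK hb))) ?_ (by positivity) hCφ
      have h5 : ‖Jac A q.out b‖ ^ m = ‖Jac A q.out b‖ ^ (m - 2) * ‖Jac A q.out b‖ ^ 2 := by
        rw [← pow_add]
        congr 1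
        omega
      rw [h5]
      exact mul_le_mul_of_nonneg_right (pow_le_pow_left₀ (norm_nonneg _) (h1 q) _) (by positivity)
    refine (Finset.sum_le_sum h4).trans ?_
    rw [← Finset.mul_sum, ← Finset.mul_sum]
    refine mul_le_mul_of_nonneg_left ?_ hCφ
    exact mul_le_mul_of_nonneg_left (hC b hb s) (by positivity)

theorem I4_pow (A : BaseAct Ω Γ) {γ : Γ} {b : E n} (hb : b ∈ Ω.D) (h : A.β γ b = b) (j : ℕ) :
    A.β (γ ^ j) b = b ∧ Jac A (γ ^ j) b = Jac A γ b ^ j := by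
  induction j with
  | zero =>
    rw [pow_zero, pow_zero]
    exact ⟨A.one b hb, Jac_one A hb⟩
  | succ j ih =>
    rw [pow_succ, pow_succ]
    refine ⟨?_, ?_⟩
    · rw [A.mul _ _ _ hb, h, ih.1]
    · rw [Jac_mul A _ _ hb, h, ih.2]

/-- the Jacobians at fixed points are roots of unity of bounded order -/
theorem I4_root (A : BaseAct Ω Γ) (hpd : BasePD A) {b : E n} (hb : b ∈ Ω.D) :
    ∃ w : ℕ, 0 < w ∧ ∀ γ, A.β γ b = b → Jac A γ b ^ w = 1 := by
  classical
  obtain ⟨F, hF, hF2⟩ := hpd {b} (Set.singleton_subset_iff.mpr hb) isCompact_singleton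
  refine ⟨(hF.toFinset.card).factorial, Nat.factorial_pos _, fun γ hγ => ?_⟩
  have h1 : ∀ j : ℕ, ∃ δ ∈ F, ∀ x ∈ Ω.D, A.β (γ ^ j) x = A.β δ x := fun j =>
    hF2 _ ⟨b, rfl, (I4_pow A hb hγ j).1⟩
  choose f hf hf2 using h1
  have h2 : ∃ i ∈ Finset.range (hF.toFinset.card + 1), ∃ j ∈ Finset.range (hF.toFinset.card + 1),
      i ≠ j ∧ f i = f j := by
    refine Finset.exists_ne_map_eq_of_card_lt_of_maps_to (t := hF.toFinset) ?_ ?_
    · rw [Finset.card_range]
      exact Nat.lt_succ_self _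
    · intro i _
      rw [Finset.mem_coe, Set.Finite.mem_toFinset]
      exact hf i
  have h3 : ∃ i j : ℕ, i < j ∧ j ≤ hF.toFinset.card ∧ f i = f j := by
    obtain ⟨i, hi, j, hj, hij, hfij⟩ := h2
    rw [Finset.mem_range] at hi hj
    rcases lt_or_gt_of_ne hij with h | h
    · exact ⟨i, j, h, by omega, hfij⟩
    · exact ⟨j, i, h, by omega, hfij.symm⟩
  obtain ⟨i, j, hij, hjc, hfij⟩ := h3
  have h4 : ∀ x ∈ Ω.D, A.β (γ ^ i) x = A.β (γ ^ j) x := fun x hx => by
    rw [hf2 i x hx, hf2 j x hx, hfij]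
  have h5 : Jac A γ b ^ i = Jac A γ b ^ j := by
    rw [← (I4_pow A hb hγ i).2, ← (I4_pow A hb hγ j).2]
    exact I4_congr A h4 hb
  have h6 : Jac A γ b ^ (j - i) = 1 := by
    have h7 : Jac A γ b ^ j = Jac A γ b ^ i * Jac A γ b ^ (j - i) := by
      rw [← pow_add]
      congr 1
      omega
    rw [← h5] at h7
    have h8 : Jac A γ b ^ i ≠ 0 := pow_ne_zero _ (Jac_ne A γ hb)
    exact (mul_left_cancel₀ h8 (by rw [mul_one]; exact h7)).symm
  have h9 : (j - i) ∣ (hF.toFinset.card).factorial :=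
    Nat.dvd_factorial (by omega) (by omega)
  obtain ⟨d, hd⟩ := h9
  rw [hd, pow_mul, h6, one_pow]

/-- polynomials separating a point from finitely many others -/
theorem I4_sep {b : E n} (T : Finset (E n)) (hT : b ∉ T) :
    ∃ φ : E n → ℂ, Differentiable ℂ φ ∧ φ b = 1 ∧ ∀ x ∈ T, φ x = 0 := by
  classical
  induction T using Finset.induction_on with
  | empty => exact ⟨fun _ => 1, differentiable_const _, rfl, fun x hx => absurd hx (Finset.notMem_empty x)⟩
  | insert a s _ ih =>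
    obtain ⟨φ, h1, h2, h3⟩ := ih fun h => hT (Finset.mem_insert_of_mem h)
    have hab : b ≠ a := fun h => hT (h ▸ Finset.mem_insert_self a s)
    obtain ⟨i, hi⟩ := Function.ne_iff.mp hab
    have hi' : b i - a i ≠ 0 := sub_ne_zero.mpr hi
    refine ⟨fun x => φ x * ((x i - a i) * (b i - a i)⁻¹), ?_, ?_, ?_⟩
    · have h4 : Differentiable ℂ fun x : E n => x i := differentiable_apply i
      exact h1.mul ((h4.sub_const _).mul_const _)
    · show φ b * ((b i - a i) * (b i - a i)⁻¹) = 1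
      rw [h2, mul_inv_cancel₀ hi', mul_one]
    · intro x hx
      show φ x * ((x i - a i) * (b i - a i)⁻¹) = 0
      rcases Finset.mem_insert.mp hx with h | h
      · rw [h, sub_self, zero_mul, mul_zero]
      · rw [h3 x h, zero_mul]

theorem poin_ne (A : BaseAct Ω Γ) (hpd : BasePD A) {b : E n} (hb : b ∈ Ω.D) :
    ∃ (w m' : ℕ) (φ : E n → ℂ), 0 < w ∧ Differentiable ℂ φ ∧
      ∀ m, m' ≤ m → w ∣ m → poin A φ m b ≠ 0 := by
  classical
  obtain ⟨C, hC⟩ := poin_bound A hpd (Set.singleton_subset_iff.mpr hb) isCompact_singleton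
  have hCb := hC b rfl
  have hC0 : 0 ≤ C := by simpa using hCb ∅
  obtain ⟨w, hw, hwr⟩ := I4_root A hpd hb
  have hsum : Summable fun q : Γ ⧸ kerN A => ‖Jac A q.out b‖ ^ 2 :=
    summable_of_sum_le (fun q => by positivity) hCb
  have htsum : ∑' q : Γ ⧸ kerN A, ‖Jac A q.out b‖ ^ 2 ≤ C := hsum.tsum_le_of_sum_le hCb
  have hSfin : {q : Γ ⧸ kerN A | 1 / 2 ≤ ‖Jac A q.out b‖}.Finite := by
    have h1 := hsum.tendsto_cofinite_zero
    have h2 : ∀ᶠ q : Γ ⧸ kerN A in cofinite, ‖Jac A q.out b‖ ^ 2 < 1 / 4 :=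
      h1.eventually (gt_mem_nhds (by norm_num))
    rw [Filter.eventually_cofinite] at h2
    refine h2.subset fun q hq => ?_
    have hq' : 1 / 2 ≤ ‖Jac A q.out b‖ := hq
    show ¬ ‖Jac A q.out b‖ ^ 2 < 1 / 4
    rw [not_lt]
    nlinarith
  have hstab : ∀ q : Γ ⧸ kerN A, A.β q.out b = b → ‖Jac A q.out b‖ = 1 := by
    intro q hq
    have h1 := congrArg norm (hwr _ hq)
    rw [norm_pow, norm_one] at h1
    exact (pow_eq_one_iff_of_nonneg (norm_nonneg _) hw.ne').mp h1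
  set T : Finset (E n) := (hSfin.toFinset.image fun q => A.β q.out b).erase b with hTdef
  obtain ⟨φ, hφ, hφb, hφT⟩ := I4_sep T (Finset.notMem_erase b _)
  obtain ⟨Cφ, hCφ, hφD⟩ := I4_phi_bound Ω hφ
  obtain ⟨k, hk⟩ := exists_pow_lt_of_lt_one (x := 1 / (2 * (Cφ * C + 1)))
    (y := (1 / 2 : ℝ)) (by positivity) (by norm_num)
  refine ⟨w, k + 2, φ, hw, hφ, fun m hm hwm => ?_⟩
  set a : Γ ⧸ kerN A → ℂ := fun q => if A.β q.out b = b then 1 else 0 with ha
  set R : Γ ⧸ kerN A → ℂ := fun q => φ (A.β q.out b) * Jac A q.out b ^ m with hR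
  have hafin : {q : Γ ⧸ kerN A | A.β q.out b = b}.Finite := by
    refine hSfin.subset fun q hq => ?_
    show 1 / 2 ≤ ‖Jac A q.out b‖
    rw [hstab q hq]
    norm_num
  have hbound : ∀ q, ‖R q - a q‖ ≤ Cφ * (1 / 2) ^ (m - 2) * ‖Jac A q.out b‖ ^ 2 := by
    intro q
    by_cases hq : A.β q.out b = b
    · have h1 : R q - a q = 0 := by
        obtain ⟨d, hd⟩ := hwm
        rw [hR, ha]
        show φ (A.β q.out b) * Jac A q.out b ^ m - (if A.β q.out b = b then 1 else 0) = 0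
        rw [if_pos hq, hq, hφb, hd, pow_mul, hwr _ hq, one_pow, mul_one, sub_self]
      rw [h1, norm_zero]
      positivity
    · have h2 : a q = 0 := if_neg hq
      rw [h2, sub_zero]
      by_cases hS : 1 / 2 ≤ ‖Jac A q.out b‖
      · have h3 : φ (A.β q.out b) = 0 := by
          apply hφT
          rw [hTdef, Finset.mem_erase]
          refine ⟨hq, Finset.mem_image.mpr ⟨q, ?_, rfl⟩⟩
          rw [Set.Finite.mem_toFinset]
          exact hS
        have h4 : R q = 0 := by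
          show φ (A.β q.out b) * Jac A q.out b ^ m = 0
          rw [h3, zero_mul]
        rw [h4, norm_zero]
        positivity
      · have hS' : ‖Jac A q.out b‖ ≤ 1 / 2 := le_of_lt (not_le.mp hS)
        show ‖φ (A.β q.out b) * Jac A q.out b ^ m‖ ≤ _
        rw [norm_mul, norm_pow, mul_assoc]
        refine mul_le_mul (hφD _ (A.mem _ hb)) ?_ (by positivity) hCφ
        have h5 : ‖Jac A q.out b‖ ^ m = ‖Jac A q.out b‖ ^ (m - 2) * ‖Jac A q.out b‖ ^ 2 := by
          rw [← pow_add]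
          congr 1
          omega
        rw [h5]
        exact mul_le_mul_of_nonneg_right (pow_le_pow_left₀ (norm_nonneg _) hS' _)
          (by positivity)
  have hsum2 : Summable fun q : Γ ⧸ kerN A => Cφ * (1 / 2) ^ (m - 2) * ‖Jac A q.out b‖ ^ 2 :=
    hsum.mul_left _
  have hsd : Summable fun q => R q - a q := Summable.of_norm_bounded hsum2 hbound
  have hsa : Summable a := by
    refine summable_of_hasFiniteSupport (hafin.subset fun q hq => ?_)
    by_contra hn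
    exact hq (if_neg hn)
  have hd : ‖∑' q, (R q - a q)‖ ≤ 1 / 2 := by
    refine (tsum_of_norm_bounded hsum2.hasSum hbound).trans ?_
    rw [tsum_mul_left]
    have h6 : (1 / 2 : ℝ) ^ (m - 2) ≤ (1 / 2) ^ k :=
      pow_le_pow_of_le_one (by norm_num) (by norm_num) (by omega)
    have h7 : (1 / 2 : ℝ) ^ (m - 2) ≤ 1 / (2 * (Cφ * C + 1)) := h6.trans hk.le
    have h8 : 0 < 2 * (Cφ * C + 1) := by positivity
    rw [le_div_iff₀ h8] at h7
    have h9 : 0 ≤ (1 / 2 : ℝ) ^ (m - 2) := by positivity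
    calc Cφ * (1 / 2) ^ (m - 2) * ∑' q : Γ ⧸ kerN A, ‖Jac A q.out b‖ ^ 2
        ≤ Cφ * (1 / 2) ^ (m - 2) * C := mul_le_mul_of_nonneg_left htsum (by positivity)
      _ ≤ 1 / 2 := by nlinarith
  have hasum : ∑' q, a q = ((hafin.toFinset.card : ℕ) : ℂ) := by
    rw [tsum_eq_sum (s := hafin.toFinset)]
    · have h1 : ∀ q ∈ hafin.toFinset, a q = 1 := fun q hq =>
        if_pos ((Set.Finite.mem_toFinset hafin).mp hq)
      rw [Finset.sum_congr rfl h1, Finset.sum_const, nsmul_eq_mul, mul_one]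
    · intro q hq
      exact if_neg fun h => hq ((Set.Finite.mem_toFinset hafin).mpr h)
  have hcard : 1 ≤ hafin.toFinset.card := by
    refine Finset.card_pos.mpr ⟨((1 : Γ) : Γ ⧸ kerN A), ?_⟩
    rw [Set.Finite.mem_toFinset]
    show A.β (Quotient.out ((1 : Γ) : Γ ⧸ kerN A)) b = b
    rw [I4_out A 1 hb, A.one b hb]
  have hP : poin A φ m b = ∑' q, a q + ∑' q, (R q - a q) := by
    rw [← hsa.tsum_add hsd]
    refine tsum_congr fun q => ?_
    show R q = a q + (R q - a q)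
    ring
  intro h0
  rw [hP, hasum] at h0
  have h1 : ((hafin.toFinset.card : ℕ) : ℂ) = - ∑' q, (R q - a q) := eq_neg_of_add_eq_zero_left h0
  have h2 := congrArg norm h1
  rw [norm_neg, Complex.norm_natCast] at h2
  have h3 : (1 : ℝ) ≤ hafin.toFinset.card := by exact_mod_cast hcard
  linarith

end Pool.Agent.H.MP_e23cd6_ag.AB
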