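import Pool.Agent.H.MP_e23cd6_ag.AB.I2
import Pool.Agent.H.MP_e23cd6_ag.AB.I4

/-!
ABUN I6: global generation by products of Poincaré and Eisenstein series.
-/

open Set Filter Topology Metric

namespace Pool.Agent.H.MP_e23cd6_ag.AB

variable {n : ℕ} {Ω : Dom n} {Γ : Type} [Group Γ]

/-- weight m forms on the base -/
def Wt (A : AffAct Ω Γ) (m : ℕ) (F : E n → ℂ) : Prop :=
  DifferentiableOn ℂ F Ω.D ∧ ∀ γ, ∀ b ∈ Ω.D,
    F (A.β γ b) * (Jac A.toBaseAct γ b * A.a γ b) ^ m = F b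

theorem wt_pow (A : AffAct Ω Γ) {m : ℕ} {F : E n → ℂ} (hF : Wt A m F) (j : ℕ) :
    Wt A (m * j) (fun b => F b ^ j) := by
  refine ⟨hF.1.pow j, fun γ b hb => ?_⟩
  rw [pow_mul, ← mul_pow, hF.2 γ b hb]

/-- at every point of the domain there is a form of some weight not vanishing there -/
theorem exists_form (A : AffAct Ω Γ) (hpd : BasePD A.toBaseAct) {b : E n} (hb : b ∈ Ω.D) :
    ∃ m : ℕ, 0 < m ∧ ∃ F, Wt A m F ∧ F b ≠ 0 := by
  haveI := countable_group A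
  obtain ⟨w, m', φ, hw, hφ, hP⟩ := poin_ne A.toBaseAct hpd hb
  obtain ⟨m, hm, hwm, hE⟩ := eis_ne A (exists_transl A hpd) hb hw (max m' 3)
  have hm3 : 3 ≤ m := (le_max_right _ _).trans hm
  have hmm : m' ≤ m := (le_max_left _ _).trans hm
  refine ⟨m, by omega, fun b => poin A.toBaseAct φ m b * eis A m b, ⟨?_, ?_⟩, ?_⟩
  · exact (poin_holo A.toBaseAct hpd hφ (by omega)).mul (eis_holo A hm3)
  · intro γ b hb
    have h1 := poin_trans A.toBaseAct φ m γ hb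
    have h2 := eis_trans A m γ hb
    show poin A.toBaseAct φ m (A.β γ b) * eis A m (A.β γ b) *
      (Jac A.toBaseAct γ b * A.a γ b) ^ m = poin A.toBaseAct φ m b * eis A m b
    rw [← h1, ← h2, mul_pow]
    ring
  · exact mul_ne_zero (hP m hmm hwm) hE

/-- finitely many forms of one weight without common zeros on the domain -/
theorem glob_gen (A : AffAct Ω Γ) (hpd : BasePD A.toBaseAct) :
    ∃ m : ℕ, 0 < m ∧ ∀ b ∈ Ω.D, ∃ F, Wt A m F ∧ F b ≠ 0 := by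
  classical
  obtain ⟨K, hK, hKc, R, hcc⟩ := A.cc
  choose! m hm F hF hne using fun (b : E n) (hb : b ∈ Ω.D) => exists_form A hpd hb
  -- cover K by the nonvanishing sets
  have hU : ∀ b ∈ K, ∃ U, U ∈ 𝓝[K] b ∧ ∀ x ∈ U, x ∈ K → F b x ≠ 0 := by
    intro b hb
    have hbD := hK hb
    have hc : ContinuousAt (F b) b :=
      ((hF b hbD).1.continuousOn.continuousAt (Ω.isOpen.mem_nhds hbD))
    have h1 : ∀ᶠ x in 𝓝 b, F b x ≠ 0 := hc.eventually_ne (hne b hbD)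
    exact ⟨{x | F b x ≠ 0}, mem_nhdsWithin_of_mem_nhds h1, fun x hx _ => hx⟩
  choose! U hU1 hU2 using hU
  obtain ⟨t, htK, ht⟩ := hKc.elim_nhdsWithin_subcover U hU1
  refine ⟨∏ i ∈ t, m i, Finset.prod_pos fun i hi => hm i (hK (htK i hi)), fun b hb => ?_⟩
  obtain ⟨γ, hγK, -⟩ := hcc b hb 0
  obtain ⟨i, hit, hiU⟩ := mem_iUnion₂.mp (ht hγK)
  have hiD := hK (htK i hit)
  have hFi : F i (A.β γ b) ≠ 0 := hU2 i (htK i hit) _ hiU hγK
  obtain ⟨j, hj⟩ := Finset.dvd_prod_of_mem m hit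
  refine ⟨fun x => F i x ^ j, ?_, ?_⟩
  · rw [hj]
    exact wt_pow A (hF i hiD) j
  · have h1 := (hF i hiD).2 γ b hb
    have h2 : F i b ≠ 0 := by
      rw [← h1]
      exact mul_ne_zero hFi (pow_ne_zero _ (mul_ne_zero (Jac_ne _ _ hb) (A.a_ne γ b hb)))
    exact pow_ne_zero _ h2

end Pool.Agent.H.MP_e23cd6_ag.AB
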