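import Pool.Agent.H.MP_e23cd6_ag.AB.B2
import Pool.Agent.H.MP_e23cd6_ag.AB.G9
import Pool.Agent.H.MP_e23cd6_ag.AB.H1
import Pool.Agent.H.MP_e23cd6_ag.AB.I6

/-!
ABUN Main: semiampleness of the orbifold canonical bundle of compact Kaehler orbifolds covered by
(bounded domain) × ℂ.
-/

open Set Filter Topology Metric

namespace Pool.Agent.H.MP_e23cd6_ag.AB

theorem main_aff {n : ℕ} {Ω : Dom n} {Γ : Type} [Group Γ] (A : AffAct Ω Γ) (h : KMet Ω.M)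
    (hinv : InvMet A h) :
    BasePD A.toBaseAct ∧
      ∃ m : ℕ, 0 < m ∧ ∀ b ∈ Ω.D, ∃ F, Wt A m F ∧ F b ≠ 0 := by
  have hpd : BasePD A.toBaseAct := base_pd A.toBaseAct (no_fields A h hinv)
  exact ⟨hpd, glob_gen A hpd⟩

theorem main {n : ℕ} {D : Set (E n)} (hD : IsOpen D) (hconn : IsPreconnected D)
    (hbdd : Bornology.IsBounded D) {Γ : Type} [Group Γ] (g : Γ → E n × ℂ → E n × ℂ)
    (maps : ∀ γ, MapsTo (g γ) (D ×ˢ univ) (D ×ˢ univ))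
    (holo : ∀ γ, DifferentiableOn ℂ (g γ) (D ×ˢ univ))
    (one : ∀ x ∈ D ×ˢ (univ : Set ℂ), g 1 x = x)
    (mul : ∀ γ δ, ∀ x ∈ D ×ˢ (univ : Set ℂ), g (γ * δ) x = g γ (g δ x))
    (pd : ∀ K ⊆ D ×ˢ (univ : Set ℂ), IsCompact K → {γ | (g γ '' K ∩ K).Nonempty}.Finite)
    (cc : ∃ K ⊆ D ×ˢ (univ : Set ℂ), IsCompact K ∧
      ∀ x ∈ D ×ˢ (univ : Set ℂ), ∃ γ, g γ x ∈ K)
    (h : KMet (D ×ˢ (univ : Set ℂ)))
    (hinv : ∀ γ, ∀ x ∈ D ×ˢ (univ : Set ℂ), ∀ v w,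
      h.h (g γ x) (fderiv ℂ (g γ) x v) (fderiv ℂ (g γ) x w) = h.h x v w) :
    (∃ m : ℕ, 0 < m ∧ ∀ x ∈ D ×ˢ (univ : Set ℂ), ∃ F : E n × ℂ → ℂ,
      DifferentiableOn ℂ F (D ×ˢ univ) ∧
      (∀ γ, ∀ y ∈ D ×ˢ (univ : Set ℂ), F (g γ y) * (fderiv ℂ (g γ) y).det ^ m = F y) ∧
      (∀ b z, F (b, z) = F (b, 0)) ∧ F x ≠ 0) ∧
    ∀ K ⊆ D, IsCompact K →
      {f : D → E n | ∃ γ, (∃ b ∈ K, (g γ (b, 0)).1 ∈ K) ∧
        f = fun b : D => (g γ ((b : E n), 0)).1}.Finite := by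
  classical
  rcases D.eq_empty_or_nonempty with rfl | ⟨b0, hb0⟩
  · refine ⟨⟨1, one_pos, fun x hx => absurd hx.1 (by simp)⟩, fun K hK _ => ?_⟩
    refine Set.Finite.subset (Set.finite_empty) ?_
    rintro f ⟨γ, ⟨b, hb, -⟩, -⟩
    exact absurd (hK hb) (by simp)
  · obtain ⟨r, hr, hball⟩ := Metric.nhds_basis_closedBall.mem_iff.mp (hD.mem_nhds hb0)
    let Ω : Dom n := ⟨D, hD, hconn, hbdd, b0, r / 2, r, by linarith, by linarith, hball⟩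
    obtain ⟨A, hA⟩ := exists_affAct Ω g maps holo one mul pd cc
    have hact : ∀ γ, EqOn (g γ) (A.act γ) (D ×ˢ univ) := by
      rintro γ ⟨b, z⟩ hx
      exact hA γ b hx.1 z
    have hMo : IsOpen (D ×ˢ (univ : Set ℂ)) := hD.prod isOpen_univ
    have hfd : ∀ γ, ∀ x ∈ D ×ˢ (univ : Set ℂ), fderiv ℂ (A.act γ) x = fderiv ℂ (g γ) x := by
      intro γ x hx
      refine Filter.EventuallyEq.fderiv_eq ?_
      filter_upwards [hMo.mem_nhds hx] with y hy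
      exact (hact γ hy).symm
    have hinv' : InvMet A h := by
      intro γ x hx v w
      have h1 := hinv γ x hx v w
      rw [← hfd γ x hx, hact γ hx] at h1
      exact h1
    obtain ⟨hpd, m, hm, hF⟩ := main_aff A h hinv'
    refine ⟨⟨m, hm, ?_⟩, ?_⟩
    · rintro ⟨b, z⟩ hx
      obtain ⟨F, hW, hne⟩ := hF b hx.1
      refine ⟨fun y => F y.1, ?_, ?_, fun _ _ => rfl, hne⟩
      · exact hW.1.comp differentiableOn_fst (fun y hy => hy.1)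
      · rintro γ ⟨b', z'⟩ hy
        have h1 := det_formula A (g γ) γ (hA γ) hy.1 z'
        have h2 := hW.2 γ b' hy.1
        show F (g γ (b', z')).1 * (fderiv ℂ (g γ) (b', z')).det ^ m = F b'
        rw [h1, hA γ b' hy.1 z']
        exact h2
    · intro K hK hKc
      obtain ⟨F, hFf, hF'⟩ := hpd K hK hKc
      refine Set.Finite.subset (hFf.image fun δ => fun b : D => A.β δ b) ?_
      rintro f ⟨γ, ⟨b, hb, hbK⟩, rfl⟩
      have e : ∀ γ, ∀ b ∈ D, (g γ (b, 0)).1 = A.β γ b := fun γ b hb => by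
        rw [hA γ b hb 0]
      rw [e γ b (hK hb)] at hbK
      obtain ⟨δ, hδ, hδ'⟩ := hF' γ ⟨b, hb, hbK⟩
      refine ⟨δ, hδ, ?_⟩
      funext b
      rw [e γ b b.2]
      exact (hδ' b b.2).symm

end Pool.Agent.H.MP_e23cd6_ag.AB
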